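import Mathlib
import Pool.Agent.Lib.MP_bdd9a3_nt.Mertens

/-! Mertens' theorems with explicit error terms. -/

namespace Pool.Agent.Lib.MP_973905_nt

open MeasureTheory

/-- primes in `(y, x]` -/
noncomputable def PS (y x : ℝ) : Finset ℕ := (Finset.Ioc ⌊y⌋₊ ⌊x⌋₊).filter Nat.Prime

namespace PrimeSum

/-- the Chebyshev-Mertens function `∑_{p ≤ x} log p / p` -/
noncomputable def A (x : ℝ) : ℝ := ∑ p ∈ (Finset.Icc 1 ⌊x⌋₊).filter Nat.Prime, Real.log p / p

theorem PS_zero (x : ℝ) : PS 0 x = (Finset.Icc 1 ⌊x⌋₊).filter Nat.Prime := by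
  unfold PS
  rw [Nat.floor_zero]
  rfl

theorem tele (N : ℕ) (hN : 1 ≤ N) :
    ∑ n ∈ Finset.Icc 2 N, Real.log n / ((n : ℝ) * ((n : ℝ) - 1)) ≤ 3 - (Real.log N + 3) / N := by
  induction N, hN using Nat.le_induction with
  | base => simp
  | succ n hn ih =>
    rw [Finset.sum_Icc_succ_top (by omega)]
    have hn0 : (1 : ℝ) ≤ n := by exact_mod_cast hn
    have hl : -(1 / (n : ℝ)) ≤ Real.log n - Real.log ((n : ℝ) + 1) := by
      have h1 : Real.log (((n : ℝ) + 1) / n) ≤ ((n : ℝ) + 1) / n - 1 :=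
        Real.log_le_sub_one_of_pos (by positivity)
      rw [Real.log_div (by positivity) (by positivity)] at h1
      have h2 : ((n : ℝ) + 1) / n - 1 = 1 / n := by field_simp; ring
      linarith
    have hl0 : 0 ≤ Real.log ((n : ℝ) + 1) := Real.log_nonneg (by linarith)
    push_cast
    have key : Real.log ((n : ℝ) + 1) / (((n : ℝ) + 1) * ((n : ℝ) + 1 - 1)) ≤
        (Real.log n + 3) / n - (Real.log ((n : ℝ) + 1) + 3) / ((n : ℝ) + 1) := by
      have hpos : 0 < (n : ℝ) * ((n : ℝ) + 1) := by positivity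
      rw [div_sub_div _ _ (by positivity) (by positivity),
        show ((n : ℝ) + 1) * ((n : ℝ) + 1 - 1) = n * ((n : ℝ) + 1) by ring]
      apply div_le_div_of_nonneg_right _ hpos.le
      have h3 : (Real.log n - Real.log ((n : ℝ) + 1)) * ((n : ℝ) + 1) ≥
          -(1 / (n : ℝ)) * ((n : ℝ) + 1) :=
        mul_le_mul_of_nonneg_right hl (by linarith)
      have h4 : (1 / (n : ℝ)) * ((n : ℝ) + 1) ≤ 2 := by
        rw [div_mul_eq_mul_div, one_mul, div_le_iff₀ (by linarith)]; linarith
      nlinarith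
    linarith

theorem A_lower_nat (n : ℕ) (hn : 1 ≤ n) :
    Real.log n - 4 ≤ ∑ p ∈ (Finset.Icc 1 n).filter Nat.Prime, Real.log p / p := by
  have h1 := Pool.Agent.Lib.MP_bdd9a3_nt.mertens_lower n hn
  have h2 : ∑ p ∈ (Finset.Icc 1 n).filter Nat.Prime, Real.log p / ((p : ℝ) - 1) -
      ∑ p ∈ (Finset.Icc 1 n).filter Nat.Prime, Real.log p / p ≤ 3 := by
    rw [← Finset.sum_sub_distrib]
    calc ∑ p ∈ (Finset.Icc 1 n).filter Nat.Prime,
          (Real.log p / ((p : ℝ) - 1) - Real.log p / p)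
        = ∑ p ∈ (Finset.Icc 1 n).filter Nat.Prime,
          Real.log p / ((p : ℝ) * ((p : ℝ) - 1)) := by
          apply Finset.sum_congr rfl
          intro p hp
          have hp1 : (1 : ℝ) < p := by exact_mod_cast (Finset.mem_filter.1 hp).2.one_lt
          have : (p : ℝ) - 1 ≠ 0 := by linarith
          have : (p : ℝ) ≠ 0 := by linarith
          field_simp
          ring
      _ ≤ ∑ p ∈ Finset.Icc 2 n, Real.log p / ((p : ℝ) * ((p : ℝ) - 1)) := by
          apply Finset.sum_le_sum_of_subset_of_nonneg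
          · intro p hp
            simp only [Finset.mem_filter, Finset.mem_Icc] at hp ⊢
            exact ⟨hp.2.two_le, hp.1.2⟩
          · intro p hp _
            have hp1 : (2 : ℝ) ≤ p := by exact_mod_cast (Finset.mem_Icc.1 hp).1
            apply div_nonneg (Real.log_nonneg (by linarith))
            apply mul_nonneg <;> linarith
      _ ≤ 3 - (Real.log n + 3) / n := tele n hn
      _ ≤ 3 := by
          have : 0 ≤ (Real.log n + 3) / n := by
            apply div_nonneg _ (by positivity)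
            have := Real.log_nonneg (show (1 : ℝ) ≤ n by exact_mod_cast hn)
            linarith
          linarith
  linarith

theorem A_bound (x : ℝ) (hx : 1 ≤ x) : |A x - Real.log x| ≤ 5 := by
  have hf : 1 ≤ ⌊x⌋₊ := by rw [Nat.one_le_floor_iff]; exact hx
  have hf1 : (1 : ℝ) ≤ ⌊x⌋₊ := by exact_mod_cast hf
  have h1 := A_lower_nat ⌊x⌋₊ hf
  have h2 := Pool.Agent.Lib.MP_bdd9a3_nt.mertens_upper ⌊x⌋₊ hf
  have h3 : Real.log (⌊x⌋₊ : ℝ) ≤ Real.log x :=
    Real.log_le_log (by linarith) (Nat.floor_le (by linarith))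
  have h4 : Real.log x ≤ Real.log (⌊x⌋₊ : ℝ) + 1 := by
    have h5 : x ≤ 2 * (⌊x⌋₊ : ℝ) := by
      have := Nat.lt_floor_add_one x
      linarith
    calc Real.log x ≤ Real.log (2 * (⌊x⌋₊ : ℝ)) := Real.log_le_log (by linarith) h5
      _ = Real.log 2 + Real.log (⌊x⌋₊ : ℝ) := Real.log_mul (by norm_num) (by linarith)
      _ ≤ _ := by have := Real.log_two_lt_d9; linarith
  have h6 : Real.log 4 ≤ 2 := by
    rw [show (4 : ℝ) = 2 ^ 2 by norm_num, Real.log_pow]
    have := Real.log_two_lt_d9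
    push_cast; linarith
  unfold A
  rw [abs_le]
  constructor <;> linarith

theorem A_measurable : Measurable A := by
  unfold A
  exact (measurable_from_top (f := fun n : ℕ =>
    ∑ p ∈ (Finset.Icc 1 n).filter Nat.Prime, Real.log p / (p : ℝ))).comp Nat.measurable_floor

theorem hasDeriv_f (t : ℝ) (ht : 1 < t) :
    HasDerivAt (fun t : ℝ => (Real.log t)⁻¹) (-(t⁻¹) / (Real.log t) ^ 2) t :=
  (Real.hasDerivAt_log (by linarith)).inv (Real.log_pos ht).ne'

theorem cont_f' (y x : ℝ) (hy : 2 ≤ y) :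
    ContinuousOn (fun t : ℝ => -(t⁻¹) / (Real.log t) ^ 2) (Set.Icc y x) := by
  intro t ht
  have h1 : 1 < t := by have := ht.1; linarith
  apply ContinuousAt.continuousWithinAt
  apply ContinuousAt.div
  · exact (continuousAt_inv₀ (by linarith)).neg
  · exact (Real.continuousAt_log (by linarith)).pow 2
  · exact pow_ne_zero _ (Real.log_pos h1).ne'

theorem range_bound (y x : ℝ) (hy : 2 ≤ y) (hyx : y ≤ x) :
    |∑ p ∈ PS y x, (1 : ℝ) / p - Real.log (Real.log x / Real.log y)| ≤ 10 / Real.log y := by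
  have hly : 0 < Real.log y := Real.log_pos (by linarith)
  have hlx : 0 < Real.log x := Real.log_pos (by linarith)
  have hlyx : Real.log y ≤ Real.log x := Real.log_le_log (by linarith) hyx
  set c : ℕ → ℝ := fun n => if n.Prime then Real.log n / n else 0 with hc
  have hA : ∀ t : ℝ, ∑ k ∈ Finset.Icc 0 ⌊t⌋₊, c k = A t := by
    intro t
    unfold A
    rw [Finset.sum_filter]
    symm
    apply Finset.sum_subset
    · intro k hk
      simp only [Finset.mem_Icc] at hk ⊢
      omega
    · intro k hk hk'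
      simp only [Finset.mem_Icc] at hk hk'
      have : k = 0 := by omega
      subst this
      simp
  have hder : ∀ t ∈ Set.Icc y x, HasDerivAt (fun t : ℝ => (Real.log t)⁻¹)
      (-(t⁻¹) / (Real.log t) ^ 2) t := fun t ht => hasDeriv_f t (by have := ht.1; linarith)
  have hcont := cont_f' y x hy
  have hint0 : IntegrableOn (fun t : ℝ => -(t⁻¹) / (Real.log t) ^ 2) (Set.Icc y x) :=
    hcont.integrableOn_Icc
  have hderiv : ∀ t ∈ Set.Icc y x, deriv (fun t : ℝ => (Real.log t)⁻¹) t =
      -(t⁻¹) / (Real.log t) ^ 2 := fun t ht => (hder t ht).deriv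
  have hint : IntegrableOn (deriv (fun t : ℝ => (Real.log t)⁻¹)) (Set.Icc y x) :=
    hint0.congr_fun (fun t ht => (hderiv t ht).symm) measurableSet_Icc
  have habel := sum_mul_eq_sub_sub_integral_mul c (f := fun t : ℝ => (Real.log t)⁻¹)
    (show 0 ≤ y by linarith) hyx (fun t ht => (hder t ht).differentiableAt) hint
  simp only [hA] at habel
  have hsum : ∑ p ∈ PS y x, (1 : ℝ) / p =
      ∑ k ∈ Finset.Ioc ⌊y⌋₊ ⌊x⌋₊, (Real.log k)⁻¹ * c k := by
    unfold PS
    rw [Finset.sum_filter]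
    apply Finset.sum_congr rfl
    intro p _
    simp only [hc]
    split_ifs with hp
    · have h1 : Real.log p ≠ 0 := (Real.log_pos (by exact_mod_cast hp.one_lt)).ne'
      have h2 : (p : ℝ) ≠ 0 := by exact_mod_cast hp.ne_zero
      field_simp
    · simp
  rw [hsum, habel]
  -- rewrite the integral
  have hsub : Set.Ioc y x ⊆ Set.Icc y x := Set.Ioc_subset_Icc_self
  have e1 : ∫ t in Set.Ioc y x, deriv (fun t : ℝ => (Real.log t)⁻¹) t * A t =
      ∫ t in Set.Ioc y x, (-(t⁻¹) / (Real.log t) ^ 2) * A t := by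
    apply setIntegral_congr_fun measurableSet_Ioc
    intro t ht
    simp only
    rw [hderiv t (hsub ht)]
  rw [e1]
  have hint1 : IntegrableOn (fun t : ℝ => -(t⁻¹) / (Real.log t) ^ 2) (Set.Ioc y x) :=
    hint0.mono_set hsub
  have hint2 : IntegrableOn (fun t : ℝ => (-(t⁻¹) / (Real.log t) ^ 2) * Real.log t)
      (Set.Ioc y x) := by
    apply IntegrableOn.mono_set _ hsub
    apply ContinuousOn.integrableOn_Icc
    apply hcont.mul
    intro t ht
    exact (Real.continuousAt_log (by have := ht.1; linarith)).continuousWithinAt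
  have hbdE : ∀ t ∈ Set.Ioc y x, |A t - Real.log t| ≤ 5 := fun t ht =>
    A_bound t (by have := ht.1; linarith)
  have hint3 : IntegrableOn (fun t : ℝ => (-(t⁻¹) / (Real.log t) ^ 2) * (A t - Real.log t))
      (Set.Ioc y x) := by
    apply Integrable.mul_bdd (c := 5) hint1
    · exact (A_measurable.sub Real.measurable_log).aestronglyMeasurable
    · rw [ae_restrict_iff' measurableSet_Ioc]
      exact Filter.Eventually.of_forall hbdE
  have e2 : ∫ t in Set.Ioc y x, (-(t⁻¹) / (Real.log t) ^ 2) * A t =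
      (∫ t in Set.Ioc y x, (-(t⁻¹) / (Real.log t) ^ 2) * (A t - Real.log t)) +
      ∫ t in Set.Ioc y x, (-(t⁻¹) / (Real.log t) ^ 2) * Real.log t := by
    rw [← integral_add hint3 hint2]
    apply setIntegral_congr_fun measurableSet_Ioc
    intro t _
    simp only
    ring
  have e3 : ∫ t in Set.Ioc y x, (-(t⁻¹) / (Real.log t) ^ 2) * Real.log t =
      -(Real.log (Real.log x) - Real.log (Real.log y)) := by
    have hd : ∀ t ∈ Set.uIcc y x, HasDerivAt (fun t : ℝ => -Real.log (Real.log t))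
        ((-(t⁻¹) / (Real.log t) ^ 2) * Real.log t) t := by
      intro t ht
      rw [Set.uIcc_of_le hyx] at ht
      have h1 : 1 < t := by have := ht.1; linarith
      have h3 := (Real.log_pos h1).ne'
      have h4 : t ≠ 0 := by linarith
      have h2 := ((Real.hasDerivAt_log (show t ≠ 0 by linarith)).log (Real.log_pos h1).ne').neg
      refine HasDerivAt.congr_deriv h2 ?_
      field_simp
    have h3 := intervalIntegral.integral_eq_sub_of_hasDerivAt hd (by
      rw [intervalIntegrable_iff_integrableOn_Ioc_of_le hyx]; exact hint2)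
    rw [intervalIntegral.integral_of_le hyx] at h3
    rw [h3]; ring
  have e4 : |∫ t in Set.Ioc y x, (-(t⁻¹) / (Real.log t) ^ 2) * (A t - Real.log t)| ≤
      5 * ((Real.log y)⁻¹ - (Real.log x)⁻¹) := by
    have hd : ∀ t ∈ Set.uIcc y x, HasDerivAt (fun t : ℝ => (Real.log t)⁻¹)
        (-(t⁻¹) / (Real.log t) ^ 2) t := by
      intro t ht
      rw [Set.uIcc_of_le hyx] at ht
      exact hder t ht
    have h3 := intervalIntegral.integral_eq_sub_of_hasDerivAt hd (by
      rw [intervalIntegrable_iff_integrableOn_Ioc_of_le hyx]; exact hint1)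
    rw [intervalIntegral.integral_of_le hyx] at h3
    calc |∫ t in Set.Ioc y x, (-(t⁻¹) / (Real.log t) ^ 2) * (A t - Real.log t)|
        ≤ ∫ t in Set.Ioc y x, |(-(t⁻¹) / (Real.log t) ^ 2) * (A t - Real.log t)| :=
          abs_integral_le_integral_abs
      _ ≤ ∫ t in Set.Ioc y x, -5 * (-(t⁻¹) / (Real.log t) ^ 2) := by
          apply setIntegral_mono_on hint3.abs (hint1.const_mul _) measurableSet_Ioc
          intro t ht
          have h1 : 0 < t := by have := ht.1; linarith
          have h2 : -(t⁻¹) / (Real.log t) ^ 2 ≤ 0 :=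
            div_nonpos_of_nonpos_of_nonneg (by simp [h1.le]) (sq_nonneg _)
          rw [abs_mul, abs_of_nonpos h2]
          have h3 := hbdE t ht
          nlinarith
      _ = -5 * ((Real.log x)⁻¹ - (Real.log y)⁻¹) := by
          rw [integral_const_mul, h3]
      _ = _ := by ring
  rw [e2, e3, Real.log_div hlx.ne' hly.ne']
  have hAx := A_bound x (by linarith)
  have hAy := A_bound y (by linarith)
  have e5 : (Real.log x)⁻¹ * A x = 1 + (Real.log x)⁻¹ * (A x - Real.log x) := by
    field_simp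
    ring
  have e6 : (Real.log y)⁻¹ * A y = 1 + (Real.log y)⁻¹ * (A y - Real.log y) := by
    field_simp
    ring
  rw [e5, e6]
  have b1 : |(Real.log x)⁻¹ * (A x - Real.log x)| ≤ 5 * (Real.log x)⁻¹ := by
    rw [abs_mul, abs_of_pos (inv_pos.2 hlx)]
    have := inv_pos.2 hlx
    nlinarith
  have b2 : |(Real.log y)⁻¹ * (A y - Real.log y)| ≤ 5 * (Real.log y)⁻¹ := by
    rw [abs_mul, abs_of_pos (inv_pos.2 hly)]
    have := inv_pos.2 hly
    nlinarith
  rw [abs_le] at *
  have : 10 / Real.log y = 10 * (Real.log y)⁻¹ := by rw [div_eq_mul_inv]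
  rw [this]
  constructor
  · linarith [b1.1, b2.2, e4.2]
  · linarith [b1.2, b2.1, e4.1]

end PrimeSum

theorem sum_log_div_le : ∃ C : ℝ, 0 < C ∧ ∀ x : ℝ, 1 ≤ x →
    ∑ p ∈ PS 0 x, Real.log p / p ≤ Real.log x + C := by
  refine ⟨5, by norm_num, fun x hx => ?_⟩
  rw [PrimeSum.PS_zero]
  have := (abs_le.1 (PrimeSum.A_bound x hx)).2
  unfold PrimeSum.A at this
  linarith

theorem sum_inv_range : ∃ C : ℝ, 0 < C ∧ ∀ y x : ℝ, 2 ≤ y → y ≤ x →
    |∑ p ∈ PS y x, (1 : ℝ) / p - Real.log (Real.log x / Real.log y)| ≤ C / Real.log y :=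
  ⟨10, by norm_num, fun y x hy hyx => PrimeSum.range_bound y x hy hyx⟩

theorem sum_inv : ∃ C : ℝ, 0 < C ∧ ∀ x : ℝ, 2 ≤ x →
    |∑ p ∈ PS 0 x, (1 : ℝ) / p - Real.log (Real.log x)| ≤ C := by
  refine ⟨30, by norm_num, fun x hx => ?_⟩
  have h1 := PrimeSum.range_bound 2 x le_rfl hx
  have hl2 : 0.6931471803 < Real.log 2 := Real.log_two_gt_d9
  have hl2' : Real.log 2 < 0.6931471808 := Real.log_two_lt_d9
  have hlx : 0 < Real.log x := Real.log_pos (by linarith)
  have h2 : ∑ p ∈ PS 0 x, (1 : ℝ) / p = 1 / 2 + ∑ p ∈ PS 2 x, (1 : ℝ) / p := by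
    unfold PS
    have hf : 2 ≤ ⌊x⌋₊ := Nat.le_floor (by simpa using hx)
    rw [Nat.floor_zero, Nat.floor_ofNat]
    have : (Finset.Ioc 0 ⌊x⌋₊).filter Nat.Prime =
        insert 2 ((Finset.Ioc 2 ⌊x⌋₊).filter Nat.Prime) := by
      ext p
      simp only [Finset.mem_filter, Finset.mem_Ioc, Finset.mem_insert]
      constructor
      · rintro ⟨⟨h1, h2⟩, h3⟩
        rcases h3.two_le.lt_or_eq with h | h
        · exact Or.inr ⟨⟨h, h2⟩, h3⟩
        · exact Or.inl h.symm
      · rintro (h | ⟨⟨h1, h2⟩, h3⟩)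
        · subst h; exact ⟨⟨by norm_num, hf⟩, Nat.prime_two⟩
        · exact ⟨⟨by omega, h2⟩, h3⟩
    rw [this, Finset.sum_insert (by simp)]
    norm_num
  rw [Real.log_div hlx.ne' (by linarith)] at h1
  have h3 : |Real.log (Real.log 2)| ≤ 1 := by
    rw [abs_le]
    constructor
    · rw [← Real.log_exp (-1)]
      apply Real.log_le_log (Real.exp_pos _)
      have : Real.exp (-1) < 0.3678794412 := Real.exp_neg_one_lt_d9
      linarith
    · have := Real.log_le_sub_one_of_pos (show 0 < Real.log 2 by linarith)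
      linarith
  have h4 : 10 / Real.log 2 ≤ 20 := by
    rw [div_le_iff₀ (by linarith)]; linarith
  rw [h2]
  rw [abs_le] at *
  constructor
  · linarith [h1.1, h3.1, h3.2]
  · linarith [h1.2, h3.1, h3.2]

end Pool.Agent.Lib.MP_973905_nt
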