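import Mathlib

namespace Pool.Agent.Lib.MP_973905_nt

open MeasureTheory Complex Set Filter Asymptotics Topology

/-! ### Polynomial growth -/

/-- The fractional part on `(1, ∞)`. -/
noncomputable def frg (t : ℝ) : ℂ := (Ioi (1 : ℝ)).indicator (fun t : ℝ => ((Int.fract t : ℝ) : ℂ)) t

lemma frg_norm (t : ℝ) : ‖frg t‖ ≤ 1 := by
  unfold frg
  by_cases h : t ∈ Ioi (1 : ℝ)
  · rw [indicator_of_mem h, Complex.norm_real, Real.norm_eq_abs, abs_of_nonneg (Int.fract_nonneg t)]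
    exact (Int.fract_lt_one t).le
  · rw [indicator_of_notMem h]
    simp

lemma frg_measurable : Measurable frg := by
  unfold frg
  exact (Complex.measurable_ofReal.comp measurable_fract).indicator measurableSet_Ioi

lemma frg_locInt : LocallyIntegrableOn frg (Ioi 0) := by
  have h : LocallyIntegrable frg := by
    refine (locallyIntegrable_const (1 : ℝ)).mono frg_measurable.aestronglyMeasurable ?_
    filter_upwards with t
    rw [norm_one]
    exact frg_norm t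
  exact h.locallyIntegrableOn _

lemma frg_diff {s : ℂ} (hs : 0 < s.re) : DifferentiableAt ℂ (fun s => mellin frg (-s)) s := by
  have h : DifferentiableAt ℂ (mellin frg) (-s) := by
    refine mellin_differentiableAt_of_isBigO_rpow (a := 0) (b := (-s).re - 1) frg_locInt ?_ ?_ ?_ ?_
    · refine IsBigO.of_bound 1 ?_
      filter_upwards with t
      simpa using frg_norm t
    · simpa using hs
    · refine IsBigO.of_bound 1 ?_
      have : Iio (1 : ℝ) ∈ 𝓝[>] (0 : ℝ) := mem_nhdsWithin_of_mem_nhds (Iio_mem_nhds one_pos)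
      filter_upwards [this] with t ht
      have : frg t = 0 := indicator_of_notMem (by simpa using (ht : t < 1).le) _
      rw [this, norm_zero]
      positivity
    · linarith
  exact h.comp s differentiableAt_id.neg

lemma mellin_frg (s : ℂ) :
    mellin frg (-s) = ∫ t in Ioi (1 : ℝ), (t : ℂ) ^ (-(s + 1)) * ((Int.fract t : ℝ) : ℂ) := by
  have h1 : mellin frg (-s) = ∫ t in Ioi (0 : ℝ), (Ioi (1 : ℝ)).indicator
      (fun t : ℝ => (t : ℂ) ^ (-(s + 1)) * ((Int.fract t : ℝ) : ℂ)) t := by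
    unfold mellin
    refine setIntegral_congr_fun measurableSet_Ioi fun t _ => ?_
    simp only [frg, smul_eq_mul]
    by_cases h : t ∈ Ioi (1 : ℝ)
    · rw [indicator_of_mem h, indicator_of_mem h, show -s - 1 = -(s + 1) by ring]
    · rw [indicator_of_notMem h, indicator_of_notMem h, mul_zero]
  rw [h1, setIntegral_indicator measurableSet_Ioi]
  congr 2
  ext t
  simp only [mem_inter_iff, mem_Ioi]
  constructor
  · rintro ⟨_, h⟩; exact h
  · intro h; exact ⟨by linarith, h⟩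

lemma mellin_frg_bound {s : ℂ} (hs : 0 < s.re) : ‖mellin frg (-s)‖ ≤ 1 / s.re := by
  rw [mellin_frg]
  have h1 : ∫ t in Ioi (1 : ℝ), t ^ (-(s.re + 1)) = 1 / s.re := by
    rw [integral_Ioi_rpow_of_lt (by linarith) one_pos, Real.one_rpow]
    rw [show -(s.re + 1) + 1 = -s.re by ring]
    rw [neg_div_neg_eq]
  rw [← h1]
  refine norm_integral_le_of_norm_le (integrableOn_Ioi_rpow_of_lt (by linarith) one_pos) ?_
  rw [ae_restrict_iff' measurableSet_Ioi]
  filter_upwards with t ht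
  have ht0 : (0 : ℝ) < t := lt_trans one_pos ht
  rw [norm_mul, norm_cpow_eq_rpow_re_of_pos ht0, Complex.norm_real, Real.norm_eq_abs,
    abs_of_nonneg (Int.fract_nonneg t)]
  have h2 : (-(s + 1)).re = -(s.re + 1) := by simp
  rw [h2]
  have h3 := (Int.fract_lt_one t).le
  have h4 : 0 ≤ t ^ (-(s.re + 1)) := Real.rpow_nonneg ht0.le _
  calc t ^ (-(s.re + 1)) * Int.fract t ≤ t ^ (-(s.re + 1)) * 1 := by gcongr
    _ = _ := mul_one _

lemma zeta_eq_of_one_lt {s : ℂ} (hs : 1 < s.re) :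
    riemannZeta₁ s = s - s * (s - 1) * mellin frg (-s) := by
  have hs1 : s ≠ 1 := by
    rintro rfl
    simp at hs
  have hs1' : s - 1 ≠ 0 := sub_ne_zero.2 hs1
  have h1 : riemannZeta s = s * ∫ t in Ioi (1 : ℝ), (∑ k ∈ Finset.Icc 1 ⌊t⌋₊, (1 : ℕ → ℂ) k) *
      (t : ℂ) ^ (-(s + 1)) := by
    rw [← LSeries_one_eq_riemannZeta hs]
    refine LSeries_eq_mul_integral _ (r := 1) zero_le_one hs (LSeriesSummable_one_iff.2 hs) ?_
    refine IsBigO.of_bound 1 ?_
    filter_upwards with n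
    simp
  have h2 : ∫ t in Ioi (1 : ℝ), (∑ k ∈ Finset.Icc 1 ⌊t⌋₊, (1 : ℕ → ℂ) k) * (t : ℂ) ^ (-(s + 1)) =
      ∫ t in Ioi (1 : ℝ), ((t : ℂ) ^ (-s) - (t : ℂ) ^ (-(s + 1)) * ((Int.fract t : ℝ) : ℂ)) := by
    refine setIntegral_congr_fun measurableSet_Ioi fun t ht => ?_
    have ht0 : (0 : ℝ) < t := lt_trans one_pos ht
    have e1 : (∑ k ∈ Finset.Icc 1 ⌊t⌋₊, (1 : ℕ → ℂ) k) = ((⌊t⌋₊ : ℝ) : ℂ) := by simp
    have e2 : (⌊t⌋₊ : ℝ) = t - Int.fract t := by
      rw [natCast_floor_eq_intCast_floor ht0.le]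
      exact (Int.self_sub_fract t).symm
    have e3 : (t : ℂ) ^ (-s) = (t : ℂ) * (t : ℂ) ^ (-(s + 1)) := by
      have : -s = 1 + -(s + 1) := by ring
      conv_lhs => rw [this]
      rw [cpow_add _ _ (by exact_mod_cast ht0.ne'), cpow_one]
    simp only [e1, e2, e3]
    push_cast
    ring
  have hi1 : IntegrableOn (fun t : ℝ => (t : ℂ) ^ (-s)) (Ioi 1) :=
    integrableOn_Ioi_cpow_of_lt (by simpa using hs) one_pos
  have hi2 : IntegrableOn (fun t : ℝ => (t : ℂ) ^ (-(s + 1)) * ((Int.fract t : ℝ) : ℂ)) (Ioi 1) := by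
    have h0 : IntegrableOn (fun t : ℝ => (t : ℂ) ^ (-(s + 1))) (Ioi 1) :=
      integrableOn_Ioi_cpow_of_lt (by simp; linarith) one_pos
    refine Integrable.mono h0 ?_ ?_
    · exact h0.aestronglyMeasurable.mul
        (Complex.measurable_ofReal.comp measurable_fract).aestronglyMeasurable
    · filter_upwards with t
      rw [norm_mul, Complex.norm_real, Real.norm_eq_abs, abs_of_nonneg (Int.fract_nonneg t)]
      have h3 := (Int.fract_lt_one t).le
      have h4 : 0 ≤ ‖(t : ℂ) ^ (-(s + 1))‖ := norm_nonneg _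
      calc ‖(t : ℂ) ^ (-(s + 1))‖ * Int.fract t ≤ ‖(t : ℂ) ^ (-(s + 1))‖ * 1 := by gcongr
        _ = _ := mul_one _
  rw [h2, integral_sub hi1 hi2, ← mellin_frg, integral_Ioi_cpow_of_lt (by simpa using hs) one_pos]
    at h1
  have h3 : riemannZeta₁ s = (s - 1) * riemannZeta s := by
    rw [riemannZeta_eq_inv_sub_mul hs1]
    field_simp
  rw [h3, h1]
  have h4 : -s + 1 ≠ 0 := by
    intro h
    apply hs1'
    linear_combination -h
  simp only [ofReal_one, one_cpow]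
  field_simp
  ring

lemma zeta_eq {s : ℂ} (hs : 0 < s.re) :
    riemannZeta₁ s = s - s * (s - 1) * mellin frg (-s) := by
  have hopen : IsOpen {s : ℂ | 0 < s.re} := isOpen_lt continuous_const continuous_re
  have h1 : AnalyticOnNhd ℂ riemannZeta₁ {s : ℂ | 0 < s.re} :=
    DifferentiableOn.analyticOnNhd differentiable_riemannZeta₁.differentiableOn hopen
  have h2 : AnalyticOnNhd ℂ (fun s => s - s * (s - 1) * mellin frg (-s)) {s : ℂ | 0 < s.re} := by
    refine DifferentiableOn.analyticOnNhd (fun s hs => ?_) hopen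
    have h := frg_diff hs
    refine DifferentiableAt.differentiableWithinAt ?_
    exact differentiableAt_id.sub ((differentiableAt_id.mul
      (differentiableAt_id.sub_const 1)).mul h)
  have hc : IsPreconnected {s : ℂ | 0 < s.re} := (convex_halfSpace_re_gt 0).isPreconnected
  refine h1.eqOn_of_preconnected_of_eventuallyEq h2 hc (z₀ := 2) (by simp) ?_ hs
  have : {s : ℂ | 1 < s.re} ∈ 𝓝 (2 : ℂ) :=
    (isOpen_lt continuous_const continuous_re).mem_nhds (by simp)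
  filter_upwards [this] with z hz
  exact zeta_eq_of_one_lt hz

/-- M2a: polynomial growth of zeta. -/
theorem zeta_growth : ∃ C : ℝ, 0 < C ∧ ∀ s : ℂ, 1 / 8 ≤ s.re → s.re ≤ 10 →
    ‖riemannZeta₁ s‖ ≤ C * (1 + |s.im|) ^ 2 := by
  refine ⟨1000, by norm_num, fun s h1 h2 => ?_⟩
  have hpos : 0 < s.re := by linarith
  rw [zeta_eq hpos]
  have hb : ‖mellin frg (-s)‖ ≤ 8 := by
    refine (mellin_frg_bound hpos).trans ?_
    rw [div_le_iff₀ hpos]
    linarith
  have hs : ‖s‖ ≤ 10 * (1 + |s.im|) := by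
    have := Complex.norm_le_abs_re_add_abs_im s
    rw [abs_of_pos hpos] at this
    have h3 := abs_nonneg s.im
    linarith
  have hs1 : ‖s - 1‖ ≤ 11 * (1 + |s.im|) := by
    have h3 : ‖s - 1‖ ≤ ‖s‖ + ‖(1 : ℂ)‖ := norm_sub_le _ _
    rw [norm_one] at h3
    have h4 := abs_nonneg s.im
    linarith
  have hy : 1 ≤ 1 + |s.im| := by linarith [abs_nonneg s.im]
  calc ‖s - s * (s - 1) * mellin frg (-s)‖ ≤ ‖s‖ + ‖s * (s - 1) * mellin frg (-s)‖ :=
        norm_sub_le _ _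
    _ = ‖s‖ + ‖s‖ * ‖s - 1‖ * ‖mellin frg (-s)‖ := by rw [norm_mul, norm_mul]
    _ ≤ 10 * (1 + |s.im|) + 10 * (1 + |s.im|) * (11 * (1 + |s.im|)) * 8 := by gcongr
    _ ≤ 1000 * (1 + |s.im|) ^ 2 := by nlinarith

/-! ### The factor of the functional equation -/

/-- The factor of the functional equation. -/
noncomputable def FF (s : ℂ) : ℂ :=
  2 * (2 * Real.pi) ^ (-s) * Gamma s * cos (Real.pi * s / 2)

lemma two_pi_ne : (2 * Real.pi : ℂ) ≠ 0 := by
  have := Real.pi_ne_zero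
  simp [this]

lemma FF_conj (s : ℂ) : FF (starRingEnd ℂ s) = starRingEnd ℂ (FF s) := by
  unfold FF
  have h1 : (2 * Real.pi : ℂ) = ((2 * Real.pi : ℝ) : ℂ) := by push_cast; rfl
  have h2 : (2 * Real.pi : ℂ) ^ (-(starRingEnd ℂ s)) = starRingEnd ℂ ((2 * Real.pi : ℂ) ^ (-s)) := by
    rw [h1, ← map_neg, cpow_conj _ _ (by
      rw [arg_ofReal_of_nonneg (by positivity)]
      exact Real.pi_ne_zero.symm), conj_ofReal]
  have h3 : cos (Real.pi * (starRingEnd ℂ s) / 2) = starRingEnd ℂ (cos (Real.pi * s / 2)) := by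
    rw [← cos_conj]
    congr 1
    rw [map_div₀, map_mul, conj_ofReal]
    congr 1
    exact (conj_ofNat 2).symm
  rw [h2, h3, Gamma_conj, map_mul, map_mul, map_mul]
  congr 3
  exact (conj_ofNat 2).symm

lemma one_sub_half (t : ℝ) : 1 - ((1 / 2 : ℝ) + t * I : ℂ) = starRingEnd ℂ ((1 / 2 : ℝ) + t * I : ℂ) := by
  rw [map_add, map_mul, conj_ofReal, conj_ofReal, conj_I]
  push_cast
  ring

lemma FF_mul (t : ℝ) : FF ((1 / 2 : ℝ) + t * I) * FF (1 - ((1 / 2 : ℝ) + t * I)) = 1 := by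
  set s : ℂ := (1 / 2 : ℝ) + t * I with hs
  have hre : s.re = 1 / 2 := by simp [hs]
  have hsin : sin (Real.pi * s) ≠ 0 := by
    intro h
    rw [Complex.sin_eq_zero_iff] at h
    obtain ⟨k, hk⟩ := h
    have hpi : (Real.pi : ℂ) ≠ 0 := by exact_mod_cast Real.pi_ne_zero
    have h1 : s = k := by
      have : (Real.pi : ℂ) * s = Real.pi * k := by rw [hk]; ring
      exact mul_left_cancel₀ hpi this
    have h2 : (1 / 2 : ℝ) = k := by
      rw [← hre, h1]
      simp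
    have h3 : (1 : ℝ) = 2 * k := by linarith
    have h4 : (1 : ℤ) = 2 * k := by exact_mod_cast h3
    omega
  have h1 : (2 * Real.pi : ℂ) ^ (-s) * (2 * Real.pi : ℂ) ^ (-(1 - s)) = (2 * Real.pi : ℂ)⁻¹ := by
    rw [← cpow_add _ _ two_pi_ne]
    rw [show -s + -(1 - s) = -1 by ring, cpow_neg_one]
  have h2 : cos (Real.pi * (1 - s) / 2) = sin (Real.pi * s / 2) := by
    rw [show (Real.pi * (1 - s) / 2 : ℂ) = Real.pi / 2 - Real.pi * s / 2 by ring]
    exact Complex.cos_pi_div_two_sub _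
  have h3 : sin (Real.pi * s) = 2 * sin (Real.pi * s / 2) * cos (Real.pi * s / 2) := by
    rw [← Complex.sin_two_mul]
    congr 1
    ring
  have h4 := Complex.Gamma_mul_Gamma_one_sub s
  unfold FF
  rw [h2]
  calc 2 * (2 * Real.pi : ℂ) ^ (-s) * Gamma s * cos (Real.pi * s / 2) *
        (2 * (2 * Real.pi) ^ (-(1 - s)) * Gamma (1 - s) * sin (Real.pi * s / 2))
      = 2 * ((2 * Real.pi : ℂ) ^ (-s) * (2 * Real.pi : ℂ) ^ (-(1 - s))) *
        (Gamma s * Gamma (1 - s)) * (2 * sin (Real.pi * s / 2) * cos (Real.pi * s / 2)) := by ring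
    _ = 2 * (2 * Real.pi : ℂ)⁻¹ * (Real.pi / sin (Real.pi * s)) * sin (Real.pi * s) := by
        rw [h1, h4, ← h3]
    _ = 1 := by
        have hpi : (Real.pi : ℂ) ≠ 0 := by exact_mod_cast Real.pi_ne_zero
        field_simp

lemma FF_half (t : ℝ) : ‖FF ((1 / 2 : ℝ) + t * I)‖ = 1 := by
  have h := FF_mul t
  rw [one_sub_half, FF_conj] at h
  have h2 := congrArg norm h
  rw [norm_mul, norm_conj, norm_one] at h2
  have h3 := norm_nonneg (FF ((1 / 2 : ℝ) + t * I))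
  nlinarith

lemma FF_three_half (t : ℝ) :
    ‖FF ((3 / 2 : ℝ) + t * I)‖ = ‖((1 / 2 : ℝ) + t * I : ℂ)‖ / (2 * Real.pi) := by
  set s : ℂ := (1 / 2 : ℝ) + t * I with hs
  have hs' : ((3 / 2 : ℝ) + t * I : ℂ) = s + 1 := by
    rw [hs]; push_cast; ring
  have hs0 : s ≠ 0 := by
    intro h
    have := congrArg re h
    simp [hs] at this
  have h1 : (2 * Real.pi : ℂ) ^ (-(s + 1)) = (2 * Real.pi : ℂ) ^ (-s) * (2 * Real.pi : ℂ)⁻¹ := by
    rw [neg_add, cpow_add _ _ two_pi_ne, cpow_neg_one]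
  have h2 : cos (Real.pi * (s + 1) / 2) = -sin (Real.pi * s / 2) := by
    rw [show (Real.pi * (s + 1) / 2 : ℂ) = Real.pi * s / 2 + Real.pi / 2 by ring]
    exact Complex.cos_add_pi_div_two _
  have h3 : ‖sin (Real.pi * s / 2)‖ = ‖cos (Real.pi * s / 2)‖ := by
    have e1 : sin (Real.pi * s / 2) = cos (Real.pi * (1 - s) / 2) := by
      rw [show (Real.pi * (1 - s) / 2 : ℂ) = Real.pi / 2 - Real.pi * s / 2 by ring]
      exact (Complex.cos_pi_div_two_sub _).symm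
    rw [e1, hs, one_sub_half, ← hs]
    have e2 : cos (Real.pi * (starRingEnd ℂ s) / 2) = starRingEnd ℂ (cos (Real.pi * s / 2)) := by
      rw [← cos_conj]
      congr 1
      rw [map_div₀, map_mul, conj_ofReal]
      congr 1
      exact (conj_ofNat 2).symm
    rw [e2, norm_conj]
  have h4 := FF_half t
  rw [← hs] at h4
  rw [hs']
  unfold FF at h4 ⊢
  rw [h1, h2, Gamma_add_one _ hs0]
  rw [norm_mul, norm_mul, norm_mul] at h4
  rw [norm_mul, norm_mul, norm_mul, norm_mul, norm_mul, norm_neg, h3, norm_inv]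
  have h5 : ‖(2 * Real.pi : ℂ)‖ = 2 * Real.pi := by
    rw [norm_mul, Complex.norm_real, Real.norm_eq_abs, abs_of_pos Real.pi_pos]
    simp
  rw [h5]
  have : ‖(2 : ℂ)‖ * (‖(2 * Real.pi : ℂ) ^ (-s)‖ * (2 * Real.pi)⁻¹) * (‖s‖ * ‖Gamma s‖) *
      ‖cos (Real.pi * s / 2)‖ = (‖(2 : ℂ)‖ * ‖(2 * Real.pi : ℂ) ^ (-s)‖ * ‖Gamma s‖ *
      ‖cos (Real.pi * s / 2)‖) * (‖s‖ * (2 * Real.pi)⁻¹) := by ring
  rw [this, h4, one_mul, div_eq_mul_inv]

lemma norm_Gamma_le {s : ℂ} (hs : 0 < s.re) : ‖Gamma s‖ ≤ Real.Gamma s.re := by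
  rw [Complex.Gamma_eq_integral hs, Real.Gamma_eq_integral hs]
  unfold GammaIntegral
  refine norm_integral_le_of_norm_le (Real.GammaIntegral_convergent hs) ?_
  rw [ae_restrict_iff' measurableSet_Ioi]
  filter_upwards with x hx
  rw [norm_mul, Complex.norm_of_nonneg (Real.exp_pos _).le, norm_cpow_eq_rpow_re_of_pos hx]
  simp

lemma exists_Gamma_bound : ∃ M : ℝ, 0 < M ∧ ∀ x : ℝ, 1 / 2 ≤ x → x ≤ 3 / 2 → Real.Gamma x ≤ M := by
  have hc : ContinuousOn Real.Gamma (Icc (1 / 2) (3 / 2)) := by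
    intro x hx
    refine (Real.differentiableAt_Gamma fun m => ?_).continuousAt.continuousWithinAt
    have h1 : (0 : ℝ) < x := lt_of_lt_of_le (by norm_num) hx.1
    have h2 : (0 : ℝ) ≤ m := Nat.cast_nonneg m
    linarith
  obtain ⟨M, hM⟩ := isCompact_Icc.bddAbove_image hc
  refine ⟨max M 1, by positivity, fun x h1 h2 => ?_⟩
  exact (hM ⟨x, ⟨h1, h2⟩, rfl⟩).trans (le_max_left _ _)

lemma norm_cos_le (z : ℂ) : ‖cos z‖ ≤ Real.exp |z.im| := by
  unfold cos
  have h1 : ‖exp (z * I)‖ ≤ Real.exp |z.im| := by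
    rw [norm_exp]
    refine Real.exp_le_exp.2 ?_
    simp only [mul_re, I_re, mul_zero, I_im, mul_one, zero_sub]
    exact neg_le_abs _
  have h2 : ‖exp (-z * I)‖ ≤ Real.exp |z.im| := by
    rw [norm_exp]
    refine Real.exp_le_exp.2 ?_
    simp only [mul_re, I_re, mul_zero, I_im, mul_one, zero_sub, neg_im, neg_neg]
    exact le_abs_self _
  rw [norm_div]
  have h3 : ‖(2 : ℂ)‖ = 2 := by simp
  rw [h3, div_le_iff₀ (by norm_num)]
  calc ‖exp (z * I) + exp (-z * I)‖ ≤ ‖exp (z * I)‖ + ‖exp (-z * I)‖ := norm_add_le _ _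
    _ ≤ Real.exp |z.im| * 2 := by linarith

lemma norm_two_pi_cpow (s : ℂ) : ‖(2 * Real.pi : ℂ) ^ (-s)‖ = (2 * Real.pi) ^ (-s.re) := by
  have h1 : (2 * Real.pi : ℂ) = ((2 * Real.pi : ℝ) : ℂ) := by push_cast; rfl
  rw [h1, norm_cpow_eq_rpow_re_of_pos (by positivity), neg_re]

lemma FF_growth {M : ℝ} (hM : ∀ x : ℝ, 1 / 2 ≤ x → x ≤ 3 / 2 → Real.Gamma x ≤ M) {s : ℂ}
    (h1 : 1 / 2 ≤ s.re) (h2 : s.re ≤ 3 / 2) :
    ‖FF s‖ ≤ 2 * M * Real.exp (Real.pi / 2 * |s.im|) := by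
  unfold FF
  rw [norm_mul, norm_mul, norm_mul, norm_two_pi_cpow]
  have e1 : ‖(2 : ℂ)‖ = 2 := by simp
  have e2 : (2 * Real.pi) ^ (-s.re) ≤ 1 :=
    Real.rpow_le_one_of_one_le_of_nonpos (by linarith [Real.pi_gt_three]) (by linarith)
  have e3 : ‖Gamma s‖ ≤ M := (norm_Gamma_le (by linarith)).trans (hM _ h1 h2)
  have e4 : ‖cos (Real.pi * s / 2)‖ ≤ Real.exp (Real.pi / 2 * |s.im|) := by
    refine (norm_cos_le _).trans (Real.exp_le_exp.2 (le_of_eq ?_))
    have : (Real.pi * s / 2 : ℂ).im = Real.pi / 2 * s.im := by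
      rw [show (Real.pi * s / 2 : ℂ) = ((Real.pi / 2 : ℝ) : ℂ) * s by push_cast; ring, im_ofReal_mul]
    rw [this, abs_mul, abs_of_pos (by positivity)]
  have hM0 : 0 ≤ M := (norm_nonneg _).trans e3
  rw [e1]
  calc 2 * (2 * Real.pi) ^ (-s.re) * ‖Gamma s‖ * ‖cos (Real.pi * s / 2)‖
      ≤ 2 * 1 * M * Real.exp (Real.pi / 2 * |s.im|) := by gcongr
    _ = _ := by ring

/-- The comparison function. -/
noncomputable def GG (t₀ : ℝ) (s : ℂ) : ℂ :=
  FF s * ((1 + |t₀| : ℝ) : ℂ) ^ (-(s - 1 / 2)) * exp ((s - t₀ * I) ^ 2)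

lemma GG_norm (t₀ : ℝ) (s : ℂ) : ‖GG t₀ s‖ =
    ‖FF s‖ * (1 + |t₀|) ^ (-(s.re - 1 / 2)) * Real.exp (s.re ^ 2 - (s.im - t₀) ^ 2) := by
  have hp : (0 : ℝ) < 1 + |t₀| := by positivity
  unfold GG
  rw [norm_mul, norm_mul, norm_cpow_eq_rpow_re_of_pos hp, norm_exp]
  congr 2
  · congr 1
    simp
  · simp [pow_two]

lemma FF_diff {s : ℂ} (h : 0 < s.re) : DifferentiableAt ℂ FF s := by
  unfold FF
  have h1 : DifferentiableAt ℂ (fun s : ℂ => (2 * Real.pi : ℂ) ^ (-s)) s :=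
    differentiableAt_id.neg.const_cpow (Or.inl two_pi_ne)
  have h2 : DifferentiableAt ℂ Gamma s := by
    refine differentiableAt_Gamma _ fun m hm => ?_
    rw [hm] at h
    simp only [neg_re, natCast_re, Left.neg_pos_iff] at h
    exact absurd h (not_lt.2 (Nat.cast_nonneg m))
  have h3 : DifferentiableAt ℂ (fun s : ℂ => cos (Real.pi * s / 2)) s := by fun_prop
  exact ((h1.const_mul 2).mul h2).mul h3

lemma GG_diff (t₀ : ℝ) {s : ℂ} (h : 0 < s.re) : DifferentiableAt ℂ (GG t₀) s := by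
  have hp : (0 : ℝ) < 1 + |t₀| := by positivity
  unfold GG
  have h1 : DifferentiableAt ℂ (fun s : ℂ => ((1 + |t₀| : ℝ) : ℂ) ^ (-(s - 1 / 2))) s := by
    refine DifferentiableAt.const_cpow (by fun_prop) (Or.inl ?_)
    exact_mod_cast hp.ne'
  exact ((FF_diff h).mul h1).mul (by fun_prop)

lemma FF_bound {δ : ℝ} (h0 : 0 ≤ δ) (h1 : δ ≤ 1) (t₀ : ℝ) :
    ‖FF ((1 / 2 + δ : ℝ) + t₀ * I)‖ ≤ Real.exp (9 / 4) * (1 + |t₀|) ^ δ := by
  obtain ⟨M, hM0, hM⟩ := exists_Gamma_bound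
  have hp : (0 : ℝ) < 1 + |t₀| := by positivity
  have hp1 : (1 : ℝ) ≤ 1 + |t₀| := by linarith [abs_nonneg t₀]
  have key : ‖GG t₀ ((1 / 2 + δ : ℝ) + t₀ * I)‖ ≤ Real.exp (9 / 4) := by
    refine PhragmenLindelof.vertical_strip (a := 1 / 2) (b := 3 / 2) ?_ ?_ ?_ ?_ ?_ ?_
    · refine DifferentiableOn.diffContOnCl fun s hs => ?_
      have hs' : s ∈ re ⁻¹' Icc (1 / 2 : ℝ) (3 / 2) := by
        rw [Complex.closure_preimage_re, closure_Ioo (by norm_num)] at hs
        exact hs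
      have : 0 < s.re := lt_of_lt_of_le (by norm_num) hs'.1
      exact (GG_diff t₀ this).differentiableWithinAt
    · refine ⟨1, ?_, 2, ?_⟩
      · rw [show (3 / 2 - 1 / 2 : ℝ) = 1 by norm_num, div_one]
        linarith [Real.pi_gt_three]
      · refine IsBigO.of_bound (2 * M * Real.exp (9 / 4)) ?_
        have : re ⁻¹' Ioo (1 / 2 : ℝ) (3 / 2) ∈
            comap (_root_.abs ∘ im) atTop ⊓ 𝓟 (re ⁻¹' Ioo (1 / 2 : ℝ) (3 / 2)) :=
          mem_inf_of_right (mem_principal_self _)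
        filter_upwards [this] with s hs
        obtain ⟨hs1, hs2⟩ := hs
        rw [GG_norm, Real.norm_eq_abs, abs_of_pos (Real.exp_pos _)]
        have e1 := FF_growth hM hs1.le hs2.le
        have e2 : (1 + |t₀|) ^ (-(s.re - 1 / 2)) ≤ 1 :=
          Real.rpow_le_one_of_one_le_of_nonpos hp1 (by linarith)
        have e3 : Real.exp (s.re ^ 2 - (s.im - t₀) ^ 2) ≤ Real.exp (9 / 4) := by
          refine Real.exp_le_exp.2 ?_
          nlinarith [sq_nonneg (s.im - t₀)]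
        have e4 : Real.exp (Real.pi / 2 * |s.im|) ≤ Real.exp (2 * Real.exp (1 * |s.im|)) := by
          refine Real.exp_le_exp.2 ?_
          have h5 : |s.im| ≤ Real.exp (1 * |s.im|) := by
            rw [one_mul]
            have := Real.add_one_le_exp |s.im|
            linarith
          have h6 : Real.pi / 2 ≤ 2 := by linarith [Real.pi_le_four]
          have h7 := abs_nonneg s.im
          have h8 : 0 ≤ Real.pi / 2 := by positivity
          calc Real.pi / 2 * |s.im| ≤ 2 * |s.im| := by gcongr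
            _ ≤ _ := by gcongr
        have e5 : 0 ≤ (1 + |t₀|) ^ (-(s.re - 1 / 2)) := Real.rpow_nonneg hp.le _
        calc ‖FF s‖ * (1 + |t₀|) ^ (-(s.re - 1 / 2)) * Real.exp (s.re ^ 2 - (s.im - t₀) ^ 2)
            ≤ (2 * M * Real.exp (Real.pi / 2 * |s.im|)) * 1 * Real.exp (9 / 4) := by gcongr
          _ ≤ (2 * M * Real.exp (2 * Real.exp (1 * |s.im|))) * 1 * Real.exp (9 / 4) := by gcongr
          _ = _ := by ring
    · intro s hs
      have e : s = ((1 / 2 : ℝ) + s.im * I : ℂ) := by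
        rw [← hs]; exact (re_add_im s).symm
      rw [GG_norm, e, FF_half, ← e, hs, sub_self, neg_zero, Real.rpow_zero, one_mul, one_mul]
      refine Real.exp_le_exp.2 ?_
      nlinarith [sq_nonneg (s.im - t₀)]
    · intro s hs
      have e : s = ((3 / 2 : ℝ) + s.im * I : ℂ) := by
        rw [← hs]; exact (re_add_im s).symm
      have h2 : ‖FF s‖ ≤ (1 + |t₀|) * (1 + |s.im - t₀|) / (2 * Real.pi) := by
        rw [e, FF_three_half]
        have h3 : ‖((1 / 2 : ℝ) + s.im * I : ℂ)‖ ≤ 1 / 2 + |s.im| := by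
          refine (Complex.norm_le_abs_re_add_abs_im _).trans (le_of_eq ?_)
          simp
        have h4 : |s.im| ≤ |t₀| + |s.im - t₀| := by
          have := abs_add_le t₀ (s.im - t₀)
          rwa [add_sub_cancel] at this
        have h5 := abs_nonneg t₀
        have h6 := abs_nonneg (s.im - t₀)
        have h7 : ‖((1 / 2 : ℝ) + s.im * I : ℂ)‖ ≤ (1 + |t₀|) * (1 + |s.im - t₀|) := by
          nlinarith
        have h8 : ((((3 / 2 : ℝ) : ℂ) + s.im * I).im) = s.im := by simp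
        rw [h8]
        gcongr
      rw [GG_norm, hs]
      have h3 : (1 + |t₀|) ^ (-((3 / 2 : ℝ) - 1 / 2)) = (1 + |t₀|)⁻¹ := by
        rw [show (-((3 / 2 : ℝ) - 1 / 2)) = -1 by norm_num, Real.rpow_neg_one]
      rw [h3]
      set u := |s.im - t₀| with hu
      have hu0 : 0 ≤ u := abs_nonneg _
      have hu2 : (s.im - t₀) ^ 2 = u ^ 2 := (sq_abs _).symm
      rw [hu2]
      have h4 : Real.exp ((3 / 2) ^ 2 - u ^ 2) = Real.exp (9 / 4) * (Real.exp (u ^ 2))⁻¹ := by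
        rw [← Real.exp_neg, ← Real.exp_add]
        congr 1
        ring
      rw [h4]
      have h5 : 1 + u ≤ 2 * Real.exp (u ^ 2) := by
        have := Real.add_one_le_exp (u ^ 2)
        nlinarith [sq_nonneg (u - 1)]
      have h6 : 2 ≤ 2 * Real.pi := by linarith [Real.pi_gt_three]
      have hinv : (0 : ℝ) ≤ (1 + |t₀|)⁻¹ := by positivity
      calc ‖FF s‖ * (1 + |t₀|)⁻¹ * (Real.exp (9 / 4) * (Real.exp (u ^ 2))⁻¹)
          ≤ ((1 + |t₀|) * (1 + u) / (2 * Real.pi)) * (1 + |t₀|)⁻¹ *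
            (Real.exp (9 / 4) * (Real.exp (u ^ 2))⁻¹) := by gcongr
        _ = Real.exp (9 / 4) * ((1 + u) / (2 * Real.pi * Real.exp (u ^ 2))) := by
            field_simp
        _ ≤ Real.exp (9 / 4) * 1 := by
            gcongr
            rw [div_le_one (by positivity)]
            have := Real.exp_pos (u ^ 2)
            nlinarith
        _ = _ := mul_one _
    · simp [h0]
    · simp; linarith
  rw [GG_norm] at key
  have e1 : ((1 / 2 + δ : ℝ) + t₀ * I : ℂ).re = 1 / 2 + δ := by simp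
  have e2 : ((1 / 2 + δ : ℝ) + t₀ * I : ℂ).im = t₀ := by simp
  rw [e1, e2] at key
  have h3 : -(1 / 2 + δ - 1 / 2) = -δ := by ring
  rw [h3, sub_self, Real.rpow_neg hp.le] at key
  have h4 : 1 ≤ Real.exp ((1 / 2 + δ) ^ 2 - 0 ^ 2) := by
    rw [← Real.exp_zero]
    refine Real.exp_le_exp.2 ?_
    nlinarith [sq_nonneg (1 / 2 + δ)]
  have h5 : 0 < (1 + |t₀|) ^ δ := Real.rpow_pos_of_pos hp _
  have h6 : ‖FF ((1 / 2 + δ : ℝ) + t₀ * I)‖ * ((1 + |t₀|) ^ δ)⁻¹ ≤ Real.exp (9 / 4) := by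
    refine le_trans ?_ key
    have : 0 ≤ ‖FF ((1 / 2 + δ : ℝ) + t₀ * I)‖ * ((1 + |t₀|) ^ δ)⁻¹ := by positivity
    nlinarith
  rwa [← div_eq_mul_inv, div_le_iff₀ h5] at h6

/-- M2b: functional equation, size of the factor. -/
theorem zeta_fe : ∃ C : ℝ, 0 < C ∧ ∀ δ t : ℝ, 0 ≤ δ → δ ≤ 1 / 4 →
    ‖riemannZeta ((1 / 2 - δ : ℝ) + t * I)‖ ≤
      C * (1 + |t|) ^ δ * ‖riemannZeta ((1 / 2 + δ : ℝ) + t * I)‖ := by
  refine ⟨Real.exp (9 / 4), Real.exp_pos _, fun δ t h0 h1 => ?_⟩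
  set s : ℂ := (1 / 2 + δ : ℝ) + ((-t : ℝ) : ℂ) * I with hs
  have hre : s.re = 1 / 2 + δ := by simp [hs]
  have h2 : ∀ n : ℕ, s ≠ -n := by
    intro n h
    have h3 := congrArg re h
    rw [hre] at h3
    simp only [neg_re, natCast_re] at h3
    have : (0 : ℝ) ≤ n := Nat.cast_nonneg n
    linarith
  have h3 : s ≠ 1 := by
    intro h
    have h3 := congrArg re h
    rw [hre] at h3
    simp only [one_re] at h3
    linarith
  have h4 := riemannZeta_one_sub h2 h3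
  have h5 : ((1 / 2 - δ : ℝ) + t * I : ℂ) = 1 - s := by
    rw [hs]; push_cast; ring
  have h6 : ((1 / 2 + δ : ℝ) + t * I : ℂ) = starRingEnd ℂ s := by
    rw [hs, map_add, map_mul, conj_ofReal, conj_ofReal, conj_I]
    push_cast
    ring
  rw [h5, h6, riemannZeta_conj, norm_conj, h4, norm_mul]
  have h7 := FF_bound h0 (by linarith) (-t)
  rw [← hs, abs_neg] at h7
  unfold FF at h7
  gcongr

end Pool.Agent.Lib.MP_973905_nt
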