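import Mathlib

/-! Module CK.lean : the Keating-Snaith constant `c_k` and its limit as `k → 0+`. -/

namespace Pool.Agent.Lib.MP_973905_nt

open Filter Topology

/-- The arithmetic factor `a(k)`. -/
noncomputable def aK (k : ℝ) : ℝ :=
  ∏' p : Nat.Primes, (1 - ((p : ℕ) : ℝ)⁻¹) ^ (k ^ 2) *
    ∑' m : ℕ, (Real.Gamma (k + m) / (Real.Gamma k * m.factorial)) ^ 2 * (((p : ℕ) : ℝ)⁻¹) ^ m

/-- The Barnes `G`-function at real `x > 0`, by its Weierstrass product
`G(1+z) = (2π)^{z/2} exp(-(z+z²(1+γ))/2) ∏_{n≥1} (1+z/n)^n exp(z²/(2n)-z)`. -/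
noncomputable def barnesG (x : ℝ) : ℝ :=
  (2 * Real.pi) ^ ((x - 1) / 2) *
    Real.exp (-((x - 1) + (x - 1) ^ 2 * (1 + Real.eulerMascheroniConstant)) / 2) *
    ∏' n : ℕ, (1 + (x - 1) / (n + 1)) ^ (n + 1) * Real.exp ((x - 1) ^ 2 / (2 * (n + 1)) - (x - 1))

/-- The Keating-Snaith constant `c_k = a(k) G(k+1)² / G(2k+1)`. -/
noncomputable def cK (k : ℝ) : ℝ := aK k * barnesG (k + 1) ^ 2 / barnesG (2 * k + 1)

namespace CK

/-! ### The Barnes function -/

/-- The factors of the Weierstrass product. -/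
noncomputable def bf (z : ℝ) (n : ℕ) : ℝ :=
  (1 + z / (n + 1)) ^ (n + 1) * Real.exp (z ^ 2 / (2 * (n + 1)) - z)

lemma bf_pos {z : ℝ} (hz : -1 < z) (n : ℕ) : 0 < bf z n := by
  have h1 : 0 < 1 + z / (n + 1) := by
    have hn : (0 : ℝ) < n + 1 := by positivity
    have : -1 < z / (n + 1) := by
      rw [lt_div_iff₀ hn]
      have : (0 : ℝ) ≤ n := by positivity
      linarith
    linarith
  unfold bf
  positivity

lemma log_bf {z : ℝ} (hz : -1 < z) (n : ℕ) :
    Real.log (bf z n) = (n + 1) * (Real.log (1 + z / (n + 1)) - z / (n + 1) + (z / (n + 1)) ^ 2 / 2) := by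
  have hn : (0 : ℝ) < n + 1 := by positivity
  have h1 : 0 < 1 + z / (n + 1) := by
    have : -1 < z / (n + 1) := by
      rw [lt_div_iff₀ hn]
      have : (0 : ℝ) ≤ n := by positivity
      linarith
    linarith
  rw [bf, Real.log_mul (by positivity) (Real.exp_ne_zero _), Real.log_pow, Real.log_exp]
  push_cast
  field_simp
  ring

lemma log_bd {u : ℝ} (hu : |u| ≤ 1 / 2) : |Real.log (1 + u) - u + u ^ 2 / 2| ≤ 2 * |u| ^ 3 := by
  have h := Real.abs_log_sub_add_sum_range_le (x := -u) (by rw [abs_neg]; linarith) 2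
  rw [abs_neg] at h
  simp only [Finset.sum_range_succ, Finset.sum_range_zero] at h
  have e : (0 + (-u) ^ (0 + 1) / (((0 : ℕ) : ℝ) + 1) + (-u) ^ (1 + 1) / (((1 : ℕ) : ℝ) + 1)) +
      Real.log (1 - -u) = Real.log (1 + u) - u + u ^ 2 / 2 := by
    push_cast
    rw [sub_neg_eq_add]
    ring
  rw [e] at h
  refine h.trans ?_
  rw [div_le_iff₀ (by linarith)]
  have h0 : 0 ≤ |u| ^ 3 := by positivity
  norm_num
  nlinarith

lemma abs_log_bf {z : ℝ} (hz : -1 < z) {n : ℕ} (hn : |z| / (n + 1) ≤ 1 / 2) :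
    |Real.log (bf z n)| ≤ 2 * |z| ^ 3 * (1 / ((n : ℝ) + 1) ^ 2) := by
  have hn0 : (0 : ℝ) < n + 1 := by positivity
  have e : |z / (n + 1)| = |z| / (n + 1) := by rw [abs_div, abs_of_pos hn0]
  have h := log_bd (u := z / (n + 1)) (by rw [e]; exact hn)
  rw [log_bf hz, abs_mul, abs_of_pos hn0]
  calc ((n : ℝ) + 1) * |Real.log (1 + z / (n + 1)) - z / (n + 1) + (z / (n + 1)) ^ 2 / 2|
      ≤ (n + 1) * (2 * |z / (n + 1)| ^ 3) := by gcongr
    _ = _ := by rw [e]; field_simp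

lemma summable_inv_sq : Summable fun n : ℕ => 1 / ((n : ℝ) + 1) ^ 2 := by
  have h := (Real.summable_one_div_nat_pow (p := 2)).mpr (by norm_num)
  have h1 := (summable_nat_add_iff 1).mpr h
  simpa using h1

lemma summable_log_bf {z : ℝ} (hz : -1 < z) : Summable fun n : ℕ => Real.log (bf z n) := by
  refine Summable.of_norm_bounded_eventually_nat (g := fun n : ℕ => 2 * |z| ^ 3 * (1 / ((n : ℝ) + 1) ^ 2))
    (summable_inv_sq.mul_left _) ?_
  filter_upwards [eventually_ge_atTop ⌈2 * |z|⌉₊] with n hn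
  rw [Real.norm_eq_abs]
  apply abs_log_bf hz
  have h1 : 2 * |z| ≤ n := (Nat.le_ceil _).trans (by exact_mod_cast hn)
  rw [div_le_iff₀ (by positivity)]
  linarith

lemma tprod_bf {z : ℝ} (hz : -1 < z) : ∏' n, bf z n = Real.exp (∑' n, Real.log (bf z n)) :=
  (Real.rexp_tsum_eq_tprod (bf_pos hz) (summable_log_bf hz)).symm

lemma barnesG_eq (x : ℝ) : barnesG x = (2 * Real.pi) ^ ((x - 1) / 2) *
    Real.exp (-((x - 1) + (x - 1) ^ 2 * (1 + Real.eulerMascheroniConstant)) / 2) *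
    ∏' n : ℕ, bf (x - 1) n := rfl

end CK

open CK

theorem barnesG_pos {x : ℝ} (hx : 0 < x) : 0 < barnesG x := by
  rw [barnesG_eq, tprod_bf (by linarith)]
  positivity

theorem barnesG_one : barnesG 1 = 1 := by
  rw [barnesG_eq]
  simp [bf]

namespace CK

lemma barnesG_tendsto (a : ℝ) : Tendsto (fun k : ℝ => barnesG (a * k + 1)) (𝓝[>] 0) (𝓝 1) := by
  set Z : ℝ := ∑' n : ℕ, 1 / ((n : ℝ) + 1) ^ 2 with hZ
  have hak : Tendsto (fun k : ℝ => a * k) (𝓝[>] 0) (𝓝 0) := by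
    have : Tendsto (fun k : ℝ => a * k) (𝓝 0) (𝓝 (a * 0)) := (continuous_const.mul continuous_id).tendsto 0
    rw [mul_zero] at this
    exact this.mono_left nhdsWithin_le_nhds
  have hZ0 : Tendsto (fun k : ℝ => 2 * |a * k| ^ 3 * Z) (𝓝[>] 0) (𝓝 0) := by
    have h1 : Tendsto (fun k : ℝ => |a * k|) (𝓝[>] 0) (𝓝 0) := by
      have := hak.abs
      rwa [abs_zero] at this
    have h2 := ((h1.pow 3).const_mul 2).mul_const Z
    simpa using h2
  have hsmall : ∀ᶠ k : ℝ in 𝓝[>] 0, |a * k| ≤ 1 / 2 := by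
    have h1 : Tendsto (fun k : ℝ => |a * k|) (𝓝[>] 0) (𝓝 0) := by
      have := hak.abs
      rwa [abs_zero] at this
    exact h1.eventually (eventually_le_nhds (by norm_num))
  have hlog : Tendsto (fun k : ℝ => ∑' n, Real.log (bf (a * k) n)) (𝓝[>] 0) (𝓝 0) := by
    apply squeeze_zero_norm' _ hZ0
    filter_upwards [hsmall] with k hk
    have hz : -1 < a * k := by
      rw [abs_le] at hk; linarith [hk.1]
    have hb : ∀ n : ℕ, ‖Real.log (bf (a * k) n)‖ ≤ 2 * |a * k| ^ 3 * (1 / ((n : ℝ) + 1) ^ 2) := by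
      intro n
      rw [Real.norm_eq_abs]
      apply abs_log_bf hz
      rw [div_le_iff₀ (by positivity)]
      have : (0 : ℝ) ≤ n := by positivity
      linarith
    have h1 := tsum_of_norm_bounded (summable_inv_sq.mul_left (2 * |a * k| ^ 3)).hasSum hb
    rwa [tsum_mul_left] at h1
  have hpre : Tendsto (fun k : ℝ => (2 * Real.pi) ^ ((a * k) / 2) *
      Real.exp (-((a * k) + (a * k) ^ 2 * (1 + Real.eulerMascheroniConstant)) / 2)) (𝓝[>] 0) (𝓝 1) := by
    have hc : Continuous (fun z : ℝ => (2 * Real.pi) ^ (z / 2) *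
      Real.exp (-(z + z ^ 2 * (1 + Real.eulerMascheroniConstant)) / 2)) := by
      have h1 : Continuous (fun z : ℝ => (2 * Real.pi) ^ (z / 2)) :=
        continuous_const.rpow (continuous_id.div_const 2) fun z => Or.inl (by positivity)
      fun_prop
    have h2 := (hc.tendsto 0).comp hak
    have h3 : (2 * Real.pi) ^ ((0 : ℝ) / 2) *
      Real.exp (-(0 + (0 : ℝ) ^ 2 * (1 + Real.eulerMascheroniConstant)) / 2) = 1 := by simp
    rw [h3] at h2
    exact h2
  have h3 := hpre.mul ((Real.continuous_exp.tendsto 0).comp hlog)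
  rw [Real.exp_zero, mul_one] at h3
  refine h3.congr' ?_
  filter_upwards [hsmall] with k hk
  have hz : -1 < a * k := by
    rw [abs_le] at hk; linarith [hk.1]
  rw [barnesG_eq, add_sub_cancel_right, tprod_bf hz]
  rfl

/-! ### The arithmetic factor -/

/-- The coefficients `Γ(k+m)/(Γ(k) m!)`. -/
noncomputable def bc (k : ℝ) (m : ℕ) : ℝ := Real.Gamma (k + m) / (Real.Gamma k * m.factorial)

lemma bc_zero {k : ℝ} (hk : 0 < k) : bc k 0 = 1 := by
  have := (Real.Gamma_pos_of_pos hk).ne'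
  simp [bc, this]

lemma bc_succ {k : ℝ} (hk : 0 < k) (m : ℕ) : bc k (m + 1) = bc k m * ((k + m) / (m + 1)) := by
  have h1 := (Real.Gamma_pos_of_pos hk).ne'
  have h2 : (0 : ℝ) < k + m := by positivity
  have h3 : k + ((m + 1 : ℕ) : ℝ) = (k + m) + 1 := by push_cast; ring
  rw [bc, bc, h3, Real.Gamma_add_one h2.ne', Nat.factorial_succ]
  push_cast
  have h4 : (m.factorial : ℝ) ≠ 0 := by exact_mod_cast m.factorial_ne_zero
  field_simp

lemma bc_pos {k : ℝ} (hk : 0 < k) (m : ℕ) : 0 < bc k m := by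
  induction m with
  | zero => rw [bc_zero hk]; exact one_pos
  | succ m ih => rw [bc_succ hk]; positivity

lemma bc_le {k : ℝ} (hk : 0 < k) (hk1 : k ≤ 1) (m : ℕ) : bc k (m + 1) ≤ k := by
  induction m with
  | zero => rw [bc_succ hk, bc_zero hk]; simp
  | succ m ih =>
    rw [bc_succ hk]
    have h1 : (k + ((m + 1 : ℕ) : ℝ)) / (((m + 1 : ℕ) : ℝ) + 1) ≤ 1 := by
      rw [div_le_one (by positivity)]; linarith
    calc bc k (m + 1) * ((k + ((m + 1 : ℕ) : ℝ)) / (((m + 1 : ℕ) : ℝ) + 1)) ≤ bc k (m + 1) * 1 :=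
          mul_le_mul_of_nonneg_left h1 (bc_pos hk _).le
      _ ≤ k := by rw [mul_one]; exact ih

/-- The power series of the local factor. -/
noncomputable def Fk (k x : ℝ) : ℝ := ∑' m : ℕ, bc k m ^ 2 * x ^ m

lemma bc_le_one {k : ℝ} (hk : 0 < k) (hk1 : k ≤ 1) (m : ℕ) : bc k m ≤ 1 := by
  rcases m with _ | m
  · rw [bc_zero hk]
  · exact (bc_le hk hk1 m).trans hk1

lemma summable_Fk {k x : ℝ} (hk : 0 < k) (hk1 : k ≤ 1) (hx0 : 0 ≤ x) (hx : x < 1) :
    Summable fun m : ℕ => bc k m ^ 2 * x ^ m := by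
  refine Summable.of_nonneg_of_le (fun m => by positivity) (fun m => ?_)
    (summable_geometric_of_lt_one hx0 hx)
  have h1 : bc k m ^ 2 ≤ 1 := pow_le_one₀ (bc_pos hk m).le (bc_le_one hk hk1 m)
  have h2 : 0 ≤ x ^ m := by positivity
  calc bc k m ^ 2 * x ^ m ≤ 1 * x ^ m := mul_le_mul_of_nonneg_right h1 h2
    _ = x ^ m := one_mul _

lemma Fk_bounds {k x : ℝ} (hk : 0 < k) (hk1 : k ≤ 1) (hx0 : 0 ≤ x) (hx : x < 1) :
    1 + k ^ 2 * x ≤ Fk k x ∧ Fk k x ≤ 1 + k ^ 2 * (x / (1 - x)) := by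
  have hs := summable_Fk hk hk1 hx0 hx
  constructor
  · have h := hs.sum_le_tsum (Finset.range 2) (fun m _ => by positivity)
    simp only [Finset.sum_range_succ, Finset.sum_range_zero] at h
    rw [show (1 : ℕ) = 0 + 1 by rfl, bc_succ hk, bc_zero hk] at h
    simpa [Fk] using h
  · have e : Fk k x = bc k 0 ^ 2 * x ^ 0 + ∑' m : ℕ, bc k (m + 1) ^ 2 * x ^ (m + 1) :=
      hs.tsum_eq_zero_add
    have hs' : Summable fun m : ℕ => bc k (m + 1) ^ 2 * x ^ (m + 1) :=
      (summable_nat_add_iff 1).mpr hs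
    have h2 : ∑' m : ℕ, bc k (m + 1) ^ 2 * x ^ (m + 1) ≤ ∑' m : ℕ, (k ^ 2 * x) * x ^ m := by
      refine hs'.tsum_le_tsum (fun m => ?_) ((summable_geometric_of_lt_one hx0 hx).mul_left _)
      have h3 : bc k (m + 1) ^ 2 ≤ k ^ 2 := pow_le_pow_left₀ (bc_pos hk _).le (bc_le hk hk1 m) 2
      calc bc k (m + 1) ^ 2 * x ^ (m + 1) ≤ k ^ 2 * x ^ (m + 1) := by gcongr
        _ = _ := by ring
    rw [tsum_mul_left, tsum_geometric_of_lt_one hx0 hx] at h2
    rw [e, bc_zero hk]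
    have h4 : k ^ 2 * x * (1 - x)⁻¹ = k ^ 2 * (x / (1 - x)) := by rw [div_eq_mul_inv]; ring
    rw [h4] at h2
    linarith

/-- The local factors. -/
noncomputable def lf (k x : ℝ) : ℝ := (1 - x) ^ (k ^ 2) * Fk k x

lemma lf_pos {k x : ℝ} (hk : 0 < k) (hk1 : k ≤ 1) (hx0 : 0 ≤ x) (hx : x < 1) : 0 < lf k x := by
  have h1 := (Fk_bounds hk hk1 hx0 hx).1
  have h2 : 0 < Fk k x := by
    have : 0 ≤ k ^ 2 * x := by positivity
    linarith
  have h3 : 0 < 1 - x := by linarith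
  unfold lf
  positivity

lemma abs_log_lf {k x : ℝ} (hk : 0 < k) (hk1 : k ≤ 1) (hx0 : 0 ≤ x) (hx : x ≤ 1 / 2) :
    |Real.log (lf k x)| ≤ 3 * k ^ 2 * x ^ 2 := by
  obtain ⟨h1, h2⟩ := Fk_bounds hk hk1 hx0 (by linarith)
  have hk2 : k ^ 2 ≤ 1 := pow_le_one₀ hk.le hk1
  have hkx : 0 ≤ k ^ 2 * x := by positivity
  have hF : 0 < Fk k x := by linarith
  have h3 : 0 < 1 - x := by linarith
  have hx2 : 0 ≤ x ^ 2 := by positivity
  have hk20 : 0 ≤ k ^ 2 := by positivity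
  have e : Real.log (lf k x) = k ^ 2 * Real.log (1 - x) + Real.log (Fk k x) := by
    rw [lf, Real.log_mul (by positivity) hF.ne', Real.log_rpow h3]
  -- bounds for `log (1 - x)`
  have h4 : Real.log (1 - x) ≤ -x := by
    have := Real.log_le_sub_one_of_pos h3; linarith
  have h7 : x / (1 - x) ≤ x + 2 * x ^ 2 := by
    rw [div_le_iff₀ h3]
    nlinarith [mul_nonneg hx2 (by linarith : (0 : ℝ) ≤ 1 - 2 * x)]
  have h5 : -x - 2 * x ^ 2 ≤ Real.log (1 - x) := by
    have h8 := Real.one_sub_inv_le_log_of_pos h3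
    have h9 : 1 - (1 - x)⁻¹ = -(x / (1 - x)) := by field_simp; ring
    rw [h9] at h8
    linarith
  -- bounds for `log F`
  have h10 : Real.log (Fk k x) ≤ k ^ 2 * (x + 2 * x ^ 2) := by
    have h11 := Real.log_le_sub_one_of_pos hF
    have h12 : k ^ 2 * (x / (1 - x)) ≤ k ^ 2 * (x + 2 * x ^ 2) := mul_le_mul_of_nonneg_left h7 hk20
    linarith
  have h13 : k ^ 2 * x - k ^ 2 * x ^ 2 ≤ Real.log (Fk k x) := by
    have h14 : Real.log (1 + k ^ 2 * x) ≤ Real.log (Fk k x) := Real.log_le_log (by linarith) h1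
    have h15 := Real.one_sub_inv_le_log_of_pos (show 0 < 1 + k ^ 2 * x by linarith)
    have h16 : k ^ 2 * x - (k ^ 2 * x) ^ 2 ≤ 1 - (1 + k ^ 2 * x)⁻¹ := by
      have h17 : 1 - (1 + k ^ 2 * x)⁻¹ = (k ^ 2 * x) / (1 + k ^ 2 * x) := by
        have : (1 + k ^ 2 * x) ≠ 0 := by linarith
        field_simp; ring
      rw [h17, le_div_iff₀ (by linarith)]
      have : 0 ≤ (k ^ 2 * x) ^ 3 := by positivity
      nlinarith
    have h18 : (k ^ 2 * x) ^ 2 ≤ k ^ 2 * x ^ 2 := by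
      have : (k ^ 2) ^ 2 ≤ k ^ 2 := by nlinarith
      calc (k ^ 2 * x) ^ 2 = (k ^ 2) ^ 2 * x ^ 2 := by ring
        _ ≤ k ^ 2 * x ^ 2 := mul_le_mul_of_nonneg_right this hx2
    linarith
  rw [e, abs_le]
  have h19 := mul_le_mul_of_nonneg_left h4 hk20
  have h20 := mul_le_mul_of_nonneg_left h5 hk20
  constructor
  · nlinarith
  · nlinarith

lemma aK_eq (k : ℝ) : aK k = ∏' p : Nat.Primes, lf k (((p : ℕ) : ℝ)⁻¹) := rfl

lemma prime_inv (p : Nat.Primes) : 0 ≤ (((p : ℕ) : ℝ)⁻¹) ∧ (((p : ℕ) : ℝ)⁻¹) ≤ 1 / 2 := by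
  have h : (2 : ℝ) ≤ ((p : ℕ) : ℝ) := by exact_mod_cast p.2.two_le
  refine ⟨by positivity, ?_⟩
  rw [one_div]
  exact inv_anti₀ (by norm_num) h

lemma summable_prime_sq : Summable fun p : Nat.Primes => (((p : ℕ) : ℝ)⁻¹) ^ 2 := by
  have h := (Nat.Primes.summable_rpow (r := -2)).mpr (by norm_num)
  refine h.congr fun p => ?_
  have : (0 : ℝ) ≤ ((p : ℕ) : ℝ) := by positivity
  rw [Real.rpow_neg this, inv_pow]
  norm_cast

lemma summable_log_lf {k : ℝ} (hk : 0 < k) (hk1 : k ≤ 1) :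
    Summable fun p : Nat.Primes => Real.log (lf k (((p : ℕ) : ℝ)⁻¹)) := by
  refine Summable.of_norm_bounded (g := fun p : Nat.Primes => 3 * k ^ 2 * (((p : ℕ) : ℝ)⁻¹) ^ 2)
    (summable_prime_sq.mul_left _) fun p => ?_
  rw [Real.norm_eq_abs]
  exact abs_log_lf hk hk1 (prime_inv p).1 (prime_inv p).2

lemma aK_exp {k : ℝ} (hk : 0 < k) (hk1 : k ≤ 1) :
    aK k = Real.exp (∑' p : Nat.Primes, Real.log (lf k (((p : ℕ) : ℝ)⁻¹))) := by
  rw [aK_eq]
  refine (Real.rexp_tsum_eq_tprod (fun p => ?_) (summable_log_lf hk hk1)).symm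
  exact lf_pos hk hk1 (prime_inv p).1 (lt_of_le_of_lt (prime_inv p).2 (by norm_num))

lemma aK_tendsto : Tendsto aK (𝓝[>] 0) (𝓝 1) := by
  set Z : ℝ := ∑' p : Nat.Primes, (((p : ℕ) : ℝ)⁻¹) ^ 2 with hZ
  have hk : Tendsto (fun k : ℝ => k) (𝓝[>] 0) (𝓝 0) := tendsto_id.mono_left nhdsWithin_le_nhds
  have hev : ∀ᶠ k : ℝ in 𝓝[>] 0, 0 < k ∧ k ≤ 1 := by
    filter_upwards [self_mem_nhdsWithin, hk.eventually (eventually_le_nhds one_pos)] with k h1 h2
    exact ⟨h1, h2⟩
  have hZ0 : Tendsto (fun k : ℝ => 3 * k ^ 2 * Z) (𝓝[>] 0) (𝓝 0) := by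
    have h2 := ((hk.pow 2).const_mul 3).mul_const Z
    simpa using h2
  have hlog : Tendsto (fun k : ℝ => ∑' p : Nat.Primes, Real.log (lf k (((p : ℕ) : ℝ)⁻¹)))
      (𝓝[>] 0) (𝓝 0) := by
    apply squeeze_zero_norm' _ hZ0
    filter_upwards [hev] with k ⟨hk0, hk1⟩
    have h1 := tsum_of_norm_bounded (f := fun p : Nat.Primes => Real.log (lf k (((p : ℕ) : ℝ)⁻¹)))
      (summable_prime_sq.mul_left (3 * k ^ 2)).hasSum (fun p => by
        rw [Real.norm_eq_abs]
        exact abs_log_lf hk0 hk1 (prime_inv p).1 (prime_inv p).2)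
    rwa [tsum_mul_left] at h1
  have h3 := (Real.continuous_exp.tendsto 0).comp hlog
  rw [Real.exp_zero] at h3
  refine h3.congr' ?_
  filter_upwards [hev] with k ⟨hk0, hk1⟩
  rw [aK_exp hk0 hk1]
  rfl

end CK

theorem aK_pos {k : ℝ} (hk : 0 < k) (hk1 : k ≤ 1) : 0 < aK k := by
  rw [aK_exp hk hk1]; exact Real.exp_pos _

theorem cK_pos {k : ℝ} (hk : 0 < k) (hk1 : k ≤ 1) : 0 < cK k := by
  have h1 := aK_pos hk hk1
  have h2 := barnesG_pos (show 0 < k + 1 by linarith)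
  have h3 := barnesG_pos (show 0 < 2 * k + 1 by linarith)
  unfold cK
  positivity

theorem cK_tendsto : Tendsto cK (𝓝[>] 0) (𝓝 1) := by
  have h1 := barnesG_tendsto 1
  have h2 := barnesG_tendsto 2
  have h3 := (aK_tendsto.mul (h1.pow 2)).div h2 one_ne_zero
  simp only [one_mul, one_pow, mul_one, div_one] at h3
  exact h3

/-! ### The functional equation of the Barnes function (a check of the definition) -/

namespace CK

/-- The quotient of partial products. -/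
lemma bf_quot {x : ℝ} (hx : 0 < x) (N : ℕ) :
    ∏ n ∈ Finset.range N, bf x n = (∏ n ∈ Finset.range N, bf (x - 1) n) *
      ((N + x) ^ N / (∏ m ∈ Finset.range N, (x + m)) *
        Real.exp ((x - 1 / 2) * (harmonic N : ℝ) - N)) := by
  induction N with
  | zero => simp
  | succ N ih =>
    rw [Finset.prod_range_succ, ih, Finset.prod_range_succ, Finset.prod_range_succ, harmonic_succ]
    have hP : 0 < ∏ m ∈ Finset.range N, (x + (m : ℝ)) :=
      Finset.prod_pos fun m _ => by positivity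
    have hN : (0 : ℝ) < N + 1 := by positivity
    have hx1 : (0 : ℝ) < N + x := by positivity
    have e1 : bf x N = bf (x - 1) N * (((N + 1 + x) / (N + x)) ^ (N + 1) *
        Real.exp ((2 * x - 1) / (2 * (N + 1)) - 1)) := by
      unfold bf
      have e2 : (1 + x / ((N : ℝ) + 1)) = (1 + (x - 1) / (N + 1)) * ((N + 1 + x) / (N + x)) := by
        field_simp
        ring
      have e3 : x ^ 2 / (2 * ((N : ℝ) + 1)) - x = ((x - 1) ^ 2 / (2 * (N + 1)) - (x - 1)) +
          ((2 * x - 1) / (2 * (N + 1)) - 1) := by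
        field_simp
        ring
      rw [e2, e3, Real.exp_add, mul_pow]
      ring
    have e4 : (x - 1 / 2) * (((harmonic N + ((N + 1 : ℕ) : ℚ)⁻¹ : ℚ)) : ℝ) - ((N + 1 : ℕ) : ℝ) =
        ((x - 1 / 2) * (harmonic N : ℝ) - N) + ((2 * x - 1) / (2 * (N + 1)) - 1) := by
      push_cast
      field_simp
      ring
    rw [e1, e4, Real.exp_add]
    have e5 : (((N + 1 : ℕ) : ℝ) + x) ^ (N + 1) / ((∏ m ∈ Finset.range N, (x + (m : ℝ))) * (x + N)) =
        (N + x) ^ N / (∏ m ∈ Finset.range N, (x + (m : ℝ))) *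
          ((N + 1 + x) / (N + x)) ^ (N + 1) := by
      push_cast
      rw [div_pow]
      have : x + (N : ℝ) = N + x := by ring
      rw [this]
      field_simp
      ring
    rw [e5]
    ring

lemma quot_form {x : ℝ} (hx : 0 < x) {N : ℕ} (hN : 1 ≤ N) :
    (N + x) ^ N / (∏ m ∈ Finset.range N, (x + m)) *
        Real.exp ((x - 1 / 2) * (harmonic N : ℝ) - N) =
      Real.GammaSeq x N * ((1 + x / N) ^ N * (1 + x / N)) *
        Real.exp ((x - 1 / 2) * ((harmonic N : ℝ) - Real.log N)) *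
        (1 / (Real.sqrt 2 * Stirling.stirlingSeq N)) := by
  have hN0 : (0 : ℝ) < N := by exact_mod_cast hN
  have hP : 0 < ∏ m ∈ Finset.range N, (x + (m : ℝ)) :=
    Finset.prod_pos fun m _ => by positivity
  have hf : (0 : ℝ) < N.factorial := by exact_mod_cast N.factorial_pos
  rw [Real.GammaSeq, Finset.prod_range_succ, Stirling.stirlingSeq]
  have e1 : Real.sqrt (2 * N) = Real.sqrt 2 * Real.sqrt N := Real.sqrt_mul (by norm_num) _
  have e2 : Real.sqrt 2 * Real.sqrt 2 = 2 := Real.mul_self_sqrt (by norm_num)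
  have e3 : Real.exp ((x - 1 / 2) * ((harmonic N : ℝ) - Real.log N)) =
      Real.exp ((x - 1 / 2) * (harmonic N : ℝ)) * (Real.sqrt N / (N : ℝ) ^ x) := by
    rw [mul_sub, Real.exp_sub]
    have : Real.exp ((x - 1 / 2) * Real.log N) = (N : ℝ) ^ x / Real.sqrt N := by
      rw [Real.sqrt_eq_rpow, ← Real.rpow_sub hN0, Real.rpow_def_of_pos hN0]
      congr 1; ring
    rw [this]
    field_simp
  have e4 : Real.exp ((x - 1 / 2) * (harmonic N : ℝ) - N) =
      Real.exp ((x - 1 / 2) * (harmonic N : ℝ)) / Real.exp 1 ^ N := by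
    rw [Real.exp_sub, ← Real.exp_nat_mul, mul_one]
  have hs : 0 < Real.sqrt N := Real.sqrt_pos.mpr hN0
  have hNx : 0 < (N : ℝ) ^ x := Real.rpow_pos_of_pos hN0 _
  have e5 : (1 + x / (N : ℝ)) = (N + x) / N := by field_simp
  have e6 : Real.sqrt N * Real.sqrt N = N := Real.mul_self_sqrt hN0.le
  rw [e3, e4, e1, e5, div_pow, div_pow]
  have h2 : 0 < Real.sqrt 2 := Real.sqrt_pos.mpr (by norm_num)
  field_simp
  have e7 : Real.sqrt (N : ℝ) ^ 2 = N := Real.sq_sqrt hN0.le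
  rw [e7]
  ring

lemma tendsto_quot {x : ℝ} (hx : 0 < x) : Tendsto (fun N : ℕ => (N + x) ^ N /
    (∏ m ∈ Finset.range N, (x + m)) * Real.exp ((x - 1 / 2) * (harmonic N : ℝ) - N)) atTop
    (𝓝 (Real.Gamma x * (Real.exp x * (1 + 0)) *
      Real.exp ((x - 1 / 2) * Real.eulerMascheroniConstant) *
      (1 / (Real.sqrt 2 * Real.sqrt Real.pi)))) := by
  have h1 := Real.GammaSeq_tendsto_Gamma x
  have h2 := Real.tendsto_one_add_div_pow_exp x
  have h3 : Tendsto (fun N : ℕ => 1 + x / (N : ℝ)) atTop (𝓝 (1 + 0)) :=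
    (tendsto_const_div_atTop_nhds_zero_nat x).const_add 1
  have h4 : Tendsto (fun N : ℕ => Real.exp ((x - 1 / 2) * ((harmonic N : ℝ) - Real.log N))) atTop
      (𝓝 (Real.exp ((x - 1 / 2) * Real.eulerMascheroniConstant))) :=
    (Real.continuous_exp.tendsto _).comp (Real.tendsto_harmonic_sub_log.const_mul _)
  have h5 : Tendsto (fun N : ℕ => 1 / (Real.sqrt 2 * Stirling.stirlingSeq N)) atTop
      (𝓝 (1 / (Real.sqrt 2 * Real.sqrt Real.pi))) := by
    have h6 := (Stirling.tendsto_stirlingSeq_sqrt_pi.const_mul (Real.sqrt 2)).inv₀ (by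
      have : 0 < Real.sqrt 2 * Real.sqrt Real.pi :=
        mul_pos (Real.sqrt_pos.mpr (by norm_num)) (Real.sqrt_pos.mpr Real.pi_pos)
      exact this.ne')
    simpa only [one_div] using h6
  refine (((h1.mul (h2.mul h3)).mul h4).mul h5).congr' ?_
  filter_upwards [eventually_ge_atTop 1] with N hN
  exact (quot_form hx hN).symm

end CK

/-- The functional equation `G(x+1) = Γ(x) G(x)` of the Barnes function. -/
theorem barnesG_add_one {x : ℝ} (hx : 0 < x) : barnesG (x + 1) = Real.Gamma x * barnesG x := by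
  have hm1 : Multipliable (bf x) :=
    Real.multipliable_of_summable_log (bf_pos (by linarith)) (summable_log_bf (by linarith))
  have hm2 : Multipliable (bf (x - 1)) :=
    Real.multipliable_of_summable_log (bf_pos (by linarith)) (summable_log_bf (by linarith))
  have h1 := hm1.hasProd.tendsto_prod_nat
  have h2 := hm2.hasProd.tendsto_prod_nat.mul (tendsto_quot hx)
  have h3 : (fun N : ℕ => ∏ n ∈ Finset.range N, bf x n) = fun N : ℕ =>
      (∏ n ∈ Finset.range N, bf (x - 1) n) * ((N + x) ^ N / (∏ m ∈ Finset.range N, (x + m)) *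
        Real.exp ((x - 1 / 2) * (harmonic N : ℝ) - N)) := by
    funext N; exact bf_quot hx N
  rw [h3] at h1
  have h4 := tendsto_nhds_unique h1 h2
  rw [barnesG_eq, barnesG_eq, add_sub_cancel_right, h4]
  have hpi : (0 : ℝ) < 2 * Real.pi := by positivity
  have e1 : (2 * Real.pi) ^ (x / 2) = (2 * Real.pi) ^ ((x - 1) / 2) *
      (Real.sqrt 2 * Real.sqrt Real.pi) := by
    rw [← Real.sqrt_mul (by norm_num), Real.sqrt_eq_rpow, ← Real.rpow_add hpi]
    congr 1; ring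
  have e2 : Real.exp (-(x + x ^ 2 * (1 + Real.eulerMascheroniConstant)) / 2) =
      Real.exp (-((x - 1) + (x - 1) ^ 2 * (1 + Real.eulerMascheroniConstant)) / 2) /
        (Real.exp x * Real.exp ((x - 1 / 2) * Real.eulerMascheroniConstant)) := by
    rw [← Real.exp_add, ← Real.exp_sub]
    congr 1
    ring
  rw [e1, e2]
  have h5 : 0 < Real.sqrt 2 * Real.sqrt Real.pi :=
    mul_pos (Real.sqrt_pos.mpr (by norm_num)) (Real.sqrt_pos.mpr Real.pi_pos)
  have h6 := Real.exp_pos x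
  have h7 := Real.exp_pos ((x - 1 / 2) * Real.eulerMascheroniConstant)
  field_simp
  ring

/-- Check of the definition: `c_1 = 1` (Hardy and Littlewood). -/
theorem cK_one : cK 1 = 1 := by
  have h1 : barnesG (1 + 1) = 1 := by rw [barnesG_add_one one_pos, barnesG_one]; simp
  have h2 : barnesG (2 * 1 + 1) = 1 := by
    have : (2 * 1 + 1 : ℝ) = (1 + 1) + 1 := by norm_num
    rw [this, barnesG_add_one (by norm_num), h1, Real.Gamma_add_one one_ne_zero]
    simp
  have h3 : aK 1 = 1 := by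
    rw [aK_eq]
    have : ∀ p : Nat.Primes, lf 1 (((p : ℕ) : ℝ)⁻¹) = 1 := by
      intro p
      obtain ⟨hp0, hp1⟩ := prime_inv p
      have h4 : ∀ m : ℕ, bc 1 m = 1 := by
        intro m
        rw [bc, add_comm, Real.Gamma_nat_eq_factorial, Real.Gamma_one, one_mul, div_self]
        exact_mod_cast m.factorial_ne_zero
      rw [lf, Fk]
      simp only [h4, one_pow, one_mul]
      rw [tsum_geometric_of_lt_one hp0 (by linarith), Real.rpow_one, mul_inv_cancel₀]
      linarith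
    simp [this]
  rw [cK, h1, h2, h3]
  norm_num

end Pool.Agent.Lib.MP_973905_nt
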