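import Pool.Agent.Lib.MP_973905_nt.DD
import Pool.Agent.Lib.MP_973905_nt.CK

/-! Module Arith.lean : asymptotics of the normalising series `DD k σ` as `σ → 1/2+`, uniformly in
`k ∈ (0, 1]`. -/

namespace Pool.Agent.Lib.MP_973905_nt

open Filter Topology CK DDaux

namespace Arith

lemma cf_eq_bc {k : ℝ} (hk : 0 < k) (m : ℕ) : cf k m = bc k m := by
  induction m with
  | zero => rw [cf_zero, bc_zero hk]
  | succ m ih => rw [cf_succ, bc_succ hk, ih]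

/-- the local factors are those of `a(k)` -/
lemma Dl_eq {k x : ℝ} (hk : 0 < k) (hx0 : 0 ≤ x) (hx1 : x < 1) : Dl k x = Fk k (x ^ 2) := by
  rw [← (Dl_hasSum hk hx0 hx1).tsum_eq, Fk]
  congr 1
  funext a
  rw [← pow_mul, ← cf_eq_bc hk]
  rfl

/-- `p^{-2σ}` -/
noncomputable def xp (σ : ℝ) (p : Nat.Primes) : ℝ := ((p : ℕ) : ℝ) ^ (-(2 * σ))

lemma xp_eq (σ : ℝ) (p : Nat.Primes) : (((p : ℕ) : ℝ) ^ (-σ)) ^ 2 = xp σ p := by
  have hp : (0 : ℝ) ≤ ((p : ℕ) : ℝ) := by positivity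
  rw [xp, ← Real.rpow_natCast, ← Real.rpow_mul hp]
  congr 1
  push_cast
  ring

lemma xp_bounds {σ : ℝ} (hσ : 1 / 2 ≤ σ) (p : Nat.Primes) :
    0 ≤ xp σ p ∧ xp σ p ≤ (((p : ℕ) : ℝ)⁻¹) ∧ xp σ p ≤ 1 / 2 := by
  have hp : (1 : ℝ) ≤ ((p : ℕ) : ℝ) := by exact_mod_cast p.2.one_lt.le
  have h1 : xp σ p ≤ (((p : ℕ) : ℝ)⁻¹) := by
    rw [xp, ← Real.rpow_neg_one]
    exact Real.rpow_le_rpow_of_exponent_le hp (by linarith)
  exact ⟨by unfold xp; positivity, h1, h1.trans (prime_inv p).2⟩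

lemma xp_half (p : Nat.Primes) : xp (1 / 2) p = (((p : ℕ) : ℝ)⁻¹) := by
  rw [xp, ← Real.rpow_neg_one]
  norm_num

/-- Lipschitz bound for `F_k`. -/
lemma Fk_lip {k x y : ℝ} (hk : 0 < k) (hk1 : k ≤ 1) (hy0 : 0 ≤ y) (hyx : y ≤ x) (hx : x ≤ 1 / 2) :
    Fk k y ≤ Fk k x ∧ Fk k x - Fk k y ≤ 4 * (x - y) := by
  have hx0 : 0 ≤ x := hy0.trans hyx
  have hsx := summable_Fk hk hk1 hx0 (by linarith)
  have hsy := summable_Fk hk hk1 hy0 (by linarith : y < 1)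
  constructor
  · refine hsy.tsum_le_tsum (fun m => ?_) hsx
    exact mul_le_mul_of_nonneg_left (pow_le_pow_left₀ hy0 hyx m) (by positivity)
  · have h1 : Fk k x - Fk k y = ∑' m : ℕ, (bc k m ^ 2 * x ^ m - bc k m ^ 2 * y ^ m) :=
      (hsx.tsum_sub hsy).symm
    have hgx := summable_geometric_of_lt_one hx0 (by linarith : x < 1)
    have hgy := summable_geometric_of_lt_one hy0 (by linarith : y < 1)
    have h2 : ∑' m : ℕ, (bc k m ^ 2 * x ^ m - bc k m ^ 2 * y ^ m) ≤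
        ∑' m : ℕ, (x ^ m - y ^ m) := by
      refine (hsx.sub hsy).tsum_le_tsum (fun m => ?_) (hgx.sub hgy)
      have h3 : bc k m ^ 2 ≤ 1 := pow_le_one₀ (bc_pos hk m).le (bc_le_one hk hk1 m)
      have h4 : 0 ≤ x ^ m - y ^ m := sub_nonneg.mpr (pow_le_pow_left₀ hy0 hyx m)
      calc bc k m ^ 2 * x ^ m - bc k m ^ 2 * y ^ m = bc k m ^ 2 * (x ^ m - y ^ m) := by ring
        _ ≤ 1 * (x ^ m - y ^ m) := mul_le_mul_of_nonneg_right h3 h4
        _ = _ := one_mul _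
    rw [hgx.tsum_sub hgy, tsum_geometric_of_lt_one hx0 (by linarith),
      tsum_geometric_of_lt_one hy0 (by linarith)] at h2
    have h5 : (1 - x)⁻¹ - (1 - y)⁻¹ = (x - y) * ((1 - x)⁻¹ * (1 - y)⁻¹) := by
      have h6 : (1 - x) ≠ 0 := by linarith
      have h7 : (1 - y) ≠ 0 := by linarith
      field_simp
      ring
    have h8 : (1 - x)⁻¹ ≤ 2 := by
      rw [inv_le_comm₀ (by linarith) (by norm_num)]; linarith
    have h9 : (1 - y)⁻¹ ≤ 2 := by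
      rw [inv_le_comm₀ (by linarith) (by norm_num)]; linarith
    have h10 : 0 ≤ (1 - y)⁻¹ := inv_nonneg.mpr (by linarith)
    have h11 : (1 - x)⁻¹ * (1 - y)⁻¹ ≤ 4 := by
      calc (1 - x)⁻¹ * (1 - y)⁻¹ ≤ 2 * 2 := mul_le_mul h8 h9 h10 (by norm_num)
        _ = 4 := by norm_num
    rw [h1]
    calc ∑' m : ℕ, (bc k m ^ 2 * x ^ m - bc k m ^ 2 * y ^ m) ≤ (1 - x)⁻¹ - (1 - y)⁻¹ := h2
      _ = (x - y) * ((1 - x)⁻¹ * (1 - y)⁻¹) := h5
      _ ≤ (x - y) * 4 := mul_le_mul_of_nonneg_left h11 (by linarith)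
      _ = _ := by ring

/-- `|log u - log v| ≤ c (u - v)` when `v ≤ u` and `1 ≤ c v`. -/
lemma log_sub_le {u v c : ℝ} (hv : 0 < v) (hvu : v ≤ u) (hc : 1 ≤ c * v) :
    0 ≤ Real.log u - Real.log v ∧ Real.log u - Real.log v ≤ c * (u - v) := by
  have hu : 0 < u := hv.trans_le hvu
  refine ⟨sub_nonneg.mpr (Real.log_le_log hv hvu), ?_⟩
  rw [← Real.log_div hu.ne' hv.ne']
  have h1 := Real.log_le_sub_one_of_pos (div_pos hu hv)
  have h2 : u / v - 1 ≤ c * (u - v) := by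
    rw [div_sub_one hv.ne', div_le_iff₀ hv]
    nlinarith [mul_le_mul_of_nonneg_right hc (sub_nonneg.mpr hvu)]
  exact h1.trans h2

/-- Lipschitz bound for the logarithm of the local factor. -/
lemma log_lf_lip {k x y : ℝ} (hk : 0 < k) (hk1 : k ≤ 1) (hy0 : 0 ≤ y) (hyx : y ≤ x)
    (hx : x ≤ 1 / 2) : |Real.log (lf k y) - Real.log (lf k x)| ≤ 4 * (x - y) := by
  have hx0 : 0 ≤ x := hy0.trans hyx
  obtain ⟨h1, h2⟩ := Fk_lip hk hk1 hy0 hyx hx
  have hFy := (Fk_bounds hk hk1 hy0 (by linarith : y < 1)).1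
  have hky : 0 ≤ k ^ 2 * y := by positivity
  have hFy1 : 1 ≤ Fk k y := by linarith
  have hFx1 : 1 ≤ Fk k x := hFy1.trans h1
  have hk2 : k ^ 2 ≤ 1 := pow_le_one₀ hk.le hk1
  have hk20 : 0 ≤ k ^ 2 := by positivity
  have e : ∀ t, t < 1 → 1 ≤ Fk k t →
      Real.log (lf k t) = k ^ 2 * Real.log (1 - t) + Real.log (Fk k t) := by
    intro t ht hF
    have h3 : 0 < 1 - t := by linarith
    rw [lf, Real.log_mul (by positivity) (by linarith), Real.log_rpow h3]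
  obtain ⟨h3, h4⟩ := log_sub_le (c := 1) (by linarith : 0 < Fk k y) h1 (by linarith)
  obtain ⟨h5, h6⟩ := log_sub_le (u := 1 - y) (v := 1 - x) (c := 2) (by linarith) (by linarith)
    (by linarith)
  rw [e x (by linarith) hFx1, e y (by linarith) hFy1, abs_le]
  have h7 : k ^ 2 * (Real.log (1 - y) - Real.log (1 - x)) ≤ 1 * (2 * (1 - y - (1 - x))) :=
    mul_le_mul hk2 h6 h5 (by norm_num)
  have h8 : 0 ≤ k ^ 2 * (Real.log (1 - y) - Real.log (1 - x)) := mul_nonneg hk20 h5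
  constructor
  · nlinarith
  · nlinarith

/-- the dominating terms -/
noncomputable def gp (σ : ℝ) (p : Nat.Primes) : ℝ :=
  min (4 * ((((p : ℕ) : ℝ)⁻¹) - xp σ p)) (6 * (((p : ℕ) : ℝ)⁻¹) ^ 2)

lemma gp_nonneg {σ : ℝ} (hσ : 1 / 2 ≤ σ) (p : Nat.Primes) : 0 ≤ gp σ p := by
  obtain ⟨h1, h2, h3⟩ := xp_bounds hσ p
  exact le_min (by linarith) (by positivity)

lemma gp_le (σ : ℝ) (p : Nat.Primes) : gp σ p ≤ 6 * (((p : ℕ) : ℝ)⁻¹) ^ 2 := min_le_right _ _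

lemma log_diff_le {k σ : ℝ} (hk : 0 < k) (hk1 : k ≤ 1) (hσ : 1 / 2 ≤ σ) (p : Nat.Primes) :
    |Real.log (lf k (xp σ p)) - Real.log (lf k (((p : ℕ) : ℝ)⁻¹))| ≤ gp σ p := by
  obtain ⟨h1, h2, h3⟩ := xp_bounds hσ p
  obtain ⟨h4, h5⟩ := prime_inv p
  refine le_min (log_lf_lip hk hk1 h1 h2 h5) ?_
  have h6 := abs_log_lf hk hk1 h1 h3
  have h7 := abs_log_lf hk hk1 h4 h5
  have h8 : xp σ p ^ 2 ≤ (((p : ℕ) : ℝ)⁻¹) ^ 2 := pow_le_pow_left₀ h1 h2 2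
  have hk2 : k ^ 2 ≤ 1 := pow_le_one₀ hk.le hk1
  have h9 : 3 * k ^ 2 * xp σ p ^ 2 ≤ 3 * (((p : ℕ) : ℝ)⁻¹) ^ 2 := by
    calc 3 * k ^ 2 * xp σ p ^ 2 = 3 * (k ^ 2 * xp σ p ^ 2) := by ring
      _ ≤ 3 * (1 * (((p : ℕ) : ℝ)⁻¹) ^ 2) := by gcongr
      _ = _ := by ring
  have h10 : 3 * k ^ 2 * (((p : ℕ) : ℝ)⁻¹) ^ 2 ≤ 3 * (((p : ℕ) : ℝ)⁻¹) ^ 2 := by
    calc 3 * k ^ 2 * (((p : ℕ) : ℝ)⁻¹) ^ 2 = 3 * (k ^ 2 * (((p : ℕ) : ℝ)⁻¹) ^ 2) := by ring
      _ ≤ 3 * (1 * (((p : ℕ) : ℝ)⁻¹) ^ 2) := by gcongr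
      _ = _ := by ring
  calc |Real.log (lf k (xp σ p)) - Real.log (lf k (((p : ℕ) : ℝ)⁻¹))|
      ≤ |Real.log (lf k (xp σ p))| + |Real.log (lf k (((p : ℕ) : ℝ)⁻¹))| := abs_sub _ _
    _ ≤ 6 * (((p : ℕ) : ℝ)⁻¹) ^ 2 := by linarith

lemma summable_gp {σ : ℝ} (hσ : 1 / 2 ≤ σ) : Summable (gp σ) :=
  Summable.of_nonneg_of_le (gp_nonneg hσ) (gp_le σ) (summable_prime_sq.mul_left 6)

lemma gp_tendsto : Tendsto (fun σ : ℝ => ∑' p : Nat.Primes, gp σ p) (𝓝[>] (1 / 2)) (𝓝 0) := by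
  have h := tendsto_tsum_of_dominated_convergence (𝓕 := 𝓝[>] (1 / 2 : ℝ)) (f := fun σ p => gp σ p)
    (g := fun _ : Nat.Primes => (0 : ℝ)) (summable_prime_sq.mul_left 6) (fun p => ?_) ?_
  · simpa using h
  · have hp : (0 : ℝ) < ((p : ℕ) : ℝ) := by exact_mod_cast p.2.pos
    have h1 : Tendsto (fun σ : ℝ => xp σ p) (𝓝[>] (1 / 2)) (𝓝 (((p : ℕ) : ℝ)⁻¹)) := by
      have h2 : Continuous fun σ : ℝ => xp σ p := by
        unfold xp
        exact continuous_const.rpow (by fun_prop) fun _ => Or.inl hp.ne'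
      have h3 := (h2.tendsto (1 / 2)).mono_left (nhdsWithin_le_nhds (s := Set.Ioi (1 / 2)))
      rwa [xp_half] at h3
    have h4 : Tendsto (fun σ : ℝ => gp σ p) (𝓝[>] (1 / 2))
        (𝓝 (min (4 * ((((p : ℕ) : ℝ)⁻¹) - (((p : ℕ) : ℝ)⁻¹))) (6 * (((p : ℕ) : ℝ)⁻¹) ^ 2))) :=
      ((tendsto_const_nhds.sub h1).const_mul 4).min tendsto_const_nhds
    have h5 : min (4 * ((((p : ℕ) : ℝ)⁻¹) - (((p : ℕ) : ℝ)⁻¹))) (6 * (((p : ℕ) : ℝ)⁻¹) ^ 2) = 0 := by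
      rw [sub_self, mul_zero]
      exact min_eq_left (by positivity)
    rwa [h5] at h4
  · filter_upwards [self_mem_nhdsWithin] with σ hσ p
    have hσ' : 1 / 2 ≤ σ := le_of_lt hσ
    rw [Real.norm_eq_abs, abs_of_nonneg (gp_nonneg hσ' p)]
    exact gp_le σ p

/-- the zeta function at real `s > 1` -/
noncomputable def Zs (s : ℝ) : ℝ := ∑' n : ℕ, 1 / (n : ℝ) ^ s

lemma Zs_hasProd {s : ℝ} (hs : 1 < s) :
    HasProd (fun p : Nat.Primes => (1 - ((p : ℕ) : ℝ) ^ (-s))⁻¹) (Zs s) := by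
  let f : ℕ →*₀ ℝ :=
    { toFun := fun n => (n : ℝ) ^ (-s)
      map_zero' := by simp only [Nat.cast_zero]; exact Real.zero_rpow (by linarith)
      map_one' := by simp
      map_mul' := fun m n => by
        push_cast
        exact Real.mul_rpow (by positivity) (by positivity) }
  have hsum : Summable fun n => ‖f n‖ := by
    have h1 : Summable fun n : ℕ => (n : ℝ) ^ (-s) := Real.summable_nat_rpow.mpr (by linarith)
    refine h1.congr fun n => ?_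
    have : 0 ≤ (n : ℝ) ^ (-s) := by positivity
    show (n : ℝ) ^ (-s) = ‖(n : ℝ) ^ (-s)‖
    rw [Real.norm_eq_abs, abs_of_nonneg this]
  have h := EulerProduct.eulerProduct_completely_multiplicative_hasProd hsum
  have h2 : ∑' n, f n = Zs s := by
    unfold Zs
    congr 1
    funext n
    show (n : ℝ) ^ (-s) = _
    rw [Real.rpow_neg (by positivity), one_div]
  rw [← h2]
  exact h

lemma Zs_pos {s : ℝ} (hs : 1 < s) : 0 < Zs s := by
  have h1 : Summable fun n : ℕ => 1 / (n : ℝ) ^ s := Real.summable_one_div_nat_rpow.mpr hs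
  have h2 := h1.sum_le_tsum (Finset.range 2) (fun m _ => by positivity)
  simp only [Finset.sum_range_succ, Finset.sum_range_zero, Nat.cast_one, Real.one_rpow,
    Nat.cast_zero] at h2
  have h3 : (0 : ℝ) ≤ 1 / (0 : ℝ) ^ s := by positivity
  unfold Zs
  linarith

lemma hasProd_rpow {ι : Type*} {f : ι → ℝ} {a r : ℝ} (h : HasProd f a) (hf : ∀ i, 0 ≤ f i)
    (ha : a ≠ 0) : HasProd (fun i => f i ^ r) (a ^ r) := by
  have h1 : Tendsto (fun s : Finset ι => (∏ i ∈ s, f i) ^ r) atTop (𝓝 (a ^ r)) :=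
    Tendsto.rpow_const h (Or.inl ha)
  refine h1.congr fun s => ?_
  exact (Real.finsetProd_rpow s f (fun i _ => hf i) r).symm

/-- the exact formula -/
lemma DD_eq {k σ : ℝ} (hk : 0 < k) (hk1 : k ≤ 1) (hσ : 1 / 2 < σ) :
    DD k σ = Real.exp (∑' p : Nat.Primes, Real.log (lf k (xp σ p))) * Zs (2 * σ) ^ (k ^ 2) := by
  have h1 := DD_hasProd hk hk1 hσ
  have hsum : Summable fun p : Nat.Primes => Real.log (lf k (xp σ p)) := by
    refine Summable.of_norm_bounded (g := fun p : Nat.Primes => 3 * (((p : ℕ) : ℝ)⁻¹) ^ 2)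
      (summable_prime_sq.mul_left _) fun p => ?_
    obtain ⟨h1, h2, h3⟩ := xp_bounds hσ.le p
    rw [Real.norm_eq_abs]
    have h6 := abs_log_lf hk hk1 h1 h3
    have h8 : xp σ p ^ 2 ≤ (((p : ℕ) : ℝ)⁻¹) ^ 2 := pow_le_pow_left₀ h1 h2 2
    have hk2 : k ^ 2 ≤ 1 := pow_le_one₀ hk.le hk1
    calc |Real.log (lf k (xp σ p))| ≤ 3 * k ^ 2 * xp σ p ^ 2 := h6
      _ = 3 * (k ^ 2 * xp σ p ^ 2) := by ring
      _ ≤ 3 * (1 * (((p : ℕ) : ℝ)⁻¹) ^ 2) := by gcongr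
      _ = _ := by ring
  have hpos : ∀ p : Nat.Primes, 0 < lf k (xp σ p) := fun p => by
    obtain ⟨h1, h2, h3⟩ := xp_bounds hσ.le p
    exact lf_pos hk hk1 h1 (by linarith)
  have h2 : HasProd (fun p : Nat.Primes => lf k (xp σ p))
      (Real.exp (∑' p : Nat.Primes, Real.log (lf k (xp σ p)))) := by
    have h3 := hsum.hasSum.rexp
    have h4 : (fun p : Nat.Primes => lf k (xp σ p)) =
        Real.exp ∘ fun p : Nat.Primes => Real.log (lf k (xp σ p)) := by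
      funext p
      exact (Real.exp_log (hpos p)).symm
    rw [h4]
    exact h3
  have h3 : HasProd (fun p : Nat.Primes => ((1 - xp σ p)⁻¹) ^ (k ^ 2)) (Zs (2 * σ) ^ (k ^ 2)) := by
    refine hasProd_rpow (Zs_hasProd (by linarith)) (fun p => ?_) (Zs_pos (by linarith)).ne'
    obtain ⟨h1, h2, h3⟩ := xp_bounds hσ.le p
    have : (0 : ℝ) ≤ 1 - xp σ p := by linarith
    exact inv_nonneg.mpr this
  have h4 := h2.mul h3
  have h5 : (fun p : Nat.Primes => Dl k (((p : ℕ) : ℝ) ^ (-σ))) =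
      fun p : Nat.Primes => lf k (xp σ p) * ((1 - xp σ p)⁻¹) ^ (k ^ 2) := by
    funext p
    have hx1 : ((p : ℕ) : ℝ) ^ (-σ) < 1 :=
      Real.rpow_lt_one_of_one_lt_of_neg (by exact_mod_cast p.2.one_lt) (by linarith)
    obtain ⟨h1, h2, h3⟩ := xp_bounds hσ.le p
    have h6 : (0 : ℝ) < 1 - xp σ p := by linarith
    rw [Dl_eq hk (by positivity) hx1, xp_eq, lf, Real.inv_rpow h6.le]
    have h7 : 0 < (1 - xp σ p) ^ (k ^ 2) := Real.rpow_pos_of_pos h6 _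
    field_simp
  rw [h5] at h1
  exact h1.unique h4

end Arith

open Arith

theorem DD_asymp : ∀ ε : ℝ, 0 < ε → ∃ d : ℝ, 0 < d ∧ ∀ σ : ℝ, 1 / 2 < σ → σ < 1 / 2 + d →
    ∀ k : ℝ, 0 < k → k ≤ 1 → |DD k σ / (aK k * (1 / (2 * σ - 1)) ^ (k ^ 2)) - 1| ≤ ε := by
  intro ε hε
  have hZ : Tendsto (fun σ : ℝ => |Real.log ((2 * σ - 1) * Zs (2 * σ))|) (𝓝[>] (1 / 2)) (𝓝 0) := by
    have h1 : Tendsto (fun σ : ℝ => 2 * σ) (𝓝[>] (1 / 2)) (𝓝[>] 1) := by
      refine tendsto_nhdsWithin_iff.mpr ⟨?_, ?_⟩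
      · have : Tendsto (fun σ : ℝ => 2 * σ) (𝓝 (1 / 2)) (𝓝 (2 * (1 / 2))) :=
          (continuous_const.mul continuous_id).tendsto _
        rw [show (2 * (1 / 2) : ℝ) = 1 by norm_num] at this
        exact this.mono_left nhdsWithin_le_nhds
      · filter_upwards [self_mem_nhdsWithin] with σ hσ
        have : (1 / 2 : ℝ) < σ := hσ
        show (1 : ℝ) < 2 * σ
        linarith
    have h2 := tendsto_sub_mul_tsum_nat_rpow.comp h1
    have h3 := ((Real.continuousAt_log one_ne_zero).tendsto.comp h2).abs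
    rw [Real.log_one, abs_zero] at h3
    exact h3
  have hw := gp_tendsto.add hZ
  rw [add_zero] at hw
  have hm : 0 < min (1 : ℝ) (ε / 2) := lt_min one_pos (by linarith)
  have hev := hw.eventually (eventually_lt_nhds hm)
  rw [eventually_nhdsWithin_iff, Metric.eventually_nhds_iff] at hev
  obtain ⟨d, hd, hev⟩ := hev
  refine ⟨d, hd, fun σ hσ1 hσ2 k hk hk1 => ?_⟩
  have h1 := hev (y := σ) (by rw [Real.dist_eq, abs_of_pos (by linarith)]; linarith) hσ1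
  have hs : (0 : ℝ) < 2 * σ - 1 := by linarith
  have hZp := Zs_pos (s := 2 * σ) (by linarith)
  have hk2 : k ^ 2 ≤ 1 := pow_le_one₀ hk.le hk1
  have hk20 : 0 ≤ k ^ 2 := by positivity
  set S : ℝ := ∑' p : Nat.Primes, Real.log (lf k (xp σ p)) with hS
  set S0 : ℝ := ∑' p : Nat.Primes, Real.log (lf k (((p : ℕ) : ℝ)⁻¹)) with hS0
  set y : ℝ := (2 * σ - 1) * Zs (2 * σ) with hy
  have hy0 : 0 < y := mul_pos hs hZp
  have e1 : DD k σ / (aK k * (1 / (2 * σ - 1)) ^ (k ^ 2)) =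
      Real.exp ((S - S0) + k ^ 2 * Real.log y) := by
    rw [DD_eq hk hk1 hσ1, aK_exp hk hk1, ← hS, ← hS0, Real.exp_add, Real.exp_sub,
      mul_comm (k ^ 2) (Real.log y), Real.exp_mul, Real.exp_log hy0, hy,
      Real.mul_rpow hs.le hZp.le, Real.div_rpow zero_le_one hs.le, Real.one_rpow]
    have h7 : 0 < (2 * σ - 1) ^ (k ^ 2) := Real.rpow_pos_of_pos hs _
    have h8 := Real.exp_pos S0
    field_simp
  have hsum : Summable fun p : Nat.Primes => Real.log (lf k (xp σ p)) := by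
    have h2 := (summable_gp hσ1.le).of_norm_bounded
      (f := fun p => Real.log (lf k (xp σ p)) - Real.log (lf k (((p : ℕ) : ℝ)⁻¹)))
      (fun p => by rw [Real.norm_eq_abs]; exact log_diff_le hk hk1 hσ1.le p)
    refine (h2.add (summable_log_lf hk hk1)).congr fun p => ?_
    ring
  have h2 : |S - S0| ≤ ∑' p : Nat.Primes, gp σ p := by
    rw [hS, hS0, ← hsum.tsum_sub (summable_log_lf hk hk1), ← Real.norm_eq_abs]
    exact tsum_of_norm_bounded (summable_gp hσ1.le).hasSum (fun p => by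
      rw [Real.norm_eq_abs]; exact log_diff_le hk hk1 hσ1.le p)
  have h3 : |k ^ 2 * Real.log y| ≤ |Real.log y| := by
    rw [abs_mul, abs_of_nonneg hk20]
    exact mul_le_of_le_one_left (abs_nonneg _) hk2
  have h4 : |(S - S0) + k ^ 2 * Real.log y| < min 1 (ε / 2) := by
    calc |(S - S0) + k ^ 2 * Real.log y| ≤ |S - S0| + |k ^ 2 * Real.log y| := abs_add_le _ _
      _ ≤ ∑' p : Nat.Primes, gp σ p + |Real.log y| := add_le_add h2 h3
      _ < _ := h1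
  rw [e1]
  have h5 := Real.abs_exp_sub_one_le (x := (S - S0) + k ^ 2 * Real.log y)
    ((h4.trans_le (min_le_left _ _)).le)
  have h6 := h4.trans_le (min_le_right _ _)
  linarith

end Pool.Agent.Lib.MP_973905_nt
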