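import Pool.Agent.Lib.MP_973905_nt.Defs
import Pool.Agent.Lib.MP_973905_nt.Zeta

namespace Pool.Agent.Lib.MP_973905_nt

open MeasureTheory ProbabilityTheory Complex Filter Topology

lemma young_weighted {a f g A B : ℝ} (ha0 : 0 ≤ a) (ha1 : a ≤ 1) (hf : 0 ≤ f) (hg : 0 ≤ g)
    (hA : 0 < A) (hB : 0 < B) :
    f ^ a * g ^ (1 - a) ≤ A ^ a * B ^ (1 - a) * (a * (f / A) + (1 - a) * (g / B)) := by
  have h := Real.geom_mean_le_arith_mean2_weighted ha0 (by linarith : 0 ≤ 1 - a)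
    (div_nonneg hf hA.le) (div_nonneg hg hB.le) (by ring)
  rw [Real.div_rpow hf hA.le, Real.div_rpow hg hB.le] at h
  have hA' : 0 < A ^ a := Real.rpow_pos_of_pos hA _
  have hB' : 0 < B ^ (1 - a) := Real.rpow_pos_of_pos hB _
  calc f ^ a * g ^ (1 - a) = A ^ a * B ^ (1 - a) * (f ^ a / A ^ a * (g ^ (1 - a) / B ^ (1 - a))) := by
        field_simp
    _ ≤ _ := by gcongr

lemma holder2 {α : Type*} {mα : MeasurableSpace α} {μ : Measure α} {f g : α → ℝ}
    (hf : Integrable f μ) (hg : Integrable g μ) (hf0 : ∀ x, 0 ≤ f x) (hg0 : ∀ x, 0 ≤ g x)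
    {a A B : ℝ} (ha0 : 0 ≤ a) (ha1 : a ≤ 1) (hA : 0 < A) (hB : 0 < B) (hfA : ∫ x, f x ∂μ ≤ A)
    (hgB : ∫ x, g x ∂μ ≤ B) :
    ∫ x, f x ^ a * g x ^ (1 - a) ∂μ ≤ A ^ a * B ^ (1 - a) := by
  have hA' : 0 < A ^ a := Real.rpow_pos_of_pos hA _
  have hB' : 0 < B ^ (1 - a) := Real.rpow_pos_of_pos hB _
  have hi : Integrable (fun x => A ^ a * B ^ (1 - a) * (a * (f x / A) + (1 - a) * (g x / B))) μ :=
    (((hf.div_const A).const_mul a).add ((hg.div_const B).const_mul (1 - a))).const_mul _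
  calc ∫ x, f x ^ a * g x ^ (1 - a) ∂μ
      ≤ ∫ x, A ^ a * B ^ (1 - a) * (a * (f x / A) + (1 - a) * (g x / B)) ∂μ := by
        apply integral_mono_of_nonneg
        · exact Filter.Eventually.of_forall fun x =>
            mul_nonneg (Real.rpow_nonneg (hf0 x) _) (Real.rpow_nonneg (hg0 x) _)
        · exact hi
        · exact Filter.Eventually.of_forall fun x =>
            young_weighted ha0 ha1 (hf0 x) (hg0 x) hA hB
    _ = A ^ a * B ^ (1 - a) * (a * ((∫ x, f x ∂μ) / A) + (1 - a) * ((∫ x, g x ∂μ) / B)) := by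
        rw [integral_const_mul, integral_add ((hf.div_const A).const_mul a)
          ((hg.div_const B).const_mul (1 - a)), integral_const_mul, integral_const_mul,
          integral_div, integral_div]
    _ ≤ A ^ a * B ^ (1 - a) * (a * 1 + (1 - a) * 1) := by
        have h1 : (∫ x, f x ∂μ) / A ≤ 1 := (div_le_one hA).mpr hfA
        have h2 : (∫ x, g x ∂μ) / B ≤ 1 := (div_le_one hB).mpr hgB
        have h3 : 0 ≤ 1 - a := by linarith
        gcongr
    _ = _ := by ring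

lemma holder2_integrable {α : Type*} {mα : MeasurableSpace α} {μ : Measure α} {f g : α → ℝ}
    (hf : Integrable f μ) (hg : Integrable g μ) (hf0 : ∀ x, 0 ≤ f x) (hg0 : ∀ x, 0 ≤ g x)
    {a : ℝ} (ha0 : 0 ≤ a) (ha1 : a ≤ 1) : Integrable (fun x => f x ^ a * g x ^ (1 - a)) μ := by
  refine (((hf.const_mul a).add (hg.const_mul (1 - a)))).mono' ?_ ?_
  · exact (hf.aestronglyMeasurable.aemeasurable.pow_const a).aestronglyMeasurable.mul
      (hg.aestronglyMeasurable.aemeasurable.pow_const (1 - a)).aestronglyMeasurable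
  · refine Filter.Eventually.of_forall fun x => ?_
    rw [Real.norm_eq_abs, abs_of_nonneg
      (mul_nonneg (Real.rpow_nonneg (hf0 x) _) (Real.rpow_nonneg (hg0 x) _))]
    have := young_weighted ha0 ha1 (hf0 x) (hg0 x) one_pos one_pos
    simpa using this

/-! ### zeta on vertical lines -/

lemma continuous_zeta_line {σ : ℝ} (hσ : σ ≠ 1) :
    Continuous fun t : ℝ => riemannZeta ((σ : ℂ) + t * I) := by
  refine continuous_iff_continuousAt.mpr fun t => ?_
  have h1 : ((σ : ℂ) + t * I) ≠ 1 := by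
    intro h
    apply hσ
    have := congrArg Complex.re h
    simpa using this
  have h2 : ContinuousAt (fun t : ℝ => (σ : ℂ) + t * I) t := by fun_prop
  exact ContinuousAt.comp (f := fun t : ℝ => (σ : ℂ) + t * I) (g := riemannZeta)
    (differentiableAt_riemannZeta h1).continuousAt h2

lemma zeta_poly : ∃ C : ℝ, 0 < C ∧ ∀ σ t : ℝ, 1 / 2 ≤ σ → σ ≤ 3 / 4 →
    ‖riemannZeta ((σ : ℂ) + t * I)‖ ≤ C * (1 + |t|) ^ 2 := by
  obtain ⟨C, hC, h⟩ := zeta_growth
  refine ⟨4 * C, by positivity, fun σ t h1 h2 => ?_⟩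
  have hs1 : ((σ : ℂ) + t * I) ≠ 1 := by
    intro h
    have := congrArg Complex.re h
    simp at this
    linarith
  have hre : ((σ : ℂ) + t * I).re = σ := by simp
  have him : ((σ : ℂ) + t * I).im = t := by simp
  have h3 := h ((σ : ℂ) + t * I) (by rw [hre]; linarith) (by rw [hre]; linarith)
  rw [him] at h3
  rw [riemannZeta_eq_inv_sub_mul hs1, norm_mul, norm_inv]
  have h4 : 1 / 4 ≤ ‖(σ : ℂ) + t * I - 1‖ := by
    have h5 := abs_re_le_norm ((σ : ℂ) + t * I - 1)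
    have h6 : ((σ : ℂ) + t * I - 1).re = σ - 1 := by simp
    rw [h6, abs_of_nonpos (by linarith)] at h5
    linarith
  have h7 : ‖(σ : ℂ) + t * I - 1‖⁻¹ ≤ 4 := by
    rw [inv_le_comm₀ (by linarith) (by norm_num)]; linarith
  calc ‖(σ : ℂ) + t * I - 1‖⁻¹ * ‖riemannZeta₁ ((σ : ℂ) + t * I)‖
      ≤ 4 * (C * (1 + |t|) ^ 2) := by gcongr
    _ = _ := by ring

lemma kp_lower {s : ℂ} (h0 : 1 / 2 ≤ s.re) (h1 : s.re ≤ 3 / 4) : 1 / 7 ≤ ‖kp s‖ := by
  rw [kp, norm_div, le_div_iff₀ (norm_pos_iff.mpr (by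
    intro h; have := congrArg Complex.re h; simp at this; linarith))]
  have e1 : ‖s - 1‖ ^ 2 = (s.re - 1) ^ 2 + s.im ^ 2 := by
    rw [← normSq_eq_norm_sq, normSq_apply]; simp; ring
  have e2 : ‖s + 1‖ ^ 2 = (s.re + 1) ^ 2 + s.im ^ 2 := by
    rw [← normSq_eq_norm_sq, normSq_apply]; simp; ring
  have h2 : (1 / 7 * ‖s + 1‖) ^ 2 ≤ ‖s - 1‖ ^ 2 := by
    rw [mul_pow, e1, e2]
    nlinarith [sq_nonneg s.im]
  exact le_of_sq_le_sq h2 (norm_nonneg _) |>.trans_eq rfl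

end Pool.Agent.Lib.MP_973905_nt
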