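import Pool.Agent.Lib.MP_973905_nt.Blocks

/-! Lengths of the Dirichlet polynomials. -/

namespace Pool.Agent.Lib.MP_973905_nt

open MeasureTheory ProbabilityTheory Complex Filter Topology

namespace Len

lemma yy_succ {T : ℝ} {M J j : ℕ} (h : j ≤ J) :
    yy T M J (j + 1) = Real.exp (bet M J j * Real.log T) := by
  rw [yy, if_neg (by omega), if_pos (by omega), Nat.add_sub_cancel]

lemma card_Sj {T : ℝ} {M J j : ℕ} (h : j ≤ J) :
    ((Sj T M J j).card : ℝ) ≤ Real.exp (bet M J j * Real.log T) := by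
  have h1 : (Sj T M J j).card ≤ ⌊yy T M J (j + 1)⌋₊ := by
    unfold Sj PS
    refine (Finset.card_filter_le _ _).trans ?_
    rw [Nat.card_Ioc]
    omega
  rw [yy_succ h] at h1
  calc ((Sj T M J j).card : ℝ) ≤ (⌊Real.exp (bet M J j * Real.log T)⌋₊ : ℝ) := by exact_mod_cast h1
    _ ≤ _ := Nat.floor_le (Real.exp_pos _).le

lemma dp_Pj {T : ℝ} (hT : 1 < T) {A M J j : ℕ} (h : j ≤ J) :
    DP (Real.exp (bet M J j * Real.log T) ^ A) (A * Real.exp (bet M J j * Real.log T))
      (fun f => Pj A (Sj T M J j) f) := by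
  set y := Real.exp (bet M J j * Real.log T) with hy
  have hL : 0 < Real.log T := Real.log_pos hT
  have hy1 : 1 ≤ y := Real.one_le_exp (mul_nonneg (bet_pos _ _ _).le hL.le)
  have h1 : ∀ p ∈ Sj T M J j, DP (y ^ A) (A : ℝ) (fun f => QQ A (f p)) := by
    intro p hp
    have hp' := (mem_Sj hT).1 hp
    rw [yy_succ h] at hp'
    have hp1 : 1 ≤ p := hp'.1.one_lt.le
    have h2 : ∀ a ∈ Finset.Icc 1 A, DP (y ^ A) 1 (fun f => f p ^ a / a) := by
      intro a ha
      rw [Finset.mem_Icc] at ha
      have h3 : DP (y ^ A) ‖((a : ℂ))⁻¹‖ (fun f => (a : ℂ)⁻¹ * f (p ^ a)) := by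
        apply dp_single
        · exact Nat.one_le_pow _ _ hp1
        · push_cast
          calc (p : ℝ) ^ a ≤ y ^ a := pow_le_pow_left₀ (by positivity) hp'.2.2 a
            _ ≤ y ^ A := pow_le_pow_right₀ hy1 ha.2
      have h4 : ‖((a : ℂ))⁻¹‖ ≤ 1 := by
        rw [norm_inv, norm_natCast]
        apply inv_le_one_of_one_le₀
        exact_mod_cast ha.1
      refine (h3.mono le_rfl h4).congr fun f hf => ?_
      rw [hf.pow (by omega)]
      ring
    have h5 := dp_sum (Finset.Icc 1 A) h2
    refine h5.mono le_rfl ?_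
    simp
  have h6 := dp_sum (Sj T M J j) h1
  refine h6.mono le_rfl ?_
  rw [Finset.sum_const, nsmul_eq_mul, mul_comm]
  gcongr
  exact card_Sj h

lemma DP.scale {N B : ℝ} {G : (ℕ → ℂ) → ℂ} (h : DP N B G) {c : ℂ} (hc : ‖c‖ ≤ 1) :
    DP N B (fun f => c * G f) :=
  (h.const_mul c).mono le_rfl (mul_le_of_le_one_left h.M_nonneg hc)

lemma dp_Ntr {N B : ℝ} (hN : 1 ≤ N) (hB : 1 ≤ B) {P : (ℕ → ℂ) → ℂ} (h : DP N B P) {α : ℝ}
    (hα : |α| ≤ 1) (l : ℕ) : DP (N ^ l) (3 * B ^ l) (fun f => Ntr l α (P f)) := by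
  have h0 : DP N B (fun f => (α : ℂ) * P f) := DP.scale h (by simpa using hα)
  have h1 : ∀ i ∈ Finset.range (l + 1), DP (N ^ l) (B ^ l * (1 / (i.factorial : ℝ)))
      (fun f => ((α : ℂ) * P f) ^ i / i.factorial) := by
    intro i hi
    rw [Finset.mem_range] at hi
    have h2 := (h0.pow i).const_mul ((i.factorial : ℂ)⁻¹)
    have h3 : ‖((i.factorial : ℂ)⁻¹)‖ = 1 / (i.factorial : ℝ) := by
      rw [norm_inv, norm_natCast, one_div]
    rw [h3] at h2
    refine (h2.mono (pow_le_pow_right₀ hN (by omega)) ?_).congr fun f _ => by ring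
    rw [mul_comm]
    have h5 : B ^ i ≤ B ^ l := pow_le_pow_right₀ hB (by omega)
    gcongr
  have h4 := dp_sum (Finset.range (l + 1)) h1
  refine h4.mono le_rfl ?_
  rw [← Finset.mul_sum, mul_comm]
  gcongr
  have h5 := Real.sum_le_exp_of_nonneg (x := 1) zero_le_one (l + 1)
  simp only [one_pow] at h5
  linarith [Real.exp_one_lt_d9]

lemma KK_ge_one {M J j : ℕ} (h : j ≤ J) : 1 ≤ KK M J j := by
  unfold KK
  apply Real.one_le_exp
  have : (j : ℝ) ≤ J := by exact_mod_cast h
  have h2 : (0 : ℝ) ≤ M := by positivity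
  nlinarith

lemma dp_Fc {T : ℝ} (hT : 1 < T) {M J j : ℕ} (hM : 1 ≤ M) (h : j ≤ J) {α : ℝ} (hα : |α| ≤ 1)
    (g h' : Finset ℕ) :
    DP ((Real.exp (bet M J j * Real.log T) ^ M) ^ (ll M J j + rr M J j))
      (3 * (M * Real.exp (bet M J j * Real.log T)) ^ (ll M J j + rr M J j))
      (fun f => Fc T M J α g h' j f) := by
  set y := Real.exp (bet M J j * Real.log T) with hy
  have hL : 0 < Real.log T := Real.log_pos hT
  have hy1 : 1 ≤ y := Real.one_le_exp (mul_nonneg (bet_pos _ _ _).le hL.le)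
  have hM1 : (1 : ℝ) ≤ M := by exact_mod_cast hM
  have hN1 : 1 ≤ y ^ M := one_le_pow₀ hy1
  have hB1 : 1 ≤ M * y := by nlinarith
  have hP := dp_Pj (A := M) (M := M) hT h
  rw [← hy] at hP
  have hK := KK_ge_one (M := M) h
  have h1 : DP ((y ^ M) ^ ll M J j) (3 * (M * y) ^ ll M J j)
      (fun f => if j ∈ g then Ntr (ll M J j) α (Pj M (Sj T M J j) f) else 1) := by
    split_ifs
    · exact dp_Ntr hN1 hB1 hP hα _
    · have := dp_const 1
      rw [norm_one] at this
      refine this.mono (one_le_pow₀ hN1) ?_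
      have : 1 ≤ (M * y) ^ ll M J j := one_le_pow₀ hB1
      linarith
  have h2 : DP ((y ^ M) ^ rr M J j) ((M * y) ^ rr M J j)
      (fun f => if j ∈ h' then (Pj M (Sj T M J j) f / (KK M J j : ℂ)) ^ (rr M J j) else 1) := by
    split_ifs
    · refine (DP.pow (DP.scale hP (c := ((KK M J j : ℝ) : ℂ)⁻¹) ?_) _).congr fun f _ => by
        rw [div_eq_mul_inv]; ring
      rw [norm_inv, norm_real, Real.norm_eq_abs, abs_of_nonneg (by linarith)]
      exact inv_le_one_of_one_le₀ hK
    · have := dp_const 1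
      rw [norm_one] at this
      exact this.mono (one_le_pow₀ hN1) (one_le_pow₀ hB1)
  have h3 := h1.mul h2
  refine h3.mono (le_of_eq ?_) (le_of_eq ?_)
  · rw [← pow_add]
  · rw [pow_add]; ring

lemma lr_le {M J j : ℕ} (h : j ≤ J) : ((ll M J j + rr M J j : ℕ) : ℝ) ≤ 12 * KK M J j := by
  have hK := KK_ge_one (M := M) h
  have h1 : (ll M J j : ℝ) < 10 * KK M J j + 1 := Nat.ceil_lt_add_one (by linarith)
  have h2 : (rr M J j : ℝ) ≤ KK M J j / 4 := Nat.floor_le (by linarith)
  push_cast
  linarith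

lemma bet_KK {M J j : ℕ} : bet M J j * KK M J j = Real.exp (-((M : ℝ) + J - j) / 4) := by
  unfold bet KK
  rw [← Real.exp_add]
  congr 1
  ring

lemma geo_le (n : ℕ) : ∑ i ∈ Finset.range n, Real.exp (-(i : ℝ) / 4) ≤ 5 := by
  have h1 : ∀ i : ℕ, Real.exp (-(i : ℝ) / 4) = (Real.exp (-1 / 4)) ^ i := by
    intro i
    rw [← Real.exp_nat_mul]; congr 1; ring
  simp only [h1]
  have h2 : Real.exp (-1 / 4) ≤ 4 / 5 := by
    have h3 : 5 / 4 ≤ Real.exp (1 / 4) := by
      have := Real.add_one_le_exp (1 / 4 : ℝ)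
      linarith
    have h4 : Real.exp (-1 / 4) = (Real.exp (1 / 4))⁻¹ := by
      rw [← Real.exp_neg]; congr 1; ring
    rw [h4, inv_le_comm₀ (Real.exp_pos _) (by norm_num)]
    linarith
  have h0 : 0 < Real.exp (-1 / 4) := Real.exp_pos _
  calc ∑ i ∈ Finset.range n, (Real.exp (-1 / 4)) ^ i ≤ ∑ i ∈ Finset.range n, (4 / 5 : ℝ) ^ i := by
        gcongr
    _ = ((4 / 5 : ℝ) ^ n - 1) / (4 / 5 - 1) := geom_sum_eq (by norm_num) n
    _ ≤ 5 := by
        have : 0 < (4 / 5 : ℝ) ^ n := by positivity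
        rw [div_le_iff_of_neg (by norm_num)]
        linarith

lemma sum_bet_KK (M J : ℕ) :
    ∑ j ∈ Finset.range (J + 1), bet M J j * KK M J j ≤ 5 * Real.exp (-(M : ℝ) / 4) := by
  simp only [bet_KK]
  have h1 : ∑ j ∈ Finset.range (J + 1), Real.exp (-((M : ℝ) + J - j) / 4) =
      Real.exp (-(M : ℝ) / 4) * ∑ i ∈ Finset.range (J + 1), Real.exp (-(i : ℝ) / 4) := by
    rw [Finset.mul_sum, ← Finset.sum_range_reflect]
    refine Finset.sum_congr rfl fun j hj => ?_
    rw [Finset.mem_range] at hj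
    rw [← Real.exp_add]
    congr 1
    have : ((J + 1 - 1 - j : ℕ) : ℝ) = (J : ℝ) - j := by
      rw [Nat.add_sub_cancel, Nat.cast_sub (by omega)]
    rw [this]
    ring
  rw [h1, mul_comm]
  have := geo_le (J + 1)
  have h0 : 0 < Real.exp (-(M : ℝ) / 4) := Real.exp_pos _
  nlinarith

lemma sum_KK (M J : ℕ) :
    ∑ j ∈ Finset.range (J + 1), KK M J j ≤ (J + 1) * Real.exp (3 / 4 * ((M : ℝ) + J)) := by
  calc ∑ j ∈ Finset.range (J + 1), KK M J j ≤ ∑ j ∈ Finset.range (J + 1),
        Real.exp (3 / 4 * ((M : ℝ) + J)) := by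
        refine Finset.sum_le_sum fun j _ => ?_
        unfold KK
        apply Real.exp_le_exp.2
        have : (0 : ℝ) ≤ j := by positivity
        linarith
    _ = _ := by simp

/-- `(4 log b + 1) b^3 C ≤ log T` for large `T`, `b = log log T`. -/
lemma eventually_small (C : ℝ) : ∀ᶠ T : ℝ in atTop,
    C * ((4 * Real.log (Real.log (Real.log T)) + 1) *
      Real.exp (3 / 4 * (4 * Real.log (Real.log (Real.log T))))) ≤ Real.log T := by
  have h1 : Tendsto (fun T : ℝ => Real.log (Real.log T)) atTop atTop :=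
    Real.tendsto_log_atTop.comp Real.tendsto_log_atTop
  have h2 : ∀ᶠ b : ℝ in atTop, |C| * 5 * b ^ 4 ≤ Real.exp b := by
    have := (Real.isLittleO_pow_exp_atTop (n := 4)).def (c := (|C| * 5 + 1)⁻¹) (by positivity)
    filter_upwards [this, eventually_ge_atTop 0] with u hu hu0
    rw [Real.norm_eq_abs, Real.norm_eq_abs, abs_of_nonneg (by positivity),
      abs_of_pos (Real.exp_pos _)] at hu
    have h3 := mul_le_mul_of_nonneg_left hu (show 0 ≤ |C| * 5 + 1 by positivity)
    rw [← mul_assoc, mul_inv_cancel₀ (by positivity), one_mul] at h3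
    refine le_trans ?_ h3
    have : 0 ≤ u ^ 4 := by positivity
    nlinarith
  filter_upwards [h1.eventually h2, h1.eventually_ge_atTop 1,
    Real.tendsto_log_atTop.eventually_gt_atTop 0] with T hT hb hL
  set b := Real.log (Real.log T) with hbdef
  have hexp : Real.exp (3 / 4 * (4 * Real.log b)) = b ^ 3 := by
    have : 3 / 4 * (4 * Real.log b) = Real.log (b ^ 3) := by
      rw [Real.log_pow]; push_cast; ring
    rw [this, Real.exp_log (by positivity)]
  have hlb : 4 * Real.log b + 1 ≤ 5 * b := by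
    have := Real.log_le_sub_one_of_pos (show 0 < b by linarith)
    linarith
  have hlb0 : 0 ≤ 4 * Real.log b + 1 := by
    have := Real.log_nonneg hb
    linarith
  rw [hexp]
  calc C * ((4 * Real.log b + 1) * b ^ 3) ≤ |C| * ((4 * Real.log b + 1) * b ^ 3) := by
        gcongr; exact le_abs_self C
    _ ≤ |C| * ((5 * b) * b ^ 3) := by gcongr
    _ = |C| * 5 * b ^ 4 := by ring
    _ ≤ Real.exp b := hT
    _ = Real.log T := Real.exp_log hL

lemma M_bound {M : ℕ} (hM : 100 ≤ M) : 1500 * (M : ℝ) * Real.exp (-(M : ℝ) / 4) ≤ 1 := by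
  have hM' : (100 : ℝ) ≤ M := by exact_mod_cast hM
  have h1 := Real.pow_div_factorial_le_exp ((M : ℝ) / 4) (by positivity) 6
  rw [div_le_iff₀ (by positivity)] at h1
  have h2 : ((6).factorial : ℝ) = 720 := by norm_num [Nat.factorial]
  rw [h2] at h1
  have h3 : 1500 * (M : ℝ) ≤ Real.exp ((M : ℝ) / 4) := by
    have h4 : 1500 * (M : ℝ) * 720 ≤ ((M : ℝ) / 4) ^ 6 := by
      have h5 : (100 : ℝ) ^ 5 ≤ (M : ℝ) ^ 5 := pow_le_pow_left₀ (by norm_num) hM' 5
      have h6 : ((M : ℝ) / 4) ^ 6 = (M : ℝ) ^ 5 * M / 4096 := by ring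
      rw [h6]
      rw [le_div_iff₀ (by norm_num)]
      nlinarith
    linarith
  have h4 : Real.exp (-(M : ℝ) / 4) = (Real.exp ((M : ℝ) / 4))⁻¹ := by
    rw [← Real.exp_neg]; congr 1; ring
  rw [h4, ← div_eq_mul_inv, div_le_one (Real.exp_pos _)]
  exact h3

end Len

open Len in
/-- Lengths of our Dirichlet polynomials. -/
theorem dp_AA : ∃ M₀ : ℕ, ∀ M : ℕ, M₀ ≤ M → ∃ T₀ : ℝ, ∀ T, T₀ ≤ T → ∀ α : ℝ, |α| ≤ 1 →
    ∀ g h : Finset ℕ, DP (T ^ (1 / 25 : ℝ)) (T ^ (1 / 20 : ℝ)) (AA T M (JJ T) α g h) := by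
  refine ⟨100, fun M hM => ?_⟩
  have hM1 : (100 : ℝ) ≤ M := by exact_mod_cast hM
  set D : ℝ := 200 * (2 + 12 * Real.log M * Real.exp (3 / 4 * M)) with hD
  have hev : ∀ᶠ T : ℝ in atTop, 3 ≤ T ∧ 1 ≤ Real.log T ∧ 1 ≤ Real.log (Real.log T) ∧
      D * ((4 * Real.log (Real.log (Real.log T)) + 1) *
      Real.exp (3 / 4 * (4 * Real.log (Real.log (Real.log T))))) ≤ Real.log T := by
    have h1 : Tendsto (fun T : ℝ => Real.log (Real.log T)) atTop atTop :=
      Real.tendsto_log_atTop.comp Real.tendsto_log_atTop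
    filter_upwards [eventually_ge_atTop 3, Real.tendsto_log_atTop.eventually_ge_atTop 1,
      h1.eventually_ge_atTop 1, eventually_small D] with T a b c d
    exact ⟨a, b, c, d⟩
  obtain ⟨T₀, hT₀⟩ := eventually_atTop.1 hev
  refine ⟨T₀, fun T hT α hα g h => ?_⟩
  obtain ⟨hT3, hL1, hb1, hsm⟩ := hT₀ T hT
  have hT0 : 0 < T := by linarith
  have hT1 : 1 < T := by linarith
  set L := Real.log T with hL
  set b := Real.log (Real.log T) with hb
  set J := JJ T with hJ
  have hJle : (J : ℝ) ≤ 4 * Real.log b := by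
    rw [hJ, JJ]
    exact Nat.floor_le (mul_nonneg (by norm_num) (Real.log_nonneg hb1))
  have hlogM : 0 ≤ Real.log M := Real.log_nonneg (by linarith)
  have key := dp_prod (Finset.range (J + 1)) (fun j hj => dp_Fc (M := M) (J := J) hT1 (by omega)
    (show j ≤ J by rw [Finset.mem_range] at hj; omega) hα g h)
  refine key.mono ?_ ?_
  · -- length
    have e1 : ∏ j ∈ Finset.range (J + 1),
        (Real.exp (bet M J j * L) ^ M) ^ (ll M J j + rr M J j) =
        Real.exp (∑ j ∈ Finset.range (J + 1),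
          bet M J j * L * M * ((ll M J j + rr M J j : ℕ) : ℝ)) := by
      rw [Real.exp_sum]
      refine Finset.prod_congr rfl fun j _ => ?_
      rw [← pow_mul, ← Real.exp_nat_mul]
      congr 1
      push_cast
      ring
    rw [e1, Real.rpow_def_of_pos hT0]
    apply Real.exp_le_exp.2
    calc ∑ j ∈ Finset.range (J + 1), bet M J j * L * M * ((ll M J j + rr M J j : ℕ) : ℝ)
        ≤ ∑ j ∈ Finset.range (J + 1), (12 * L * M) * (bet M J j * KK M J j) := by
          refine Finset.sum_le_sum fun j hj => ?_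
          have h1 := lr_le (M := M) (show j ≤ J by rw [Finset.mem_range] at hj; omega)
          have h2 : 0 ≤ bet M J j * L * M := by
            have := (bet_pos M J j).le
            positivity
          calc bet M J j * L * M * ((ll M J j + rr M J j : ℕ) : ℝ)
              ≤ bet M J j * L * M * (12 * KK M J j) := mul_le_mul_of_nonneg_left h1 h2
            _ = _ := by ring
      _ = (12 * L * M) * ∑ j ∈ Finset.range (J + 1), bet M J j * KK M J j := by
          rw [Finset.mul_sum]
      _ ≤ (12 * L * M) * (5 * Real.exp (-(M : ℝ) / 4)) := by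
          gcongr
          exact sum_bet_KK M J
      _ = L * (60 * M * Real.exp (-(M : ℝ) / 4)) := by ring
      _ ≤ L * (1 / 25) := by
          have := M_bound hM
          gcongr
          linarith
  · -- norm
    have hM0 : (0 : ℝ) < M := by linarith
    have e1 : ∏ j ∈ Finset.range (J + 1),
        (3 * (M * Real.exp (bet M J j * L)) ^ (ll M J j + rr M J j)) =
        Real.exp (∑ j ∈ Finset.range (J + 1),
          (Real.log 3 + (Real.log M + bet M J j * L) * ((ll M J j + rr M J j : ℕ) : ℝ))) := by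
      rw [Real.exp_sum]
      refine Finset.prod_congr rfl fun j _ => ?_
      rw [Real.exp_add, Real.exp_log (by norm_num)]
      congr 1
      rw [mul_comm (Real.log M + bet M J j * L), Real.exp_nat_mul, Real.exp_add,
        Real.exp_log hM0]
    rw [e1, Real.rpow_def_of_pos hT0]
    apply Real.exp_le_exp.2
    have hlog3 : Real.log 3 ≤ 2 := by
      have := Real.log_le_sub_one_of_pos (show (0 : ℝ) < 3 by norm_num)
      linarith
    calc ∑ j ∈ Finset.range (J + 1),
          (Real.log 3 + (Real.log M + bet M J j * L) * ((ll M J j + rr M J j : ℕ) : ℝ))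
        ≤ ∑ j ∈ Finset.range (J + 1),
          (2 + (12 * Real.log M) * KK M J j + (12 * L) * (bet M J j * KK M J j)) := by
          refine Finset.sum_le_sum fun j hj => ?_
          have h1 := lr_le (M := M) (show j ≤ J by rw [Finset.mem_range] at hj; omega)
          have h2 : 0 ≤ Real.log M + bet M J j * L := by
            have := (bet_pos M J j).le
            positivity
          have h3 := mul_le_mul_of_nonneg_left h1 h2
          linarith
      _ = (J + 1) * 2 + (12 * Real.log M) * ∑ j ∈ Finset.range (J + 1), KK M J j +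
          (12 * L) * ∑ j ∈ Finset.range (J + 1), bet M J j * KK M J j := by
          rw [Finset.sum_add_distrib, Finset.sum_add_distrib, ← Finset.mul_sum, ← Finset.mul_sum]
          simp
      _ ≤ (J + 1) * 2 + (12 * Real.log M) * ((J + 1) * Real.exp (3 / 4 * ((M : ℝ) + J))) +
          (12 * L) * (5 * Real.exp (-(M : ℝ) / 4)) := by
          have h1 := sum_KK M J
          have h2 := sum_bet_KK M J
          gcongr
      _ ≤ (4 * Real.log b + 1) * 2 + (12 * Real.log M) * ((4 * Real.log b + 1) *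
          (Real.exp (3 / 4 * M) * Real.exp (3 / 4 * (4 * Real.log b)))) + L * (1 / 25) := by
          have h3 : Real.exp (3 / 4 * ((M : ℝ) + J)) ≤
              Real.exp (3 / 4 * M) * Real.exp (3 / 4 * (4 * Real.log b)) := by
            rw [← Real.exp_add]
            apply Real.exp_le_exp.2
            linarith
          have h4 : (12 * L) * (5 * Real.exp (-(M : ℝ) / 4)) ≤ L * (1 / 25) := by
            have := M_bound hM
            have h5 : Real.exp (-(M : ℝ) / 4) ≤ M * Real.exp (-(M : ℝ) / 4) := by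
              have : 0 < Real.exp (-(M : ℝ) / 4) := Real.exp_pos _
              nlinarith
            have h6 : 60 * Real.exp (-(M : ℝ) / 4) ≤ 1 / 25 := by nlinarith
            have h7 : 0 ≤ L := by linarith
            nlinarith
          have h8 : 0 ≤ 12 * Real.log M := by positivity
          have h9 : 0 ≤ 4 * Real.log b + 1 := by
            have := Real.log_nonneg hb1; linarith
          gcongr
      _ ≤ L * (1 / 200) + L * (1 / 25) := by
          have h9 : 0 ≤ 4 * Real.log b + 1 := by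
            have := Real.log_nonneg hb1; linarith
          have h10 : 1 ≤ Real.exp (3 / 4 * (4 * Real.log b)) := by
            apply Real.one_le_exp
            have := Real.log_nonneg hb1
            positivity
          have h11 : (4 * Real.log b + 1) * 2 ≤
              (4 * Real.log b + 1) * (2 * Real.exp (3 / 4 * (4 * Real.log b))) := by
            gcongr; linarith
          have h12 : (4 * Real.log b + 1) * 2 + (12 * Real.log M) * ((4 * Real.log b + 1) *
              (Real.exp (3 / 4 * M) * Real.exp (3 / 4 * (4 * Real.log b)))) ≤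
              (D / 200) * ((4 * Real.log b + 1) * Real.exp (3 / 4 * (4 * Real.log b))) := by
            rw [hD]
            calc _ ≤ (4 * Real.log b + 1) * (2 * Real.exp (3 / 4 * (4 * Real.log b))) +
                (12 * Real.log M) * ((4 * Real.log b + 1) *
              (Real.exp (3 / 4 * M) * Real.exp (3 / 4 * (4 * Real.log b)))) := by linarith
              _ = _ := by ring
          linarith
      _ ≤ L * (1 / 20) := by linarith

end Pool.Agent.Lib.MP_973905_nt
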