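import Pool.Agent.Lib.MP_973905_nt.IngDefs
import Pool.Agent.Lib.MP_973905_nt.Holder
import Pool.Agent.Lib.MP_973905_nt.Len

/-! Assembling the ingredients: upper and lower bounds of the moments. -/

namespace Pool.Agent.Lib.MP_973905_nt

open MeasureTheory ProbabilityTheory Complex Filter Topology

namespace Asm

lemma pt_re (c T t : ℝ) : (pt c T t).re = 1 / 2 + c / Real.log T := by
  simp [pt]

lemma continuous_pt (c T : ℝ) : Continuous (pt c T) := by
  unfold pt; fun_prop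

lemma continuous_fs_pt (c T : ℝ) {n : ℕ} (hn : n ≠ 0) : Continuous fun t => fs (pt c T t) n := by
  unfold fs
  exact (continuous_pt c T).neg.const_cpow (Or.inl (by exact_mod_cast hn))

lemma dp_line {N M : ℝ} {G : (ℕ → ℂ) → ℂ} (h : DP N M G) {c T : ℝ}
    (hT : 0 ≤ 1 / 2 + c / Real.log T) :
    Continuous (fun t => G (fs (pt c T t))) ∧ ∀ t, ‖G (fs (pt c T t))‖ ≤ M := by
  obtain ⟨k, cc, n, h1, h2, h3⟩ := h
  have hn : ∀ i, n i ≠ 0 := fun i => Nat.one_le_iff_ne_zero.mp (h1 i).1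
  have e : ∀ t, G (fs (pt c T t)) = ∑ i, cc i * fs (pt c T t) (n i) := fun t => h3 _ (cmul_fs _)
  constructor
  · simp only [e]
    exact continuous_finsetSum _ fun i _ => continuous_const.mul (continuous_fs_pt c T (hn i))
  · intro t
    rw [e]
    refine (norm_sum_le _ _).trans ((Finset.sum_le_sum fun i _ => ?_).trans h2)
    rw [norm_mul, norm_fs _ (hn i), pt_re]
    refine mul_le_of_le_one_right (norm_nonneg _) ?_
    apply Real.rpow_le_one_of_one_le_of_nonpos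
    · exact_mod_cast (h1 i).1
    · linarith

lemma dp_AA' {T : ℝ} (hT : 1 < T) {M : ℕ} (hM : 1 ≤ M) (J : ℕ) {α : ℝ} (hα : |α| ≤ 1)
    (g h : Finset ℕ) : ∃ N B : ℝ, DP N B (AA T M J α g h) :=
  ⟨_, _, dp_prod (Finset.range (J + 1)) (fun j hj => Len.dp_Fc (M := M) (J := J) hT hM
    (show j ≤ J by rw [Finset.mem_range] at hj; omega) hα g h)⟩

lemma norm_AA (T : ℝ) (M J : ℕ) (α : ℝ) {g h : Finset ℕ} (hg : g ⊆ Finset.range (J + 1))
    (hh : h ⊆ Finset.range (J + 1)) (f : ℕ → ℂ) : ‖AA T M J α g h f‖ =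
      (∏ j ∈ g, ‖Ntr (ll M J j) α (Pj M (Sj T M J j) f)‖) *
        ∏ j ∈ h, ‖(Pj M (Sj T M J j) f / (KK M J j : ℂ)) ^ (rr M J j)‖ := by
  have e1 : ∀ j ∈ Finset.range (J + 1), ‖Fc T M J α g h j f‖ =
      (if j ∈ g then ‖Ntr (ll M J j) α (Pj M (Sj T M J j) f)‖ else 1) *
      (if j ∈ h then ‖(Pj M (Sj T M J j) f / (KK M J j : ℂ)) ^ (rr M J j)‖ else 1) := by
    intro j _
    unfold Fc
    rw [norm_mul]
    congr 1
    · split_ifs <;> simp
    · split_ifs <;> simp
  rw [AA, norm_prod, Finset.prod_congr rfl e1, Finset.prod_mul_distrib, Finset.prod_ite_mem,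
    Finset.prod_ite_mem, Finset.inter_eq_right.mpr hg, Finset.inter_eq_right.mpr hh]

lemma expand (T : ℝ) (M J : ℕ) (α : ℝ) (f : ℕ → ℂ) :
    ∑ g ∈ (Finset.range (J + 1)).powerset, ‖AA T M J α g (Finset.range (J + 1) \ g) f‖ ^ 2 =
      ∏ j ∈ Finset.range (J + 1), (‖Ntr (ll M J j) α (Pj M (Sj T M J j) f)‖ ^ 2 +
        ‖(Pj M (Sj T M J j) f / (KK M J j : ℂ)) ^ (rr M J j)‖ ^ 2) := by
  rw [Finset.prod_add]
  refine Finset.sum_congr rfl fun g hg => ?_
  rw [norm_AA T M J α (Finset.mem_powerset.1 hg) Finset.sdiff_subset f, mul_pow,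
    Finset.prod_pow, Finset.prod_pow]

lemma sum_bound {R : Finset ℕ} {u : Finset ℕ → ℝ} {s : ℕ → ℝ} {A B e : ℝ}
    (he : 0 ≤ e) (h1 : u R ≤ B)
    (h2 : ∀ g ∈ R.powerset, u g ≤ A * ∏ j ∈ R \ g, s j + e) :
    ∑ g ∈ R.powerset, u g ≤ B + A * (∏ j ∈ R, (1 + s j) - 1) + 2 ^ R.card * e := by
  have hR : R ∈ R.powerset := Finset.mem_powerset_self R
  have h3 : ∏ j ∈ R, (1 + s j) = ∑ g ∈ R.powerset, ∏ j ∈ R \ g, s j := by
    rw [Finset.prod_add]
    refine Finset.sum_congr rfl fun g _ => ?_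
    rw [Finset.prod_const_one, one_mul]
  have h4 : ∑ g ∈ R.powerset, ∏ j ∈ R \ g, s j = 1 + ∑ g ∈ R.powerset.erase R, ∏ j ∈ R \ g, s j := by
    rw [← Finset.add_sum_erase _ _ hR, Finset.sdiff_self, Finset.prod_empty]
  rw [← Finset.add_sum_erase _ _ hR, h3, h4]
  have h5 : ∑ g ∈ R.powerset.erase R, u g ≤
      ∑ g ∈ R.powerset.erase R, (A * ∏ j ∈ R \ g, s j + e) :=
    Finset.sum_le_sum fun g hg => h2 g (Finset.mem_of_mem_erase hg)
  rw [Finset.sum_add_distrib, ← Finset.mul_sum, Finset.sum_const, nsmul_eq_mul] at h5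
  have h6 : ((R.powerset.erase R).card : ℝ) * e ≤ 2 ^ R.card * e := by
    have h7 : (R.powerset.erase R).card ≤ 2 ^ R.card := by
      rw [← Finset.card_powerset]
      exact Finset.card_le_card (Finset.erase_subset _ _)
    have h8 : ((R.powerset.erase R).card : ℝ) ≤ 2 ^ R.card := by exact_mod_cast h7
    gcongr
  have e1 : A * (1 + ∑ g ∈ R.powerset.erase R, ∏ j ∈ R \ g, s j - 1) =
      A * ∑ g ∈ R.powerset.erase R, ∏ j ∈ R \ g, s j := by ring
  rw [e1]
  linarith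

lemma prod_one_add_le {R : Finset ℕ} {s : ℕ → ℝ} (hs : ∀ j, 0 ≤ s j) (h : ∑ j ∈ R, s j ≤ 1) :
    ∏ j ∈ R, (1 + s j) ≤ 1 + 2 * ∑ j ∈ R, s j := by
  have h1 : ∏ j ∈ R, (1 + s j) ≤ Real.exp (∑ j ∈ R, s j) := by
    rw [Real.exp_sum]
    refine Finset.prod_le_prod (fun j _ => by linarith [hs j]) fun j _ => ?_
    linarith [Real.add_one_le_exp (s j)]
  have h0 : 0 ≤ ∑ j ∈ R, s j := Finset.sum_nonneg fun j _ => hs j
  have h2 := Real.abs_exp_sub_one_le (x := ∑ j ∈ R, s j) (by rw [abs_of_nonneg h0]; exact h)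
  have h3 := (abs_le.1 h2).2
  rw [abs_of_nonneg h0] at h3
  linarith

lemma one_sub_sum_le {R : Finset ℕ} {x : ℕ → ℝ} (h0 : ∀ j, 0 ≤ x j) (h1 : ∀ j, x j ≤ 1) :
    1 - ∑ j ∈ R, x j ≤ ∏ j ∈ R, (1 - x j) := by
  classical
  induction R using Finset.induction_on with
  | empty => simp
  | insert a s ha ih =>
    rw [Finset.sum_insert ha, Finset.prod_insert ha]
    have h2 : ∏ j ∈ s, (1 - x j) ≤ 1 := Finset.prod_le_one (fun j _ => by linarith [h1 j])
      fun j _ => by linarith [h0 j]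
    have h3 := h0 a
    nlinarith

lemma EG_sum {ι : Type*} (s : Finset ι) {T τ : ℝ} {F : ι → ℝ → ℝ}
    (h : ∀ i ∈ s, Integrable (F i) (gaussianReal τ (VV T))) :
    EG T τ (fun t => ∑ i ∈ s, F i t) = ∑ i ∈ s, EG T τ (F i) := integral_finsetSum s h

/-- the two-parameter identity behind the lower bound -/
lemma half_id {Z a b k : ℝ} (hZ : 0 ≤ Z) (ha : 0 ≤ a) (hb : 0 ≤ b) (hk0 : 0 < k) (hk1 : k < 1) :
    (Z ^ (2 * k)) ^ (1 / 2 : ℝ) * ((b ^ 2) ^ k * (Z ^ 2 * a ^ 2) ^ (1 - k)) ^ (1 - 1 / 2 : ℝ) =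
      Z * (a ^ (1 - k) * b ^ k) := by
  have e1 : (Z ^ (2 * k)) ^ (1 / 2 : ℝ) = Z ^ k := by
    rw [← Real.rpow_mul hZ]; congr 1; ring
  have e2 : ((b ^ 2) ^ k) = (b ^ k) ^ 2 := by
    rw [← Real.rpow_natCast, ← Real.rpow_natCast, ← Real.rpow_mul hb, ← Real.rpow_mul hb, mul_comm]
  have e3 : (Z ^ 2 * a ^ 2) ^ (1 - k) = ((Z ^ (1 - k)) * a ^ (1 - k)) ^ 2 := by
    rw [← mul_pow, ← Real.mul_rpow hZ ha, ← Real.rpow_natCast, ← Real.rpow_natCast,
      ← Real.rpow_mul (mul_nonneg hZ ha), ← Real.rpow_mul (mul_nonneg hZ ha), mul_comm ((2 : ℕ) : ℝ)]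
  have hbk : 0 ≤ b ^ k := Real.rpow_nonneg hb _
  have hak : 0 ≤ a ^ (1 - k) := Real.rpow_nonneg ha _
  have hZk : 0 ≤ Z ^ (1 - k) := Real.rpow_nonneg hZ _
  rw [e1, e2, e3, ← mul_pow, show (1 - 1 / 2 : ℝ) = 1 / 2 by norm_num, ← Real.sqrt_eq_rpow,
    Real.sqrt_sq (by positivity)]
  have e4 : Z ^ k * Z ^ (1 - k) = Z := by
    rw [← Real.rpow_add_of_nonneg hZ hk0.le (by linarith)]
    rw [show k + (1 - k) = 1 by ring, Real.rpow_one]
  calc Z ^ k * (b ^ k * (Z ^ (1 - k) * a ^ (1 - k))) = (Z ^ k * Z ^ (1 - k)) * (a ^ (1 - k) * b ^ k) := by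
        ring
    _ = _ := by rw [e4]

lemma mul_eq_rpow {x y k : ℝ} (hx : 0 ≤ x) (hy : 0 ≤ y) (hk0 : 0 < k) (hk1 : k < 1) :
    x * y = (x ^ k * y ^ (1 - k)) * (x ^ (1 - k) * y ^ k) := by
  have e1 : x ^ k * x ^ (1 - k) = x := by
    rw [← Real.rpow_add_of_nonneg hx hk0.le (by linarith)]
    rw [show k + (1 - k) = 1 by ring, Real.rpow_one]
  have e2 : y ^ (1 - k) * y ^ k = y := by
    rw [← Real.rpow_add_of_nonneg hy (by linarith) hk0.le]
    rw [show (1 - k) + k = 1 by ring, Real.rpow_one]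
  calc x * y = (x ^ k * x ^ (1 - k)) * (y ^ (1 - k) * y ^ k) := by rw [e1, e2]
    _ = _ := by ring

end Asm

open Asm in
lemma asm_core {C κ δ : ℝ} {M : ℕ} {c T τ k : ℝ} (hδ0 : 0 < δ) (hδ : δ ≤ 1 / 16) (hM : 4 ≤ M)
    (hk0 : 0 < k) (hk1 : k < 1) (hT : 3 ≤ T) (hc : 0 ≤ c) (hcT : 4 * c ≤ Real.log T)
    (hC : 0 < C) (hw : 8 * Real.exp (C * M - 1 / 4 * Real.exp (3 / 4 * M)) ≤ δ) (hκ : 0 < κ)
    (hE : 2 ^ (JJ T + 1) * T ^ (-(κ / 2)) ≤ δ / 4) (hI : Ing C κ δ M c T τ k) :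
    EG T τ (fun t => ‖riemannZeta (pt c T t)‖ ^ (2 * k)) ≤
      (1 + 5 * δ) * DJ k (1 / 2 + c / Real.log T) T M (JJ T) ∧
    (1 - 7 * δ) * DJ k (1 / 2 + c / Real.log T) T M (JJ T) ≤
      EG T τ (fun t => ‖riemannZeta (pt c T t)‖ ^ (2 * k)) := by
  obtain ⟨I1, I2, I3, I4⟩ := hI
  have hT1 : 1 < T := by linarith
  have hT0 : 0 < T := by linarith
  have hL : 0 < Real.log T := Real.log_pos hT1
  have hM4 : (4 : ℝ) ≤ M := by exact_mod_cast hM
  set J := JJ T with hJ
  set σ := 1 / 2 + c / Real.log T with hσd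
  have hcL : 0 ≤ c / Real.log T := by positivity
  have hcL2 : c / Real.log T ≤ 1 / 4 := by
    rw [div_le_iff₀ hL]; linarith
  have hσ1 : 1 / 2 ≤ σ := by linarith
  have hσ2 : σ ≤ 3 / 4 := by linarith
  set D := DJ k σ T M J with hD
  have hD1 : 1 ≤ D := Finset.one_le_prod fun j _ =>
    DS_ge_one hk0 hσ1 (fun p hp => prime_Sj hT1 hp)
  have hD0 : 0 < D := by linarith
  have hδD : δ / 4 ≤ δ * D := by
    have : δ * 1 ≤ δ * D := mul_le_mul_of_nonneg_left hD1 hδ0.le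
    linarith
  set R := Finset.range (J + 1) with hR
  have hα1 : |k - 1| ≤ 1 := by rw [abs_le]; constructor <;> linarith
  have hα2 : |k| ≤ 1 := by rw [abs_le]; constructor <;> linarith
  have hcardR : R.card = J + 1 := Finset.card_range _
  -- sums over the blocks
  set E := Real.exp (3 / 4 * (M : ℝ)) with hEd
  set w := Real.exp (C * M - 1 / 4 * E) with hwd
  have hw0 : 0 < w := Real.exp_pos _
  have hwD : 8 * w * D ≤ δ * D := mul_le_mul_of_nonneg_right hw hD0.le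
  have hwD0 : 0 < w * D := mul_pos hw0 hD0
  have hE4 : 4 ≤ E := by
    have := Real.add_one_le_exp (3 / 4 * (M : ℝ))
    linarith
  have hCM : 0 < C * M := by positivity
  have hCM1 : 1 ≤ Real.exp (C * M) := Real.one_le_exp hCM.le
  have hss0 : ∀ j, 0 ≤ ss M J j := fun j => (Real.exp_pos _).le
  have s1 : ∑ j ∈ R, Real.exp (-KK M J j) ≤ 2 * w := by
    have h1 := sum_exp_KK (M := M) (J := J) (a := 1) (by rw [one_mul]; linarith) one_pos
    simp only [one_mul] at h1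
    refine h1.trans ?_
    gcongr
    rw [hwd]
    apply Real.exp_le_exp.2
    linarith
  have s2 : ∑ j ∈ R, ss M J j ≤ 2 * Real.exp (-(1 / 2 * E)) := by
    have h1 := sum_exp_KK (M := M) (J := J) (a := 1 / 2) (by linarith) (by norm_num)
    refine le_trans (le_of_eq ?_) h1
    refine Finset.sum_congr rfl fun j _ => ?_
    rw [ss]; congr 1; ring
  have s3 : ∑ j ∈ R, Real.exp (-(1 / 4 * KK M J j)) ≤ 2 * Real.exp (-(1 / 4 * E)) :=
    sum_exp_KK (M := M) (J := J) (a := 1 / 4) (by linarith) (by norm_num)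
  have w2 : Real.exp (C * M) * Real.exp (-(1 / 2 * E)) ≤ w := by
    rw [← Real.exp_add, hwd]
    apply Real.exp_le_exp.2
    linarith
  have w3 : Real.exp (C * M) * Real.exp (-(1 / 4 * E)) = w := by
    rw [← Real.exp_add, hwd, sub_eq_add_neg]
  have w4 : Real.exp (-(1 / 2 * E)) ≤ w := by
    have := mul_le_mul_of_nonneg_right hCM1 (Real.exp_pos (-(1 / 2 * E))).le
    linarith
  have hprodss : ∏ j ∈ R, (1 + ss M J j) - 1 ≤ 4 * Real.exp (-(1 / 2 * E)) := by
    have h1 := prod_one_add_le (R := R) hss0 (by linarith)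
    linarith
  have hprodss0 : 0 ≤ ∏ j ∈ R, (1 + ss M J j) - 1 := by
    have : 1 ≤ ∏ j ∈ R, (1 + ss M J j) := Finset.one_le_prod fun j _ => by linarith [hss0 j]
    linarith
  -- powers of T
  have hTk : T ^ (-κ) ≤ T ^ (-(κ / 2)) := Real.rpow_le_rpow_of_exponent_le hT1.le (by linarith)
  have hTk0 : 0 < T ^ (-κ) := Real.rpow_pos_of_pos hT0 _
  have hTk20 : 0 < T ^ (-(κ / 2)) := Real.rpow_pos_of_pos hT0 _
  have hTk2 : T ^ (-κ) = (T ^ (-(κ / 2))) ^ 2 := by
    rw [← Real.rpow_natCast, ← Real.rpow_mul hT0.le]; congr 1; push_cast; ring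
  have hEk : 2 ^ (J + 1) * T ^ (-κ) ≤ δ / 4 := le_trans (by gcongr) hE
  -- zeta on the line
  set Z : ℝ → ℝ := fun t => ‖riemannZeta (pt c T t)‖ with hZ
  have hZ0 : ∀ t, 0 ≤ Z t := fun t => norm_nonneg _
  have hZc : Continuous Z := (continuous_zeta_line (σ := σ) (by linarith)).norm
  obtain ⟨Cz, hCz, hzp⟩ := zeta_poly
  have hZb : ∀ t, Z t ≤ Cz * (1 + |t|) ^ 2 := fun t => hzp σ t hσ1 hσ2
  -- the Dirichlet polynomials on the line
  have hAA : ∀ α : ℝ, |α| ≤ 1 → ∀ g h : Finset ℕ,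
      Continuous (fun t => AA T M J α g h (fs (pt c T t))) ∧
        ∃ B : ℝ, 0 ≤ B ∧ ∀ t, ‖AA T M J α g h (fs (pt c T t))‖ ≤ B := by
    intro α hα g h
    obtain ⟨N, B, hdp⟩ := dp_AA' hT1 (show 1 ≤ M by omega) J hα g h
    obtain ⟨h1, h2⟩ := dp_line hdp (c := c) (T := T) (by linarith)
    exact ⟨h1, B, hdp.M_nonneg, h2⟩
  have hint2 : ∀ α : ℝ, |α| ≤ 1 → ∀ g h : Finset ℕ,
      Integrable (fun t => ‖AA T M J α g h (fs (pt c T t))‖ ^ 2) (gaussianReal τ (VV T)) := by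
    intro α hα g h
    obtain ⟨h1, B, hB0, h2⟩ := hAA α hα g h
    refine Integrable.of_bound (h1.norm.pow 2).aestronglyMeasurable (B ^ 2)
      (Filter.Eventually.of_forall fun t => ?_)
    rw [Real.norm_eq_abs, abs_of_nonneg (by positivity)]
    exact pow_le_pow_left₀ (norm_nonneg _) (h2 t) 2
  have hint1 : ∀ α : ℝ, |α| ≤ 1 → ∀ g h : Finset ℕ,
      Integrable (fun t => Z t ^ 2 * ‖AA T M J α g h (fs (pt c T t))‖ ^ 2)
        (gaussianReal τ (VV T)) := by
    intro α hα g h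
    obtain ⟨h1, B, hB0, h2⟩ := hAA α hα g h
    refine integrable_of_poly τ (VV T) ((hZc.pow 2).mul (h1.norm.pow 2)).aestronglyMeasurable
      (C := Cz ^ 2 * B ^ 2) (m := 4) fun t => ?_
    rw [Real.norm_eq_abs, abs_of_nonneg (by positivity)]
    calc Z t ^ 2 * ‖AA T M J α g h (fs (pt c T t))‖ ^ 2
        ≤ (Cz * (1 + |t|) ^ 2) ^ 2 * B ^ 2 := by
          have := hZ0 t
          have := hZb t
          have := h2 t
          gcongr
      _ = _ := by ring
  have hfint : Integrable (fun t => Z t ^ (2 * k)) (gaussianReal τ (VV T)) := by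
    refine integrable_of_poly τ (VV T)
      (hZc.rpow_const fun _ => Or.inr (by linarith)).aestronglyMeasurable
      (C := (max Cz 1) ^ 2) (m := 4) fun t => ?_
    rw [Real.norm_eq_abs, abs_of_nonneg (Real.rpow_nonneg (hZ0 t) _)]
    have h1 : 1 ≤ max Cz 1 * (1 + |t|) ^ 2 := by
      have h3 : 1 ≤ max Cz 1 := le_max_right _ _
      have h4 : 1 ≤ (1 + |t|) ^ 2 := one_le_pow₀ (by linarith [abs_nonneg t])
      nlinarith
    calc Z t ^ (2 * k) ≤ (max Cz 1 * (1 + |t|) ^ 2) ^ (2 * k) := by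
          apply Real.rpow_le_rpow (hZ0 t) _ (by linarith)
          refine (hZb t).trans ?_
          gcongr
          exact le_max_left _ _
      _ ≤ (max Cz 1 * (1 + |t|) ^ 2) ^ (2 : ℝ) :=
          Real.rpow_le_rpow_of_exponent_le h1 (by linarith)
      _ = _ := by
          rw [Real.rpow_two]; ring
  set X := EG T τ (fun t => Z t ^ (2 * k)) with hX
  constructor
  · -- upper bound
    set F1 : ℝ → ℝ := fun t => ∑ g ∈ R.powerset,
      Z t ^ 2 * ‖AA T M J (k - 1) g (R \ g) (fs (pt c T t))‖ ^ 2 with hF1d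
    set F2 : ℝ → ℝ := fun t => ∑ g ∈ R.powerset,
      ‖AA T M J k g (R \ g) (fs (pt c T t))‖ ^ 2 with hF2d
    have hF1i : Integrable F1 (gaussianReal τ (VV T)) :=
      integrable_finsetSum _ fun g _ => hint1 (k - 1) hα1 g (R \ g)
    have hF2i : Integrable F2 (gaussianReal τ (VV T)) :=
      integrable_finsetSum _ fun g _ => hint2 k hα2 g (R \ g)
    have hF1 : EG T τ F1 ≤ (1 + 3 * δ) * D := by
      rw [hF1d, EG_sum _ fun g _ => hint1 (k - 1) hα1 g (R \ g)]
      have h1 := sum_bound (R := R) (u := fun g => EG T τ (fun t =>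
        Z t ^ 2 * ‖AA T M J (k - 1) g (R \ g) (fs (pt c T t))‖ ^ 2)) (s := ss M J)
        (A := Real.exp (C * M) * D) (B := (1 + δ) * D) (e := T ^ (-κ)) hTk0.le
        (by
          simp only [Finset.sdiff_self]
          exact I1)
        (fun g hg => (I4 g (R \ g) (Finset.union_sdiff_of_subset (Finset.mem_powerset.1 hg))).1)
      refine h1.trans ?_
      rw [hcardR]
      have h2 : Real.exp (C * M) * D * (∏ j ∈ R, (1 + ss M J j) - 1) ≤ 4 * w * D := by
        calc Real.exp (C * M) * D * (∏ j ∈ R, (1 + ss M J j) - 1)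
            ≤ Real.exp (C * M) * D * (4 * Real.exp (-(1 / 2 * E))) := by gcongr
          _ = 4 * (Real.exp (C * M) * Real.exp (-(1 / 2 * E))) * D := by ring
          _ ≤ 4 * w * D := by gcongr
      linarith
    have hF2 : EG T τ F2 ≤ (1 + 3 * δ) * D := by
      rw [hF2d, EG_sum _ fun g _ => hint2 k hα2 g (R \ g)]
      have h1 := sum_bound (R := R) (u := fun g => EG T τ (fun t =>
        ‖AA T M J k g (R \ g) (fs (pt c T t))‖ ^ 2)) (s := ss M J)
        (A := 2 * D) (B := (1 + δ) * D) (e := T ^ (-κ)) hTk0.le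
        (by
          simp only [Finset.sdiff_self]
          exact I2)
        (fun g hg => (I4 g (R \ g) (Finset.union_sdiff_of_subset (Finset.mem_powerset.1 hg))).2)
      refine h1.trans ?_
      rw [hcardR]
      have h2 : 2 * D * (∏ j ∈ R, (1 + ss M J j) - 1) ≤ 8 * w * D := by
        calc 2 * D * (∏ j ∈ R, (1 + ss M J j) - 1)
            ≤ 2 * D * (4 * w) := by
              gcongr
              linarith
          _ = 8 * w * D := by ring
      linarith
    have hpt : ∀ t, (1 - δ) * Z t ^ (2 * k) ≤ F1 t ^ k * F2 t ^ (1 - k) := by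
      intro t
      set f := fs (pt c T t) with hf
      set x : ℕ → ℝ := fun j => ‖Ntr (ll M J j) (k - 1) (Pj M (Sj T M J j) f)‖ ^ 2 +
        ‖(Pj M (Sj T M J j) f / (KK M J j : ℂ)) ^ (rr M J j)‖ ^ 2 with hx
      set y : ℕ → ℝ := fun j => ‖Ntr (ll M J j) k (Pj M (Sj T M J j) f)‖ ^ 2 +
        ‖(Pj M (Sj T M J j) f / (KK M J j : ℂ)) ^ (rr M J j)‖ ^ 2 with hy
      have hx0 : ∀ j, 0 ≤ x j := fun j => by simp only [hx]; positivity
      have hy0 : ∀ j, 0 ≤ y j := fun j => by simp only [hy]; positivity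
      have e1 : F1 t = Z t ^ 2 * ∏ j ∈ R, x j := by
        simp only [hF1d]
        rw [← Finset.mul_sum, expand]
      have e2 : F2 t = ∏ j ∈ R, y j := by
        simp only [hF2d]
        rw [expand]
      have hPx : 0 ≤ ∏ j ∈ R, x j := Finset.prod_nonneg fun j _ => hx0 j
      have e3 : F1 t ^ k * F2 t ^ (1 - k) = Z t ^ (2 * k) * ∏ j ∈ R, (x j ^ k * y j ^ (1 - k)) := by
        rw [e1, e2, Real.mul_rpow (by positivity) hPx, Finset.prod_mul_distrib,
          Real.finsetProd_rpow _ _ (fun j _ => hx0 j), Real.finsetProd_rpow _ _ (fun j _ => hy0 j),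
          ← Real.rpow_natCast, ← Real.rpow_mul (hZ0 t)]
        push_cast
        ring
      rw [e3, mul_comm]
      apply mul_le_mul_of_nonneg_left _ (Real.rpow_nonneg (hZ0 t) _)
      have h1 : ∏ j ∈ R, (1 - Real.exp (-KK M J j)) ^ 2 ≤ ∏ j ∈ R, (x j ^ k * y j ^ (1 - k)) := by
        refine Finset.prod_le_prod (fun j _ => by positivity) fun j hj => ?_
        have hjJ : j ≤ J := by
          have := Finset.mem_range.1 hj
          omega
        exact always_ratio (ll M J j) (rr M J j) hk0.le hk1.le (Len.KK_ge_one hjJ) (Nat.le_ceil _) _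
      have h2 : 1 - ∑ j ∈ R, Real.exp (-KK M J j) ≤ ∏ j ∈ R, (1 - Real.exp (-KK M J j)) := by
        apply one_sub_sum_le (fun j => (Real.exp_pos _).le)
        intro j
        rw [Real.exp_le_one_iff]
        have : 0 < KK M J j := Real.exp_pos _
        linarith
      rw [Finset.prod_pow] at h1
      refine le_trans ?_ h1
      have h3 : 1 - 2 * w ≤ ∏ j ∈ R, (1 - Real.exp (-KK M J j)) := by linarith
      have h4 : (1 - 2 * w) ^ 2 ≤ (∏ j ∈ R, (1 - Real.exp (-KK M J j))) ^ 2 :=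
        pow_le_pow_left₀ (by linarith) h3 2
      have h5 : (1 - 2 * w) ^ 2 = 1 - 4 * w + 4 * w ^ 2 := by ring
      have h6 : 0 ≤ w ^ 2 := sq_nonneg w
      linarith
    have hB : 0 < (1 + 3 * δ) * D := by positivity
    have hF10 : ∀ t, 0 ≤ F1 t := fun t => Finset.sum_nonneg fun g _ => by positivity
    have hF20 : ∀ t, 0 ≤ F2 t := fun t => Finset.sum_nonneg fun g _ => by positivity
    have h1 := holder2 hF1i hF2i hF10 hF20 hk0.le hk1.le hB hB hF1 hF2
    have h2 : (1 - δ) * X ≤ ((1 + 3 * δ) * D) ^ k * ((1 + 3 * δ) * D) ^ (1 - k) := by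
      refine le_trans ?_ h1
      rw [hX, EG, ← integral_const_mul]
      exact integral_mono (hfint.const_mul _)
        (holder2_integrable hF1i hF2i hF10 hF20 hk0.le hk1.le) hpt
    rw [← Real.rpow_add hB, show k + (1 - k) = 1 by ring, Real.rpow_one] at h2
    have h3 : (1 + 3 * δ) * D ≤ (1 - δ) * ((1 + 5 * δ) * D) := by
      have h4 : 1 + 3 * δ ≤ (1 - δ) * (1 + 5 * δ) := by
        have : δ * δ ≤ δ * (1 / 16) := mul_le_mul_of_nonneg_left hδ hδ0.le
        linarith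
      rw [← mul_assoc]
      exact mul_le_mul_of_nonneg_right h4 hD0.le
    exact le_of_mul_le_mul_left (h2.trans h3) (by linarith)
  · -- lower bound
    set a : ℝ → ℝ := fun t => ‖AA T M J (k - 1) R ∅ (fs (pt c T t))‖ with ha
    set b : ℝ → ℝ := fun t => ‖AA T M J k R ∅ (fs (pt c T t))‖ with hb
    have ha0 : ∀ t, 0 ≤ a t := fun t => norm_nonneg _
    have hb0 : ∀ t, 0 ≤ b t := fun t => norm_nonneg _
    have hZa := hint1 (k - 1) hα1 R ∅
    have hbb := hint2 k hα2 R ∅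
    set G : ℝ → ℝ := fun t => (b t ^ 2) ^ k * (Z t ^ 2 * a t ^ 2) ^ (1 - k) with hG
    have hG0 : ∀ t, 0 ≤ G t := fun t =>
      mul_nonneg (Real.rpow_nonneg (by positivity) _) (Real.rpow_nonneg (by positivity) _)
    have hB : 0 < (1 + δ) * D := by positivity
    have hGi : Integrable G (gaussianReal τ (VV T)) :=
      holder2_integrable hbb hZa (fun t => by positivity) (fun t => by positivity) hk0.le hk1.le
    have hGE : ∫ t, G t ∂(gaussianReal τ (VV T)) ≤ (1 + δ) * D := by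
      have h1 := holder2 hbb hZa (fun t => by positivity) (fun t => by positivity) hk0.le hk1.le
        hB hB I2 I1
      rwa [← Real.rpow_add hB, show k + (1 - k) = 1 by ring, Real.rpow_one] at h1
    -- functions with one bad block
    set av : ℕ → ℝ → ℝ := fun v t => Z t ^ 2 * ‖AA T M J (k - 1) R {v} (fs (pt c T t))‖ ^ 2 with hav
    have havi : ∀ v, Integrable (av v) (gaussianReal τ (VV T)) := fun v => hint1 (k - 1) hα1 R {v}
    have hav0 : ∀ v t, 0 ≤ av v t := fun v t => by simp only [hav]; positivity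
    set f1 : ℝ → ℝ := fun t => (Z t ^ (2 * k)) ^ (1 / 2 : ℝ) * G t ^ (1 - 1 / 2 : ℝ) with hf1
    set fv : ℕ → ℝ → ℝ := fun v t => (av v t) ^ (1 / 2 : ℝ) * (b t ^ 2) ^ (1 - 1 / 2 : ℝ) with hfv
    have hf1i : Integrable f1 (gaussianReal τ (VV T)) :=
      holder2_integrable hfint hGi (fun t => Real.rpow_nonneg (hZ0 t) _) hG0 (by norm_num)
        (by norm_num)
    have hfvi : ∀ v, Integrable (fv v) (gaussianReal τ (VV T)) := fun v =>
      holder2_integrable (havi v) hbb (hav0 v) (fun t => by positivity) (by norm_num) (by norm_num)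
    have hpt : ∀ t, Z t * a t * b t ≤ (1 + δ) * f1 t + ∑ v ∈ R, fv v t := by
      intro t
      set f := fs (pt c T t) with hf
      have hfv0 : ∀ v, 0 ≤ fv v t := fun v =>
        mul_nonneg (Real.rpow_nonneg (hav0 v t) _) (Real.rpow_nonneg (by positivity) _)
      have hf10 : 0 ≤ f1 t :=
        mul_nonneg (Real.rpow_nonneg (Real.rpow_nonneg (hZ0 t) _) _) (Real.rpow_nonneg (hG0 t) _)
      by_cases hgood : ∀ j ∈ R, ‖Pj M (Sj T M J j) f‖ ≤ KK M J j
      · have e1 : f1 t = Z t * (a t ^ (1 - k) * b t ^ k) := half_id (hZ0 t) (ha0 t) (hb0 t) hk0 hk1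
        have e2 : a t = ∏ j ∈ R, ‖Ntr (ll M J j) (k - 1) (Pj M (Sj T M J j) f)‖ := by
          simp only [ha]
          rw [norm_AA T M J (k - 1) (Finset.Subset.refl _) (Finset.empty_subset _),
            Finset.prod_empty, mul_one]
        have e3 : b t = ∏ j ∈ R, ‖Ntr (ll M J j) k (Pj M (Sj T M J j) f)‖ := by
          simp only [hb]
          rw [norm_AA T M J k (Finset.Subset.refl _) (Finset.empty_subset _),
            Finset.prod_empty, mul_one]
        have h1 : a t ^ k * b t ^ (1 - k) ≤ ∏ j ∈ R, (1 + Real.exp (-KK M J j)) := by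
          rw [e2, e3, ← Real.finsetProd_rpow _ _ (fun j _ => norm_nonneg _),
            ← Real.finsetProd_rpow _ _ (fun j _ => norm_nonneg _), ← Finset.prod_mul_distrib]
          refine Finset.prod_le_prod (fun j _ => mul_nonneg (Real.rpow_nonneg (norm_nonneg _) _)
            (Real.rpow_nonneg (norm_nonneg _) _)) fun j hj => ?_
          have hjJ : j ≤ J := by
            have := Finset.mem_range.1 hj
            omega
          exact (good_ratio (ll M J j) hk0.le hk1.le (Len.KK_ge_one hjJ) (Nat.le_ceil _)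
            (hgood j hj)).2
        have h2 : ∏ j ∈ R, (1 + Real.exp (-KK M J j)) ≤ 1 + δ := by
          have h3 := prod_one_add_le (R := R) (s := fun j => Real.exp (-KK M J j))
            (fun j => (Real.exp_pos _).le) (by linarith)
          linarith
        have h4 : Z t * a t * b t ≤ (1 + δ) * f1 t := by
          rw [e1, mul_assoc, mul_eq_rpow (ha0 t) (hb0 t) hk0 hk1]
          have h5 : 0 ≤ a t ^ (1 - k) * b t ^ k :=
            mul_nonneg (Real.rpow_nonneg (ha0 t) _) (Real.rpow_nonneg (hb0 t) _)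
          calc Z t * ((a t ^ k * b t ^ (1 - k)) * (a t ^ (1 - k) * b t ^ k))
              ≤ Z t * ((1 + δ) * (a t ^ (1 - k) * b t ^ k)) := by
                apply mul_le_mul_of_nonneg_left _ (hZ0 t)
                exact mul_le_mul_of_nonneg_right (h1.trans h2) h5
            _ = _ := by ring
        have h6 : 0 ≤ ∑ v ∈ R, fv v t := Finset.sum_nonneg fun v _ => hfv0 v
        linarith
      · push Not at hgood
        obtain ⟨v, hv, hPv⟩ := hgood
        have hvJ : v ≤ J := by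
          have := Finset.mem_range.1 hv
          omega
        have h1 : 1 ≤ ‖(Pj M (Sj T M J v) f / (KK M J v : ℂ)) ^ (rr M J v)‖ :=
          one_le_bad (rr M J v) (Len.KK_ge_one hvJ) hPv.le
        have e2 : ‖AA T M J (k - 1) R {v} f‖ = a t *
            ‖(Pj M (Sj T M J v) f / (KK M J v : ℂ)) ^ (rr M J v)‖ := by
          simp only [ha]
          rw [norm_AA T M J (k - 1) (Finset.Subset.refl _) (Finset.singleton_subset_iff.2 hv),
            norm_AA T M J (k - 1) (Finset.Subset.refl _) (Finset.empty_subset _),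
            Finset.prod_singleton, Finset.prod_empty, mul_one]
        have e3 : fv v t = (Z t * ‖AA T M J (k - 1) R {v} f‖) * b t := by
          simp only [hfv, hav]
          rw [show (1 - 1 / 2 : ℝ) = 1 / 2 by norm_num, ← Real.sqrt_eq_rpow, ← Real.sqrt_eq_rpow,
            Real.sqrt_sq (hb0 t), ← mul_pow, Real.sqrt_sq (mul_nonneg (hZ0 t) (norm_nonneg _))]
        have h2 : Z t * a t * b t ≤ fv v t := by
          rw [e3, e2]
          have h3 : a t ≤ a t * ‖(Pj M (Sj T M J v) f / (KK M J v : ℂ)) ^ (rr M J v)‖ :=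
            le_mul_of_one_le_right (ha0 t) h1
          have := hZ0 t
          have := hb0 t
          gcongr
        have h3 : fv v t ≤ ∑ v ∈ R, fv v t :=
          Finset.single_le_sum (f := fun v => fv v t) (fun v _ => hfv0 v) hv
        have h4 : 0 ≤ (1 + δ) * f1 t := by positivity
        linarith
    have hZab : (1 - δ) * D ≤ (1 + δ) * ∫ t, f1 t ∂(gaussianReal τ (VV T)) +
        ∑ v ∈ R, ∫ t, fv v t ∂(gaussianReal τ (VV T)) := by
      refine I3.trans ?_
      refine (norm_integral_le_integral_norm _).trans ?_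
      rw [← integral_finsetSum _ fun v _ => hfvi v, ← integral_const_mul,
        ← integral_add (hf1i.const_mul _) (integrable_finsetSum _ fun v _ => hfvi v)]
      apply integral_mono_of_nonneg (Filter.Eventually.of_forall fun t => norm_nonneg _)
        ((hf1i.const_mul _).add (integrable_finsetSum _ fun v _ => hfvi v))
      refine Filter.Eventually.of_forall fun t => ?_
      simp only [norm_mul, RCLike.norm_conj]
      exact hpt t
    have hfvE : ∀ v ∈ R, ∫ t, fv v t ∂(gaussianReal τ (VV T)) ≤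
        2 * Real.exp (C * M) * Real.exp (-(1 / 4 * KK M J v)) * D + 2 * T ^ (-(κ / 2)) * D := by
      intro v hv
      have h1 := (I4 R {v} (by
        rw [Finset.union_eq_left]; exact Finset.singleton_subset_iff.2 hv)).1
      rw [Finset.prod_singleton] at h1
      have hA : 0 < Real.exp (C * M) * D * ss M J v + T ^ (-κ) := by
        have := hss0 v
        positivity
      have h2 := holder2 (havi v) hbb (hav0 v) (fun t => by positivity) (a := 1 / 2) (by norm_num)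
        (by norm_num) hA hB h1 I2
      refine h2.trans ?_
      rw [show (1 - 1 / 2 : ℝ) = 1 / 2 by norm_num, ← Real.mul_rpow hA.le hB.le,
        ← Real.sqrt_eq_rpow]
      apply Real.sqrt_le_iff.2
      have hq : 0 < Real.exp (-(1 / 4 * KK M J v)) := Real.exp_pos _
      have hss : ss M J v = Real.exp (-(1 / 4 * KK M J v)) ^ 2 := by
        rw [ss, ← Real.exp_nat_mul]; congr 1; push_cast; ring
      refine ⟨by positivity, ?_⟩
      rw [hss, hTk2]
      set q := Real.exp (-(1 / 4 * KK M J v))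
      set Ex := Real.exp (C * M)
      set tt := T ^ (-(κ / 2))
      have g1 : Ex * q ^ 2 * D ^ 2 ≤ Ex ^ 2 * q ^ 2 * D ^ 2 := by
        have : Ex ≤ Ex ^ 2 := le_self_pow₀ hCM1 (by norm_num)
        gcongr
      have g2 : tt ^ 2 * D ≤ tt ^ 2 * D ^ 2 := by
        have : D ≤ D ^ 2 := le_self_pow₀ hD1 (by norm_num)
        gcongr
      have g3 : 0 ≤ Ex * q * D * (tt * D) := by positivity
      have g4 : 0 ≤ Ex * q ^ 2 * D ^ 2 := by positivity
      have g5 : 0 ≤ tt ^ 2 * D := by positivity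
      calc (Ex * D * q ^ 2 + tt ^ 2) * ((1 + δ) * D)
          = (1 + δ) * (Ex * q ^ 2 * D ^ 2 + tt ^ 2 * D) := by ring
        _ ≤ 2 * (Ex * q ^ 2 * D ^ 2 + tt ^ 2 * D) := by
            gcongr
            linarith
        _ ≤ 4 * (Ex ^ 2 * q ^ 2 * D ^ 2) + 4 * (tt ^ 2 * D ^ 2) + 8 * (Ex * q * D * (tt * D)) := by
            linarith
        _ = (2 * Ex * q * D + 2 * tt * D) ^ 2 := by ring
    have hsumv : ∑ v ∈ R, ∫ t, fv v t ∂(gaussianReal τ (VV T)) ≤ δ * D := by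
      refine (Finset.sum_le_sum hfvE).trans ?_
      rw [Finset.sum_add_distrib, Finset.sum_const, nsmul_eq_mul, hcardR]
      have h1 : ∑ v ∈ R, 2 * Real.exp (C * M) * Real.exp (-(1 / 4 * KK M J v)) * D ≤ 4 * w * D := by
        calc ∑ v ∈ R, 2 * Real.exp (C * M) * Real.exp (-(1 / 4 * KK M J v)) * D
            = 2 * Real.exp (C * M) * (∑ v ∈ R, Real.exp (-(1 / 4 * KK M J v))) * D := by
              rw [Finset.mul_sum, Finset.sum_mul]
          _ ≤ 2 * Real.exp (C * M) * (2 * Real.exp (-(1 / 4 * E))) * D := by gcongr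
          _ = 4 * (Real.exp (C * M) * Real.exp (-(1 / 4 * E))) * D := by ring
          _ = 4 * w * D := by rw [w3]
      have h2 : ((J + 1 : ℕ) : ℝ) ≤ 2 ^ (J + 1) := by
        exact_mod_cast (Nat.lt_two_pow_self (n := J + 1)).le
      have h3 : ((J + 1 : ℕ) : ℝ) * (2 * T ^ (-(κ / 2)) * D) ≤ 2 * (δ / 4) * D := by
        calc ((J + 1 : ℕ) : ℝ) * (2 * T ^ (-(κ / 2)) * D)
            ≤ 2 ^ (J + 1) * (2 * T ^ (-(κ / 2)) * D) := by gcongr
          _ = 2 * (2 ^ (J + 1) * T ^ (-(κ / 2))) * D := by ring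
          _ ≤ 2 * (δ / 4) * D := by gcongr
      linarith
    by_contra hcon
    push Not at hcon
    have hA : 0 < (1 - 7 * δ) * D := by
      apply mul_pos _ hD0
      linarith
    have h1 := holder2 hfint hGi (fun t => Real.rpow_nonneg (hZ0 t) _) hG0 (a := 1 / 2)
      (by norm_num) (by norm_num) hA hB hcon.le hGE
    rw [show (1 - 1 / 2 : ℝ) = 1 / 2 by norm_num, ← Real.mul_rpow hA.le hB.le,
      ← Real.sqrt_eq_rpow] at h1
    have h2 : √((1 - 7 * δ) * D * ((1 + δ) * D)) ≤ (1 - 3 * δ) * D := by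
      apply Real.sqrt_le_iff.2
      refine ⟨mul_nonneg (by linarith) hD0.le, ?_⟩
      have : (1 - 7 * δ) * (1 + δ) ≤ (1 - 3 * δ) ^ 2 := by
        have e1 : (1 - 3 * δ) ^ 2 = (1 - 7 * δ) * (1 + δ) + 16 * δ ^ 2 := by ring
        have e2 : 0 ≤ δ ^ 2 := sq_nonneg δ
        linarith
      calc (1 - 7 * δ) * D * ((1 + δ) * D) = ((1 - 7 * δ) * (1 + δ)) * D ^ 2 := by ring
        _ ≤ (1 - 3 * δ) ^ 2 * D ^ 2 := by gcongr
        _ = _ := by ring
    have h3 : ∫ t, f1 t ∂(gaussianReal τ (VV T)) ≤ (1 - 3 * δ) * D := by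
      refine le_trans ?_ (h1.trans h2)
      apply le_of_eq
      simp only [hf1]
      norm_num
    have h4 : (1 + δ) * ∫ t, f1 t ∂(gaussianReal τ (VV T)) ≤ (1 + δ) * ((1 - 3 * δ) * D) := by
      gcongr
    have h5 : 0 < δ ^ 2 * D := by positivity
    have h6 : (1 + δ) * ((1 - 3 * δ) * D) = D - 2 * (δ * D) - 3 * (δ ^ 2 * D) := by ring
    have h7 : (1 - δ) * D = D - δ * D := by ring
    linarith

namespace Asm

lemma eventually_pow (κ δ : ℝ) (hκ : 0 < κ) (hδ : 0 < δ) : ∀ᶠ T : ℝ in atTop,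
    2 ^ (JJ T + 1) * T ^ (-(κ / 2)) ≤ δ / 4 := by
  have h1 : Tendsto (fun T : ℝ => Real.log (Real.log T)) atTop atTop :=
    Real.tendsto_log_atTop.comp Real.tendsto_log_atTop
  have h2 : ∀ᶠ L : ℝ in atTop, 8 / δ * L ^ 4 ≤ Real.exp (κ / 2 * L) := by
    have := (isLittleO_pow_exp_pos_mul_atTop 4 (half_pos hκ)).def (c := (8 / δ + 1)⁻¹)
      (by positivity)
    filter_upwards [this, eventually_ge_atTop 0] with u hu hu0
    rw [Real.norm_eq_abs, Real.norm_eq_abs, abs_of_nonneg (by positivity),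
      abs_of_pos (Real.exp_pos _)] at hu
    have h3 := mul_le_mul_of_nonneg_left hu (show 0 ≤ 8 / δ + 1 by positivity)
    rw [← mul_assoc, mul_inv_cancel₀ (by positivity), one_mul] at h3
    refine le_trans ?_ h3
    have : 0 ≤ u ^ 4 := by positivity
    linarith
  filter_upwards [Real.tendsto_log_atTop.eventually h2, h1.eventually_ge_atTop 1,
    Real.tendsto_log_atTop.eventually_ge_atTop 1, eventually_gt_atTop 0] with T hT hb hL hT0
  set L := Real.log T with hLd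
  set b := Real.log L with hbd
  have hlb : 0 ≤ 4 * Real.log b := by
    have := Real.log_nonneg hb
    linarith
  have hJ : (JJ T : ℝ) ≤ 4 * Real.log b := Nat.floor_le hlb
  have hbL : b ≤ L := by
    have := Real.log_le_sub_one_of_pos (show 0 < L by linarith)
    linarith
  have h3 : (2 : ℝ) ^ (JJ T + 1) ≤ 2 * L ^ 4 := by
    have h4 : (2 : ℝ) ^ (JJ T) ≤ Real.exp (JJ T) := by
      have h5 : (2 : ℝ) ≤ Real.exp 1 := by linarith [Real.exp_one_gt_d9]
      calc (2 : ℝ) ^ (JJ T) ≤ (Real.exp 1) ^ (JJ T) := pow_le_pow_left₀ (by norm_num) h5 _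
        _ = Real.exp (JJ T) := by rw [← Real.exp_nat_mul, mul_one]
    have h6 : Real.exp (JJ T) ≤ b ^ 4 := by
      calc Real.exp (JJ T) ≤ Real.exp (4 * Real.log b) := Real.exp_le_exp.2 hJ
        _ = b ^ 4 := by
          rw [show 4 * Real.log b = ((4 : ℕ) : ℝ) * Real.log b by norm_num, Real.exp_nat_mul,
            Real.exp_log (by linarith)]
    have h7 : b ^ 4 ≤ L ^ 4 := pow_le_pow_left₀ (by linarith) hbL 4
    rw [pow_succ]
    linarith
  have h8 : T ^ (-(κ / 2)) = (Real.exp (κ / 2 * L))⁻¹ := by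
    rw [Real.rpow_def_of_pos hT0, ← Real.exp_neg]
    congr 1
    rw [← hLd]; ring
  rw [h8, ← div_eq_mul_inv, div_le_iff₀ (Real.exp_pos _)]
  calc (2 : ℝ) ^ (JJ T + 1) ≤ 2 * L ^ 4 := h3
    _ = δ / 4 * (8 / δ * L ^ 4) := by field_simp; norm_num
    _ ≤ δ / 4 * Real.exp (κ / 2 * L) := by gcongr

end Asm

open Asm in
/-- The main theorem near the critical line from the ingredients. -/
theorem stB_of_ing (h : ∃ C κ : ℝ, 0 < C ∧ 0 < κ ∧ ∀ δ : ℝ, 0 < δ → ∃ M₀ : ℕ, ∀ M : ℕ, M₀ ≤ M → ∀ c : ℝ,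
    Real.exp (2 * M) ≤ c → c ≤ Real.exp (2 * (M + 1)) → ∃ T₀ : ℝ, 3 ≤ T₀ ∧ ∀ T, T₀ ≤ T →
    ∀ τ : ℝ, |τ| ≤ 2 * T → ∀ k : ℝ, 0 < k → k < 1 → Ing C κ δ M c T τ k) :
    ∀ ε : ℝ, 0 < ε → ∃ c₀ : ℝ, 1 ≤ c₀ ∧ ∀ c, c₀ ≤ c → ∃ T₀ : ℝ, 3 ≤ T₀ ∧ ∀ T, T₀ ≤ T →
    ∀ τ : ℝ, |τ| ≤ 2 * T → ∀ k : ℝ, 0 < k → k < 1 →
    |EG T τ (fun t => ‖riemannZeta ((1 / 2 + c / Real.log T : ℝ) + t * I)‖ ^ (2 * k)) -
      DD k (1 / 2 + c / Real.log T)| ≤ ε * DD k (1 / 2 + c / Real.log T) := by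
  intro ε hε
  obtain ⟨C, κ, hC, hκ, h⟩ := h
  set δ := min ε 1 / 16 with hδd
  have hδ0 : 0 < δ := by positivity
  have hδ1 : δ ≤ 1 / 16 := by
    have := min_le_right ε 1
    rw [hδd]; linarith
  have hδε : 16 * δ ≤ ε := by
    have := min_le_left ε 1
    rw [hδd]; linarith
  obtain ⟨M₀, hM₀⟩ := h δ hδ0
  obtain ⟨C', hC', hDD⟩ := DD_compare
  have hlog : 0 < Real.log (1 + δ) := Real.log_pos (by linarith)
  -- choice of `M₁`
  obtain ⟨M₁, hM₁⟩ := exists_nat_ge (15 * (C + 1) + 8 / δ + C' / Real.log (1 + δ) + 4)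
  set M₂ := max M₀ M₁ with hM₂
  refine ⟨Real.exp (2 * M₂), Real.one_le_exp (by positivity), fun c hc => ?_⟩
  have hc0 : 0 < c := lt_of_lt_of_le (Real.exp_pos _) hc
  set M := ⌊Real.log c / 2⌋₊ with hMd
  have hlogc : 2 * (M₂ : ℝ) ≤ Real.log c := by
    rw [Real.le_log_iff_exp_le hc0]; exact hc
  have hM₂M : M₂ ≤ M := Nat.le_floor (by linarith)
  have hcM1 : Real.exp (2 * M) ≤ c := by
    rw [← Real.le_log_iff_exp_le hc0]
    have : (M : ℝ) ≤ Real.log c / 2 := Nat.floor_le (by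
      have : (0 : ℝ) ≤ M₂ := by positivity
      linarith)
    linarith
  have hcM2 : c ≤ Real.exp (2 * (M + 1)) := by
    rw [← Real.log_le_iff_le_exp hc0]
    have := Nat.lt_floor_add_one (Real.log c / 2)
    linarith
  have hM₁M : (M₁ : ℝ) ≤ M := by exact_mod_cast (le_max_right _ _).trans hM₂M
  have hMbig : 15 * (C + 1) + 8 / δ + C' / Real.log (1 + δ) + 4 ≤ M := hM₁.trans hM₁M
  have hq1 : 0 < 8 / δ := by positivity
  have hq2 : 0 < C' / Real.log (1 + δ) := by positivity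
  have hM4 : 4 ≤ M := by
    have : (4 : ℝ) ≤ M := by linarith
    exact_mod_cast this
  have hMpos : (0 : ℝ) < M := by linarith
  -- the small quantity
  have hsmall : Real.exp (C * M - 1 / 4 * Real.exp (3 / 4 * M)) ≤ Real.exp (-(M : ℝ)) := by
    apply Real.exp_le_exp.2
    have h1 := Real.quadratic_le_exp_of_nonneg (x := 3 / 4 * (M : ℝ)) (by positivity)
    have h2 : 15 * (C + 1) * M ≤ M * M := by
      apply mul_le_mul_of_nonneg_right _ hMpos.le
      linarith
    have h3 : (3 / 4 * (M : ℝ)) ^ 2 = 9 / 16 * (M * M) := by ring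
    have h4 : 0 < (C + 1) * M := by positivity
    rw [h3] at h1
    linarith
  have hexpM : Real.exp (-(M : ℝ)) ≤ 1 / M := by
    rw [Real.exp_neg, ← one_div]
    apply one_div_le_one_div_of_le hMpos
    have := Real.add_one_le_exp (M : ℝ)
    linarith
  have hw : 8 * Real.exp (C * M - 1 / 4 * Real.exp (3 / 4 * M)) ≤ δ := by
    have h1 : 8 / δ ≤ M := by linarith
    rw [div_le_iff₀ hδ0] at h1
    have h2 : 1 / (M : ℝ) ≤ δ / 8 := by
      rw [div_le_iff₀ hMpos]; linarith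
    linarith
  -- comparison of the normalisers
  have hβ0 : 0 < Real.exp (-(M : ℝ)) := Real.exp_pos _
  have hβ1 : Real.exp (-(M : ℝ)) ≤ 1 := by rw [Real.exp_le_one_iff]; linarith
  have hcβ : Real.exp M ≤ c * Real.exp (-(M : ℝ)) := by
    calc Real.exp M = Real.exp (2 * M) * Real.exp (-(M : ℝ)) := by
          rw [← Real.exp_add]; congr 1; ring
      _ ≤ _ := by gcongr
  have hcβ1 : (M : ℝ) ≤ c * Real.exp (-(M : ℝ)) := by
    have := Real.add_one_le_exp (M : ℝ)
    linarith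
  obtain ⟨T₂, hT₂⟩ := hDD c (Real.exp (-(M : ℝ))) hβ0 hβ1 (by linarith)
  obtain ⟨T₁, hT₁3, hT₁⟩ := hM₀ M ((le_max_left _ _).trans hM₂M) c hcM1 hcM2
  have hev := (eventually_pow κ δ hκ hδ0).and
    (Real.tendsto_log_atTop.eventually_ge_atTop (4 * c))
  obtain ⟨T₃, hT₃⟩ := eventually_atTop.1 hev
  refine ⟨max T₁ (max T₂ T₃), hT₁3.trans (le_max_left _ _), fun T hT τ hτ k hk0 hk1 => ?_⟩
  have hTT₁ : T₁ ≤ T := (le_max_left _ _).trans hT
  have hTT₂ : T₂ ≤ T := (le_max_left _ _).trans ((le_max_right _ _).trans hT)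
  have hTT₃ : T₃ ≤ T := (le_max_right _ _).trans ((le_max_right _ _).trans hT)
  have hT3 : 3 ≤ T := hT₁3.trans hTT₁
  obtain ⟨hE, hcT⟩ := hT₃ T hTT₃
  have hI := hT₁ T hTT₁ τ hτ k hk0 hk1
  obtain ⟨hup, hlo⟩ := asm_core hδ0 hδ1 hM4 hk0 hk1 hT3 hc0.le hcT hC hw hκ hE hI
  obtain ⟨hD1, hD2⟩ := hT₂ T hTT₂ k hk0 hk1.le
  rw [← DJ_eq (show 1 < T by linarith) k (1 / 2 + c / Real.log T) M (JJ T)] at hD1 hD2
  have hD0 : 0 ≤ DJ k (1 / 2 + c / Real.log T) T M (JJ T) := by
    refine zero_le_one.trans (Finset.one_le_prod fun j _ => DS_ge_one hk0 ?_ (fun p hp =>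
      prime_Sj (show 1 < T by linarith) hp))
    have hL : 0 < Real.log T := Real.log_pos (by linarith)
    have : 0 ≤ c / Real.log T := by positivity
    linarith
  have hexp2 : Real.exp (C' * Real.exp (-(c * Real.exp (-(M : ℝ))))) ≤ 1 + δ := by
    rw [← Real.le_log_iff_exp_le (by linarith)]
    have h1 : Real.exp (-(c * Real.exp (-(M : ℝ)))) ≤ 1 / M := by
      refine le_trans (Real.exp_le_exp.2 ?_) hexpM
      linarith
    have h2 : C' / Real.log (1 + δ) ≤ M := by linarith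
    rw [div_le_iff₀ hlog] at h2
    calc C' * Real.exp (-(c * Real.exp (-(M : ℝ)))) ≤ C' * (1 / M) := by gcongr
      _ = C' / M := by ring
      _ ≤ Real.log (1 + δ) := by rw [div_le_iff₀ hMpos]; linarith
  set D := DJ k (1 / 2 + c / Real.log T) T M (JJ T)
  set D' := DD k (1 / 2 + c / Real.log T)
  have hD3 : D' ≤ (1 + δ) * D := hD2.trans (by gcongr)
  change |EG T τ (fun t => ‖riemannZeta (pt c T t)‖ ^ (2 * k)) - D'| ≤ ε * D'
  set X := EG T τ (fun t => ‖riemannZeta (pt c T t)‖ ^ (2 * k))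
  have hD'0 : 0 ≤ D' := hD0.trans hD1
  have hεD : 16 * δ * D' ≤ ε * D' := by gcongr
  rw [abs_le]
  constructor
  · -- X ≥ (1 - 7 δ) D, D ≥ D' / (1 + δ)
    have h1 : (1 - 8 * δ) * D' ≤ (1 - 7 * δ) * D := by
      have h0 : 0 ≤ δ ^ 2 * D := by positivity
      have e : (1 - 8 * δ) * ((1 + δ) * D) = (1 - 7 * δ) * D - 8 * (δ ^ 2 * D) := by ring
      have h3 := mul_le_mul_of_nonneg_left hD3 (show 0 ≤ 1 - 8 * δ by linarith)
      linarith
    have h2 : 0 ≤ δ * D' := by positivity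
    linarith
  · have h1 : (1 + 5 * δ) * D ≤ (1 + 5 * δ) * D' := by gcongr
    have h2 : 0 ≤ δ * D' := by positivity
    linarith

end Pool.Agent.Lib.MP_973905_nt
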