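import Mathlib

namespace Pool.Agent.Lib.MP_973905_nt

open MeasureTheory Complex

/-- Complete multiplicativity on the positive integers. -/
def CMul (f : ℕ → ℂ) : Prop := f 1 = 1 ∧ ∀ m n, m ≠ 0 → n ≠ 0 → f (m * n) = f m * f n

lemma CMul.pow {f : ℕ → ℂ} (hf : CMul f) {n : ℕ} (hn : n ≠ 0) (k : ℕ) : f (n ^ k) = f n ^ k := by
  induction k with
  | zero => simp [hf.1]
  | succ k ih => rw [pow_succ, hf.2 _ _ (pow_ne_zero _ hn) hn, ih, pow_succ]

/-- The function `n ↦ n^{-s}`. -/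
noncomputable def fs (s : ℂ) : ℕ → ℂ := fun n => (n : ℂ) ^ (-s)

/-- The twist of `f` by `n^{-w}`. -/
noncomputable def tw (w : ℂ) (f : ℕ → ℂ) : ℕ → ℂ := fun n => (n : ℂ) ^ (-w) * f n

lemma cmul_fs (s : ℂ) : CMul (fs s) := by
  refine ⟨by simp [fs], fun m n hm hn => ?_⟩
  simp only [fs]
  push_cast
  exact natCast_mul_natCast_cpow m n (-s)

lemma cmul_tw {f : ℕ → ℂ} (hf : CMul f) (w : ℂ) : CMul (tw w f) := by
  refine ⟨by simp [tw, hf.1], fun m n hm hn => ?_⟩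
  have h := (cmul_fs w).2 m n hm hn
  simp only [fs] at h
  simp only [tw]
  rw [h, hf.2 m n hm hn]
  ring

lemma tw_fs (w s : ℂ) (n : ℕ) (hn : n ≠ 0) : tw w (fs s) n = fs (w + s) n := by
  simp only [tw, fs]
  rw [← cpow_add _ _ (by exact_mod_cast hn)]
  congr 1; ring

/-- `DP N M G`: on completely multiplicative `f`, `G f` is a finite combination
`∑ c_i f(n_i)` with `1 ≤ n_i ≤ N` and `∑ |c_i| ≤ M`. -/
def DP (N M : ℝ) (G : (ℕ → ℂ) → ℂ) : Prop :=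
  ∃ (k : ℕ) (c : Fin k → ℂ) (n : Fin k → ℕ), (∀ i, 1 ≤ n i ∧ (n i : ℝ) ≤ N) ∧
    ∑ i, ‖c i‖ ≤ M ∧ ∀ f, CMul f → G f = ∑ i, c i * f (n i)

lemma dp_of_fintype {N M : ℝ} {G : (ℕ → ℂ) → ℂ} {ι : Type*} [Fintype ι] (c : ι → ℂ) (n : ι → ℕ)
    (h1 : ∀ i, 1 ≤ n i ∧ (n i : ℝ) ≤ N) (h2 : ∑ i, ‖c i‖ ≤ M)
    (h3 : ∀ f, CMul f → G f = ∑ i, c i * f (n i)) : DP N M G := by
  let e := Fintype.equivFin ι
  refine ⟨Fintype.card ι, fun i => c (e.symm i), fun i => n (e.symm i), fun i => h1 _, ?_, ?_⟩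
  · rw [Equiv.sum_comp e.symm (fun i => ‖c i‖)]; exact h2
  · intro f hf
    rw [h3 f hf, ← Equiv.sum_comp e.symm (fun i => c i * f (n i))]

lemma DP.mono {N M N' M' : ℝ} {G : (ℕ → ℂ) → ℂ} (h : DP N M G) (hN : N ≤ N') (hM : M ≤ M') :
    DP N' M' G := by
  obtain ⟨k, c, n, h1, h2, h3⟩ := h
  exact ⟨k, c, n, fun i => ⟨(h1 i).1, (h1 i).2.trans hN⟩, h2.trans hM, h3⟩

lemma DP.M_nonneg {N M : ℝ} {G : (ℕ → ℂ) → ℂ} (h : DP N M G) : 0 ≤ M := by
  obtain ⟨k, c, n, h1, h2, h3⟩ := h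
  exact le_trans (Finset.sum_nonneg fun i _ => norm_nonneg _) h2

lemma DP.congr {N M : ℝ} {G H : (ℕ → ℂ) → ℂ} (h : DP N M G) (e : ∀ f, CMul f → G f = H f) :
    DP N M H := by
  obtain ⟨k, c, n, h1, h2, h3⟩ := h
  exact ⟨k, c, n, h1, h2, fun f hf => by rw [← e f hf, h3 f hf]⟩

lemma dp_const (c : ℂ) : DP 1 ‖c‖ (fun _ => c) :=
  dp_of_fintype (ι := Unit) (fun _ => c) (fun _ => 1) (by simp) (by simp)
    (fun f hf => by simp [hf.1])

lemma dp_zero {N M : ℝ} (hM : 0 ≤ M) : DP N M (fun _ => 0) :=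
  dp_of_fintype (ι := Fin 0) (fun _ => 0) (fun _ => 1) (by simp) (by simpa using hM)
    (fun f hf => by simp)

lemma dp_single {N : ℝ} (c : ℂ) (n : ℕ) (h1 : 1 ≤ n) (h2 : (n : ℝ) ≤ N) :
    DP N ‖c‖ (fun f => c * f n) :=
  dp_of_fintype (ι := Unit) (fun _ => c) (fun _ => n) (by simp [h1, h2]) (by simp)
    (fun f hf => by simp)

lemma DP.add {N M M' : ℝ} {G H : (ℕ → ℂ) → ℂ} (h : DP N M G) (h' : DP N M' H) :
    DP N (M + M') (fun f => G f + H f) := by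
  obtain ⟨k, c, n, h1, h2, h3⟩ := h
  obtain ⟨k', c', n', h1', h2', h3'⟩ := h'
  refine dp_of_fintype (ι := Fin k ⊕ Fin k') (Sum.elim c c') (Sum.elim n n') ?_ ?_ ?_
  · rintro (i | i)
    · exact h1 i
    · exact h1' i
  · simp only [Fintype.sum_sum_type, Sum.elim_inl, Sum.elim_inr]
    linarith
  · intro f hf
    simp only [Fintype.sum_sum_type, Sum.elim_inl, Sum.elim_inr]
    rw [h3 f hf, h3' f hf]

lemma DP.mul {N M N' M' : ℝ} {G H : (ℕ → ℂ) → ℂ} (h : DP N M G) (h' : DP N' M' H) :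
    DP (N * N') (M * M') (fun f => G f * H f) := by
  have hM := h.M_nonneg
  obtain ⟨k, c, n, h1, h2, h3⟩ := h
  obtain ⟨k', c', n', h1', h2', h3'⟩ := h'
  refine dp_of_fintype (ι := Fin k × Fin k') (fun i => c i.1 * c' i.2) (fun i => n i.1 * n' i.2)
    ?_ ?_ ?_
  · rintro ⟨i, j⟩
    refine ⟨Nat.mul_pos (h1 i).1 (h1' j).1, ?_⟩
    push_cast
    exact mul_le_mul (h1 i).2 (h1' j).2 (by positivity) ((Nat.cast_nonneg _).trans (h1 i).2)
  · simp only [norm_mul, Fintype.sum_prod_type]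
    rw [← Finset.sum_mul_sum]
    exact mul_le_mul h2 h2' (Finset.sum_nonneg fun i _ => norm_nonneg _) hM
  · intro f hf
    rw [h3 f hf, h3' f hf, Finset.sum_mul_sum, Fintype.sum_prod_type]
    refine Finset.sum_congr rfl fun i _ => Finset.sum_congr rfl fun j _ => ?_
    rw [hf.2 _ _ (Nat.one_le_iff_ne_zero.mp (h1 i).1) (Nat.one_le_iff_ne_zero.mp (h1' j).1)]
    ring

lemma DP.const_mul {N M : ℝ} {G : (ℕ → ℂ) → ℂ} (h : DP N M G) (c : ℂ) :
    DP N (‖c‖ * M) (fun f => c * G f) := by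
  have := (dp_const c).mul h
  rwa [one_mul] at this

lemma dp_sum {N : ℝ} {ι : Type*} (s : Finset ι) {M : ι → ℝ} {G : ι → (ℕ → ℂ) → ℂ}
    (h : ∀ i ∈ s, DP N (M i) (G i)) :
    DP N (∑ i ∈ s, M i) (fun f => ∑ i ∈ s, G i f) := by
  classical
  induction s using Finset.induction_on with
  | empty => simpa using dp_zero (N := N) le_rfl
  | insert a s ha ih =>
    have h1 := (h a (Finset.mem_insert_self _ _)).add
      (ih fun i hi => h i (Finset.mem_insert_of_mem hi))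
    rw [Finset.sum_insert ha]
    exact h1.congr fun f _ => by rw [Finset.sum_insert ha]

lemma dp_prod {ι : Type*} (s : Finset ι) {N M : ι → ℝ} {G : ι → (ℕ → ℂ) → ℂ}
    (h : ∀ i ∈ s, DP (N i) (M i) (G i)) :
    DP (∏ i ∈ s, N i) (∏ i ∈ s, M i) (fun f => ∏ i ∈ s, G i f) := by
  classical
  induction s using Finset.induction_on with
  | empty => simpa using dp_const 1
  | insert a s ha ih =>
    have h1 := (h a (Finset.mem_insert_self _ _)).mul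
      (ih fun i hi => h i (Finset.mem_insert_of_mem hi))
    rw [Finset.prod_insert ha, Finset.prod_insert ha]
    exact h1.congr fun f _ => by rw [Finset.prod_insert ha]

lemma DP.pow {N M : ℝ} {G : (ℕ → ℂ) → ℂ} (h : DP N M G) (k : ℕ) :
    DP (N ^ k) (M ^ k) (fun f => G f ^ k) := by
  have := dp_prod (Finset.range k) (N := fun _ => N) (M := fun _ => M) (G := fun _ => G)
    (fun _ _ => h)
  simpa using this

lemma norm_natCast_cpow_neg_le_one {w : ℂ} (hw : 0 ≤ w.re) {n : ℕ} (hn : 1 ≤ n) :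
    ‖(n : ℂ) ^ (-w)‖ ≤ 1 := by
  have h0 : (0 : ℝ) < n := by exact_mod_cast hn
  rw [norm_natCast_cpow_of_pos hn]
  apply Real.rpow_le_one_of_one_le_of_nonpos
  · exact_mod_cast hn
  · simp [hw]

lemma DP.twist {N M : ℝ} {G : (ℕ → ℂ) → ℂ} (h : DP N M G) {w : ℂ} (hw : 0 ≤ w.re) :
    DP N M (fun f => G (tw w f)) := by
  obtain ⟨k, c, n, h1, h2, h3⟩ := h
  refine ⟨k, fun i => c i * (n i : ℂ) ^ (-w), n, h1, ?_, ?_⟩
  · refine le_trans (Finset.sum_le_sum fun i _ => ?_) h2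
    rw [norm_mul]
    exact mul_le_of_le_one_right (norm_nonneg _) (norm_natCast_cpow_neg_le_one hw (h1 i).1)
  · intro f hf
    show G (tw w f) = _
    rw [h3 _ (cmul_tw hf w)]
    refine Finset.sum_congr rfl fun i _ => ?_
    simp only [tw]
    ring

end Pool.Agent.Lib.MP_973905_nt
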