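import Pool.Agent.Lib.MP_973905_nt.Local

namespace Pool.Agent.Lib.MP_973905_nt

open Complex

/-- Truncated exponential. -/
noncomputable def Ntr (l : ℕ) (α : ℝ) (z : ℂ) : ℂ :=
  ∑ i ∈ Finset.range (l + 1), (α * z) ^ i / i.factorial

lemma exp_tail (n : ℕ) {y : ℝ} (hy : 0 ≤ y) :
    Real.exp y - ∑ i ∈ Finset.range n, y ^ i / i.factorial ≤ Real.exp (-n) * Real.exp (3 * y) := by
  have h1 : ∀ x : ℝ, HasSum (fun i : ℕ => x ^ i / i.factorial) (Real.exp x) := by
    intro x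
    rw [Real.exp_eq_exp_ℝ]
    exact NormedSpace.expSeries_div_hasSum_exp x
  have h2 : Real.exp y - ∑ i ∈ Finset.range n, y ^ i / i.factorial =
      ∑' i, y ^ (i + n) / (i + n).factorial := by
    have := (h1 y).summable.sum_add_tsum_nat_add n
    rw [(h1 y).tsum_eq] at this
    linarith
  have h3 : Real.exp (3 * y) - ∑ i ∈ Finset.range n, (3 * y) ^ i / i.factorial =
      ∑' i, (3 * y) ^ (i + n) / (i + n).factorial := by
    have := (h1 (3 * y)).summable.sum_add_tsum_nat_add n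
    rw [(h1 (3 * y)).tsum_eq] at this
    linarith
  have s2 : Summable fun i : ℕ => y ^ (i + n) / (i + n).factorial :=
    (summable_nat_add_iff n).mpr (h1 y).summable
  have s3 : Summable fun i : ℕ => (3 * y) ^ (i + n) / (i + n).factorial :=
    (summable_nat_add_iff n).mpr (h1 (3 * y)).summable
  rw [h2]
  calc ∑' i, y ^ (i + n) / (i + n).factorial
      ≤ ∑' i, Real.exp (-n) * ((3 * y) ^ (i + n) / (i + n).factorial) := by
        refine Summable.tsum_le_tsum (fun i => ?_) s2 (s3.mul_left _)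
        rw [mul_pow]
        have h4 : 1 ≤ Real.exp (-n) * 3 ^ (i + n) := by
          have h5 : Real.exp 1 ^ n ≤ (3 : ℝ) ^ n :=
            pow_le_pow_left₀ (Real.exp_pos _).le (by linarith [Real.exp_one_lt_d9]) n
          have h6 : (1 : ℝ) ≤ 3 ^ i := one_le_pow₀ (by norm_num)
          have h7 : Real.exp (-n) * Real.exp 1 ^ n = 1 := by
            rw [← Real.exp_nat_mul, ← Real.exp_add]; simp
          calc (1 : ℝ) = Real.exp (-n) * Real.exp 1 ^ n := h7.symm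
            _ ≤ Real.exp (-n) * 3 ^ n := by gcongr
            _ ≤ Real.exp (-n) * (3 ^ i * 3 ^ n) := by
                gcongr
                exact le_mul_of_one_le_left (by positivity) h6
            _ = _ := by rw [pow_add]
        calc y ^ (i + n) / (i + n).factorial = 1 * (y ^ (i + n) / (i + n).factorial) := by ring
          _ ≤ (Real.exp (-n) * 3 ^ (i + n)) * (y ^ (i + n) / (i + n).factorial) := by gcongr
          _ = _ := by ring
    _ = Real.exp (-n) * (Real.exp (3 * y) - ∑ i ∈ Finset.range n, (3 * y) ^ i / i.factorial) := by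
        rw [tsum_mul_left, h3]
    _ ≤ Real.exp (-n) * Real.exp (3 * y) := by
        gcongr
        have : 0 ≤ ∑ i ∈ Finset.range n, (3 * y) ^ i / i.factorial :=
          Finset.sum_nonneg fun i _ => by positivity
        linarith

lemma Ntr_tail (l : ℕ) {α : ℝ} (hα : |α| ≤ 1) (z : ℂ) :
    ‖cexp (α * z) - Ntr l α z‖ ≤ Real.exp (-l) * Real.exp (3 * ‖z‖) := by
  have h1 := norm_exp_sub_sum_le_exp_norm_sub_sum (α * z) (l + 1)
  have h2 := exp_tail (l + 1) (norm_nonneg (α * z))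
  have h3 : ‖(α : ℂ) * z‖ ≤ ‖z‖ := by
    rw [norm_mul, norm_real, Real.norm_eq_abs]
    exact mul_le_of_le_one_left (norm_nonneg _) hα
  refine (h1.trans h2).trans ?_
  gcongr
  linarith

lemma norm_Ntr_le (l : ℕ) {α : ℝ} (hα : |α| ≤ 1) (z : ℂ) : ‖Ntr l α z‖ ≤ Real.exp ‖z‖ := by
  have h3 : ‖(α : ℂ) * z‖ ≤ ‖z‖ := by
    rw [norm_mul, norm_real, Real.norm_eq_abs]
    exact mul_le_of_le_one_left (norm_nonneg _) hα
  calc ‖Ntr l α z‖ ≤ ∑ i ∈ Finset.range (l + 1), ‖z‖ ^ i / i.factorial := by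
        refine (norm_sum_le _ _).trans (Finset.sum_le_sum fun i _ => ?_)
        rw [norm_div, norm_pow, norm_natCast]
        gcongr
    _ ≤ Real.exp ‖z‖ := Real.sum_le_exp_of_nonneg (norm_nonneg _) _

lemma pow_div_le (r : ℕ) {K : ℝ} (hK : 0 < K) (hr : (r : ℝ) ≤ K / 4) (z : ℂ) :
    ‖(z / K) ^ r‖ ≤ (1 / 4) ^ r * Real.exp ‖z‖ := by
  have h1 := Real.pow_div_factorial_le_exp ‖z‖ (norm_nonneg _) r
  rw [div_le_iff₀ (by positivity)] at h1
  have h2 : (r.factorial : ℝ) ≤ (K / 4) ^ r := by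
    calc (r.factorial : ℝ) ≤ (r : ℝ) ^ r := by exact_mod_cast Nat.factorial_le_pow r
      _ ≤ (K / 4) ^ r := pow_le_pow_left₀ (by positivity) hr r
  rw [norm_pow, norm_div, norm_real, Real.norm_eq_abs, abs_of_pos hK, div_pow,
    div_le_iff₀ (by positivity)]
  calc ‖z‖ ^ r ≤ Real.exp ‖z‖ * r.factorial := h1
    _ ≤ Real.exp ‖z‖ * (K / 4) ^ r := by gcongr
    _ = (1 / 4) ^ r * Real.exp ‖z‖ * K ^ r := by rw [div_pow, div_pow, one_pow]; ring

/-- On the good set the truncated exponentials behave like exponentials. -/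
lemma Ntr_ratio (l : ℕ) {α K : ℝ} (hα : |α| ≤ 1) (hK : 1 ≤ K) (hl : 10 * K ≤ l) {z : ℂ}
    (hz : ‖z‖ ≤ K) :
    (1 - Real.exp (-K)) * Real.exp (α * z.re) ≤ ‖Ntr l α z‖ ∧
      ‖Ntr l α z‖ ≤ (1 + Real.exp (-K)) * Real.exp (α * z.re) := by
  have h1 := Ntr_tail l hα z
  have h2 : ‖cexp (α * z)‖ = Real.exp (α * z.re) := by
    rw [norm_exp, re_ofReal_mul]
  have h3 : Real.exp (-l) * Real.exp (3 * ‖z‖) ≤ Real.exp (-K) * Real.exp (α * z.re) := by
    rw [← Real.exp_add, ← Real.exp_add]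
    apply Real.exp_le_exp.mpr
    have h4 : -K ≤ α * z.re := by
      have h5 : |α * z.re| ≤ K := by
        rw [abs_mul]
        calc |α| * |z.re| ≤ 1 * K :=
              mul_le_mul hα ((abs_re_le_norm z).trans hz) (abs_nonneg _) zero_le_one
          _ = K := one_mul _
      linarith [neg_abs_le (α * z.re)]
    linarith
  constructor
  · have h5 := norm_sub_norm_le (cexp (α * z)) (Ntr l α z)
    rw [h2] at h5
    linarith
  · have h5 := norm_sub_norm_le (Ntr l α z) (cexp (α * z))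
    rw [h2, norm_sub_rev] at h5
    linarith

lemma good_ratio (l : ℕ) {k K : ℝ} (hk0 : 0 ≤ k) (hk1 : k ≤ 1) (hK : 1 ≤ K) (hl : 10 * K ≤ l) {z : ℂ}
    (hz : ‖z‖ ≤ K) :
    1 - Real.exp (-K) ≤ ‖Ntr l (k - 1) z‖ ^ k * ‖Ntr l k z‖ ^ (1 - k) ∧
      ‖Ntr l (k - 1) z‖ ^ k * ‖Ntr l k z‖ ^ (1 - k) ≤ 1 + Real.exp (-K) := by
  have ha : |k - 1| ≤ 1 := by rw [abs_le]; constructor <;> linarith
  have hb : |k| ≤ 1 := by rw [abs_le]; constructor <;> linarith
  obtain ⟨a1, a2⟩ := Ntr_ratio l ha hK hl hz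
  obtain ⟨b1, b2⟩ := Ntr_ratio l hb hK hl hz
  have he0 : 0 < Real.exp (-K) := Real.exp_pos _
  have he1 : Real.exp (-K) < 1 := by
    rw [Real.exp_lt_one_iff]; linarith
  have hk1' : 0 ≤ 1 - k := by linarith
  have key : ∀ c : ℝ, 0 ≤ c → (c * Real.exp ((k - 1) * z.re)) ^ k * (c * Real.exp (k * z.re)) ^ (1 - k) = c := by
    intro c hc
    rw [Real.mul_rpow hc (Real.exp_pos _).le, Real.mul_rpow hc (Real.exp_pos _).le,
      ← Real.exp_mul, ← Real.exp_mul]
    calc c ^ k * Real.exp ((k - 1) * z.re * k) * (c ^ (1 - k) * Real.exp (k * z.re * (1 - k)))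
        = (c ^ k * c ^ (1 - k)) * (Real.exp ((k - 1) * z.re * k) * Real.exp (k * z.re * (1 - k))) := by
          ring
      _ = c := by
          rw [← Real.exp_add, ← Real.rpow_add_of_nonneg hc hk0 hk1']
          rw [show (k - 1) * z.re * k + k * z.re * (1 - k) = 0 by ring, Real.exp_zero]
          rw [show k + (1 - k) = 1 by ring, Real.rpow_one, mul_one]
  constructor
  · rw [← key (1 - Real.exp (-K)) (by linarith)]
    gcongr
  · rw [← key (1 + Real.exp (-K)) (by linarith)]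
    gcongr

/-- The lower bound valid on both the good and the bad set. -/
lemma always_ratio (l r : ℕ) {k K : ℝ} (hk0 : 0 ≤ k) (hk1 : k ≤ 1) (hK : 1 ≤ K)
    (hl : 10 * K ≤ l) (z : ℂ) :
    (1 - Real.exp (-K)) ^ 2 ≤ (‖Ntr l (k - 1) z‖ ^ 2 + ‖(z / K) ^ r‖ ^ 2) ^ k *
      (‖Ntr l k z‖ ^ 2 + ‖(z / K) ^ r‖ ^ 2) ^ (1 - k) := by
  have hk1' : 0 ≤ 1 - k := by linarith
  have he0 : 0 < Real.exp (-K) := Real.exp_pos _
  have he1 : Real.exp (-K) < 1 := by
    rw [Real.exp_lt_one_iff]; linarith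
  by_cases hz : ‖z‖ ≤ K
  · have h1 := (good_ratio l hk0 hk1 hK hl hz).1
    have h2 : (‖Ntr l (k - 1) z‖ ^ k * ‖Ntr l k z‖ ^ (1 - k)) ^ 2 =
        (‖Ntr l (k - 1) z‖ ^ 2) ^ k * (‖Ntr l k z‖ ^ 2) ^ (1 - k) := by
      rw [mul_pow, ← Real.rpow_natCast, ← Real.rpow_natCast, ← Real.rpow_natCast,
        ← Real.rpow_natCast, ← Real.rpow_mul (norm_nonneg _), ← Real.rpow_mul (norm_nonneg _),
        ← Real.rpow_mul (norm_nonneg _), ← Real.rpow_mul (norm_nonneg _)]
      congr 2 <;> ring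
    calc (1 - Real.exp (-K)) ^ 2 ≤ (‖Ntr l (k - 1) z‖ ^ k * ‖Ntr l k z‖ ^ (1 - k)) ^ 2 :=
          pow_le_pow_left₀ (by linarith) h1 2
      _ = _ := h2
      _ ≤ _ := by
          gcongr
          · exact le_add_of_nonneg_right (by positivity)
          · exact le_add_of_nonneg_right (by positivity)
  · push Not at hz
    have h1 : 1 ≤ ‖(z / K) ^ r‖ ^ 2 := by
      rw [norm_pow, norm_div, norm_real, Real.norm_eq_abs, abs_of_pos (by linarith)]
      apply one_le_pow₀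
      apply one_le_pow₀
      rw [one_le_div (by linarith)]
      exact hz.le
    have h2 : (1 - Real.exp (-K)) ^ 2 ≤ 1 := by
      apply pow_le_one₀ <;> linarith
    refine h2.trans ?_
    have h3 : 1 ≤ (‖Ntr l (k - 1) z‖ ^ 2 + ‖(z / K) ^ r‖ ^ 2) ^ k :=
      Real.one_le_rpow (by nlinarith [sq_nonneg ‖Ntr l (k - 1) z‖]) hk0
    have h4 : 1 ≤ (‖Ntr l k z‖ ^ 2 + ‖(z / K) ^ r‖ ^ 2) ^ (1 - k) :=
      Real.one_le_rpow (by nlinarith [sq_nonneg ‖Ntr l k z‖]) hk1'
    nlinarith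

/-- If `‖z‖ > K` then the bad factor is at least one. -/
lemma one_le_bad (r : ℕ) {K : ℝ} (hK : 1 ≤ K) {z : ℂ} (hz : K ≤ ‖z‖) : 1 ≤ ‖(z / K) ^ r‖ := by
  rw [norm_pow, norm_div, norm_real, Real.norm_eq_abs, abs_of_pos (by linarith)]
  apply one_le_pow₀
  rw [one_le_div (by linarith)]
  exact hz

end Pool.Agent.Lib.MP_973905_nt
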