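import Pool.Agent.Lib.MP_973905_nt.Euler
import Pool.Agent.Lib.MP_973905_nt.Point
import Pool.Agent.Lib.MP_973905_nt.PrimeSum

namespace Pool.Agent.Lib.MP_973905_nt

open MeasureTheory ProbabilityTheory Complex Filter Topology

/-- The prime sum of a block. -/
noncomputable def Pj (A : ℕ) (S : Finset ℕ) (f : ℕ → ℂ) : ℂ := ∑ p ∈ S, QQ A (f p)

/-- the size of the prime factor -/
noncomputable def yp (w₁ w₂ : ℝ) (p : ℕ) : ℝ := max ((p : ℝ) ^ (-w₁)) ((p : ℝ) ^ (-w₂))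

lemma yp_nonneg (w₁ w₂ : ℝ) (p : ℕ) : 0 ≤ yp w₁ w₂ p :=
  le_max_of_le_left (by positivity)

lemma tw_real (w : ℝ) (f : ℕ → ℂ) (p : ℕ) : tw w f p = ((p : ℝ) ^ (-w) : ℝ) * f p := by
  simp only [tw]
  congr 1
  rw [ofReal_cpow (by positivity)]
  push_cast; rfl

variable {m : ℕ}

lemma ES_mono {S : Finset ℕ} {F G : (ℕ → ℂ) → ℝ}
    (hF0 : ∀ ω, 0 ≤ F (ext S ω))
    (hG : Integrable (fun ω : S → ℝ => G (ext S ω)) (Measure.pi fun _ => mu0))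
    (h : ∀ ω, F (ext S ω) ≤ G (ext S ω)) : ES S F ≤ ES S G := by
  apply integral_mono_of_nonneg
  · exact Filter.Eventually.of_forall hF0
  · exact hG
  · exact Filter.Eventually.of_forall h

lemma norm_ext (S : Finset ℕ) (ω : S → ℝ) (n : ℕ) : ‖ext S ω n‖ = 1 := by
  unfold ext
  split_ifs <;> simp

lemma continuous_ext (S : Finset ℕ) (n : ℕ) : Continuous fun ω : S → ℝ => ext S ω n := by
  unfold ext
  by_cases h : n ∈ S
  · simp only [h, dite_true]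
    exact (continuous_circleMap 0 1).comp (continuous_apply _)
  · simp only [h, dite_false]
    exact continuous_const

/-- Bounded continuous functionals on a block. -/
def BS {E : Type*} [NormedAddCommGroup E] (S : Finset ℕ) (F : (ℕ → ℂ) → E) : Prop :=
  (Continuous fun ω : S → ℝ => F (ext S ω)) ∧ ∃ C, ∀ ω : S → ℝ, ‖F (ext S ω)‖ ≤ C

lemma BS.integrable {E : Type*} [NormedAddCommGroup E] {S : Finset ℕ} {F : (ℕ → ℂ) → E}
    (h : BS S F) : Integrable (fun ω : S → ℝ => F (ext S ω)) (Measure.pi fun _ => mu0) := by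
  obtain ⟨h1, C, h2⟩ := h
  exact Integrable.of_bound h1.aestronglyMeasurable C (Filter.Eventually.of_forall h2)

lemma BS.mul {S : Finset ℕ} {F G : (ℕ → ℂ) → ℂ} (hF : BS S F) (hG : BS S G) :
    BS S (fun f => F f * G f) := by
  obtain ⟨h1, C, h2⟩ := hF
  obtain ⟨h1', C', h2'⟩ := hG
  refine ⟨h1.mul h1', C * C', fun ω => ?_⟩
  rw [norm_mul]
  exact mul_le_mul (h2 ω) (h2' ω) (norm_nonneg _) ((norm_nonneg _).trans (h2 ω))

lemma BS.add {E : Type*} [NormedAddCommGroup E] {S : Finset ℕ} {F G : (ℕ → ℂ) → E}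
    (hF : BS S F) (hG : BS S G) : BS S (fun f => F f + G f) := by
  obtain ⟨h1, C, h2⟩ := hF
  obtain ⟨h1', C', h2'⟩ := hG
  exact ⟨h1.add h1', C + C', fun ω => (norm_add_le _ _).trans (add_le_add (h2 ω) (h2' ω))⟩

lemma BS.pow {S : Finset ℕ} {F : (ℕ → ℂ) → ℂ} (hF : BS S F) (n : ℕ) :
    BS S (fun f => F f ^ n) := by
  obtain ⟨h1, C, h2⟩ := hF
  refine ⟨h1.pow n, C ^ n, fun ω => ?_⟩
  rw [norm_pow]
  exact pow_le_pow_left₀ (norm_nonneg _) (h2 ω) n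

lemma bs_const {E : Type*} [NormedAddCommGroup E] (S : Finset ℕ) (c : E) : BS S (fun _ => c) :=
  ⟨continuous_const, ‖c‖, fun _ => le_rfl⟩

lemma bs_apply (S : Finset ℕ) (n : ℕ) : BS S (fun f => f n) :=
  ⟨continuous_ext S n, 1, fun ω => (norm_ext S ω n).le⟩

lemma bs_sum {ι : Type*} {S : Finset ℕ} (s : Finset ι) {F : ι → (ℕ → ℂ) → ℂ}
    (h : ∀ i ∈ s, BS S (F i)) : BS S (fun f => ∑ i ∈ s, F i f) := by
  classical
  choose! C hC using fun i (hi : i ∈ s) => (h i hi).2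
  refine ⟨continuous_finsetSum _ fun i hi => (h i hi).1, ∑ i ∈ s, C i, fun ω => ?_⟩
  exact (norm_sum_le _ _).trans (Finset.sum_le_sum fun i hi => hC i hi ω)

lemma bs_tw (S : Finset ℕ) (w : ℂ) (n : ℕ) : BS S (fun f => tw w f n) :=
  (bs_const S _).mul (bs_apply S n)

lemma bs_QQ {S : Finset ℕ} (A : ℕ) {F : (ℕ → ℂ) → ℂ} (hF : BS S F) : BS S (fun f => QQ A (F f)) := by
  unfold QQ
  refine bs_sum _ fun a _ => ?_
  simp only [div_eq_mul_inv]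
  exact (hF.pow a).mul (bs_const S _)

lemma bs_Pj (A : ℕ) (S S' : Finset ℕ) (w : ℂ) : BS S (fun f => Pj A S' (tw w f)) :=
  bs_sum _ fun p _ => bs_QQ A (bs_tw S w p)

lemma BS.cexp {S : Finset ℕ} {F : (ℕ → ℂ) → ℂ} (hF : BS S F) : BS S (fun f => cexp (F f)) := by
  obtain ⟨h1, C, h2⟩ := hF
  refine ⟨continuous_exp.comp h1, Real.exp C, fun ω => ?_⟩
  rw [norm_exp]
  exact Real.exp_le_exp.mpr ((re_le_norm _).trans (h2 ω))

lemma BS.norm_sq {S : Finset ℕ} {F : (ℕ → ℂ) → ℂ} (hF : BS S F) : BS S (fun f => ‖F f‖ ^ 2) := by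
  obtain ⟨h1, C, h2⟩ := hF
  refine ⟨h1.norm.pow 2, C ^ 2, fun ω => ?_⟩
  rw [Real.norm_eq_abs, abs_of_nonneg (by positivity)]
  exact pow_le_pow_left₀ (norm_nonneg _) (h2 ω) 2

lemma norm_tw_ext (S : Finset ℕ) (ω : S → ℝ) (w : ℂ) {n : ℕ} (hn : n ≠ 0) :
    ‖tw w (ext S ω) n‖ = (n : ℝ) ^ (-w.re) := by
  rw [tw, norm_mul, norm_ext, mul_one]
  exact norm_fs w hn

lemma norm_tw_ext_lt {S : Finset ℕ} {w : ℂ} (hw : 0 < w.re) (ω : S → ℝ) {p : ℕ} (hp : p.Prime) :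
    ‖tw w (ext S ω) p‖ < 1 := by
  rw [norm_tw_ext S ω w hp.ne_zero]
  apply Real.rpow_lt_one_of_one_lt_of_neg
  · exact_mod_cast hp.one_lt
  · linarith

lemma bs_ZZ {S : Finset ℕ} {s : Finset ℕ} (hs : ∀ p ∈ s, p.Prime) {w : ℂ} (hw : 0 < w.re) :
    BS S (fun f => ZZ s (tw w f)) := by
  have h1 : ∀ p ∈ s, ∀ ω : S → ℝ, 1 - tw w (ext S ω) p ≠ 0 := by
    intro p hp ω h
    have := norm_tw_ext_lt hw ω (hs p hp)
    rw [← sub_eq_zero.mp h] at this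
    simp at this
  refine ⟨?_, ∏ p ∈ s, (1 - (p : ℝ) ^ (-w.re))⁻¹, fun ω => ?_⟩
  · refine continuous_finsetProd _ fun p hp => ?_
    refine Continuous.inv₀ ?_ (h1 p hp)
    exact continuous_const.sub (continuous_const.mul (continuous_ext S p))
  · show ‖ZZ s (tw w (ext S ω))‖ ≤ _
    rw [ZZ, norm_prod]
    refine Finset.prod_le_prod (fun p _ => norm_nonneg _) fun p hp => ?_
    have h2 := norm_tw_ext_lt hw ω (hs p hp)
    have h3 := norm_tw_ext S ω w (hs p hp).ne_zero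
    rw [h3] at h2
    rw [norm_inv]
    apply inv_anti₀ (by linarith)
    have := norm_sub_norm_le 1 (tw w (ext S ω) p)
    rw [norm_one, h3] at this
    exact this

lemma bs_Ntr {S : Finset ℕ} (l : ℕ) (α : ℝ) {F : (ℕ → ℂ) → ℂ} (hF : BS S F) :
    BS S (fun f => Ntr l α (F f)) := by
  unfold Ntr
  refine bs_sum _ fun i _ => ?_
  simp only [div_eq_mul_inv]
  exact (((bs_const S _).mul hF).pow i).mul (bs_const S _)

/-- Exponential moments over a block. -/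
lemma ES_exp (Γ : ℝ) : ∃ C : ℝ, 0 ≤ C ∧ ∀ (A n : ℕ) (S : Finset ℕ) (w₁ γ : ℂ) (w₂ : ℝ), 1 ≤ A →
    n ≤ 2 → ‖γ‖ ≤ Γ → (∀ p ∈ S, p.Prime) → (∀ p ∈ S, yp w₁.re w₂ p ≤ 3 / 4) →
    ES S (fun f => ‖(ZZ S (tw w₁ f)) ^ n * cexp (γ * Pj A S (tw w₂ f))‖ ^ 2) ≤
      Real.exp (∑ p ∈ S, (‖n * (p : ℂ) ^ (-w₁) + γ * ((p : ℝ) ^ (-w₂) : ℝ)‖ ^ 2 +
        C * (yp w₁.re w₂ p) ^ 4)) := by
  obtain ⟨C, hC, h⟩ := local_bound Γ
  refine ⟨C, hC, fun A n S w₁ γ w₂ hA hn hγ hS hy => ?_⟩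
  have e1 : ∀ f : ℕ → ℂ, ‖(ZZ S (tw w₁ f)) ^ n * cexp (γ * Pj A S (tw w₂ f))‖ ^ 2 =
      ∏ p ∈ S, ‖((1 - (p : ℂ) ^ (-w₁) * f p) ^ n)⁻¹ *
        cexp (γ * QQ A (((p : ℝ) ^ (-w₂) : ℝ) * f p))‖ ^ 2 := by
    intro f
    rw [ZZ, Pj, Finset.mul_sum, exp_sum, ← Finset.prod_pow, ← Finset.prod_mul_distrib, norm_prod,
      ← Finset.prod_pow]
    refine Finset.prod_congr rfl fun p _ => ?_
    rw [tw_real]
    simp only [tw, inv_pow]
  simp only [e1]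
  rw [ES_prod S (fun p z => ‖((1 - (p : ℂ) ^ (-w₁) * z) ^ n)⁻¹ *
        cexp (γ * QQ A (((p : ℝ) ^ (-w₂) : ℝ) * z))‖ ^ 2), Real.exp_sum]
  refine Finset.prod_le_prod (fun p _ => ?_) fun p hp => ?_
  · rw [Real.circleAverage_def]
    apply mul_nonneg (by positivity)
    apply intervalIntegral.integral_nonneg (by positivity)
    intro θ _; positivity
  · have hp0 := (hS p hp).pos
    have h1 : ‖(p : ℂ) ^ (-w₁)‖ = (p : ℝ) ^ (-w₁.re) := by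
      rw [norm_natCast_cpow_of_pos hp0]; simp
    have h2 := hy p hp
    have h3 := h A n ((p : ℂ) ^ (-w₁)) γ ((p : ℝ) ^ (-w₂)) hA hn
      (by rw [h1]; exact (le_max_left _ _).trans h2) (by positivity) ((le_max_right _ _).trans h2) hγ
    rw [h1] at h3
    exact h3

/-- `e^{q|z|}` is bounded by exponentials of four rotations. -/
lemma exp_norm_le {q : ℝ} (hq : 0 ≤ q) (z : ℂ) : Real.exp (q * ‖z‖) ≤
    ‖cexp ((q + q * I) * z)‖ + ‖cexp ((q - q * I) * z)‖ + ‖cexp ((-q + q * I) * z)‖ +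
      ‖cexp ((-q - q * I) * z)‖ := by
  have e : ∀ a b : ℝ, ‖cexp ((a + b * I) * z)‖ = Real.exp (a * z.re - b * z.im) := by
    intro a b
    rw [norm_exp]
    congr 1
    simp
  have e1 := e q q
  have e2 := e q (-q)
  have e3 := e (-q) q
  have e4 := e (-q) (-q)
  push_cast at e1 e2 e3 e4
  rw [show ((q : ℂ) - q * I) = (q + -(q : ℂ) * I) by ring,
    show (-(q : ℂ) - q * I) = (-q + -(q : ℂ) * I) by ring, e1, e2, e3, e4]
  have h1 : ‖z‖ ≤ |z.re| + |z.im| := norm_le_abs_re_add_abs_im z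
  have h2 : Real.exp (q * ‖z‖) ≤ Real.exp (q * (|z.re| + |z.im|)) := by gcongr
  refine h2.trans ?_
  have p1 := Real.exp_pos (q * z.re - q * z.im)
  have p2 := Real.exp_pos (q * z.re - -q * z.im)
  have p3 := Real.exp_pos (-q * z.re - q * z.im)
  have p4 := Real.exp_pos (-q * z.re - -q * z.im)
  rcases abs_cases z.re with ⟨h, _⟩ | ⟨h, _⟩ <;> rcases abs_cases z.im with ⟨h', _⟩ | ⟨h', _⟩ <;>
    rw [h, h']
  · rw [show q * (z.re + z.im) = q * z.re - -q * z.im by ring]; linarith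
  · rw [show q * (z.re + -z.im) = q * z.re - q * z.im by ring]; linarith
  · rw [show q * (-z.re + z.im) = -q * z.re - -q * z.im by ring]; linarith
  · rw [show q * (-z.re + -z.im) = -q * z.re - q * z.im by ring]; linarith

lemma exp_norm_sq_le {q : ℝ} (hq : 0 ≤ q) (z u : ℂ) : ‖u‖ ^ 2 * Real.exp (q * ‖z‖) ^ 2 ≤
    4 * (‖u * cexp ((q + q * I) * z)‖ ^ 2 + ‖u * cexp ((q - q * I) * z)‖ ^ 2 +
      ‖u * cexp ((-q + q * I) * z)‖ ^ 2 + ‖u * cexp ((-q - q * I) * z)‖ ^ 2) := by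
  have h := exp_norm_le hq z
  have h0 := Real.exp_pos (q * ‖z‖)
  simp only [norm_mul u, mul_pow]
  set a := ‖cexp ((q + q * I) * z)‖
  set b := ‖cexp ((q - q * I) * z)‖
  set c := ‖cexp ((-q + q * I) * z)‖
  set d := ‖cexp ((-q - q * I) * z)‖
  have h1 : Real.exp (q * ‖z‖) ^ 2 ≤ (a + b + c + d) ^ 2 := pow_le_pow_left₀ h0.le h 2
  have h2 : (a + b + c + d) ^ 2 ≤ 4 * (a ^ 2 + b ^ 2 + c ^ 2 + d ^ 2) := by
    nlinarith [sq_nonneg (a - b), sq_nonneg (a - c), sq_nonneg (a - d), sq_nonneg (b - c),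
      sq_nonneg (b - d), sq_nonneg (c - d)]
  calc ‖u‖ ^ 2 * Real.exp (q * ‖z‖) ^ 2 ≤ ‖u‖ ^ 2 * (4 * (a ^ 2 + b ^ 2 + c ^ 2 + d ^ 2)) := by
        gcongr; linarith
    _ = _ := by ring

/-- Exponential moments of `|P|` over a block. -/
lemma ES_exp_norm {q : ℝ} (hq : 0 ≤ q) : ∃ C : ℝ, 0 ≤ C ∧ ∀ (A n : ℕ) (S : Finset ℕ) (w₁ : ℂ)
    (w₂ : ℝ), 1 ≤ A → n ≤ 2 → 0 < w₁.re → (∀ p ∈ S, p.Prime) →
    (∀ p ∈ S, yp w₁.re w₂ p ≤ 3 / 4) →
    ES S (fun f => ‖(ZZ S (tw w₁ f)) ^ n‖ ^ 2 * Real.exp (q * ‖Pj A S (tw w₂ f)‖) ^ 2) ≤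
      16 * Real.exp (C * ∑ p ∈ S, (yp w₁.re w₂ p) ^ 2) := by
  obtain ⟨C, hC, h⟩ := ES_exp (2 * q)
  refine ⟨(2 + 2 * q) ^ 2 + C, by positivity, fun A n S w₁ w₂ hA hn hw₁ hS hy => ?_⟩
  have key : ∀ γ : ℂ, ‖γ‖ ≤ 2 * q →
      ES S (fun f => ‖(ZZ S (tw w₁ f)) ^ n * cexp (γ * Pj A S (tw w₂ f))‖ ^ 2) ≤
      Real.exp (((2 + 2 * q) ^ 2 + C) * ∑ p ∈ S, (yp w₁.re w₂ p) ^ 2) := by
    intro γ hγ
    refine (h A n S w₁ γ w₂ hA hn hγ hS hy).trans (Real.exp_le_exp.mpr ?_)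
    rw [Finset.mul_sum]
    refine Finset.sum_le_sum fun p hp => ?_
    have hp0 := (hS p hp).pos
    have h1 : ‖(p : ℂ) ^ (-w₁)‖ = (p : ℝ) ^ (-w₁.re) := by
      rw [norm_natCast_cpow_of_pos hp0]; simp
    have hy0 := yp_nonneg w₁.re w₂ p
    have hy1 := hy p hp
    have h2 : ‖(n : ℂ) * (p : ℂ) ^ (-w₁) + γ * ((p : ℝ) ^ (-w₂) : ℝ)‖ ≤
        (2 + 2 * q) * yp w₁.re w₂ p := by
      refine (norm_add_le _ _).trans ?_
      rw [norm_mul, norm_mul, norm_natCast, h1, norm_real, Real.norm_eq_abs,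
        abs_of_nonneg (by positivity), add_mul]
      gcongr
      · exact_mod_cast hn
      · exact le_max_left _ _
      · exact le_max_right _ _
    have h3 : ‖(n : ℂ) * (p : ℂ) ^ (-w₁) + γ * ((p : ℝ) ^ (-w₂) : ℝ)‖ ^ 2 ≤
        (2 + 2 * q) ^ 2 * yp w₁.re w₂ p ^ 2 := by
      rw [← mul_pow]; exact pow_le_pow_left₀ (norm_nonneg _) h2 2
    have h4 : yp w₁.re w₂ p ^ 4 ≤ yp w₁.re w₂ p ^ 2 :=
      pow_le_pow_of_le_one hy0 (by linarith) (by norm_num)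
    nlinarith
  have hγ : ∀ a b : ℝ, |a| = q → |b| = q → ‖(a : ℂ) + b * I‖ ≤ 2 * q := by
    intro a b ha hb
    refine (norm_add_le _ _).trans ?_
    rw [norm_mul, norm_I, norm_real, norm_real, Real.norm_eq_abs, Real.norm_eq_abs, ha, hb]
    linarith
  have g1 := key (q + q * I) (hγ q q (abs_of_nonneg hq) (abs_of_nonneg hq))
  have g2 := key (q - q * I) (by
    have := hγ q (-q) (abs_of_nonneg hq) (by rw [abs_neg]; exact abs_of_nonneg hq)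
    push_cast at this; rwa [show (q : ℂ) - q * I = q + -(q : ℂ) * I by ring])
  have g3 := key (-q + q * I) (by
    have := hγ (-q) q (by rw [abs_neg]; exact abs_of_nonneg hq) (abs_of_nonneg hq)
    push_cast at this; exact this)
  have g4 := key (-q - q * I) (by
    have := hγ (-q) (-q) (by rw [abs_neg]; exact abs_of_nonneg hq) (by rw [abs_neg]; exact abs_of_nonneg hq)
    push_cast at this; rwa [show -(q : ℂ) - q * I = -q + -(q : ℂ) * I by ring])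
  have bb : ∀ γ : ℂ, BS S (fun f => ‖(ZZ S (tw w₁ f)) ^ n * cexp (γ * Pj A S (tw w₂ f))‖ ^ 2) :=
    fun γ => (((bs_ZZ hS hw₁).pow n).mul (((bs_const S γ).mul (bs_Pj A S S w₂)).cexp)).norm_sq
  have b1 := bb (q + q * I)
  have b2 := bb (q - q * I)
  have b3 := bb (-q + q * I)
  have b4 := bb (-q - q * I)
  have step : ES S (fun f => ‖(ZZ S (tw w₁ f)) ^ n‖ ^ 2 * Real.exp (q * ‖Pj A S (tw w₂ f)‖) ^ 2) ≤
      ES S (fun f => 4 * (‖(ZZ S (tw w₁ f)) ^ n * cexp ((q + q * I) * Pj A S (tw w₂ f))‖ ^ 2 +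
        ‖(ZZ S (tw w₁ f)) ^ n * cexp ((q - q * I) * Pj A S (tw w₂ f))‖ ^ 2 +
        ‖(ZZ S (tw w₁ f)) ^ n * cexp ((-q + q * I) * Pj A S (tw w₂ f))‖ ^ 2 +
        ‖(ZZ S (tw w₁ f)) ^ n * cexp ((-q - q * I) * Pj A S (tw w₂ f))‖ ^ 2)) := by
    apply ES_mono
    · intro ω; positivity
    · exact ((((b1.integrable.add b2.integrable).add b3.integrable).add b4.integrable).const_mul 4)
    · intro ω; exact exp_norm_sq_le hq _ _
  refine step.trans ?_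
  have e2 : ES S (fun f => 4 * (‖(ZZ S (tw w₁ f)) ^ n * cexp ((q + q * I) * Pj A S (tw w₂ f))‖ ^ 2 +
        ‖(ZZ S (tw w₁ f)) ^ n * cexp ((q - q * I) * Pj A S (tw w₂ f))‖ ^ 2 +
        ‖(ZZ S (tw w₁ f)) ^ n * cexp ((-q + q * I) * Pj A S (tw w₂ f))‖ ^ 2 +
        ‖(ZZ S (tw w₁ f)) ^ n * cexp ((-q - q * I) * Pj A S (tw w₂ f))‖ ^ 2)) =
      4 * (ES S (fun f => ‖(ZZ S (tw w₁ f)) ^ n * cexp ((q + q * I) * Pj A S (tw w₂ f))‖ ^ 2) +
        ES S (fun f => ‖(ZZ S (tw w₁ f)) ^ n * cexp ((q - q * I) * Pj A S (tw w₂ f))‖ ^ 2) +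
        ES S (fun f => ‖(ZZ S (tw w₁ f)) ^ n * cexp ((-q + q * I) * Pj A S (tw w₂ f))‖ ^ 2) +
        ES S (fun f => ‖(ZZ S (tw w₁ f)) ^ n * cexp ((-q - q * I) * Pj A S (tw w₂ f))‖ ^ 2)) := by
    unfold ES
    rw [integral_const_mul]
    congr 1
    have i1 := b1.integrable
    have i2 := b2.integrable
    have i3 := b3.integrable
    have i4 := b4.integrable
    rw [← integral_add i1 i2]
    have i12 : Integrable (fun ω : S → ℝ =>
        ‖(ZZ S (tw w₁ (ext S ω))) ^ n * cexp ((q + q * I) * Pj A S (tw w₂ (ext S ω)))‖ ^ 2 +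
        ‖(ZZ S (tw w₁ (ext S ω))) ^ n * cexp ((q - q * I) * Pj A S (tw w₂ (ext S ω)))‖ ^ 2)
        (Measure.pi fun _ => mu0) := i1.add i2
    rw [← integral_add i12 i3]
    have i123 : Integrable (fun ω : S → ℝ =>
        ‖(ZZ S (tw w₁ (ext S ω))) ^ n * cexp ((q + q * I) * Pj A S (tw w₂ (ext S ω)))‖ ^ 2 +
        ‖(ZZ S (tw w₁ (ext S ω))) ^ n * cexp ((q - q * I) * Pj A S (tw w₂ (ext S ω)))‖ ^ 2 +
        ‖(ZZ S (tw w₁ (ext S ω))) ^ n * cexp ((-q + q * I) * Pj A S (tw w₂ (ext S ω)))‖ ^ 2)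
        (Measure.pi fun _ => mu0) := i12.add i3
    rw [← integral_add i123 i4]
  rw [e2]
  linarith

end Pool.Agent.Lib.MP_973905_nt
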