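import Pool.Agent.Lib.MP_973905_nt.BlockBound

namespace Pool.Agent.Lib.MP_973905_nt

open MeasureTheory ProbabilityTheory Complex Filter Topology

/-- The exponents `β_j = exp(j - M - J)`, so that `β_J = e^{-M}`. -/
noncomputable def bet (M J j : ℕ) : ℝ := Real.exp ((j : ℝ) - M - J)

/-- The thresholds `K_j = β_j^{-3/4}`. -/
noncomputable def KK (M J j : ℕ) : ℝ := Real.exp (3 / 4 * ((M : ℝ) + J - j))

/-- Truncation parameters. -/
noncomputable def ll (M J j : ℕ) : ℕ := ⌈10 * KK M J j⌉₊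

/-- Exponents for the bad blocks. -/
noncomputable def rr (M J j : ℕ) : ℕ := ⌊KK M J j / 4⌋₊

/-- Bounds for the bad blocks. -/
noncomputable def ss (M J j : ℕ) : ℝ := Real.exp (-(KK M J j / 2))

/-- The number of blocks. -/
noncomputable def JJ (T : ℝ) : ℕ := ⌊4 * Real.log (Real.log (Real.log T))⌋₊

/-- Block boundaries. -/
noncomputable def yy (T : ℝ) (M J i : ℕ) : ℝ :=
  if i = 0 then 0 else if i ≤ J + 1 then Real.exp (bet M J (i - 1) * Real.log T) else T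

/-- The `j`-th block of primes, `0 ≤ j ≤ J + 1`; the last one is `(T^{β_J}, T]`. -/
noncomputable def Sj (T : ℝ) (M J j : ℕ) : Finset ℕ := PS (yy T M J j) (yy T M J (j + 1))

/-- All blocks. -/
noncomputable def SB (T : ℝ) (M J : ℕ) : Fin (J + 2) → Finset ℕ := fun j => Sj T M J j

/-- One factor of our Dirichlet polynomials. -/
noncomputable def Fc (T : ℝ) (M J : ℕ) (α : ℝ) (g h : Finset ℕ) (j : ℕ) (f : ℕ → ℂ) : ℂ :=
  (if j ∈ g then Ntr (ll M J j) α (Pj M (Sj T M J j) f) else 1) *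
    (if j ∈ h then (Pj M (Sj T M J j) f / (KK M J j : ℂ)) ^ (rr M J j) else 1)

/-- Our Dirichlet polynomials. -/
noncomputable def AA (T : ℝ) (M J : ℕ) (α : ℝ) (g h : Finset ℕ) (f : ℕ → ℂ) : ℂ :=
  ∏ j ∈ Finset.range (J + 1), Fc T M J α g h j f

lemma mem_PS {y x : ℝ} (hy : 0 ≤ y) (hx : 0 ≤ x) {p : ℕ} :
    p ∈ PS y x ↔ p.Prime ∧ y < p ∧ (p : ℝ) ≤ x := by
  simp only [PS, Finset.mem_filter, Finset.mem_Ioc, Nat.floor_lt hy, Nat.le_floor_iff hx]
  tauto

lemma bet_pos (M J j : ℕ) : 0 < bet M J j := Real.exp_pos _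

lemma bet_le_one {M J j : ℕ} (h : j ≤ J) : bet M J j ≤ 1 := by
  rw [bet, Real.exp_le_one_iff]
  have : (j : ℝ) ≤ J := by exact_mod_cast h
  have h2 : (0 : ℝ) ≤ M := by positivity
  linarith

lemma bet_mono {M J i j : ℕ} (h : i ≤ j) : bet M J i ≤ bet M J j := by
  apply Real.exp_le_exp.mpr
  have : (i : ℝ) ≤ j := by exact_mod_cast h
  linarith

lemma bet_succ (M J j : ℕ) : bet M J (j + 1) = Real.exp 1 * bet M J j := by
  rw [bet, bet, ← Real.exp_add]; congr 1; push_cast; ring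

lemma yy_nonneg {T : ℝ} (hT : 0 ≤ T) (M J i : ℕ) : 0 ≤ yy T M J i := by
  unfold yy; split_ifs
  · exact le_rfl
  · exact (Real.exp_pos _).le
  · exact hT

lemma yy_mono {T : ℝ} (hT : 1 < T) (M J : ℕ) {i j : ℕ} (h : i ≤ j) :
    yy T M J i ≤ yy T M J j := by
  have hL : 0 < Real.log T := Real.log_pos hT
  by_cases h0 : i = 0
  · rw [yy, if_pos h0]; exact yy_nonneg (by linarith) _ _ _
  have h0j : j ≠ 0 := by omega
  by_cases h1 : i ≤ J + 1
  · by_cases h2 : j ≤ J + 1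
    · rw [yy, if_neg h0, if_pos h1, yy, if_neg h0j, if_pos h2]
      apply Real.exp_le_exp.mpr
      exact mul_le_mul_of_nonneg_right (bet_mono (by omega)) hL.le
    · rw [yy, if_neg h0, if_pos h1, yy, if_neg h0j, if_neg h2]
      calc Real.exp (bet M J (i - 1) * Real.log T) ≤ Real.exp (1 * Real.log T) := by
            apply Real.exp_le_exp.mpr
            exact mul_le_mul_of_nonneg_right (bet_le_one (by omega)) hL.le
        _ = T := by rw [one_mul, Real.exp_log (by linarith)]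
  · rw [yy, if_neg h0, if_neg h1, yy, if_neg h0j, if_neg (by omega)]

lemma yy_last (T : ℝ) (M J : ℕ) : yy T M J (J + 2) = T := by
  rw [yy, if_neg (by omega), if_neg (by omega)]

lemma mem_Sj {T : ℝ} (hT : 1 < T) {M J j p : ℕ} :
    p ∈ Sj T M J j ↔ p.Prime ∧ yy T M J j < p ∧ (p : ℝ) ≤ yy T M J (j + 1) :=
  mem_PS (yy_nonneg (by linarith) _ _ _) (yy_nonneg (by linarith) _ _ _)

lemma prime_Sj {T : ℝ} (hT : 1 < T) {M J j p : ℕ} (h : p ∈ Sj T M J j) : p.Prime :=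
  ((mem_Sj hT).mp h).1

lemma disj_Sj {T : ℝ} (hT : 1 < T) {M J i j : ℕ} (h : i ≠ j) :
    Disjoint (Sj T M J i) (Sj T M J j) := by
  wlog hlt : i < j generalizing i j
  · exact (this h.symm (by omega)).symm
  rw [Finset.disjoint_left]
  intro p hp hp'
  have h1 := ((mem_Sj hT).mp hp).2.2
  have h2 := ((mem_Sj hT).mp hp').2.1
  have h3 := yy_mono hT M J (show i + 1 ≤ j by omega)
  linarith

lemma blk_SB {T : ℝ} (hT : 1 < T) (M J : ℕ) : Blk (SB T M J) :=
  ⟨fun _ _ hp => prime_Sj hT hp, fun _ _ hij => disj_Sj hT (fun h => hij (Fin.ext h))⟩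

lemma exists_Sj {T : ℝ} (hT : 1 < T) (M J : ℕ) {p : ℕ} (hp : p.Prime) (hpT : (p : ℝ) ≤ T) :
    ∃ j, j < J + 2 ∧ p ∈ Sj T M J j := by
  classical
  have hex : ∃ i, (p : ℝ) ≤ yy T M J i := ⟨J + 2, by rw [yy_last]; exact hpT⟩
  set i := Nat.find hex with hi
  have h1 : (p : ℝ) ≤ yy T M J i := Nat.find_spec hex
  have h2 : i ≠ 0 := by
    intro h0
    rw [h0, yy, if_pos rfl] at h1
    have : (0 : ℝ) < p := by exact_mod_cast hp.pos
    linarith
  have h3 : i ≤ J + 2 := Nat.find_min' hex (by rw [yy_last]; exact hpT)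
  refine ⟨i - 1, by omega, (mem_Sj hT).mpr ⟨hp, ?_, ?_⟩⟩
  · have := Nat.find_min hex (m := i - 1) (by omega)
    exact not_le.mp this
  · rw [show i - 1 + 1 = i by omega]; exact h1

lemma UU_SB {T : ℝ} (hT : 1 < T) (M J : ℕ) : UU (SB T M J) = PS 0 T := by
  ext p
  rw [mem_UU, mem_PS le_rfl (by linarith)]
  constructor
  · rintro ⟨j, hj⟩
    have h := (mem_Sj hT).mp hj
    refine ⟨h.1, by exact_mod_cast h.1.pos, h.2.2.trans ?_⟩
    have h1 := yy_mono hT M J (show (j : ℕ) + 1 ≤ J + 2 by omega)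
    rwa [yy_last] at h1
  · rintro ⟨h1, _, h3⟩
    obtain ⟨j, hj, hpj⟩ := exists_Sj hT M J h1 h3
    exact ⟨⟨j, hj⟩, hpj⟩

lemma mem_factored {T : ℝ} (hT : 1 < T) (M J : ℕ) {n : ℕ} (h1 : 1 ≤ n) (h2 : (n : ℝ) ≤ T) :
    n ∈ Nat.factoredNumbers (UU (SB T M J)) := by
  rw [Nat.mem_factoredNumbers_iff_primeFactors_subset]
  refine ⟨by omega, fun p hp => ?_⟩
  rw [UU_SB hT, mem_PS le_rfl (by linarith)]
  have hp' := Nat.prime_of_mem_primeFactors hp
  refine ⟨hp', by exact_mod_cast hp'.pos, ?_⟩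
  have h3 : p ≤ n := Nat.le_of_mem_primeFactors hp
  have h4 : (p : ℝ) ≤ n := by exact_mod_cast h3
  linarith

end Pool.Agent.Lib.MP_973905_nt
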