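import Pool.Agent.Lib.MP_973905_nt.Zeta

/-!
# Two-sided bounds for the factor of the functional equation

`FF (1/2 + it + w) = FF (1/2 + it) |t|^w (1 + O(|w|))` for `|w| ≤ 1/8`.
-/

namespace Pool.Agent.Lib.MP_973905_nt

open Complex Set

lemma norm_sin_ge (z : ℂ) (hz : 1 ≤ |z.im|) : Real.exp |z.im| / 4 ≤ ‖sin z‖ := by
  have h1 : ‖exp (-z * I)‖ = Real.exp z.im := by
    rw [norm_exp]; congr 1; simp
  have h2 : ‖exp (z * I)‖ = Real.exp (-z.im) := by
    rw [norm_exp]; congr 1; simp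
  have h3 : sin z = (exp (-z * I) - exp (z * I)) * I / 2 := rfl
  have h4 : ‖sin z‖ = ‖exp (-z * I) - exp (z * I)‖ / 2 := by
    rw [h3, norm_div, norm_mul, norm_I, mul_one]
    congr 1
    simp
  have h5 : |‖exp (-z * I)‖ - ‖exp (z * I)‖| ≤ ‖exp (-z * I) - exp (z * I)‖ :=
    abs_norm_sub_norm_le _ _
  rw [h1, h2] at h5
  have h6 : Real.exp |z.im| - Real.exp (-|z.im|) ≤ |Real.exp z.im - Real.exp (-z.im)| := by
    rcases abs_cases z.im with ⟨e, _⟩ | ⟨e, _⟩
    · rw [e]; exact le_abs_self _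
    · rw [e, neg_neg, abs_sub_comm]; exact le_abs_self _
  have h7 : Real.exp (-|z.im|) ≤ Real.exp |z.im| / 2 := by
    rw [Real.exp_neg]
    have h8 : 2 ≤ Real.exp |z.im| := by
      have := Real.add_one_le_exp |z.im|
      linarith
    have h9 : (Real.exp |z.im|)⁻¹ ≤ 1 := inv_le_one_of_one_le₀ (by linarith)
    linarith
  rw [h4]
  linarith

lemma FF_shift {s : ℂ} (hs0 : s ≠ 0) (hsin : sin (Real.pi * s / 2) ≠ 0) :
    FF s = -(FF (s + 1) * (2 * Real.pi) / s * (cos (Real.pi * s / 2) / sin (Real.pi * s / 2))) := by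
  have h1 : (2 * Real.pi : ℂ) ^ (-(s + 1)) = (2 * Real.pi : ℂ) ^ (-s) * (2 * Real.pi : ℂ)⁻¹ := by
    rw [neg_add, cpow_add _ _ two_pi_ne, cpow_neg_one]
  have h2 : cos (Real.pi * (s + 1) / 2) = -sin (Real.pi * s / 2) := by
    rw [show (Real.pi * (s + 1) / 2 : ℂ) = Real.pi * s / 2 + Real.pi / 2 by ring]
    exact Complex.cos_add_pi_div_two _
  unfold FF
  rw [h1, h2, Gamma_add_one _ hs0]
  have hpi : (Real.pi : ℂ) ≠ 0 := by exact_mod_cast Real.pi_ne_zero
  field_simp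

lemma FF_bound_left {δ : ℝ} (h0 : -(1 / 4) ≤ δ) (h1 : δ ≤ 0) {t : ℝ} (ht : 1 ≤ |t|) :
    ‖FF ((1 / 2 + δ : ℝ) + t * I)‖ ≤ 16 * Real.pi * Real.exp (9 / 4) * (1 + |t|) ^ δ := by
  set s : ℂ := (1 / 2 + δ : ℝ) + t * I with hs
  have him : s.im = t := by simp [hs]
  have hpos : (0 : ℝ) < 1 + |t| := by positivity
  have hsn : |t| ≤ ‖s‖ := by
    have := Complex.abs_im_le_norm s
    rwa [him] at this
  have hs0 : s ≠ 0 := by
    intro h
    rw [h, norm_zero] at hsn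
    linarith
  have hz : (Real.pi * s / 2 : ℂ).im = Real.pi / 2 * t := by
    rw [show (Real.pi * s / 2 : ℂ) = ((Real.pi / 2 : ℝ) : ℂ) * s by push_cast; ring, im_ofReal_mul,
      him]
  have hz1 : 1 ≤ |(Real.pi * s / 2 : ℂ).im| := by
    rw [hz, abs_mul, abs_of_pos (by positivity)]
    have := Real.pi_gt_three
    nlinarith
  have h2 := norm_sin_ge _ hz1
  have h3 := norm_cos_le (Real.pi * s / 2)
  have hE : 0 < Real.exp |(Real.pi * s / 2 : ℂ).im| := Real.exp_pos _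
  have hsin : sin (Real.pi * s / 2) ≠ 0 := by
    intro h
    rw [h, norm_zero] at h2
    linarith
  have h4 : ‖cos (Real.pi * s / 2) / sin (Real.pi * s / 2)‖ ≤ 4 := by
    rw [norm_div, div_le_iff₀ (by linarith)]
    linarith
  have h5 : ‖FF (s + 1)‖ ≤ Real.exp (9 / 4) * (1 + |t|) ^ (1 + δ) := by
    have := FF_bound (δ := 1 + δ) (by linarith) (by linarith) t
    have e : (s + 1 : ℂ) = ((1 / 2 + (1 + δ) : ℝ) + t * I : ℂ) := by
      rw [hs]; push_cast; ring
    rw [e]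
    exact this
  rw [FF_shift hs0 hsin, norm_neg, norm_mul, norm_div, norm_mul]
  have h6 : ‖(2 * Real.pi : ℂ)‖ = 2 * Real.pi := by
    rw [norm_mul, Complex.norm_real, Real.norm_eq_abs, abs_of_pos Real.pi_pos]
    simp
  rw [h6]
  have h7 : (1 + |t|) / 2 ≤ ‖s‖ := by linarith
  have h8 : (1 + |t|) ^ (1 + δ) = (1 + |t|) * (1 + |t|) ^ δ := by
    rw [Real.rpow_add hpos, Real.rpow_one]
  have h9 : 0 < (1 + |t|) ^ δ := Real.rpow_pos_of_pos hpos _
  calc ‖FF (s + 1)‖ * (2 * Real.pi) / ‖s‖ * ‖cos (Real.pi * s / 2) / sin (Real.pi * s / 2)‖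
      ≤ (Real.exp (9 / 4) * (1 + |t|) ^ (1 + δ)) * (2 * Real.pi) / ((1 + |t|) / 2) * 4 := by
        gcongr
    _ = 16 * Real.pi * Real.exp (9 / 4) * (1 + |t|) ^ δ := by
        rw [h8]
        field_simp
        ring

lemma FF_bound_both : ∃ B : ℝ, 1 ≤ B ∧ ∀ s : ℂ, 1 / 4 ≤ s.re → s.re ≤ 3 / 4 → 1 ≤ |s.im| →
    ‖FF s‖ ≤ B * (1 + |s.im|) ^ (s.re - 1 / 2) := by
  refine ⟨16 * Real.pi * Real.exp (9 / 4), ?_, fun s h1 h2 h3 => ?_⟩
  · have := Real.pi_gt_three
    have h4 : 1 ≤ Real.exp (9 / 4) := Real.one_le_exp (by norm_num)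
    nlinarith
  · have e : s = ((1 / 2 + (s.re - 1 / 2) : ℝ) + s.im * I : ℂ) := by
      conv_lhs => rw [← re_add_im s]
      push_cast
      ring
    have h4 : 0 < (1 + |s.im|) ^ (s.re - 1 / 2) := Real.rpow_pos_of_pos (by positivity) _
    have h5 : 1 ≤ 16 * Real.pi := by linarith [Real.pi_gt_three]
    rcases le_total (s.re - 1 / 2) 0 with h | h
    · have := FF_bound_left (δ := s.re - 1 / 2) (by linarith) h h3
      rwa [← e] at this
    · have := FF_bound (δ := s.re - 1 / 2) h (by linarith) s.im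
      rw [← e] at this
      refine this.trans ?_
      have h6 : 0 < Real.exp (9 / 4) := Real.exp_pos _
      calc Real.exp (9 / 4) * (1 + |s.im|) ^ (s.re - 1 / 2)
          = 1 * (Real.exp (9 / 4) * (1 + |s.im|) ^ (s.re - 1 / 2)) := by ring
        _ ≤ 16 * Real.pi * (Real.exp (9 / 4) * (1 + |s.im|) ^ (s.re - 1 / 2)) := by gcongr
        _ = _ := by ring

/-- The factor of the functional equation near the point `1/2 + it`. -/
theorem chi2 : ∃ C t₀ : ℝ, 0 < C ∧ 2 ≤ t₀ ∧ ∀ t : ℝ, t₀ ≤ |t| → ∀ w : ℂ, ‖w‖ ≤ 1 / 8 →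
    ‖FF ((1 / 2 : ℝ) + t * I + w) - FF ((1 / 2 : ℝ) + t * I) * ((|t| : ℝ) : ℂ) ^ w‖ ≤
      C * ‖w‖ * |t| ^ w.re := by
  obtain ⟨B, hB1, hB⟩ := FF_bound_both
  refine ⟨16 * B + 8, 2, by linarith, le_rfl, fun t ht w hw => ?_⟩
  have htpos : 0 < |t| := by linarith
  have htc : ((|t| : ℝ) : ℂ) ≠ 0 := by exact_mod_cast htpos.ne'
  set s : ℂ := (1 / 2 : ℝ) + t * I with hs
  have hsre : s.re = 1 / 2 := by simp [hs]
  have hsim : s.im = t := by simp [hs]
  set f : ℂ → ℂ := fun z => FF (s + z) * ((|t| : ℝ) : ℂ) ^ (-z) with hf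
  have hf0 : f 0 = FF s := by simp [hf]
  have hf0n : ‖f 0‖ = 1 := by rw [hf0, hs]; exact FF_half t
  have hdiff : DifferentiableOn ℂ f (Metric.ball 0 (1 / 4)) := by
    intro z hz
    rw [Metric.mem_ball, dist_zero_right] at hz
    have h1 : |z.re| < 1 / 4 := lt_of_le_of_lt (Complex.abs_re_le_norm z) hz
    have h2 : 0 < (s + z).re := by
      rw [add_re, hsre]
      have := (abs_lt.1 h1).1
      linarith
    have h3 : DifferentiableAt ℂ (fun z => FF (s + z)) z :=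
      DifferentiableAt.comp z (FF_diff h2) (by fun_prop)
    have h4 : DifferentiableAt ℂ (fun z : ℂ => ((|t| : ℝ) : ℂ) ^ (-z)) z :=
      differentiableAt_id.neg.const_cpow (Or.inl htc)
    exact (h3.mul h4).differentiableWithinAt
  have hfb : ∀ z : ℂ, ‖z‖ < 1 / 4 → ‖f z‖ ≤ 2 * B := by
    intro z hz
    have h1 : |z.re| < 1 / 4 := lt_of_le_of_lt (Complex.abs_re_le_norm z) hz
    have h2 : |z.im| < 1 / 4 := lt_of_le_of_lt (Complex.abs_im_le_norm z) hz
    obtain ⟨h1a, h1b⟩ := abs_lt.1 h1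
    have e1 : (s + z).re = 1 / 2 + z.re := by rw [add_re, hsre]
    have e2 : (s + z).im = t + z.im := by rw [add_im, hsim]
    have h3 : |t| - 1 / 4 ≤ |t + z.im| := by
      have := abs_add_le (t + z.im) (-z.im)
      rw [add_neg_cancel_right, abs_neg] at this
      linarith
    have h4 : |t + z.im| ≤ |t| + 1 / 4 := by
      have := abs_add_le t z.im
      linarith
    have h5 := hB (s + z) (by rw [e1]; linarith) (by rw [e1]; linarith)
      (by rw [e2]; linarith)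
    rw [e1, e2] at h5
    have e3 : (1 / 2 + z.re - 1 / 2 : ℝ) = z.re := by ring
    rw [e3] at h5
    have h6 : (1 + |t + z.im|) ^ z.re ≤ 2 * |t| ^ z.re := by
      have hq : (1 + |t + z.im|) ^ z.re = ((1 + |t + z.im|) / |t|) ^ z.re * |t| ^ z.re := by
        rw [Real.div_rpow (by positivity) htpos.le, div_mul_cancel₀]
        exact (Real.rpow_pos_of_pos htpos _).ne'
      rw [hq]
      have hq2 : ((1 + |t + z.im|) / |t|) ^ z.re ≤ 2 := by
        have ha : 1 ≤ (1 + |t + z.im|) / |t| := by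
          rw [le_div_iff₀ htpos]; linarith
        have hb : (1 + |t + z.im|) / |t| ≤ 2 := by
          rw [div_le_iff₀ htpos]; linarith
        calc ((1 + |t + z.im|) / |t|) ^ z.re ≤ ((1 + |t + z.im|) / |t|) ^ (1 : ℝ) :=
              Real.rpow_le_rpow_of_exponent_le ha (by linarith)
          _ = (1 + |t + z.im|) / |t| := Real.rpow_one _
          _ ≤ 2 := hb
      have : 0 ≤ |t| ^ z.re := (Real.rpow_pos_of_pos htpos _).le
      gcongr
    have h7 : ‖f z‖ = ‖FF (s + z)‖ * |t| ^ (-z.re) := by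
      simp only [hf, norm_mul]
      rw [norm_cpow_eq_rpow_re_of_pos htpos, neg_re]
    rw [h7]
    have h8 : 0 < |t| ^ (-z.re) := Real.rpow_pos_of_pos htpos _
    calc ‖FF (s + z)‖ * |t| ^ (-z.re) ≤ (B * (2 * |t| ^ z.re)) * |t| ^ (-z.re) := by
          gcongr
          refine h5.trans ?_
          gcongr
      _ = 2 * B * (|t| ^ z.re * |t| ^ (-z.re)) := by ring
      _ = 2 * B := by
          rw [← Real.rpow_add htpos, add_neg_cancel, Real.rpow_zero, mul_one]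
  have hmaps : MapsTo f (Metric.ball 0 (1 / 4)) (Metric.closedBall (f 0) (2 * B + 1 + 1)) := by
    intro z hz
    rw [Metric.mem_ball, dist_zero_right] at hz
    rw [Metric.mem_closedBall, dist_eq_norm]
    have := norm_sub_le (f z) (f 0)
    have := hfb z hz
    linarith
  have hw4 : w ∈ Metric.ball (0 : ℂ) (1 / 4) := by
    rw [Metric.mem_ball, dist_zero_right]
    linarith
  have key := Complex.dist_le_div_mul_dist_of_mapsTo_ball hdiff hmaps hw4
  rw [dist_eq_norm, dist_zero_right] at key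
  have e1 : FF (s + w) - FF s * ((|t| : ℝ) : ℂ) ^ w = (f w - f 0) * ((|t| : ℝ) : ℂ) ^ w := by
    rw [hf0]
    simp only [hf]
    rw [sub_mul, mul_assoc, ← cpow_add _ _ htc, neg_add_cancel, cpow_zero, mul_one]
  rw [e1, norm_mul, norm_cpow_eq_rpow_re_of_pos htpos]
  have h9 : 0 ≤ |t| ^ w.re := (Real.rpow_pos_of_pos htpos _).le
  calc ‖f w - f 0‖ * |t| ^ w.re ≤ ((2 * B + 1 + 1) / (1 / 4) * ‖w‖) * |t| ^ w.re := by gcongr
    _ ≤ (16 * B + 8) * ‖w‖ * |t| ^ w.re := by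
        have : (2 * B + 1 + 1) / (1 / 4) = 8 * B + 8 := by ring
        rw [this]
        have hw0 := norm_nonneg w
        gcongr
        linarith

end Pool.Agent.Lib.MP_973905_nt
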