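import Mathlib

/-! # Log-convexity of Gaussian weighted `L^p` means of analytic functions on vertical lines -/

namespace Pool.Agent.Lib.MP_973905_nt

open MeasureTheory ProbabilityTheory Set Filter Topology Metric

namespace Convex

/-- Sub-mean value property of `‖h‖ ^ p`. -/
lemma norm_rpow_le_circleAverage {h : ℂ → ℂ} {c : ℂ} {R p : ℝ} (hR : R ≠ 0) (hp : 0 < p)
    (hh : AnalyticOnNhd ℂ h (closedBall c |R|)) :
    ‖h c‖ ^ p ≤ Real.circleAverage (fun z => ‖h z‖ ^ p) c R := by
  by_cases hc : h c = 0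
  · rw [hc, norm_zero, Real.zero_rpow hp.ne']
    exact Real.circleAverage_nonneg_of_nonneg fun z _ => by positivity
  · have hlogint : CircleIntegrable (fun z => Real.log ‖h z‖) c R :=
      (hh.mono sphere_subset_closedBall).meromorphicOn.circleIntegrable_log_norm
    have hcont : ContinuousOn (fun z => ‖h z‖ ^ p) (sphere c |R|) := by
      apply ContinuousOn.rpow_const
      · exact ((hh.mono sphere_subset_closedBall).continuousOn).norm
      · intro x _
        right
        exact hp.le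
    have hpint : CircleIntegrable (fun z => ‖h z‖ ^ p) c R := hcont.circleIntegrable'
    have hjensen : Real.log ‖h c‖ ≤ Real.circleAverage (fun z => Real.log ‖h z‖) c R := by
      rw [hh.circleAverage_log_norm hR hc]
      have : 0 ≤ ∑ᶠ u, (MeromorphicOn.divisor h (closedBall c |R|)) u *
          Real.log (R * ‖c - u‖⁻¹) := by
        apply finsum_nonneg
        intro u
        by_cases hu : u ∈ closedBall c |R|
        · apply mul_nonneg
          · exact_mod_cast MeromorphicOn.AnalyticOnNhd.divisor_nonneg hh u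
          · rw [← Real.log_abs, abs_mul, abs_inv, abs_norm]
            by_cases huc : u = c
            · simp [huc]
            · apply Real.log_nonneg
              have hpos : 0 < ‖c - u‖ := norm_pos_iff.mpr (sub_ne_zero.mpr (Ne.symm huc))
              rw [← div_eq_mul_inv, one_le_div hpos]
              rw [mem_closedBall, dist_comm, dist_eq_norm] at hu
              exact hu
        · rw [Function.locallyFinsuppWithin.apply_eq_zero_of_notMem _ hu]
          simp
      linarith
    set y : ℝ := ‖h c‖ with hy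
    have hypos : 0 < y := norm_pos_iff.mpr hc
    set F : ℂ → ℝ := fun z => (y ^ p * p) * Real.log ‖h z‖ + y ^ p * (1 - p * Real.log y) with hF
    have hFint : CircleIntegrable F c R := by
      apply CircleIntegrable.add
      · exact hlogint.const_smul (a := (y ^ p * p))
      · exact circleIntegrable_const _ _ _
    classical
    set G : ℂ → ℝ := fun z => if h z = 0 then F z else ‖h z‖ ^ p with hG
    have hcod : (fun z => ‖h z‖ ^ p) =ᶠ[codiscreteWithin (sphere c |R|)] G := by
      have h1 := (hh.preimage_zero_mem_codiscreteWithin (x := c) hc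
        (mem_closedBall_self (abs_nonneg R)) ?_)
      · have h2 := Filter.codiscreteWithin_mono (U₁ := sphere c |R|) sphere_subset_closedBall h1
        filter_upwards [h2] with z hz
        have hz' : h z ≠ 0 := by simpa using hz
        simp [hG, hz']
      · exact ⟨⟨c, mem_closedBall_self (abs_nonneg R)⟩,
          (convex_closedBall c |R|).isPreconnected⟩
    have hGint : CircleIntegrable G c R := hpint.congr_codiscreteWithin hcod
    rw [Real.circleAverage_congr_codiscreteWithin hcod hR]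
    have hFG : Real.circleAverage F c R ≤ Real.circleAverage G c R := by
      apply Real.circleAverage_mono hFint hGint
      intro z _
      by_cases hz : h z = 0
      · simp [hG, hz]
      · simp only [hG, hF, hz, if_false]
        have hzpos : 0 < ‖h z‖ := norm_pos_iff.mpr hz
        have e1 : ‖h z‖ ^ p = y ^ p * Real.exp (p * (Real.log ‖h z‖ - Real.log y)) := by
          rw [Real.rpow_def_of_pos hzpos, Real.rpow_def_of_pos hypos, ← Real.exp_add]
          congr 1
          ring
        rw [e1]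
        have e2 := Real.add_one_le_exp (p * (Real.log ‖h z‖ - Real.log y))
        have e3 : 0 < y ^ p := Real.rpow_pos_of_pos hypos p
        nlinarith [mul_le_mul_of_nonneg_left e2 e3.le]
    refine le_trans ?_ hFG
    have hFavg : Real.circleAverage F c R =
        (y ^ p * p) * Real.circleAverage (fun z => Real.log ‖h z‖) c R +
          y ^ p * (1 - p * Real.log y) := by
      have e5 := Real.circleAverage_fun_add (hlogint.const_smul (a := (y ^ p * p)))
        (circleIntegrable_const (y ^ p * (1 - p * Real.log y)) c R)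
      rw [Real.circleAverage_const, Real.circleAverage_smul] at e5
      exact e5
    rw [hFavg]
    have e3 : 0 < y ^ p := Real.rpow_pos_of_pos hypos p
    have e4 : 0 < y ^ p * p := mul_pos e3 hp
    nlinarith [mul_le_mul_of_nonneg_left hjensen e4.le]

/-- A continuous function on `[a,b]` whose value at `x` is at most the average over the circle of
radius `r` (projected to the line) is at most the maximum of its values at the ends. -/
lemma le_max_of_submean {G : ℝ → ℝ} {a b : ℝ} (hab : a < b) (hG : ContinuousOn G (Icc a b))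
    (hsub : ∀ x r : ℝ, 0 < r → a ≤ x - r → x + r ≤ b →
      G x ≤ (2 * Real.pi)⁻¹ * ∫ θ in (0:ℝ)..(2 * Real.pi), G (x + r * Real.cos θ)) :
    ∀ x ∈ Icc a b, G x ≤ max (G a) (G b) := by
  intro x hx
  have key : ∀ η : ℝ, 0 < η → G x + η * x ^ 2 ≤ max (G a + η * a ^ 2) (G b + η * b ^ 2) := by
    intro η hη
    set g : ℝ → ℝ := fun y => G y + η * y ^ 2 with hg
    have hgc : ContinuousOn g (Icc a b) := by
      apply hG.add
      fun_prop
    obtain ⟨x₀, hx₀, hmax⟩ := isCompact_Icc.exists_isMaxOn (nonempty_Icc.mpr hab.le) hgc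
    have hmax' : ∀ y ∈ Icc a b, g y ≤ g x₀ := hmax
    rcases eq_or_lt_of_le hx₀.1 with h1 | h1
    · have := hmax' x hx
      rw [← h1] at this
      exact this.trans (le_max_left _ _)
    rcases eq_or_lt_of_le hx₀.2 with h2 | h2
    · have := hmax' x hx
      rw [h2] at this
      exact this.trans (le_max_right _ _)
    exfalso
    set r := min (x₀ - a) (b - x₀) with hr
    have hrpos : 0 < r := lt_min (by linarith) (by linarith)
    have hr1 : a ≤ x₀ - r := by have := min_le_left (x₀ - a) (b - x₀); linarith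
    have hr2 : x₀ + r ≤ b := by have := min_le_right (x₀ - a) (b - x₀); linarith
    have hin : ∀ θ : ℝ, x₀ + r * Real.cos θ ∈ Icc a b := by
      intro θ
      constructor
      · nlinarith [Real.neg_one_le_cos θ]
      · nlinarith [Real.cos_le_one θ]
    have h3 := hsub x₀ r hrpos hr1 hr2
    have hcontG : Continuous fun θ : ℝ => G (x₀ + r * Real.cos θ) :=
      hG.comp_continuous (by fun_prop) hin
    have hpi : 0 < 2 * Real.pi := by positivity
    have h4 : ∫ θ in (0:ℝ)..(2 * Real.pi), G (x₀ + r * Real.cos θ) ≤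
        ∫ θ in (0:ℝ)..(2 * Real.pi), (g x₀ - η * (x₀ + r * Real.cos θ) ^ 2) := by
      apply intervalIntegral.integral_mono_on hpi.le (hcontG.intervalIntegrable _ _)
      · apply Continuous.intervalIntegrable; fun_prop
      · intro θ _
        have := hmax' _ (hin θ)
        simp only [hg] at this ⊢
        linarith
    have h5 : ∫ θ in (0:ℝ)..(2 * Real.pi), (g x₀ - η * (x₀ + r * Real.cos θ) ^ 2) =
        2 * Real.pi * (g x₀ - η * x₀ ^ 2 - η * r ^ 2 / 2) := by
      have e : ∀ θ : ℝ, g x₀ - η * (x₀ + r * Real.cos θ) ^ 2 =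
          (g x₀ - η * x₀ ^ 2) - (2 * η * x₀ * r) * Real.cos θ - (η * r ^ 2) * Real.cos θ ^ 2 := by
        intro θ; ring
      simp_rw [e]
      rw [intervalIntegral.integral_sub, intervalIntegral.integral_sub,
        intervalIntegral.integral_const, intervalIntegral.integral_const_mul,
        intervalIntegral.integral_const_mul, integral_cos, integral_cos_sq]
      · simp
        ring
      · apply Continuous.intervalIntegrable; fun_prop
      · apply Continuous.intervalIntegrable; fun_prop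
      · apply Continuous.intervalIntegrable; fun_prop
      · apply Continuous.intervalIntegrable; fun_prop
    have h6 : G x₀ ≤ g x₀ - η * x₀ ^ 2 - η * r ^ 2 / 2 := by
      refine h3.trans ?_
      rw [inv_mul_le_iff₀ hpi]
      rw [h5] at h4
      exact h4
    simp only [hg] at h6
    have : 0 < η * r ^ 2 := by positivity
    linarith
  apply le_of_forall_pos_le_add
  intro ε hε
  set M := max (a ^ 2) (b ^ 2) with hM
  have hM0 : 0 ≤ M := le_max_of_le_left (sq_nonneg a)
  have h := key (ε / (M + 1)) (by positivity)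
  have h1 : ε / (M + 1) * M ≤ ε := by
    rw [div_mul_eq_mul_div, div_le_iff₀ (by linarith)]
    nlinarith
  have h2 : 0 ≤ ε / (M + 1) * x ^ 2 := by positivity
  have h3 : ε / (M + 1) * a ^ 2 ≤ ε / (M + 1) * M :=
    mul_le_mul_of_nonneg_left (le_max_left _ _) (by positivity)
  have h4 : ε / (M + 1) * b ^ 2 ≤ ε / (M + 1) * M :=
    mul_le_mul_of_nonneg_left (le_max_right _ _) (by positivity)
  rcases max_cases (G a + ε / (M + 1) * a ^ 2) (G b + ε / (M + 1) * b ^ 2) with h5 | h5
  · rw [h5.1] at h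
    have := le_max_left (G a) (G b)
    linarith
  · rw [h5.1] at h
    have := le_max_right (G a) (G b)
    linarith

lemma integrable_bound {τ : ℝ} {v : NNReal} (hv : v ≠ 0) {k : ℝ} (hk : 0 < k) :
    Integrable (fun t : ℝ => (1 + |t|) ^ k * Real.exp (-(t - τ) ^ 2 / (2 * v))) := by
  have h0 : MemLp (fun t : ℝ => |t|) (ENNReal.ofReal k) (gaussianReal τ v) := by
    have := (memLp_id_gaussianReal' (μ := τ) (v := v) (ENNReal.ofReal k)
      ENNReal.ofReal_ne_top).norm
    simpa using this
  have h00 : MemLp (fun _ : ℝ => (1:ℝ)) (ENNReal.ofReal k) (gaussianReal τ v) := memLp_const 1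
  have h1 : MemLp (fun t : ℝ => 1 + |t|) (ENNReal.ofReal k) (gaussianReal τ v) := h00.add h0
  have h2 := h1.integrable_norm_rpow'
  rw [ENNReal.toReal_ofReal hk.le] at h2
  rw [gaussianReal_of_var_ne_zero _ hv] at h2
  rw [integrable_withDensity_iff (measurable_gaussianPDF τ v)
    (ae_of_all _ fun x => gaussianPDF_lt_top)] at h2
  simp_rw [toReal_gaussianPDF, gaussianPDFReal] at h2
  have h3 := h2.const_mul (√(2 * Real.pi * v))
  refine h3.congr (ae_of_all _ fun t => ?_)
  have hv' : (0:ℝ) < v := by positivity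
  have h4 : √(2 * Real.pi * v) ≠ 0 := by positivity
  have h5 : ‖1 + |t|‖ = 1 + |t| := by
    rw [Real.norm_eq_abs, abs_of_nonneg (by positivity)]
  simp only [h5]
  field_simp

section

variable {f : ℂ → ℂ} {α β p τ κ : ℝ} {v : NNReal}

/-- The auxiliary function. -/
noncomputable def H (f : ℂ → ℂ) (p τ κ : ℝ) (v : NNReal) (s : ℂ) : ℂ :=
  f s * Complex.exp ((s - τ * Complex.I) ^ 2 / (2 * v * p) + κ * s / p)

lemma norm_H_rpow (hp : 0 < p) (hv : v ≠ 0) (x t : ℝ) :
    ‖H f p τ κ v (x + t * Complex.I)‖ ^ p = ‖f (x + t * Complex.I)‖ ^ p *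
      (Real.exp (x ^ 2 / (2 * v) + κ * x) * Real.exp (-(t - τ) ^ 2 / (2 * v))) := by
  have hv' : (0:ℝ) < v := by positivity
  unfold H
  rw [norm_mul, Complex.norm_exp, Real.mul_rpow (norm_nonneg _) (Real.exp_pos _).le,
    ← Real.exp_mul, ← Real.exp_add]
  congr 2
  have e : ((x + t * Complex.I : ℂ) - τ * Complex.I) ^ 2 / (2 * v * p) +
      κ * (x + t * Complex.I) / p =
      (((x ^ 2 - (t - τ) ^ 2) / (2 * v * p) + κ * x / p : ℝ) : ℂ) +
        ((2 * x * (t - τ) / (2 * v * p) + κ * t / p : ℝ) : ℂ) * Complex.I := by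
    have hI : Complex.I ^ 2 = -1 := Complex.I_sq
    push_cast
    have : ((x + t * Complex.I : ℂ) - τ * Complex.I) ^ 2 =
      (x ^ 2 - (t - τ) ^ 2) + 2 * x * (t - τ) * Complex.I := by
      linear_combination ((t - τ) ^ 2 : ℂ) * hI
    rw [this]
    ring
  rw [e, Complex.add_re, Complex.ofReal_re, Complex.re_ofReal_mul, Complex.I_re, mul_zero, add_zero]
  field_simp
  ring

lemma exists_bound (hp : 0 < p) (hv : v ≠ 0)
    (hg : ∃ C m : ℝ, ∀ s : ℂ, α < s.re → s.re < β → ‖f s‖ ≤ C * (1 + |s.im|) ^ m) :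
    ∃ B : ℝ → ℝ, Integrable B ∧ ∀ x : ℝ, α < x → x < β → ∀ t : ℝ,
      ‖H f p τ κ v (x + t * Complex.I)‖ ^ p ≤ B t := by
  obtain ⟨C, m, h⟩ := hg
  obtain ⟨K, hK⟩ := (isCompact_Icc (a := α) (b := β)).exists_bound_of_continuousOn
    (f := fun x : ℝ => Real.exp (x ^ 2 / (2 * v) + κ * x)) (by fun_prop)
  set C' := max C 0 with hC'
  set m' := max m 1 with hm'
  have hC0 : 0 ≤ C' := le_max_right _ _
  have hm0 : 0 < m' := lt_of_lt_of_le one_pos (le_max_right _ _)
  refine ⟨fun t => C' ^ p * K * ((1 + |t|) ^ (m' * p) * Real.exp (-(t - τ) ^ 2 / (2 * v))),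
    (integrable_bound hv (by positivity)).const_mul _, ?_⟩
  intro x hx1 hx2 t
  rw [norm_H_rpow hp hv]
  have ht1 : 1 ≤ 1 + |t| := by linarith [abs_nonneg t]
  have e1 : ‖f (x + t * Complex.I)‖ ≤ C' * (1 + |t|) ^ m' := by
    have h1 := h (x + t * Complex.I) (by simpa using hx1) (by simpa using hx2)
    have h2 : (x + t * Complex.I : ℂ).im = t := by simp
    rw [h2] at h1
    refine h1.trans ?_
    have h3 : (1 + |t|) ^ m ≤ (1 + |t|) ^ m' :=
      Real.rpow_le_rpow_of_exponent_le ht1 (le_max_left _ _)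
    have h4 : 0 ≤ (1 + |t|) ^ m := by positivity
    calc C * (1 + |t|) ^ m ≤ C' * (1 + |t|) ^ m := mul_le_mul_of_nonneg_right (le_max_left _ _) h4
      _ ≤ C' * (1 + |t|) ^ m' := mul_le_mul_of_nonneg_left h3 hC0
  have e2 : ‖f (x + t * Complex.I)‖ ^ p ≤ C' ^ p * (1 + |t|) ^ (m' * p) := by
    calc ‖f (x + t * Complex.I)‖ ^ p ≤ (C' * (1 + |t|) ^ m') ^ p :=
          Real.rpow_le_rpow (norm_nonneg _) e1 hp.le
      _ = C' ^ p * (1 + |t|) ^ (m' * p) := by
          rw [Real.mul_rpow hC0 (by positivity), ← Real.rpow_mul (by positivity)]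
  have e3 : Real.exp (x ^ 2 / (2 * v) + κ * x) ≤ K := by
    have := hK x ⟨hx1.le, hx2.le⟩
    simp only [Real.norm_eq_abs, abs_of_pos (Real.exp_pos _)] at this
    exact this
  have e4 : 0 ≤ K := (Real.exp_pos _).le.trans e3
  calc ‖f (x + t * Complex.I)‖ ^ p *
      (Real.exp (x ^ 2 / (2 * v) + κ * x) * Real.exp (-(t - τ) ^ 2 / (2 * v)))
      ≤ (C' ^ p * (1 + |t|) ^ (m' * p)) * (K * Real.exp (-(t - τ) ^ 2 / (2 * v))) := by
        apply mul_le_mul e2 _ (by positivity) (by positivity)
        exact mul_le_mul_of_nonneg_right e3 (Real.exp_pos _).le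
    _ = _ := by ring

lemma H_diff (hf : DifferentiableOn ℂ f {s : ℂ | α < s.re ∧ s.re < β}) :
    DifferentiableOn ℂ (H f p τ κ v) {s : ℂ | α < s.re ∧ s.re < β} := by
  unfold H
  apply hf.mul
  apply Differentiable.differentiableOn
  fun_prop

lemma isOpen_strip : IsOpen {s : ℂ | α < s.re ∧ s.re < β} :=
  (isOpen_lt continuous_const Complex.continuous_re).inter
    (isOpen_lt Complex.continuous_re continuous_const)

/-- The integral over the vertical line. -/
noncomputable def G (f : ℂ → ℂ) (p τ κ : ℝ) (v : NNReal) (x : ℝ) : ℝ :=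
  ∫ t : ℝ, ‖H f p τ κ v (x + t * Complex.I)‖ ^ p

lemma cont_rpow (hp : 0 < p) (hf : DifferentiableOn ℂ f {s : ℂ | α < s.re ∧ s.re < β}) :
    ContinuousOn (fun s => ‖H f p τ κ v s‖ ^ p) {s : ℂ | α < s.re ∧ s.re < β} :=
  ((H_diff hf).continuousOn.norm).rpow_const fun _ _ => Or.inr hp.le

lemma cont_line (hp : 0 < p) (hf : DifferentiableOn ℂ f {s : ℂ | α < s.re ∧ s.re < β}) {x : ℝ}
    (h1 : α < x) (h2 : x < β) :
    Continuous fun t : ℝ => ‖H f p τ κ v (x + t * Complex.I)‖ ^ p := by
  apply (cont_rpow (τ := τ) (κ := κ) (v := v) hp hf).comp_continuous (by fun_prop)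
  intro t
  simpa using ⟨h1, h2⟩

lemma integrable_line (hp : 0 < p) (hv : v ≠ 0)
    (hf : DifferentiableOn ℂ f {s : ℂ | α < s.re ∧ s.re < β})
    (hg : ∃ C m : ℝ, ∀ s : ℂ, α < s.re → s.re < β → ‖f s‖ ≤ C * (1 + |s.im|) ^ m) {x : ℝ}
    (h1 : α < x) (h2 : x < β) :
    Integrable fun t : ℝ => ‖H f p τ κ v (x + t * Complex.I)‖ ^ p := by
  obtain ⟨B, hB, h⟩ := exists_bound (τ := τ) (κ := κ) hp hv hg
  refine hB.mono' (cont_line hp hf h1 h2).aestronglyMeasurable (ae_of_all _ fun t => ?_)
  rw [Real.norm_eq_abs, abs_of_nonneg (by positivity)]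
  exact h x h1 h2 t

lemma G_cont (hp : 0 < p) (hv : v ≠ 0)
    (hf : DifferentiableOn ℂ f {s : ℂ | α < s.re ∧ s.re < β})
    (hg : ∃ C m : ℝ, ∀ s : ℂ, α < s.re → s.re < β → ‖f s‖ ≤ C * (1 + |s.im|) ^ m) :
    ContinuousOn (G f p τ κ v) (Ioo α β) := by
  obtain ⟨B, hB, h⟩ := exists_bound (τ := τ) (κ := κ) hp hv hg
  unfold G
  apply continuousOn_of_dominated (bound := B)
  · intro x hx
    exact (cont_line hp hf hx.1 hx.2).aestronglyMeasurable
  · intro x hx
    refine ae_of_all _ fun t => ?_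
    rw [Real.norm_eq_abs, abs_of_nonneg (by positivity)]
    exact h x hx.1 hx.2 t
  · exact hB
  · refine ae_of_all _ fun t => ?_
    apply (cont_rpow (τ := τ) (κ := κ) (v := v) hp hf).comp (by fun_prop)
    intro x hx
    simpa using hx

lemma G_submean (hp : 0 < p) (hv : v ≠ 0)
    (hf : DifferentiableOn ℂ f {s : ℂ | α < s.re ∧ s.re < β})
    (hg : ∃ C m : ℝ, ∀ s : ℂ, α < s.re → s.re < β → ‖f s‖ ≤ C * (1 + |s.im|) ^ m)
    {x r : ℝ} (hr : 0 < r) (h1 : α < x - r) (h2 : x + r < β) :
    G f p τ κ v x ≤ (2 * Real.pi)⁻¹ *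
      ∫ θ in (0:ℝ)..(2 * Real.pi), G f p τ κ v (x + r * Real.cos θ) := by
  have hpi : (0:ℝ) ≤ 2 * Real.pi := by positivity
  have hin : ∀ θ : ℝ, α < x + r * Real.cos θ ∧ x + r * Real.cos θ < β := by
    intro θ
    constructor
    · nlinarith [Real.neg_one_le_cos θ]
    · nlinarith [Real.cos_le_one θ]
  set Φ : ℂ → ℝ := fun s => ‖H f p τ κ v s‖ ^ p with hΦ
  have hΦc : ContinuousOn Φ {s : ℂ | α < s.re ∧ s.re < β} := cont_rpow hp hf
  set F : ℝ × ℝ → ℝ := fun q => Φ (circleMap (x + q.1 * Complex.I) r q.2) with hF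
  have hcm : ∀ t θ : ℝ, circleMap (x + t * Complex.I) r θ =
      ((x + r * Real.cos θ : ℝ) : ℂ) + ((t + r * Real.sin θ : ℝ) : ℂ) * Complex.I := by
    intro t θ
    rw [circleMap, Complex.exp_mul_I]
    push_cast
    ring
  have hFeq : ∀ t θ : ℝ, F (t, θ) =
      Φ (((x + r * Real.cos θ : ℝ) : ℂ) + ((t + r * Real.sin θ : ℝ) : ℂ) * Complex.I) := by
    intro t θ
    simp only [hF, hcm]
  have hFc : Continuous F := by
    apply hΦc.comp_continuous
    · unfold circleMap
      fun_prop
    · rintro ⟨t, θ⟩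
      have h3 := hin θ
      simp only [mem_ofPred_eq, hcm, Complex.add_re, Complex.ofReal_re, Complex.re_ofReal_mul,
        Complex.I_re, mul_zero, add_zero]
      exact h3
  have hF0 : ∀ q, 0 ≤ F q := by
    intro q
    simp only [hF, hΦ]
    positivity
  have hint1 : ∀ θ : ℝ, Integrable fun t : ℝ => F (t, θ) := by
    intro θ
    simp_rw [hFeq]
    exact (integrable_line (τ := τ) (κ := κ) hp hv hf hg (hin θ).1 (hin θ).2).comp_add_right
      (r * Real.sin θ)
  have hval : ∀ θ : ℝ, ∫ t : ℝ, F (t, θ) = G f p τ κ v (x + r * Real.cos θ) := by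
    intro θ
    simp_rw [hFeq]
    exact integral_add_right_eq_self
      (fun t : ℝ => Φ (((x + r * Real.cos θ : ℝ) : ℂ) + (t : ℂ) * Complex.I)) (r * Real.sin θ)
  have hGc : Continuous fun θ : ℝ => G f p τ κ v (x + r * Real.cos θ) :=
    (G_cont (τ := τ) (κ := κ) hp hv hf hg).comp_continuous (by fun_prop) hin
  have hprod : Integrable F (volume.prod (volume.restrict (Ioc 0 (2 * Real.pi)))) := by
    rw [integrable_prod_iff' hFc.aestronglyMeasurable]
    refine ⟨ae_of_all _ hint1, ?_⟩
    have e : (fun θ : ℝ => ∫ t : ℝ, ‖F (t, θ)‖) = fun θ : ℝ => G f p τ κ v (x + r * Real.cos θ) := by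
      funext θ
      rw [← hval]
      congr 1
      funext t
      rw [Real.norm_eq_abs, abs_of_nonneg (hF0 _)]
    rw [e]
    have := hGc.intervalIntegrable (μ := volume) 0 (2 * Real.pi)
    rw [intervalIntegrable_iff_integrableOn_Ioc_of_le hpi] at this
    exact this
  have hA : AnalyticOnNhd ℂ (H f p τ κ v) {s : ℂ | α < s.re ∧ s.re < β} :=
    (H_diff hf).analyticOnNhd isOpen_strip
  have hpt : ∀ t : ℝ, Φ (x + t * Complex.I) ≤
      (2 * Real.pi)⁻¹ * ∫ θ in Ioc 0 (2 * Real.pi), F (t, θ) := by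
    intro t
    have hsub : closedBall (x + t * Complex.I : ℂ) |r| ⊆ {s : ℂ | α < s.re ∧ s.re < β} := by
      intro s hs
      rw [mem_closedBall, dist_eq_norm, abs_of_pos hr] at hs
      have h3 := Complex.abs_re_le_norm (s - (x + t * Complex.I))
      have h4 : (s - (x + t * Complex.I)).re = s.re - x := by simp
      rw [h4] at h3
      have h5 := abs_le.mp (h3.trans hs)
      constructor
      · linarith [h5.1]
      · linarith [h5.2]
    have := norm_rpow_le_circleAverage (R := r) hr.ne' hp (hA.mono hsub)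
    rw [Real.circleAverage, intervalIntegral.integral_of_le hpi] at this
    exact this
  calc G f p τ κ v x = ∫ t : ℝ, Φ (x + t * Complex.I) := rfl
    _ ≤ ∫ t : ℝ, (2 * Real.pi)⁻¹ * ∫ θ in Ioc 0 (2 * Real.pi), F (t, θ) := by
        apply integral_mono
        · exact integrable_line hp hv hf hg (by linarith) (by linarith)
        · exact (hprod.integral_prod_left).const_mul _
        · exact hpt
    _ = (2 * Real.pi)⁻¹ * ∫ t : ℝ, ∫ θ in Ioc 0 (2 * Real.pi), F (t, θ) := by
        rw [integral_const_mul]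
    _ = (2 * Real.pi)⁻¹ * ∫ θ in Ioc 0 (2 * Real.pi), ∫ t : ℝ, F (t, θ) := by
        rw [integral_integral_swap]
        exact hprod
    _ = _ := by
        simp_rw [hval]
        rw [intervalIntegral.integral_of_le hpi]

end

end Convex

open Pool.Agent.Lib.MP_973905_nt.Convex in
/-- M1: log-convexity of Gaussian weighted `L^p` means on vertical lines. -/
theorem gauss_convex {f : ℂ → ℂ} {a b α β p τ x A B : ℝ} {v : NNReal}
    (hα : α < a) (hab : a < b) (hβ : b < β) (hp : 0 < p) (hv : v ≠ 0)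
    (hf : DifferentiableOn ℂ f {s : ℂ | α < s.re ∧ s.re < β})
    (hg : ∃ C m : ℝ, ∀ s : ℂ, α < s.re → s.re < β → ‖f s‖ ≤ C * (1 + |s.im|) ^ m)
    (hx : x ∈ Set.Icc a b) (hA0 : 0 < A) (hB0 : 0 < B)
    (hA : ∫ t : ℝ, ‖f (a + t * Complex.I)‖ ^ p ∂(gaussianReal τ v) ≤ A)
    (hB : ∫ t : ℝ, ‖f (b + t * Complex.I)‖ ^ p ∂(gaussianReal τ v) ≤ B) :
    ∫ t : ℝ, ‖f (x + t * Complex.I)‖ ^ p ∂(gaussianReal τ v) ≤
      A ^ ((b - x) / (b - a)) * B ^ ((x - a) / (b - a)) *
        Real.exp ((x - a) * (b - x) / (2 * v)) := by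
  have hv' : (0:ℝ) < v := by positivity
  have hba : 0 < b - a := by linarith
  set N : ℝ := √(2 * Real.pi * v) with hN
  have hN0 : 0 < N := by positivity
  -- relation between `G` and the Gaussian mean
  have hrel : ∀ κ y : ℝ, G f p τ κ v y = N * Real.exp (y ^ 2 / (2 * v) + κ * y) *
      ∫ t : ℝ, ‖f (y + t * Complex.I)‖ ^ p ∂(gaussianReal τ v) := by
    intro κ y
    rw [integral_gaussianReal_eq_integral_smul hv, ← integral_const_mul, G]
    congr 1
    funext t
    rw [norm_H_rpow hp hv, gaussianPDFReal, smul_eq_mul, ← hN]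
    have hNN : N * N⁻¹ = 1 := mul_inv_cancel₀ hN0.ne'
    linear_combination (-(‖f (y + t * Complex.I)‖ ^ p * (Real.exp (y ^ 2 / (2 * v) + κ * y) *
      Real.exp (-(t - τ) ^ 2 / (2 * v))))) * hNN
  set κ : ℝ := (Real.log A + a ^ 2 / (2 * v) - (Real.log B + b ^ 2 / (2 * v))) / (b - a) with hκ
  set L : ℝ := Real.log A + a ^ 2 / (2 * v) + κ * a with hL
  have hκ' : κ * (b - a) = Real.log A + a ^ 2 / (2 * v) - (Real.log B + b ^ 2 / (2 * v)) := by
    rw [hκ, div_mul_cancel₀ _ hba.ne']
  have hL' : L = Real.log B + b ^ 2 / (2 * v) + κ * b := by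
    rw [hL]
    linarith
  have hGa : G f p τ κ v a ≤ N * Real.exp L := by
    rw [hrel]
    have e : Real.exp L = Real.exp (a ^ 2 / (2 * v) + κ * a) * A := by
      rw [hL, ← Real.exp_log hA0, ← Real.exp_add, Real.log_exp]
      congr 1
      ring
    rw [e, mul_assoc]
    gcongr
  have hGb : G f p τ κ v b ≤ N * Real.exp L := by
    rw [hrel]
    have e : Real.exp L = Real.exp (b ^ 2 / (2 * v) + κ * b) * B := by
      rw [hL', ← Real.exp_log hB0, ← Real.exp_add, Real.log_exp]
      congr 1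
      ring
    rw [e, mul_assoc]
    gcongr
  have hcont : ContinuousOn (G f p τ κ v) (Icc a b) :=
    (G_cont (τ := τ) (κ := κ) hp hv hf hg).mono (Icc_subset_Ioo hα hβ)
  have hmax := le_max_of_submean hab hcont (fun y r hr h1 h2 =>
    G_submean hp hv hf hg hr (by linarith) (by linarith)) x hx
  have hGx : G f p τ κ v x ≤ N * Real.exp L := hmax.trans (max_le hGa hGb)
  rw [hrel] at hGx
  have hfin : ∫ t : ℝ, ‖f (x + t * Complex.I)‖ ^ p ∂(gaussianReal τ v) ≤
      Real.exp (L - (x ^ 2 / (2 * v) + κ * x)) := by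
    rw [Real.exp_sub, le_div_iff₀ (Real.exp_pos _)]
    rw [mul_assoc] at hGx
    have := le_of_mul_le_mul_left hGx hN0
    linarith
  refine hfin.trans (le_of_eq ?_)
  rw [Real.rpow_def_of_pos hA0, Real.rpow_def_of_pos hB0, ← Real.exp_add, ← Real.exp_add]
  congr 1
  rw [hL, hκ]
  field_simp
  ring

end Pool.Agent.Lib.MP_973905_nt
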