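import Pool.Agent.Lib.MP_973905_nt.Blocks

namespace Pool.Agent.Lib.MP_973905_nt

open MeasureTheory ProbabilityTheory Complex Filter Topology

/-- The remainder of the logarithm. -/
noncomputable def rem (A : ℕ) (v : ℂ) : ℂ := Complex.log (1 - v)⁻¹ - QQ A v

lemma logTaylor_neg (A : ℕ) (v : ℂ) : logTaylor (A + 1) (-v) = -QQ A v := by
  unfold logTaylor QQ
  rw [Finset.sum_range_succ', ← Finset.sum_neg_distrib]
  rw [show (-1 : ℂ) ^ (0 + 1) * (-v) ^ 0 / ((0 : ℕ) : ℂ) = 0 by simp, add_zero]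
  rw [Finset.range_eq_Ico, Finset.sum_Ico_add' (fun j : ℕ => (-1 : ℂ) ^ (j + 1) * (-v) ^ j / (j : ℂ)) 0 A 1]
  rw [show Finset.Ico (0 + 1) (A + 1) = Finset.Icc 1 A by ext x; rw [Finset.mem_Ico, Finset.mem_Icc]; omega]
  refine Finset.sum_congr rfl fun j _ => ?_
  rw [neg_pow v j, pow_succ, ← mul_assoc, ← neg_div]
  congr 1
  have : ((-1 : ℂ) ^ j) * ((-1) ^ j) = 1 := by rw [← mul_pow]; simp
  linear_combination (-v ^ j) * this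

lemma norm_rem_le (A : ℕ) {v : ℂ} (hv : ‖v‖ ≤ 3 / 4) : ‖rem A v‖ ≤ 4 * ‖v‖ ^ (A + 1) := by
  have h := norm_log_one_sub_inv_add_logTaylor_neg_le A (lt_of_le_of_lt hv (by norm_num) : ‖v‖ < 1)
  rw [logTaylor_neg, ← sub_eq_add_neg] at h
  refine h.trans ?_
  have h1 : (1 - ‖v‖)⁻¹ ≤ 4 := by
    rw [inv_le_comm₀ (by linarith) (by norm_num)]; linarith
  have h2 : (0 : ℝ) < (A : ℝ) + 1 := by positivity
  calc ‖v‖ ^ (A + 1) * (1 - ‖v‖)⁻¹ / (A + 1) ≤ ‖v‖ ^ (A + 1) * 4 / (A + 1) := by gcongr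
    _ ≤ ‖v‖ ^ (A + 1) * 4 := div_le_self (by positivity) (by linarith [(Nat.cast_nonneg A : (0:ℝ) ≤ A)])
    _ = _ := by ring

lemma inv_eq_exp (A : ℕ) {v : ℂ} (hv : ‖v‖ ≤ 3 / 4) : (1 - v)⁻¹ = cexp (QQ A v + rem A v) := by
  rw [rem, add_sub_cancel, exp_log]
  apply inv_ne_zero
  intro h
  rw [← sub_eq_zero.mp h] at hv
  norm_num at hv

/-- Sum of the remainders over a block. -/
noncomputable def Rm (A : ℕ) (S : Finset ℕ) (f : ℕ → ℂ) : ℂ := ∑ p ∈ S, rem A (f p)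

/-- The bound for the remainders. -/
noncomputable def rho (A : ℕ) (S : Finset ℕ) : ℝ := ∑ p ∈ S, 4 * ((p : ℝ) ^ (-(1 / 2) : ℝ)) ^ (A + 1)

lemma rho_nonneg (A : ℕ) (S : Finset ℕ) : 0 ≤ rho A S := Finset.sum_nonneg fun p _ => by positivity

lemma ZZ_eq_exp (A : ℕ) {S : Finset ℕ} {f : ℕ → ℂ} (h : ∀ p ∈ S, ‖f p‖ ≤ 3 / 4) :
    ZZ S f = cexp (Pj A S f + Rm A S f) := by
  rw [ZZ, Pj, Rm, ← Finset.sum_add_distrib, exp_sum]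
  exact Finset.prod_congr rfl fun p hp => inv_eq_exp A (h p hp)

lemma prime_rpow_le {p : ℕ} (hp : p.Prime) {σ : ℝ} (hσ : 1 / 2 ≤ σ) :
    (p : ℝ) ^ (-σ) ≤ (p : ℝ) ^ (-(1 / 2) : ℝ) ∧ (p : ℝ) ^ (-σ) ≤ 3 / 4 := by
  have h1 : (1 : ℝ) ≤ p := by exact_mod_cast hp.one_lt.le
  have h2 : (2 : ℝ) ≤ p := by exact_mod_cast hp.two_le
  have h3 : (p : ℝ) ^ (-σ) ≤ (p : ℝ) ^ (-(1 / 2) : ℝ) :=
    Real.rpow_le_rpow_of_exponent_le h1 (by linarith)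
  refine ⟨h3, h3.trans ?_⟩
  calc (p : ℝ) ^ (-(1 / 2) : ℝ) ≤ (2 : ℝ) ^ (-(1 / 2) : ℝ) :=
        Real.rpow_le_rpow_of_nonpos (by norm_num) h2 (by norm_num)
    _ ≤ 3 / 4 := by
        rw [Real.rpow_neg (by norm_num), inv_le_comm₀ (by positivity) (by norm_num),
          ← Real.sqrt_eq_rpow]
        apply Real.le_sqrt_of_sq_le
        norm_num

lemma norm_tw_uni {f : ℕ → ℂ} (hf : ∀ n, ‖f n‖ = 1) (w : ℂ) {n : ℕ} (hn : n ≠ 0) :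
    ‖tw w f n‖ = (n : ℝ) ^ (-w.re) := by
  rw [tw, norm_mul, hf, mul_one]
  exact norm_fs w hn

lemma norm_Rm_le (A : ℕ) {S : Finset ℕ} (hS : ∀ p ∈ S, p.Prime) {σ : ℝ} (hσ : 1 / 2 ≤ σ)
    {f : ℕ → ℂ} (hf : ∀ n, ‖f n‖ = 1) : ‖Rm A S (tw σ f)‖ ≤ rho A S := by
  refine (norm_sum_le _ _).trans (Finset.sum_le_sum fun p hp => ?_)
  have h1 := prime_rpow_le (hS p hp) hσ
  have h2 : ‖tw σ f p‖ = (p : ℝ) ^ (-σ) := by
    rw [norm_tw_uni hf _ (hS p hp).ne_zero, ofReal_re]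
  refine (norm_rem_le A (by rw [h2]; exact h1.2)).trans ?_
  rw [h2]
  exact mul_le_mul_of_nonneg_left (pow_le_pow_left₀ (by positivity) h1.1 _) (by norm_num)

section pointwise

variable {A : ℕ} {S : Finset ℕ} {σ : ℝ} {f : ℕ → ℂ} {k : ℝ}

lemma ZZ_tw_eq (A : ℕ) (hS : ∀ p ∈ S, p.Prime) (hσ : 1 / 2 ≤ σ) (hf : ∀ n, ‖f n‖ = 1) :
    ZZ S (tw σ f) = cexp (Pj A S (tw σ f) + Rm A S (tw σ f)) := by
  apply ZZ_eq_exp
  intro p hp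
  rw [norm_tw_uni hf _ (hS p hp).ne_zero, ofReal_re]
  exact (prime_rpow_le (hS p hp) hσ).2

lemma norm_ZZ_rpow (A : ℕ) (hS : ∀ p ∈ S, p.Prime) (hσ : 1 / 2 ≤ σ) (hf : ∀ n, ‖f n‖ = 1) (k : ℝ) :
    ‖ZZ S (tw σ f)‖ ^ (2 * k) =
      Real.exp (2 * k * (Pj A S (tw σ f)).re + 2 * k * (Rm A S (tw σ f)).re) := by
  rw [ZZ_tw_eq A hS hσ hf, norm_exp, ← Real.exp_mul]
  congr 1
  rw [add_re]; ring

lemma pt_one (hS : ∀ p ∈ S, p.Prime) (hσ : 1 / 2 ≤ σ) (hf : ∀ n, ‖f n‖ = 1) (hk0 : 0 ≤ k)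
    (hk1 : k ≤ 1) :
    ‖ZZ S (tw σ f) * cexp (((k - 1 : ℝ) : ℂ) * Pj A S (tw σ f))‖ ^ 2 ≤
      Real.exp (2 * rho A S) * ‖ZZ S (tw σ f)‖ ^ (2 * k) := by
  rw [norm_ZZ_rpow A hS hσ hf, ZZ_tw_eq A hS hσ hf, ← exp_add, norm_exp, ← Real.exp_nat_mul,
    ← Real.exp_add]
  apply Real.exp_le_exp.mpr
  have h1 := abs_re_le_norm (Rm A S (tw σ f))
  have h2 := norm_Rm_le A hS hσ hf
  have h3 := (abs_le.mp (h1.trans h2)).2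
  have h4 := rho_nonneg A S
  rw [add_re, add_re, re_ofReal_mul]
  push_cast
  nlinarith

lemma pt_two (hS : ∀ p ∈ S, p.Prime) (hσ : 1 / 2 ≤ σ) (hf : ∀ n, ‖f n‖ = 1) (hk0 : 0 ≤ k)
    (hk1 : k ≤ 1) :
    ‖cexp ((k : ℂ) * Pj A S (tw σ f))‖ ^ 2 ≤
      Real.exp (2 * rho A S) * ‖ZZ S (tw σ f)‖ ^ (2 * k) := by
  rw [norm_ZZ_rpow A hS hσ hf, norm_exp, ← Real.exp_nat_mul, ← Real.exp_add]
  apply Real.exp_le_exp.mpr
  have h1 := abs_re_le_norm (Rm A S (tw σ f))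
  have h2 := norm_Rm_le A hS hσ hf
  have h3 := (abs_le.mp (h1.trans h2)).1
  have h4 := rho_nonneg A S
  rw [re_ofReal_mul]
  push_cast
  nlinarith

lemma norm_exp_sub_one_le' (z : ℂ) : ‖cexp z - 1‖ ≤ Real.exp ‖z‖ - 1 := by
  have := norm_exp_sub_sum_le_exp_norm_sub_sum z 1
  simpa using this

lemma pt_three (hS : ∀ p ∈ S, p.Prime) (hσ : 1 / 2 ≤ σ) (hf : ∀ n, ‖f n‖ = 1) (hk0 : 0 ≤ k)
    (hk1 : k ≤ 1) :
    ‖ZZ S (tw σ f) * cexp (((k - 1 : ℝ) : ℂ) * Pj A S (tw σ f)) *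
        (starRingEnd ℂ) (cexp ((k : ℂ) * Pj A S (tw σ f))) - ((‖ZZ S (tw σ f)‖ ^ (2 * k) : ℝ) : ℂ)‖ ≤
      (Real.exp (3 * rho A S) - 1) * ‖ZZ S (tw σ f)‖ ^ (2 * k) := by
  rw [norm_ZZ_rpow A hS hσ hf, ZZ_tw_eq A hS hσ hf, ← exp_conj, ← exp_add, ← exp_add]
  set P := Pj A S (tw σ f)
  set R := Rm A S (tw σ f)
  have h2 : ‖R‖ ≤ rho A S := norm_Rm_le A hS hσ hf
  set W : ℝ := 2 * k * P.re + 2 * k * R.re with hW
  have e1 : P + R + ((k - 1 : ℝ) : ℂ) * P + (starRingEnd ℂ) ((k : ℂ) * P) =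
      (R - ((2 * k * R.re : ℝ) : ℂ)) + (W : ℂ) := by
    have h3 : P + (starRingEnd ℂ) P = ((2 * P.re : ℝ) : ℂ) := add_conj P
    rw [map_mul, conj_ofReal, hW]
    push_cast at h3 ⊢
    linear_combination (k : ℂ) * h3
  rw [e1, exp_add, show ((Real.exp W : ℝ) : ℂ) = cexp (W : ℂ) by push_cast; rfl,
    ← sub_one_mul, norm_mul]
  have e2 : ‖cexp (W : ℂ)‖ = Real.exp W := by rw [norm_exp]; simp
  rw [e2]
  gcongr
  refine (norm_exp_sub_one_le' _).trans ?_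
  gcongr
  refine (norm_sub_le _ _).trans ?_
  rw [norm_real, Real.norm_eq_abs]
  have h5 : |2 * k * R.re| ≤ 2 * rho A S := by
    rw [abs_mul, abs_of_nonneg (by positivity : (0:ℝ) ≤ 2 * k)]
    have := (abs_re_le_norm R).trans h2
    have h0 := abs_nonneg R.re
    nlinarith [rho_nonneg A S]
  linarith

end pointwise

end Pool.Agent.Lib.MP_973905_nt
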