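import Pool.Agent.Lib.MP_973905_nt.Core1

namespace Pool.Agent.Lib.MP_973905_nt

open MeasureTheory ProbabilityTheory Complex Filter Topology

/-- The block normaliser `E|Z|^{2k}`. -/
noncomputable def DS (k σ : ℝ) (S : Finset ℕ) : ℝ := ES S (fun f => ‖ZZ S (tw σ f)‖ ^ (2 * k))

lemma ZZ_ne_zero {S : Finset ℕ} (hS : ∀ p ∈ S, p.Prime) {σ : ℝ} (hσ : 0 < σ) {f : ℕ → ℂ}
    (hf : ∀ n, ‖f n‖ = 1) : ZZ S (tw σ f) ≠ 0 := by
  rw [ZZ, Finset.prod_ne_zero_iff]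
  intro p hp
  apply inv_ne_zero
  intro h
  have h1 : ‖tw σ f p‖ < 1 := by
    rw [norm_tw_uni hf _ (hS p hp).ne_zero]
    apply Real.rpow_lt_one_of_one_lt_of_neg
    · exact_mod_cast (hS p hp).one_lt
    · simp [hσ]
  rw [← sub_eq_zero.mp h] at h1
  simp at h1

lemma bs_ZZ_rpow {S : Finset ℕ} (hS : ∀ p ∈ S, p.Prime) {σ : ℝ} (hσ : 1 / 2 ≤ σ) (k : ℝ) (hk : 0 ≤ k) :
    BS S (fun f => ‖ZZ S (tw σ f)‖ ^ (2 * k)) := by
  have hσ0 : 0 < (σ : ℂ).re := by rw [ofReal_re]; linarith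
  obtain ⟨h1, C, h2⟩ := bs_ZZ (S := S) hS hσ0
  refine ⟨?_, C ^ (2 * k), fun ω => ?_⟩
  · exact h1.norm.rpow_const fun ω => Or.inl (norm_ne_zero_iff.mpr
      (ZZ_ne_zero hS (by linarith) (norm_ext S ω)))
  · rw [Real.norm_eq_abs, abs_of_nonneg (Real.rpow_nonneg (norm_nonneg _) _)]
    exact Real.rpow_le_rpow (norm_nonneg _) (h2 ω) (by linarith)

lemma ES_const_mul (S : Finset ℕ) (c : ℝ) (F : (ℕ → ℂ) → ℝ) :
    ES S (fun f => c * F f) = c * ES S F := integral_const_mul c _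

lemma ES_add {E : Type*} [NormedAddCommGroup E] [NormedSpace ℝ E] {S : Finset ℕ}
    {F G : (ℕ → ℂ) → E} (hF : BS S F) (hG : BS S G) :
    ES S (fun f => F f + G f) = ES S F + ES S G := integral_add hF.integrable hG.integrable

lemma ES_nonneg {S : Finset ℕ} {F : (ℕ → ℂ) → ℝ} (h : ∀ ω, 0 ≤ F (ext S ω)) : 0 ≤ ES S F :=
  integral_nonneg h

lemma BS.exp_norm {S : Finset ℕ} {F : (ℕ → ℂ) → ℂ} (hF : BS S F) (q : ℝ) (hq : 0 ≤ q) :
    BS S (fun f => Real.exp (q * ‖F f‖)) := by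
  obtain ⟨h1, C, h2⟩ := hF
  refine ⟨Real.continuous_exp.comp (h1.norm.const_mul q), Real.exp (q * C), fun ω => ?_⟩
  rw [Real.norm_eq_abs, abs_of_pos (Real.exp_pos _)]
  apply Real.exp_le_exp.mpr
  exact mul_le_mul_of_nonneg_left (h2 ω) hq

lemma BS.mul_real {S : Finset ℕ} {F G : (ℕ → ℂ) → ℝ} (hF : BS S F) (hG : BS S G) :
    BS S (fun f => F f * G f) := by
  obtain ⟨h1, C, h2⟩ := hF
  obtain ⟨h1', C', h2'⟩ := hG
  refine ⟨h1.mul h1', C * C', fun ω => ?_⟩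
  rw [norm_mul]
  exact mul_le_mul (h2 ω) (h2' ω) (norm_nonneg _) ((norm_nonneg _).trans (h2 ω))

lemma BS.conj {S : Finset ℕ} {F : (ℕ → ℂ) → ℂ} (hF : BS S F) :
    BS S (fun f => (starRingEnd ℂ) (F f)) := by
  obtain ⟨h1, C, h2⟩ := hF
  exact ⟨continuous_conj.comp h1, C, fun ω => by rw [RCLike.norm_conj]; exact h2 ω⟩

lemma sq_add_le_eta {a b η : ℝ} (hη : 0 < η) : (a + b) ^ 2 ≤ (1 + η) * a ^ 2 + (1 + 1 / η) * b ^ 2 := by
  have h : 0 ≤ (η * a - b) ^ 2 / η := by positivity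
  have e : (η * a - b) ^ 2 / η = η * a ^ 2 - 2 * a * b + (1 / η) * b ^ 2 := by
    field_simp; ring
  nlinarith

theorem block_core : ∃ C₁ : ℝ, 0 < C₁ ∧ ∀ (A l : ℕ) (S : Finset ℕ) (σ k : ℝ), 1 ≤ A →
    (∀ p ∈ S, p.Prime) → 1 / 2 ≤ σ → 0 ≤ k → k ≤ 1 → 1 ≤ DS k σ S →
    16 * Real.exp (C₁ * ∑ p ∈ S, (p : ℝ) ^ (-(2 * σ))) ≤ Real.exp (l / 2) →
    ES S (fun f => ‖ZZ S (tw σ f) * Ntr l (k - 1) (Pj A S (tw σ f))‖ ^ 2) ≤
      DS k σ S * Real.exp (2 * rho A S + 3 * Real.exp (-(l / 2))) ∧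
    ES S (fun f => ‖Ntr l k (Pj A S (tw σ f))‖ ^ 2) ≤
      DS k σ S * Real.exp (2 * rho A S + 3 * Real.exp (-(l / 2))) ∧
    ‖ES S (fun f => ZZ S (tw σ f) * Ntr l (k - 1) (Pj A S (tw σ f)) *
        (starRingEnd ℂ) (Ntr l k (Pj A S (tw σ f)))) - (DS k σ S : ℂ)‖ ≤
      DS k σ S * (Real.exp (3 * rho A S) - 1 + 2 * Real.exp (-(l / 2))) ∧
    ∀ (r : ℕ) (F : (ℕ → ℂ) → ℂ), (∀ f, ‖F f‖ ≤ (1 / 4) ^ r * Real.exp (2 * ‖Pj A S f‖)) →
      ES S (fun f => ‖F (tw σ f)‖ ^ 2) ≤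
        (1 / 16) ^ r * (16 * Real.exp (C₁ * ∑ p ∈ S, (p : ℝ) ^ (-(2 * σ)))) := by
  obtain ⟨C2, hC2, h2⟩ := ES_exp_norm (q := 2) (by norm_num)
  obtain ⟨C3, hC3, h3⟩ := ES_exp_norm (q := 3) (by norm_num)
  obtain ⟨C4, hC4, h4⟩ := ES_exp_norm (q := 4) (by norm_num)
  refine ⟨C2 + C3 + C4 + 1, by positivity, fun A l S σ k hA hS hσ hk0 hk1 hDS hcond => ?_⟩
  set C₁ := C2 + C3 + C4 + 1 with hC1
  have hσ0 : 0 < (σ : ℂ).re := by rw [ofReal_re]; linarith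
  have hy : ∀ p ∈ S, yp (σ : ℂ).re σ p ≤ 3 / 4 := by
    intro p hp
    rw [ofReal_re, yp, max_self]
    exact (prime_rpow_le (hS p hp) hσ).2
  have hsum : ∑ p ∈ S, (yp (σ : ℂ).re σ p) ^ 2 = ∑ p ∈ S, (p : ℝ) ^ (-(2 * σ)) := by
    refine Finset.sum_congr rfl fun p _ => ?_
    rw [ofReal_re, yp, max_self, ← Real.rpow_natCast, ← Real.rpow_mul (by positivity)]
    congr 1; push_cast; ring
  have hsum0 : 0 ≤ ∑ p ∈ S, (p : ℝ) ^ (-(2 * σ)) := Finset.sum_nonneg fun p _ => by positivity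
  set B := ∑ p ∈ S, (p : ℝ) ^ (-(2 * σ)) with hB
  set E := 16 * Real.exp (C₁ * B) with hE
  have m2 : ∀ n, n ≤ 2 → ES S (fun f => ‖(ZZ S (tw σ f)) ^ n‖ ^ 2 *
      Real.exp (2 * ‖Pj A S (tw σ f)‖) ^ 2) ≤ E := by
    intro n hn
    refine (h2 A n S σ σ hA hn hσ0 hS hy).trans ?_
    rw [hsum, hE]; gcongr; linarith
  have m3 : ∀ n, n ≤ 2 → ES S (fun f => ‖(ZZ S (tw σ f)) ^ n‖ ^ 2 *
      Real.exp (3 * ‖Pj A S (tw σ f)‖) ^ 2) ≤ E := by
    intro n hn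
    refine (h3 A n S σ σ hA hn hσ0 hS hy).trans ?_
    rw [hsum, hE]; gcongr; linarith
  have m4 : ∀ n, n ≤ 2 → ES S (fun f => ‖(ZZ S (tw σ f)) ^ n‖ ^ 2 *
      Real.exp (4 * ‖Pj A S (tw σ f)‖) ^ 2) ≤ E := by
    intro n hn
    refine (h4 A n S σ σ hA hn hσ0 hS hy).trans ?_
    rw [hsum, hE]; gcongr; linarith
  -- basic functionals
  have bZ : BS S (fun f => ZZ S (tw σ f)) := bs_ZZ hS hσ0
  have bP : BS S (fun f => Pj A S (tw σ f)) := bs_Pj A S S σ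
  have bZr := bs_ZZ_rpow hS hσ k hk0
  set η := Real.exp (-((l : ℝ) / 2)) with hη
  have hη0 : 0 < η := Real.exp_pos _
  have hη1 : η ≤ 1 := by rw [hη, Real.exp_le_one_iff, neg_nonpos]; positivity
  have hl1 : Real.exp (-(l : ℝ)) = η ^ 2 := by
    rw [hη, ← Real.exp_nat_mul]; congr 1; push_cast; ring
  have hl2 : Real.exp ((l : ℝ) / 2) = 1 / η := by rw [hη, Real.exp_neg]; field_simp
  have hE1 : E ≤ 1 / η := by rw [← hl2]; exact hcond
  have hρ := rho_nonneg A S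
  -- general second moment estimate
  have second : ∀ (n : ℕ) (α : ℝ), n ≤ 1 → |α| ≤ 1 →
      (∀ ω : S → ℝ, ‖(ZZ S (tw σ (ext S ω))) ^ n * cexp ((α : ℂ) * Pj A S (tw σ (ext S ω)))‖ ^ 2 ≤
        Real.exp (2 * rho A S) * ‖ZZ S (tw σ (ext S ω))‖ ^ (2 * k)) →
      ES S (fun f => ‖(ZZ S (tw σ f)) ^ n * Ntr l α (Pj A S (tw σ f))‖ ^ 2) ≤
        DS k σ S * Real.exp (2 * rho A S + 3 * η) := by
    intro n α hn hα hpt
    have hb := ((bs_const S (1 + 1 / η)).mul_real ((bs_const S (η ^ 2)).mul_real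
      ((bs_const S (η ^ 2)).mul_real ((bZ.pow n).norm_sq.mul_real
        ((bP.exp_norm 3 (by norm_num)).mul_real (bP.exp_norm 3 (by norm_num)))))))
    have ha := (bs_const S ((1 + η) * Real.exp (2 * rho A S))).mul_real bZr
    have key : ES S (fun f => ‖(ZZ S (tw σ f)) ^ n * Ntr l α (Pj A S (tw σ f))‖ ^ 2) ≤
        ES S (fun f => (1 + η) * Real.exp (2 * rho A S) * ‖ZZ S (tw σ f)‖ ^ (2 * k) +
          (1 + 1 / η) * (η ^ 2 * (η ^ 2 * (‖(ZZ S (tw σ f)) ^ n‖ ^ 2 *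
            (Real.exp (3 * ‖Pj A S (tw σ f)‖) * Real.exp (3 * ‖Pj A S (tw σ f)‖)))))) := by
      apply ES_mono
      · intro ω; positivity
      · exact (ha.add hb).integrable
      · intro ω
        set Z := ZZ S (tw σ (ext S ω))
        set P := Pj A S (tw σ (ext S ω))
        have t := Ntr_tail l hα P
        have h5 : ‖Z ^ n * Ntr l α P‖ ≤ ‖Z ^ n * cexp (α * P)‖ + ‖Z ^ n‖ * (η ^ 2 * Real.exp (3 * ‖P‖)) := by
          have e : Z ^ n * Ntr l α P = Z ^ n * cexp (α * P) - Z ^ n * (cexp (α * P) - Ntr l α P) := by ring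
          rw [e]
          refine (norm_sub_le _ _).trans ?_
          gcongr
          rw [norm_mul]
          gcongr
          rw [← hl1]; exact t
        have h6 := pow_le_pow_left₀ (norm_nonneg _) h5 2
        refine h6.trans ((sq_add_le_eta hη0).trans ?_)
        have h7 := hpt ω
        have e2 : (‖Z ^ n‖ * (η ^ 2 * Real.exp (3 * ‖P‖))) ^ 2 =
            η ^ 2 * (η ^ 2 * (‖Z ^ n‖ ^ 2 * (Real.exp (3 * ‖P‖) * Real.exp (3 * ‖P‖)))) := by ring
        rw [e2]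
        have : (1 + η) * ‖Z ^ n * cexp (α * P)‖ ^ 2 ≤
            (1 + η) * Real.exp (2 * rho A S) * ‖Z‖ ^ (2 * k) := by
          rw [mul_assoc]; gcongr
        linarith
    refine key.trans ?_
    rw [ES_add ha hb, ES_const_mul, ES_const_mul, ES_const_mul, ES_const_mul]
    have h8 : ES S (fun f => ‖(ZZ S (tw σ f)) ^ n‖ ^ 2 *
        (Real.exp (3 * ‖Pj A S (tw σ f)‖) * Real.exp (3 * ‖Pj A S (tw σ f)‖))) ≤ 1 / η := by
      refine le_trans (le_of_eq ?_) ((m3 n (by omega)).trans hE1)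
      congr 1; ext f; ring
    have h9 : (1 + 1 / η) * (η ^ 2 * (η ^ 2 * (1 / η))) ≤ 2 * η := by
      have : (1 + 1 / η) * (η ^ 2 * (η ^ 2 * (1 / η))) = η ^ 3 + η ^ 2 := by field_simp
      rw [this]
      have h10 : η ^ 2 ≤ η := by nlinarith
      have h11 : η ^ 3 ≤ η ^ 2 := by nlinarith [sq_nonneg η]
      linarith
    have h12 : (1 + 1 / η) * (η ^ 2 * (η ^ 2 * ES S (fun f => ‖(ZZ S (tw σ f)) ^ n‖ ^ 2 *
        (Real.exp (3 * ‖Pj A S (tw σ f)‖) * Real.exp (3 * ‖Pj A S (tw σ f)‖))))) ≤ 2 * η := by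
      refine le_trans ?_ h9
      gcongr
    have hD0 : 0 ≤ DS k σ S := by linarith
    have hex : 1 ≤ Real.exp (2 * rho A S) := Real.one_le_exp (by positivity)
    calc (1 + η) * Real.exp (2 * rho A S) * ES S (fun f => ‖ZZ S (tw σ f)‖ ^ (2 * k)) +
          (1 + 1 / η) * (η ^ 2 * (η ^ 2 * ES S (fun f => ‖(ZZ S (tw σ f)) ^ n‖ ^ 2 *
        (Real.exp (3 * ‖Pj A S (tw σ f)‖) * Real.exp (3 * ‖Pj A S (tw σ f)‖)))))
        ≤ (1 + η) * Real.exp (2 * rho A S) * DS k σ S + 2 * η := by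
          have : ES S (fun f => ‖ZZ S (tw σ f)‖ ^ (2 * k)) = DS k σ S := rfl
          rw [this]; linarith
      _ ≤ (1 + η) * Real.exp (2 * rho A S) * DS k σ S + 2 * η * (Real.exp (2 * rho A S) * DS k σ S) := by
          have : 1 ≤ Real.exp (2 * rho A S) * DS k σ S := by nlinarith
          nlinarith
      _ = DS k σ S * (Real.exp (2 * rho A S) * (3 * η + 1)) := by ring
      _ ≤ DS k σ S * (Real.exp (2 * rho A S) * Real.exp (3 * η)) := by
          gcongr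
          exact Real.add_one_le_exp _
      _ = _ := by rw [Real.exp_add]
  refine ⟨?_, ?_, ?_, ?_⟩
  · have ha : |k - 1| ≤ 1 := by rw [abs_le]; constructor <;> linarith
    have := second 1 (k - 1) le_rfl ha (fun ω => by
      rw [pow_one]; exact pt_one hS hσ (norm_ext S ω) hk0 hk1)
    simpa using this
  · have ha : |k| ≤ 1 := by rw [abs_le]; constructor <;> linarith
    have := second 0 k (by norm_num) ha (fun ω => by
      rw [pow_zero, one_mul]; exact pt_two hS hσ (norm_ext S ω) hk0 hk1)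
    simpa using this
  · -- the mixed moment
    have ha : |k - 1| ≤ 1 := by rw [abs_le]; constructor <;> linarith
    have hb : |k| ≤ 1 := by rw [abs_le]; constructor <;> linarith
    have b1 : BS S (fun f => ZZ S (tw σ f) * Ntr l (k - 1) (Pj A S (tw σ f)) *
        (starRingEnd ℂ) (Ntr l k (Pj A S (tw σ f)))) :=
      (bZ.mul (bs_Ntr l _ bP)).mul (bs_Ntr l _ bP).conj
    have e0 : (DS k σ S : ℂ) = ES S (fun f => ((‖ZZ S (tw σ f)‖ ^ (2 * k) : ℝ) : ℂ)) := by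
      unfold DS ES
      exact integral_complex_ofReal.symm
    have b2 : Integrable (fun ω : S → ℝ => ((‖ZZ S (tw σ (ext S ω))‖ ^ (2 * k) : ℝ) : ℂ))
        (Measure.pi fun _ => mu0) := bZr.integrable.ofReal
    have e1 : ES S (fun f => ZZ S (tw σ f) * Ntr l (k - 1) (Pj A S (tw σ f)) *
        (starRingEnd ℂ) (Ntr l k (Pj A S (tw σ f)))) - (DS k σ S : ℂ) =
        ES S (fun f => ZZ S (tw σ f) * Ntr l (k - 1) (Pj A S (tw σ f)) *
        (starRingEnd ℂ) (Ntr l k (Pj A S (tw σ f))) - ((‖ZZ S (tw σ f)‖ ^ (2 * k) : ℝ) : ℂ)) := by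
      rw [e0]
      unfold ES
      exact (integral_sub b1.integrable b2).symm
    rw [e1]
    have hbound := ((bs_const S (Real.exp (3 * rho A S) - 1)).mul_real bZr).add
      ((bs_const S (η ^ 2)).mul_real ((bs_const S (1 : ℝ)).add ((bZ.pow 1).norm_sq.mul_real
        ((bP.exp_norm 4 (by norm_num)).mul_real (bP.exp_norm 4 (by norm_num))))))
    have step : ‖ES S (fun f => ZZ S (tw σ f) * Ntr l (k - 1) (Pj A S (tw σ f)) *
        (starRingEnd ℂ) (Ntr l k (Pj A S (tw σ f))) - ((‖ZZ S (tw σ f)‖ ^ (2 * k) : ℝ) : ℂ))‖ ≤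
        ES S (fun f => (Real.exp (3 * rho A S) - 1) * ‖ZZ S (tw σ f)‖ ^ (2 * k) +
          η ^ 2 * (1 + ‖(ZZ S (tw σ f)) ^ 1‖ ^ 2 *
            (Real.exp (4 * ‖Pj A S (tw σ f)‖) * Real.exp (4 * ‖Pj A S (tw σ f)‖)))) := by
      refine (norm_integral_le_integral_norm _).trans ?_
      apply integral_mono_of_nonneg
      · exact Filter.Eventually.of_forall fun ω => norm_nonneg _
      · exact hbound.integrable
      · refine Filter.Eventually.of_forall fun ω => ?_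
        simp only
        set Z := ZZ S (tw σ (ext S ω)) with hZ
        set P := Pj A S (tw σ (ext S ω)) with hP
        have t1 := Ntr_tail l ha P
        have t2 := Ntr_tail l hb P
        rw [hl1] at t1 t2
        have p3 := pt_three (A := A) hS hσ (norm_ext S ω) hk0 hk1
        rw [← hZ, ← hP] at p3
        have n2 := norm_Ntr_le l hb P
        have n1 : ‖cexp (((k - 1 : ℝ) : ℂ) * P)‖ ≤ Real.exp ‖P‖ := by
          rw [norm_exp]
          apply Real.exp_le_exp.mpr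
          refine (re_le_norm _).trans ?_
          rw [norm_mul, norm_real, Real.norm_eq_abs]
          exact mul_le_of_le_one_left (norm_nonneg _) ha
        have e2 : Z * Ntr l (k - 1) P * (starRingEnd ℂ) (Ntr l k P) -
            ((‖Z‖ ^ (2 * k) : ℝ) : ℂ) =
            (Z * cexp (((k - 1 : ℝ) : ℂ) * P) * (starRingEnd ℂ) (cexp ((k : ℂ) * P)) -
              ((‖Z‖ ^ (2 * k) : ℝ) : ℂ)) -
            Z * (cexp (((k - 1 : ℝ) : ℂ) * P) - Ntr l (k - 1) P) * (starRingEnd ℂ) (Ntr l k P) -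
            Z * cexp (((k - 1 : ℝ) : ℂ) * P) * (starRingEnd ℂ) (cexp ((k : ℂ) * P) - Ntr l k P) := by
          rw [map_sub]; ring
        rw [e2]
        have q1 : ‖Z * (cexp (((k - 1 : ℝ) : ℂ) * P) - Ntr l (k - 1) P) *
            (starRingEnd ℂ) (Ntr l k P)‖ ≤ ‖Z‖ * (η ^ 2 * Real.exp (3 * ‖P‖)) * Real.exp ‖P‖ := by
          rw [norm_mul, norm_mul, RCLike.norm_conj]
          gcongr
        have q2 : ‖Z * cexp (((k - 1 : ℝ) : ℂ) * P) *
            (starRingEnd ℂ) (cexp ((k : ℂ) * P) - Ntr l k P)‖ ≤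
            ‖Z‖ * Real.exp ‖P‖ * (η ^ 2 * Real.exp (3 * ‖P‖)) := by
          rw [norm_mul, norm_mul, RCLike.norm_conj]
          gcongr
        have q3 : Real.exp (3 * ‖P‖) * Real.exp ‖P‖ = Real.exp (4 * ‖P‖) := by
          rw [← Real.exp_add]; congr 1; ring
        have q4 : 2 * (‖Z‖ * Real.exp (4 * ‖P‖)) ≤
            1 + ‖Z‖ ^ 2 * (Real.exp (4 * ‖P‖) * Real.exp (4 * ‖P‖)) := by
          nlinarith [sq_nonneg (‖Z‖ * Real.exp (4 * ‖P‖) - 1)]
        refine (norm_sub_le _ _).trans ?_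
        refine (add_le_add (norm_sub_le _ _) le_rfl).trans ?_
        rw [pow_one]
        have q5 : ‖Z‖ * (η ^ 2 * Real.exp (3 * ‖P‖)) * Real.exp ‖P‖ +
            ‖Z‖ * Real.exp ‖P‖ * (η ^ 2 * Real.exp (3 * ‖P‖)) = η ^ 2 * (2 * (‖Z‖ * Real.exp (4 * ‖P‖))) := by
          rw [← q3]; ring
        have q6 : η ^ 2 * (2 * (‖Z‖ * Real.exp (4 * ‖P‖))) ≤
            η ^ 2 * (1 + ‖Z‖ ^ 2 * (Real.exp (4 * ‖P‖) * Real.exp (4 * ‖P‖))) := by gcongr
        linarith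
    refine step.trans ?_
    rw [ES_add ((bs_const S (Real.exp (3 * rho A S) - 1)).mul_real bZr)
      ((bs_const S (η ^ 2)).mul_real ((bs_const S (1 : ℝ)).add ((bZ.pow 1).norm_sq.mul_real
        ((bP.exp_norm 4 (by norm_num)).mul_real (bP.exp_norm 4 (by norm_num)))))), ES_const_mul,
      ES_const_mul, ES_add (bs_const S (1 : ℝ)) ((bZ.pow 1).norm_sq.mul_real
        ((bP.exp_norm 4 (by norm_num)).mul_real (bP.exp_norm 4 (by norm_num))))]
    have h8 : ES S (fun f => ‖(ZZ S (tw σ f)) ^ 1‖ ^ 2 *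
        (Real.exp (4 * ‖Pj A S (tw σ f)‖) * Real.exp (4 * ‖Pj A S (tw σ f)‖))) ≤ 1 / η := by
      refine le_trans (le_of_eq ?_) ((m4 1 (by omega)).trans hE1)
      congr 1; ext f; ring
    have h1 : ES S (fun _ => (1 : ℝ)) = 1 := by unfold ES; simp
    rw [h1]
    have h9 : η ^ 2 * (1 + 1 / η) ≤ 2 * η := by
      have : η ^ 2 * (1 + 1 / η) = η ^ 2 + η := by field_simp
      rw [this]; nlinarith
    have h10 : η ^ 2 * (1 + ES S (fun f => ‖(ZZ S (tw σ f)) ^ 1‖ ^ 2 *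
        (Real.exp (4 * ‖Pj A S (tw σ f)‖) * Real.exp (4 * ‖Pj A S (tw σ f)‖)))) ≤ 2 * η := by
      refine le_trans ?_ h9
      gcongr
    have e3 : ES S (fun f => ‖ZZ S (tw σ f)‖ ^ (2 * k)) = DS k σ S := rfl
    rw [e3]
    nlinarith
  · intro r F hF
    have step : ES S (fun f => ‖F (tw σ f)‖ ^ 2) ≤ ES S (fun f => (1 / 16) ^ r *
        (‖(ZZ S (tw σ f)) ^ 0‖ ^ 2 * (Real.exp (2 * ‖Pj A S (tw σ f)‖) *
          Real.exp (2 * ‖Pj A S (tw σ f)‖)))) := by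
      apply ES_mono
      · intro ω; positivity
      · exact ((bs_const S _).mul_real ((bZ.pow 0).norm_sq.mul_real
          ((bP.exp_norm 2 (by norm_num)).mul_real (bP.exp_norm 2 (by norm_num))))).integrable
      · intro ω
        have := pow_le_pow_left₀ (norm_nonneg _) (hF (tw σ (ext S ω))) 2
        refine this.trans (le_of_eq ?_)
        rw [mul_pow, ← pow_mul, mul_comm r 2, pow_mul]
        norm_num
        ring
    refine step.trans ?_
    rw [ES_const_mul]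
    gcongr
    refine le_trans (le_of_eq ?_) (m2 0 (by omega))
    congr 1; ext f; ring

end Pool.Agent.Lib.MP_973905_nt
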