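import Pool.Agent.Lib.MP_973905_nt.PrimeSum

/-! The normalising Dirichlet series `∑ d_k(n)² n^{-2σ}` and its Euler product. -/

namespace Pool.Agent.Lib.MP_973905_nt

open Complex Filter Topology

/-- The generalised divisor function: `dk k (p^a) = k(k+1)…(k+a-1)/a!`, multiplicative. -/
noncomputable def dk (k : ℝ) (n : ℕ) : ℝ :=
  n.factorization.prod fun _ a => (ascPochhammer ℝ a).eval k / a.factorial

/-- The normalising series `∑ d_k(n)² n^{-2σ}`. -/
noncomputable def DD (k σ : ℝ) : ℝ := ∑' n : ℕ, (dk k n) ^ 2 * (n : ℝ) ^ (-(2 * σ))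

/-- The local factor. -/
noncomputable def Dl (k x : ℝ) : ℝ :=
  Real.circleAverage (fun z : ℂ => ‖1 - x * z‖ ^ (-(2 * k))) 0 1

namespace DDaux

/-- the coefficients `k(k+1)…(k+a-1)/a!` -/
noncomputable def cf (k : ℝ) (a : ℕ) : ℝ := (ascPochhammer ℝ a).eval k / a.factorial

lemma cf_zero (k : ℝ) : cf k 0 = 1 := by simp [cf]

lemma cf_one (k : ℝ) : cf k 1 = k := by simp [cf]

lemma cf_succ (k : ℝ) (a : ℕ) : cf k (a + 1) = cf k a * ((k + a) / (a + 1)) := by
  unfold cf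
  rw [ascPochhammer_succ_eval, Nat.factorial_succ]
  push_cast
  have : (a.factorial : ℝ) ≠ 0 := by positivity
  have : (a : ℝ) + 1 ≠ 0 := by positivity
  field_simp

lemma cf_nonneg {k : ℝ} (hk : 0 < k) (a : ℕ) : 0 ≤ cf k a := by
  induction a with
  | zero => rw [cf_zero]; norm_num
  | succ a ih =>
    rw [cf_succ]
    exact mul_nonneg ih (by positivity)

lemma cf_succ_le {k : ℝ} (hk : 0 < k) (hk1 : k ≤ 1) (a : ℕ) : cf k (a + 1) ≤ k := by
  induction a with
  | zero => rw [cf_one]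
  | succ a ih =>
    rw [cf_succ]
    have h1 := cf_nonneg hk (a + 1)
    have h2 : (k + ((a + 1 : ℕ) : ℝ)) / (((a + 1 : ℕ) : ℝ) + 1) ≤ 1 := by
      rw [div_le_one (by positivity)]
      linarith
    calc cf k (a + 1) * ((k + ((a + 1 : ℕ) : ℝ)) / (((a + 1 : ℕ) : ℝ) + 1))
        ≤ cf k (a + 1) * 1 := mul_le_mul_of_nonneg_left h2 h1
      _ ≤ k := by rw [mul_one]; exact ih

lemma cf_le_one {k : ℝ} (hk : 0 < k) (hk1 : k ≤ 1) (a : ℕ) : cf k a ≤ 1 := by
  cases a with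
  | zero => rw [cf_zero]
  | succ a => exact (cf_succ_le hk hk1 a).trans hk1

/-- the binomial series -/
lemma hasSum_cpow (k : ℝ) {w : ℂ} (hw : ‖w‖ < 1) :
    HasSum (fun a : ℕ => (cf k a : ℂ) * w ^ a) (1 / (1 - w) ^ (k : ℂ)) := by
  have h := (one_div_one_sub_cpow_hasFPowerSeriesOnBall_zero (k : ℂ)).hasSum
    (y := w) (by simpa [enorm_eq_nnnorm, ← NNReal.coe_lt_one] using hw)
  rw [zero_add] at h
  have he : (fun a : ℕ => (cf k a : ℂ) * w ^ a) = fun n => (FormalMultilinearSeries.ofScalars ℂ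
      (fun n => Ring.choose ((k : ℂ) + (n : ℂ) - 1) n) n) fun _ => w := ?_
  · rw [he]; exact h
  funext a
  simp only [FormalMultilinearSeries.ofScalars_apply_eq, smul_eq_mul]
  congr 1
  have h1 : Ring.choose ((k : ℂ) + a - 1) a = Ring.multichoose (k : ℂ) a := by
    rw [Ring.choose]
    congr 1
    ring
  have h2 := Ring.factorial_nsmul_multichoose_eq_ascPochhammer (k : ℂ) a
  rw [Polynomial.ascPochhammer_smeval_eq_eval, nsmul_eq_mul] at h2
  have h3 : (a.factorial : ℂ) ≠ 0 := by exact_mod_cast a.factorial_ne_zero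
  have h4 : (((ascPochhammer ℝ a).eval k : ℝ) : ℂ) = (ascPochhammer ℂ a).eval (k : ℂ) := by
    have h5 := Polynomial.eval₂_at_apply (p := ascPochhammer ℝ a) Complex.ofRealHom k
    rw [← Polynomial.eval_map, ascPochhammer_map] at h5
    exact h5.symm
  rw [h1, cf]
  push_cast
  rw [h4, ← h2, mul_div_cancel_left₀ _ h3]

/-- orthogonality of the powers on the circle -/
lemma orth (a b : ℕ) : ∫ θ in (0:ℝ)..(2 * Real.pi), (circleMap 0 1 θ) ^ a *
    ((starRingEnd ℂ) (circleMap 0 1 θ)) ^ b = if a = b then ((2 * Real.pi : ℝ) : ℂ) else 0 := by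
  have h1 : ∀ θ : ℝ, (circleMap 0 1 θ) ^ a * ((starRingEnd ℂ) (circleMap 0 1 θ)) ^ b =
      Complex.exp ((((a : ℤ) - b : ℤ) : ℂ) * I * θ) := by
    intro θ
    rw [circleMap_zero, ofReal_one, one_mul, ← Complex.exp_conj, map_mul, conj_I, conj_ofReal,
      ← Complex.exp_nat_mul, ← Complex.exp_nat_mul, ← Complex.exp_add]
    congr 1
    push_cast
    ring
  simp_rw [h1]
  split_ifs with hab
  · rw [hab]
    simp
  · have hne : (((a : ℤ) - b : ℤ) : ℂ) * I ≠ 0 := by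
      apply mul_ne_zero _ I_ne_zero
      have : ((a : ℤ) - b : ℤ) ≠ 0 := by omega
      exact_mod_cast this
    rw [integral_exp_mul_complex hne]
    have h2 : Complex.exp ((((a : ℤ) - b : ℤ) : ℂ) * I * ((2 * Real.pi : ℝ) : ℂ)) = 1 := by
      rw [← Complex.exp_int_mul_two_pi_mul_I ((a : ℤ) - b)]
      congr 1
      push_cast
      ring
    rw [h2]
    simp

/-- Parseval's identity for an absolutely convergent power series on the circle. -/
lemma parseval {u : ℕ → ℝ} (hu : Summable u) (hu0 : ∀ a, 0 ≤ u a) {F : ℂ → ℂ}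
    (hF : ∀ z : ℂ, ‖z‖ = 1 → HasSum (fun a => (u a : ℂ) * z ^ a) (F z)) :
    HasSum (fun a => u a ^ 2) (Real.circleAverage (fun z => ‖F z‖ ^ 2) 0 1) := by
  have hnorm : ∀ θ : ℝ, ‖circleMap 0 1 θ‖ = 1 := fun θ => by simp
  have hpi : (2 * Real.pi : ℝ) ≠ 0 := by positivity
  -- double series
  have hmul : Summable fun q : ℕ × ℕ => u q.1 * u q.2 := hu.mul_of_nonneg hu hu0 hu0
  set G : ℕ × ℕ → ℝ → ℂ := fun q θ => ((u q.1 : ℂ) * (circleMap 0 1 θ) ^ q.1) *
    ((u q.2 : ℂ) * ((starRingEnd ℂ) (circleMap 0 1 θ)) ^ q.2) with hG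
  have hGn : ∀ q θ, ‖G q θ‖ = u q.1 * u q.2 := by
    intro q θ
    simp only [hG, norm_mul, norm_pow, RCLike.norm_conj, hnorm, one_pow, mul_one, norm_real,
      Real.norm_eq_abs, abs_of_nonneg (hu0 _)]
  have hGsum : ∀ θ, HasSum (fun q => G q θ) (((‖F (circleMap 0 1 θ)‖ ^ 2 : ℝ) : ℂ)) := by
    intro θ
    have h1 := hF _ (hnorm θ)
    have h2 : HasSum (fun b => (u b : ℂ) * ((starRingEnd ℂ) (circleMap 0 1 θ)) ^ b)
        ((starRingEnd ℂ) (F (circleMap 0 1 θ))) := by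
      have h5 := h1.map (starRingEnd ℂ) Complex.continuous_conj
      have h6 : ((starRingEnd ℂ) ∘ fun a => (u a : ℂ) * (circleMap 0 1 θ) ^ a) =
          fun b => (u b : ℂ) * ((starRingEnd ℂ) (circleMap 0 1 θ)) ^ b := by
        funext b
        simp only [Function.comp, map_mul, map_pow, conj_ofReal]
      rw [h6] at h5
      exact h5
    have h3 : Summable fun q : ℕ × ℕ => G q θ := by
      apply Summable.of_norm
      simp_rw [hGn]
      exact hmul
    have h4 := h1.mul h2 h3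
    rw [Complex.mul_conj, Complex.normSq_eq_norm_sq] at h4
    exact h4
  have hint : HasSum (fun q => ∫ θ in (0:ℝ)..(2 * Real.pi), G q θ)
      (∫ θ in (0:ℝ)..(2 * Real.pi), ((‖F (circleMap 0 1 θ)‖ ^ 2 : ℝ) : ℂ)) := by
    apply intervalIntegral.hasSum_integral_of_dominated_convergence
      (bound := fun q _ => u q.1 * u q.2)
    · intro q
      apply Continuous.aestronglyMeasurable
      simp only [hG]
      unfold circleMap
      fun_prop
    · intro q
      exact Filter.Eventually.of_forall fun θ _ => (hGn q θ).le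
    · exact Filter.Eventually.of_forall fun θ _ => hmul
    · simp
    · exact Filter.Eventually.of_forall fun θ _ => hGsum θ
  have hval : ∀ q : ℕ × ℕ, ∫ θ in (0:ℝ)..(2 * Real.pi), G q θ =
      if q.1 = q.2 then (((2 * Real.pi) * (u q.1 ^ 2) : ℝ) : ℂ) else 0 := by
    intro q
    have h1 : ∀ θ, G q θ = ((u q.1 : ℂ) * (u q.2 : ℂ)) * ((circleMap 0 1 θ) ^ q.1 *
        ((starRingEnd ℂ) (circleMap 0 1 θ)) ^ q.2) := by
      intro θ
      simp only [hG]
      ring
    simp_rw [h1]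
    rw [intervalIntegral.integral_const_mul, orth]
    split_ifs with h
    · rw [h]
      push_cast
      ring
    · rw [mul_zero]
  simp_rw [hval] at hint
  have hinj : Function.Injective fun a : ℕ => (a, a) := fun a b h => (Prod.mk.inj h).1
  rw [← hinj.hasSum_iff] at hint
  · have h5 : (fun q : ℕ × ℕ => if q.1 = q.2 then (((2 * Real.pi) * (u q.1 ^ 2) : ℝ) : ℂ) else 0) ∘
        (fun a : ℕ => (a, a)) = fun a => (((2 * Real.pi) * (u a ^ 2) : ℝ) : ℂ) := by
      funext a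
      simp only [Function.comp, if_true]
    rw [h5, intervalIntegral.integral_ofReal, Complex.hasSum_ofReal] at hint
    have h6 := hint.mul_left (2 * Real.pi)⁻¹
    have h7 : (fun a => (2 * Real.pi)⁻¹ * ((2 * Real.pi) * (u a ^ 2))) = fun a => u a ^ 2 := by
      funext a
      rw [← mul_assoc, inv_mul_cancel₀ hpi, one_mul]
    rw [h7] at h6
    exact h6
  · rintro ⟨a, b⟩ hq
    rw [if_neg]
    intro h
    exact hq ⟨a, Prod.ext rfl h⟩

lemma cf_summable {k x : ℝ} (hk : 0 < k) (hx0 : 0 ≤ x) (hx1 : x < 1) :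
    Summable fun a : ℕ => cf k a * x ^ a := by
  have h := (hasSum_cpow k (w := (x : ℂ)) (by rwa [norm_real, Real.norm_eq_abs,
    abs_of_nonneg hx0])).summable.norm
  refine h.congr fun a => ?_
  rw [norm_mul, norm_pow, norm_real, norm_real, Real.norm_eq_abs, Real.norm_eq_abs,
    abs_of_nonneg hx0, abs_of_nonneg (cf_nonneg hk a)]

end DDaux

open DDaux

theorem Dl_hasSum {k x : ℝ} (hk : 0 < k) (hx0 : 0 ≤ x) (hx1 : x < 1) :
    HasSum (fun a : ℕ => ((ascPochhammer ℝ a).eval k / a.factorial) ^ 2 * x ^ (2 * a))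
      (Dl k x) := by
  have h := parseval (cf_summable hk hx0 hx1)
    (fun a => mul_nonneg (cf_nonneg hk a) (pow_nonneg hx0 a))
    (F := fun z => 1 / (1 - x * z) ^ (k : ℂ)) (by
      intro z hz
      have h1 := hasSum_cpow k (w := (x : ℂ) * z) (by
        rwa [norm_mul, hz, mul_one, norm_real, Real.norm_eq_abs, abs_of_nonneg hx0])
      have h2 : (fun a : ℕ => (cf k a : ℂ) * ((x : ℂ) * z) ^ a) =
          fun a => ((cf k a * x ^ a : ℝ) : ℂ) * z ^ a := by
        funext a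
        push_cast
        rw [mul_pow]
        ring
      rw [h2] at h1
      exact h1)
  have h2 : (fun a : ℕ => ((ascPochhammer ℝ a).eval k / a.factorial) ^ 2 * x ^ (2 * a)) =
      fun a => (cf k a * x ^ a) ^ 2 := by
    funext a
    rw [mul_pow, ← pow_mul, mul_comm a 2]
    rfl
  rw [h2, Dl]
  convert h using 2
  funext z
  rw [norm_div, norm_one, norm_cpow_real, Real.rpow_neg (norm_nonneg _), mul_comm (2:ℝ) k,
    Real.rpow_mul (norm_nonneg _), Real.rpow_ofNat, one_div, inv_pow]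

theorem Dl_ge {k x : ℝ} (hk : 0 < k) (hx0 : 0 ≤ x) (hx1 : x < 1) :
    1 + k ^ 2 * x ^ 2 ≤ Dl k x := by
  have h := sum_le_hasSum (Finset.range 2) (fun a _ => by positivity) (Dl_hasSum hk hx0 hx1)
  simpa [Finset.sum_range_succ] using h

theorem Dl_le {k x : ℝ} (hk : 0 < k) (hk1 : k ≤ 1) (hx0 : 0 ≤ x) (hx1 : x ≤ 3 / 4) :
    Dl k x ≤ Real.exp (k ^ 2 * x ^ 2 + 3 * k ^ 2 * x ^ 4) := by
  have hx : x < 1 := by linarith
  have hx2 : x ^ 2 ≤ 9 / 16 := by nlinarith
  have hx20 : 0 ≤ x ^ 2 := sq_nonneg x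
  have h := Dl_hasSum hk hx0 hx
  have h1 := (hasSum_nat_add_iff' (f := fun a : ℕ =>
    ((ascPochhammer ℝ a).eval k / a.factorial) ^ 2 * x ^ (2 * a)) 2).mpr h
  have h2 : HasSum (fun a : ℕ => (k ^ 2 * x ^ 4) * (x ^ 2) ^ a)
      ((k ^ 2 * x ^ 4) * (1 - x ^ 2)⁻¹) :=
    (hasSum_geometric_of_lt_one hx20 (by linarith)).mul_left _
  have h3 := hasSum_le (fun a => by
    show ((ascPochhammer ℝ (a + 2)).eval k / (a + 2).factorial) ^ 2 * x ^ (2 * (a + 2)) ≤
      (k ^ 2 * x ^ 4) * (x ^ 2) ^ a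
    have h4 : (ascPochhammer ℝ (a + 2)).eval k / (a + 2).factorial ≤ k := cf_succ_le hk hk1 (a + 1)
    have h5 : 0 ≤ (ascPochhammer ℝ (a + 2)).eval k / (a + 2).factorial := cf_nonneg hk (a + 2)
    have h6 : x ^ (2 * (a + 2)) = x ^ 4 * (x ^ 2) ^ a := by ring
    rw [h6, mul_assoc]
    apply mul_le_mul_of_nonneg_right _ (by positivity)
    exact pow_le_pow_left₀ h5 h4 2) h1 h2
  have h7 : Dl k x ≤ 1 + k ^ 2 * x ^ 2 + (k ^ 2 * x ^ 4) * (1 - x ^ 2)⁻¹ := by
    simp [Finset.sum_range_succ] at h3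
    linarith
  have h8 : (1 - x ^ 2)⁻¹ ≤ 3 := by
    rw [inv_le_comm₀ (by linarith) (by norm_num)]
    linarith
  have h9 : (k ^ 2 * x ^ 4) * (1 - x ^ 2)⁻¹ ≤ (k ^ 2 * x ^ 4) * 3 :=
    mul_le_mul_of_nonneg_left h8 (by positivity)
  have h10 := Real.add_one_le_exp (k ^ 2 * x ^ 2 + 3 * k ^ 2 * x ^ 4)
  linarith

theorem DD_hasProd {k σ : ℝ} (hk : 0 < k) (hk1 : k ≤ 1) (hσ : 1 / 2 < σ) :
    HasProd (fun p : Nat.Primes => Dl k ((p : ℝ) ^ (-σ))) (DD k σ) := by
  have hdk : ∀ n, dk k n = ∏ p ∈ n.factorization.support, cf k (n.factorization p) := fun n => rfl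
  have hdk0 : ∀ n, 0 ≤ dk k n := fun n => by
    rw [hdk]
    exact Finset.prod_nonneg fun p _ => cf_nonneg hk (n.factorization p)
  have hdk1 : ∀ n, dk k n ≤ 1 := fun n => by
    rw [hdk]
    exact Finset.prod_le_one (fun p _ => cf_nonneg hk (n.factorization p))
      fun p _ => cf_le_one hk hk1 (n.factorization p)
  set f : ℕ → ℝ := fun n => (dk k n) ^ 2 * (n : ℝ) ^ (-(2 * σ)) with hf
  have hf0 : f 0 = 0 := by
    simp only [hf, Nat.cast_zero]
    rw [Real.zero_rpow (by linarith), mul_zero]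
  have hf1 : f 1 = 1 := by
    simp [hf, dk]
  have hmul : ∀ {m n : ℕ}, Nat.Coprime m n → f (m * n) = f m * f n := by
    intro m n hmn
    rcases Nat.eq_zero_or_pos m with rfl | hm
    · rw [zero_mul, hf0, zero_mul]
    rcases Nat.eq_zero_or_pos n with rfl | hn
    · rw [mul_zero, hf0, mul_zero]
    have h1 : dk k (m * n) = dk k m * dk k n := by
      unfold dk
      rw [Nat.factorization_mul_of_coprime hmn]
      exact Finsupp.prod_add_index_of_disjoint
        (by simpa using hmn.disjoint_primeFactors) _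
    simp only [hf]
    rw [h1, Nat.cast_mul, Real.mul_rpow (by positivity) (by positivity)]
    ring
  have hsum : Summable fun n => ‖f n‖ := by
    have h1 : Summable fun n : ℕ => (n : ℝ) ^ (-(2 * σ)) :=
      Real.summable_nat_rpow.mpr (by linarith)
    refine Summable.of_nonneg_of_le (fun n => norm_nonneg _) (fun n => ?_) h1
    have h2 : 0 ≤ f n := by
      simp only [hf]
      positivity
    rw [Real.norm_eq_abs, abs_of_nonneg h2]
    simp only [hf]
    have h3 : (dk k n) ^ 2 ≤ 1 := pow_le_one₀ (hdk0 n) (hdk1 n)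
    have h4 : 0 ≤ (n : ℝ) ^ (-(2 * σ)) := by positivity
    nlinarith
  have h := EulerProduct.eulerProduct_hasProd hf1 hmul hsum hf0
  have hfun : (fun p : Nat.Primes => Dl k (((p : ℕ) : ℝ) ^ (-σ))) =
      fun p : Nat.Primes => ∑' e, f ((p : ℕ) ^ e) := ?_
  · rw [DD, hfun]
    exact h
  funext p
  have hp := p.2
  have hpp : (0:ℝ) < ((p : ℕ) : ℝ) := by exact_mod_cast hp.pos
  have hx0 : 0 ≤ ((p : ℕ) : ℝ) ^ (-σ) := by positivity
  have hx1 : ((p : ℕ) : ℝ) ^ (-σ) < 1 :=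
    Real.rpow_lt_one_of_one_lt_of_neg (by exact_mod_cast hp.one_lt) (by linarith)
  rw [(Dl_hasSum hk hx0 hx1).tsum_eq.symm]
  congr 1
  funext e
  simp only [hf]
  have h1 : dk k ((p : ℕ) ^ e) = (ascPochhammer ℝ e).eval k / e.factorial := by
    unfold dk
    rw [hp.factorization_pow, Finsupp.prod_single_index]
    simp
  rw [h1]
  congr 1
  rw [Nat.cast_pow, ← Real.rpow_natCast, ← Real.rpow_natCast, ← Real.rpow_mul hpp.le,
    ← Real.rpow_mul hpp.le]
  congr 1
  push_cast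
  ring

namespace DDaux

lemma mem_PS {y x : ℝ} {p : ℕ} (h : p ∈ PS y x) : p.Prime ∧ y < p := by
  unfold PS at h
  rw [Finset.mem_filter, Finset.mem_Ioc] at h
  exact ⟨h.2, (Nat.floor_lt' h.2.ne_zero).mp h.1.1⟩

lemma PS_split {y z x : ℝ} (h1 : y ≤ z) (h2 : z ≤ x) (f : ℕ → ℝ) :
    ∑ p ∈ PS y x, f p = ∑ p ∈ PS y z, f p + ∑ p ∈ PS z x, f p := by
  unfold PS
  rw [Finset.sum_filter, Finset.sum_filter, Finset.sum_filter,
    Finset.sum_Ioc_consecutive _ (Nat.floor_mono h1) (Nat.floor_mono h2)]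

lemma PS_mono {y z x : ℝ} (h : z ≤ x) : PS y z ⊆ PS y x := by
  unfold PS
  exact Finset.filter_subset_filter _ (Finset.Ioc_subset_Ioc_right (Nat.floor_mono h))

lemma xfacts {p : ℕ} (hp : p.Prime) {δ : ℝ} (hδ : 0 ≤ δ) :
    0 ≤ (p : ℝ) ^ (-(1 / 2 + δ)) ∧ (p : ℝ) ^ (-(1 / 2 + δ)) ≤ 3 / 4 ∧
      ((p : ℝ) ^ (-(1 / 2 + δ))) ^ 2 = (p : ℝ) ^ (-(1 + 2 * δ)) ∧
      (p : ℝ) ^ (-(1 + 2 * δ)) ≤ 1 / p ∧
      ((p : ℝ) ^ (-(1 / 2 + δ))) ^ 4 ≤ 1 / (p : ℝ) ^ 2 ∧
      ((p : ℝ) ^ (-(1 / 2 + δ))) ^ 4 ≤ ((p : ℝ) ^ (-(1 / 2 + δ))) ^ 2 := by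
  have hp2 : (2 : ℝ) ≤ p := by exact_mod_cast hp.two_le
  have hp0 : (0 : ℝ) < p := by linarith
  have h0 : 0 ≤ (p : ℝ) ^ (-(1 / 2 + δ)) := by positivity
  have hsq : ((p : ℝ) ^ (-(1 / 2 + δ))) ^ 2 = (p : ℝ) ^ (-(1 + 2 * δ)) := by
    rw [← Real.rpow_natCast, ← Real.rpow_mul hp0.le]
    congr 1
    push_cast
    ring
  have hle : (p : ℝ) ^ (-(1 + 2 * δ)) ≤ 1 / p := by
    rw [one_div, ← Real.rpow_neg_one]
    exact Real.rpow_le_rpow_of_exponent_le (by linarith) (by linarith)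
  have hx2 : ((p : ℝ) ^ (-(1 / 2 + δ))) ^ 2 ≤ 1 / p := by rw [hsq]; exact hle
  have hhalf : 1 / (p : ℝ) ≤ 1 / 2 := one_div_le_one_div_of_le (by norm_num) hp2
  refine ⟨h0, ?_, hsq, hle, ?_, ?_⟩
  · nlinarith
  · have : ((p : ℝ) ^ (-(1 / 2 + δ))) ^ 4 = (((p : ℝ) ^ (-(1 / 2 + δ))) ^ 2) ^ 2 := by ring
    rw [this]
    calc (((p : ℝ) ^ (-(1 / 2 + δ))) ^ 2) ^ 2 ≤ (1 / (p : ℝ)) ^ 2 :=
          pow_le_pow_left₀ (sq_nonneg _) hx2 2
      _ = _ := by rw [div_pow, one_pow]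
  · nlinarith [sq_nonneg ((p : ℝ) ^ (-(1 / 2 + δ)))]

/-- Sums over primes in dyadic blocks of logarithms. -/
theorem blocks : ∃ C : ℝ, 0 < C ∧ ∀ c β T : ℝ, 0 < β → 1 ≤ c * β → C ≤ β * Real.log T → ∀ n : ℕ,
    ∑ p ∈ PS (Real.exp (β * Real.log T)) (Real.exp (β * Real.exp n * Real.log T)),
      (p : ℝ) ^ (-(1 + 2 * (c / Real.log T))) ≤ 3 * Real.exp (-(2 * (c * β))) := by
  obtain ⟨C, hC, h⟩ := sum_inv_range
  refine ⟨C + 1, by linarith, ?_⟩
  intro c β T hβ hcβ hT n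
  have hL : 0 < Real.log T := by
    by_contra hcon
    push Not at hcon
    nlinarith
  have hc : 0 < c := by
    by_contra hcon
    push Not at hcon
    nlinarith
  set L := Real.log T with hLdef
  have key : ∑ p ∈ PS (Real.exp (β * L)) (Real.exp (β * Real.exp n * L)),
      (p : ℝ) ^ (-(1 + 2 * (c / L))) ≤
      2 * Real.exp (-(2 * (c * β))) * ∑ i ∈ Finset.range n, (1 / 3 : ℝ) ^ i := by
    induction n with
    | zero =>
      simp [PS]
    | succ n ih =>
      have hen : Real.exp n ≤ Real.exp ((n + 1 : ℕ) : ℝ) := by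
        apply Real.exp_le_exp.mpr
        push_cast
        linarith
      have he1 : 1 ≤ Real.exp n := Real.one_le_exp (by positivity)
      have hβL : 0 < β * L := mul_pos hβ hL
      rw [PS_split (y := Real.exp (β * L)) (z := Real.exp (β * Real.exp n * L))
        (x := Real.exp (β * Real.exp ((n + 1 : ℕ) : ℝ) * L)), Finset.sum_range_succ, mul_add]
      rotate_left
      · apply Real.exp_le_exp.mpr
        nlinarith
      · apply Real.exp_le_exp.mpr
        have : β * Real.exp n ≤ β * Real.exp ((n + 1 : ℕ) : ℝ) :=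
          mul_le_mul_of_nonneg_left hen hβ.le
        exact mul_le_mul_of_nonneg_right this hL.le
      apply add_le_add ih
      -- the last block
      have hA : 2 ≤ Real.exp (β * Real.exp n * L) := by
        have h1 : 1 ≤ β * Real.exp n * L := by nlinarith
        have h2 := Real.add_one_le_exp (β * Real.exp n * L)
        linarith
      have hB : Real.exp (β * Real.exp n * L) ≤ Real.exp (β * Real.exp ((n + 1 : ℕ) : ℝ) * L) := by
        apply Real.exp_le_exp.mpr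
        have : β * Real.exp n ≤ β * Real.exp ((n + 1 : ℕ) : ℝ) :=
          mul_le_mul_of_nonneg_left hen hβ.le
        exact mul_le_mul_of_nonneg_right this hL.le
      have h3 := h _ _ hA hB
      rw [Real.log_exp, Real.log_exp] at h3
      have h4 : β * Real.exp ((n + 1 : ℕ) : ℝ) * L / (β * Real.exp n * L) = Real.exp 1 := by
        push_cast
        rw [Real.exp_add]
        have := Real.exp_pos (n : ℝ)
        field_simp
      rw [h4, Real.log_exp] at h3
      have h5 : C / (β * Real.exp n * L) ≤ 1 := by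
        rw [div_le_one (by positivity)]
        nlinarith
      have h6 : ∑ p ∈ PS (Real.exp (β * Real.exp n * L))
          (Real.exp (β * Real.exp ((n + 1 : ℕ) : ℝ) * L)), (1 : ℝ) / p ≤ 2 := by
        have := (abs_le.mp h3).2
        linarith
      have h7 : ∀ p ∈ PS (Real.exp (β * Real.exp n * L))
          (Real.exp (β * Real.exp ((n + 1 : ℕ) : ℝ) * L)),
          (p : ℝ) ^ (-(1 + 2 * (c / L))) ≤
            Real.exp (-(2 * (c * β))) * (1 / 3 : ℝ) ^ n * (1 / p) := by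
        intro p hp
        obtain ⟨hp1, hp2⟩ := mem_PS hp
        have hp0 : (0 : ℝ) < p := by exact_mod_cast hp1.pos
        have h8 : β * Real.exp n * L ≤ Real.log p := by
          rw [Real.le_log_iff_exp_le hp0]
          exact hp2.le
        have h9 : (p : ℝ) ^ (-(1 + 2 * (c / L))) =
            Real.exp (-(2 * (c / L)) * Real.log p) * (1 / p) := by
          rw [one_div, ← Real.rpow_neg_one, Real.rpow_def_of_pos hp0, Real.rpow_def_of_pos hp0,
            ← Real.exp_add]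
          congr 1
          ring
        rw [h9]
        apply mul_le_mul_of_nonneg_right _ (by positivity)
        have h10 : -(2 * (c / L)) * Real.log p ≤ -(2 * (c * β)) + n * (-2) := by
          have h11 : (2 * (c / L)) * (β * Real.exp n * L) ≤ (2 * (c / L)) * Real.log p :=
            mul_le_mul_of_nonneg_left h8 (by positivity)
          have h12 : (2 * (c / L)) * (β * Real.exp n * L) = 2 * (c * β) * Real.exp n := by
            field_simp
          have h13 : (n : ℝ) + 1 ≤ Real.exp n := Real.add_one_le_exp _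
          nlinarith
        calc Real.exp (-(2 * (c / L)) * Real.log p)
            ≤ Real.exp (-(2 * (c * β)) + n * (-2)) := Real.exp_le_exp.mpr h10
          _ = Real.exp (-(2 * (c * β))) * (Real.exp (-2)) ^ n := by
            rw [Real.exp_add, ← Real.exp_nat_mul]
          _ ≤ Real.exp (-(2 * (c * β))) * (1 / 3 : ℝ) ^ n := by
            apply mul_le_mul_of_nonneg_left _ (Real.exp_pos _).le
            apply pow_le_pow_left₀ (Real.exp_pos _).le
            rw [Real.exp_neg, one_div]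
            apply inv_anti₀ (by norm_num)
            have := Real.add_one_le_exp (2 : ℝ)
            linarith
      calc ∑ p ∈ PS (Real.exp (β * Real.exp n * L))
            (Real.exp (β * Real.exp ((n + 1 : ℕ) : ℝ) * L)), (p : ℝ) ^ (-(1 + 2 * (c / L)))
          ≤ ∑ p ∈ PS (Real.exp (β * Real.exp n * L))
            (Real.exp (β * Real.exp ((n + 1 : ℕ) : ℝ) * L)),
              Real.exp (-(2 * (c * β))) * (1 / 3 : ℝ) ^ n * (1 / p) := Finset.sum_le_sum h7
        _ = Real.exp (-(2 * (c * β))) * (1 / 3 : ℝ) ^ n *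
            ∑ p ∈ PS (Real.exp (β * Real.exp n * L))
            (Real.exp (β * Real.exp ((n + 1 : ℕ) : ℝ) * L)), (1 : ℝ) / p := by
            rw [Finset.mul_sum]
        _ ≤ Real.exp (-(2 * (c * β))) * (1 / 3 : ℝ) ^ n * 2 :=
            mul_le_mul_of_nonneg_left h6 (by positivity)
        _ = _ := by ring
  refine key.trans ?_
  have hgeo : ∑ i ∈ Finset.range n, (1 / 3 : ℝ) ^ i ≤ 3 / 2 := by
    have := geom_sum_eq (show (1 / 3 : ℝ) ≠ 1 by norm_num) n
    rw [this, div_le_iff_of_neg (by norm_num)]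
    have : (0 : ℝ) < (1 / 3 : ℝ) ^ n := by positivity
    linarith
  calc 2 * Real.exp (-(2 * (c * β))) * ∑ i ∈ Finset.range n, (1 / 3 : ℝ) ^ i
      ≤ 2 * Real.exp (-(2 * (c * β))) * (3 / 2) :=
        mul_le_mul_of_nonneg_left hgeo (by positivity)
    _ = _ := by ring

/-- every real is below some `β e^n L` -/
lemma exists_block {β L M : ℝ} (hβ : 0 < β) (hL : 0 < L) : ∃ n : ℕ, M ≤ β * Real.exp n * L := by
  obtain ⟨n, hn⟩ := exists_nat_ge (M / (β * L))
  refine ⟨n, ?_⟩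
  have h1 : (n : ℝ) ≤ Real.exp n := by have := Real.add_one_le_exp (n : ℝ); linarith
  rw [div_le_iff₀ (by positivity)] at hn
  have h2 : (n : ℝ) * (β * L) ≤ Real.exp n * (β * L) :=
    mul_le_mul_of_nonneg_right h1 (by positivity)
  linarith

lemma Dl_one_le {k : ℝ} (hk : 0 < k) {p : ℕ} (hp : p.Prime) {δ : ℝ} (hδ : 0 ≤ δ) :
    1 ≤ Dl k ((p : ℝ) ^ (-(1 / 2 + δ))) := by
  obtain ⟨h0, h1, -⟩ := xfacts hp hδ
  have := Dl_ge hk h0 (by linarith)
  have h2 : 0 ≤ k ^ 2 * ((p : ℝ) ^ (-(1 / 2 + δ))) ^ 2 := by positivity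
  linarith

/-- The full normaliser against the partial product: precise form. -/
theorem compare : ∃ C : ℝ, 0 < C ∧ ∀ c β T : ℝ, 0 < β → 1 ≤ c * β → C ≤ β * Real.log T →
    ∀ k : ℝ, 0 < k → k ≤ 1 →
    ∏ p ∈ PS 0 (Real.exp (β * Real.log T)), Dl k ((p : ℝ) ^ (-(1 / 2 + c / Real.log T))) ≤
        DD k (1 / 2 + c / Real.log T) ∧
      DD k (1 / 2 + c / Real.log T) ≤ Real.exp (12 * k ^ 2 * Real.exp (-(2 * (c * β)))) *
        ∏ p ∈ PS 0 (Real.exp (β * Real.log T)), Dl k ((p : ℝ) ^ (-(1 / 2 + c / Real.log T))) := by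
  obtain ⟨C, hC, h⟩ := blocks
  refine ⟨C, hC, ?_⟩
  intro c β T hβ hcβ hT k hk hk1
  have hL : 0 < Real.log T := by
    by_contra hcon
    push Not at hcon
    nlinarith
  have hc : 0 < c := by
    by_contra hcon
    push Not at hcon
    nlinarith
  have hblk := h c β T hβ hcβ hT
  set L := Real.log T with hLdef
  have hδ : 0 ≤ c / L := by positivity
  have hprod := DD_hasProd hk hk1 (σ := 1 / 2 + c / L) (by
    have : 0 < c / L := by positivity
    linarith)
  set F : ℕ → ℝ := fun p => Dl k ((p : ℝ) ^ (-(1 / 2 + c / L))) with hF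
  set Y := Real.exp (β * L) with hY
  set s₀ : Finset Nat.Primes := (PS 0 Y).subtype Nat.Prime with hs₀
  have hmem : ∀ q : Nat.Primes, (q : ℕ) ∈ PS 0 Y → q ∈ s₀ := fun q hq => Finset.mem_subtype.mpr hq
  have hs₀prod : ∏ p ∈ PS 0 Y, F p = ∏ p ∈ s₀, F (p : ℕ) :=
    (Finset.prod_subtype_of_mem F fun p hp => (mem_PS hp).1).symm
  have hone : ∀ p : Nat.Primes, 1 ≤ F (p : ℕ) := fun p => Dl_one_le hk p.2 hδ
  have hpos : ∀ p : Nat.Primes, 0 ≤ F (p : ℕ) := fun p => zero_le_one.trans (hone p)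
  have htend : Tendsto (fun s : Finset Nat.Primes => ∏ p ∈ s, F (p : ℕ)) atTop
      (𝓝 (DD k (1 / 2 + c / L))) := hprod
  have hsplit : ∀ s : Finset Nat.Primes, s₀ ⊆ s →
      ∏ p ∈ s, F (p : ℕ) = (∏ p ∈ s \ s₀, F (p : ℕ)) * ∏ p ∈ s₀, F (p : ℕ) :=
    fun s hs => (Finset.prod_sdiff hs).symm
  have h0 : 0 ≤ ∏ p ∈ s₀, F (p : ℕ) := Finset.prod_nonneg fun p _ => hpos p
  rw [hs₀prod]
  constructor
  · refine ge_of_tendsto htend ?_
    filter_upwards [eventually_ge_atTop s₀] with s hs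
    rw [hsplit s hs]
    have h1 : 1 ≤ ∏ p ∈ s \ s₀, F (p : ℕ) := by
      have := Finset.prod_le_prod (s := s \ s₀) (f := fun _ => (1 : ℝ))
        (g := fun p : Nat.Primes => F (p : ℕ)) (fun _ _ => zero_le_one) (fun p _ => hone p)
      simpa using this
    nlinarith
  · refine le_of_tendsto htend ?_
    filter_upwards [eventually_ge_atTop s₀] with s hs
    rw [hsplit s hs]
    apply mul_le_mul_of_nonneg_right _ h0
    -- the tail
    have h1 : ∀ p ∈ s \ s₀, F (p : ℕ) ≤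
        Real.exp (4 * k ^ 2 * ((p : ℕ) : ℝ) ^ (-(1 + 2 * (c / L)))) := by
      intro p _
      obtain ⟨x0, x1, x2, -, -, x5⟩ := xfacts p.2 hδ
      refine (Dl_le hk hk1 x0 x1).trans (Real.exp_le_exp.mpr ?_)
      rw [← x2]
      have : 0 ≤ k ^ 2 := sq_nonneg k
      nlinarith
    refine (Finset.prod_le_prod (fun p _ => hpos p) h1).trans ?_
    rw [← Real.exp_sum]
    apply Real.exp_le_exp.mpr
    rw [← Finset.mul_sum]
    have h2 : ∑ p ∈ s \ s₀, ((p : ℕ) : ℝ) ^ (-(1 + 2 * (c / L))) ≤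
        3 * Real.exp (-(2 * (c * β))) := by
      -- all these primes lie in a block range
      obtain ⟨n, hn⟩ := exists_block (M := ∑ p ∈ s, ((p : ℕ) : ℝ)) hβ hL
      refine le_trans ?_ (hblk n)
      have h3 : ∑ p ∈ s \ s₀, ((p : ℕ) : ℝ) ^ (-(1 + 2 * (c / L))) =
          ∑ p ∈ (s \ s₀).image (fun q : Nat.Primes => (q : ℕ)),
            (p : ℝ) ^ (-(1 + 2 * (c / L))) := by
        rw [Finset.sum_image]
        intro a _ b _ hab
        exact Subtype.ext hab
      rw [h3]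
      apply Finset.sum_le_sum_of_subset_of_nonneg
      · intro p hp
        rw [Finset.mem_image] at hp
        obtain ⟨q, hq, rfl⟩ := hp
        rw [Finset.mem_sdiff] at hq
        unfold PS
        rw [Finset.mem_filter, Finset.mem_Ioc]
        refine ⟨⟨?_, ?_⟩, q.2⟩
        · by_contra hcon
          push Not at hcon
          apply hq.2
          apply hmem
          unfold PS
          rw [Finset.mem_filter, Finset.mem_Ioc]
          refine ⟨⟨?_, hcon⟩, q.2⟩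
          rw [Nat.floor_zero]
          exact q.2.pos
        · apply Nat.le_floor
          have h4 : ((q : ℕ) : ℝ) ≤ ∑ p ∈ s, ((p : ℕ) : ℝ) :=
            Finset.single_le_sum (f := fun p : Nat.Primes => ((p : ℕ) : ℝ))
              (fun _ _ => Nat.cast_nonneg _) hq.1
          have h5 := Real.add_one_le_exp (β * Real.exp n * L)
          linarith
      · intro p _ _
        positivity
    have h6 : 4 * k ^ 2 * ∑ p ∈ s \ s₀, ((p : ℕ) : ℝ) ^ (-(1 + 2 * (c / L))) ≤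
        4 * k ^ 2 * (3 * Real.exp (-(2 * (c * β)))) := mul_le_mul_of_nonneg_left h2 (by positivity)
    calc 4 * k ^ 2 * ∑ p ∈ s \ s₀, ((p : ℕ) : ℝ) ^ (-(1 + 2 * (c / L)))
        ≤ 4 * k ^ 2 * (3 * Real.exp (-(2 * (c * β)))) := h6
      _ = _ := by ring

lemma sum_sq_le : ∃ K : ℝ, 0 < K ∧ ∀ y x : ℝ, ∑ p ∈ PS y x, 1 / (p : ℝ) ^ 2 ≤ K := by
  have hs : Summable fun n : ℕ => 1 / (n : ℝ) ^ 2 := Real.summable_one_div_nat_pow.mpr (by norm_num)
  refine ⟨∑' n : ℕ, 1 / (n : ℝ) ^ 2 + 1, ?_, ?_⟩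
  · have : 0 ≤ ∑' n : ℕ, 1 / (n : ℝ) ^ 2 := tsum_nonneg fun n => by positivity
    linarith
  · intro y x
    have := hs.sum_le_tsum (PS y x) (fun n _ => by positivity)
    linarith

/-- lower bound for the prime sum up to `T^{1/c}` -/
lemma prime_lower : ∃ C : ℝ, 0 < C ∧ ∀ c L : ℝ, 1 ≤ c → 2 * c ≤ L →
    Real.log L - Real.log c - C ≤
      ∑ p ∈ PS 0 (Real.exp (1 / c * L)), (p : ℝ) ^ (-(1 + 2 * (c / L))) := by
  obtain ⟨C1, hC1, h1⟩ := sum_inv
  obtain ⟨C2, hC2, h2⟩ := sum_log_div_le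
  refine ⟨C1 + 2 + C2, by linarith, ?_⟩
  intro c L hc hL
  have hc0 : 0 < c := by linarith
  have hL0 : 0 < L := by linarith
  have hLc : 1 ≤ 1 / c * L := by
    rw [div_mul_eq_mul_div, one_mul, le_div_iff₀ hc0]
    linarith
  have hY : 2 ≤ Real.exp (1 / c * L) := by
    have := Real.add_one_le_exp (1 / c * L)
    linarith
  have h3 := h1 _ hY
  have h4 := h2 (Real.exp (1 / c * L)) (by linarith)
  rw [Real.log_exp] at h3 h4
  have h5 : Real.log (1 / c * L) = Real.log L - Real.log c := by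
    rw [Real.log_mul (by positivity) hL0.ne', one_div, Real.log_inv]
    ring
  rw [h5] at h3
  have h6 : ∑ p ∈ PS 0 (Real.exp (1 / c * L)), ((1 : ℝ) / p - 2 * c / L * (Real.log p / p)) ≤
      ∑ p ∈ PS 0 (Real.exp (1 / c * L)), (p : ℝ) ^ (-(1 + 2 * (c / L))) := by
    apply Finset.sum_le_sum
    intro p hp
    have hp1 := (mem_PS hp).1
    have hp0 : (0 : ℝ) < p := by exact_mod_cast hp1.pos
    have h9 : (p : ℝ) ^ (-(1 + 2 * (c / L))) =
        (1 / p) * Real.exp (-(2 * (c / L)) * Real.log p) := by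
      rw [one_div, ← Real.rpow_neg_one, Real.rpow_def_of_pos hp0, Real.rpow_def_of_pos hp0,
        ← Real.exp_add]
      congr 1
      ring
    rw [h9]
    have h10 := Real.add_one_le_exp (-(2 * (c / L)) * Real.log p)
    have h11 : (1 : ℝ) / p * (-(2 * (c / L)) * Real.log p + 1) ≤
        (1 / p) * Real.exp (-(2 * (c / L)) * Real.log p) :=
      mul_le_mul_of_nonneg_left h10 (by positivity)
    have h12 : (1 : ℝ) / p * (-(2 * (c / L)) * Real.log p + 1) =
        1 / p - 2 * c / L * (Real.log p / p) := by ring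
    linarith
  rw [Finset.sum_sub_distrib, ← Finset.mul_sum] at h6
  have h7 : 2 * c / L * ∑ p ∈ PS 0 (Real.exp (1 / c * L)), Real.log p / p ≤ 2 + C2 := by
    have h8 : 2 * c / L * ∑ p ∈ PS 0 (Real.exp (1 / c * L)), Real.log p / p ≤
        2 * c / L * (1 / c * L + C2) := mul_le_mul_of_nonneg_left h4 (by positivity)
    have h9 : 2 * c / L * (1 / c * L + C2) = 2 + 2 * c / L * C2 := by
      field_simp
    have h10 : 2 * c / L * C2 ≤ 1 * C2 := by
      apply mul_le_mul_of_nonneg_right _ hC2.le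
      rw [div_le_one hL0]
      exact hL
    linarith
  have := (abs_le.mp h3).1
  linarith

/-- exponential lower bound for the product -/
lemma prod_ge : ∃ C : ℝ, 0 < C ∧ ∀ c L Y : ℝ, 1 ≤ c → 2 * c ≤ L → Real.exp (1 / c * L) ≤ Y →
    ∀ k : ℝ, 0 < k → k ≤ 1 →
    Real.exp (k ^ 2 * (Real.log L - Real.log c - C)) ≤
      ∏ p ∈ PS 0 Y, Dl k ((p : ℝ) ^ (-(1 / 2 + c / L))) := by
  obtain ⟨C, hC, h⟩ := prime_lower
  obtain ⟨K, hK, h2⟩ := sum_sq_le
  refine ⟨C + K, by linarith, ?_⟩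
  intro c L Y hc hL hY k hk hk1
  have hc0 : 0 < c := by linarith
  have hL0 : 0 < L := by linarith
  have hδ : 0 ≤ c / L := by positivity
  have hstep : ∏ p ∈ PS 0 (Real.exp (1 / c * L)), Dl k ((p : ℝ) ^ (-(1 / 2 + c / L))) ≤
      ∏ p ∈ PS 0 Y, Dl k ((p : ℝ) ^ (-(1 / 2 + c / L))) := by
    rw [← Finset.prod_sdiff (PS_mono hY)]
    have h1 : 1 ≤ ∏ p ∈ PS 0 Y \ PS 0 (Real.exp (1 / c * L)),
        Dl k ((p : ℝ) ^ (-(1 / 2 + c / L))) := by
      have := Finset.prod_le_prod (s := PS 0 Y \ PS 0 (Real.exp (1 / c * L)))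
        (f := fun _ => (1 : ℝ)) (g := fun p : ℕ => Dl k ((p : ℝ) ^ (-(1 / 2 + c / L))))
        (fun _ _ => zero_le_one)
        (fun p hp => Dl_one_le hk (mem_PS (Finset.mem_sdiff.mp hp).1).1 hδ)
      simpa using this
    have h3 : 0 ≤ ∏ p ∈ PS 0 (Real.exp (1 / c * L)), Dl k ((p : ℝ) ^ (-(1 / 2 + c / L))) :=
      Finset.prod_nonneg fun p hp => zero_le_one.trans (Dl_one_le hk (mem_PS hp).1 hδ)
    nlinarith
  refine le_trans ?_ hstep
  have h3 : ∀ p ∈ PS 0 (Real.exp (1 / c * L)),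
      Real.exp (k ^ 2 * (p : ℝ) ^ (-(1 + 2 * (c / L))) - k ^ 2 * (1 / (p : ℝ) ^ 2)) ≤
        Dl k ((p : ℝ) ^ (-(1 / 2 + c / L))) := by
    intro p hp
    obtain ⟨x0, x1, x2, x3, x4, x5⟩ := xfacts (mem_PS hp).1 hδ
    refine le_trans ?_ (Dl_ge hk x0 (by linarith))
    set x := (p : ℝ) ^ (-(1 / 2 + c / L)) with hx
    rw [← x2]
    set u := k ^ 2 * x ^ 2 with hu
    have hu0 : 0 ≤ u := by positivity
    have hk2 : k ^ 2 ≤ 1 := by nlinarith
    have h4 := Real.le_log_one_add_of_nonneg hu0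
    have h5 : u - u ^ 2 ≤ 2 * u / (u + 2) := by
      rw [le_div_iff₀ (by linarith)]
      nlinarith [mul_nonneg hu0 (sq_nonneg u)]
    have h6 : u ^ 2 ≤ k ^ 2 * (1 / (p : ℝ) ^ 2) := by
      have : u ^ 2 = k ^ 2 * (k ^ 2 * x ^ 4) := by rw [hu]; ring
      rw [this]
      apply mul_le_mul_of_nonneg_left _ (sq_nonneg k)
      have hx4 : 0 ≤ x ^ 4 := by positivity
      nlinarith
    calc Real.exp (u - k ^ 2 * (1 / (p : ℝ) ^ 2)) ≤ Real.exp (Real.log (1 + u)) := by
          apply Real.exp_le_exp.mpr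
          linarith
      _ = 1 + u := Real.exp_log (by linarith)
  refine le_trans ?_ (Finset.prod_le_prod (fun p _ => (Real.exp_pos _).le) h3)
  rw [← Real.exp_sum, Finset.sum_sub_distrib, ← Finset.mul_sum, ← Finset.mul_sum]
  apply Real.exp_le_exp.mpr
  have h7 := h c L hc hL
  have h8 := h2 0 (Real.exp (1 / c * L))
  have hk2 : 0 ≤ k ^ 2 := sq_nonneg k
  nlinarith

/-- exponential upper bound for the product -/
lemma prod_le : ∃ C : ℝ, 0 < C ∧ ∀ c T : ℝ, 0 ≤ c → 2 ≤ T →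
    ∀ k : ℝ, 0 < k → k ≤ 1 →
    ∏ p ∈ PS 0 T, Dl k ((p : ℝ) ^ (-(1 / 2 + c / Real.log T))) ≤
      Real.exp (k ^ 2 * (Real.log (Real.log T) + C)) := by
  obtain ⟨C, hC, h⟩ := sum_inv
  obtain ⟨K, hK, h2⟩ := sum_sq_le
  refine ⟨C + 3 * K, by linarith, ?_⟩
  intro c T hc hT k hk hk1
  have hL0 : 0 < Real.log T := Real.log_pos (by linarith)
  have hδ : 0 ≤ c / Real.log T := by positivity
  have h3 : ∀ p ∈ PS 0 T, Dl k ((p : ℝ) ^ (-(1 / 2 + c / Real.log T))) ≤
      Real.exp (k ^ 2 * (1 / p) + 3 * k ^ 2 * (1 / (p : ℝ) ^ 2)) := by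
    intro p hp
    obtain ⟨x0, x1, x2, x3, x4, x5⟩ := xfacts (mem_PS hp).1 hδ
    refine (Dl_le hk hk1 x0 x1).trans (Real.exp_le_exp.mpr ?_)
    rw [x2]
    have h4 : k ^ 2 * (p : ℝ) ^ (-(1 + 2 * (c / Real.log T))) ≤ k ^ 2 * (1 / p) :=
      mul_le_mul_of_nonneg_left x3 (sq_nonneg k)
    have h5 : 3 * k ^ 2 * ((p : ℝ) ^ (-(1 / 2 + c / Real.log T))) ^ 4 ≤
        3 * k ^ 2 * (1 / (p : ℝ) ^ 2) := mul_le_mul_of_nonneg_left x4 (by positivity)
    linarith
  refine (Finset.prod_le_prod (fun p hp => zero_le_one.trans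
    (Dl_one_le hk (mem_PS hp).1 hδ)) h3).trans ?_
  rw [← Real.exp_sum, Finset.sum_add_distrib, ← Finset.mul_sum, ← Finset.mul_sum]
  apply Real.exp_le_exp.mpr
  have h7 := (abs_le.mp (h T hT)).2
  have h8 := h2 0 T
  have hk2 : 0 ≤ k ^ 2 := sq_nonneg k
  nlinarith

end DDaux

/-- sum over the primes in `(T^β, T]` (top block) of `p^{-2σ}`, `σ = 1/2 + c/log T` -/
theorem top_sum : ∃ C : ℝ, 0 < C ∧ ∀ c β : ℝ, 0 < β → β ≤ 1 → 1 ≤ c * β → ∃ T₀ : ℝ, ∀ T, T₀ ≤ T →
    ∑ p ∈ PS (Real.exp (β * Real.log T)) T, (p : ℝ) ^ (-(1 + 2 * c / Real.log T)) ≤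
      C * Real.exp (-(c * β)) := by
  obtain ⟨C, hC, h⟩ := blocks
  refine ⟨3, by norm_num, ?_⟩
  intro c β hβ hβ1 hcβ
  refine ⟨Real.exp (C / β), ?_⟩
  intro T hT
  have hT0 : 0 < T := (Real.exp_pos _).trans_le hT
  have hLT : C / β ≤ Real.log T := by
    rw [Real.le_log_iff_exp_le hT0]
    exact hT
  have hL0 : 0 < Real.log T := lt_of_lt_of_le (by positivity) hLT
  rw [div_le_iff₀ hβ, mul_comm] at hLT
  obtain ⟨n, hn⟩ := exists_block (M := Real.log T) hβ hL0
  have h1 := h c β T hβ hcβ hLT n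
  have h2 : T ≤ Real.exp (β * Real.exp n * Real.log T) := by
    calc T = Real.exp (Real.log T) := (Real.exp_log hT0).symm
      _ ≤ _ := Real.exp_le_exp.mpr hn
  have h3 : ∑ p ∈ PS (Real.exp (β * Real.log T)) T, (p : ℝ) ^ (-(1 + 2 * c / Real.log T)) ≤
      ∑ p ∈ PS (Real.exp (β * Real.log T)) (Real.exp (β * Real.exp n * Real.log T)),
        (p : ℝ) ^ (-(1 + 2 * (c / Real.log T))) := by
    rw [mul_div_assoc]
    exact Finset.sum_le_sum_of_subset_of_nonneg (PS_mono h2) fun p _ _ => by positivity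
  refine h3.trans (h1.trans ?_)
  apply mul_le_mul_of_nonneg_left _ (by norm_num)
  apply Real.exp_le_exp.mpr
  linarith

/-- comparison of the full normaliser with the product over `p ≤ T^β` -/
theorem DD_compare : ∃ C : ℝ, 0 < C ∧ ∀ c β : ℝ, 0 < β → β ≤ 1 → 1 ≤ c * β → ∃ T₀ : ℝ, ∀ T, T₀ ≤ T →
    ∀ k : ℝ, 0 < k → k ≤ 1 →
    ∏ p ∈ PS 0 (Real.exp (β * Real.log T)), Dl k ((p : ℝ) ^ (-(1 / 2 + c / Real.log T))) ≤
        DD k (1 / 2 + c / Real.log T) ∧
      DD k (1 / 2 + c / Real.log T) ≤ Real.exp (C * Real.exp (-(c * β))) *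
        ∏ p ∈ PS 0 (Real.exp (β * Real.log T)), Dl k ((p : ℝ) ^ (-(1 / 2 + c / Real.log T))) := by
  obtain ⟨C, hC, h⟩ := compare
  refine ⟨12, by norm_num, ?_⟩
  intro c β hβ hβ1 hcβ
  refine ⟨Real.exp (C / β), ?_⟩
  intro T hT k hk hk1
  have hT0 : 0 < T := (Real.exp_pos _).trans_le hT
  have hLT : C / β ≤ Real.log T := by
    rw [Real.le_log_iff_exp_le hT0]
    exact hT
  have hL0 : 0 < Real.log T := lt_of_lt_of_le (by positivity) hLT
  rw [div_le_iff₀ hβ, mul_comm] at hLT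
  have hc : 0 < c := by
    by_contra hcon
    push Not at hcon
    nlinarith
  obtain ⟨h1, h2⟩ := h c β T hβ hcβ hLT k hk hk1
  refine ⟨h1, h2.trans ?_⟩
  apply mul_le_mul_of_nonneg_right
  · apply Real.exp_le_exp.mpr
    have h3 : Real.exp (-(2 * (c * β))) ≤ Real.exp (-(c * β)) := by
      apply Real.exp_le_exp.mpr
      linarith
    have h4 : k ^ 2 ≤ 1 := by nlinarith
    have h5 := Real.exp_pos (-(2 * (c * β)))
    nlinarith
  · exact Finset.prod_nonneg fun p hp => zero_le_one.trans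
      (Dl_one_le hk (mem_PS hp).1 (by positivity))

/-- the partial product is not much smaller than `(log T)^{k²}` -/
theorem prod_lower : ∃ C : ℝ, 0 < C ∧ ∀ c β : ℝ, 0 < β → β ≤ 1 → 1 ≤ c * β → ∃ T₀ : ℝ, ∀ T, T₀ ≤ T →
    ∀ k : ℝ, 0 < k → k ≤ 1 →
    (Real.log T) ^ (k ^ 2) ≤ C * c *
      ∏ p ∈ PS 0 (Real.exp (β * Real.log T)), Dl k ((p : ℝ) ^ (-(1 / 2 + c / Real.log T))) := by
  obtain ⟨C, hC, h⟩ := prod_ge
  refine ⟨Real.exp C, Real.exp_pos _, ?_⟩
  intro c β hβ hβ1 hcβ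
  have hc : 1 ≤ c := by
    by_contra hcon
    push Not at hcon
    nlinarith
  have hc0 : 0 < c := by linarith
  refine ⟨Real.exp (2 * c), ?_⟩
  intro T hT k hk hk1
  have hT0 : 0 < T := (Real.exp_pos _).trans_le hT
  have hLT : 2 * c ≤ Real.log T := by
    rw [Real.le_log_iff_exp_le hT0]
    exact hT
  have hL0 : 0 < Real.log T := by linarith
  have h1 := h c (Real.log T) (Real.exp (β * Real.log T)) hc hLT (by
    apply Real.exp_le_exp.mpr
    apply mul_le_mul_of_nonneg_right _ hL0.le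
    rw [div_le_iff₀ hc0]
    linarith) k hk hk1
  have hk2 : k ^ 2 ≤ 1 := by nlinarith
  have hk20 : 0 ≤ k ^ 2 := sq_nonneg k
  have hlc : 0 ≤ Real.log c := Real.log_nonneg hc
  rw [Real.rpow_def_of_pos hL0]
  have h2 : Real.exp (Real.log (Real.log T) * k ^ 2) ≤
      Real.exp C * c * Real.exp (k ^ 2 * (Real.log (Real.log T) - Real.log c - C)) := by
    calc Real.exp (Real.log (Real.log T) * k ^ 2)
        ≤ Real.exp (C + Real.log c + k ^ 2 * (Real.log (Real.log T) - Real.log c - C)) := by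
          apply Real.exp_le_exp.mpr
          nlinarith
      _ = _ := by rw [Real.exp_add, Real.exp_add, Real.exp_log hc0]
  refine h2.trans ?_
  exact mul_le_mul_of_nonneg_left h1 (by positivity)

/-- for fixed `c` the normaliser is `(log T)^{k²} e^{O(k)}` -/
theorem DD_log (c : ℝ) (hc : 1 ≤ c) : ∃ C T₀ : ℝ, 0 < C ∧ ∀ T, T₀ ≤ T → ∀ k : ℝ, 0 < k → k ≤ 1 →
    Real.exp (-(C * k)) * (Real.log T) ^ (k ^ 2) ≤ DD k (1 / 2 + c / Real.log T) ∧
      DD k (1 / 2 + c / Real.log T) ≤ Real.exp (C * k) * (Real.log T) ^ (k ^ 2) := by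
  obtain ⟨C1, hC1, h1⟩ := compare
  obtain ⟨C2, hC2, h2⟩ := prod_ge
  obtain ⟨C3, hC3, h3⟩ := prod_le
  have hc0 : 0 < c := by linarith
  have hlc : 0 ≤ Real.log c := Real.log_nonneg hc
  refine ⟨Real.log c + C2 + C3 + 12, Real.exp (C1 + 2 * c), by linarith, ?_⟩
  intro T hT k hk hk1
  have hT0 : 0 < T := (Real.exp_pos _).trans_le hT
  have hLT : C1 + 2 * c ≤ Real.log T := by
    rw [Real.le_log_iff_exp_le hT0]
    exact hT
  have hL0 : 0 < Real.log T := by linarith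
  have hT2 : 2 ≤ T := by
    have h4 : Real.exp (Real.log T) = T := Real.exp_log hT0
    have h5 := Real.add_one_le_exp (Real.log T)
    linarith
  have hk2 : k ^ 2 ≤ k := by nlinarith
  have hk20 : 0 ≤ k ^ 2 := sq_nonneg k
  have h4 := h1 c 1 T one_pos (by linarith) (by linarith) k hk hk1
  rw [one_mul, Real.exp_log hT0] at h4
  have h5 := h2 c (Real.log T) T hc (by linarith) (by
    calc Real.exp (1 / c * Real.log T) ≤ Real.exp (Real.log T) := by
          apply Real.exp_le_exp.mpr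
          have : 1 / c ≤ 1 := by rw [div_le_one hc0]; exact hc
          nlinarith
      _ = T := Real.exp_log hT0) k hk hk1
  have h6 := h3 c T hc0.le hT2 k hk hk1
  rw [Real.rpow_def_of_pos hL0]
  constructor
  · refine le_trans ?_ (h5.trans h4.1)
    rw [← Real.exp_add]
    apply Real.exp_le_exp.mpr
    nlinarith
  · refine h4.2.trans ?_
    refine (mul_le_mul_of_nonneg_left h6 (Real.exp_pos _).le).trans ?_
    rw [← Real.exp_add, ← Real.exp_add]
    apply Real.exp_le_exp.mpr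
    have h7 : Real.exp (-(2 * (c * 1))) ≤ 1 := by
      rw [Real.exp_le_one_iff]
      linarith
    have h8 : 12 * k ^ 2 * Real.exp (-(2 * (c * 1))) ≤ 12 * k ^ 2 * 1 :=
      mul_le_mul_of_nonneg_left h7 (by positivity)
    nlinarith

end Pool.Agent.Lib.MP_973905_nt
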