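import Pool.Agent.Lib.MP_973905_nt.Sums
import Pool.Agent.Lib.MP_973905_nt.DD

namespace Pool.Agent.Lib.MP_973905_nt

open MeasureTheory ProbabilityTheory Complex Filter Topology

lemma ZZ_UU {T : ℝ} (hT : 1 < T) (M J : ℕ) (f : ℕ → ℂ) :
    ZZ (UU (SB T M J)) f = ∏ j ∈ Finset.range (J + 2), ZZ (Sj T M J j) f := by
  unfold ZZ UU
  rw [Finset.prod_biUnion (fun i _ j _ hij => (blk_SB hT M J).2 i j hij), Finset.prod_range]
  rfl

lemma ER_prod' {𝕜 : Type*} [RCLike 𝕜] {T : ℝ} (hT : 1 < T) (M J : ℕ) (Φ : ℕ → (ℕ → ℂ) → 𝕜)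
    (h : ∀ j f g, (∀ p ∈ Sj T M J j, f p = g p) → Φ j f = Φ j g) :
    ER (SB T M J) (fun f => ∏ j ∈ Finset.range (J + 2), Φ j f) =
      ∏ j ∈ Finset.range (J + 2), ES (Sj T M J j) (Φ j) := by
  simp only [Finset.prod_range]
  exact ER_prod (blk_SB hT M J) (fun j : Fin (J + 2) => Φ j) (fun j f g hfg => h j f g hfg)

/-- The normaliser from the first `J+1` blocks. -/
noncomputable def DJ (k σ T : ℝ) (M J : ℕ) : ℝ := ∏ j ∈ Finset.range (J + 1), DS k σ (Sj T M J j)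

lemma DS_eq {k σ : ℝ} (S : Finset ℕ) :
    DS k σ S = ∏ p ∈ S, Dl k ((p : ℝ) ^ (-σ)) := by
  have e : ∀ f : ℕ → ℂ, ‖ZZ S (tw σ f)‖ ^ (2 * k) =
      ∏ p ∈ S, ‖1 - ((p : ℝ) ^ (-σ) : ℝ) * f p‖ ^ (-(2 * k)) := by
    intro f
    rw [ZZ, norm_prod, ← Real.finsetProd_rpow _ _ (fun p _ => norm_nonneg _)]
    refine Finset.prod_congr rfl fun p _ => ?_
    rw [tw_real, norm_inv, Real.inv_rpow (norm_nonneg _), Real.rpow_neg (norm_nonneg _)]
  unfold DS
  simp only [e]
  rw [ES_prod S (fun p z => ‖1 - ((p : ℝ) ^ (-σ) : ℝ) * z‖ ^ (-(2 * k)))]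
  rfl

lemma DS_ge_one {k σ : ℝ} (hk : 0 < k) (hσ : 1 / 2 ≤ σ) {S : Finset ℕ} (hS : ∀ p ∈ S, p.Prime) :
    1 ≤ DS k σ S := by
  rw [DS_eq S]
  apply Finset.one_le_prod
  intro p hp
  have h1 := (prime_rpow_le (hS p hp) hσ).2
  have h2 : 0 ≤ (p : ℝ) ^ (-σ) := by positivity
  have h3 := Dl_ge hk h2 (by linarith)
  have : 0 ≤ k ^ 2 * ((p : ℝ) ^ (-σ)) ^ 2 := by positivity
  linarith

lemma ES_ZZ_eq_one {S : Finset ℕ} (hS : ∀ p ∈ S, p.Prime) {σ : ℝ} (hσ : 1 / 2 ≤ σ) :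
    ES S (fun f => ZZ S (tw σ f)) = 1 := by
  have e : ∀ f : ℕ → ℂ, ZZ S (tw σ f) = ∏ p ∈ S, (1 - ((p : ℝ) ^ (-σ) : ℝ) * f p)⁻¹ := by
    intro f
    rw [ZZ]
    exact Finset.prod_congr rfl fun p _ => by rw [tw_real]
  simp only [e]
  rw [ES_prod S (fun p z => (1 - (((p : ℝ) ^ (-σ) : ℝ) : ℂ) * z)⁻¹)]
  apply Finset.prod_eq_one
  intro p hp
  have h1 := (prime_rpow_le (hS p hp) hσ).2
  have h2 : 0 ≤ (p : ℝ) ^ (-σ) := by positivity
  set x : ℝ := (p : ℝ) ^ (-σ)
  have h3 : DifferentiableOn ℂ (fun z : ℂ => (1 - (x : ℂ) * z)⁻¹) (Metric.ball 0 (5 / 4)) := by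
    intro z hz
    have hz' : ‖z‖ < 5 / 4 := by simpa using hz
    have hne : 1 - (x : ℂ) * z ≠ 0 := by
      intro h
      have h4 : ‖(x : ℂ) * z‖ = 1 := by rw [← sub_eq_zero.mp h]; simp
      rw [norm_mul, norm_real, Real.norm_eq_abs, abs_of_nonneg h2] at h4
      nlinarith [norm_nonneg z]
    have h6 : DifferentiableAt ℂ (fun z : ℂ => 1 - (x : ℂ) * z) z := by fun_prop
    exact (h6.fun_inv hne).differentiableWithinAt
  have h5 : DiffContOnCl ℂ (fun z : ℂ => (1 - (x : ℂ) * z)⁻¹) (Metric.ball 0 |(1 : ℝ)|) := by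
    rw [abs_one]
    apply DifferentiableOn.diffContOnCl
    apply h3.mono
    rw [closure_ball _ one_ne_zero]
    intro z hz
    simp only [Metric.mem_closedBall, dist_zero_right, Metric.mem_ball] at hz ⊢
    linarith
  rw [h5.circleAverage]
  simp

lemma prod_sub_le {ι : Type*} (s : Finset ι) (z : ι → ℂ) (d e : ι → ℝ) (hd : ∀ i ∈ s, 0 ≤ d i)
    (he : ∀ i ∈ s, 0 ≤ e i) (h : ∀ i ∈ s, ‖z i - d i‖ ≤ d i * e i) :
    ‖∏ i ∈ s, z i - ∏ i ∈ s, (d i : ℂ)‖ ≤ (∏ i ∈ s, d i) * (∏ i ∈ s, (1 + e i) - 1) ∧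
      ‖∏ i ∈ s, z i‖ ≤ ∏ i ∈ s, (d i * (1 + e i)) := by
  classical
  induction s using Finset.induction_on with
  | empty => simp
  | insert a s ha ih =>
    obtain ⟨h1, h2⟩ := ih (fun i hi => hd i (Finset.mem_insert_of_mem hi))
      (fun i hi => he i (Finset.mem_insert_of_mem hi))
      (fun i hi => h i (Finset.mem_insert_of_mem hi))
    have ha' := Finset.mem_insert_self a s
    have hda := hd a ha'
    have hea := he a ha'
    have hza := h a ha'
    have hz2 : ‖z a‖ ≤ d a * (1 + e a) := by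
      have : ‖z a‖ ≤ ‖z a - d a‖ + ‖(d a : ℂ)‖ := by
        have := norm_add_le (z a - d a) (d a : ℂ)
        rwa [sub_add_cancel] at this
      rw [norm_real, Real.norm_eq_abs, abs_of_nonneg hda] at this
      linarith
    have hP : 0 ≤ ∏ i ∈ s, d i := Finset.prod_nonneg fun i hi => hd i (Finset.mem_insert_of_mem hi)
    have hQ : 0 ≤ ∏ i ∈ s, (1 + e i) :=
      Finset.prod_nonneg fun i hi => by have := he i (Finset.mem_insert_of_mem hi); linarith
    rw [Finset.prod_insert ha, Finset.prod_insert ha, Finset.prod_insert ha, Finset.prod_insert ha,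
      Finset.prod_insert ha]
    constructor
    · have e1 : z a * ∏ i ∈ s, z i - (d a : ℂ) * ∏ i ∈ s, (d i : ℂ) =
          z a * (∏ i ∈ s, z i - ∏ i ∈ s, (d i : ℂ)) + (z a - d a) * ∏ i ∈ s, (d i : ℂ) := by ring
      rw [e1]
      refine (norm_add_le _ _).trans ?_
      rw [norm_mul, norm_mul]
      have h3 : ‖∏ i ∈ s, (d i : ℂ)‖ = ∏ i ∈ s, d i := by
        rw [← ofReal_prod, norm_real, Real.norm_eq_abs, abs_of_nonneg hP]
      rw [h3]
      calc ‖z a‖ * ‖∏ i ∈ s, z i - ∏ i ∈ s, (d i : ℂ)‖ + ‖z a - d a‖ * ∏ i ∈ s, d i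
          ≤ (d a * (1 + e a)) * ((∏ i ∈ s, d i) * (∏ i ∈ s, (1 + e i) - 1)) +
            (d a * e a) * ∏ i ∈ s, d i := by gcongr
        _ = _ := by ring
    · rw [norm_mul]
      exact mul_le_mul hz2 h2 (norm_nonneg _) (mul_nonneg hda (by linarith))

/-- A block factor with a bad part is small. -/
lemma Fc_bad_le {T : ℝ} {M J : ℕ} {α : ℝ} (hα : |α| ≤ 1) {g h : Finset ℕ} {j : ℕ} (hj : j ∈ h)
    (f : ℕ → ℂ) : ‖Fc T M J α g h j f‖ ≤
      (1 / 4) ^ (rr M J j) * Real.exp (2 * ‖Pj M (Sj T M J j) f‖) := by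
  set P := Pj M (Sj T M J j) f
  have hr : ((rr M J j : ℕ) : ℝ) ≤ KK M J j / 4 := Nat.floor_le (by unfold KK; positivity)
  have h1 := pow_div_le (rr M J j) (show 0 < KK M J j from Real.exp_pos _) hr P
  have h2 : ‖(if j ∈ g then Ntr (ll M J j) α P else 1 : ℂ)‖ ≤ Real.exp ‖P‖ := by
    split_ifs
    · exact norm_Ntr_le _ hα P
    · rw [norm_one]; exact Real.one_le_exp (norm_nonneg _)
  rw [Fc, if_pos hj, norm_mul]
  calc _ ≤ Real.exp ‖P‖ * ((1 / 4) ^ (rr M J j) * Real.exp ‖P‖) := by gcongr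
    _ = (1 / 4) ^ (rr M J j) * (Real.exp ‖P‖ * Real.exp ‖P‖) := by ring
    _ = _ := by rw [← Real.exp_add]; congr 2; ring

lemma Fc_dep {T : ℝ} {M J : ℕ} {α : ℝ} {g h : Finset ℕ} {j : ℕ} {w : ℂ} {f f' : ℕ → ℂ}
    (hf : ∀ p ∈ Sj T M J j, f p = f' p) :
    Fc T M J α g h j (tw w f) = Fc T M J α g h j (tw w f') := by
  have h1 : Pj M (Sj T M J j) (tw w f) = Pj M (Sj T M J j) (tw w f') := by
    unfold Pj
    refine Finset.sum_congr rfl fun p hp => ?_
    simp only [tw, hf p hp]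
  simp only [Fc, h1]

lemma ZZ_dep {S : Finset ℕ} {w : ℂ} {f f' : ℕ → ℂ} (hf : ∀ p ∈ S, f p = f' p) :
    ZZ S (tw w f) = ZZ S (tw w f') := by
  unfold ZZ
  refine Finset.prod_congr rfl fun p hp => ?_
  simp only [tw, hf p hp]

theorem core_rand (δ : ℝ) (hδ : 0 < δ) : ∃ M₀ : ℕ, ∀ M : ℕ, M₀ ≤ M → ∀ c : ℝ,
    (M : ℝ) ≤ c * Real.exp (-(M : ℝ)) → ∃ T₀ : ℝ, 3 ≤ T₀ ∧ ∀ T, T₀ ≤ T → ∀ k : ℝ, 0 < k → k < 1 →
    ER (SB T M (JJ T)) (fun f =>
      ‖ZZ (UU (SB T M (JJ T))) (tw ((1 / 2 + c / Real.log T : ℝ) : ℂ) f)‖ ^ 2 *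
      ‖AA T M (JJ T) (k - 1) (Finset.range (JJ T + 1)) ∅ (tw ((1 / 2 + c / Real.log T : ℝ) : ℂ) f)‖ ^ 2) ≤
      (1 + δ) * DJ k (1 / 2 + c / Real.log T) T M (JJ T) ∧
    (∀ g h : Finset ℕ, g ∪ h = Finset.range (JJ T + 1) →
      ER (SB T M (JJ T)) (fun f =>
        ‖AA T M (JJ T) k g h (tw ((1 / 2 + c / Real.log T : ℝ) : ℂ) f)‖ ^ 2) ≤
        (1 + δ) * DJ k (1 / 2 + c / Real.log T) T M (JJ T) * ∏ j ∈ h, ss M (JJ T) j) ∧
    ‖ER (SB T M (JJ T)) (fun f =>
      ZZ (UU (SB T M (JJ T))) (tw ((1 / 2 + c / Real.log T : ℝ) : ℂ) f) *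
      AA T M (JJ T) (k - 1) (Finset.range (JJ T + 1)) ∅ (tw ((1 / 2 + c / Real.log T : ℝ) : ℂ) f) *
      (starRingEnd ℂ) (AA T M (JJ T) k (Finset.range (JJ T + 1)) ∅
        (tw ((1 / 2 + c / Real.log T : ℝ) : ℂ) f))) - (DJ k (1 / 2 + c / Real.log T) T M (JJ T) : ℂ)‖ ≤
      δ * DJ k (1 / 2 + c / Real.log T) T M (JJ T) := by
  obtain ⟨C₁, hC₁, hcore⟩ := block_core
  obtain ⟨M₁, hM₁⟩ := block_cond C₁ hC₁
  obtain ⟨C₂, hC₂, htop⟩ := ES_exp 1
  obtain ⟨C₃, hC₃, htops⟩ := top_sum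
  -- the small quantity
  have hsmall : ∀ᶠ M : ℕ in atTop, 3 * (4 * (2 : ℝ) ^ (-(((M : ℝ) - 3) / 2))) +
      6 * Real.exp (-(5 * Real.exp (3 / 4 * (M : ℝ)))) + (1 + C₂) * C₃ * Real.exp (-(M : ℝ)) ≤
      Real.log (1 + δ) := by
    have t1 : Tendsto (fun M : ℕ => (2 : ℝ) ^ (-(((M : ℝ) - 3) / 2))) atTop (𝓝 0) := by
      have h1 : Tendsto (fun M : ℕ => (((M : ℝ) - 3) / 2)) atTop atTop :=
        (tendsto_atTop_add_const_right _ (-3) tendsto_natCast_atTop_atTop).atTop_div_const (by norm_num)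
      have h2 : Tendsto (fun x : ℝ => (2 : ℝ) ^ (-x)) atTop (𝓝 0) := by
        have : (fun x : ℝ => (2 : ℝ) ^ (-x)) = fun x : ℝ => Real.exp (-(Real.log 2 * x)) := by
          ext x; rw [Real.rpow_def_of_pos (by norm_num)]; congr 1; ring
        rw [this]
        exact Real.tendsto_exp_neg_atTop_nhds_zero.comp
          (tendsto_id.const_mul_atTop (Real.log_pos (by norm_num)))
      exact h2.comp h1
    have t2 : Tendsto (fun M : ℕ => Real.exp (-(M : ℝ))) atTop (𝓝 0) :=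
      Real.tendsto_exp_neg_atTop_nhds_zero.comp tendsto_natCast_atTop_atTop
    have t3 : Tendsto (fun M : ℕ => Real.exp (-(5 * Real.exp (3 / 4 * (M : ℝ))))) atTop (𝓝 0) := by
      refine Real.tendsto_exp_neg_atTop_nhds_zero.comp ?_
      refine Tendsto.const_mul_atTop (by norm_num) (Real.tendsto_exp_atTop.comp ?_)
      exact Tendsto.const_mul_atTop (by norm_num) tendsto_natCast_atTop_atTop
    have t4 := ((t1.const_mul 4).const_mul 3).add (t3.const_mul 6) |>.add (t2.const_mul ((1 + C₂) * C₃))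
    simp only [mul_zero, add_zero] at t4
    exact (t4.eventually (eventually_le_nhds (Real.log_pos (by linarith))))
  obtain ⟨M₂, hM₂⟩ := eventually_atTop.mp hsmall
  refine ⟨max (max M₁ M₂) 4, fun M hM c hc => ?_⟩
  have hMM₁ : M₁ ≤ M := (le_max_left _ _).trans ((le_max_left _ _).trans hM)
  have hMM₂ : M₂ ≤ M := (le_max_right _ _).trans ((le_max_left _ _).trans hM)
  have hM4 : 4 ≤ M := (le_max_right _ _).trans hM
  have hM4' : (4 : ℝ) ≤ M := by exact_mod_cast hM4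
  obtain ⟨T₁, hT₁3, hT₁⟩ := hM₁ M hMM₁
  have hβ1 : Real.exp (-(M : ℝ)) ≤ 1 := by rw [Real.exp_le_one_iff]; linarith
  obtain ⟨T₂, hT₂⟩ := htops c (Real.exp (-(M : ℝ))) (Real.exp_pos _) hβ1 (by linarith)
  refine ⟨max T₁ T₂, hT₁3.trans (le_max_left _ _), fun T hT k hk0 hk1 => ?_⟩
  have hT3 : 3 ≤ T := hT₁3.trans ((le_max_left _ _).trans hT)
  have hT1 : 1 < T := by linarith
  have hL : 0 < Real.log T := Real.log_pos hT1
  have hc0 : 0 ≤ c := by
    by_contra hcon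
    push Not at hcon
    have : c * Real.exp (-(M : ℝ)) < 0 := mul_neg_of_neg_of_pos hcon (Real.exp_pos _)
    linarith
  set J := JJ T with hJ
  set σ : ℝ := 1 / 2 + c / Real.log T with hσdef
  have hσ : 1 / 2 ≤ σ := by rw [hσdef]; have : 0 ≤ c / Real.log T := by positivity
                            linarith
  have hσ0 : 0 < (σ : ℂ).re := by rw [ofReal_re]; linarith
  have hS : ∀ j, ∀ p ∈ Sj T M J j, p.Prime := fun j p hp => prime_Sj hT1 hp
  have hDS : ∀ j, 1 ≤ DS k σ (Sj T M J j) := fun j => DS_ge_one hk0 hσ (hS j)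
  have hDJ : 1 ≤ DJ k σ T M J := Finset.one_le_prod fun j _ => hDS j
  -- block data
  have hblk : ∀ j ∈ Finset.range (J + 1), _ := fun j hj =>
    hcore M (ll M J j) (Sj T M J j) σ k (by omega) (hS j) hσ hk0.le hk1.le (hDS j)
      (hT₁ T ((le_max_left _ _).trans hT) j (by have := Finset.mem_range.mp hj; omega) σ hσ).1
  have hbad : ∀ j ∈ Finset.range (J + 1), (1 / 16 : ℝ) ^ (rr M J j) *
      (16 * Real.exp (C₁ * ∑ p ∈ Sj T M J j, (p : ℝ) ^ (-(2 * σ)))) ≤ ss M J j := fun j hj =>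
    (hT₁ T ((le_max_left _ _).trans hT) j (by have := Finset.mem_range.mp hj; omega) σ hσ).2
  set ε : ℕ → ℝ := fun j => 3 * rho M (Sj T M J j) + 3 * Real.exp (-((ll M J j : ℝ) / 2)) with hε
  have hε0 : ∀ j, 0 ≤ ε j := fun j => by
    have := rho_nonneg M (Sj T M J j); simp only [hε]; positivity
  have hεsum : ∑ j ∈ Finset.range (J + 1), ε j ≤ 3 * (4 * (2 : ℝ) ^ (-(((M : ℝ) - 3) / 2))) +
      6 * Real.exp (-(5 * Real.exp (3 / 4 * (M : ℝ)))) := by
    simp only [hε]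
    rw [Finset.sum_add_distrib, ← Finset.mul_sum, ← Finset.mul_sum]
    have h1 := sum_rho hT1 (M := M) (J := J) (by omega)
    have h2 : ∑ j ∈ Finset.range (J + 1), Real.exp (-((ll M J j : ℝ) / 2)) ≤
        2 * Real.exp (-(5 * Real.exp (3 / 4 * (M : ℝ)))) := by
      refine le_trans (Finset.sum_le_sum fun j _ => ?_) (sum_exp_KK (J := J) ?_ (by norm_num))
      · apply Real.exp_le_exp.mpr
        have : 10 * KK M J j ≤ (ll M J j : ℝ) := Nat.le_ceil _
        linarith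
      · have := Real.one_le_exp (show 0 ≤ 3 / 4 * (M : ℝ) by positivity)
        linarith
    linarith
  set tt : ℝ := (1 + C₂) * C₃ * Real.exp (-(M : ℝ)) with htt
  have htt0 : 0 ≤ tt := by positivity
  have htotal : ∑ j ∈ Finset.range (J + 1), ε j + tt ≤ Real.log (1 + δ) :=
    le_trans (by linarith) (hM₂ M hMM₂)
  have hexp : Real.exp (∑ j ∈ Finset.range (J + 1), ε j + tt) ≤ 1 + δ := by
    rw [← Real.exp_log (show 0 < 1 + δ by linarith)]
    exact Real.exp_le_exp.mpr htotal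
  have hexp' : Real.exp (∑ j ∈ Finset.range (J + 1), ε j) ≤ 1 + δ :=
    le_trans (Real.exp_le_exp.mpr (by linarith)) hexp
  -- top block
  have hJtop : Sj T M J (J + 1) = PS (Real.exp (Real.exp (-(M : ℝ)) * Real.log T)) T := by
    rw [Sj, show J + 1 + 1 = J + 2 by ring, yy_last, yy, if_neg (by omega), if_pos le_rfl]
    rw [show J + 1 - 1 = J by omega, bet]
    congr 3
    congr 1
    ring
  have htopb : ES (Sj T M J (J + 1)) (fun f => ‖ZZ (Sj T M J (J + 1)) (tw σ f)‖ ^ 2) ≤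
      Real.exp tt := by
    have h1 := htop 1 1 (Sj T M J (J + 1)) σ 0 σ le_rfl (by norm_num) (by simp) (hS _) (by
      intro p hp
      rw [ofReal_re, yp, max_self]
      exact (prime_rpow_le (hS _ p hp) hσ).2)
    simp only [pow_one, zero_mul, exp_zero, mul_one, Nat.cast_one, one_mul, add_zero] at h1
    refine h1.trans (Real.exp_le_exp.mpr ?_)
    have h2 := hT₂ T ((le_max_right _ _).trans hT)
    rw [← hJtop] at h2
    have h3 : ∑ p ∈ Sj T M J (J + 1), (‖(p : ℂ) ^ (-(σ : ℂ))‖ ^ 2 + C₂ * yp (σ : ℂ).re σ p ^ 4) ≤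
        (1 + C₂) * ∑ p ∈ Sj T M J (J + 1), (p : ℝ) ^ (-(1 + 2 * c / Real.log T)) := by
      rw [Finset.mul_sum]
      refine Finset.sum_le_sum fun p hp => ?_
      have hp0 := (hS _ p hp).pos
      have e1 : ‖(p : ℂ) ^ (-(σ : ℂ))‖ = (p : ℝ) ^ (-σ) := by
        rw [norm_natCast_cpow_of_pos hp0]; simp
      have e2 : ((p : ℝ) ^ (-σ)) ^ 2 = (p : ℝ) ^ (-(1 + 2 * c / Real.log T)) := by
        rw [← Real.rpow_natCast, ← Real.rpow_mul (by positivity)]
        congr 1; rw [hσdef]; push_cast; ring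
      rw [ofReal_re, yp, max_self, e1, e2]
      have e3 : ((p : ℝ) ^ (-σ)) ^ 4 ≤ ((p : ℝ) ^ (-σ)) ^ 2 := by
        apply pow_le_pow_of_le_one (by positivity) _ (by norm_num)
        have := (prime_rpow_le (hS _ p hp) hσ).2
        linarith
      rw [e2] at e3
      nlinarith
    refine h3.trans ?_
    rw [htt, mul_assoc]
    gcongr
    refine h2.trans ?_
    gcongr
  -- ranges
  have hr2 : ∀ (Ψ : ℕ → ℝ), ∏ j ∈ Finset.range (J + 2), Ψ j =
      (∏ j ∈ Finset.range (J + 1), Ψ j) * Ψ (J + 1) := fun Ψ => Finset.prod_range_succ _ _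
  refine ⟨?_, ?_, ?_⟩
  · -- (a)
    set Φ : ℕ → (ℕ → ℂ) → ℝ := fun j f => ‖ZZ (Sj T M J j) (tw σ f) *
      (if j < J + 1 then Ntr (ll M J j) (k - 1) (Pj M (Sj T M J j) (tw σ f)) else 1)‖ ^ 2 with hΦ
    have e1 : ∀ f : ℕ → ℂ, ‖ZZ (UU (SB T M J)) (tw (σ : ℂ) f)‖ ^ 2 *
        ‖AA T M J (k - 1) (Finset.range (J + 1)) ∅ (tw (σ : ℂ) f)‖ ^ 2 =
        ∏ j ∈ Finset.range (J + 2), Φ j f := by
      intro f
      rw [← mul_pow, ← norm_mul, ZZ_UU hT1, AA, Finset.prod_pow, ← norm_prod]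
      congr 2
      rw [Finset.prod_range_succ, Finset.prod_range_succ _ (J + 1)]
      rw [if_neg (lt_irrefl _), mul_one, mul_right_comm, ← Finset.prod_mul_distrib]
      congr 1
      refine Finset.prod_congr rfl fun j hj => ?_
      rw [if_pos (Finset.mem_range.mp hj), Fc, if_pos hj, if_neg (Finset.notMem_empty _), mul_one]
    simp only [e1]
    rw [ER_prod' hT1 M J Φ (by
      intro j f g hfg
      simp only [hΦ]
      have h1 : ZZ (Sj T M J j) (tw (σ : ℂ) f) = ZZ (Sj T M J j) (tw (σ : ℂ) g) := ZZ_dep hfg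
      have h2 : Pj M (Sj T M J j) (tw (σ : ℂ) f) = Pj M (Sj T M J j) (tw (σ : ℂ) g) := by
        unfold Pj
        refine Finset.sum_congr rfl fun p hp => ?_
        simp only [tw, hfg p hp]
      rw [h1, h2]), hr2]
    have hΦ0 : ∀ j, 0 ≤ ES (Sj T M J j) (Φ j) := fun j => ES_nonneg fun ω => by
      simp only [hΦ]; positivity
    have h1 : ∏ j ∈ Finset.range (J + 1), ES (Sj T M J j) (Φ j) ≤
        ∏ j ∈ Finset.range (J + 1), (DS k σ (Sj T M J j) * Real.exp (ε j)) := by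
      refine Finset.prod_le_prod (fun j _ => hΦ0 j) fun j hj => ?_
      have h2 := (hblk j hj).1
      have e2 : ES (Sj T M J j) (Φ j) = ES (Sj T M J j) (fun f => ‖ZZ (Sj T M J j) (tw σ f) *
          Ntr (ll M J j) (k - 1) (Pj M (Sj T M J j) (tw σ f))‖ ^ 2) := by
        congr 1; ext f
        simp only [hΦ]
        rw [if_pos (Finset.mem_range.mp hj)]
      rw [e2]
      refine h2.trans ?_
      have : 0 ≤ DS k σ (Sj T M J j) := by linarith [hDS j]
      gcongr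
      simp only [hε]
      have := rho_nonneg M (Sj T M J j)
      linarith
    have h2 : ES (Sj T M J (J + 1)) (Φ (J + 1)) ≤ Real.exp tt := by
      refine le_trans (le_of_eq ?_) htopb
      congr 1; ext f
      simp only [hΦ]
      rw [if_neg (lt_irrefl _), mul_one]
    rw [Finset.prod_mul_distrib, ← Real.exp_sum] at h1
    calc (∏ j ∈ Finset.range (J + 1), ES (Sj T M J j) (Φ j)) * ES (Sj T M J (J + 1)) (Φ (J + 1))
        ≤ ((∏ j ∈ Finset.range (J + 1), DS k σ (Sj T M J j)) *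
            Real.exp (∑ j ∈ Finset.range (J + 1), ε j)) * Real.exp tt := by
          apply mul_le_mul h1 h2 (hΦ0 _)
          exact mul_nonneg (Finset.prod_nonneg fun j _ => by linarith [hDS j]) (Real.exp_pos _).le
      _ = DJ k σ T M J * Real.exp (∑ j ∈ Finset.range (J + 1), ε j + tt) := by
          rw [Real.exp_add, DJ]; ring
      _ ≤ DJ k σ T M J * (1 + δ) := by gcongr
      _ = _ := by ring
  · -- (b)
    intro g h hgh
    have hsub : h ⊆ Finset.range (J + 1) := by rw [← hgh]; exact Finset.subset_union_right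
    set Φ : ℕ → (ℕ → ℂ) → ℝ := fun j f =>
      ‖(if j < J + 1 then Fc T M J k g h j (tw σ f) else 1)‖ ^ 2 with hΦ
    have e1 : ∀ f : ℕ → ℂ, ‖AA T M J k g h (tw (σ : ℂ) f)‖ ^ 2 =
        ∏ j ∈ Finset.range (J + 2), Φ j f := by
      intro f
      rw [AA, Finset.prod_pow, ← norm_prod]
      congr 2
      rw [Finset.prod_range_succ _ (J + 1), if_neg (lt_irrefl _), mul_one]
      refine Finset.prod_congr rfl fun j hj => ?_
      rw [if_pos (Finset.mem_range.mp hj)]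
    simp only [e1]
    rw [ER_prod' hT1 M J Φ (by
      intro j f g' hfg
      simp only [hΦ]
      have h1 : Fc T M J k g h j (tw (σ : ℂ) f) = Fc T M J k g h j (tw (σ : ℂ) g') := Fc_dep hfg
      rw [h1]), hr2]
    have hΦ0 : ∀ j, 0 ≤ ES (Sj T M J j) (Φ j) := fun j => ES_nonneg fun ω => by
      simp only [hΦ]; positivity
    have h2 : ES (Sj T M J (J + 1)) (Φ (J + 1)) = 1 := by
      have : Φ (J + 1) = fun _ => 1 := by
        ext f; simp [hΦ]
      rw [this]; unfold ES; simp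
    rw [h2, mul_one]
    have hk : |k| ≤ 1 := by rw [abs_le]; constructor <;> linarith
    have h1 : ∏ j ∈ Finset.range (J + 1), ES (Sj T M J j) (Φ j) ≤
        ∏ j ∈ Finset.range (J + 1), ((DS k σ (Sj T M J j) * Real.exp (ε j)) *
          (if j ∈ h then ss M J j else 1)) := by
      refine Finset.prod_le_prod (fun j _ => hΦ0 j) fun j hj => ?_
      have hD := hDS j
      have hE : 1 ≤ Real.exp (ε j) := Real.one_le_exp (hε0 j)
      by_cases hjh : j ∈ h
      · rw [if_pos hjh]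
        have h3 := (hblk j hj).2.2.2 (rr M J j) (fun f => Fc T M J k g h j f)
          (fun f => Fc_bad_le hk hjh f)
        have e2 : ES (Sj T M J j) (Φ j) =
            ES (Sj T M J j) (fun f => ‖Fc T M J k g h j (tw σ f)‖ ^ 2) := by
          congr 1; ext f
          simp only [hΦ]
          rw [if_pos (Finset.mem_range.mp hj)]
        rw [e2]
        refine (h3.trans (hbad j hj)).trans ?_
        have hs : 0 ≤ ss M J j := (Real.exp_pos _).le
        have : 1 ≤ DS k σ (Sj T M J j) * Real.exp (ε j) := by nlinarith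
        nlinarith
      · rw [if_neg hjh, mul_one]
        have hjg : j ∈ g := by
          have : j ∈ g ∪ h := by rw [hgh]; exact hj
          exact (Finset.mem_union.mp this).resolve_right hjh
        have h3 := (hblk j hj).2.1
        have e2 : ES (Sj T M J j) (Φ j) =
            ES (Sj T M J j) (fun f => ‖Ntr (ll M J j) k (Pj M (Sj T M J j) (tw σ f))‖ ^ 2) := by
          congr 1; ext f
          simp only [hΦ]
          rw [if_pos (Finset.mem_range.mp hj), Fc, if_pos hjg, if_neg hjh, mul_one]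
        rw [e2]
        refine h3.trans ?_
        have : 0 ≤ DS k σ (Sj T M J j) := by linarith
        gcongr
        simp only [hε]
        have := rho_nonneg M (Sj T M J j)
        linarith
    rw [Finset.prod_mul_distrib, Finset.prod_mul_distrib, ← Real.exp_sum, Finset.prod_ite_mem,
      Finset.inter_eq_right.mpr hsub] at h1
    refine h1.trans ?_
    have hs : 0 ≤ ∏ j ∈ h, ss M J j := Finset.prod_nonneg fun j _ => (Real.exp_pos _).le
    calc (∏ j ∈ Finset.range (J + 1), DS k σ (Sj T M J j)) *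
          Real.exp (∑ j ∈ Finset.range (J + 1), ε j) * ∏ j ∈ h, ss M J j
        ≤ DJ k σ T M J * (1 + δ) * ∏ j ∈ h, ss M J j := by
          refine mul_le_mul_of_nonneg_right ?_ hs
          exact mul_le_mul_of_nonneg_left hexp' (zero_le_one.trans hDJ)
      _ = _ := by ring
  · -- (c)
    set Φ : ℕ → (ℕ → ℂ) → ℂ := fun j f => ZZ (Sj T M J j) (tw σ f) *
      (if j < J + 1 then Ntr (ll M J j) (k - 1) (Pj M (Sj T M J j) (tw σ f)) *
        (starRingEnd ℂ) (Ntr (ll M J j) k (Pj M (Sj T M J j) (tw σ f))) else 1) with hΦ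
    have e1 : ∀ f : ℕ → ℂ, ZZ (UU (SB T M J)) (tw (σ : ℂ) f) *
        AA T M J (k - 1) (Finset.range (J + 1)) ∅ (tw (σ : ℂ) f) *
        (starRingEnd ℂ) (AA T M J k (Finset.range (J + 1)) ∅ (tw (σ : ℂ) f)) =
        ∏ j ∈ Finset.range (J + 2), Φ j f := by
      intro f
      rw [ZZ_UU hT1, AA, AA, map_prod, Finset.prod_range_succ _ (J + 1),
        Finset.prod_range_succ _ (J + 1)]
      rw [show Φ (J + 1) f = ZZ (Sj T M J (J + 1)) (tw σ f) by
        simp only [hΦ]; rw [if_neg (lt_irrefl _), mul_one]]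
      rw [mul_assoc, ← Finset.prod_mul_distrib, mul_right_comm, ← Finset.prod_mul_distrib]
      congr 1
      refine Finset.prod_congr rfl fun j hj => ?_
      simp only [hΦ]
      rw [if_pos (Finset.mem_range.mp hj), Fc, Fc, if_pos hj, if_neg (Finset.notMem_empty _),
        if_pos hj, mul_one, mul_one]
    simp only [e1]
    rw [ER_prod' hT1 M J Φ (by
      intro j f g hfg
      simp only [hΦ]
      have h1 : ZZ (Sj T M J j) (tw (σ : ℂ) f) = ZZ (Sj T M J j) (tw (σ : ℂ) g) := ZZ_dep hfg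
      have h2 : Pj M (Sj T M J j) (tw (σ : ℂ) f) = Pj M (Sj T M J j) (tw (σ : ℂ) g) := by
        unfold Pj
        refine Finset.sum_congr rfl fun p hp => ?_
        simp only [tw, hfg p hp]
      rw [h1, h2]), Finset.prod_range_succ]
    have h2 : ES (Sj T M J (J + 1)) (Φ (J + 1)) = 1 := by
      have : Φ (J + 1) = fun f => ZZ (Sj T M J (J + 1)) (tw σ f) := by
        ext f; simp only [hΦ]; rw [if_neg (lt_irrefl _), mul_one]
      rw [this, ES_ZZ_eq_one (hS _) hσ]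
    rw [h2, mul_one, DJ, ofReal_prod]
    have h3 := (prod_sub_le (Finset.range (J + 1)) (fun j => ES (Sj T M J j) (Φ j))
      (fun j => DS k σ (Sj T M J j)) (fun j => Real.exp (3 * rho M (Sj T M J j)) - 1 +
        2 * Real.exp (-((ll M J j : ℝ) / 2))) (fun j _ => by linarith [hDS j]) (fun j _ => by
          have h4 : 1 ≤ Real.exp (3 * rho M (Sj T M J j)) :=
            Real.one_le_exp (by have := rho_nonneg M (Sj T M J j); positivity)
          have h5 := Real.exp_pos (-((ll M J j : ℝ) / 2))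
          linarith) (fun j hj => by
        have h4 := (hblk j hj).2.2.1
        have e2 : ES (Sj T M J j) (Φ j) = ES (Sj T M J j) (fun f => ZZ (Sj T M J j) (tw σ f) *
            Ntr (ll M J j) (k - 1) (Pj M (Sj T M J j) (tw σ f)) *
            (starRingEnd ℂ) (Ntr (ll M J j) k (Pj M (Sj T M J j) (tw σ f)))) := by
          congr 1; ext f
          simp only [hΦ]
          rw [if_pos (Finset.mem_range.mp hj), mul_assoc]
        rw [e2]; exact h4)).1
    refine h3.trans ?_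
    have h4 : ∏ j ∈ Finset.range (J + 1), (1 + (Real.exp (3 * rho M (Sj T M J j)) - 1 +
        2 * Real.exp (-((ll M J j : ℝ) / 2)))) ≤ 1 + δ := by
      refine le_trans (Finset.prod_le_prod (fun j _ => ?_) (fun j _ => ?_))
        (le_trans (le_of_eq (Real.exp_sum _ ε).symm) hexp')
      · have h4 : 1 ≤ Real.exp (3 * rho M (Sj T M J j)) :=
            Real.one_le_exp (by have := rho_nonneg M (Sj T M J j); positivity)
        have h5 := Real.exp_pos (-((ll M J j : ℝ) / 2))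
        linarith
      · simp only [hε]
        rw [Real.exp_add]
        have h4 : 1 ≤ Real.exp (3 * rho M (Sj T M J j)) :=
            Real.one_le_exp (by have := rho_nonneg M (Sj T M J j); positivity)
        have h5 := Real.exp_pos (-((ll M J j : ℝ) / 2))
        have h6 := Real.add_one_le_exp (3 * Real.exp (-((ll M J j : ℝ) / 2)))
        nlinarith
    have h5 : 0 ≤ ∏ j ∈ Finset.range (J + 1), DS k σ (Sj T M J j) :=
      Finset.prod_nonneg fun j _ => by linarith [hDS j]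
    nlinarith

end Pool.Agent.Lib.MP_973905_nt
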