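import Pool.Agent.Lib.MP_973905_nt.Gauss

namespace Pool.Agent.Lib.MP_973905_nt

open MeasureTheory ProbabilityTheory Complex Filter Topology

/-- `ζ(s)(s-1)/(s+1)`, analytic for `Re s > -1`. -/
noncomputable def zt (s : ℂ) : ℂ := riemannZeta₁ s / (s + 1)

/-- The factor `(s-1)/(s+1)`. -/
noncomputable def kp (s : ℂ) : ℂ := (s - 1) / (s + 1)

/-- A smooth cutoff: `1` on `[-1, 0.8]`, `0` outside `[-2, 0.85]`. -/
noncomputable def Phi (x : ℝ) : ℝ := Real.smoothTransition (17 - 20 * x) * Real.smoothTransition (x + 2)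

/-- The smoothed partial sum of the zeta function. -/
noncomputable def SS (T : ℝ) (f : ℕ → ℂ) : ℂ :=
  ∑ n ∈ Finset.Icc 1 ⌊T⌋₊, (Phi (Real.log n / Real.log T) : ℂ) * f n

lemma Phi_nonneg (x : ℝ) : 0 ≤ Phi x :=
  mul_nonneg (Real.smoothTransition.nonneg _) (Real.smoothTransition.nonneg _)

lemma Phi_le_one (x : ℝ) : Phi x ≤ 1 :=
  mul_le_one₀ (Real.smoothTransition.le_one _) (Real.smoothTransition.nonneg _)
    (Real.smoothTransition.le_one _)

lemma Phi_one {x : ℝ} (h1 : -1 ≤ x) (h2 : x ≤ 8 / 10) : Phi x = 1 := by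
  rw [Phi, Real.smoothTransition.one_of_one_le (by linarith),
    Real.smoothTransition.one_of_one_le (by linarith), mul_one]

lemma Phi_zero {x : ℝ} (h : 85 / 100 ≤ x) : Phi x = 0 := by
  rw [Phi, Real.smoothTransition.zero_of_nonpos (by linarith), zero_mul]

lemma Phi_zero' {x : ℝ} (h : x ≤ -2) : Phi x = 0 := by
  rw [Phi, Real.smoothTransition.zero_of_nonpos (x := x + 2) (by linarith), mul_zero]

lemma contDiff_Phi : ContDiff ℝ ((⊤ : ℕ∞) : WithTop ℕ∞) Phi := by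
  have h1 : ContDiff ℝ ((⊤ : ℕ∞) : WithTop ℕ∞) (fun x : ℝ => 17 - 20 * x) := by fun_prop
  have h2 : ContDiff ℝ ((⊤ : ℕ∞) : WithTop ℕ∞) (fun x : ℝ => x + 2) := by fun_prop
  exact ((Real.smoothTransition.contDiff (n := ⊤)).comp h1).mul
    ((Real.smoothTransition.contDiff (n := ⊤)).comp h2)

lemma dp_SS {T : ℝ} (hT : 1 < T) : DP (T ^ (85 / 100 : ℝ)) T (SS T) := by
  have hT0 : 0 < T := by linarith
  have hL : 0 < Real.log T := Real.log_pos hT
  have h1 : ∀ n ∈ Finset.Icc 1 ⌊T⌋₊, DP (T ^ (85 / 100 : ℝ)) 1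
      (fun f => (Phi (Real.log n / Real.log T) : ℂ) * f n) := by
    intro n hn
    rw [Finset.mem_Icc] at hn
    by_cases h : (n : ℝ) ≤ T ^ (85 / 100 : ℝ)
    · refine (dp_single (Phi (Real.log n / Real.log T) : ℂ) n hn.1 h).mono le_rfl ?_
      rw [norm_real, Real.norm_eq_abs, abs_of_nonneg (Phi_nonneg _)]
      exact Phi_le_one _
    · push Not at h
      have h2 : Phi (Real.log n / Real.log T) = 0 := by
        apply Phi_zero
        rw [le_div_iff₀ hL, ← Real.log_rpow hT0]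
        exact Real.log_le_log (Real.rpow_pos_of_pos hT0 _) h.le
      rw [h2]
      simpa using dp_zero (N := T ^ (85 / 100 : ℝ)) zero_le_one
  have h2 := dp_sum (Finset.Icc 1 ⌊T⌋₊) (M := fun _ => 1) h1
  refine h2.mono le_rfl ?_
  simp only [Finset.sum_const, Nat.card_Icc, add_tsub_cancel_right, nsmul_eq_mul, mul_one]
  exact Nat.floor_le hT0.le

lemma zeta_eq_zt {s : ℂ} (h1 : s ≠ 1) (h2 : s ≠ -1) : zt s = kp s * riemannZeta s := by
  rw [zt, kp, riemannZeta_eq_inv_sub_mul h1]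
  have h3 : s - 1 ≠ 0 := sub_ne_zero.mpr h1
  have h4 : s + 1 ≠ 0 := by
    intro h; apply h2; linear_combination h
  field_simp

end Pool.Agent.Lib.MP_973905_nt
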