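import Pool.Agent.Lib.MP_973905_nt.Transfer

namespace Pool.Agent.Lib.MP_973905_nt

open MeasureTheory ProbabilityTheory Complex Filter Topology

/-- The Euler product over the primes in `s`. -/
noncomputable def ZZ (s : Finset ℕ) (f : ℕ → ℂ) : ℂ := ∏ p ∈ s, (1 - f p)⁻¹

lemma ZZ_hasSum {s : Finset ℕ} (hs : ∀ p ∈ s, p.Prime) {f : ℕ → ℂ} (hf : CMul f)
    (hlt : ∀ p : ℕ, p.Prime → ‖f p‖ < 1) :
    (Summable fun m : Nat.factoredNumbers s => ‖f m‖) ∧
      HasSum (fun m : Nat.factoredNumbers s => f m) (ZZ s f) := by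
  let g : ℕ →* ℂ :=
    { toFun := fun n => if n = 0 then 0 else f n
      map_one' := by simp [hf.1]
      map_mul' := by
        intro a b
        by_cases ha : a = 0
        · simp [ha]
        by_cases hb : b = 0
        · simp [hb]
        simp [ha, hb, hf.2 a b ha hb] }
  have hg : ∀ n, n ≠ 0 → g n = f n := fun n hn => by simp [g, hn]
  have h := EulerProduct.summable_and_hasSum_factoredNumbers_prod_filter_prime_geometric (f := g)
    (fun {p} hp => by rw [hg p hp.ne_zero]; exact hlt p hp) s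
  have e1 : ∀ m : Nat.factoredNumbers s, g m = f m := fun m =>
    hg m (Nat.ne_zero_of_mem_factoredNumbers m.2)
  have e2 : ∏ p ∈ s with p.Prime, (1 - g p)⁻¹ = ZZ s f := by
    rw [Finset.filter_true_of_mem hs, ZZ]
    exact Finset.prod_congr rfl fun p hp => by rw [hg p (hs p hp).ne_zero]
  rw [e2] at h
  simpa only [e1] using h

variable {m : ℕ} {Sb : Fin m → Finset ℕ}

lemma norm_tw_XX (w : ℂ) (ω : (j : Fin m) → Sb j → ℝ) {n : ℕ} (hn : n ≠ 0) :
    ‖tw w (XX Sb ω) n‖ = (n : ℝ) ^ (-w.re) := by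
  rw [tw, norm_mul, norm_XX, mul_one]
  exact norm_fs w hn

lemma norm_tw_XX_lt {w : ℂ} (hw : 0 < w.re) (ω : (j : Fin m) → Sb j → ℝ) {p : ℕ} (hp : p.Prime) :
    ‖tw w (XX Sb ω) p‖ < 1 := by
  rw [norm_tw_XX w ω hp.ne_zero]
  apply Real.rpow_lt_one_of_one_lt_of_neg
  · exact_mod_cast hp.one_lt
  · linarith

lemma bc_ZZ {s : Finset ℕ} (hs : ∀ p ∈ s, p.Prime) {w : ℂ} (hw : 0 < w.re) :
    BC Sb (fun f => ZZ s (tw w f)) := by
  have h1 : ∀ p ∈ s, ∀ ω : (j : Fin m) → Sb j → ℝ, 1 - tw w (XX Sb ω) p ≠ 0 := by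
    intro p hp ω h
    have := norm_tw_XX_lt hw ω (hs p hp)
    rw [← sub_eq_zero.mp h] at this
    simp at this
  refine ⟨?_, ∏ p ∈ s, (1 - (p : ℝ) ^ (-w.re))⁻¹, fun ω => ?_⟩
  · refine continuous_finsetProd _ fun p hp => ?_
    refine Continuous.inv₀ ?_ (h1 p hp)
    exact continuous_const.sub (continuous_const.mul (continuous_XX p))
  · show ‖ZZ s (tw w (XX Sb ω))‖ ≤ _
    rw [ZZ, norm_prod]
    refine Finset.prod_le_prod (fun p _ => norm_nonneg _) fun p hp => ?_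
    have h2 := norm_tw_XX_lt hw ω (hs p hp)
    have h3 := norm_tw_XX w ω (hs p hp).ne_zero
    rw [h3] at h2
    rw [norm_inv]
    apply inv_anti₀ (by linarith)
    have := norm_sub_norm_le 1 (tw w (XX Sb ω) p)
    rw [norm_one, h3] at this
    exact this

lemma prime_of_mem_UU (hB : Blk Sb) {p : ℕ} (hp : p ∈ UU Sb) : p.Prime := by
  obtain ⟨j, hj⟩ := mem_UU.mp hp
  exact hB.1 j p hj

lemma ER_ZZ (hB : Blk Sb) {w : ℂ} (hw : 0 < w.re) {B : (ℕ → ℂ) → ℂ} (hBC : BC Sb B) :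
    ER Sb (fun f => ZZ (UU Sb) (tw w f) * B f) =
      ∑' n : Nat.factoredNumbers (UU Sb), ((n : ℕ) : ℂ) ^ (-w) * ER Sb (fun f => f n * B f) := by
  obtain ⟨C, hC⟩ := hBC.2
  have hne : Nonempty ((j : Fin m) → Sb j → ℝ) := ⟨fun _ _ => 0⟩
  obtain ⟨ω0⟩ := hne
  have hsum : Summable fun n : Nat.factoredNumbers (UU Sb) => ((n : ℕ) : ℝ) ^ (-w.re) := by
    have h := (ZZ_hasSum (s := UU Sb) (fun p hp => prime_of_mem_UU hB hp)
      (cmul_tw (cmul_XX Sb ω0) w) (fun p hp => norm_tw_XX_lt hw ω0 hp)).1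
    refine h.congr fun n => ?_
    rw [norm_tw_XX w ω0 (Nat.ne_zero_of_mem_factoredNumbers n.2)]
  have hb : ∀ n : Nat.factoredNumbers (UU Sb), BC Sb (fun f => tw w f n * B f) := by
    intro n
    exact ((bc_apply (n : ℕ)).const_mul _).mul hBC
  have key := hasSum_integral_of_summable_integral_norm
    (F := fun (n : Nat.factoredNumbers (UU Sb)) (ω : (j : Fin m) → Sb j → ℝ) =>
      tw w (XX Sb ω) n * B (XX Sb ω)) (μ := PP0 Sb) (fun n => (hb n).integrable) ?_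
  · have h1 : ∀ n : Nat.factoredNumbers (UU Sb),
        ∫ ω, tw w (XX Sb ω) n * B (XX Sb ω) ∂(PP0 Sb) =
          ((n : ℕ) : ℂ) ^ (-w) * ER Sb (fun f => f n * B f) := by
      intro n
      rw [ER_eq, ← integral_const_mul]
      refine integral_congr_ae (Filter.Eventually.of_forall fun ω => ?_)
      simp only [tw]; ring
    simp only [h1] at key
    rw [key.tsum_eq, ER_eq]
    refine integral_congr_ae (Filter.Eventually.of_forall fun ω => ?_)
    simp only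
    have h2 := (ZZ_hasSum (s := UU Sb) (fun p hp => prime_of_mem_UU hB hp)
      (cmul_tw (cmul_XX Sb ω) w) (fun p hp => norm_tw_XX_lt hw ω hp)).2
    exact ((h2.mul_right (B (XX Sb ω))).tsum_eq).symm
  · refine Summable.of_nonneg_of_le (fun n => integral_nonneg fun ω => norm_nonneg _) ?_
      (hsum.mul_right C)
    intro n
    have h3 : ∀ ω, ‖tw w (XX Sb ω) n * B (XX Sb ω)‖ ≤ ((n : ℕ) : ℝ) ^ (-w.re) * C := by
      intro ω
      rw [norm_mul, norm_tw_XX w ω (Nat.ne_zero_of_mem_factoredNumbers n.2)]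
      exact mul_le_mul_of_nonneg_left (hC ω) (by positivity)
    calc ∫ ω, ‖tw w (XX Sb ω) n * B (XX Sb ω)‖ ∂(PP0 Sb)
        ≤ ∫ ω, ((n : ℕ) : ℝ) ^ (-w.re) * C ∂(PP0 Sb) :=
          integral_mono (hb n).integrable.norm (integrable_const _) h3
      _ = ((n : ℕ) : ℝ) ^ (-w.re) * C := by simp

/-- For test functionals orthogonal to large frequencies, the Euler product may be replaced by the
smoothed partial sum. -/
lemma ER_ZZ_eq_SS (hB : Blk Sb) {T : ℝ} (hT : 1 < T)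
    (hU : ∀ n : ℕ, 1 ≤ n → (n : ℝ) ≤ T → n ∈ Nat.factoredNumbers (UU Sb))
    {w : ℂ} (hw : 0 < w.re) {B : (ℕ → ℂ) → ℂ} (hBC : BC Sb B)
    (h0 : ∀ n : ℕ, n ∈ Nat.factoredNumbers (UU Sb) → T ^ (8 / 10 : ℝ) < n →
      ER Sb (fun f => f n * B f) = 0) :
    ER Sb (fun f => ZZ (UU Sb) (tw w f) * B f) = ER Sb (fun f => SS T (tw w f) * B f) := by
  have hT0 : 0 < T := by linarith
  have hL : 0 < Real.log T := Real.log_pos hT
  rw [ER_ZZ hB hw hBC]
  have e1 : ER Sb (fun f => SS T (tw w f) * B f) = ∑ n ∈ Finset.Icc 1 ⌊T⌋₊,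
      (Phi (Real.log n / Real.log T) : ℂ) * ((n : ℂ) ^ (-w) * ER Sb (fun f => f n * B f)) := by
    have h1 : ∀ f : ℕ → ℂ, SS T (tw w f) * B f = ∑ n ∈ Finset.Icc 1 ⌊T⌋₊,
        ((Phi (Real.log n / Real.log T) : ℂ) * (n : ℂ) ^ (-w)) * (f n * B f) := by
      intro f
      rw [SS, Finset.sum_mul]
      refine Finset.sum_congr rfl fun n _ => ?_
      simp only [tw]; ring
    simp only [h1]
    rw [ER_sum _ fun n _ => ((bc_apply n).mul hBC).const_mul _]
    refine Finset.sum_congr rfl fun n _ => ?_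
    rw [ER_const_mul]; ring
  rw [e1]
  have e2 : ∑' n : Nat.factoredNumbers (UU Sb), ((n : ℕ) : ℂ) ^ (-w) *
      ER Sb (fun f => f n * B f) = ∑' n : ℕ, (Nat.factoredNumbers (UU Sb)).indicator
        (fun n : ℕ => (n : ℂ) ^ (-w) * ER Sb (fun f => f n * B f)) n :=
    tsum_subtype (Nat.factoredNumbers (UU Sb))
      (fun n : ℕ => (n : ℂ) ^ (-w) * ER Sb (fun f => f n * B f))
  rw [e2, tsum_eq_sum (s := Finset.Icc 1 ⌊T⌋₊)]
  · refine Finset.sum_congr rfl fun n hn => ?_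
    rw [Finset.mem_Icc] at hn
    have hnT : (n : ℝ) ≤ T := (Nat.le_floor_iff hT0.le).mp hn.2
    have hmem := hU n hn.1 hnT
    rw [Set.indicator_of_mem hmem]
    by_cases h : (n : ℝ) ≤ T ^ (8 / 10 : ℝ)
    · have h2 : Phi (Real.log n / Real.log T) = 1 := by
        have hn1 : (1 : ℝ) ≤ n := by exact_mod_cast hn.1
        apply Phi_one
        · have : 0 ≤ Real.log n / Real.log T := div_nonneg (Real.log_nonneg hn1) hL.le
          linarith
        · rw [div_le_iff₀ hL, ← Real.log_rpow hT0]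
          exact Real.log_le_log (by linarith) h
      rw [h2]; simp
    · push Not at h
      rw [h0 n hmem h]; simp
  · intro n hn
    by_cases hmem : n ∈ Nat.factoredNumbers (UU Sb)
    · rw [Set.indicator_of_mem hmem]
      have hn0 : n ≠ 0 := Nat.ne_zero_of_mem_factoredNumbers hmem
      rw [Finset.mem_Icc, not_and] at hn
      have h3 : ⌊T⌋₊ < n := by
        have := hn (Nat.one_le_iff_ne_zero.mpr hn0)
        omega
      have h4 : T < n := (Nat.floor_lt hT0.le).mp h3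
      have h5 : T ^ (8 / 10 : ℝ) < n := by
        refine lt_of_le_of_lt ?_ h4
        calc T ^ (8 / 10 : ℝ) ≤ T ^ (1 : ℝ) := Real.rpow_le_rpow_of_exponent_le hT.le (by norm_num)
          _ = T := Real.rpow_one T
      rw [h0 n hmem h5, mul_zero]
    · rw [Set.indicator_of_notMem hmem]

/-- Bessel's inequality. -/
lemma bessel {B : (ℕ → ℂ) → ℂ} (hBC : BC Sb B) (s : Finset ℕ)
    (hs : ∀ n ∈ s, n ∈ Nat.factoredNumbers (UU Sb)) :
    ∑ n ∈ s, ‖ER Sb (fun f => B f * (starRingEnd ℂ) (f n))‖ ^ 2 ≤ ER Sb (fun f => ‖B f‖ ^ 2) := by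
  set c : ℕ → ℂ := fun n => ER Sb (fun f => B f * (starRingEnd ℂ) (f n)) with hc
  have hP : BC Sb (fun f => ∑ n ∈ s, c n * f n) := bc_sum _ fun n _ => (bc_apply n).const_mul _
  have h0 : 0 ≤ ER Sb (fun f => ‖B f - ∑ n ∈ s, c n * f n‖ ^ 2) :=
    integral_nonneg fun ω => by positivity
  have e0 : ∀ z : ℂ, ((‖z‖ ^ 2 : ℝ) : ℂ) = z * (starRingEnd ℂ) z := by
    intro z; rw [mul_conj, normSq_eq_norm_sq]
  -- complex identity
  have h1 : ((ER Sb (fun f => ‖B f - ∑ n ∈ s, c n * f n‖ ^ 2) : ℝ) : ℂ) =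
      ((ER Sb (fun f => ‖B f‖ ^ 2) : ℝ) : ℂ) - ∑ n ∈ s, ((‖c n‖ ^ 2 : ℝ) : ℂ) := by
    have e1 : ((ER Sb (fun f => ‖B f - ∑ n ∈ s, c n * f n‖ ^ 2) : ℝ) : ℂ) =
        ER Sb (fun f => (B f * (starRingEnd ℂ) (B f) -
          ∑ n ∈ s, (starRingEnd ℂ) (c n) * (B f * (starRingEnd ℂ) (f n))) -
          (∑ n ∈ s, c n * (f n * (starRingEnd ℂ) (B f)) -
          ∑ n ∈ s, ∑ k ∈ s, (c n * (starRingEnd ℂ) (c k)) * (f n * (starRingEnd ℂ) (f k)))) := by
      simp only [ER_eq]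
      rw [← integral_complex_ofReal]
      refine integral_congr_ae (Filter.Eventually.of_forall fun ω => ?_)
      simp only
      rw [e0, map_sub, map_sum]
      simp only [map_mul]
      have : (∑ n ∈ s, c n * XX Sb ω n) *
          (∑ x ∈ s, (starRingEnd ℂ) (c x) * (starRingEnd ℂ) (XX Sb ω x)) =
          ∑ n ∈ s, ∑ k ∈ s, (c n * (starRingEnd ℂ) (c k)) *
            (XX Sb ω n * (starRingEnd ℂ) (XX Sb ω k)) := by
        rw [Finset.sum_mul_sum]
        refine Finset.sum_congr rfl fun n _ => Finset.sum_congr rfl fun k _ => by ring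
      have h2 : B (XX Sb ω) * (∑ x ∈ s, (starRingEnd ℂ) (c x) * (starRingEnd ℂ) (XX Sb ω x)) =
          ∑ n ∈ s, (starRingEnd ℂ) (c n) * (B (XX Sb ω) * (starRingEnd ℂ) (XX Sb ω n)) := by
        rw [Finset.mul_sum]
        refine Finset.sum_congr rfl fun n _ => by ring
      have h3 : (∑ n ∈ s, c n * XX Sb ω n) * (starRingEnd ℂ) (B (XX Sb ω)) =
          ∑ n ∈ s, c n * (XX Sb ω n * (starRingEnd ℂ) (B (XX Sb ω))) := by
        rw [Finset.sum_mul]
        refine Finset.sum_congr rfl fun n _ => by ring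
      rw [sub_mul, mul_sub, mul_sub, this, h2, h3]
    rw [e1]
    have b1 : BC Sb (fun f => B f * (starRingEnd ℂ) (B f)) := hBC.mul hBC.conj
    have b2 : ∀ n ∈ s, BC Sb (fun f => (starRingEnd ℂ) (c n) * (B f * (starRingEnd ℂ) (f n))) :=
      fun n _ => (hBC.mul (bc_apply n).conj).const_mul _
    have b3 : ∀ n ∈ s, BC Sb (fun f => c n * (f n * (starRingEnd ℂ) (B f))) :=
      fun n _ => ((bc_apply n).mul hBC.conj).const_mul _
    have b4 : ∀ n ∈ s, ∀ k ∈ s, BC Sb (fun f => (c n * (starRingEnd ℂ) (c k)) *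
        (f n * (starRingEnd ℂ) (f k))) :=
      fun n _ k _ => ((bc_apply n).mul (bc_apply k).conj).const_mul _
    have s1 : ER Sb (fun f => B f * (starRingEnd ℂ) (B f)) =
        ((ER Sb (fun f => ‖B f‖ ^ 2) : ℝ) : ℂ) := by
      simp only [ER_eq]
      rw [← integral_complex_ofReal]
      exact integral_congr_ae (Filter.Eventually.of_forall fun ω => (e0 _).symm)
    have s2 : ER Sb (fun f => ∑ n ∈ s, (starRingEnd ℂ) (c n) * (B f * (starRingEnd ℂ) (f n))) =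
        ∑ n ∈ s, ((‖c n‖ ^ 2 : ℝ) : ℂ) := by
      rw [ER_sum _ b2]
      refine Finset.sum_congr rfl fun n _ => ?_
      rw [ER_const_mul, e0, mul_comm]
    have s3 : ER Sb (fun f => ∑ n ∈ s, c n * (f n * (starRingEnd ℂ) (B f))) =
        ∑ n ∈ s, ((‖c n‖ ^ 2 : ℝ) : ℂ) := by
      rw [ER_sum _ b3]
      refine Finset.sum_congr rfl fun n _ => ?_
      rw [ER_const_mul, e0]
      congr 1
      simp only [hc, ER_eq]
      rw [← integral_conj]
      refine integral_congr_ae (Filter.Eventually.of_forall fun ω => ?_)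
      simp only [map_mul, conj_conj]; ring
    have s4 : ER Sb (fun f => ∑ n ∈ s, ∑ k ∈ s, (c n * (starRingEnd ℂ) (c k)) *
        (f n * (starRingEnd ℂ) (f k))) = ∑ n ∈ s, ((‖c n‖ ^ 2 : ℝ) : ℂ) := by
      rw [ER_sum _ fun n hn => bc_sum _ (b4 n hn)]
      refine Finset.sum_congr rfl fun n hn => ?_
      rw [ER_sum _ (b4 n hn), Finset.sum_eq_single n]
      · rw [ER_const_mul, ER_pair (hs n hn) (hs n hn), if_pos rfl, mul_one, e0]
      · intro k hk hkn
        rw [ER_const_mul, ER_pair (hs n hn) (hs k hk), if_neg (Ne.symm hkn), mul_zero]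
      · intro h; exact absurd hn h
    have i2 := bc_sum _ b2
    have i3 := bc_sum _ b3
    have i4 := bc_sum _ fun n hn => bc_sum _ (b4 n hn)
    rw [ER_sub (b1.sub i2) (i3.sub i4), ER_sub b1 i2, ER_sub i3 i4, s1, s2, s3, s4]
    ring
  have h2 : ER Sb (fun f => ‖B f - ∑ n ∈ s, c n * f n‖ ^ 2) =
      ER Sb (fun f => ‖B f‖ ^ 2) - ∑ n ∈ s, ‖c n‖ ^ 2 := by
    exact_mod_cast h1
  linarith

/-- Parseval's identity. -/
lemma parseval (s : Finset ℕ) (hs : ∀ n ∈ s, n ∈ Nat.factoredNumbers (UU Sb)) (c : ℕ → ℂ) :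
    ER Sb (fun f => ‖∑ n ∈ s, c n * f n‖ ^ 2) = ∑ n ∈ s, ‖c n‖ ^ 2 := by
  have e0 : ∀ z : ℂ, ((‖z‖ ^ 2 : ℝ) : ℂ) = z * (starRingEnd ℂ) z := by
    intro z; rw [mul_conj, normSq_eq_norm_sq]
  have h1 : ((ER Sb (fun f => ‖∑ n ∈ s, c n * f n‖ ^ 2) : ℝ) : ℂ) = ∑ n ∈ s, ((‖c n‖ ^ 2 : ℝ) : ℂ) := by
    have e1 : ((ER Sb (fun f => ‖∑ n ∈ s, c n * f n‖ ^ 2) : ℝ) : ℂ) =
        ER Sb (fun f => ∑ n ∈ s, ∑ k ∈ s, (c n * (starRingEnd ℂ) (c k)) *
          (f n * (starRingEnd ℂ) (f k))) := by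
      simp only [ER_eq]
      rw [← integral_complex_ofReal]
      refine integral_congr_ae (Filter.Eventually.of_forall fun ω => ?_)
      simp only
      rw [e0, map_sum, Finset.sum_mul_sum]
      refine Finset.sum_congr rfl fun n _ => Finset.sum_congr rfl fun k _ => ?_
      rw [map_mul]; ring
    have b4 : ∀ n ∈ s, ∀ k ∈ s, BC Sb (fun f => (c n * (starRingEnd ℂ) (c k)) *
        (f n * (starRingEnd ℂ) (f k))) :=
      fun n _ k _ => ((bc_apply n).mul (bc_apply k).conj).const_mul _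
    rw [e1, ER_sum _ fun n hn => bc_sum _ (b4 n hn)]
    refine Finset.sum_congr rfl fun n hn => ?_
    rw [ER_sum _ (b4 n hn), Finset.sum_eq_single n]
    · rw [ER_const_mul, ER_pair (hs n hn) (hs n hn), if_pos rfl, mul_one, e0]
    · intro k hk hkn
      rw [ER_const_mul, ER_pair (hs n hn) (hs k hk), if_neg (Ne.symm hkn), mul_zero]
    · intro h; exact absurd hn h
  exact_mod_cast h1

/-- Collecting the coefficients of a Dirichlet polynomial. -/
lemma DP.coeff {N M : ℝ} {G : (ℕ → ℂ) → ℂ} (h : DP N M G) :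
    ∃ a : ℕ → ℂ, ∀ f, CMul f → G f = ∑ n ∈ Finset.Icc 1 ⌊N⌋₊, a n * f n := by
  obtain ⟨k, c, n, h1, h2, h3⟩ := h
  refine ⟨fun l => ∑ i with n i = l, c i, fun f hf => ?_⟩
  rw [h3 f hf]
  have hmem : ∀ i ∈ (Finset.univ : Finset (Fin k)), n i ∈ Finset.Icc 1 ⌊N⌋₊ := by
    intro i _
    rw [Finset.mem_Icc]
    exact ⟨(h1 i).1, Nat.le_floor (h1 i).2⟩
  rw [← Finset.sum_fiberwise_of_maps_to hmem]
  refine Finset.sum_congr rfl fun l _ => ?_
  rw [Finset.sum_mul]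
  refine Finset.sum_congr rfl fun i hi => ?_
  rw [(Finset.mem_filter.mp hi).2]

end Pool.Agent.Lib.MP_973905_nt
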