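import Pool.Agent.Lib.MP_973905_nt.Fourth2

/-! `core42` with shifts slightly to the left of the critical line: `-1 ≤ Re z`. -/

namespace Pool.Agent.Lib.MP_973905_nt

open MeasureTheory ProbabilityTheory Complex Filter Topology

namespace XB

lemma exp_aux20 : Real.exp (1 / 20) ≤ 1.0513 := by
  have h20 : Real.exp (1 / 20) ^ 20 = Real.exp 1 := by
    rw [← Real.exp_nat_mul]; norm_num
  by_contra hcon
  push Not at hcon
  have h3 : (1.0513 : ℝ) ^ 20 < Real.exp (1 / 20) ^ 20 :=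
    pow_lt_pow_left₀ hcon (by norm_num) (by norm_num)
  rw [h20] at h3
  have h4 : (2.7183 : ℝ) < 1.0513 ^ 20 := by norm_num
  linarith [Real.exp_one_lt_d9]

/-- Bounds for `yp`, both shifts may be negative. -/
lemma yp_le3 {p : ℕ} (hp : p.Prime) {L a₁ a₂ c₁ : ℝ} (hL : 0 < L) (h1 : -c₁ ≤ a₁) (h2 : -c₁ ≤ a₂)
    (hs : c₁ * (Real.log p / L) ≤ 1 / 20) :
    yp (1 / 2 + a₁ / L) (1 / 2 + a₂ / L) p ≤ 3 / 4 ∧
      yp (1 / 2 + a₁ / L) (1 / 2 + a₂ / L) p ^ 2 ≤ 2 * (1 / p) ∧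
      yp (1 / 2 + a₁ / L) (1 / 2 + a₂ / L) p ^ 4 ≤ 4 * ((p : ℝ) ^ 2)⁻¹ := by
  have hp2 : (2 : ℝ) ≤ p := by exact_mod_cast hp.two_le
  have hp0 : (0 : ℝ) < p := by linarith
  have hlog : 0 ≤ Real.log p / L := div_nonneg (Real.log_nonneg (by linarith)) hL.le
  set x := (p : ℝ) ^ (-(1 / 2) : ℝ) with hx
  have hx0 : 0 < x := Real.rpow_pos_of_pos hp0 _
  have hx2 : x ^ 2 = 1 / p := by
    rw [hx, ← Real.rpow_natCast, ← Real.rpow_mul hp0.le, one_div]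
    norm_num
    exact Real.rpow_neg_one _
  have he := exp_aux20
  have hone : ∀ a : ℝ, -c₁ ≤ a → (p : ℝ) ^ (-(1 / 2 + a / L)) ≤ x * 1.0513 := by
    intro a ha
    rw [rpow_form hp.pos]
    gcongr
    refine le_trans (Real.exp_le_exp.2 ?_) he
    nlinarith
  have hy : yp (1 / 2 + a₁ / L) (1 / 2 + a₂ / L) p ≤ x * 1.0513 := max_le (hone _ h1) (hone _ h2)
  have hy0 := yp_nonneg (1 / 2 + a₁ / L) (1 / 2 + a₂ / L) p
  have hpinv : (1 : ℝ) / p ≤ 1 / 2 := by gcongr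
  have hy2 : yp (1 / 2 + a₁ / L) (1 / 2 + a₂ / L) p ^ 2 ≤ 1.1053 * (1 / p) := by
    calc yp (1 / 2 + a₁ / L) (1 / 2 + a₂ / L) p ^ 2 ≤ (x * 1.0513) ^ 2 :=
          pow_le_pow_left₀ hy0 hy 2
      _ = x ^ 2 * 1.0513 ^ 2 := by ring
      _ ≤ 1.1053 * (1 / p) := by
          rw [hx2]
          have : (0 : ℝ) ≤ 1 / p := by positivity
          nlinarith
  have hpp : (0 : ℝ) ≤ 1 / p := by positivity
  refine ⟨?_, by linarith, ?_⟩
  · nlinarith
  · have h4 : yp (1 / 2 + a₁ / L) (1 / 2 + a₂ / L) p ^ 4 =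
        (yp (1 / 2 + a₁ / L) (1 / 2 + a₂ / L) p ^ 2) ^ 2 := by rw [← pow_mul]
    rw [h4]
    refine (pow_le_pow_left₀ (by positivity) (show _ ≤ 2 * (1 / (p : ℝ)) by linarith) 2).trans
      (le_of_eq ?_)
    field_simp
    norm_num

/-- The top block, slightly to the left of the critical line. -/
lemma top_block43 : ∃ C : ℝ, 0 ≤ C ∧ ∀ (S : Finset ℕ) (w₁ : ℂ),
    (∀ p ∈ S, p.Prime) → (∀ p ∈ S, 16 ≤ p) →
    (∀ p ∈ S, (p : ℝ) ^ (-w₁.re) ≤ (p : ℝ) ^ (-(1 / 2) : ℝ) * Real.exp 1) →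
    ES S (fun f => ‖ZZ S (tw w₁ f)‖ ^ 4) ≤ Real.exp (C * ∑ p ∈ S, (1 : ℝ) / p) := by
  obtain ⟨C1, hC1, h1⟩ := ES_exp 1
  refine ⟨(4 + C1) * 9, by positivity, fun S w₁ hS h16 hw => ?_⟩
  have hy : ∀ p ∈ S, yp w₁.re w₁.re p ^ 2 ≤ 1 / p * 7.4 := by
    intro p hp
    have hp0 : (0 : ℝ) < p := by exact_mod_cast (hS p hp).pos
    have hx2 : ((p : ℝ) ^ (-(1 / 2) : ℝ)) ^ 2 = 1 / p := by
      rw [← Real.rpow_natCast, ← Real.rpow_mul hp0.le, one_div]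
      norm_num
      exact Real.rpow_neg_one _
    have h4 : Real.exp 1 ^ 2 ≤ 7.4 := by
      have h3 := Real.exp_one_lt_d9.le
      have h5 := Real.exp_pos 1
      nlinarith
    rw [yp, max_self]
    calc ((p : ℝ) ^ (-w₁.re)) ^ 2 ≤ ((p : ℝ) ^ (-(1 / 2) : ℝ) * Real.exp 1) ^ 2 :=
          pow_le_pow_left₀ (by positivity) (hw p hp) 2
      _ = 1 / p * Real.exp 1 ^ 2 := by rw [mul_pow, hx2]
      _ ≤ _ := by gcongr
  have hy' : ∀ p ∈ S, yp w₁.re w₁.re p ≤ 3 / 4 := by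
    intro p hp
    have hp2 : (16 : ℝ) ≤ p := by exact_mod_cast h16 p hp
    have h2 := hy p hp
    have h3 : (1 : ℝ) / p ≤ 1 / 16 := by gcongr
    nlinarith [yp_nonneg w₁.re w₁.re p]
  have g := h1 1 2 S w₁ 0 w₁.re le_rfl (by norm_num) (by simp) hS hy'
  simp only [zero_mul, exp_zero, mul_one, add_zero] at g
  have e0 : (fun f : ℕ → ℂ => ‖ZZ S (tw w₁ f)‖ ^ 4) = fun f => ‖ZZ S (tw w₁ f) ^ 2‖ ^ 2 := by
    funext f
    rw [norm_pow]; ring
  rw [e0]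
  refine g.trans (Real.exp_le_exp.2 ?_)
  rw [Finset.mul_sum]
  refine Finset.sum_le_sum fun p hp => ?_
  have hp0 := (hS p hp).pos
  have hy0 := yp_nonneg w₁.re w₁.re p
  have h2 : ‖((2 : ℕ) : ℂ) * (p : ℂ) ^ (-w₁)‖ = 2 * yp w₁.re w₁.re p := by
    rw [norm_mul, norm_natCast_cpow_of_pos hp0, yp, max_self]; simp
  rw [h2]
  have h3 : yp w₁.re w₁.re p ^ 4 ≤ yp w₁.re w₁.re p ^ 2 :=
    pow_le_pow_of_le_one hy0 (by linarith [hy' p hp]) (by norm_num)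
  have h4 := hy p hp
  have h5 : (0 : ℝ) ≤ 1 / p := by positivity
  have h6 : C1 * yp w₁.re w₁.re p ^ 4 ≤ C1 * (1 / p * 7.4) := by
    gcongr
    exact h3.trans h4
  have h7 : 0 ≤ C1 * (1 / (p : ℝ)) := by positivity
  nlinarith

/-- The exponent at a prime. -/
lemma expo43_le {k c c₁ a₂ θ : ℝ} {z : ℂ} (hk0 : 0 ≤ k) (hk1 : k ≤ 2) (hθ : 0 ≤ θ)
    (hz : -1 ≤ z.re) (h1 : -c₁ ≤ a₂) (h2 : a₂ ≤ c) (hc1 : 1 ≤ c₁) (hc : 0 ≤ c)
    (hs : c₁ * θ ≤ 1 / 2) :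
    ‖2 * cexp (-(z * θ)) + ((k - 2 : ℝ) : ℂ) * (Real.exp (-(a₂ * θ)) : ℝ)‖ ^ 2 ≤
      k ^ 2 + 96 * min 1 (‖z‖ * θ) + 96 * min 1 (c * θ) + 96 * (c₁ * θ) := by
  set m1 := min 1 (‖z‖ * θ) with hm1
  set m2 := min 1 (c * θ) with hm2
  have m10 : 0 ≤ m1 := le_min zero_le_one (by positivity)
  have m20 : 0 ≤ m2 := le_min zero_le_one (by positivity)
  have m11 : m1 ≤ 1 := min_le_left _ _
  have m21 : m2 ≤ 1 := min_le_left _ _
  have hθ2 : θ ≤ 1 / 2 := by nlinarith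
  have hU : ‖cexp (-(z * θ)) - 1‖ ≤ 3 * m1 := by
    have hn : ‖-(z * (θ : ℂ))‖ = ‖z‖ * θ := by
      rw [norm_neg, norm_mul, norm_real, Real.norm_eq_abs, abs_of_nonneg hθ]
    rcases le_total (‖z‖ * θ) 1 with h | h
    · rw [hm1, min_eq_right h, ← hn]
      have := norm_exp_sub_one_le (x := -(z * (θ : ℂ))) (by rw [hn]; exact h)
      have h0 : 0 ≤ ‖-(z * (θ : ℂ))‖ := norm_nonneg _
      linarith
    · rw [hm1, min_eq_left h]
      refine (norm_sub_le _ _).trans ?_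
      rw [norm_one, norm_exp]
      have : Real.exp (-(z * (θ : ℂ))).re ≤ 2 := by
        have h3 : (-(z * (θ : ℂ))).re ≤ 1 / 2 := by
          simp only [neg_re, mul_re, ofReal_re, ofReal_im, mul_zero, sub_zero]
          nlinarith
        have h4 : Real.exp (1 / 2) ≤ 2 := by
          have h5 : Real.exp (1 / 2) ^ 2 = Real.exp 1 := by
            rw [← Real.exp_nat_mul]; norm_num
          have h6 := Real.exp_one_lt_d9
          have h7 := Real.exp_pos (1 / 2)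
          nlinarith
        exact (Real.exp_le_exp.2 h3).trans h4
      linarith
  have hV : |Real.exp (-(a₂ * θ)) - 1| ≤ 2 * m2 + 2 * (c₁ * θ) := by
    have hc1θ : 0 ≤ c₁ * θ := mul_nonneg (by linarith) hθ
    rcases le_total 0 a₂ with h | h
    · have h0 : 0 ≤ a₂ * θ := mul_nonneg h hθ
      have h3 : Real.exp (-(a₂ * θ)) ≤ 1 := by rw [Real.exp_le_one_iff]; linarith
      rw [abs_of_nonpos (by linarith)]
      have h4 := Real.add_one_le_exp (-(a₂ * θ))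
      have h5 : a₂ * θ ≤ c * θ := mul_le_mul_of_nonneg_right h2 hθ
      have h6 : 0 < Real.exp (-(a₂ * θ)) := Real.exp_pos _
      have h7 : -(Real.exp (-(a₂ * θ)) - 1) ≤ m2 := by
        rw [hm2]
        apply le_min <;> linarith
      linarith
    · have h0 : |-(a₂ * θ)| ≤ c₁ * θ := by
        rw [abs_of_nonneg (by nlinarith)]
        nlinarith
      have := Real.abs_exp_sub_one_le (x := -(a₂ * θ)) (by linarith)
      linarith
  set E := 6 * m1 + (4 * m2 + 4 * (c₁ * θ)) with hE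
  have hc1θ : 0 ≤ c₁ * θ := mul_nonneg (by linarith) hθ
  have hE0 : 0 ≤ E := by positivity
  have hE10 : E ≤ 12 := by linarith
  have hnorm : ‖2 * cexp (-(z * θ)) + ((k - 2 : ℝ) : ℂ) * (Real.exp (-(a₂ * θ)) : ℝ)‖ ≤ k + E := by
    have e : 2 * cexp (-(z * θ)) + ((k - 2 : ℝ) : ℂ) * (Real.exp (-(a₂ * θ)) : ℝ) =
        (k : ℂ) + (2 * (cexp (-(z * θ)) - 1) + ((k - 2 : ℝ) : ℂ) *
          ((Real.exp (-(a₂ * θ)) - 1 : ℝ) : ℂ)) := by
      push_cast; ring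
    rw [e]
    refine (norm_add_le _ _).trans ?_
    rw [norm_real, Real.norm_eq_abs, abs_of_nonneg hk0]
    gcongr
    refine (norm_add_le _ _).trans ?_
    rw [norm_mul, norm_mul, norm_real, norm_real, Real.norm_eq_abs, Real.norm_eq_abs]
    have h3 : |k - 2| ≤ 2 := by rw [abs_le]; constructor <;> linarith
    have h4 : |k - 2| * |Real.exp (-(a₂ * θ)) - 1| ≤ 2 * (2 * m2 + 2 * (c₁ * θ)) :=
      mul_le_mul h3 hV (abs_nonneg _) (by norm_num)
    have h5 : ‖(2 : ℂ)‖ = 2 := by simp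
    rw [h5]
    linarith
  have hkE : k ^ 2 + 16 * E ≤ k ^ 2 + 96 * m1 + 96 * m2 + 96 * (c₁ * θ) := by
    rw [hE]; linarith
  calc ‖2 * cexp (-(z * θ)) + ((k - 2 : ℝ) : ℂ) * (Real.exp (-(a₂ * θ)) : ℝ)‖ ^ 2
      ≤ (k + E) ^ 2 := pow_le_pow_left₀ (norm_nonneg _) hnorm 2
    _ ≤ k ^ 2 + 16 * E := by nlinarith [mul_nonneg hk0 hE0]
    _ ≤ _ := hkE

/-- Fourth moment of the Euler product with `AA` of exponent `k - 2`, `-1 ≤ Re z`. -/
theorem core43 : ∃ C : ℝ, 0 < C ∧ ∀ c₁ : ℝ, 1 ≤ c₁ → ∃ M₀ : ℕ, 1 ≤ M₀ ∧ ∀ M : ℕ, M₀ ≤ M →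
    ∃ T₀ : ℝ, 3 ≤ T₀ ∧ ∀ T, T₀ ≤ T → ∀ k : ℝ, 1 ≤ k → k ≤ 2 →
    ∀ g h : Finset ℕ, g ∪ h = Finset.range (JJ T + 1) → ∀ (z : ℂ) (a₂ c : ℝ), 0 ≤ c → -1 ≤ z.re →
    -c₁ ≤ a₂ → a₂ ≤ c →
    ER (SB T M (JJ T)) (fun f =>
        ‖ZZ (UU (SB T M (JJ T))) (tw ((1 / 2 : ℂ) + z / Real.log T) f)‖ ^ 4 *
        ‖AA T M (JJ T) (k - 2) g h (tw ((1 / 2 + a₂ / Real.log T : ℝ) : ℂ) f)‖ ^ 2) ≤
      Real.exp (C * M) * (1 + ‖z‖) ^ 96 * (1 + c) ^ 96 * (Real.log T) ^ (k ^ 2) *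
        ∏ j ∈ h, ss M (JJ T) j := by
  obtain ⟨Cg, hCg, good⟩ := good_block42
  obtain ⟨Cb, hCb, bad⟩ := bad_block42
  obtain ⟨Ct, hCt, top⟩ := top_block43
  obtain ⟨Cm, hCm, hmin⟩ := sum_min
  obtain ⟨Cs, hCs, hS0⟩ := sum_inv_S0
  obtain ⟨Cr, hCr, hrange⟩ := sum_inv_block
  obtain ⟨C1, hC1, hlogdiv⟩ := sum_log_div_le
  obtain ⟨C3, hC3, hinv⟩ := sum_inv
  set C := 4 * C3 + 192 * Cm + 100 + 8 * Cg + 165 * Real.exp (4 * Cg) + 2 * Ct with hC
  refine ⟨C, by positivity, fun c₁ hc₁1 => ?_⟩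
  have hc₁ : 0 < c₁ := by linarith
  refine ⟨⌈40 * c₁ + 100 + 80 * Cb⌉₊ + 1, by omega, fun M hM => ?_⟩
  have hMr : 40 * c₁ + 100 + 80 * Cb ≤ M := by
    have h1 := Nat.le_ceil (40 * c₁ + 100 + 80 * Cb)
    have h2 : (⌈40 * c₁ + 100 + 80 * Cb⌉₊ : ℝ) ≤ M := by exact_mod_cast (by omega :
      ⌈40 * c₁ + 100 + 80 * Cb⌉₊ ≤ M)
    linarith
  have hM1 : 1 ≤ M := by omega
  have hM1' : (1 : ℝ) ≤ M := by exact_mod_cast hM1
  set D := Cr + 10 * (6 + 2 * (Cb + Cg) * (1 + Cs)) + 3 with hD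
  obtain ⟨T₀, hT₀, hev⟩ := eventually_T M (c₁ * 20) D (c₁ * C1)
  refine ⟨T₀, hT₀, fun T hT k hkM hk1 g h hgh z a₂ c hc hz ha2 ha2c => ?_⟩
  have hk0 : 0 ≤ k := by linarith
  obtain ⟨hb1, hLc, hbet, hK0, hLc₁⟩ := hev T hT
  have hT3 : 3 ≤ T := hT₀.trans hT
  have hT1 : 1 < T := by linarith
  have hT0 : 0 < T := by linarith
  have hL : 0 < Real.log T := Real.log_pos hT1
  set J := JJ T with hJ
  set L := Real.log T with hLdef
  set b := Real.log L with hb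
  have hα : |k - 2| ≤ 1 := by rw [abs_le]; constructor <;> linarith
  have hDC : Cr ≤ D := by
    have : 0 ≤ 10 * (6 + 2 * (Cb + Cg) * (1 + Cs)) := by positivity
    linarith
  have hD2 : 3 ≤ D := by
    have : 0 ≤ 10 * (6 + 2 * (Cb + Cg) * (1 + Cs)) := by positivity
    linarith
  obtain ⟨hj, htop⟩ := hrange T hT3 M J (hDC.trans hbet)
  have hcM : c₁ * Real.exp (-(M : ℝ)) ≤ 1 / 40 := by
    rw [Real.exp_neg, ← div_eq_mul_inv, div_le_iff₀ (Real.exp_pos _)]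
    have := Real.add_one_le_exp (M : ℝ)
    linarith
  have hbJ : bet M J J = Real.exp (-(M : ℝ)) := by
    rw [bet]; congr 1; ring
  -- the primes of the lower blocks
  have hθ : ∀ j, j ≤ J → ∀ p ∈ Sj T M J j, c₁ * (Real.log p / L) ≤ 1 / 40 := by
    intro j hj p hp
    have hp' := (mem_Sj hT1).1 hp
    have hp1 : (0 : ℝ) < p := by exact_mod_cast hp'.1.pos
    have h1 : Real.log p ≤ bet M J J * L := by
      rw [← log_yy (le_refl J)]
      exact Real.log_le_log hp1 (hp'.2.2.trans (yy_mono hT1 M J (by omega)))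
    have h2 : Real.log p / L ≤ bet M J J := by
      rw [div_le_iff₀ hL]; exact h1
    rw [hbJ] at h2
    calc c₁ * (Real.log p / L) ≤ c₁ * Real.exp (-(M : ℝ)) := by gcongr
      _ ≤ _ := hcM
  have hre : ((1 / 2 : ℂ) + z / (L : ℂ)).re = 1 / 2 + z.re / L := by
    rw [add_re, div_ofReal_re]; norm_num
  have hyp : ∀ j, j ≤ J → ∀ p ∈ Sj T M J j,
      yp ((1 / 2 : ℂ) + z / (L : ℂ)).re (1 / 2 + a₂ / L) p ≤ 3 / 4 ∧
      yp ((1 / 2 : ℂ) + z / (L : ℂ)).re (1 / 2 + a₂ / L) p ^ 2 ≤ 2 * (1 / p) ∧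
      yp ((1 / 2 : ℂ) + z / (L : ℂ)).re (1 / 2 + a₂ / L) p ^ 4 ≤ 4 * ((p : ℝ) ^ 2)⁻¹ := by
    intro j hj p hp
    rw [hre]
    exact yp_le3 (prime_Sj hT1 hp) hL (by linarith) ha2 (by have := hθ j hj p hp; linarith)
  set w₁ : ℂ := (1 / 2 : ℂ) + z / (L : ℂ) with hw₁
  set w₂ : ℝ := 1 / 2 + a₂ / L with hw₂
  have hw₁re : 1 / 4 ≤ w₁.re := by
    rw [hre]
    have h1 : -(1 / 20) ≤ z.re / L := by
      rw [le_div_iff₀ hL]
      have : 20 ≤ L := by linarith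
      linarith
    linarith
  set Y : ℕ → ℝ := fun j => ∑ p ∈ Sj T M J j, yp w₁.re w₂ p ^ 2 with hY
  have hY0 : Y 0 ≤ 2 * (b + Cs) := by
    calc Y 0 ≤ ∑ p ∈ Sj T M J 0, 2 * (1 / (p : ℝ)) :=
          Finset.sum_le_sum fun p hp => (hyp 0 (Nat.zero_le _) p hp).2.1
      _ = 2 * ∑ p ∈ Sj T M J 0, 1 / (p : ℝ) := by rw [Finset.mul_sum]
      _ ≤ _ := by
          have := hS0 T hT3 M J
          gcongr
  have hYj : ∀ j, 1 ≤ j → j ≤ J → Y j ≤ 4 := by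
    intro j h1 h2
    calc Y j ≤ ∑ p ∈ Sj T M J j, 2 * (1 / (p : ℝ)) :=
          Finset.sum_le_sum fun p hp => (hyp j h2 p hp).2.1
      _ = 2 * ∑ p ∈ Sj T M J j, 1 / (p : ℝ) := by rw [Finset.mul_sum]
      _ ≤ 2 * 2 := by
          have := hj j h1 h2
          gcongr
      _ = 4 := by norm_num
  have hKge : ∀ j, j ≤ J → 10 * (6 + Cb * 4) ≤ KK M J j := by
    intro j hjJ
    have h1 := Real.add_one_le_exp (3 / 4 * ((M : ℝ) + J - j))
    have h2 : (j : ℝ) ≤ J := by exact_mod_cast hjJ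
    unfold KK
    linarith
  have hK0' : 10 * (6 + 2 * (Cb + Cg) * (b + Cs)) ≤ KK M J 0 := by
    refine le_trans ?_ hK0
    have h1 : 0 ≤ Cb + Cg := by positivity
    have h2 : 10 * (6 + 2 * (Cb + Cg) * (b + Cs)) ≤
        10 * (6 + 2 * (Cb + Cg) * (1 + Cs)) * (b + 1) := aux_K (by linarith) hCs.le h1
    have h5 : 10 * (6 + 2 * (Cb + Cg) * (1 + Cs)) * (b + 1) ≤ D * (b + 1) := by
      gcongr
      linarith
    exact h2.trans h5
  -- bad blocks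
  have hbad : ∀ j, j ≤ J → 6 + Cb * Y j ≤ KK M J j / 10 := by
    intro j hjJ
    rcases Nat.eq_zero_or_pos j with rfl | hpos
    · have h1 : Cb * Y 0 ≤ Cb * (2 * (b + Cs)) := by gcongr
      have h2 : 0 ≤ Cg * (b + Cs) := by positivity
      linarith
    · have h1 : Cb * Y j ≤ Cb * 4 := by
        have := hYj j hpos hjJ
        gcongr
      have h2 := hKge j hjJ
      linarith
  have hgood : ∀ j, j ≤ J → Real.exp (-(ll M J j : ℝ) + Cg * Y j) ≤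
      Real.exp (4 * Cg) * Real.exp (-KK M J j) := by
    intro j hjJ
    rw [← Real.exp_add]
    apply Real.exp_le_exp.2
    have hKpos := Len.KK_ge_one (M := M) hjJ
    have hl : 10 * KK M J j ≤ ll M J j := Nat.le_ceil _
    rcases Nat.eq_zero_or_pos j with rfl | hpos
    · have h1 : Cg * Y 0 ≤ Cg * (2 * (b + Cs)) := by gcongr
      have h2 : 0 ≤ Cb * (b + Cs) := by positivity
      linarith
    · have h1 : Cg * Y j ≤ Cg * 4 := by
        have := hYj j hpos hjJ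
        gcongr
      linarith
  have hh : h ⊆ Finset.range (J + 1) := by
    rw [← hgh]; exact Finset.subset_union_right
  -- the exponents
  set Ex : ℕ → ℝ := fun j => ∑ p ∈ Sj T M J j,
    (‖2 * (p : ℂ) ^ (-w₁) + ((k - 2 : ℝ) : ℂ) * ((p : ℝ) ^ (-w₂) : ℝ)‖ ^ 2 +
        Cg * (yp w₁.re w₂ p) ^ 4) with hEx
  set F : ℕ → ℝ := fun p => k ^ 2 * (1 / p) + 96 * (1 / p * min 1 ((1 + ‖z‖) * (Real.log p / L))) +
    96 * (1 / p * min 1 ((1 + c) * (Real.log p / L))) + 96 * (c₁ / L) * (Real.log p / p) +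
    4 * Cg * ((p : ℝ) ^ 2)⁻¹ with hF
  have hθ0 : ∀ p : ℕ, 0 ≤ Real.log p / L := fun p =>
    div_nonneg (Real.log_natCast_nonneg p) hL.le
  have hF0 : ∀ p, 0 ≤ F p := by
    intro p
    have h1 := hθ0 p
    have h2 := Real.log_natCast_nonneg p
    have h3 : 0 ≤ min 1 ((1 + ‖z‖) * (Real.log p / L)) := le_min zero_le_one (by positivity)
    have h4 : 0 ≤ min 1 ((1 + c) * (Real.log p / L)) := le_min zero_le_one (by positivity)
    simp only [hF]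
    positivity
  have hExF : ∀ j, j ≤ J → Ex j ≤ ∑ p ∈ Sj T M J j, F p := by
    intro j hjJ
    refine Finset.sum_le_sum fun p hp => ?_
    have hpp := prime_Sj hT1 hp
    have hp0 : (0 : ℝ) < p := by exact_mod_cast hpp.pos
    have h4 := (hyp j hjJ p hp).2.2
    have h5 := hθ j hjJ p hp
    rw [hw₁, hw₂, norm_form4 hpp.pos]
    have h6 := expo43_le (z := z) (a₂ := a₂) hk0 hk1 (hθ0 p) hz ha2 ha2c hc₁1 hc (by linarith)
    have h7 : min 1 (‖z‖ * (Real.log p / L)) ≤ min 1 ((1 + ‖z‖) * (Real.log p / L)) := by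
      have := hθ0 p
      gcongr
      linarith
    have h8 : min 1 (c * (Real.log p / L)) ≤ min 1 ((1 + c) * (Real.log p / L)) := by
      have := hθ0 p
      gcongr
      linarith
    have h9 : Cg * yp w₁.re w₂ p ^ 4 ≤ Cg * (4 * ((p : ℝ) ^ 2)⁻¹) := by gcongr
    calc _ ≤ 1 / p * (k ^ 2 + 96 * min 1 ((1 + ‖z‖) * (Real.log p / L)) +
          96 * min 1 ((1 + c) * (Real.log p / L)) + 96 * (c₁ * (Real.log p / L))) +
          Cg * (4 * ((p : ℝ) ^ 2)⁻¹) := by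
          gcongr
          linarith
      _ = F p := by simp only [hF]; ring
  have hsum : ∑ j ∈ Finset.range (J + 1) \ h, Ex j ≤ k ^ 2 * (b - M) + (96 * Real.log (1 + ‖z‖) +
      96 * Real.log (1 + c) + (4 * C3 + 192 * Cm + 100 + 8 * Cg)) := by
    have h1 : ∑ j ∈ Finset.range (J + 1) \ h, Ex j ≤
        ∑ j ∈ Finset.range (J + 1) \ h, ∑ p ∈ Sj T M J j, F p := by
      refine Finset.sum_le_sum fun j hj => hExF j ?_
      have := Finset.mem_range.1 (Finset.mem_sdiff.1 hj).1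
      omega
    have h2 := sum_blocks_le hT1 M J (Finset.sdiff_subset (s := Finset.range (J + 1)) (t := h))
      F hF0
    refine h1.trans (h2.trans ?_)
    have hyy : Real.log (yy T M J (J + 1)) = Real.exp (-(M : ℝ)) * L := by
      rw [log_yy (le_refl J), hbJ]
    have hyy1 : 1 ≤ yy T M J (J + 1) := by
      rw [Len.yy_succ (le_refl J)]
      exact Real.one_le_exp (mul_nonneg (bet_pos _ _ _).le hL.le)
    have hyyT : yy T M J (J + 1) ≤ T := yy_le hT1 M J (by omega)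
    have hsub : PS 0 (yy T M J (J + 1)) ⊆ PS 0 T := PS_mono (by linarith) hyyT
    have s1 : ∑ p ∈ PS 0 (yy T M J (J + 1)), (1 : ℝ) / p ≤ (b - M) + C3 := by
      have h5 : 3 ≤ bet M J J * L :=
        (hD2.trans hbet).trans (mul_le_mul_of_nonneg_right (bet_mono (Nat.zero_le J)) hL.le)
      have h6 : 2 ≤ yy T M J (J + 1) := by
        rw [Len.yy_succ (le_refl J)]
        have := Real.add_one_le_exp (bet M J J * Real.log T)
        linarith
      have h3 := (abs_le.1 (hinv _ h6)).2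
      rw [hyy, Real.log_mul (Real.exp_pos _).ne' hL.ne', Real.log_exp] at h3
      linarith
    have s2 : ∀ Λ : ℝ, 1 ≤ Λ → ∑ p ∈ PS 0 (yy T M J (J + 1)),
        1 / (p : ℝ) * min 1 (Λ * (Real.log p / L)) ≤ Real.log Λ + Cm := by
      intro Λ hΛ
      refine le_trans ?_ (hmin T hT3 Λ hΛ)
      apply Finset.sum_le_sum_of_subset_of_nonneg hsub
      intro p _ _
      have h5 := hθ0 p
      have h3 : 0 ≤ min 1 (Λ * (Real.log p / L)) := le_min zero_le_one (by positivity)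
      positivity
    have s3 : ∑ p ∈ PS 0 (yy T M J (J + 1)), Real.log p / (p : ℝ) ≤
        Real.exp (-(M : ℝ)) * L + C1 := by
      have := hlogdiv _ hyy1
      rwa [hyy] at this
    have s4 : ∑ p ∈ PS 0 (yy T M J (J + 1)), ((p : ℝ) ^ 2)⁻¹ ≤ 2 :=
      sum_inv_sq fun p hp => prime_PS hp
    have t2 := s2 (1 + ‖z‖) (by linarith [norm_nonneg z])
    have t3 := s2 (1 + c) (by linarith)
    have e : ∑ p ∈ PS 0 (yy T M J (J + 1)), F p =
        k ^ 2 * ∑ p ∈ PS 0 (yy T M J (J + 1)), (1 : ℝ) / p +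
        96 * ∑ p ∈ PS 0 (yy T M J (J + 1)), 1 / (p : ℝ) * min 1 ((1 + ‖z‖) * (Real.log p / L)) +
        96 * ∑ p ∈ PS 0 (yy T M J (J + 1)), 1 / (p : ℝ) * min 1 ((1 + c) * (Real.log p / L)) +
        96 * (c₁ / L) * ∑ p ∈ PS 0 (yy T M J (J + 1)), Real.log p / (p : ℝ) +
        4 * Cg * ∑ p ∈ PS 0 (yy T M J (J + 1)), ((p : ℝ) ^ 2)⁻¹ := by
      simp only [hF, Finset.sum_add_distrib, ← Finset.mul_sum]
    rw [e]
    have hk2 : k ^ 2 ≤ 4 := by
      have h8 := pow_le_pow_left₀ hk0 hk1 2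
      norm_num at h8
      exact h8
    have u1 : k ^ 2 * ∑ p ∈ PS 0 (yy T M J (J + 1)), (1 : ℝ) / p ≤ k ^ 2 * (b - M) + 4 * C3 := by
      calc _ ≤ k ^ 2 * ((b - M) + C3) := by gcongr
        _ ≤ k ^ 2 * (b - M) + 4 * C3 := by
            rw [mul_add]; gcongr
    have u4 : 96 * (c₁ / L) * ∑ p ∈ PS 0 (yy T M J (J + 1)), Real.log p / (p : ℝ) ≤ 100 := by
      calc _ ≤ 96 * (c₁ / L) * (Real.exp (-(M : ℝ)) * L + C1) := by gcongr
        _ = 96 * (c₁ * Real.exp (-(M : ℝ))) + 96 * ((c₁ * C1) / L) := by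
            field_simp
        _ ≤ 96 * (1 / 40) + 96 * 1 := by
            gcongr
            rw [div_le_one hL]
            exact hLc
        _ ≤ 100 := by norm_num
    have u5 : 4 * Cg * ∑ p ∈ PS 0 (yy T M J (J + 1)), ((p : ℝ) ^ 2)⁻¹ ≤ 8 * Cg := by
      calc _ ≤ 4 * Cg * 2 := by gcongr
        _ = _ := by ring
    linarith
  -- assembling
  rw [ER_factor42 hT1]
  set P := ∏ j ∈ h, ss M J j with hP
  have hP0 : 0 ≤ P := Finset.prod_nonneg fun j _ => (Real.exp_pos _).le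
  have hprod : ∏ j ∈ Finset.range (J + 1), ES (Sj T M J j) (fun f => ‖ZZ (Sj T M J j) (tw w₁ f)‖ ^ 4 *
      ‖Fc T M J (k - 2) g h j (tw (w₂ : ℂ) f)‖ ^ 2) ≤ P * Real.exp (∑ j ∈ Finset.range (J + 1) \ h,
        (Ex j + 33 * (Real.exp (4 * Cg) * Real.exp (-KK M J j)))) := by
    rw [← Finset.prod_sdiff hh, mul_comm P, Real.exp_sum]
    have hnn : ∀ j, 0 ≤ ES (Sj T M J j) (fun f => ‖ZZ (Sj T M J j) (tw w₁ f)‖ ^ 4 *
      ‖Fc T M J (k - 2) g h j (tw (w₂ : ℂ) f)‖ ^ 2) :=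
      fun j => integral_nonneg fun ω => by positivity
    refine mul_le_mul ?_ ?_ (Finset.prod_nonneg fun j _ => hnn j)
      (Finset.prod_nonneg fun j _ => (Real.exp_pos _).le)
    · refine Finset.prod_le_prod (fun j _ => hnn j) fun j hj => ?_
      obtain ⟨hj1, hj2⟩ := Finset.mem_sdiff.1 hj
      have hjJ : j ≤ J := by
        have := Finset.mem_range.1 hj1
        omega
      have hjg : j ∈ g := by
        rw [← hgh, Finset.mem_union] at hj1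
        tauto
      have h1 := good M (ll M J j) (Sj T M J j) w₁ w₂ k hM1 (by linarith) hkM hk1
        (fun p hp => prime_Sj hT1 hp) (fun p hp => (hyp j hjJ p hp).1)
      have e1 : (fun f : ℕ → ℂ => ‖ZZ (Sj T M J j) (tw w₁ f)‖ ^ 4 *
          ‖Fc T M J (k - 2) g h j (tw (w₂ : ℂ) f)‖ ^ 2) = fun f : ℕ → ℂ =>
          ‖ZZ (Sj T M J j) (tw w₁ f)‖ ^ 4 *
          ‖Ntr (ll M J j) (k - 2) (Pj M (Sj T M J j) (tw (w₂ : ℂ) f))‖ ^ 2 := by
        funext f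
        rw [Fc_good hjg hj2]
      rw [e1]
      refine h1.trans ?_
      rw [← Real.exp_add]
      apply Real.exp_le_exp.2
      have h2 := hgood j hjJ
      simp only [hEx]
      gcongr
    · refine Finset.prod_le_prod (fun j _ => hnn j) fun j hj => ?_
      have hjJ : j ≤ J := by
        have := Finset.mem_range.1 (hh hj)
        omega
      have h1 := bad M (rr M J j) (Sj T M J j) w₁ w₂ (fun f => Fc T M J (k - 2) g h j (tw (w₂ : ℂ) f))
        hM1 (by linarith) (fun p hp => prime_Sj hT1 hp) (fun p hp => (hyp j hjJ p hp).1)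
        (fun f => Fc_bad hα hjJ hj _)
      exact h1.trans (bad_num (hbad j hjJ))
  have htopθ : ∀ p ∈ Sj T M J (J + 1), 16 ≤ p ∧
      (p : ℝ) ^ (-w₁.re) ≤ (p : ℝ) ^ (-(1 / 2) : ℝ) * Real.exp 1 := by
    intro p hp
    have hp' := (mem_Sj hT1).1 hp
    have hp0 : (0 : ℝ) < p := by exact_mod_cast hp'.1.pos
    have h5 : 3 ≤ bet M J J * L :=
      (hD2.trans hbet).trans (mul_le_mul_of_nonneg_right (bet_mono (Nat.zero_le J)) hL.le)
    have h6 : (16 : ℝ) < p := by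
      refine lt_of_le_of_lt ?_ hp'.2.1
      rw [Len.yy_succ (le_refl J)]
      have h7 : Real.exp 3 ≤ Real.exp (bet M J J * Real.log T) := Real.exp_le_exp.2 h5
      have h8 : (16 : ℝ) ≤ Real.exp 3 := by
        have h9 : Real.exp 3 = Real.exp 1 ^ 3 := by
          rw [← Real.exp_nat_mul]; norm_num
        rw [h9]
        have h10 := Real.exp_one_gt_d9.le
        calc (16 : ℝ) ≤ 2.7182818283 ^ 3 := by norm_num
          _ ≤ _ := pow_le_pow_left₀ (by norm_num) h10 3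
      exact h8.trans h7
    refine ⟨by exact_mod_cast h6.le, ?_⟩
    rw [hre, rpow_form hp'.1.pos]
    gcongr
    have h11 : Real.log p ≤ L :=
      Real.log_le_log hp0 (hp'.2.2.trans (yy_le hT1 M J (by omega)))
    have h12 : Real.log p / L ≤ 1 := by rw [div_le_one hL]; exact h11
    have h13 := hθ0 p
    nlinarith
  have htop' := (top (Sj T M J (J + 1)) w₁ (fun p hp => prime_Sj hT1 hp)
    (fun p hp => (htopθ p hp).1) (fun p hp => (htopθ p hp).2)).trans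
    (Real.exp_le_exp.2 (mul_le_mul_of_nonneg_left htop hCt))
  have hsumK : ∑ j ∈ Finset.range (J + 1) \ h, Real.exp (-KK M J j) ≤ 5 :=
    (Finset.sum_le_sum_of_subset_of_nonneg Finset.sdiff_subset
      (fun _ _ _ => (Real.exp_pos _).le)).trans (sum_exp_KK M J)
  have hexp : ∑ j ∈ Finset.range (J + 1) \ h,
        (Ex j + 33 * (Real.exp (4 * Cg) * Real.exp (-KK M J j))) ≤
      k ^ 2 * (b - M) + (96 * Real.log (1 + ‖z‖) + 96 * Real.log (1 + c) +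
        (4 * C3 + 192 * Cm + 100 + 8 * Cg)) + 165 * Real.exp (4 * Cg) := by
    rw [Finset.sum_add_distrib]
    have h1 : ∑ j ∈ Finset.range (J + 1) \ h, 33 * (Real.exp (4 * Cg) * Real.exp (-KK M J j)) ≤
        165 * Real.exp (4 * Cg) := by
      rw [← Finset.mul_sum, ← Finset.mul_sum]
      calc 33 * (Real.exp (4 * Cg) * ∑ j ∈ Finset.range (J + 1) \ h, Real.exp (-KK M J j))
          ≤ 33 * (Real.exp (4 * Cg) * 5) := by gcongr
        _ = _ := by ring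
    linarith
  have hkM : 0 ≤ k ^ 2 * (M : ℝ) := by positivity
  have hA := hprod.trans (mul_le_mul_of_nonneg_left (Real.exp_le_exp.2 (hexp.trans
    (show k ^ 2 * (b - M) + (96 * Real.log (1 + ‖z‖) + 96 * Real.log (1 + c) +
        (4 * C3 + 192 * Cm + 100 + 8 * Cg)) + 165 * Real.exp (4 * Cg) ≤ k ^ 2 * b +
        (((96 : ℕ) : ℝ) * Real.log (1 + ‖z‖) + ((96 : ℕ) : ℝ) * Real.log (1 + c) +
        (4 * C3 + 192 * Cm + 100 + 8 * Cg + 165 * Real.exp (4 * Cg))) by push_cast; linarith))) hP0)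
  exact fin_exp 96 hP0 hL hb (norm_nonneg z) hc hM1' hCt (by positivity) hA htop'
    (integral_nonneg fun ω => by positivity)

end XB

end Pool.Agent.Lib.MP_973905_nt
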