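import Pool.Agent.Lib.MP_973905_nt.Fourth

/-! Fourth moment of the Euler product against one truncated exponential of exponent `k - 2`,
`1 ≤ k ≤ 2`, with bad blocks. -/

namespace Pool.Agent.Lib.MP_973905_nt

open MeasureTheory ProbabilityTheory Complex Filter Topology

namespace XB

lemma sq_split {a s η : ℝ} (h0 : 0 ≤ η) (h1 : η ≤ 1) :
    (a + η * s) ^ 2 ≤ (1 + η) * a ^ 2 + 2 * η * s ^ 2 := by
  nlinarith [mul_nonneg h0 (sq_nonneg (a - s)),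
    mul_nonneg (mul_nonneg h0 (sub_nonneg.2 h1)) (sq_nonneg s)]

lemma fin_good {η E Y : ℝ} (h0 : 0 ≤ η) (hE : 1 ≤ E) (hY : 1 ≤ Y) :
    (1 + η) * E + 2 * η * (16 * Y) ≤ E * (33 * (η * Y) + 1) := by
  have h1 : 0 ≤ η * E * (Y - 1) := mul_nonneg (mul_nonneg h0 (by linarith)) (by linarith)
  have h2 : 0 ≤ η * Y * (E - 1) := mul_nonneg (mul_nonneg h0 (by linarith)) (by linarith)
  linarith

lemma aux_K {b Cs X : ℝ} (hb : 0 ≤ b) (hCs : 0 ≤ Cs) (hX : 0 ≤ X) :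
    10 * (6 + 2 * X * (b + Cs)) ≤ 10 * (6 + 2 * X * (1 + Cs)) * (b + 1) := by
  have h1 : 0 ≤ X * (Cs * b) := mul_nonneg hX (mul_nonneg hCs hb)
  linarith

/-- Good blocks, fourth power. -/
lemma good_block42 : ∃ C : ℝ, 0 ≤ C ∧ ∀ (A l : ℕ) (S : Finset ℕ) (w₁ : ℂ) (w₂ k : ℝ), 1 ≤ A →
    0 < w₁.re → 1 ≤ k → k ≤ 2 → (∀ p ∈ S, p.Prime) → (∀ p ∈ S, yp w₁.re w₂ p ≤ 3 / 4) →
    ES S (fun f => ‖ZZ S (tw w₁ f)‖ ^ 4 * ‖Ntr l (k - 2) (Pj A S (tw w₂ f))‖ ^ 2) ≤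
      Real.exp (∑ p ∈ S, (‖2 * (p : ℂ) ^ (-w₁) + ((k - 2 : ℝ) : ℂ) * ((p : ℝ) ^ (-w₂) : ℝ)‖ ^ 2 +
        C * (yp w₁.re w₂ p) ^ 4)) *
      Real.exp (33 * Real.exp (-l + C * ∑ p ∈ S, (yp w₁.re w₂ p) ^ 2)) := by
  obtain ⟨C1, hC1, h1⟩ := ES_exp 1
  obtain ⟨C2, hC2, h2⟩ := ES_exp_norm (q := 3) (by norm_num)
  refine ⟨C1 + C2, by positivity, fun A l S w₁ w₂ k hA hw hk0 hk1 hS hy => ?_⟩
  have hα : |k - 2| ≤ 1 := by rw [abs_le]; constructor <;> linarith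
  set η := Real.exp (-(l : ℝ)) with hη
  have hη0 : 0 < η := Real.exp_pos _
  have hη1 : η ≤ 1 := by rw [hη, Real.exp_le_one_iff]; linarith [Nat.cast_nonneg (α := ℝ) l]
  set Z : (ℕ → ℂ) → ℂ := fun f => ZZ S (tw w₁ f) with hZ
  set P : (ℕ → ℂ) → ℂ := fun f => Pj A S (tw w₂ f) with hP
  have bZ : BS S Z := bs_ZZ hS hw
  have bP : BS S P := bs_Pj A S S w₂
  set F1 : (ℕ → ℂ) → ℝ := fun f => ‖(ZZ S (tw w₁ f)) ^ 2 * cexp (((k - 2 : ℝ) : ℂ) * P f)‖ ^ 2 with hF1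
  set F2 : (ℕ → ℂ) → ℝ := fun f => ‖(ZZ S (tw w₁ f)) ^ 2‖ ^ 2 * Real.exp (3 * ‖P f‖) ^ 2 with hF2
  have b1 : BS S F1 := ((bZ.pow 2).mul ((bs_const S _).mul bP).cexp).norm_sq
  have b2 : BS S F2 := BS.mulR (bZ.pow 2).norm_sq (BS.expnorm bP (by norm_num))
  have b1' : BS S (fun f => (1 + η) * F1 f) := BS.mulR (bs_const S _) b1
  have b2' : BS S (fun f => (2 * η) * F2 f) := BS.mulR (bs_const S _) b2
  have g1 := h1 A 2 S w₁ ((k - 2 : ℝ) : ℂ) w₂ hA (by norm_num)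
    (by rw [norm_real, Real.norm_eq_abs]; exact hα) hS hy
  have g2 := h2 A 2 S w₁ w₂ hA (by norm_num) hw hS hy
  have step : ES S (fun f => ‖Z f‖ ^ 4 * ‖Ntr l (k - 2) (P f)‖ ^ 2) ≤
      ES S (fun f => (1 + η) * F1 f + (2 * η) * F2 f) := by
    apply ES_mono
    · intro ω; positivity
    · exact (BS.add b1' b2').integrable
    · intro ω
      set f := ext S ω
      have ht := Ntr_tail l hα (P f)
      have hn : ‖Ntr l (k - 2) (P f)‖ ≤ ‖cexp (((k - 2 : ℝ) : ℂ) * P f)‖ +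
          η * Real.exp (3 * ‖P f‖) := by
        have := norm_sub_norm_le (Ntr l (k - 2) (P f)) (cexp (((k - 2 : ℝ) : ℂ) * P f))
        rw [norm_sub_rev] at this
        linarith
      set a := ‖cexp (((k - 2 : ℝ) : ℂ) * P f)‖ with ha
      set s := Real.exp (3 * ‖P f‖) with hs
      have hs0 : 0 < s := Real.exp_pos _
      have ha0 : 0 ≤ a := norm_nonneg _
      have h3 : ‖Ntr l (k - 2) (P f)‖ ^ 2 ≤ (1 + η) * a ^ 2 + 2 * η * s ^ 2 := by
        calc ‖Ntr l (k - 2) (P f)‖ ^ 2 ≤ (a + η * s) ^ 2 :=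
              pow_le_pow_left₀ (norm_nonneg _) hn 2
          _ ≤ _ := sq_split hη0.le hη1
      have e1 : F1 f = ‖Z f‖ ^ 4 * a ^ 2 := by
        simp only [hF1, norm_mul, norm_pow, hZ, ha]; ring
      have e2 : F2 f = ‖Z f‖ ^ 4 * s ^ 2 := by
        simp only [hF2, norm_pow, hZ, hs]; ring
      rw [e1, e2]
      calc ‖Z f‖ ^ 4 * ‖Ntr l (k - 2) (P f)‖ ^ 2 ≤ ‖Z f‖ ^ 4 * ((1 + η) * a ^ 2 + 2 * η * s ^ 2) := by
            gcongr
        _ = _ := by ring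
  have e3 : ES S (fun f => (1 + η) * F1 f + (2 * η) * F2 f) =
      (1 + η) * ES S F1 + (2 * η) * ES S F2 := by
    rw [ES_add b1' b2', ES_const_mul, ES_const_mul]
  rw [e3] at step
  refine step.trans ?_
  set Y := ∑ p ∈ S, yp w₁.re w₂ p ^ 2 with hY
  have hY0 : 0 ≤ Y := Finset.sum_nonneg fun p _ => by positivity
  set E := ∑ p ∈ S, (‖2 * (p : ℂ) ^ (-w₁) + ((k - 2 : ℝ) : ℂ) * ((p : ℝ) ^ (-w₂) : ℝ)‖ ^ 2 +
        (C1 + C2) * (yp w₁.re w₂ p) ^ 4) with hE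
  have hE0 : 0 ≤ E := Finset.sum_nonneg fun p _ => by positivity
  have g1' : ES S F1 ≤ Real.exp E := by
    refine g1.trans (Real.exp_le_exp.2 ?_)
    rw [hE]
    refine Finset.sum_le_sum fun p _ => ?_
    push_cast
    gcongr
    linarith
  have g2' : ES S F2 ≤ 16 * Real.exp ((C1 + C2) * Y) := by
    refine g2.trans ?_
    gcongr
    linarith
  have hexpE : 1 ≤ Real.exp E := Real.one_le_exp hE0
  have hexpY : 1 ≤ Real.exp ((C1 + C2) * Y) := Real.one_le_exp (by positivity)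
  rw [Real.exp_add, ← hη]
  calc (1 + η) * ES S F1 + 2 * η * ES S F2
      ≤ (1 + η) * Real.exp E + 2 * η * (16 * Real.exp ((C1 + C2) * Y)) := by gcongr
    _ ≤ Real.exp E * (33 * (η * Real.exp ((C1 + C2) * Y)) + 1) := fin_good hη0.le hexpE hexpY
    _ ≤ _ := by
        gcongr
        exact Real.add_one_le_exp _

/-- Bad blocks, fourth power. -/
lemma bad_block42 : ∃ C : ℝ, 0 ≤ C ∧ ∀ (A r : ℕ) (S : Finset ℕ) (w₁ : ℂ) (w₂ : ℝ)
    (G : (ℕ → ℂ) → ℂ), 1 ≤ A →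
    0 < w₁.re → (∀ p ∈ S, p.Prime) → (∀ p ∈ S, yp w₁.re w₂ p ≤ 3 / 4) →
    (∀ f, ‖G f‖ ≤ (1 / 4) ^ r * Real.exp (2 * ‖Pj A S (tw w₂ f)‖)) →
    ES S (fun f => ‖ZZ S (tw w₁ f)‖ ^ 4 * ‖G f‖ ^ 2) ≤
      (1 / 16) ^ r * (16 * Real.exp (C * ∑ p ∈ S, (yp w₁.re w₂ p) ^ 2)) := by
  obtain ⟨C2, hC2, h2⟩ := ES_exp_norm (q := 2) (by norm_num)
  refine ⟨C2, hC2, fun A r S w₁ w₂ G hA hw hS hy hG => ?_⟩
  have g2 := h2 A 2 S w₁ w₂ hA (by norm_num) hw hS hy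
  have bZ : BS S (fun f => ZZ S (tw w₁ f)) := bs_ZZ hS hw
  have bP : BS S (fun f => Pj A S (tw w₂ f)) := bs_Pj A S S w₂
  set F2 : (ℕ → ℂ) → ℝ := fun f => ‖(ZZ S (tw w₁ f)) ^ 2‖ ^ 2 *
    Real.exp (2 * ‖Pj A S (tw w₂ f)‖) ^ 2 with hF2
  have b2 : BS S F2 := BS.mulR (bZ.pow 2).norm_sq (BS.expnorm bP (by norm_num))
  have b2' : BS S (fun f => (1 / 16 : ℝ) ^ r * F2 f) := BS.mulR (bs_const S _) b2
  calc ES S (fun f => ‖ZZ S (tw w₁ f)‖ ^ 4 * ‖G f‖ ^ 2) ≤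
      ES S (fun f => (1 / 16 : ℝ) ^ r * F2 f) := by
        apply ES_mono
        · intro ω; positivity
        · exact b2'.integrable
        · intro ω
          have h3 := pow_le_pow_left₀ (norm_nonneg _) (hG (ext S ω)) 2
          have h4 : ((1 / 4 : ℝ) ^ r) ^ 2 = (1 / 16) ^ r := by
            rw [← pow_mul, mul_comm, pow_mul]; norm_num
          rw [mul_pow, h4] at h3
          simp only [hF2, norm_pow]
          calc _ ≤ ‖ZZ S (tw w₁ (ext S ω))‖ ^ 4 * ((1 / 16) ^ r *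
                Real.exp (2 * ‖Pj A S (tw w₂ (ext S ω))‖) ^ 2) := by gcongr
            _ = _ := by ring
    _ = (1 / 16 : ℝ) ^ r * ES S F2 := ES_const_mul _ _
    _ ≤ _ := by gcongr

/-- The exponent at a prime. -/
lemma expo42_le {k c c₁ a₂ θ : ℝ} {z : ℂ} (hk0 : 0 ≤ k) (hk1 : k ≤ 2) (hθ : 0 ≤ θ)
    (hz : 0 ≤ z.re) (h1 : -c₁ ≤ a₂) (h2 : a₂ ≤ c) (hc1 : 0 ≤ c₁) (hc : 0 ≤ c)
    (hs : c₁ * θ ≤ 1 / 2) :
    ‖2 * cexp (-(z * θ)) + ((k - 2 : ℝ) : ℂ) * (Real.exp (-(a₂ * θ)) : ℝ)‖ ^ 2 ≤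
      k ^ 2 + 56 * min 1 (‖z‖ * θ) + 56 * min 1 (c * θ) + 56 * (c₁ * θ) := by
  set m1 := min 1 (‖z‖ * θ) with hm1
  set m2 := min 1 (c * θ) with hm2
  have m10 : 0 ≤ m1 := le_min zero_le_one (by positivity)
  have m20 : 0 ≤ m2 := le_min zero_le_one (by positivity)
  have m11 : m1 ≤ 1 := min_le_left _ _
  have m21 : m2 ≤ 1 := min_le_left _ _
  have hU : ‖cexp (-(z * θ)) - 1‖ ≤ 2 * m1 := by
    have hn : ‖-(z * (θ : ℂ))‖ = ‖z‖ * θ := by
      rw [norm_neg, norm_mul, norm_real, Real.norm_eq_abs, abs_of_nonneg hθ]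
    rcases le_total (‖z‖ * θ) 1 with h | h
    · rw [hm1, min_eq_right h, ← hn]
      exact norm_exp_sub_one_le (by rw [hn]; exact h)
    · rw [hm1, min_eq_left h]
      refine (norm_sub_le _ _).trans ?_
      rw [norm_one, norm_exp]
      have : Real.exp (-(z * (θ : ℂ))).re ≤ 1 := by
        rw [Real.exp_le_one_iff]
        simp only [neg_re, mul_re, ofReal_re, ofReal_im, mul_zero, sub_zero]
        have := mul_nonneg hz hθ
        linarith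
      linarith
  have hV : |Real.exp (-(a₂ * θ)) - 1| ≤ 2 * m2 + 2 * (c₁ * θ) := by
    have hc1θ : 0 ≤ c₁ * θ := mul_nonneg hc1 hθ
    rcases le_total 0 a₂ with h | h
    · have h0 : 0 ≤ a₂ * θ := mul_nonneg h hθ
      have h3 : Real.exp (-(a₂ * θ)) ≤ 1 := by rw [Real.exp_le_one_iff]; linarith
      rw [abs_of_nonpos (by linarith)]
      have h4 := Real.add_one_le_exp (-(a₂ * θ))
      have h5 : a₂ * θ ≤ c * θ := mul_le_mul_of_nonneg_right h2 hθ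
      have h6 : 0 < Real.exp (-(a₂ * θ)) := Real.exp_pos _
      have h7 : -(Real.exp (-(a₂ * θ)) - 1) ≤ m2 := by
        rw [hm2]
        apply le_min <;> linarith
      linarith
    · have h0 : |-(a₂ * θ)| ≤ c₁ * θ := by
        rw [abs_of_nonneg (by nlinarith)]
        nlinarith
      have := Real.abs_exp_sub_one_le (x := -(a₂ * θ)) (by linarith)
      linarith
  set E := 4 * m1 + (4 * m2 + 4 * (c₁ * θ)) with hE
  have hE0 : 0 ≤ E := by
    have hc1θ : 0 ≤ c₁ * θ := mul_nonneg hc1 hθ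
    positivity
  have hE10 : E ≤ 10 := by linarith
  have hnorm : ‖2 * cexp (-(z * θ)) + ((k - 2 : ℝ) : ℂ) * (Real.exp (-(a₂ * θ)) : ℝ)‖ ≤ k + E := by
    have e : 2 * cexp (-(z * θ)) + ((k - 2 : ℝ) : ℂ) * (Real.exp (-(a₂ * θ)) : ℝ) =
        (k : ℂ) + (2 * (cexp (-(z * θ)) - 1) + ((k - 2 : ℝ) : ℂ) *
          ((Real.exp (-(a₂ * θ)) - 1 : ℝ) : ℂ)) := by
      push_cast; ring
    rw [e]
    refine (norm_add_le _ _).trans ?_
    rw [norm_real, Real.norm_eq_abs, abs_of_nonneg hk0]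
    gcongr
    refine (norm_add_le _ _).trans ?_
    rw [norm_mul, norm_mul, norm_real, norm_real, Real.norm_eq_abs, Real.norm_eq_abs]
    have h3 : |k - 2| ≤ 2 := by rw [abs_le]; constructor <;> linarith
    have h4 : |k - 2| * |Real.exp (-(a₂ * θ)) - 1| ≤ 2 * (2 * m2 + 2 * (c₁ * θ)) :=
      mul_le_mul h3 hV (abs_nonneg _) (by norm_num)
    have h5 : ‖(2 : ℂ)‖ = 2 := by simp
    rw [h5]
    linarith
  calc ‖2 * cexp (-(z * θ)) + ((k - 2 : ℝ) : ℂ) * (Real.exp (-(a₂ * θ)) : ℝ)‖ ^ 2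
      ≤ (k + E) ^ 2 := pow_le_pow_left₀ (norm_nonneg _) hnorm 2
    _ ≤ k ^ 2 + 14 * E := by nlinarith [mul_nonneg hk0 hE0]
    _ = _ := by rw [hE]; ring

/-- The fourth moment factorises. -/
lemma ER_factor42 {T : ℝ} (hT : 1 < T) (M J : ℕ) (α : ℝ) (g h : Finset ℕ) (w₁ w₂ : ℂ) :
    ER (SB T M J) (fun f => ‖ZZ (UU (SB T M J)) (tw w₁ f)‖ ^ 4 *
      ‖AA T M J α g h (tw w₂ f)‖ ^ 2) =
    (∏ j ∈ Finset.range (J + 1), ES (Sj T M J j) (fun f => ‖ZZ (Sj T M J j) (tw w₁ f)‖ ^ 4 *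
      ‖Fc T M J α g h j (tw w₂ f)‖ ^ 2)) *
      ES (Sj T M J (J + 1)) (fun f => ‖ZZ (Sj T M J (J + 1)) (tw w₁ f)‖ ^ 4) := by
  have hB := blk_SB hT M J
  set G : ℕ → (ℕ → ℂ) → ℝ := fun j f => ‖ZZ (Sj T M J j) (tw w₁ f)‖ ^ 4 *
    (if j < J + 1 then ‖Fc T M J α g h j (tw w₂ f)‖ ^ 2 else 1) with hG
  have h1 : ∀ f : ℕ → ℂ, ‖ZZ (UU (SB T M J)) (tw w₁ f)‖ ^ 4 * ‖AA T M J α g h (tw w₂ f)‖ ^ 2 =
      ∏ j : Fin (J + 2), G j f := by
    intro f
    have e1 : ZZ (UU (SB T M J)) (tw w₁ f) = ∏ j : Fin (J + 2), ZZ (Sj T M J j) (tw w₁ f) := by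
      unfold ZZ UU
      rw [Finset.prod_biUnion]
      · rfl
      · intro i _ j _ hij
        exact hB.2 i j hij
    have e2 : AA T M J α g h (tw w₂ f) = ∏ j : Fin (J + 2),
        (if (j : ℕ) < J + 1 then Fc T M J α g h j (tw w₂ f) else 1) := by
      rw [← Finset.prod_range (fun j => if j < J + 1 then Fc T M J α g h j (tw w₂ f) else 1),
        Finset.prod_range_succ, if_neg (lt_irrefl _), mul_one, AA]
      refine Finset.prod_congr rfl fun j hj => ?_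
      rw [if_pos (Finset.mem_range.1 hj)]
    rw [e1, e2, norm_prod, norm_prod, ← Finset.prod_pow, ← Finset.prod_pow,
      ← Finset.prod_mul_distrib]
    refine Finset.prod_congr rfl fun j _ => ?_
    simp only [hG]
    congr 1
    split_ifs <;> simp
  have h2 : ER (SB T M J) (fun f => ‖ZZ (UU (SB T M J)) (tw w₁ f)‖ ^ 4 *
      ‖AA T M J α g h (tw w₂ f)‖ ^ 2) = ER (SB T M J) (fun f => ∏ j : Fin (J + 2), G j f) := by
    congr 1
    funext f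
    exact h1 f
  rw [h2, ER_prod hB (fun j : Fin (J + 2) => G j)]
  · rw [show (∏ j : Fin (J + 2), ES (SB T M J j) (G j)) =
      ∏ j : Fin (J + 2), ES (Sj T M J j) (G j) from rfl,
      ← Finset.prod_range (fun j => ES (Sj T M J j) (G j)), Finset.prod_range_succ]
    congr 1
    · refine Finset.prod_congr rfl fun j hj => ?_
      simp only [hG, if_pos (Finset.mem_range.1 hj)]
    · simp only [hG, if_neg (lt_irrefl _), mul_one]
  · intro j f f' hff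
    have h3 : ∀ w, ∀ p ∈ Sj T M J j, tw w f p = tw w f' p := fun w => tw_congr w hff
    simp only [hG]
    rw [ZZ_congr _ (h3 w₁), Fc_congr (h3 w₂)]

/-- The final computation. -/
lemma fin_exp (n : ℕ) {P A B x c k b M L Ct K0 : ℝ} (hP : 0 ≤ P) (hL : 0 < L) (hb : b = Real.log L)
    (hx : 0 ≤ x) (hc : 0 ≤ c) (hM : 1 ≤ M) (hCt : 0 ≤ Ct) (hK0 : 0 ≤ K0)
    (hA : A ≤ P * Real.exp (k ^ 2 * b + (n * Real.log (1 + x) + n * Real.log (1 + c) + K0)))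
    (hB : B ≤ Real.exp (Ct * (M + 1))) (hB0 : 0 ≤ B) :
    A * B ≤ Real.exp ((K0 + 2 * Ct) * M) * (1 + x) ^ n * (1 + c) ^ n * L ^ (k ^ 2) * P := by
  have hx1 : 0 < 1 + x := by linarith
  have hc1 : 0 < 1 + c := by linarith
  have e1 : (1 + x) ^ n = Real.exp (n * Real.log (1 + x)) := by
    rw [Real.exp_nat_mul, Real.exp_log hx1]
  have e2 : (1 + c) ^ n = Real.exp (n * Real.log (1 + c)) := by
    rw [Real.exp_nat_mul, Real.exp_log hc1]
  have e3 : L ^ (k ^ 2) = Real.exp (k ^ 2 * b) := by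
    rw [Real.rpow_def_of_pos hL, ← hb, mul_comm]
  have h1 : A * B ≤ P * Real.exp (k ^ 2 * b + (n * Real.log (1 + x) + n * Real.log (1 + c) + K0)) *
      Real.exp (Ct * (M + 1)) :=
    mul_le_mul hA hB hB0 (mul_nonneg hP (Real.exp_pos _).le)
  refine h1.trans ?_
  rw [e1, e2, e3, mul_assoc, ← Real.exp_add, ← Real.exp_add, ← Real.exp_add, ← Real.exp_add,
    mul_comm]
  refine mul_le_mul_of_nonneg_right (Real.exp_le_exp.2 ?_) hP
  have h2 : K0 ≤ K0 * M := le_mul_of_one_le_right hK0 hM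
  have h3 : Ct ≤ Ct * M := le_mul_of_one_le_right hCt hM
  nlinarith

/-- Fourth moment of the Euler product with `AA` of exponent `k - 2`. -/
theorem core42 : ∃ C : ℝ, 0 < C ∧ ∀ c₁ : ℝ, 0 < c₁ → ∃ M₀ : ℕ, 1 ≤ M₀ ∧ ∀ M : ℕ, M₀ ≤ M →
    ∃ T₀ : ℝ, 3 ≤ T₀ ∧ ∀ T, T₀ ≤ T → ∀ k : ℝ, 1 ≤ k → k ≤ 2 →
    ∀ g h : Finset ℕ, g ∪ h = Finset.range (JJ T + 1) → ∀ (z : ℂ) (a₂ c : ℝ), 0 ≤ c → 0 ≤ z.re →
    -c₁ ≤ a₂ → a₂ ≤ c →
    ER (SB T M (JJ T)) (fun f =>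
        ‖ZZ (UU (SB T M (JJ T))) (tw ((1 / 2 : ℂ) + z / Real.log T) f)‖ ^ 4 *
        ‖AA T M (JJ T) (k - 2) g h (tw ((1 / 2 + a₂ / Real.log T : ℝ) : ℂ) f)‖ ^ 2) ≤
      Real.exp (C * M) * (1 + ‖z‖) ^ 56 * (1 + c) ^ 56 * (Real.log T) ^ (k ^ 2) *
        ∏ j ∈ h, ss M (JJ T) j := by
  obtain ⟨Cg, hCg, good⟩ := good_block42
  obtain ⟨Cb, hCb, bad⟩ := bad_block42
  obtain ⟨Ct, hCt, top⟩ := top_block4
  obtain ⟨Cm, hCm, hmin⟩ := sum_min
  obtain ⟨Cs, hCs, hS0⟩ := sum_inv_S0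
  obtain ⟨Cr, hCr, hrange⟩ := sum_inv_block
  obtain ⟨C1, hC1, hlogdiv⟩ := sum_log_div_le
  obtain ⟨C3, hC3, hinv⟩ := sum_inv
  set C := 4 * C3 + 112 * Cm + 60 + 8 * Cg + 165 * Real.exp (4 * Cg) + 2 * Ct with hC
  refine ⟨C, by positivity, fun c₁ hc₁ => ?_⟩
  refine ⟨⌈40 * c₁ + 100 + 80 * Cb⌉₊ + 1, by omega, fun M hM => ?_⟩
  have hMr : 40 * c₁ + 100 + 80 * Cb ≤ M := by
    have h1 := Nat.le_ceil (40 * c₁ + 100 + 80 * Cb)
    have h2 : (⌈40 * c₁ + 100 + 80 * Cb⌉₊ : ℝ) ≤ M := by exact_mod_cast (by omega :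
      ⌈40 * c₁ + 100 + 80 * Cb⌉₊ ≤ M)
    linarith
  have hM1 : 1 ≤ M := by omega
  have hM1' : (1 : ℝ) ≤ M := by exact_mod_cast hM1
  set D := Cr + 10 * (6 + 2 * (Cb + Cg) * (1 + Cs)) + 2 with hD
  obtain ⟨T₀, hT₀, hev⟩ := eventually_T M (c₁ * 20) D (c₁ * C1)
  refine ⟨T₀, hT₀, fun T hT k hkM hk1 g h hgh z a₂ c hc hz ha2 ha2c => ?_⟩
  have hk0 : 0 ≤ k := by linarith
  obtain ⟨hb1, hLc, hbet, hK0, hLc₁⟩ := hev T hT
  have hT3 : 3 ≤ T := hT₀.trans hT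
  have hT1 : 1 < T := by linarith
  have hT0 : 0 < T := by linarith
  have hL : 0 < Real.log T := Real.log_pos hT1
  set J := JJ T with hJ
  set L := Real.log T with hLdef
  set b := Real.log L with hb
  have hα : |k - 2| ≤ 1 := by rw [abs_le]; constructor <;> linarith
  have hDC : Cr ≤ D := by
    have : 0 ≤ 10 * (6 + 2 * (Cb + Cg) * (1 + Cs)) := by positivity
    linarith
  have hD2 : 2 ≤ D := by
    have : 0 ≤ 10 * (6 + 2 * (Cb + Cg) * (1 + Cs)) := by positivity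
    linarith
  obtain ⟨hj, htop⟩ := hrange T hT3 M J (hDC.trans hbet)
  have hcM : c₁ * Real.exp (-(M : ℝ)) ≤ 1 / 40 := by
    rw [Real.exp_neg, ← div_eq_mul_inv, div_le_iff₀ (Real.exp_pos _)]
    have := Real.add_one_le_exp (M : ℝ)
    linarith
  have hbJ : bet M J J = Real.exp (-(M : ℝ)) := by
    rw [bet]; congr 1; ring
  -- the primes of the lower blocks
  have hθ : ∀ j, j ≤ J → ∀ p ∈ Sj T M J j, c₁ * (Real.log p / L) ≤ 1 / 40 := by
    intro j hj p hp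
    have hp' := (mem_Sj hT1).1 hp
    have hp1 : (0 : ℝ) < p := by exact_mod_cast hp'.1.pos
    have h1 : Real.log p ≤ bet M J J * L := by
      rw [← log_yy (le_refl J)]
      exact Real.log_le_log hp1 (hp'.2.2.trans (yy_mono hT1 M J (by omega)))
    have h2 : Real.log p / L ≤ bet M J J := by
      rw [div_le_iff₀ hL]; exact h1
    rw [hbJ] at h2
    calc c₁ * (Real.log p / L) ≤ c₁ * Real.exp (-(M : ℝ)) := by gcongr
      _ ≤ _ := hcM
  have hre : ((1 / 2 : ℂ) + z / (L : ℂ)).re = 1 / 2 + z.re / L := by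
    rw [add_re, div_ofReal_re]; norm_num
  have hyp : ∀ j, j ≤ J → ∀ p ∈ Sj T M J j,
      yp ((1 / 2 : ℂ) + z / (L : ℂ)).re (1 / 2 + a₂ / L) p ≤ 3 / 4 ∧
      yp ((1 / 2 : ℂ) + z / (L : ℂ)).re (1 / 2 + a₂ / L) p ^ 2 ≤ 2 * (1 / p) ∧
      yp ((1 / 2 : ℂ) + z / (L : ℂ)).re (1 / 2 + a₂ / L) p ^ 4 ≤ 4 * ((p : ℝ) ^ 2)⁻¹ := by
    intro j hj p hp
    rw [hre]
    exact yp_le (prime_Sj hT1 hp) hL hz ha2 hc₁.le (by have := hθ j hj p hp; linarith)
  set w₁ : ℂ := (1 / 2 : ℂ) + z / (L : ℂ) with hw₁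
  set w₂ : ℝ := 1 / 2 + a₂ / L with hw₂
  have hw₁re : 1 / 2 ≤ w₁.re := by
    rw [hre]
    have : 0 ≤ z.re / L := by positivity
    linarith
  set Y : ℕ → ℝ := fun j => ∑ p ∈ Sj T M J j, yp w₁.re w₂ p ^ 2 with hY
  have hY0 : Y 0 ≤ 2 * (b + Cs) := by
    calc Y 0 ≤ ∑ p ∈ Sj T M J 0, 2 * (1 / (p : ℝ)) :=
          Finset.sum_le_sum fun p hp => (hyp 0 (Nat.zero_le _) p hp).2.1
      _ = 2 * ∑ p ∈ Sj T M J 0, 1 / (p : ℝ) := by rw [Finset.mul_sum]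
      _ ≤ _ := by
          have := hS0 T hT3 M J
          gcongr
  have hYj : ∀ j, 1 ≤ j → j ≤ J → Y j ≤ 4 := by
    intro j h1 h2
    calc Y j ≤ ∑ p ∈ Sj T M J j, 2 * (1 / (p : ℝ)) :=
          Finset.sum_le_sum fun p hp => (hyp j h2 p hp).2.1
      _ = 2 * ∑ p ∈ Sj T M J j, 1 / (p : ℝ) := by rw [Finset.mul_sum]
      _ ≤ 2 * 2 := by
          have := hj j h1 h2
          gcongr
      _ = 4 := by norm_num
  have hKge : ∀ j, j ≤ J → 10 * (6 + Cb * 4) ≤ KK M J j := by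
    intro j hjJ
    have h1 := Real.add_one_le_exp (3 / 4 * ((M : ℝ) + J - j))
    have h2 : (j : ℝ) ≤ J := by exact_mod_cast hjJ
    unfold KK
    linarith
  have hK0' : 10 * (6 + 2 * (Cb + Cg) * (b + Cs)) ≤ KK M J 0 := by
    refine le_trans ?_ hK0
    have h1 : 0 ≤ Cb + Cg := by positivity
    have h2 : 10 * (6 + 2 * (Cb + Cg) * (b + Cs)) ≤
        10 * (6 + 2 * (Cb + Cg) * (1 + Cs)) * (b + 1) := aux_K (by linarith) hCs.le h1
    have h5 : 10 * (6 + 2 * (Cb + Cg) * (1 + Cs)) * (b + 1) ≤ D * (b + 1) := by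
      gcongr
      linarith
    exact h2.trans h5
  -- bad blocks
  have hbad : ∀ j, j ≤ J → 6 + Cb * Y j ≤ KK M J j / 10 := by
    intro j hjJ
    rcases Nat.eq_zero_or_pos j with rfl | hpos
    · have h1 : Cb * Y 0 ≤ Cb * (2 * (b + Cs)) := by gcongr
      have h2 : 0 ≤ Cg * (b + Cs) := by positivity
      linarith
    · have h1 : Cb * Y j ≤ Cb * 4 := by
        have := hYj j hpos hjJ
        gcongr
      have h2 := hKge j hjJ
      linarith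
  have hgood : ∀ j, j ≤ J → Real.exp (-(ll M J j : ℝ) + Cg * Y j) ≤
      Real.exp (4 * Cg) * Real.exp (-KK M J j) := by
    intro j hjJ
    rw [← Real.exp_add]
    apply Real.exp_le_exp.2
    have hKpos := Len.KK_ge_one (M := M) hjJ
    have hl : 10 * KK M J j ≤ ll M J j := Nat.le_ceil _
    rcases Nat.eq_zero_or_pos j with rfl | hpos
    · have h1 : Cg * Y 0 ≤ Cg * (2 * (b + Cs)) := by gcongr
      have h2 : 0 ≤ Cb * (b + Cs) := by positivity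
      linarith
    · have h1 : Cg * Y j ≤ Cg * 4 := by
        have := hYj j hpos hjJ
        gcongr
      linarith
  have hh : h ⊆ Finset.range (J + 1) := by
    rw [← hgh]; exact Finset.subset_union_right
  -- the exponents
  set Ex : ℕ → ℝ := fun j => ∑ p ∈ Sj T M J j,
    (‖2 * (p : ℂ) ^ (-w₁) + ((k - 2 : ℝ) : ℂ) * ((p : ℝ) ^ (-w₂) : ℝ)‖ ^ 2 +
        Cg * (yp w₁.re w₂ p) ^ 4) with hEx
  set F : ℕ → ℝ := fun p => k ^ 2 * (1 / p) + 56 * (1 / p * min 1 ((1 + ‖z‖) * (Real.log p / L))) +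
    56 * (1 / p * min 1 ((1 + c) * (Real.log p / L))) + 56 * (c₁ / L) * (Real.log p / p) +
    4 * Cg * ((p : ℝ) ^ 2)⁻¹ with hF
  have hθ0 : ∀ p : ℕ, 0 ≤ Real.log p / L := fun p =>
    div_nonneg (Real.log_natCast_nonneg p) hL.le
  have hF0 : ∀ p, 0 ≤ F p := by
    intro p
    have h1 := hθ0 p
    have h2 := Real.log_natCast_nonneg p
    have h3 : 0 ≤ min 1 ((1 + ‖z‖) * (Real.log p / L)) := le_min zero_le_one (by positivity)
    have h4 : 0 ≤ min 1 ((1 + c) * (Real.log p / L)) := le_min zero_le_one (by positivity)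
    simp only [hF]
    positivity
  have hExF : ∀ j, j ≤ J → Ex j ≤ ∑ p ∈ Sj T M J j, F p := by
    intro j hjJ
    refine Finset.sum_le_sum fun p hp => ?_
    have hpp := prime_Sj hT1 hp
    have hp0 : (0 : ℝ) < p := by exact_mod_cast hpp.pos
    have h4 := (hyp j hjJ p hp).2.2
    have h5 := hθ j hjJ p hp
    rw [hw₁, hw₂, norm_form4 hpp.pos]
    have h6 := expo42_le (z := z) (a₂ := a₂) hk0 hk1 (hθ0 p) hz ha2 ha2c hc₁.le hc (by linarith)
    have h7 : min 1 (‖z‖ * (Real.log p / L)) ≤ min 1 ((1 + ‖z‖) * (Real.log p / L)) := by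
      have := hθ0 p
      gcongr
      linarith
    have h8 : min 1 (c * (Real.log p / L)) ≤ min 1 ((1 + c) * (Real.log p / L)) := by
      have := hθ0 p
      gcongr
      linarith
    have h9 : Cg * yp w₁.re w₂ p ^ 4 ≤ Cg * (4 * ((p : ℝ) ^ 2)⁻¹) := by gcongr
    calc _ ≤ 1 / p * (k ^ 2 + 56 * min 1 ((1 + ‖z‖) * (Real.log p / L)) +
          56 * min 1 ((1 + c) * (Real.log p / L)) + 56 * (c₁ * (Real.log p / L))) +
          Cg * (4 * ((p : ℝ) ^ 2)⁻¹) := by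
          gcongr
          linarith
      _ = F p := by simp only [hF]; ring
  have hsum : ∑ j ∈ Finset.range (J + 1) \ h, Ex j ≤ k ^ 2 * (b - M) + (56 * Real.log (1 + ‖z‖) +
      56 * Real.log (1 + c) + (4 * C3 + 112 * Cm + 60 + 8 * Cg)) := by
    have h1 : ∑ j ∈ Finset.range (J + 1) \ h, Ex j ≤
        ∑ j ∈ Finset.range (J + 1) \ h, ∑ p ∈ Sj T M J j, F p := by
      refine Finset.sum_le_sum fun j hj => hExF j ?_
      have := Finset.mem_range.1 (Finset.mem_sdiff.1 hj).1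
      omega
    have h2 := sum_blocks_le hT1 M J (Finset.sdiff_subset (s := Finset.range (J + 1)) (t := h))
      F hF0
    refine h1.trans (h2.trans ?_)
    have hyy : Real.log (yy T M J (J + 1)) = Real.exp (-(M : ℝ)) * L := by
      rw [log_yy (le_refl J), hbJ]
    have hyy1 : 1 ≤ yy T M J (J + 1) := by
      rw [Len.yy_succ (le_refl J)]
      exact Real.one_le_exp (mul_nonneg (bet_pos _ _ _).le hL.le)
    have hyyT : yy T M J (J + 1) ≤ T := yy_le hT1 M J (by omega)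
    have hsub : PS 0 (yy T M J (J + 1)) ⊆ PS 0 T := PS_mono (by linarith) hyyT
    have s1 : ∑ p ∈ PS 0 (yy T M J (J + 1)), (1 : ℝ) / p ≤ (b - M) + C3 := by
      have h5 : 2 ≤ bet M J J * L :=
        (hD2.trans hbet).trans (mul_le_mul_of_nonneg_right (bet_mono (Nat.zero_le J)) hL.le)
      have h6 : 2 ≤ yy T M J (J + 1) := by
        rw [Len.yy_succ (le_refl J)]
        have := Real.add_one_le_exp (bet M J J * Real.log T)
        linarith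
      have h3 := (abs_le.1 (hinv _ h6)).2
      rw [hyy, Real.log_mul (Real.exp_pos _).ne' hL.ne', Real.log_exp] at h3
      linarith
    have s2 : ∀ Λ : ℝ, 1 ≤ Λ → ∑ p ∈ PS 0 (yy T M J (J + 1)),
        1 / (p : ℝ) * min 1 (Λ * (Real.log p / L)) ≤ Real.log Λ + Cm := by
      intro Λ hΛ
      refine le_trans ?_ (hmin T hT3 Λ hΛ)
      apply Finset.sum_le_sum_of_subset_of_nonneg hsub
      intro p _ _
      have h5 := hθ0 p
      have h3 : 0 ≤ min 1 (Λ * (Real.log p / L)) := le_min zero_le_one (by positivity)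
      positivity
    have s3 : ∑ p ∈ PS 0 (yy T M J (J + 1)), Real.log p / (p : ℝ) ≤
        Real.exp (-(M : ℝ)) * L + C1 := by
      have := hlogdiv _ hyy1
      rwa [hyy] at this
    have s4 : ∑ p ∈ PS 0 (yy T M J (J + 1)), ((p : ℝ) ^ 2)⁻¹ ≤ 2 :=
      sum_inv_sq fun p hp => prime_PS hp
    have t2 := s2 (1 + ‖z‖) (by linarith [norm_nonneg z])
    have t3 := s2 (1 + c) (by linarith)
    have e : ∑ p ∈ PS 0 (yy T M J (J + 1)), F p =
        k ^ 2 * ∑ p ∈ PS 0 (yy T M J (J + 1)), (1 : ℝ) / p +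
        56 * ∑ p ∈ PS 0 (yy T M J (J + 1)), 1 / (p : ℝ) * min 1 ((1 + ‖z‖) * (Real.log p / L)) +
        56 * ∑ p ∈ PS 0 (yy T M J (J + 1)), 1 / (p : ℝ) * min 1 ((1 + c) * (Real.log p / L)) +
        56 * (c₁ / L) * ∑ p ∈ PS 0 (yy T M J (J + 1)), Real.log p / (p : ℝ) +
        4 * Cg * ∑ p ∈ PS 0 (yy T M J (J + 1)), ((p : ℝ) ^ 2)⁻¹ := by
      simp only [hF, Finset.sum_add_distrib, ← Finset.mul_sum]
    rw [e]
    have hk2 : k ^ 2 ≤ 4 := by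
      have h8 := pow_le_pow_left₀ hk0 hk1 2
      norm_num at h8
      exact h8
    have u1 : k ^ 2 * ∑ p ∈ PS 0 (yy T M J (J + 1)), (1 : ℝ) / p ≤ k ^ 2 * (b - M) + 4 * C3 := by
      calc _ ≤ k ^ 2 * ((b - M) + C3) := by gcongr
        _ ≤ k ^ 2 * (b - M) + 4 * C3 := by
            rw [mul_add]; gcongr
    have u4 : 56 * (c₁ / L) * ∑ p ∈ PS 0 (yy T M J (J + 1)), Real.log p / (p : ℝ) ≤ 60 := by
      calc _ ≤ 56 * (c₁ / L) * (Real.exp (-(M : ℝ)) * L + C1) := by gcongr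
        _ = 56 * (c₁ * Real.exp (-(M : ℝ))) + 56 * ((c₁ * C1) / L) := by
            field_simp
        _ ≤ 56 * (1 / 40) + 56 * 1 := by
            gcongr
            rw [div_le_one hL]
            exact hLc
        _ ≤ 60 := by norm_num
    have u5 : 4 * Cg * ∑ p ∈ PS 0 (yy T M J (J + 1)), ((p : ℝ) ^ 2)⁻¹ ≤ 8 * Cg := by
      calc _ ≤ 4 * Cg * 2 := by gcongr
        _ = _ := by ring
    linarith
  -- assembling
  rw [ER_factor42 hT1]
  set P := ∏ j ∈ h, ss M J j with hP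
  have hP0 : 0 ≤ P := Finset.prod_nonneg fun j _ => (Real.exp_pos _).le
  have hprod : ∏ j ∈ Finset.range (J + 1), ES (Sj T M J j) (fun f => ‖ZZ (Sj T M J j) (tw w₁ f)‖ ^ 4 *
      ‖Fc T M J (k - 2) g h j (tw (w₂ : ℂ) f)‖ ^ 2) ≤ P * Real.exp (∑ j ∈ Finset.range (J + 1) \ h,
        (Ex j + 33 * (Real.exp (4 * Cg) * Real.exp (-KK M J j)))) := by
    rw [← Finset.prod_sdiff hh, mul_comm P, Real.exp_sum]
    have hnn : ∀ j, 0 ≤ ES (Sj T M J j) (fun f => ‖ZZ (Sj T M J j) (tw w₁ f)‖ ^ 4 *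
      ‖Fc T M J (k - 2) g h j (tw (w₂ : ℂ) f)‖ ^ 2) :=
      fun j => integral_nonneg fun ω => by positivity
    refine mul_le_mul ?_ ?_ (Finset.prod_nonneg fun j _ => hnn j)
      (Finset.prod_nonneg fun j _ => (Real.exp_pos _).le)
    · refine Finset.prod_le_prod (fun j _ => hnn j) fun j hj => ?_
      obtain ⟨hj1, hj2⟩ := Finset.mem_sdiff.1 hj
      have hjJ : j ≤ J := by
        have := Finset.mem_range.1 hj1
        omega
      have hjg : j ∈ g := by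
        rw [← hgh, Finset.mem_union] at hj1
        tauto
      have h1 := good M (ll M J j) (Sj T M J j) w₁ w₂ k hM1 (by linarith) hkM hk1
        (fun p hp => prime_Sj hT1 hp) (fun p hp => (hyp j hjJ p hp).1)
      have e1 : (fun f : ℕ → ℂ => ‖ZZ (Sj T M J j) (tw w₁ f)‖ ^ 4 *
          ‖Fc T M J (k - 2) g h j (tw (w₂ : ℂ) f)‖ ^ 2) = fun f : ℕ → ℂ =>
          ‖ZZ (Sj T M J j) (tw w₁ f)‖ ^ 4 *
          ‖Ntr (ll M J j) (k - 2) (Pj M (Sj T M J j) (tw (w₂ : ℂ) f))‖ ^ 2 := by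
        funext f
        rw [Fc_good hjg hj2]
      rw [e1]
      refine h1.trans ?_
      rw [← Real.exp_add]
      apply Real.exp_le_exp.2
      have h2 := hgood j hjJ
      simp only [hEx]
      gcongr
    · refine Finset.prod_le_prod (fun j _ => hnn j) fun j hj => ?_
      have hjJ : j ≤ J := by
        have := Finset.mem_range.1 (hh hj)
        omega
      have h1 := bad M (rr M J j) (Sj T M J j) w₁ w₂ (fun f => Fc T M J (k - 2) g h j (tw (w₂ : ℂ) f))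
        hM1 (by linarith) (fun p hp => prime_Sj hT1 hp) (fun p hp => (hyp j hjJ p hp).1)
        (fun f => Fc_bad hα hjJ hj _)
      exact h1.trans (bad_num (hbad j hjJ))
  have htop' := (top (Sj T M J (J + 1)) w₁ hw₁re (fun p hp => prime_Sj hT1 hp)).trans
    (Real.exp_le_exp.2 (mul_le_mul_of_nonneg_left htop hCt))
  have hsumK : ∑ j ∈ Finset.range (J + 1) \ h, Real.exp (-KK M J j) ≤ 5 :=
    (Finset.sum_le_sum_of_subset_of_nonneg Finset.sdiff_subset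
      (fun _ _ _ => (Real.exp_pos _).le)).trans (sum_exp_KK M J)
  have hexp : ∑ j ∈ Finset.range (J + 1) \ h,
        (Ex j + 33 * (Real.exp (4 * Cg) * Real.exp (-KK M J j))) ≤
      k ^ 2 * (b - M) + (56 * Real.log (1 + ‖z‖) + 56 * Real.log (1 + c) +
        (4 * C3 + 112 * Cm + 60 + 8 * Cg)) + 165 * Real.exp (4 * Cg) := by
    rw [Finset.sum_add_distrib]
    have h1 : ∑ j ∈ Finset.range (J + 1) \ h, 33 * (Real.exp (4 * Cg) * Real.exp (-KK M J j)) ≤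
        165 * Real.exp (4 * Cg) := by
      rw [← Finset.mul_sum, ← Finset.mul_sum]
      calc 33 * (Real.exp (4 * Cg) * ∑ j ∈ Finset.range (J + 1) \ h, Real.exp (-KK M J j))
          ≤ 33 * (Real.exp (4 * Cg) * 5) := by gcongr
        _ = _ := by ring
    linarith
  have hkM : 0 ≤ k ^ 2 * (M : ℝ) := by positivity
  have hA := hprod.trans (mul_le_mul_of_nonneg_left (Real.exp_le_exp.2 (hexp.trans
    (show k ^ 2 * (b - M) + (56 * Real.log (1 + ‖z‖) + 56 * Real.log (1 + c) +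
        (4 * C3 + 112 * Cm + 60 + 8 * Cg)) + 165 * Real.exp (4 * Cg) ≤ k ^ 2 * b +
        (((56 : ℕ) : ℝ) * Real.log (1 + ‖z‖) + ((56 : ℕ) : ℝ) * Real.log (1 + c) +
        (4 * C3 + 112 * Cm + 60 + 8 * Cg + 165 * Real.exp (4 * Cg))) by push_cast; linarith))) hP0)
  exact fin_exp 56 hP0 hL hb (norm_nonneg z) hc hM1' hCt (by positivity) hA htop'
    (integral_nonneg fun ω => by positivity)

end XB

end Pool.Agent.Lib.MP_973905_nt
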