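import Pool.Agent.Lib.MP_973905_nt.Blocks

/-! Module Split.lean -/

namespace Pool.Agent.Lib.MP_973905_nt

open MeasureTheory ProbabilityTheory Complex Filter Topology

namespace Split

variable {m : ℕ} {Sb : Fin m → Finset ℕ}

/-- Orthogonality. -/
lemma ER_ortho {T : ℝ} (hU : ∀ n : ℕ, 1 ≤ n → (n : ℝ) ≤ T → n ∈ Nat.factoredNumbers (UU Sb))
    {A B : (ℕ → ℂ) → ℂ} {N₁ M₁ N₂ M₂ : ℝ} (hA : DP N₁ M₁ A) (hB : DP N₂ M₂ B) (hN₁ : N₁ ≤ T)
    (hN₂ : N₂ ≤ T) {n : ℕ} (hn : n ∈ Nat.factoredNumbers (UU Sb)) (hn2 : N₂ < n) :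
    ER Sb (fun f => f n * (A f * (starRingEnd ℂ) (B f))) = 0 := by
  obtain ⟨k, c, nn, h1, h2, h3⟩ := hA
  obtain ⟨k', c', nn', h1', h2', h3'⟩ := hB
  have hn0 : n ≠ 0 := Nat.ne_zero_of_mem_factoredNumbers hn
  have e1 : ER Sb (fun f => f n * (A f * (starRingEnd ℂ) (B f))) = ER Sb (fun f =>
      ∑ i, ∑ j, (c i * (starRingEnd ℂ) (c' j)) * (f (n * nn i) * (starRingEnd ℂ) (f (nn' j)))) := by
    simp only [ER_eq]
    refine integral_congr_ae (Filter.Eventually.of_forall fun ω => ?_)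
    have hf := cmul_XX Sb ω
    simp only
    rw [h3 _ hf, h3' _ hf, map_sum, Finset.sum_mul_sum, Finset.mul_sum]
    refine Finset.sum_congr rfl fun i _ => ?_
    rw [Finset.mul_sum]
    refine Finset.sum_congr rfl fun j _ => ?_
    rw [hf.2 n (nn i) hn0 (Nat.one_le_iff_ne_zero.mp (h1 i).1), map_mul]
    ring
  have hbc : ∀ i j, BC Sb (fun f => (c i * (starRingEnd ℂ) (c' j)) *
      (f (n * nn i) * (starRingEnd ℂ) (f (nn' j)))) := fun i j =>
    BC.const_mul ((bc_apply _).mul (bc_apply _).conj) _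
  rw [e1, ER_sum _ fun i _ => bc_sum _ fun j _ => hbc i j]
  refine Finset.sum_eq_zero fun i _ => ?_
  rw [ER_sum _ fun j _ => hbc i j]
  refine Finset.sum_eq_zero fun j _ => ?_
  have hi := hU _ (h1 i).1 ((h1 i).2.trans hN₁)
  have hj := hU _ (h1' j).1 ((h1' j).2.trans hN₂)
  rw [ER_const_mul, ER_pair (Nat.mul_mem_factoredNumbers hn hi) hj, if_neg, mul_zero]
  intro h
  have h4 : (n : ℝ) ≤ (nn' j : ℝ) := by
    rw [← h]
    exact_mod_cast Nat.le_mul_of_pos_right n (h1 i).1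
  have h5 := (h1' j).2
  linarith

lemma rpow_le_self' {T a : ℝ} (hT : 1 < T) (ha : a ≤ 1) : T ^ a ≤ T := by
  calc T ^ a ≤ T ^ (1 : ℝ) := Real.rpow_le_rpow_of_exponent_le hT.le ha
    _ = T := Real.rpow_one T

end Split

open Split in
/-- Large frequencies of `SS * A` are controlled further to the left, small ones by Bessel. -/
theorem ss_split {m : ℕ} {Sb : Fin m → Finset ℕ} (hB : Blk Sb) {T : ℝ} (hT : 1 < T)
    (hU : ∀ n : ℕ, 1 ≤ n → (n : ℝ) ≤ T → n ∈ Nat.factoredNumbers (UU Sb)) {A : (ℕ → ℂ) → ℂ} {M' : ℝ}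
    (hA : DP (T ^ (1 / 10 : ℝ)) M' A) {σ σ₁ : ℝ} (h1 : 1 / 2 ≤ σ₁) (h2 : σ₁ ≤ σ) :
    ER Sb (fun f => ‖SS T (tw σ f)‖ ^ 2 * ‖A (tw σ f)‖ ^ 2) ≤
      ER Sb (fun f => ‖ZZ (UU Sb) (tw σ f)‖ ^ 2 * ‖A (tw σ f)‖ ^ 2) +
      T ^ (-(8 / 5 : ℝ) * (σ - σ₁)) * ER Sb (fun f => ‖SS T (tw σ₁ f)‖ ^ 2 * ‖A (tw σ₁ f)‖ ^ 2) := by
  have hT0 : 0 < T := by linarith
  obtain ⟨a, ha⟩ := ((dp_SS hT).mul hA).coeff
  set N : ℝ := T ^ (85 / 100 : ℝ) * T ^ (1 / 10 : ℝ) with hN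
  have hNT : N ≤ T := by
    rw [hN, ← Real.rpow_add hT0]
    exact rpow_le_self' hT (by norm_num)
  have hN0 : 0 ≤ N := by positivity
  have hfac : ∀ n ∈ Finset.Icc 1 ⌊N⌋₊, n ∈ Nat.factoredNumbers (UU Sb) := by
    intro n hn
    rw [Finset.mem_Icc] at hn
    exact hU n hn.1 (((Nat.le_floor_iff hN0).mp hn.2).trans hNT)
  -- expansion at `s`
  have hexp : ∀ s : ℝ, ∀ f, CMul f → SS T (tw s f) * A (tw s f) =
      ∑ n ∈ Finset.Icc 1 ⌊N⌋₊, (a n * (n : ℂ) ^ (-(s : ℂ))) * f n := by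
    intro s f hf
    rw [ha (tw s f) (cmul_tw hf s)]
    refine Finset.sum_congr rfl fun n _ => ?_
    simp only [tw]; ring
  have hpars : ∀ s : ℝ, ER Sb (fun f => ‖SS T (tw s f)‖ ^ 2 * ‖A (tw s f)‖ ^ 2) =
      ∑ n ∈ Finset.Icc 1 ⌊N⌋₊, ‖a n * (n : ℂ) ^ (-(s : ℂ))‖ ^ 2 := by
    intro s
    rw [← parseval (Sb := Sb) (Finset.Icc 1 ⌊N⌋₊) hfac (fun n => a n * (n : ℂ) ^ (-(s : ℂ)))]
    simp only [ER_eq]
    refine integral_congr_ae (Filter.Eventually.of_forall fun ω => ?_)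
    simp only
    rw [← hexp s _ (cmul_XX Sb ω), norm_mul, mul_pow]
  rw [hpars σ, hpars σ₁]
  set P : ℕ → Prop := fun n => (n : ℝ) ≤ T ^ (8 / 10 : ℝ) with hP
  classical
  rw [← Finset.sum_filter_add_sum_filter_not (Finset.Icc 1 ⌊N⌋₊) P]
  refine add_le_add ?_ ?_
  · -- small frequencies
    have hσ0 : 0 ≤ σ := by linarith
    have hAt : DP (T ^ (1 / 10 : ℝ)) M' (fun f => A (tw σ f)) := hA.twist (by simpa using hσ0)
    have hZb : BC Sb (fun f => ZZ (UU Sb) (tw σ f)) :=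
      bc_ZZ (fun p hp => prime_of_mem_UU hB hp) (by simp; linarith)
    have hSt : DP (T ^ (85 / 100 : ℝ)) T (fun f => SS T (tw σ f)) :=
      (dp_SS hT).twist (by simpa using hσ0)
    have hbes := bessel (Sb := Sb) (B := fun f => ZZ (UU Sb) (tw σ f) * A (tw σ f))
      (hZb.mul hAt.eval_XX) ((Finset.Icc 1 ⌊N⌋₊).filter P)
      (fun n hn => hfac n (Finset.mem_filter.mp hn).1)
    have e2 : ER Sb (fun f => ‖ZZ (UU Sb) (tw σ f)‖ ^ 2 * ‖A (tw σ f)‖ ^ 2) =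
        ER Sb (fun f => ‖ZZ (UU Sb) (tw σ f) * A (tw σ f)‖ ^ 2) := by
      congr 1
      funext f
      rw [norm_mul, mul_pow]
    rw [e2]
    refine le_trans (le_of_eq ?_) hbes
    refine Finset.sum_congr rfl fun n hn => ?_
    rw [Finset.mem_filter] at hn
    congr 2
    -- the coefficient
    have hnf := hfac n hn.1
    have hn1 : 1 ≤ n := (Finset.mem_Icc.mp hn.1).1
    have c1 : ER Sb (fun f => (SS T (tw σ f) * A (tw σ f)) * (starRingEnd ℂ) (f n)) =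
        a n * (n : ℂ) ^ (-(σ : ℂ)) := by
      have e3 : ER Sb (fun f => (SS T (tw σ f) * A (tw σ f)) * (starRingEnd ℂ) (f n)) =
          ER Sb (fun f => ∑ k ∈ Finset.Icc 1 ⌊N⌋₊, (a k * (k : ℂ) ^ (-(σ : ℂ))) *
            (f k * (starRingEnd ℂ) (f n))) := by
        simp only [ER_eq]
        refine integral_congr_ae (Filter.Eventually.of_forall fun ω => ?_)
        simp only
        rw [hexp σ _ (cmul_XX Sb ω), Finset.sum_mul]
        refine Finset.sum_congr rfl fun k _ => ?_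
        ring
      rw [e3, ER_sum _ fun k _ => ((bc_apply k).mul (bc_apply n).conj).const_mul _,
        Finset.sum_eq_single n]
      · rw [ER_const_mul, ER_pair hnf hnf, if_pos rfl, mul_one]
      · intro k hk hkn
        rw [ER_const_mul, ER_pair (hfac k hk) hnf, if_neg hkn, mul_zero]
      · intro h; exact absurd hn.1 h
    have c2 : ER Sb (fun f => ZZ (UU Sb) (tw σ f) * (A (tw σ f) * (starRingEnd ℂ) (f n))) =
        ER Sb (fun f => SS T (tw σ f) * (A (tw σ f) * (starRingEnd ℂ) (f n))) := by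
      refine ER_ZZ_eq_SS hB hT hU (w := (σ : ℂ)) (by simp; linarith)
        (hAt.eval_XX.mul (bc_apply n).conj) ?_
      intro k hk hkT
      have hd : DP (n : ℝ) 1 (fun f => f n) := by
        have := dp_single (N := (n : ℝ)) 1 n hn1 le_rfl
        simpa using this
      have hnT : (n : ℝ) ≤ T := hn.2.trans (rpow_le_self' hT (by norm_num))
      refine ER_ortho hU hAt hd (rpow_le_self' hT (by norm_num)) hnT hk ?_
      exact lt_of_le_of_lt hn.2 hkT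
    rw [← c1]
    simp only [mul_assoc] at c2 ⊢
    exact c2.symm
  · -- large frequencies
    rw [Finset.mul_sum]
    calc ∑ n ∈ (Finset.Icc 1 ⌊N⌋₊).filter (fun n => ¬ P n), ‖a n * (n : ℂ) ^ (-(σ : ℂ))‖ ^ 2
        ≤ ∑ n ∈ (Finset.Icc 1 ⌊N⌋₊).filter (fun n => ¬ P n), T ^ (-(8 / 5 : ℝ) * (σ - σ₁)) *
          ‖a n * (n : ℂ) ^ (-(σ₁ : ℂ))‖ ^ 2 := by
          refine Finset.sum_le_sum fun n hn => ?_
          rw [Finset.mem_filter] at hn
          have hn1 : 1 ≤ n := (Finset.mem_Icc.mp hn.1).1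
          have hn0 : (0 : ℝ) < n := by exact_mod_cast hn1
          have hnP : T ^ (8 / 10 : ℝ) < n := not_le.mp hn.2
          rw [norm_mul, norm_mul, mul_pow, mul_pow, norm_natCast_cpow_of_pos hn1,
            norm_natCast_cpow_of_pos hn1, neg_re, neg_re, ofReal_re, ofReal_re]
          have e4 : ((n : ℝ) ^ (-σ)) ^ 2 = ((n : ℝ) ^ (-(2 * (σ - σ₁)))) * ((n : ℝ) ^ (-σ₁)) ^ 2 := by
            rw [← Real.rpow_natCast, ← Real.rpow_natCast, ← Real.rpow_mul hn0.le,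
              ← Real.rpow_mul hn0.le, ← Real.rpow_add hn0]
            congr 1
            push_cast
            ring
          have e5 : (n : ℝ) ^ (-(2 * (σ - σ₁))) ≤ T ^ (-(8 / 5 : ℝ) * (σ - σ₁)) := by
            have e6 : T ^ (-(8 / 5 : ℝ) * (σ - σ₁)) = (T ^ (8 / 10 : ℝ)) ^ (-(2 * (σ - σ₁))) := by
              rw [← Real.rpow_mul hT0.le]
              congr 1
              ring
            rw [e6]
            exact Real.rpow_le_rpow_of_nonpos (Real.rpow_pos_of_pos hT0 _) hnP.le (by linarith)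
          rw [e4]
          calc ‖a n‖ ^ 2 * ((n : ℝ) ^ (-(2 * (σ - σ₁))) * ((n : ℝ) ^ (-σ₁)) ^ 2)
              ≤ ‖a n‖ ^ 2 * (T ^ (-(8 / 5 : ℝ) * (σ - σ₁)) * ((n : ℝ) ^ (-σ₁)) ^ 2) := by gcongr
            _ = _ := by ring
      _ ≤ _ := by
          refine Finset.sum_le_sum_of_subset_of_nonneg (Finset.filter_subset _ _) fun n _ _ => ?_
          positivity

open Split in
theorem ss_mixed {m : ℕ} {Sb : Fin m → Finset ℕ} (hB : Blk Sb) {T : ℝ} (hT : 1 < T)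
    (hU : ∀ n : ℕ, 1 ≤ n → (n : ℝ) ≤ T → n ∈ Nat.factoredNumbers (UU Sb))
    {A B : (ℕ → ℂ) → ℂ} {M' M'' : ℝ}
    (hA : DP (T ^ (1 / 10 : ℝ)) M' A) (hB' : DP (T ^ (1 / 10 : ℝ)) M'' B) {σ : ℝ} (h1 : 1 / 2 ≤ σ) :
    ER Sb (fun f => SS T (tw σ f) * A (tw σ f) * (starRingEnd ℂ) (B (tw σ f))) =
      ER Sb (fun f => ZZ (UU Sb) (tw σ f) * A (tw σ f) * (starRingEnd ℂ) (B (tw σ f))) := by
  have hT0 : 0 < T := by linarith
  have hσ0 : 0 ≤ σ := by linarith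
  have hAt : DP (T ^ (1 / 10 : ℝ)) M' (fun f => A (tw σ f)) := hA.twist (by simpa using hσ0)
  have hBt : DP (T ^ (1 / 10 : ℝ)) M'' (fun f => B (tw σ f)) := hB'.twist (by simpa using hσ0)
  have c2 : ER Sb (fun f => ZZ (UU Sb) (tw σ f) * (A (tw σ f) * (starRingEnd ℂ) (B (tw σ f)))) =
      ER Sb (fun f => SS T (tw σ f) * (A (tw σ f) * (starRingEnd ℂ) (B (tw σ f)))) := by
    refine ER_ZZ_eq_SS hB hT hU (w := (σ : ℂ)) (by simp; linarith)
      (hAt.eval_XX.mul hBt.eval_XX.conj) ?_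
    intro k hk hkT
    have hle : T ^ (1 / 10 : ℝ) ≤ T := rpow_le_self' hT (by norm_num)
    refine ER_ortho hU hAt hBt hle hle hk ?_
    refine lt_of_le_of_lt ?_ hkT
    exact Real.rpow_le_rpow_of_exponent_le hT.le (by norm_num)
  simp only [mul_assoc]
  exact c2.symm

end Pool.Agent.Lib.MP_973905_nt
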