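import Pool.Agent.Lib.MP_973905_nt.Defs
import Pool.Agent.Lib.MP_973905_nt.Convex
import Pool.Agent.Lib.MP_973905_nt.Zeta

/-! Twisted second moments of zeta: reduction to the smoothed partial sum. -/

namespace Pool.Agent.Lib.MP_973905_nt

open MeasureTheory ProbabilityTheory Complex Filter Topology

namespace TSM

/-- Analytic functions of polynomial growth in the strip `1/8 < Re s < 10`. -/
structure Nice (f : ℂ → ℂ) : Prop where
  diff : DifferentiableOn ℂ f {s : ℂ | 1 / 8 < s.re ∧ s.re < 10}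
  growth : ∃ (C : ℝ) (m : ℕ), 0 ≤ C ∧ ∀ s : ℂ, 1 / 8 < s.re → s.re < 10 →
    ‖f s‖ ≤ C * (1 + |s.im|) ^ m

lemma Nice.mul {f g : ℂ → ℂ} (hf : Nice f) (hg : Nice g) : Nice (fun s => f s * g s) := by
  obtain ⟨C, m, hC, h1⟩ := hf.growth
  obtain ⟨D, n, hD, h2⟩ := hg.growth
  refine ⟨hf.diff.mul hg.diff, C * D, m + n, mul_nonneg hC hD, fun s a b => ?_⟩
  rw [norm_mul, pow_add]
  calc ‖f s‖ * ‖g s‖ ≤ (C * (1 + |s.im|) ^ m) * (D * (1 + |s.im|) ^ n) :=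
        mul_le_mul (h1 s a b) (h2 s a b) (norm_nonneg _) (by positivity)
    _ = _ := by ring

lemma Nice.sub {f g : ℂ → ℂ} (hf : Nice f) (hg : Nice g) : Nice (fun s => f s - g s) := by
  obtain ⟨C, m, hC, h1⟩ := hf.growth
  obtain ⟨D, n, hD, h2⟩ := hg.growth
  refine ⟨hf.diff.sub hg.diff, C + D, m + n, add_nonneg hC hD, fun s a b => ?_⟩
  have h3 : (1 + |s.im|) ^ m ≤ (1 + |s.im|) ^ (m + n) :=
    pow_le_pow_right₀ (by linarith [abs_nonneg s.im]) (by omega)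
  have h4 : (1 + |s.im|) ^ n ≤ (1 + |s.im|) ^ (m + n) :=
    pow_le_pow_right₀ (by linarith [abs_nonneg s.im]) (by omega)
  calc ‖f s - g s‖ ≤ ‖f s‖ + ‖g s‖ := norm_sub_le _ _
    _ ≤ C * (1 + |s.im|) ^ m + D * (1 + |s.im|) ^ n := add_le_add (h1 s a b) (h2 s a b)
    _ ≤ C * (1 + |s.im|) ^ (m + n) + D * (1 + |s.im|) ^ (m + n) := by gcongr
    _ = _ := by ring

lemma nice_of_bdd {f : ℂ → ℂ} (hf : Differentiable ℂ f) {C : ℝ} (hC : 0 ≤ C)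
    (h : ∀ s : ℂ, 1 / 8 < s.re → s.re < 10 → ‖f s‖ ≤ C) : Nice f :=
  ⟨hf.differentiableOn, C, 0, hC, fun s a b => by simpa using h s a b⟩

lemma norm_zt_le : ∃ C : ℝ, 0 < C ∧ ∀ s : ℂ, 1 / 8 ≤ s.re → s.re ≤ 10 →
    ‖zt s‖ ≤ C * (1 + |s.im|) ^ 2 := by
  obtain ⟨C, hC, h⟩ := zeta_growth
  refine ⟨C, hC, fun s a b => ?_⟩
  have h1 : 1 ≤ ‖s + 1‖ := by
    have : |(s + 1).re| ≤ ‖s + 1‖ := abs_re_le_norm _
    have h2 : (s + 1).re = s.re + 1 := by simp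
    rw [h2, abs_of_pos (by linarith)] at this
    linarith
  rw [zt, norm_div]
  calc ‖riemannZeta₁ s‖ / ‖s + 1‖ ≤ ‖riemannZeta₁ s‖ / 1 := by gcongr
    _ ≤ _ := by rw [div_one]; exact h s a b

lemma add_one_ne_zero' {s : ℂ} (hs : 1 / 8 < s.re) : s + 1 ≠ 0 := by
  intro h
  have := congrArg Complex.re h
  simp at this
  linarith

lemma nice_zt : Nice zt := by
  obtain ⟨C, hC, h⟩ := norm_zt_le
  refine ⟨?_, C, 2, hC.le, fun s a b => h s a.le b.le⟩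
  unfold zt
  apply DifferentiableOn.div differentiable_riemannZeta₁.differentiableOn
  · exact (differentiable_id.add_const 1).differentiableOn
  · intro s hs
    exact add_one_ne_zero' hs.1

lemma norm_kp_le {s : ℂ} (hs : 0 ≤ s.re) : ‖kp s‖ ≤ 1 := by
  rw [kp, norm_div]
  apply div_le_one_of_le₀ _ (norm_nonneg _)
  rw [← sq_le_sq₀ (norm_nonneg _) (norm_nonneg _), ← normSq_eq_norm_sq, ← normSq_eq_norm_sq,
    normSq_apply, normSq_apply]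
  simp
  nlinarith

lemma nice_kp : Nice kp := by
  refine ⟨?_, 1, 0, zero_le_one, fun s a b => by simpa using norm_kp_le (by linarith)⟩
  unfold kp
  apply DifferentiableOn.div
  · exact (differentiable_id.sub_const 1).differentiableOn
  · exact (differentiable_id.add_const 1).differentiableOn
  · intro s hs
    exact add_one_ne_zero' hs.1

/-- Means on vertical lines. -/
noncomputable def MM (T τ : ℝ) (f : ℂ → ℂ) (σ : ℝ) : ℝ := EG T τ (fun t => ‖f (σ + t * I)‖)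

lemma MM_nonneg (T τ : ℝ) (f : ℂ → ℂ) (σ : ℝ) : 0 ≤ MM T τ f σ :=
  integral_nonneg fun _ => norm_nonneg _

lemma line_re (σ t : ℝ) : ((σ : ℂ) + t * I).re = σ := by simp
lemma line_im (σ t : ℝ) : ((σ : ℂ) + t * I).im = t := by simp

lemma Nice.integrable {f : ℂ → ℂ} (hf : Nice f) (τ : ℝ) (v : NNReal) {σ : ℝ} (h1 : 1 / 8 < σ)
    (h2 : σ < 10) : Integrable (fun t : ℝ => ‖f (σ + t * I)‖) (gaussianReal τ v) := by
  obtain ⟨C, m, hC, h⟩ := hf.growth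
  have hc : Continuous (fun t : ℝ => f (σ + t * I)) := by
    apply hf.diff.continuousOn.comp_continuous (by fun_prop)
    intro t
    simp only [Set.mem_ofPred_eq, line_re]
    exact ⟨h1, h2⟩
  refine integrable_of_poly τ v hc.norm.aestronglyMeasurable (C := C) (m := m) fun t => ?_
  rw [norm_norm]
  have := h (σ + t * I) (by rw [line_re]; exact h1) (by rw [line_re]; exact h2)
  rwa [line_im] at this

lemma VV_ne {T : ℝ} (hT : 0 < T) : VV T ≠ 0 := by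
  unfold VV
  rw [Ne, Real.toNNReal_eq_zero, not_le]
  exact Real.rpow_pos_of_pos hT _

lemma gfac {T : ℝ} (hT : 12 ≤ T) {z : ℝ} (hz : z ≤ 8) : Real.exp (z / (2 * VV T)) ≤ 2 := by
  have hT0 : 0 < T := by linarith
  have hV : 12 ≤ (VV T : ℝ) := by
    rw [VV_coe hT0.le]
    calc (12 : ℝ) ≤ T := hT
      _ = T ^ (1 : ℝ) := (Real.rpow_one T).symm
      _ ≤ T ^ (19 / 10 : ℝ) := Real.rpow_le_rpow_of_exponent_le (by linarith) (by norm_num)
  have h1 : z / (2 * VV T) ≤ 1 / 3 := by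
    rw [div_le_iff₀ (by linarith)]
    linarith
  calc Real.exp (z / (2 * VV T)) ≤ Real.exp (1 / 3) := Real.exp_le_exp.2 h1
    _ ≤ 1 + 1 / 3 + (1 / 3) ^ 2 := by
        have := Real.abs_exp_sub_one_sub_id_le (x := 1 / 3) (by rw [abs_of_pos] <;> norm_num)
        rw [abs_le] at this
        linarith [this.2]
    _ ≤ 2 := by norm_num

lemma Nice.convex {f : ℂ → ℂ} (hf : Nice f) {T τ a b x A B : ℝ} (hT : 12 ≤ T) (ha : 1 / 8 < a)
    (hab : a < b) (hb : b < 10) (hba : (b - a) ^ 2 ≤ 32) (hx : x ∈ Set.Icc a b) (hA0 : 0 < A)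
    (hB0 : 0 < B) (hA : MM T τ f a ≤ A) (hB : MM T τ f b ≤ B) :
    MM T τ f x ≤ 2 * (A ^ ((b - x) / (b - a)) * B ^ ((x - a) / (b - a))) := by
  obtain ⟨C, m, hC, h⟩ := hf.growth
  have key := gauss_convex (f := f) (a := a) (b := b) (α := 1 / 8) (β := 10) (p := 1) (τ := τ)
    (x := x) (A := A) (B := B) (v := VV T) ha hab hb one_pos (VV_ne (by linarith)) hf.diff
    ⟨C, m, fun s h1 h2 => by simpa using h s h1 h2⟩ hx hA0 hB0
    (by simpa [MM, EG] using hA) (by simpa [MM, EG] using hB)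
  simp only [Real.rpow_one] at key
  have h1 : (x - a) * (b - x) ≤ 8 := by nlinarith [sq_nonneg ((x - a) - (b - x)), hx.1, hx.2]
  have h2 := gfac hT h1
  have h3 : 0 ≤ A ^ ((b - x) / (b - a)) * B ^ ((x - a) / (b - a)) := by positivity
  calc MM T τ f x ≤ A ^ ((b - x) / (b - a)) * B ^ ((x - a) / (b - a)) *
        Real.exp ((x - a) * (b - x) / (2 * VV T)) := key
    _ ≤ A ^ ((b - x) / (b - a)) * B ^ ((x - a) / (b - a)) * 2 := by gcongr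
    _ = _ := by ring

/-- The analytic functions belonging to a Dirichlet polynomial. -/
theorem dp_poly {N M : ℝ} {G : (ℕ → ℂ) → ℂ} (h : DP N M G) (hN : 1 ≤ N) :
    ∃ g g' : ℂ → ℂ, Differentiable ℂ g ∧ Differentiable ℂ g' ∧ (∀ s, G (fs s) = g s) ∧
      (∀ s, ‖g' s‖ = ‖g (1 - (starRingEnd ℂ) s)‖) ∧ (∀ s : ℂ, 0 ≤ s.re → ‖g s‖ ≤ M) ∧
      (∀ (s : ℂ) (k : ℕ), -(k : ℝ) ≤ s.re → ‖g s‖ ≤ M * N ^ k) := by
  have hM := h.M_nonneg
  obtain ⟨k, c, n, h1, h2, h3⟩ := h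
  have hn0 : ∀ i, (n i : ℂ) ≠ 0 := fun i => by
    have := (h1 i).1
    exact_mod_cast (by omega : n i ≠ 0)
  have hd : ∀ i, Differentiable ℂ (fun s : ℂ => (n i : ℂ) ^ (-s)) := fun i s =>
    (differentiableAt_id.neg).const_cpow (Or.inl (hn0 i))
  have hd' : ∀ i, Differentiable ℂ (fun s : ℂ => (n i : ℂ) ^ (-(1 - s))) := fun i s =>
    ((differentiableAt_const 1).sub differentiableAt_id).neg.const_cpow (Or.inl (hn0 i))
  have hb : ∀ (s : ℂ) (j : ℕ), -(j : ℝ) ≤ s.re →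
      ‖∑ i, c i * (n i : ℂ) ^ (-s)‖ ≤ M * N ^ j := by
    intro s j hs
    calc ‖∑ i, c i * (n i : ℂ) ^ (-s)‖ ≤ ∑ i, ‖c i‖ * N ^ j := by
          refine (norm_sum_le _ _).trans (Finset.sum_le_sum fun i _ => ?_)
          rw [norm_mul, norm_natCast_cpow_of_pos (h1 i).1]
          have hni : (1 : ℝ) ≤ n i := by exact_mod_cast (h1 i).1
          have : (n i : ℝ) ^ (-s).re ≤ N ^ j := by
            calc (n i : ℝ) ^ (-s).re ≤ (n i : ℝ) ^ (j : ℝ) :=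
                  Real.rpow_le_rpow_of_exponent_le hni (by simp; linarith)
              _ = (n i : ℝ) ^ j := Real.rpow_natCast _ _
              _ ≤ N ^ j := pow_le_pow_left₀ (by linarith) (h1 i).2 _
          gcongr
      _ = (∑ i, ‖c i‖) * N ^ j := by rw [Finset.sum_mul]
      _ ≤ M * N ^ j := by gcongr
  refine ⟨fun s => ∑ i, c i * (n i : ℂ) ^ (-s),
    fun s => ∑ i, (starRingEnd ℂ) (c i) * (n i : ℂ) ^ (-(1 - s)), ?_, ?_, ?_, ?_, ?_, hb⟩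
  · exact Differentiable.fun_sum fun i _ => (hd i).const_mul _
  · exact Differentiable.fun_sum fun i _ => (hd' i).const_mul _
  · intro s
    exact h3 _ (cmul_fs s)
  · intro s
    rw [← norm_conj]
    congr 1
    rw [map_sum]
    refine Finset.sum_congr rfl fun i _ => ?_
    rw [map_mul, conj_conj]
    congr 1
    have harg : ((n i : ℕ) : ℂ).arg ≠ Real.pi := by
      rw [natCast_arg]; exact Real.pi_ne_zero.symm
    have := cpow_conj ((n i : ℕ) : ℂ) (-(1 - s)) harg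
    rw [conj_natCast] at this
    rw [← this]
    congr 1
    simp
  · intro s hs
    have := hb s 0 (by simpa using hs)
    simpa using this


/-! ### The functional equation -/

lemma kp_ratio {δ t : ℝ} (h0 : 0 ≤ δ) (h1 : δ ≤ 1 / 4) :
    ‖kp ((1 / 2 - δ : ℝ) + t * I)‖ ≤ 6 * ‖kp ((1 / 2 + δ : ℝ) + t * I)‖ := by
  set s₁ : ℂ := (1 / 2 - δ : ℝ) + t * I with hs₁
  set s₂ : ℂ := (1 / 2 + δ : ℝ) + t * I with hs₂
  have r1 : s₁.re = 1 / 2 - δ := line_re _ _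
  have r2 : s₂.re = 1 / 2 + δ := line_re _ _
  have i1 : s₁.im = t := line_im _ _
  have i2 : s₂.im = t := line_im _ _
  have a1 : ‖s₁ - 1‖ ≤ 3 * ‖s₂ - 1‖ := by
    rw [← sq_le_sq₀ (norm_nonneg _) (by positivity), mul_pow, ← normSq_eq_norm_sq,
      ← normSq_eq_norm_sq, normSq_apply, normSq_apply]
    simp only [sub_re, sub_im, one_re, one_im, r1, r2, i1, i2]
    nlinarith [sq_nonneg t]
  have a2 : ‖s₂ + 1‖ ≤ 2 * ‖s₁ + 1‖ := by
    rw [← sq_le_sq₀ (norm_nonneg _) (by positivity), mul_pow, ← normSq_eq_norm_sq,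
      ← normSq_eq_norm_sq, normSq_apply, normSq_apply]
    simp only [add_re, add_im, one_re, one_im, r1, r2, i1, i2]
    nlinarith [sq_nonneg t]
  have p1 : 0 < ‖s₁ + 1‖ := norm_pos_iff.2 (add_one_ne_zero' (by rw [r1]; linarith))
  have p2 : 0 < ‖s₂ + 1‖ := norm_pos_iff.2 (add_one_ne_zero' (by rw [r2]; linarith))
  rw [kp, kp, norm_div, norm_div, div_le_iff₀ p1]
  have e : 6 * (‖s₂ - 1‖ / ‖s₂ + 1‖) * ‖s₁ + 1‖ = (3 * ‖s₂ - 1‖) * (2 * ‖s₁ + 1‖ / ‖s₂ + 1‖) := by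
    field_simp; ring
  rw [e]
  have h3 : 1 ≤ 2 * ‖s₁ + 1‖ / ‖s₂ + 1‖ := by rw [le_div_iff₀ p2]; linarith
  calc ‖s₁ - 1‖ ≤ 3 * ‖s₂ - 1‖ := a1
    _ = (3 * ‖s₂ - 1‖) * 1 := by ring
    _ ≤ _ := by gcongr

lemma zt_fe : ∃ C : ℝ, 1 ≤ C ∧ ∀ δ t : ℝ, 0 ≤ δ → δ ≤ 1 / 4 →
    ‖zt ((1 / 2 - δ : ℝ) + t * I)‖ ≤
      C * (1 + |t|) ^ δ * ‖zt ((1 / 2 + δ : ℝ) + t * I)‖ := by
  obtain ⟨C, hC, h⟩ := zeta_fe
  refine ⟨6 * C + 1, by linarith, fun δ t h0 h1 => ?_⟩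
  have hne : ∀ x : ℝ, 1 / 4 ≤ x → x ≤ 3 / 4 → ((x : ℂ) + t * I ≠ 1 ∧ (x : ℂ) + t * I ≠ -1) := by
    intro x hx1 hx2
    constructor
    · intro hh
      have := congrArg Complex.re hh
      rw [line_re, one_re] at this
      linarith
    · intro hh
      have := congrArg Complex.re hh
      rw [line_re, neg_re, one_re] at this
      linarith
  obtain ⟨n1, n2⟩ := hne (1 / 2 - δ) (by linarith) (by linarith)
  obtain ⟨n3, n4⟩ := hne (1 / 2 + δ) (by linarith) (by linarith)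
  rw [zeta_eq_zt n1 n2, zeta_eq_zt n3 n4, norm_mul, norm_mul]
  have h2 := h δ t h0 h1
  have h3 := kp_ratio (δ := δ) (t := t) h0 h1
  have h4 : 0 ≤ (1 + |t|) ^ δ := by positivity
  calc ‖kp ((1 / 2 - δ : ℝ) + t * I)‖ * ‖riemannZeta ((1 / 2 - δ : ℝ) + t * I)‖
      ≤ (6 * ‖kp ((1 / 2 + δ : ℝ) + t * I)‖) *
        (C * (1 + |t|) ^ δ * ‖riemannZeta ((1 / 2 + δ : ℝ) + t * I)‖) :=
        mul_le_mul h3 h2 (norm_nonneg _) (by positivity)
    _ = (6 * C) * ((1 + |t|) ^ δ * (‖kp ((1 / 2 + δ : ℝ) + t * I)‖ *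
        ‖riemannZeta ((1 / 2 + δ : ℝ) + t * I)‖)) := by ring
    _ ≤ (6 * C + 1) * ((1 + |t|) ^ δ * (‖kp ((1 / 2 + δ : ℝ) + t * I)‖ *
        ‖riemannZeta ((1 / 2 + δ : ℝ) + t * I)‖)) := by gcongr; linarith
    _ = _ := by ring

/-- The function for the twisted second moment. -/
noncomputable def f1 (g g' : ℂ → ℂ) (s : ℂ) : ℂ := (zt s * zt s) * (g s * g' s)

lemma nice_f1 {g g' : ℂ → ℂ} (hg : Nice g) (hg' : Nice g') : Nice (f1 g g') :=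
  (nice_zt.mul nice_zt).mul (hg.mul hg')

lemma one_sub_conj (σ t : ℝ) : 1 - (starRingEnd ℂ) ((σ : ℂ) + t * I) = ((1 - σ : ℝ) : ℂ) + t * I := by
  apply Complex.ext <;> simp

lemma eventually_tail (C : ℝ) : ∀ᶠ T : ℝ in atTop,
    C * T ^ (1 / 10 : ℝ) * Real.exp (-T ^ (1 / 10 : ℝ)) ≤ 1 / T := by
  have h1 : Tendsto (fun T : ℝ => T ^ (1 / 10 : ℝ)) atTop atTop :=
    tendsto_rpow_atTop (by norm_num)
  have h2 : ∀ᶠ u : ℝ in atTop, C * u ^ 11 ≤ Real.exp u := by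
    have := (Real.isLittleO_pow_exp_atTop (n := 11)).def (c := (|C| + 1)⁻¹) (by positivity)
    filter_upwards [this, eventually_ge_atTop 0] with u hu hu0
    rw [Real.norm_eq_abs, Real.norm_eq_abs, abs_of_nonneg (by positivity),
      abs_of_pos (Real.exp_pos _)] at hu
    have h3 := mul_le_mul_of_nonneg_left hu (show 0 ≤ |C| + 1 by positivity)
    rw [← mul_assoc, mul_inv_cancel₀ (by positivity), one_mul] at h3
    refine le_trans ?_ h3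
    have : 0 ≤ u ^ 11 := by positivity
    nlinarith [le_abs_self C]
  filter_upwards [h1.eventually h2, eventually_gt_atTop 0] with T hT hT0
  have h3 : T = (T ^ (1 / 10 : ℝ)) ^ 10 := by
    rw [← Real.rpow_natCast, ← Real.rpow_mul hT0.le]; norm_num
  rw [Real.exp_neg, ← div_eq_mul_inv, div_le_div_iff₀ (Real.exp_pos _) hT0, one_mul]
  calc C * T ^ (1 / 10 : ℝ) * T = C * T ^ (1 / 10 : ℝ) * (T ^ (1 / 10 : ℝ)) ^ 10 := by rw [← h3]
    _ = C * (T ^ (1 / 10 : ℝ)) ^ 11 := by ring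
    _ ≤ _ := hT

lemma norm_f1 (g g' : ℂ → ℂ) (hgg : ∀ s, ‖g' s‖ = ‖g (1 - (starRingEnd ℂ) s)‖) (σ t : ℝ) :
    ‖f1 g g' (σ + t * I)‖ =
      ‖zt (σ + t * I)‖ ^ 2 * (‖g (σ + t * I)‖ * ‖g (((1 - σ : ℝ) : ℂ) + t * I)‖) := by
  rw [f1, norm_mul, norm_mul, norm_mul, hgg, one_sub_conj]
  ring

/-- The functional equation step. -/
theorem step_fe : ∃ C₁ : ℝ, 1 ≤ C₁ ∧ ∀ c : ℝ, 0 < c → ∀ᶠ T : ℝ in atTop, ∀ τ : ℝ, |τ| ≤ 2 * T →
    ∀ g g' : ℂ → ℂ, Nice g → Nice g' → (∀ s, ‖g' s‖ = ‖g (1 - (starRingEnd ℂ) s)‖) →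
    (∀ s : ℂ, 0 ≤ s.re → ‖g s‖ ≤ T ^ (1 / 20 : ℝ)) →
    MM T τ (f1 g g') (1 / 2 - c / Real.log T) ≤
      C₁ * Real.exp (2 * c) * MM T τ (f1 g g') (1 / 2 + c / Real.log T) + 1 / T := by
  obtain ⟨Cz, hCz, hz⟩ := zt_fe
  obtain ⟨Cg, hCg, hg0⟩ := norm_zt_le
  refine ⟨3 * Cz ^ 2, by nlinarith, fun c hc => ?_⟩
  obtain ⟨Tt, hTt⟩ := eg_tail 4
  filter_upwards [eventually_ge_atTop Tt, eventually_ge_atTop 12, eventually_tail (Cg ^ 2),
    Real.tendsto_log_atTop.eventually_ge_atTop (4 * c)] with T hT1 hT12 hT2 hL τ hτ g g' hg hg' hgg hgM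
  have hT0 : 0 < T := by linarith
  have hLpos : 0 < Real.log T := Real.log_pos (by linarith)
  set δ : ℝ := c / Real.log T with hδ
  have hδ0 : 0 < δ := div_pos hc hLpos
  have hδ1 : δ ≤ 1 / 4 := by rw [hδ, div_le_iff₀ hLpos]; linarith
  have hδL : δ * Real.log T = c := by rw [hδ]; field_simp
  set M : ℝ := T ^ (1 / 20 : ℝ) with hM
  have hM0 : 0 < M := Real.rpow_pos_of_pos hT0 _
  have hMM : M * M = T ^ (1 / 10 : ℝ) := by
    rw [hM, ← Real.rpow_add hT0]; norm_num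
  -- pointwise bound
  have hpt : ∀ t : ℝ, ‖f1 g g' ((1 / 2 - δ : ℝ) + t * I)‖ ≤
      3 * Cz ^ 2 * Real.exp (2 * c) * ‖f1 g g' ((1 / 2 + δ : ℝ) + t * I)‖ +
      Cg ^ 2 * T ^ (1 / 10 : ℝ) *
        Set.indicator {t : ℝ | 8 * T < |t|} (fun t => (1 + |t|) ^ 4) t := by
    intro t
    rw [norm_f1 g g' hgg, norm_f1 g g' hgg]
    have e1 : (1 - (1 / 2 - δ) : ℝ) = 1 / 2 + δ := by ring
    have e2 : (1 - (1 / 2 + δ) : ℝ) = 1 / 2 - δ := by ring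
    rw [e1, e2]
    set a := ‖g (((1 / 2 - δ : ℝ) : ℂ) + t * I)‖ with ha
    set b := ‖g (((1 / 2 + δ : ℝ) : ℂ) + t * I)‖ with hb
    have ha0 : 0 ≤ a := norm_nonneg _
    have hb0 : 0 ≤ b := norm_nonneg _
    by_cases ht : t ∈ {t : ℝ | 8 * T < |t|}
    · rw [Set.indicator_of_mem ht]
      have h1 := hg0 (((1 / 2 - δ : ℝ) : ℂ) + t * I) (by rw [line_re]; linarith)
        (by rw [line_re]; linarith)
      rw [line_im] at h1
      have haM : a ≤ M := hgM _ (by rw [line_re]; linarith)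
      have hbM : b ≤ M := hgM _ (by rw [line_re]; linarith)
      have h2 : ‖zt (((1 / 2 - δ : ℝ) : ℂ) + t * I)‖ ^ 2 ≤ (Cg * (1 + |t|) ^ 2) ^ 2 :=
        pow_le_pow_left₀ (norm_nonneg _) h1 2
      have h3 : a * b ≤ T ^ (1 / 10 : ℝ) := by
        rw [← hMM]; exact mul_le_mul haM hbM hb0 hM0.le
      have h4 : ‖zt (((1 / 2 - δ : ℝ) : ℂ) + t * I)‖ ^ 2 * (a * b) ≤
          (Cg * (1 + |t|) ^ 2) ^ 2 * T ^ (1 / 10 : ℝ) :=
        mul_le_mul h2 h3 (by positivity) (by positivity)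
      have h5 : 0 ≤ 3 * Cz ^ 2 * Real.exp (2 * c) *
          (‖zt (((1 / 2 + δ : ℝ) : ℂ) + t * I)‖ ^ 2 * (b * a)) := by positivity
      calc _ ≤ (Cg * (1 + |t|) ^ 2) ^ 2 * T ^ (1 / 10 : ℝ) := h4
        _ = Cg ^ 2 * T ^ (1 / 10 : ℝ) * (1 + |t|) ^ 4 := by ring
        _ ≤ _ := by linarith
    · rw [Set.indicator_of_notMem ht, mul_zero, add_zero]
      have ht' : |t| ≤ 8 * T := by
        have : ¬ (8 * T < |t|) := ht
        linarith
      have h1 := hz δ t hδ0.le hδ1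
      have h2 : (1 + |t|) ^ δ * (1 + |t|) ^ δ ≤ 3 * Real.exp (2 * c) := by
        rw [← Real.rpow_add (by positivity)]
        calc (1 + |t|) ^ (δ + δ) ≤ (9 * T) ^ (δ + δ) := by
              apply Real.rpow_le_rpow (by positivity) (by linarith) (by linarith)
          _ = Real.exp (Real.log (9 * T) * (δ + δ)) := by
              rw [Real.rpow_def_of_pos (by positivity)]
          _ = Real.exp (Real.log 9 * (δ + δ)) * Real.exp (2 * c) := by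
              rw [← Real.exp_add, Real.log_mul (by norm_num) hT0.ne']
              congr 1
              linear_combination 2 * hδL
          _ ≤ 3 * Real.exp (2 * c) := by
              have h9 : Real.log 9 = 2 * Real.log 3 := by
                rw [show (9 : ℝ) = 3 ^ 2 by norm_num, Real.log_pow]; norm_num
              have h3pos : 0 < Real.log 3 := Real.log_pos (by norm_num)
              have : Real.exp (Real.log 9 * (δ + δ)) ≤ 3 := by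
                calc Real.exp (Real.log 9 * (δ + δ)) ≤ Real.exp (Real.log 3) := by
                      apply Real.exp_le_exp.2
                      rw [h9]; nlinarith
                  _ = 3 := Real.exp_log (by norm_num)
              gcongr
      have h3 : ‖zt (((1 / 2 - δ : ℝ) : ℂ) + t * I)‖ ^ 2 ≤
          3 * Cz ^ 2 * Real.exp (2 * c) * ‖zt (((1 / 2 + δ : ℝ) : ℂ) + t * I)‖ ^ 2 := by
        calc ‖zt (((1 / 2 - δ : ℝ) : ℂ) + t * I)‖ ^ 2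
            ≤ (Cz * (1 + |t|) ^ δ * ‖zt (((1 / 2 + δ : ℝ) : ℂ) + t * I)‖) ^ 2 :=
              pow_le_pow_left₀ (norm_nonneg _) h1 2
          _ = Cz ^ 2 * ((1 + |t|) ^ δ * (1 + |t|) ^ δ) *
              ‖zt (((1 / 2 + δ : ℝ) : ℂ) + t * I)‖ ^ 2 := by ring
          _ ≤ Cz ^ 2 * (3 * Real.exp (2 * c)) *
              ‖zt (((1 / 2 + δ : ℝ) : ℂ) + t * I)‖ ^ 2 := by gcongr
          _ = _ := by ring
      calc ‖zt (((1 / 2 - δ : ℝ) : ℂ) + t * I)‖ ^ 2 * (a * b)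
          ≤ (3 * Cz ^ 2 * Real.exp (2 * c) * ‖zt (((1 / 2 + δ : ℝ) : ℂ) + t * I)‖ ^ 2) *
            (a * b) := by gcongr
        _ = _ := by ring
  have i1 : Integrable (fun t : ℝ => ‖f1 g g' ((1 / 2 - δ : ℝ) + t * I)‖)
      (gaussianReal τ (VV T)) := (nice_f1 hg hg').integrable _ _ (by linarith) (by linarith)
  have i2 : Integrable (fun t : ℝ => ‖f1 g g' ((1 / 2 + δ : ℝ) + t * I)‖)
      (gaussianReal τ (VV T)) := (nice_f1 hg hg').integrable _ _ (by linarith) (by linarith)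
  have hms : MeasurableSet {t : ℝ | 8 * T < |t|} :=
    measurableSet_lt measurable_const measurable_id.abs
  have i3 : Integrable (Set.indicator {t : ℝ | 8 * T < |t|} (fun t => (1 + |t|) ^ 4))
      (gaussianReal τ (VV T)) := (integrable_one_add_abs_pow τ _ 4).indicator hms
  have h1 : MM T τ (f1 g g') (1 / 2 - δ) ≤
      ∫ t : ℝ, (3 * Cz ^ 2 * Real.exp (2 * c) * ‖f1 g g' ((1 / 2 + δ : ℝ) + t * I)‖ +
      Cg ^ 2 * T ^ (1 / 10 : ℝ) *
        Set.indicator {t : ℝ | 8 * T < |t|} (fun t => (1 + |t|) ^ 4) t)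
        ∂(gaussianReal τ (VV T)) :=
    integral_mono i1 ((i2.const_mul _).add (i3.const_mul _)) hpt
  rw [integral_add (i2.const_mul _) (i3.const_mul _), integral_const_mul, integral_const_mul] at h1
  have h2 : Cg ^ 2 * T ^ (1 / 10 : ℝ) *
      ∫ t : ℝ, Set.indicator {t : ℝ | 8 * T < |t|} (fun t => (1 + |t|) ^ 4) t
        ∂(gaussianReal τ (VV T)) ≤ 1 / T := by
    refine le_trans ?_ hT2
    have h3 := hTt T hT1 τ hτ
    have h4 : 0 ≤ Cg ^ 2 * T ^ (1 / 10 : ℝ) := by positivity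
    exact mul_le_mul_of_nonneg_left h3 h4
  have h3 : MM T τ (f1 g g') (1 / 2 + δ) =
    ∫ t : ℝ, ‖f1 g g' ((1 / 2 + δ : ℝ) + t * I)‖ ∂(gaussianReal τ (VV T)) := rfl
  rw [h3]
  linarith

/-- From the lines `1/2 ± c/log T` to the critical line. -/
theorem step_half : ∃ C₁ : ℝ, 1 ≤ C₁ ∧ ∀ c : ℝ, 0 < c → ∀ᶠ T : ℝ in atTop, ∀ τ : ℝ, |τ| ≤ 2 * T →
    ∀ g g' : ℂ → ℂ, Nice g → Nice g' → (∀ s, ‖g' s‖ = ‖g (1 - (starRingEnd ℂ) s)‖) →
    (∀ s : ℂ, 0 ≤ s.re → ‖g s‖ ≤ T ^ (1 / 20 : ℝ)) →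
    MM T τ (f1 g g') (1 / 2) ≤
      2 * C₁ * Real.exp c * (MM T τ (f1 g g') (1 / 2 + c / Real.log T) + 1 / T) := by
  obtain ⟨C₁, hC₁, h⟩ := step_fe
  refine ⟨C₁, hC₁, fun c hc => ?_⟩
  filter_upwards [h c hc, eventually_ge_atTop 12,
    Real.tendsto_log_atTop.eventually_ge_atTop (4 * c)] with T hT hT12 hL τ hτ g g' hg hg' hgg hgM
  have hT0 : 0 < T := by linarith
  have hLpos : 0 < Real.log T := Real.log_pos (by linarith)
  have key := hT τ hτ g g' hg hg' hgg hgM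
  set δ : ℝ := c / Real.log T with hδ
  have hδ0 : 0 < δ := div_pos hc hLpos
  have hδ1 : δ ≤ 1 / 4 := by rw [hδ, div_le_iff₀ hLpos]; linarith
  set B : ℝ := MM T τ (f1 g g') (1 / 2 + δ) + 1 / T with hB
  have hB0 : 0 < B := by
    have := MM_nonneg T τ (f1 g g') (1 / 2 + δ)
    have : 0 < 1 / T := by positivity
    linarith
  have hE : 1 ≤ C₁ * Real.exp (2 * c) := by
    have : 1 ≤ Real.exp (2 * c) := Real.one_le_exp (by linarith)
    nlinarith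
  have hA : MM T τ (f1 g g') (1 / 2 - δ) ≤ C₁ * Real.exp (2 * c) * B := by
    have : 0 < 1 / T := by positivity
    rw [hB, mul_add]
    nlinarith
  have hconv := (nice_f1 hg hg').convex (T := T) (τ := τ) (a := 1 / 2 - δ) (b := 1 / 2 + δ)
    (x := 1 / 2) (A := C₁ * Real.exp (2 * c) * B) (B := B) hT12 (by linarith) (by linarith)
    (by linarith) (by nlinarith) ⟨by linarith, by linarith⟩ (by positivity) hB0 hA
    (by have : 0 < 1 / T := by positivity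
        linarith)
  have e1 : (1 / 2 + δ - 1 / 2) / (1 / 2 + δ - (1 / 2 - δ)) = 1 / 2 := by field_simp; ring
  have e2 : (1 / 2 - (1 / 2 - δ)) / (1 / 2 + δ - (1 / 2 - δ)) = 1 / 2 := by field_simp; ring
  rw [e1, e2] at hconv
  have h1 : (C₁ * Real.exp (2 * c) * B) ^ (1 / 2 : ℝ) * B ^ (1 / 2 : ℝ) =
      (C₁ * Real.exp (2 * c)) ^ (1 / 2 : ℝ) * B := by
    rw [Real.mul_rpow (by positivity) hB0.le, mul_assoc, ← Real.rpow_add hB0]
    norm_num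
  have h2 : (C₁ * Real.exp (2 * c)) ^ (1 / 2 : ℝ) ≤ C₁ * Real.exp c := by
    have h3 : C₁ * Real.exp (2 * c) ≤ (C₁ * Real.exp c) ^ 2 := by
      rw [mul_pow, ← Real.exp_nat_mul]
      push_cast
      have : 0 < Real.exp (2 * c) := Real.exp_pos _
      nlinarith
    calc (C₁ * Real.exp (2 * c)) ^ (1 / 2 : ℝ) ≤ ((C₁ * Real.exp c) ^ 2) ^ (1 / 2 : ℝ) :=
          Real.rpow_le_rpow (by positivity) h3 (by norm_num)
      _ = C₁ * Real.exp c := by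
          rw [← Real.rpow_natCast, ← Real.rpow_mul (by positivity)]
          norm_num
  calc MM T τ (f1 g g') (1 / 2) ≤ _ := hconv
    _ = 2 * ((C₁ * Real.exp (2 * c)) ^ (1 / 2 : ℝ) * B) := by rw [h1]
    _ ≤ 2 * ((C₁ * Real.exp c) * B) := by gcongr
    _ = _ := by ring

/-! ### Interpolation with the line `Re s = 6` -/

theorem interp {f : ℂ → ℂ} (hf : Nice f) {T τ c A C ρ κ : ℝ} (hT : 12 ≤ T) (hc : 0 ≤ c)
    (hcL : c ≤ 11 / 2 * Real.log T) (hA : T ^ (-κ) ≤ A) (hC : 1 ≤ C)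
    (h1 : MM T τ f (1 / 2) ≤ A) (h2 : MM T τ f 6 ≤ C * T ^ (-ρ)) :
    MM T τ f (1 / 2 + c / Real.log T) ≤ 2 * A * C * Real.exp (-((ρ - κ) * c / (11 / 2))) := by
  have hT0 : 0 < T := by linarith
  have hL : 0 < Real.log T := Real.log_pos (by linarith)
  have hTk : 0 < T ^ (-κ) := Real.rpow_pos_of_pos hT0 _
  have hA0 : 0 < A := lt_of_lt_of_le hTk hA
  have hB0 : 0 < C * T ^ (-ρ) := mul_pos (by linarith) (Real.rpow_pos_of_pos hT0 _)
  have hx1 : c / Real.log T ≤ 11 / 2 := by rw [div_le_iff₀ hL]; exact hcL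
  have hx0 : 0 ≤ c / Real.log T := div_nonneg hc hL.le
  have key := hf.convex (T := T) (τ := τ) (a := 1 / 2) (b := 6) (x := 1 / 2 + c / Real.log T)
    (A := A) (B := C * T ^ (-ρ)) hT (by norm_num) (by norm_num) (by norm_num) (by norm_num)
    ⟨by linarith, by linarith⟩ hA0 hB0 h1 h2
  set l : ℝ := c / Real.log T / (11 / 2) with hl
  have hl0 : 0 ≤ l := by positivity
  have hl1 : l ≤ 1 := by rw [hl, div_le_one (by norm_num)]; exact hx1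
  have e1 : (6 - (1 / 2 + c / Real.log T)) / (6 - 1 / 2) = 1 - l := by rw [hl]; ring
  have e2 : (1 / 2 + c / Real.log T - 1 / 2) / (6 - 1 / 2) = l := by rw [hl]; ring
  rw [e1, e2] at key
  have a1 : A ^ (1 - l) ≤ A * (T ^ (-κ)) ^ (-l) := by
    rw [sub_eq_add_neg, Real.rpow_add hA0, Real.rpow_one]
    exact mul_le_mul_of_nonneg_left
      (Real.rpow_le_rpow_of_nonpos hTk hA (by linarith)) hA0.le
  have a2 : (C * T ^ (-ρ)) ^ l ≤ C * (T ^ (-ρ)) ^ l := by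
    rw [Real.mul_rpow (by linarith) (Real.rpow_nonneg hT0.le _)]
    have : C ^ l ≤ C := by
      calc C ^ l ≤ C ^ (1 : ℝ) := Real.rpow_le_rpow_of_exponent_le hC hl1
        _ = C := Real.rpow_one C
    gcongr
  have a3 : (T ^ (-κ)) ^ (-l) * (T ^ (-ρ)) ^ l = Real.exp (-((ρ - κ) * c / (11 / 2))) := by
    rw [← Real.rpow_mul hT0.le, ← Real.rpow_mul hT0.le, ← Real.rpow_add hT0,
      Real.rpow_def_of_pos hT0]
    congr 1
    rw [hl]
    field_simp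
    ring
  calc MM T τ f (1 / 2 + c / Real.log T) ≤ 2 * (A ^ (1 - l) * (C * T ^ (-ρ)) ^ l) := key
    _ ≤ 2 * ((A * (T ^ (-κ)) ^ (-l)) * (C * (T ^ (-ρ)) ^ l)) := by gcongr
    _ = 2 * A * C * ((T ^ (-κ)) ^ (-l) * (T ^ (-ρ)) ^ l) := by ring
    _ = _ := by rw [a3]

/-! ### The line `Re s = 6` -/

lemma zeta_sub_SS : ∃ Z : ℝ, 0 < Z ∧ ∀ T : ℝ, 3 ≤ T → ∀ t : ℝ,
    ‖riemannZeta ((6 : ℝ) + t * I) - SS T (fs ((6 : ℝ) + t * I))‖ ≤ Z * T ^ (-(96 / 25) : ℝ) := by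
  have hsum : Summable (fun n : ℕ => (n : ℝ) ^ (-(6 / 5) : ℝ)) :=
    Real.summable_nat_rpow.2 (by norm_num)
  have hZ0 : 0 ≤ ∑' n : ℕ, (n : ℝ) ^ (-(6 / 5) : ℝ) := tsum_nonneg fun n => by positivity
  refine ⟨∑' n : ℕ, (n : ℝ) ^ (-(6 / 5) : ℝ) + 1, by linarith, fun T hT t => ?_⟩
  have hT0 : 0 < T := by linarith
  have hL : 0 < Real.log T := Real.log_pos (by linarith)
  set s : ℂ := (6 : ℝ) + t * I with hs
  have hre : s.re = 6 := line_re _ _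
  have hz : riemannZeta s = ∑' n : ℕ, 1 / (n : ℂ) ^ s :=
    zeta_eq_tsum_one_div_nat_cpow (by rw [hre]; norm_num)
  set a : ℕ → ℂ := fun n => if n ∈ Finset.Icc 1 ⌊T⌋₊ then
    (Phi (Real.log n / Real.log T) : ℂ) * fs s n else 0 with ha
  have hS : SS T (fs s) = ∑' n, a n := by
    rw [tsum_eq_sum (s := Finset.Icc 1 ⌊T⌋₊) (fun n hn => by rw [ha]; simp only [if_neg hn])]
    unfold SS
    exact Finset.sum_congr rfl fun n hn => by rw [ha]; simp only [if_pos hn]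
  have hsa : Summable a :=
    summable_of_ne_finset_zero (s := Finset.Icc 1 ⌊T⌋₊)
      (fun n hn => by rw [ha]; simp only [if_neg hn])
  have hsz : Summable (fun n : ℕ => 1 / (n : ℂ) ^ s) :=
    Complex.summable_one_div_nat_cpow.2 (by rw [hre]; norm_num)
  rw [hz, hS, ← hsz.tsum_sub hsa]
  have hterm : ∀ n : ℕ, ‖1 / (n : ℂ) ^ s - a n‖ ≤ T ^ (-(96 / 25) : ℝ) * (n : ℝ) ^ (-(6 / 5) : ℝ) := by
    intro n
    have hTp : 0 < T ^ (-(96 / 25) : ℝ) := Real.rpow_pos_of_pos hT0 _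
    rcases Nat.eq_zero_or_pos n with hn | hn
    · subst hn
      have h1 : a 0 = 0 := by rw [ha]; simp
      have hs0 : s ≠ 0 := by
        intro h; rw [h] at hre; simp at hre
      rw [h1, Nat.cast_zero, zero_cpow hs0]
      simp only [div_zero, sub_zero, norm_zero]
      positivity
    · have hn0 : (0 : ℝ) < n := by exact_mod_cast hn
      have hfs : 1 / (n : ℂ) ^ s = fs s n := by
        simp only [fs]; rw [cpow_neg, one_div]
      have hlog0 : 0 ≤ Real.log n := Real.log_nonneg (by exact_mod_cast hn)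
      by_cases hle : (n : ℝ) ≤ T ^ (4 / 5 : ℝ)
      · have hlog : Real.log n / Real.log T ≤ 8 / 10 := by
          rw [div_le_iff₀ hL]
          calc Real.log n ≤ Real.log (T ^ (4 / 5 : ℝ)) := Real.log_le_log hn0 hle
            _ = 4 / 5 * Real.log T := Real.log_rpow hT0 _
            _ = _ := by ring
        have hnT : n ∈ Finset.Icc 1 ⌊T⌋₊ := by
          rw [Finset.mem_Icc]
          refine ⟨hn, Nat.le_floor ?_⟩
          calc (n : ℝ) ≤ T ^ (4 / 5 : ℝ) := hle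
            _ ≤ T ^ (1 : ℝ) := Real.rpow_le_rpow_of_exponent_le (by linarith) (by norm_num)
            _ = T := Real.rpow_one T
        have h1 : a n = fs s n := by
          rw [ha]
          simp only [if_pos hnT]
          rw [Phi_one (by have := div_nonneg hlog0 hL.le; linarith) hlog]
          simp
        rw [hfs, h1, sub_self, norm_zero]
        positivity
      · push Not at hle
        have h1 : ‖fs s n - a n‖ ≤ ‖fs s n‖ := by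
          rw [ha]
          simp only
          split_ifs with hmem
          · have e : fs s n - (Phi (Real.log n / Real.log T) : ℂ) * fs s n =
                ((1 - Phi (Real.log n / Real.log T) : ℝ) : ℂ) * fs s n := by push_cast; ring
            rw [e, norm_mul, norm_real, Real.norm_eq_abs, abs_of_nonneg
              (by linarith [Phi_le_one (Real.log n / Real.log T)])]
            have := Phi_nonneg (Real.log n / Real.log T)
            have := norm_nonneg (fs s n)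
            nlinarith
          · rw [sub_zero]
        rw [hfs]
        refine h1.trans ?_
        rw [norm_fs s (by omega), hre]
        have e1 : (n : ℝ) ^ (-6 : ℝ) = (n : ℝ) ^ (-(24 / 5) : ℝ) * (n : ℝ) ^ (-(6 / 5) : ℝ) := by
          rw [← Real.rpow_add hn0]; norm_num
        rw [e1]
        have e2 : (n : ℝ) ^ (-(24 / 5) : ℝ) ≤ T ^ (-(96 / 25) : ℝ) := by
          calc (n : ℝ) ^ (-(24 / 5) : ℝ) ≤ (T ^ (4 / 5 : ℝ)) ^ (-(24 / 5) : ℝ) :=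
                Real.rpow_le_rpow_of_nonpos (Real.rpow_pos_of_pos hT0 _) hle.le (by norm_num)
            _ = T ^ (-(96 / 25) : ℝ) := by
                rw [← Real.rpow_mul hT0.le]; norm_num
        gcongr
  have hb : HasSum (fun n : ℕ => T ^ (-(96 / 25) : ℝ) * (n : ℝ) ^ (-(6 / 5) : ℝ))
      (T ^ (-(96 / 25) : ℝ) * ∑' n : ℕ, (n : ℝ) ^ (-(6 / 5) : ℝ)) := hsum.hasSum.mul_left _
  refine (tsum_of_norm_bounded hb hterm).trans ?_
  have : 0 < T ^ (-(96 / 25) : ℝ) := Real.rpow_pos_of_pos hT0 _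
  nlinarith

/-! ### Comparison of the three functions -/

lemma sq_le_sub (a b : ℂ) : ‖a‖ ^ 2 ≤ 2 * ‖a - b‖ ^ 2 + 2 * ‖b‖ ^ 2 := by
  have h : ‖a‖ ≤ ‖a - b‖ + ‖b‖ := by
    calc ‖a‖ = ‖(a - b) + b‖ := by ring_nf
      _ ≤ _ := norm_add_le _ _
  have h2 : ‖a‖ ^ 2 ≤ (‖a - b‖ + ‖b‖) ^ 2 := pow_le_pow_left₀ (norm_nonneg _) h 2
  nlinarith [sq_nonneg (‖a - b‖ - ‖b‖)]

lemma sub_sq_le (a b : ℂ) : ‖a - b‖ ^ 2 ≤ 2 * ‖a‖ ^ 2 + 2 * ‖b‖ ^ 2 := by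
  have h : ‖a - b‖ ≤ ‖a‖ + ‖b‖ := norm_sub_le _ _
  have h2 : ‖a - b‖ ^ 2 ≤ (‖a‖ + ‖b‖) ^ 2 := pow_le_pow_left₀ (norm_nonneg _) h 2
  nlinarith [sq_nonneg (‖a‖ - ‖b‖)]

/-- `ζ̃ - κ S` -/
noncomputable def DD (S : ℂ → ℂ) (s : ℂ) : ℂ := zt s - kp s * S s

lemma nice_DD {S : ℂ → ℂ} (hS : Nice S) : Nice (DD S) := nice_zt.sub (nice_kp.mul hS)

noncomputable def f2 (S g g' : ℂ → ℂ) (s : ℂ) : ℂ := (DD S s * DD S s) * (g s * g' s)

lemma nice_f2 {S g g' : ℂ → ℂ} (hS : Nice S) (hg : Nice g) (hg' : Nice g') : Nice (f2 S g g') :=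
  ((nice_DD hS).mul (nice_DD hS)).mul (hg.mul hg')

noncomputable def PP (S g : ℂ → ℂ) (s : ℂ) : ℂ := (S s * S s) * (g s * g s)

lemma nice_PP {S g : ℂ → ℂ} (hS : Nice S) (hg : Nice g) : Nice (PP S g) :=
  (hS.mul hS).mul (hg.mul hg)

lemma mm_three {F H P Q : ℂ → ℂ} (hF : Nice F) (hH : Nice H) (hP : Nice P) (hQ : Nice Q)
    {T τ σ X : ℝ} (h1 : 1 / 8 < σ) (h2 : σ < 10)
    (hpt : ∀ t : ℝ, ‖F (σ + t * I)‖ ≤ 2 * ‖H (σ + t * I)‖ + ‖P (σ + t * I)‖ + ‖Q (σ + t * I)‖)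
    (hPX : MM T τ P σ ≤ X) (hQX : MM T τ Q σ ≤ X) :
    MM T τ F σ ≤ 2 * MM T τ H σ + 2 * X := by
  have iF := hF.integrable τ (VV T) h1 h2
  have iH := hH.integrable τ (VV T) h1 h2
  have iP := hP.integrable τ (VV T) h1 h2
  have iQ := hQ.integrable τ (VV T) h1 h2
  have h3 : MM T τ F σ ≤ ∫ t : ℝ, (2 * ‖H (σ + t * I)‖ + ‖P (σ + t * I)‖ + ‖Q (σ + t * I)‖)
      ∂(gaussianReal τ (VV T)) :=
    integral_mono iF (((iH.const_mul 2).add iP).add iQ) hpt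
  have e1 : ∫ t : ℝ, (2 * ‖H (σ + t * I)‖ + ‖P (σ + t * I)‖ + ‖Q (σ + t * I)‖)
      ∂(gaussianReal τ (VV T)) = ∫ t : ℝ, (2 * ‖H (σ + t * I)‖ + ‖P (σ + t * I)‖)
      ∂(gaussianReal τ (VV T)) + ∫ t : ℝ, ‖Q (σ + t * I)‖ ∂(gaussianReal τ (VV T)) :=
    integral_add ((iH.const_mul 2).add iP) iQ
  have e2 : ∫ t : ℝ, (2 * ‖H (σ + t * I)‖ + ‖P (σ + t * I)‖) ∂(gaussianReal τ (VV T)) =
      ∫ t : ℝ, 2 * ‖H (σ + t * I)‖ ∂(gaussianReal τ (VV T)) +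
      ∫ t : ℝ, ‖P (σ + t * I)‖ ∂(gaussianReal τ (VV T)) :=
    integral_add (iH.const_mul 2) iP
  rw [e1, e2, integral_const_mul] at h3
  have h4 : MM T τ H σ = ∫ t : ℝ, ‖H (σ + t * I)‖ ∂(gaussianReal τ (VV T)) := rfl
  have h5 : MM T τ P σ = ∫ t : ℝ, ‖P (σ + t * I)‖ ∂(gaussianReal τ (VV T)) := rfl
  have h6 : MM T τ Q σ = ∫ t : ℝ, ‖Q (σ + t * I)‖ ∂(gaussianReal τ (VV T)) := rfl
  linarith

lemma pt1 (S g g' : ℂ → ℂ) {s : ℂ} (hs : 0 ≤ s.re) :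
    ‖f1 g g' s‖ ≤ 2 * ‖f2 S g g' s‖ + ‖PP S g s‖ + ‖PP S g' s‖ := by
  simp only [f1, f2, PP, norm_mul]
  have h1 := sq_le_sub (zt s) (kp s * S s)
  rw [norm_mul (kp s)] at h1
  have h2 : (‖kp s‖ * ‖S s‖) ^ 2 ≤ ‖S s‖ ^ 2 := by
    apply pow_le_pow_left₀ (by positivity)
    exact mul_le_of_le_one_left (norm_nonneg _) (norm_kp_le hs)
  have h3 : ‖zt s‖ ^ 2 ≤ 2 * ‖DD S s‖ ^ 2 + 2 * ‖S s‖ ^ 2 := by
    unfold DD; linarith
  have ha : 0 ≤ ‖g s‖ := norm_nonneg _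
  have hb : 0 ≤ ‖g' s‖ := norm_nonneg _
  have h4 : 2 * (‖g s‖ * ‖g' s‖) ≤ ‖g s‖ ^ 2 + ‖g' s‖ ^ 2 := by
    nlinarith [sq_nonneg (‖g s‖ - ‖g' s‖)]
  calc ‖zt s‖ * ‖zt s‖ * (‖g s‖ * ‖g' s‖) = ‖zt s‖ ^ 2 * (‖g s‖ * ‖g' s‖) := by ring
    _ ≤ (2 * ‖DD S s‖ ^ 2 + 2 * ‖S s‖ ^ 2) * (‖g s‖ * ‖g' s‖) := by gcongr
    _ = 2 * (‖DD S s‖ ^ 2 * (‖g s‖ * ‖g' s‖)) + ‖S s‖ ^ 2 * (2 * (‖g s‖ * ‖g' s‖)) := by ring
    _ ≤ 2 * (‖DD S s‖ ^ 2 * (‖g s‖ * ‖g' s‖)) + ‖S s‖ ^ 2 * (‖g s‖ ^ 2 + ‖g' s‖ ^ 2) := by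
        gcongr
    _ = _ := by ring

lemma pt2 (S g g' : ℂ → ℂ) {s : ℂ} (hs : 0 ≤ s.re) :
    ‖f2 S g g' s‖ ≤ 2 * ‖f1 g g' s‖ + ‖PP S g s‖ + ‖PP S g' s‖ := by
  simp only [f1, f2, PP, norm_mul]
  have h1 := sub_sq_le (zt s) (kp s * S s)
  rw [norm_mul (kp s)] at h1
  have h2 : (‖kp s‖ * ‖S s‖) ^ 2 ≤ ‖S s‖ ^ 2 := by
    apply pow_le_pow_left₀ (by positivity)
    exact mul_le_of_le_one_left (norm_nonneg _) (norm_kp_le hs)
  have h3 : ‖DD S s‖ ^ 2 ≤ 2 * ‖zt s‖ ^ 2 + 2 * ‖S s‖ ^ 2 := by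
    unfold DD; linarith
  have ha : 0 ≤ ‖g s‖ := norm_nonneg _
  have hb : 0 ≤ ‖g' s‖ := norm_nonneg _
  have h4 : 2 * (‖g s‖ * ‖g' s‖) ≤ ‖g s‖ ^ 2 + ‖g' s‖ ^ 2 := by
    nlinarith [sq_nonneg (‖g s‖ - ‖g' s‖)]
  calc ‖DD S s‖ * ‖DD S s‖ * (‖g s‖ * ‖g' s‖) = ‖DD S s‖ ^ 2 * (‖g s‖ * ‖g' s‖) := by ring
    _ ≤ (2 * ‖zt s‖ ^ 2 + 2 * ‖S s‖ ^ 2) * (‖g s‖ * ‖g' s‖) := by gcongr
    _ = 2 * (‖zt s‖ ^ 2 * (‖g s‖ * ‖g' s‖)) + ‖S s‖ ^ 2 * (2 * (‖g s‖ * ‖g' s‖)) := by ring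
    _ ≤ 2 * (‖zt s‖ ^ 2 * (‖g s‖ * ‖g' s‖)) + ‖S s‖ ^ 2 * (‖g s‖ ^ 2 + ‖g' s‖ ^ 2) := by
        gcongr
    _ = _ := by ring

lemma mm_le_const {F : ℂ → ℂ} (hF : Nice F) {T τ σ B : ℝ} (h1 : 1 / 8 < σ) (h2 : σ < 10)
    (h : ∀ t : ℝ, ‖F (σ + t * I)‖ ≤ B) : MM T τ F σ ≤ B := by
  have h3 : MM T τ F σ ≤ ∫ _ : ℝ, B ∂(gaussianReal τ (VV T)) :=
    integral_mono (hF.integrable τ (VV T) h1 h2) (integrable_const B) h
  simpa using h3

lemma DD_six {S : ℂ → ℂ} {Z T : ℝ} (hZ : ∀ t : ℝ, ‖riemannZeta ((6 : ℝ) + t * I) -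
    S ((6 : ℝ) + t * I)‖ ≤ Z * T ^ (-(96 / 25) : ℝ)) (t : ℝ) :
    ‖DD S ((6 : ℝ) + t * I)‖ ≤ Z * T ^ (-(96 / 25) : ℝ) := by
  have n1 : ((6 : ℝ) : ℂ) + t * I ≠ 1 := by
    intro hh
    have := congrArg Complex.re hh
    rw [line_re, one_re] at this
    linarith
  have n2 : ((6 : ℝ) : ℂ) + t * I ≠ -1 := by
    intro hh
    have := congrArg Complex.re hh
    rw [line_re, neg_re, one_re] at this
    linarith
  rw [DD, zeta_eq_zt n1 n2, ← mul_sub, norm_mul]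
  calc _ ≤ 1 * (Z * T ^ (-(96 / 25) : ℝ)) :=
        mul_le_mul (norm_kp_le (by rw [line_re]; norm_num)) (hZ t) (norm_nonneg _) zero_le_one
    _ = _ := one_mul _

end TSM

open TSM in
/-- Twisted second moment bound. -/
theorem tsm : ∃ c₁ C κ : ℝ, 0 < c₁ ∧ 0 < C ∧ 0 < κ ∧ ∀ c : ℝ, 0 ≤ c → ∃ T₀ : ℝ, 3 ≤ T₀ ∧
    ∀ T, T₀ ≤ T → ∀ τ : ℝ, |τ| ≤ 2 * T → ∀ G : (ℕ → ℂ) → ℂ,
    DP (T ^ (1 / 25 : ℝ)) (T ^ (1 / 20 : ℝ)) G → ∀ X : ℝ,
    (∀ w₁ w₂ : ℝ, 1 / 2 ≤ w₁ → w₁ ≤ 1 / 2 + c₁ / Real.log T → |w₂ - 1 / 2| ≤ c₁ / Real.log T →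
      EG T τ (fun t => ‖SS T (fs (w₁ + t * I))‖ ^ 2 * ‖G (fs (w₂ + t * I))‖ ^ 2) ≤ X) →
    EG T τ (fun t => ‖zt ((1 / 2 + c / Real.log T : ℝ) + t * I) -
        kp ((1 / 2 + c / Real.log T : ℝ) + t * I) *
          SS T (fs ((1 / 2 + c / Real.log T : ℝ) + t * I))‖ ^ 2 *
        ‖G (fs ((1 / 2 + c / Real.log T : ℝ) + t * I))‖ ^ 2) ≤
      C * Real.exp (-(13 / 10 * c)) * (X + T ^ (-κ)) := by
  obtain ⟨C₁, hC₁, hhalf⟩ := step_half
  obtain ⟨Z, hZ, hZ6⟩ := zeta_sub_SS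
  set C₃ : ℝ := Z ^ 2 + 1 with hC₃
  have hC₃1 : 1 ≤ C₃ := by nlinarith [sq_nonneg Z]
  -- choice of `c₁`
  set c₁ : ℝ := 10 / 3 * Real.log (32 * C₁ * C₃) with hc₁
  have h32 : 32 ≤ 32 * C₁ * C₃ := by nlinarith
  have hc₁0 : 0 < c₁ := by
    have := Real.log_pos (show 1 < 32 * C₁ * C₃ by linarith)
    positivity
  have hexp : 16 * C₁ * C₃ * Real.exp (-(3 / 10 * c₁)) ≤ 1 / 2 := by
    have : -(3 / 10 * c₁) = -Real.log (32 * C₁ * C₃) := by rw [hc₁]; ring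
    rw [this, Real.exp_neg, Real.exp_log (by linarith)]
    rw [← div_eq_mul_inv, div_le_iff₀ (by linarith)]
    linarith
  set C₄ : ℝ := 1 + 8 * C₁ * Real.exp c₁ with hC₄
  have hC₄0 : 0 < C₄ := by positivity
  refine ⟨c₁, 4 * (C₄ + 1) * C₃, 1 / 10, hc₁0, by positivity, by norm_num, fun c hc => ?_⟩
  have hev : ∀ᶠ T : ℝ in atTop, 12 ≤ T ∧ c ≤ 11 / 2 * Real.log T ∧ 4 * c₁ ≤ Real.log T ∧
      ∀ τ : ℝ, |τ| ≤ 2 * T → ∀ g g' : ℂ → ℂ, Nice g → Nice g' →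
      (∀ s, ‖g' s‖ = ‖g (1 - (starRingEnd ℂ) s)‖) →
      (∀ s : ℂ, 0 ≤ s.re → ‖g s‖ ≤ T ^ (1 / 20 : ℝ)) →
      MM T τ (f1 g g') (1 / 2) ≤
        2 * C₁ * Real.exp c₁ * (MM T τ (f1 g g') (1 / 2 + c₁ / Real.log T) + 1 / T) := by
    filter_upwards [hhalf c₁ hc₁0, eventually_ge_atTop 12,
      Real.tendsto_log_atTop.eventually_ge_atTop (4 * c₁),
      Real.tendsto_log_atTop.eventually_ge_atTop c] with T h1 h2 h3 h4
    exact ⟨h2, by linarith [Real.log_nonneg (show (1 : ℝ) ≤ T by linarith)], h3, h1⟩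
  obtain ⟨T₀, hT₀⟩ := eventually_atTop.1 hev
  refine ⟨max T₀ 3, le_max_right _ _, fun T hT τ hτ G hG X hX => ?_⟩
  obtain ⟨hT12, hcL, hc₁L, hstep⟩ := hT₀ T ((le_max_left _ _).trans hT)
  have hT0 : 0 < T := by linarith
  have hL : 0 < Real.log T := Real.log_pos (by linarith)
  have hN1 : 1 ≤ T ^ (1 / 25 : ℝ) := Real.one_le_rpow (by linarith) (by norm_num)
  have hM0 : 0 < T ^ (1 / 20 : ℝ) := Real.rpow_pos_of_pos hT0 _
  obtain ⟨g, g', hgd, hgd', hGg, hgg, hgM, hgN⟩ := dp_poly hG hN1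
  obtain ⟨S, S', hSd, _, hSS, _, hSM, _⟩ := dp_poly (dp_SS (show 1 < T by linarith))
    (Real.one_le_rpow (show 1 ≤ T by linarith) (by norm_num))
  have hg : Nice g := nice_of_bdd hgd hM0.le (fun s h1 _ => hgM s (by linarith))
  have hgk : ∀ s : ℂ, 1 / 8 < s.re → s.re < 10 → ‖g' s‖ ≤
      T ^ (1 / 20 : ℝ) * (T ^ (1 / 25 : ℝ)) ^ 9 := by
    intro s h1 h2
    rw [hgg]
    apply hgN
    simp
    linarith
  have hg' : Nice g' := nice_of_bdd hgd' (by positivity) hgk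
  have hS : Nice S := nice_of_bdd hSd hT0.le (fun s h1 _ => hSM s (by linarith))
  set δ : ℝ := c₁ / Real.log T with hδ
  have hδ0 : 0 < δ := div_pos hc₁0 hL
  have hδ1 : δ ≤ 1 / 4 := by rw [hδ, div_le_iff₀ hL]; linarith
  -- the bounds for the partial sum
  have hPX : ∀ w : ℝ, 1 / 2 ≤ w → w ≤ 1 / 2 + δ → MM T τ (PP S g) w ≤ X := by
    intro w h1 h2
    have := hX w w h1 h2 (by rw [abs_le]; constructor <;> linarith)
    refine le_trans (le_of_eq ?_) this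
    unfold MM
    congr 1
    funext t
    rw [hSS, hGg]
    simp only [PP, norm_mul]
    ring
  have hQX : ∀ w : ℝ, 1 / 2 ≤ w → w ≤ 1 / 2 + δ → MM T τ (PP S g') w ≤ X := by
    intro w h1 h2
    have := hX w (1 - w) h1 h2 (by rw [abs_le]; constructor <;> linarith)
    refine le_trans (le_of_eq ?_) this
    unfold MM
    congr 1
    funext t
    rw [hSS, hGg]
    simp only [PP, norm_mul]
    rw [hgg, one_sub_conj]
    ring
  have hX0 : 0 ≤ X := (MM_nonneg T τ (PP S g) (1 / 2)).trans (hPX _ le_rfl (by linarith))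
  -- comparison on the lines `1/2` and `1/2 + δ`
  have c1 : ∀ w : ℝ, 1 / 2 ≤ w → w ≤ 1 / 2 + δ →
      MM T τ (f1 g g') w ≤ 2 * MM T τ (f2 S g g') w + 2 * X := fun w h1 h2 =>
    mm_three (nice_f1 hg hg') (nice_f2 hS hg hg') (nice_PP hS hg) (nice_PP hS hg')
      (by linarith) (by linarith) (fun t => pt1 S g g' (by rw [line_re]; linarith))
      (hPX w h1 h2) (hQX w h1 h2)
  have c2 : ∀ w : ℝ, 1 / 2 ≤ w → w ≤ 1 / 2 + δ →
      MM T τ (f2 S g g') w ≤ 2 * MM T τ (f1 g g') w + 2 * X := fun w h1 h2 =>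
    mm_three (nice_f2 hS hg hg') (nice_f1 hg hg') (nice_PP hS hg) (nice_PP hS hg')
      (by linarith) (by linarith) (fun t => pt2 S g g' (by rw [line_re]; linarith))
      (hPX w h1 h2) (hQX w h1 h2)
  set J : ℝ := MM T τ (f1 g g') (1 / 2) with hJ
  have hJ0 : 0 ≤ J := MM_nonneg _ _ _ _
  set Y : ℝ := J + X + T ^ (-(1 / 10) : ℝ) with hY
  have hTk : 0 < T ^ (-(1 / 10) : ℝ) := Real.rpow_pos_of_pos hT0 _
  have hTinv : 1 / T ≤ T ^ (-(1 / 10) : ℝ) := by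
    rw [one_div, ← Real.rpow_neg_one]
    exact Real.rpow_le_rpow_of_exponent_le (by linarith) (by norm_num)
  have hZt : ∀ t : ℝ, ‖riemannZeta ((6 : ℝ) + t * I) - S ((6 : ℝ) + t * I)‖ ≤
      Z * T ^ (-(96 / 25) : ℝ) := by
    intro t
    have := hZ6 T (by linarith) t
    rwa [hSS] at this
  have hD6 := DD_six hZt
  -- the line `Re s = 6`
  have k6 : MM T τ (f2 S g g') 6 ≤ C₃ * T ^ (-(369 / 50) : ℝ) := by
    apply mm_le_const (nice_f2 hS hg hg') (by norm_num) (by norm_num)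
    intro t
    have h1 := hD6 t
    have h2 : ‖g (((6 : ℝ) : ℂ) + t * I)‖ ≤ T ^ (1 / 20 : ℝ) := hgM _ (by rw [line_re]; norm_num)
    have h3 : ‖g' (((6 : ℝ) : ℂ) + t * I)‖ ≤ T ^ (1 / 20 : ℝ) * (T ^ (1 / 25 : ℝ)) ^ 5 := by
      rw [hgg, one_sub_conj]
      apply hgN
      rw [line_re]; norm_num
    simp only [f2, norm_mul]
    calc ‖DD S (((6 : ℝ) : ℂ) + t * I)‖ * ‖DD S (((6 : ℝ) : ℂ) + t * I)‖ *
          (‖g (((6 : ℝ) : ℂ) + t * I)‖ * ‖g' (((6 : ℝ) : ℂ) + t * I)‖)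
        ≤ (Z * T ^ (-(96 / 25) : ℝ)) * (Z * T ^ (-(96 / 25) : ℝ)) *
          (T ^ (1 / 20 : ℝ) * (T ^ (1 / 20 : ℝ) * (T ^ (1 / 25 : ℝ)) ^ 5)) := by gcongr
      _ = Z ^ 2 * (T ^ (-(96 / 25) : ℝ) * T ^ (-(96 / 25) : ℝ) * (T ^ (1 / 20 : ℝ) *
          (T ^ (1 / 20 : ℝ) * (T ^ (1 / 25 : ℝ)) ^ 5))) := by ring
      _ = Z ^ 2 * T ^ (-(369 / 50) : ℝ) := by
          rw [← Real.rpow_natCast (T ^ (1 / 25 : ℝ)) 5, ← Real.rpow_mul hT0.le,
            ← Real.rpow_add hT0, ← Real.rpow_add hT0, ← Real.rpow_add hT0, ← Real.rpow_add hT0]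
          norm_num
      _ ≤ C₃ * T ^ (-(369 / 50) : ℝ) := by
          have : 0 < T ^ (-(369 / 50) : ℝ) := Real.rpow_pos_of_pos hT0 _
          nlinarith
  have k6' : MM T τ (f2 S g g) 6 ≤ C₃ * T ^ (-(379 / 50) : ℝ) := by
    apply mm_le_const (nice_f2 hS hg hg) (by norm_num) (by norm_num)
    intro t
    have h1 := hD6 t
    have h2 : ‖g (((6 : ℝ) : ℂ) + t * I)‖ ≤ T ^ (1 / 20 : ℝ) := hgM _ (by rw [line_re]; norm_num)
    simp only [f2, norm_mul]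
    calc ‖DD S (((6 : ℝ) : ℂ) + t * I)‖ * ‖DD S (((6 : ℝ) : ℂ) + t * I)‖ *
          (‖g (((6 : ℝ) : ℂ) + t * I)‖ * ‖g (((6 : ℝ) : ℂ) + t * I)‖)
        ≤ (Z * T ^ (-(96 / 25) : ℝ)) * (Z * T ^ (-(96 / 25) : ℝ)) *
          (T ^ (1 / 20 : ℝ) * T ^ (1 / 20 : ℝ)) := by gcongr
      _ = Z ^ 2 * (T ^ (-(96 / 25) : ℝ) * T ^ (-(96 / 25) : ℝ) * (T ^ (1 / 20 : ℝ) *
          T ^ (1 / 20 : ℝ))) := by ring
      _ = Z ^ 2 * T ^ (-(379 / 50) : ℝ) := by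
          rw [← Real.rpow_add hT0, ← Real.rpow_add hT0, ← Real.rpow_add hT0]
          norm_num
      _ ≤ C₃ * T ^ (-(379 / 50) : ℝ) := by
          have : 0 < T ^ (-(379 / 50) : ℝ) := Real.rpow_pos_of_pos hT0 _
          nlinarith
  -- interpolation for `f2`
  have hK := interp (nice_f2 hS hg hg') (T := T) (τ := τ) (c := c₁) (A := 2 * Y) (C := C₃)
    (ρ := 369 / 50) (κ := 1 / 10) hT12 hc₁0.le (by linarith) (by rw [hY]; linarith) hC₃1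
    (by
      have := c2 (1 / 2) le_rfl (by linarith)
      rw [hY]; linarith) k6
  have hK2 : MM T τ (f2 S g g') (1 / 2 + δ) ≤
      4 * Y * C₃ * Real.exp (-(13 / 10 * c₁)) := by
    have hYpos : 0 < Y := by rw [hY]; linarith
    calc MM T τ (f2 S g g') (1 / 2 + δ)
        ≤ 2 * (2 * Y) * C₃ * Real.exp (-((369 / 50 - 1 / 10) * c₁ / (11 / 2))) := hK
      _ ≤ 2 * (2 * Y) * C₃ * Real.exp (-(13 / 10 * c₁)) := by
          apply mul_le_mul_of_nonneg_left _ (by positivity)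
          apply Real.exp_le_exp.2
          nlinarith
      _ = _ := by ring
  have hJ1 := hstep τ hτ g g' hg hg' hgg hgM
  have hJp := c1 (1 / 2 + δ) (by linarith) le_rfl
  -- absorb
  have hJfin : J ≤ C₄ * (X + T ^ (-(1 / 10) : ℝ)) := by
    have e0 : 0 < Real.exp c₁ := Real.exp_pos _
    have a1 : MM T τ (f1 g g') (1 / 2 + δ) + 1 / T ≤
        8 * Y * C₃ * Real.exp (-(13 / 10 * c₁)) + 2 * X + 1 / T := by linarith
    have a2 : J ≤ 2 * C₁ * Real.exp c₁ *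
        (8 * Y * C₃ * Real.exp (-(13 / 10 * c₁)) + 2 * X + 1 / T) := by
      refine hJ1.trans ?_
      have : 0 ≤ 2 * C₁ * Real.exp c₁ := by positivity
      exact mul_le_mul_of_nonneg_left a1 this
    have a3 : Real.exp c₁ * Real.exp (-(13 / 10 * c₁)) = Real.exp (-(3 / 10 * c₁)) := by
      rw [← Real.exp_add]; congr 1; ring
    have hYpos : 0 < Y := by rw [hY]; linarith
    have a4 : 2 * C₁ * Real.exp c₁ * (8 * Y * C₃ * Real.exp (-(13 / 10 * c₁)) + 2 * X + 1 / T) =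
        (16 * C₁ * C₃ * Real.exp (-(3 / 10 * c₁))) * Y +
        2 * C₁ * Real.exp c₁ * (2 * X + 1 / T) := by
      rw [← a3]; ring
    have a5 : (16 * C₁ * C₃ * Real.exp (-(3 / 10 * c₁))) * Y ≤ 1 / 2 * Y :=
      mul_le_mul_of_nonneg_right hexp hYpos.le
    have a6 : J ≤ 1 / 2 * Y + 2 * C₁ * Real.exp c₁ * (2 * X + 1 / T) := by
      rw [a4] at a2; linarith
    have a7 : 2 * C₁ * Real.exp c₁ * (2 * X + 1 / T) ≤
        4 * C₁ * Real.exp c₁ * (X + T ^ (-(1 / 10) : ℝ)) := by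
      have : 2 * X + 1 / T ≤ 2 * (X + T ^ (-(1 / 10) : ℝ)) := by linarith
      have h0 : 0 ≤ 2 * C₁ * Real.exp c₁ := by positivity
      calc _ ≤ 2 * C₁ * Real.exp c₁ * (2 * (X + T ^ (-(1 / 10) : ℝ))) :=
            mul_le_mul_of_nonneg_left this h0
        _ = _ := by ring
    rw [hC₄, add_mul, one_mul]
    rw [hY] at a6
    linarith
  -- the final interpolation
  have hf3 : MM T τ (f2 S g g) (1 / 2) ≤ 2 * (C₄ + 1) * (X + T ^ (-(1 / 10) : ℝ)) := by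
    have h1 := mm_three (nice_f2 hS hg hg) (nice_f1 hg hg') (nice_PP hS hg) (nice_PP hS hg)
      (T := T) (τ := τ) (σ := 1 / 2) (X := X) (by norm_num) (by norm_num)
      (fun t => by
        have h2 := pt2 S g g (s := ((1 / 2 : ℝ) : ℂ) + t * I) (by rw [line_re]; norm_num)
        have h3 : ‖f1 g g (((1 / 2 : ℝ) : ℂ) + t * I)‖ =
            ‖f1 g g' (((1 / 2 : ℝ) : ℂ) + t * I)‖ := by
          simp only [f1, norm_mul]
          rw [hgg, one_sub_conj]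
          norm_num
        rw [h3] at h2
        exact h2)
      (hPX _ le_rfl (by linarith)) (hPX _ le_rfl (by linarith))
    have h4 : 2 * J ≤ 2 * (C₄ * (X + T ^ (-(1 / 10) : ℝ))) := by linarith
    calc MM T τ (f2 S g g) (1 / 2) ≤ 2 * J + 2 * X := h1
      _ ≤ _ := by nlinarith
  have hfin := interp (nice_f2 hS hg hg) (T := T) (τ := τ) (c := c)
    (A := 2 * (C₄ + 1) * (X + T ^ (-(1 / 10) : ℝ))) (C := C₃)
    (ρ := 379 / 50) (κ := 1 / 10) hT12 hc hcL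
    (by
      have : 1 ≤ 2 * (C₄ + 1) := by linarith
      nlinarith) hC₃1 hf3 k6'
  have hgoal : EG T τ (fun t => ‖zt ((1 / 2 + c / Real.log T : ℝ) + t * I) -
        kp ((1 / 2 + c / Real.log T : ℝ) + t * I) *
          SS T (fs ((1 / 2 + c / Real.log T : ℝ) + t * I))‖ ^ 2 *
        ‖G (fs ((1 / 2 + c / Real.log T : ℝ) + t * I))‖ ^ 2) =
      MM T τ (f2 S g g) (1 / 2 + c / Real.log T) := by
    unfold MM
    congr 1
    funext t
    rw [hSS, hGg]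
    simp only [f2, DD, norm_mul]
    ring
  rw [hgoal]
  have hXT : 0 < X + T ^ (-(1 / 10) : ℝ) := by linarith
  calc MM T τ (f2 S g g) (1 / 2 + c / Real.log T)
      ≤ 2 * (2 * (C₄ + 1) * (X + T ^ (-(1 / 10) : ℝ))) * C₃ *
        Real.exp (-((379 / 50 - 1 / 10) * c / (11 / 2))) := hfin
    _ ≤ 2 * (2 * (C₄ + 1) * (X + T ^ (-(1 / 10) : ℝ))) * C₃ * Real.exp (-(13 / 10 * c)) := by
        apply mul_le_mul_of_nonneg_left _ (by positivity)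
        apply Real.exp_le_exp.2
        nlinarith
    _ = _ := by ring

end Pool.Agent.Lib.MP_973905_nt
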