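import Pool.Agent.Lib.MP_973905_nt.Len
import Pool.Agent.Lib.MP_973905_nt.Fourier

/-! Random second moment with the smoothed sum of zeta. -/

namespace Pool.Agent.Lib.MP_973905_nt

open MeasureTheory ProbabilityTheory Complex Filter Topology

namespace XB

lemma sum_inv_sq {S : Finset ℕ} (hS : ∀ p ∈ S, p.Prime) : ∑ p ∈ S, ((p : ℝ) ^ 2)⁻¹ ≤ 2 := by
  have h1 : S ⊆ Finset.Ioo 0 (S.sup id + 1) := by
    intro p hp
    rw [Finset.mem_Ioo]
    exact ⟨(hS p hp).pos, Nat.lt_succ_of_le (Finset.le_sup (f := id) hp)⟩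
  calc ∑ p ∈ S, ((p : ℝ) ^ 2)⁻¹ ≤ ∑ p ∈ Finset.Ioo 0 (S.sup id + 1), ((p : ℝ) ^ 2)⁻¹ :=
        Finset.sum_le_sum_of_subset_of_nonneg h1 (fun _ _ _ => by positivity)
    _ ≤ 2 / ((0 : ℕ) + 1) := sum_Ioo_inv_sq_le 0 _
    _ = 2 := by norm_num

lemma prime_PS {y x : ℝ} {p : ℕ} (h : p ∈ PS y x) : p.Prime := (Finset.mem_filter.1 h).2

lemma sum_min : ∃ C : ℝ, 0 < C ∧ ∀ T : ℝ, 3 ≤ T → ∀ Λ : ℝ, 1 ≤ Λ →
    ∑ p ∈ PS 0 T, (1 : ℝ) / p * min 1 (Λ * (Real.log p / Real.log T)) ≤ Real.log Λ + C := by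
  obtain ⟨C1, hC1, h1⟩ := sum_log_div_le
  obtain ⟨C2, hC2, h2⟩ := sum_inv_range
  obtain ⟨C3, hC3, h3⟩ := sum_inv
  refine ⟨1 + 2 * C1 + 2 * C2 + C3, by positivity, fun T hT Λ hΛ => ?_⟩
  have hT0 : 0 < T := by linarith
  have hL : 0 < Real.log T := Real.log_pos (by linarith)
  have hl2 : 0.6931471803 < Real.log 2 := Real.log_two_gt_d9
  have hl2' : Real.log 2 < 0.6931471808 := Real.log_two_lt_d9
  set L := Real.log T with hLdef
  have hΛ0 : 0 < Λ := by linarith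
  have hlogΛ : 0 ≤ Real.log Λ := Real.log_nonneg hΛ
  by_cases hc : Λ * Real.log 2 ≤ L
  · have hr : Λ / L ≤ 2 := by
      rw [div_le_iff₀ hL]
      nlinarith
    have hr0 : 0 < Λ / L := by positivity
    set y := Real.exp (L / Λ) with hy
    have hlogy : Real.log y = L / Λ := Real.log_exp _
    have hy2 : 2 ≤ y := by
      rw [← Real.log_le_log_iff (by norm_num) (Real.exp_pos _), hlogy, le_div_iff₀ hΛ0]
      linarith
    have hyT : y ≤ T := by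
      rw [← Real.log_le_log_iff (Real.exp_pos _) hT0, hlogy]
      exact div_le_self hL.le hΛ
    have hterm : ∀ p ∈ PS 0 T, (1 : ℝ) / p * min 1 (Λ * (Real.log p / L)) ≤
        (if (p : ℝ) ≤ y then Λ / L * (Real.log p / p) else 0) +
        (if ¬ (p : ℝ) ≤ y then (1 : ℝ) / p else 0) := by
      intro p hp
      by_cases hpy : (p : ℝ) ≤ y
      · rw [if_pos hpy, if_neg (not_not.2 hpy), add_zero]
        calc (1 : ℝ) / p * min 1 (Λ * (Real.log p / L)) ≤ 1 / p * (Λ * (Real.log p / L)) := by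
              gcongr; exact min_le_right _ _
          _ = _ := by ring
      · rw [if_neg hpy, if_pos hpy, zero_add]
        calc (1 : ℝ) / p * min 1 (Λ * (Real.log p / L)) ≤ 1 / p * 1 := by
              gcongr; exact min_le_left _ _
          _ = _ := by ring
    have hs1 : ∑ p ∈ PS 0 T, (if (p : ℝ) ≤ y then Λ / L * (Real.log p / p) else 0) ≤
        Λ / L * (L / Λ + C1) := by
      rw [← Finset.sum_filter, ← Finset.mul_sum, ← hlogy]
      gcongr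
      refine le_trans ?_ (h1 y (by linarith))
      apply Finset.sum_le_sum_of_subset_of_nonneg
      · intro p hp
        rw [Finset.mem_filter, mem_PS le_rfl hT0.le] at hp
        rw [mem_PS le_rfl (by linarith)]
        exact ⟨hp.1.1, hp.1.2.1, hp.2⟩
      · intro p _ _
        have := Real.log_natCast_nonneg p
        positivity
    have hs2 : ∑ p ∈ PS 0 T, (if ¬ (p : ℝ) ≤ y then (1 : ℝ) / p else 0) ≤
        Real.log Λ + C2 * (Λ / L) := by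
      rw [← Finset.sum_filter]
      have h4 := (abs_le.1 (h2 y T hy2 hyT)).2
      rw [hlogy, ← hLdef] at h4
      have h5 : L / (L / Λ) = Λ := by field_simp
      have h6 : C2 / (L / Λ) = C2 * (Λ / L) := by field_simp
      rw [h5, h6] at h4
      refine le_trans ?_ (show ∑ p ∈ PS y T, (1 : ℝ) / p ≤ _ by linarith)
      apply Finset.sum_le_sum_of_subset_of_nonneg
      · intro p hp
        rw [Finset.mem_filter, mem_PS le_rfl hT0.le] at hp
        rw [mem_PS (by linarith) hT0.le]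
        exact ⟨hp.1.1, not_le.1 hp.2, hp.1.2.2⟩
      · intro p _ _
        positivity
    have hs3 := Finset.sum_le_sum hterm
    rw [Finset.sum_add_distrib] at hs3
    have h7 : Λ / L * (L / Λ + C1) = 1 + C1 * (Λ / L) := by field_simp
    rw [h7] at hs1
    have h8 : C1 * (Λ / L) ≤ C1 * 2 := by gcongr
    have h9 : C2 * (Λ / L) ≤ C2 * 2 := by gcongr
    linarith
  · push Not at hc
    have h4 := (abs_le.1 (h3 T (by linarith))).2
    have h5 : Real.log L ≤ Real.log Λ := by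
      apply Real.log_le_log hL
      nlinarith
    have h6 : ∑ p ∈ PS 0 T, (1 : ℝ) / p * min 1 (Λ * (Real.log p / L)) ≤
        ∑ p ∈ PS 0 T, (1 : ℝ) / p := by
      refine Finset.sum_le_sum fun p _ => ?_
      calc (1 : ℝ) / p * min 1 (Λ * (Real.log p / L)) ≤ 1 / p * 1 := by
              gcongr; exact min_le_left _ _
          _ = _ := by ring
    rw [← hLdef] at h4
    linarith

/-- Sums over several blocks. -/
lemma sum_blocks_le {T : ℝ} (hT : 1 < T) (M J : ℕ) {s : Finset ℕ} (hs : s ⊆ Finset.range (J + 1))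
    (F : ℕ → ℝ) (hF : ∀ p, 0 ≤ F p) :
    ∑ j ∈ s, ∑ p ∈ Sj T M J j, F p ≤ ∑ p ∈ PS 0 (yy T M J (J + 1)), F p := by
  rw [← Finset.sum_biUnion (fun i _ j _ hij => disj_Sj hT hij)]
  apply Finset.sum_le_sum_of_subset_of_nonneg
  · intro p hp
    rw [Finset.mem_biUnion] at hp
    obtain ⟨j, hj, hpj⟩ := hp
    have hj' := Finset.mem_range.1 (hs hj)
    have h := (mem_Sj hT).1 hpj
    rw [mem_PS le_rfl (yy_nonneg (by linarith) _ _ _)]
    refine ⟨h.1, by exact_mod_cast h.1.pos, h.2.2.trans (yy_mono hT M J (by omega))⟩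
  · intro p _ _
    exact hF p

lemma PS_mono {x x' : ℝ} (h0 : 0 ≤ x) (h : x ≤ x') : PS 0 x ⊆ PS 0 x' := by
  intro p hp
  rw [mem_PS le_rfl h0] at hp
  rw [mem_PS le_rfl (h0.trans h)]
  exact ⟨hp.1, hp.2.1, hp.2.2.trans h⟩

lemma yy_le {T : ℝ} (hT : 1 < T) (M J : ℕ) {i : ℕ} (h : i ≤ J + 2) : yy T M J i ≤ T := by
  have := yy_mono hT M J h
  rwa [yy_last] at this

lemma log_yy {T : ℝ} {M J j : ℕ} (h : j ≤ J) :
    Real.log (yy T M J (j + 1)) = bet M J j * Real.log T := by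
  rw [Len.yy_succ h, Real.log_exp]

lemma sum_inv_S0 : ∃ C : ℝ, 0 < C ∧ ∀ T : ℝ, 3 ≤ T → ∀ M J : ℕ,
    ∑ p ∈ Sj T M J 0, (1 : ℝ) / p ≤ Real.log (Real.log T) + C := by
  obtain ⟨C, hC, h⟩ := sum_inv
  refine ⟨C, hC, fun T hT M J => ?_⟩
  have h1 := (abs_le.1 (h T (by linarith))).2
  have h2 : ∑ p ∈ Sj T M J 0, (1 : ℝ) / p ≤ ∑ p ∈ PS 0 T, (1 : ℝ) / p := by
    apply Finset.sum_le_sum_of_subset_of_nonneg
    · have : Sj T M J 0 = PS 0 (yy T M J 1) := by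
        unfold Sj
        rw [show yy T M J 0 = 0 by simp [yy]]
      rw [this]
      exact PS_mono (yy_nonneg (by linarith) _ _ _) (yy_le (by linarith) M J (by omega))
    · intro p _ _; positivity
  linarith

lemma sum_inv_block : ∃ C : ℝ, 1 ≤ C ∧ ∀ T : ℝ, 3 ≤ T → ∀ M J : ℕ, C ≤ bet M J 0 * Real.log T →
    (∀ j, 1 ≤ j → j ≤ J → ∑ p ∈ Sj T M J j, (1 : ℝ) / p ≤ 2) ∧
    ∑ p ∈ Sj T M J (J + 1), (1 : ℝ) / p ≤ M + 1 := by
  obtain ⟨C, hC, h⟩ := sum_inv_range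
  refine ⟨C + 1, by linarith, fun T hT M J hL => ?_⟩
  have hT1 : 1 < T := by linarith
  have hL0 : 0 < Real.log T := Real.log_pos hT1
  have key : ∀ j, C + 1 ≤ bet M J j * Real.log T := fun j =>
    hL.trans (mul_le_mul_of_nonneg_right (bet_mono (Nat.zero_le j)) hL0.le)
  have hy2 : ∀ j, j ≤ J → 2 ≤ yy T M J (j + 1) := by
    intro j hj
    rw [Len.yy_succ hj]
    have h1 := Real.add_one_le_exp (bet M J j * Real.log T)
    have h2 := key j
    linarith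
  have hb : ∀ j, C / (bet M J j * Real.log T) ≤ 1 := by
    intro j
    have := key j
    rw [div_le_one (by linarith)]
    linarith
  constructor
  · intro j hj1 hjJ
    obtain ⟨i, rfl⟩ : ∃ i, j = i + 1 := ⟨j - 1, by omega⟩
    have h1 := (abs_le.1 (h (yy T M J (i + 1)) (yy T M J (i + 1 + 1)) (hy2 i (by omega))
      (yy_mono hT1 M J (by omega)))).2
    rw [log_yy (show i ≤ J by omega), log_yy hjJ, bet_succ] at h1
    have hpos : bet M J i * Real.log T ≠ 0 := (mul_pos (bet_pos _ _ _) hL0).ne'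
    rw [mul_assoc, mul_div_assoc, div_self hpos, mul_one, Real.log_exp] at h1
    have h2 := hb i
    unfold Sj
    linarith
  · have h1 := (abs_le.1 (h (yy T M J (J + 1)) (yy T M J (J + 1 + 1)) (hy2 J le_rfl)
      (yy_mono hT1 M J (by omega)))).2
    rw [log_yy (le_refl J), show J + 1 + 1 = J + 2 by ring, yy_last] at h1
    have e : Real.log T / (bet M J J * Real.log T) = Real.exp M := by
      rw [div_mul_cancel_right₀ hL0.ne', bet, ← Real.exp_neg]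
      congr 1; ring
    rw [e, Real.log_exp] at h1
    have h2 := hb J
    unfold Sj
    rw [show J + 1 + 1 = J + 2 by ring, yy_last]
    linarith

/-- The exponent at a prime. -/
lemma expo_le {k c c₁ a₂ θ : ℝ} {z : ℂ} (hk0 : 0 ≤ k) (hk1 : k ≤ 1) (hθ : 0 ≤ θ)
    (hz : 0 ≤ z.re) (h1 : -c₁ ≤ a₂) (h2 : a₂ ≤ c) (hc1 : 0 ≤ c₁) (hc : 0 ≤ c)
    (hs : c₁ * θ ≤ 1 / 2) :
    ‖cexp (-(z * θ)) + ((k - 1 : ℝ) : ℂ) * (Real.exp (-(a₂ * θ)) : ℝ)‖ ^ 2 ≤
      k ^ 2 + 14 * min 1 (‖z‖ * θ) + 14 * min 1 (c * θ) + 14 * (c₁ * θ) := by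
  set m1 := min 1 (‖z‖ * θ) with hm1
  set m2 := min 1 (c * θ) with hm2
  have m10 : 0 ≤ m1 := le_min zero_le_one (by positivity)
  have m20 : 0 ≤ m2 := le_min zero_le_one (by positivity)
  have m11 : m1 ≤ 1 := min_le_left _ _
  have m21 : m2 ≤ 1 := min_le_left _ _
  have hU : ‖cexp (-(z * θ)) - 1‖ ≤ 2 * m1 := by
    have hn : ‖-(z * (θ : ℂ))‖ = ‖z‖ * θ := by
      rw [norm_neg, norm_mul, norm_real, Real.norm_eq_abs, abs_of_nonneg hθ]
    rcases le_total (‖z‖ * θ) 1 with h | h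
    · rw [hm1, min_eq_right h, ← hn]
      exact norm_exp_sub_one_le (by rw [hn]; exact h)
    · rw [hm1, min_eq_left h]
      refine (norm_sub_le _ _).trans ?_
      rw [norm_one, norm_exp]
      have : Real.exp (-(z * (θ : ℂ))).re ≤ 1 := by
        rw [Real.exp_le_one_iff]
        simp only [neg_re, mul_re, ofReal_re, ofReal_im, mul_zero, sub_zero]
        have := mul_nonneg hz hθ
        linarith
      linarith
  have hV : |Real.exp (-(a₂ * θ)) - 1| ≤ 2 * m2 + 2 * (c₁ * θ) := by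
    have hc1θ : 0 ≤ c₁ * θ := mul_nonneg hc1 hθ
    rcases le_total 0 a₂ with h | h
    · have h0 : 0 ≤ a₂ * θ := mul_nonneg h hθ
      have h3 : Real.exp (-(a₂ * θ)) ≤ 1 := by rw [Real.exp_le_one_iff]; linarith
      rw [abs_of_nonpos (by linarith)]
      have h4 := Real.add_one_le_exp (-(a₂ * θ))
      have h5 : a₂ * θ ≤ c * θ := mul_le_mul_of_nonneg_right h2 hθ
      have h6 : 0 < Real.exp (-(a₂ * θ)) := Real.exp_pos _
      have h7 : -(Real.exp (-(a₂ * θ)) - 1) ≤ m2 := by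
        rw [hm2]
        apply le_min <;> linarith
      linarith
    · have h0 : |-(a₂ * θ)| ≤ c₁ * θ := by
        rw [abs_of_nonneg (by nlinarith)]
        nlinarith
      have := Real.abs_exp_sub_one_le (x := -(a₂ * θ)) (by linarith)
      linarith
  set E := 2 * m1 + (2 * m2 + 2 * (c₁ * θ)) with hE
  have hE0 : 0 ≤ E := by
    have hc1θ : 0 ≤ c₁ * θ := mul_nonneg hc1 hθ
    positivity
  have hE5 : E ≤ 5 := by linarith
  have hnorm : ‖cexp (-(z * θ)) + ((k - 1 : ℝ) : ℂ) * (Real.exp (-(a₂ * θ)) : ℝ)‖ ≤ k + E := by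
    have e : cexp (-(z * θ)) + ((k - 1 : ℝ) : ℂ) * (Real.exp (-(a₂ * θ)) : ℝ) =
        (k : ℂ) + ((cexp (-(z * θ)) - 1) + ((k - 1 : ℝ) : ℂ) *
          ((Real.exp (-(a₂ * θ)) - 1 : ℝ) : ℂ)) := by
      push_cast; ring
    rw [e]
    refine (norm_add_le _ _).trans ?_
    rw [norm_real, Real.norm_eq_abs, abs_of_nonneg hk0]
    gcongr
    refine (norm_add_le _ _).trans ?_
    rw [norm_mul, norm_real, norm_real, Real.norm_eq_abs, Real.norm_eq_abs]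
    have h3 : |k - 1| ≤ 1 := by rw [abs_le]; constructor <;> linarith
    have h4 : |k - 1| * |Real.exp (-(a₂ * θ)) - 1| ≤ 1 * (2 * m2 + 2 * (c₁ * θ)) :=
      mul_le_mul h3 hV (abs_nonneg _) zero_le_one
    linarith
  calc ‖cexp (-(z * θ)) + ((k - 1 : ℝ) : ℂ) * (Real.exp (-(a₂ * θ)) : ℝ)‖ ^ 2
      ≤ (k + E) ^ 2 := pow_le_pow_left₀ (norm_nonneg _) hnorm 2
    _ ≤ k ^ 2 + 7 * E := by nlinarith [mul_nonneg hk0 hE0]
    _ = _ := by rw [hE]; ring

lemma cpow_form {p : ℕ} (hp : 0 < p) {L : ℝ} (z : ℂ) :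
    (p : ℂ) ^ (-((1 / 2 : ℂ) + z / L)) =
      (((p : ℝ) ^ (-(1 / 2) : ℝ) : ℝ) : ℂ) * cexp (-(z * ((Real.log p / L : ℝ) : ℂ))) := by
  have hp0 : (p : ℂ) ≠ 0 := by exact_mod_cast hp.ne'
  have hp0' : (0 : ℝ) < p := by exact_mod_cast hp
  rw [cpow_def_of_ne_zero hp0, ← natCast_log, Real.rpow_def_of_pos hp0', ofReal_exp, ← exp_add]
  congr 1
  push_cast
  ring

lemma rpow_form {p : ℕ} (hp : 0 < p) {L : ℝ} (a : ℝ) :
    (p : ℝ) ^ (-(1 / 2 + a / L)) = (p : ℝ) ^ (-(1 / 2) : ℝ) * Real.exp (-(a * (Real.log p / L))) := by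
  have hp0' : (0 : ℝ) < p := by exact_mod_cast hp
  rw [Real.rpow_def_of_pos hp0', Real.rpow_def_of_pos hp0', ← Real.exp_add]
  congr 1
  ring

lemma norm_form {p : ℕ} (hp : 0 < p) {L : ℝ} (z : ℂ) (a k : ℝ) :
    ‖(p : ℂ) ^ (-((1 / 2 : ℂ) + z / L)) + ((k - 1 : ℝ) : ℂ) * (((p : ℝ) ^ (-(1 / 2 + a / L)) : ℝ) : ℂ)‖ ^ 2
      = 1 / p * ‖cexp (-(z * ((Real.log p / L : ℝ) : ℂ))) +
        ((k - 1 : ℝ) : ℂ) * (Real.exp (-(a * (Real.log p / L))) : ℝ)‖ ^ 2 := by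
  have hp0' : (0 : ℝ) < p := by exact_mod_cast hp
  rw [cpow_form hp, rpow_form hp]
  have e : (((p : ℝ) ^ (-(1 / 2) : ℝ) : ℝ) : ℂ) * cexp (-(z * ((Real.log p / L : ℝ) : ℂ))) +
      ((k - 1 : ℝ) : ℂ) * (((p : ℝ) ^ (-(1 / 2) : ℝ) * Real.exp (-(a * (Real.log p / L))) : ℝ) : ℂ) =
      (((p : ℝ) ^ (-(1 / 2) : ℝ) : ℝ) : ℂ) * (cexp (-(z * ((Real.log p / L : ℝ) : ℂ))) +
        ((k - 1 : ℝ) : ℂ) * (Real.exp (-(a * (Real.log p / L))) : ℝ)) := by
    push_cast; ring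
  rw [e, norm_mul, mul_pow]
  congr 1
  rw [norm_real, Real.norm_eq_abs, abs_of_nonneg (by positivity), ← Real.rpow_natCast,
    ← Real.rpow_mul hp0'.le]
  norm_num
  rw [Real.rpow_neg_one]

lemma Pj_congr (A : ℕ) (S : Finset ℕ) {f g : ℕ → ℂ} (h : ∀ p ∈ S, f p = g p) :
    Pj A S f = Pj A S g :=
  Finset.sum_congr rfl fun p hp => by rw [h p hp]

lemma ZZ_congr (S : Finset ℕ) {f g : ℕ → ℂ} (h : ∀ p ∈ S, f p = g p) :
    ZZ S f = ZZ S g :=
  Finset.prod_congr rfl fun p hp => by rw [h p hp]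

lemma Fc_congr {T : ℝ} {M J : ℕ} {α : ℝ} {g h : Finset ℕ} {j : ℕ} {f f' : ℕ → ℂ}
    (e : ∀ p ∈ Sj T M J j, f p = f' p) : Fc T M J α g h j f = Fc T M J α g h j f' := by
  unfold Fc
  rw [Pj_congr M _ e]

lemma tw_congr {S : Finset ℕ} {f g : ℕ → ℂ} (w : ℂ) (h : ∀ p ∈ S, f p = g p) :
    ∀ p ∈ S, tw w f p = tw w g p := fun p hp => by simp only [tw, h p hp]

/-- The second moment factorises. -/
lemma ER_factor {T : ℝ} (hT : 1 < T) (M J : ℕ) (α : ℝ) (g h : Finset ℕ) (w₁ w₂ : ℂ) :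
    ER (SB T M J) (fun f => ‖ZZ (UU (SB T M J)) (tw w₁ f)‖ ^ 2 *
      ‖AA T M J α g h (tw w₂ f)‖ ^ 2) =
    (∏ j ∈ Finset.range (J + 1), ES (Sj T M J j) (fun f => ‖ZZ (Sj T M J j) (tw w₁ f)‖ ^ 2 *
      ‖Fc T M J α g h j (tw w₂ f)‖ ^ 2)) *
      ES (Sj T M J (J + 1)) (fun f => ‖ZZ (Sj T M J (J + 1)) (tw w₁ f)‖ ^ 2) := by
  have hB := blk_SB hT M J
  set G : ℕ → (ℕ → ℂ) → ℝ := fun j f => ‖ZZ (Sj T M J j) (tw w₁ f)‖ ^ 2 *
    (if j < J + 1 then ‖Fc T M J α g h j (tw w₂ f)‖ ^ 2 else 1) with hG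
  have h1 : ∀ f : ℕ → ℂ, ‖ZZ (UU (SB T M J)) (tw w₁ f)‖ ^ 2 * ‖AA T M J α g h (tw w₂ f)‖ ^ 2 =
      ∏ j : Fin (J + 2), G j f := by
    intro f
    have e1 : ZZ (UU (SB T M J)) (tw w₁ f) = ∏ j : Fin (J + 2), ZZ (Sj T M J j) (tw w₁ f) := by
      unfold ZZ UU
      rw [Finset.prod_biUnion]
      · rfl
      · intro i _ j _ hij
        exact hB.2 i j hij
    have e2 : AA T M J α g h (tw w₂ f) = ∏ j : Fin (J + 2),
        (if (j : ℕ) < J + 1 then Fc T M J α g h j (tw w₂ f) else 1) := by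
      rw [← Finset.prod_range (fun j => if j < J + 1 then Fc T M J α g h j (tw w₂ f) else 1),
        Finset.prod_range_succ, if_neg (lt_irrefl _), mul_one, AA]
      refine Finset.prod_congr rfl fun j hj => ?_
      rw [if_pos (Finset.mem_range.1 hj)]
    rw [e1, e2, norm_prod, norm_prod, ← Finset.prod_pow, ← Finset.prod_pow,
      ← Finset.prod_mul_distrib]
    refine Finset.prod_congr rfl fun j _ => ?_
    simp only [hG]
    congr 1
    split_ifs <;> simp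
  have h2 : ER (SB T M J) (fun f => ‖ZZ (UU (SB T M J)) (tw w₁ f)‖ ^ 2 *
      ‖AA T M J α g h (tw w₂ f)‖ ^ 2) = ER (SB T M J) (fun f => ∏ j : Fin (J + 2), G j f) := by
    congr 1
    funext f
    exact h1 f
  rw [h2, ER_prod hB (fun j : Fin (J + 2) => G j)]
  · rw [show (∏ j : Fin (J + 2), ES (SB T M J j) (G j)) =
      ∏ j : Fin (J + 2), ES (Sj T M J j) (G j) from rfl,
      ← Finset.prod_range (fun j => ES (Sj T M J j) (G j)), Finset.prod_range_succ]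
    congr 1
    · refine Finset.prod_congr rfl fun j hj => ?_
      simp only [hG, if_pos (Finset.mem_range.1 hj)]
    · simp only [hG, if_neg (lt_irrefl _), mul_one]
  · intro j f f' hff
    have h3 : ∀ w, ∀ p ∈ Sj T M J j, tw w f p = tw w f' p := fun w => tw_congr w hff
    simp only [hG]
    rw [ZZ_congr _ (h3 w₁), Fc_congr (h3 w₂)]

lemma ES_add {S : Finset ℕ} {F G : (ℕ → ℂ) → ℝ} (hF : BS S F) (hG : BS S G) :
    ES S (fun f => F f + G f) = ES S F + ES S G :=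
  integral_add hF.integrable hG.integrable

lemma ES_const_mul {S : Finset ℕ} (c : ℝ) (F : (ℕ → ℂ) → ℝ) :
    ES S (fun f => c * F f) = c * ES S F := integral_const_mul _ _

lemma BS.mulR {S : Finset ℕ} {F G : (ℕ → ℂ) → ℝ} (hF : BS S F) (hG : BS S G) :
    BS S (fun f => F f * G f) := by
  obtain ⟨h1, C, h2⟩ := hF
  obtain ⟨h1', C', h2'⟩ := hG
  refine ⟨h1.mul h1', C * C', fun ω => ?_⟩
  rw [norm_mul]
  exact mul_le_mul (h2 ω) (h2' ω) (norm_nonneg _) ((norm_nonneg _).trans (h2 ω))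

lemma BS.expnorm {S : Finset ℕ} {F : (ℕ → ℂ) → ℂ} (hF : BS S F) {q : ℝ} (hq : 0 ≤ q) :
    BS S (fun f => Real.exp (q * ‖F f‖) ^ 2) := by
  obtain ⟨h1, C, h2⟩ := hF
  refine ⟨(Real.continuous_exp.comp (continuous_const.mul h1.norm)).pow 2,
    Real.exp (q * C) ^ 2, fun ω => ?_⟩
  rw [Real.norm_eq_abs, abs_of_nonneg (by positivity)]
  exact pow_le_pow_left₀ (Real.exp_pos _).le
    (Real.exp_le_exp.2 (mul_le_mul_of_nonneg_left (h2 ω) hq)) 2

/-- Good blocks. -/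
lemma good_block : ∃ C : ℝ, 0 ≤ C ∧ ∀ (A l : ℕ) (S : Finset ℕ) (w₁ : ℂ) (w₂ k : ℝ), 1 ≤ A →
    0 < w₁.re → 0 ≤ k → k ≤ 1 → (∀ p ∈ S, p.Prime) → (∀ p ∈ S, yp w₁.re w₂ p ≤ 3 / 4) →
    ES S (fun f => ‖ZZ S (tw w₁ f)‖ ^ 2 * ‖Ntr l (k - 1) (Pj A S (tw w₂ f))‖ ^ 2) ≤
      Real.exp (∑ p ∈ S, (‖(p : ℂ) ^ (-w₁) + ((k - 1 : ℝ) : ℂ) * ((p : ℝ) ^ (-w₂) : ℝ)‖ ^ 2 +
        C * (yp w₁.re w₂ p) ^ 4)) *
      Real.exp (33 * Real.exp (-l + C * ∑ p ∈ S, (yp w₁.re w₂ p) ^ 2)) := by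
  obtain ⟨C1, hC1, h1⟩ := ES_exp 1
  obtain ⟨C2, hC2, h2⟩ := ES_exp_norm (q := 3) (by norm_num)
  refine ⟨C1 + C2, by positivity, fun A l S w₁ w₂ k hA hw hk0 hk1 hS hy => ?_⟩
  have hα : |k - 1| ≤ 1 := by rw [abs_le]; constructor <;> linarith
  set η := Real.exp (-(l : ℝ)) with hη
  have hη0 : 0 < η := Real.exp_pos _
  have hη1 : η ≤ 1 := by rw [hη, Real.exp_le_one_iff]; linarith [Nat.cast_nonneg (α := ℝ) l]
  set Z : (ℕ → ℂ) → ℂ := fun f => ZZ S (tw w₁ f) with hZ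
  set P : (ℕ → ℂ) → ℂ := fun f => Pj A S (tw w₂ f) with hP
  have bZ : BS S Z := bs_ZZ hS hw
  have bP : BS S P := bs_Pj A S S w₂
  set F1 : (ℕ → ℂ) → ℝ := fun f => ‖(ZZ S (tw w₁ f)) ^ 1 * cexp (((k - 1 : ℝ) : ℂ) * P f)‖ ^ 2 with hF1
  set F2 : (ℕ → ℂ) → ℝ := fun f => ‖(ZZ S (tw w₁ f)) ^ 1‖ ^ 2 * Real.exp (3 * ‖P f‖) ^ 2 with hF2
  have b1 : BS S F1 := ((bZ.pow 1).mul ((bs_const S _).mul bP).cexp).norm_sq
  have b2 : BS S F2 := BS.mulR (bZ.pow 1).norm_sq (BS.expnorm bP (by norm_num))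
  have b1' : BS S (fun f => (1 + η) * F1 f) := BS.mulR (bs_const S _) b1
  have b2' : BS S (fun f => (2 * η) * F2 f) := BS.mulR (bs_const S _) b2
  have g1 := h1 A 1 S w₁ ((k - 1 : ℝ) : ℂ) w₂ hA (by norm_num)
    (by rw [norm_real, Real.norm_eq_abs]; exact hα) hS hy
  have g2 := h2 A 1 S w₁ w₂ hA (by norm_num) hw hS hy
  have step : ES S (fun f => ‖Z f‖ ^ 2 * ‖Ntr l (k - 1) (P f)‖ ^ 2) ≤
      ES S (fun f => (1 + η) * F1 f + (2 * η) * F2 f) := by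
    apply ES_mono
    · intro ω; positivity
    · exact (BS.add b1' b2').integrable
    · intro ω
      set f := ext S ω
      have ht := Ntr_tail l hα (P f)
      have hn : ‖Ntr l (k - 1) (P f)‖ ≤ ‖cexp (((k - 1 : ℝ) : ℂ) * P f)‖ +
          η * Real.exp (3 * ‖P f‖) := by
        have := norm_sub_norm_le (Ntr l (k - 1) (P f)) (cexp (((k - 1 : ℝ) : ℂ) * P f))
        rw [norm_sub_rev] at this
        linarith
      set a := ‖cexp (((k - 1 : ℝ) : ℂ) * P f)‖ with ha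
      set s := Real.exp (3 * ‖P f‖) with hs
      have hs0 : 0 < s := Real.exp_pos _
      have ha0 : 0 ≤ a := norm_nonneg _
      have h3 : ‖Ntr l (k - 1) (P f)‖ ^ 2 ≤ (1 + η) * a ^ 2 + 2 * η * s ^ 2 := by
        calc ‖Ntr l (k - 1) (P f)‖ ^ 2 ≤ (a + η * s) ^ 2 :=
              pow_le_pow_left₀ (norm_nonneg _) hn 2
          _ ≤ _ := by
            nlinarith [sq_nonneg (a - s), mul_nonneg hη0.le (sq_nonneg (a - s)),
              mul_nonneg (mul_nonneg hη0.le (sub_nonneg.2 hη1)) (sq_nonneg s)]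
      have e1 : F1 f = ‖Z f‖ ^ 2 * a ^ 2 := by
        simp only [hF1, pow_one, norm_mul, mul_pow, hZ, ha]
      have e2 : F2 f = ‖Z f‖ ^ 2 * s ^ 2 := by
        simp only [hF2, pow_one, hZ, hs]
      rw [e1, e2]
      calc ‖Z f‖ ^ 2 * ‖Ntr l (k - 1) (P f)‖ ^ 2 ≤ ‖Z f‖ ^ 2 * ((1 + η) * a ^ 2 + 2 * η * s ^ 2) := by
            gcongr
        _ = _ := by ring
  have e3 : ES S (fun f => (1 + η) * F1 f + (2 * η) * F2 f) =
      (1 + η) * ES S F1 + (2 * η) * ES S F2 := by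
    rw [ES_add b1' b2', ES_const_mul, ES_const_mul]
  rw [e3] at step
  refine step.trans ?_
  set Y := ∑ p ∈ S, yp w₁.re w₂ p ^ 2 with hY
  have hY0 : 0 ≤ Y := Finset.sum_nonneg fun p _ => by positivity
  set E := ∑ p ∈ S, (‖(p : ℂ) ^ (-w₁) + ((k - 1 : ℝ) : ℂ) * ((p : ℝ) ^ (-w₂) : ℝ)‖ ^ 2 +
        (C1 + C2) * (yp w₁.re w₂ p) ^ 4) with hE
  have hE0 : 0 ≤ E := Finset.sum_nonneg fun p _ => by positivity
  have g1' : ES S F1 ≤ Real.exp E := by
    refine g1.trans (Real.exp_le_exp.2 ?_)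
    rw [hE]
    refine Finset.sum_le_sum fun p _ => ?_
    push_cast
    rw [one_mul]
    gcongr
    linarith
  have g2' : ES S F2 ≤ 16 * Real.exp ((C1 + C2) * Y) := by
    refine g2.trans ?_
    gcongr
    linarith
  have hexpE : 1 ≤ Real.exp E := Real.one_le_exp hE0
  have hexpY : 1 ≤ Real.exp ((C1 + C2) * Y) := Real.one_le_exp (by positivity)
  rw [Real.exp_add, ← hη]
  calc (1 + η) * ES S F1 + 2 * η * ES S F2
      ≤ (1 + η) * Real.exp E + 2 * η * (16 * Real.exp ((C1 + C2) * Y)) := by gcongr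
    _ ≤ Real.exp E * (33 * (η * Real.exp ((C1 + C2) * Y)) + 1) := by
        have h5 : η * 1 ≤ η * Real.exp ((C1 + C2) * Y) := by gcongr
        have h6 : η * Real.exp ((C1 + C2) * Y) * 1 ≤ η * Real.exp ((C1 + C2) * Y) * Real.exp E := by
          gcongr
        nlinarith
    _ ≤ _ := by
        gcongr
        exact Real.add_one_le_exp _

/-- Bad blocks. -/
lemma bad_block : ∃ C : ℝ, 0 ≤ C ∧ ∀ (A r : ℕ) (S : Finset ℕ) (w₁ : ℂ) (w₂ : ℝ)
    (G : (ℕ → ℂ) → ℂ), 1 ≤ A →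
    0 < w₁.re → (∀ p ∈ S, p.Prime) → (∀ p ∈ S, yp w₁.re w₂ p ≤ 3 / 4) →
    (∀ f, ‖G f‖ ≤ (1 / 4) ^ r * Real.exp (2 * ‖Pj A S (tw w₂ f)‖)) →
    ES S (fun f => ‖ZZ S (tw w₁ f)‖ ^ 2 * ‖G f‖ ^ 2) ≤
      (1 / 16) ^ r * (16 * Real.exp (C * ∑ p ∈ S, (yp w₁.re w₂ p) ^ 2)) := by
  obtain ⟨C2, hC2, h2⟩ := ES_exp_norm (q := 2) (by norm_num)
  refine ⟨C2, hC2, fun A r S w₁ w₂ G hA hw hS hy hG => ?_⟩
  have g2 := h2 A 1 S w₁ w₂ hA (by norm_num) hw hS hy
  have bZ : BS S (fun f => ZZ S (tw w₁ f)) := bs_ZZ hS hw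
  have bP : BS S (fun f => Pj A S (tw w₂ f)) := bs_Pj A S S w₂
  set F2 : (ℕ → ℂ) → ℝ := fun f => ‖(ZZ S (tw w₁ f)) ^ 1‖ ^ 2 *
    Real.exp (2 * ‖Pj A S (tw w₂ f)‖) ^ 2 with hF2
  have b2 : BS S F2 := BS.mulR (bZ.pow 1).norm_sq (BS.expnorm bP (by norm_num))
  have b2' : BS S (fun f => (1 / 16 : ℝ) ^ r * F2 f) := BS.mulR (bs_const S _) b2
  calc ES S (fun f => ‖ZZ S (tw w₁ f)‖ ^ 2 * ‖G f‖ ^ 2) ≤
      ES S (fun f => (1 / 16 : ℝ) ^ r * F2 f) := by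
        apply ES_mono
        · intro ω; positivity
        · exact b2'.integrable
        · intro ω
          have h3 := pow_le_pow_left₀ (norm_nonneg _) (hG (ext S ω)) 2
          have h4 : ((1 / 4 : ℝ) ^ r) ^ 2 = (1 / 16) ^ r := by
            rw [← pow_mul, mul_comm, pow_mul]; norm_num
          rw [mul_pow, h4] at h3
          simp only [hF2, pow_one]
          calc _ ≤ ‖ZZ S (tw w₁ (ext S ω))‖ ^ 2 * ((1 / 16) ^ r *
                Real.exp (2 * ‖Pj A S (tw w₂ (ext S ω))‖) ^ 2) := by gcongr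
            _ = _ := by ring
    _ = (1 / 16 : ℝ) ^ r * ES S F2 := ES_const_mul _ _
    _ ≤ _ := by gcongr

/-- The top block. -/
lemma top_block : ∃ C : ℝ, 0 ≤ C ∧ ∀ (S : Finset ℕ) (w₁ : ℂ), 1 / 2 ≤ w₁.re →
    (∀ p ∈ S, p.Prime) →
    ES S (fun f => ‖ZZ S (tw w₁ f)‖ ^ 2) ≤ Real.exp (C * ∑ p ∈ S, (1 : ℝ) / p) := by
  obtain ⟨C1, hC1, h1⟩ := ES_exp 1
  refine ⟨1 + C1, by positivity, fun S w₁ hw hS => ?_⟩
  have hy : ∀ p ∈ S, yp w₁.re w₁.re p ^ 2 ≤ 1 / p := by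
    intro p hp
    have hp1 : (1 : ℝ) ≤ p := by exact_mod_cast (hS p hp).one_lt.le
    rw [yp, max_self, ← Real.rpow_natCast, ← Real.rpow_mul (by linarith), one_div,
      ← Real.rpow_neg_one]
    apply Real.rpow_le_rpow_of_exponent_le hp1
    push_cast
    linarith
  have hy' : ∀ p ∈ S, yp w₁.re w₁.re p ≤ 3 / 4 := by
    intro p hp
    have hp2 : (2 : ℝ) ≤ p := by exact_mod_cast (hS p hp).two_le
    have h2 := hy p hp
    have h3 : (1 : ℝ) / p ≤ 1 / 2 := by gcongr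
    nlinarith [yp_nonneg w₁.re w₁.re p]
  have g := h1 1 1 S w₁ 0 w₁.re le_rfl (by norm_num) (by simp) hS hy'
  simp only [zero_mul, exp_zero, mul_one, pow_one, add_zero, Nat.cast_one, one_mul] at g
  refine g.trans (Real.exp_le_exp.2 ?_)
  rw [Finset.mul_sum]
  refine Finset.sum_le_sum fun p hp => ?_
  have hp0 := (hS p hp).pos
  have hy0 := yp_nonneg w₁.re w₁.re p
  have h2 : ‖(p : ℂ) ^ (-w₁)‖ = yp w₁.re w₁.re p := by
    rw [norm_natCast_cpow_of_pos hp0, yp, max_self]; simp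
  rw [h2]
  have h3 : yp w₁.re w₁.re p ^ 4 ≤ yp w₁.re w₁.re p ^ 2 :=
    pow_le_pow_of_le_one hy0 (by linarith [hy' p hp]) (by norm_num)
  have h4 := hy p hp
  nlinarith

/-- Bounds for `yp`. -/
lemma yp_le {p : ℕ} (hp : p.Prime) {L a₁ a₂ c₁ : ℝ} (hL : 0 < L) (h1 : 0 ≤ a₁) (h2 : -c₁ ≤ a₂)
    (_hc : 0 ≤ c₁) (hs : c₁ * (Real.log p / L) ≤ 1 / 20) :
    yp (1 / 2 + a₁ / L) (1 / 2 + a₂ / L) p ≤ 3 / 4 ∧
      yp (1 / 2 + a₁ / L) (1 / 2 + a₂ / L) p ^ 2 ≤ 2 * (1 / p) ∧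
      yp (1 / 2 + a₁ / L) (1 / 2 + a₂ / L) p ^ 4 ≤ 4 * ((p : ℝ) ^ 2)⁻¹ := by
  have hp2 : (2 : ℝ) ≤ p := by exact_mod_cast hp.two_le
  have hp0 : (0 : ℝ) < p := by linarith
  have hlog : 0 ≤ Real.log p / L := div_nonneg (Real.log_nonneg (by linarith)) hL.le
  set x := (p : ℝ) ^ (-(1 / 2) : ℝ) with hx
  have hx0 : 0 < x := Real.rpow_pos_of_pos hp0 _
  have hx2 : x ^ 2 = 1 / p := by
    rw [hx, ← Real.rpow_natCast, ← Real.rpow_mul hp0.le, one_div]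
    norm_num
    exact Real.rpow_neg_one _
  have he : Real.exp (1 / 20) ≤ 1.0513 := by
    have h20 : Real.exp (1 / 20) ^ 20 = Real.exp 1 := by
      rw [← Real.exp_nat_mul]; norm_num
    by_contra hcon
    push Not at hcon
    have h3 : (1.0513 : ℝ) ^ 20 < Real.exp (1 / 20) ^ 20 :=
      pow_lt_pow_left₀ hcon (by norm_num) (by norm_num)
    rw [h20] at h3
    have h4 : (2.7183 : ℝ) < 1.0513 ^ 20 := by norm_num
    linarith [Real.exp_one_lt_d9]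
  have hy : yp (1 / 2 + a₁ / L) (1 / 2 + a₂ / L) p ≤ x * 1.0513 := by
    apply max_le
    · rw [rpow_form hp.pos]
      have : Real.exp (-(a₁ * (Real.log p / L))) ≤ 1 := by
        rw [Real.exp_le_one_iff]
        have := mul_nonneg h1 hlog
        linarith
      gcongr
      linarith
    · rw [rpow_form hp.pos]
      gcongr
      refine le_trans (Real.exp_le_exp.2 ?_) he
      nlinarith
  have hy0 := yp_nonneg (1 / 2 + a₁ / L) (1 / 2 + a₂ / L) p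
  have hpinv : (1 : ℝ) / p ≤ 1 / 2 := by gcongr
  have hy2 : yp (1 / 2 + a₁ / L) (1 / 2 + a₂ / L) p ^ 2 ≤ 1.1053 * (1 / p) := by
    calc yp (1 / 2 + a₁ / L) (1 / 2 + a₂ / L) p ^ 2 ≤ (x * 1.0513) ^ 2 :=
          pow_le_pow_left₀ hy0 hy 2
      _ = x ^ 2 * 1.0513 ^ 2 := by ring
      _ ≤ 1.1053 * (1 / p) := by
          rw [hx2]
          have : (0 : ℝ) ≤ 1 / p := by positivity
          nlinarith
  have hpp : (0 : ℝ) < 1 / p := by positivity
  refine ⟨?_, ?_, ?_⟩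
  · nlinarith
  · linarith
  · have e : yp (1 / 2 + a₁ / L) (1 / 2 + a₂ / L) p ^ 4 =
        (yp (1 / 2 + a₁ / L) (1 / 2 + a₂ / L) p ^ 2) ^ 2 := by ring
    rw [e]
    calc (yp (1 / 2 + a₁ / L) (1 / 2 + a₂ / L) p ^ 2) ^ 2 ≤ (1.1053 * (1 / p)) ^ 2 :=
          pow_le_pow_left₀ (by positivity) hy2 2
      _ = 1.1053 ^ 2 * ((p : ℝ) ^ 2)⁻¹ := by rw [mul_pow]; congr 1; rw [one_div, inv_pow]
      _ ≤ 4 * ((p : ℝ) ^ 2)⁻¹ := by
          gcongr; norm_num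

lemma Fc_good {T : ℝ} {M J : ℕ} {α : ℝ} {g h : Finset ℕ} {j : ℕ} (hg : j ∈ g) (hh : j ∉ h)
    (f : ℕ → ℂ) : Fc T M J α g h j f = Ntr (ll M J j) α (Pj M (Sj T M J j) f) := by
  rw [Fc, if_pos hg, if_neg hh, mul_one]

lemma Fc_bad {T : ℝ} {M J : ℕ} {α : ℝ} (hα : |α| ≤ 1) {g h : Finset ℕ} {j : ℕ} (hj : j ≤ J)
    (hh : j ∈ h) (f : ℕ → ℂ) : ‖Fc T M J α g h j f‖ ≤
      (1 / 4) ^ (rr M J j) * Real.exp (2 * ‖Pj M (Sj T M J j) f‖) := by
  set P := Pj M (Sj T M J j) f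
  have hK := Len.KK_ge_one (M := M) hj
  have h1 : ‖(if j ∈ g then Ntr (ll M J j) α P else 1)‖ ≤ Real.exp ‖P‖ := by
    split_ifs
    · exact norm_Ntr_le _ hα _
    · rw [norm_one]; exact Real.one_le_exp (norm_nonneg _)
  have h2 : ‖(P / (KK M J j : ℂ)) ^ (rr M J j)‖ ≤ (1 / 4) ^ (rr M J j) * Real.exp ‖P‖ :=
    pow_div_le _ (by linarith) (Nat.floor_le (by linarith)) P
  rw [Fc, if_pos hh, norm_mul]
  calc _ ≤ Real.exp ‖P‖ * ((1 / 4) ^ (rr M J j) * Real.exp ‖P‖) :=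
        mul_le_mul h1 h2 (norm_nonneg _) (Real.exp_pos _).le
    _ = (1 / 4) ^ (rr M J j) * Real.exp (2 * ‖P‖) := by
        rw [two_mul, Real.exp_add]; ring

/-- The numerical bound for bad blocks. -/
lemma bad_num {M J j : ℕ} {B : ℝ} (h : 6 + B ≤ KK M J j / 10) :
    (1 / 16 : ℝ) ^ (rr M J j) * (16 * Real.exp B) ≤ ss M J j := by
  have h1 : KK M J j / 4 - 1 < (rr M J j : ℝ) := by
    unfold rr
    have := Nat.lt_floor_add_one (KK M J j / 4)
    linarith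
  have hl2 : 0.6931471803 < Real.log 2 := Real.log_two_gt_d9
  have hl2' : Real.log 2 < 0.6931471808 := Real.log_two_lt_d9
  have e1 : (1 / 16 : ℝ) ^ (rr M J j) = Real.exp (-(4 * Real.log 2) * rr M J j) := by
    rw [mul_comm, Real.exp_nat_mul, Real.exp_neg]
    congr 1
    rw [show (4 * Real.log 2) = ((4 : ℕ) : ℝ) * Real.log 2 by norm_num, Real.exp_nat_mul,
      Real.exp_log (by norm_num)]
    norm_num
  have e2 : (16 : ℝ) = Real.exp (4 * Real.log 2) := by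
    rw [show (4 * Real.log 2) = ((4 : ℕ) : ℝ) * Real.log 2 by norm_num, Real.exp_nat_mul,
      Real.exp_log (by norm_num)]
    norm_num
  rw [e1, e2, ← Real.exp_add, ← Real.exp_add, ss]
  apply Real.exp_le_exp.2
  nlinarith

lemma sum_exp_KK (M J : ℕ) : ∑ j ∈ Finset.range (J + 1), Real.exp (-KK M J j) ≤ 5 := by
  have h1 : ∑ j ∈ Finset.range (J + 1), Real.exp (-KK M J j) ≤
      ∑ j ∈ Finset.range (J + 1), bet M J j * KK M J j := by
    refine Finset.sum_le_sum fun j hj => ?_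
    rw [Len.bet_KK]
    apply Real.exp_le_exp.2
    have hj' : (j : ℝ) ≤ J := by
      have := Finset.mem_range.1 hj
      exact_mod_cast (by omega : j ≤ J)
    have h2 := Real.add_one_le_exp (3 / 4 * ((M : ℝ) + J - j))
    have hM : (0 : ℝ) ≤ M := by positivity
    unfold KK
    linarith
  refine h1.trans ((Len.sum_bet_KK M J).trans ?_)
  have : Real.exp (-(M : ℝ) / 4) ≤ 1 := by
    rw [Real.exp_le_one_iff]
    have : (0 : ℝ) ≤ M := by positivity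
    linarith
  linarith

/-- Everything that holds for large `T`. -/
lemma eventually_T (M : ℕ) (c₁ D D' : ℝ) : ∃ T₀ : ℝ, 3 ≤ T₀ ∧ ∀ T, T₀ ≤ T →
    1 ≤ Real.log (Real.log T) ∧ D' ≤ Real.log T ∧
    D ≤ bet M (JJ T) 0 * Real.log T ∧
    D * (Real.log (Real.log T) + 1) ≤ KK M (JJ T) 0 ∧ c₁ ≤ Real.log T := by
  have h1 : Tendsto (fun T : ℝ => Real.log (Real.log T)) atTop atTop :=
    Real.tendsto_log_atTop.comp Real.tendsto_log_atTop
  have h2 : ∀ᶠ b : ℝ in atTop, |D| * Real.exp M * b ^ 4 ≤ Real.exp b := by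
    have := (Real.isLittleO_pow_exp_atTop (n := 4)).def
      (c := (|D| * Real.exp M + 1)⁻¹) (by positivity)
    filter_upwards [this, eventually_ge_atTop 0] with u hu hu0
    rw [Real.norm_eq_abs, Real.norm_eq_abs, abs_of_nonneg (by positivity),
      abs_of_pos (Real.exp_pos _)] at hu
    have h3 := mul_le_mul_of_nonneg_left hu (show 0 ≤ |D| * Real.exp M + 1 by positivity)
    rw [← mul_assoc, mul_inv_cancel₀ (by positivity), one_mul] at h3
    refine le_trans ?_ h3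
    have : 0 ≤ u ^ 4 := by positivity
    nlinarith
  have hev : ∀ᶠ T : ℝ in atTop, 1 ≤ Real.log (Real.log T) ∧ D' ≤ Real.log T ∧
      D ≤ bet M (JJ T) 0 * Real.log T ∧
      D * (Real.log (Real.log T) + 1) ≤ KK M (JJ T) 0 ∧ c₁ ≤ Real.log T := by
    filter_upwards [h1.eventually h2, h1.eventually_ge_atTop (1 + 6 * |D|),
      Real.tendsto_log_atTop.eventually_ge_atTop D', Real.tendsto_log_atTop.eventually_ge_atTop c₁,
      Real.tendsto_log_atTop.eventually_gt_atTop 0] with T hT hb hD' hc₁ hL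
    set b := Real.log (Real.log T) with hbdef
    have hD0 := abs_nonneg D
    have hb1 : 1 ≤ b := by linarith
    have hb0 : 0 < b := by linarith
    have hlb : 0 ≤ 4 * Real.log b := by
      have := Real.log_nonneg hb1
      linarith
    have hJ1 : (JJ T : ℝ) ≤ 4 * Real.log b := Nat.floor_le hlb
    have hJ2 : 4 * Real.log b - 1 < (JJ T : ℝ) := by
      have := Nat.lt_floor_add_one (4 * Real.log b)
      unfold JJ
      linarith
    refine ⟨hb1, hD', ?_, ?_, hc₁⟩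
    · have h3 : Real.exp (-(M : ℝ)) * (b ^ 4)⁻¹ ≤ bet M (JJ T) 0 := by
        rw [bet]
        have h4 : (b ^ 4)⁻¹ = Real.exp (-(4 * Real.log b)) := by
          rw [Real.exp_neg, show 4 * Real.log b = ((4 : ℕ) : ℝ) * Real.log b by norm_num,
            Real.exp_nat_mul, Real.exp_log hb0]
        rw [h4, ← Real.exp_add]
        apply Real.exp_le_exp.2
        push_cast
        linarith
      have h5 : Real.exp b = Real.log T := Real.exp_log hL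
      calc D ≤ |D| := le_abs_self D
        _ = Real.exp (-(M : ℝ)) * (b ^ 4)⁻¹ * (|D| * Real.exp M * b ^ 4) := by
            rw [Real.exp_neg]
            field_simp
        _ ≤ Real.exp (-(M : ℝ)) * (b ^ 4)⁻¹ * Real.exp b := by gcongr
        _ = Real.exp (-(M : ℝ)) * (b ^ 4)⁻¹ * Real.log T := by rw [h5]
        _ ≤ _ := by gcongr
    · have h3 : b ^ 3 / 3 ≤ KK M (JJ T) 0 := by
        rw [KK]
        have h4 : b ^ 3 = Real.exp (3 * Real.log b) := by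
          rw [show 3 * Real.log b = ((3 : ℕ) : ℝ) * Real.log b by norm_num,
            Real.exp_nat_mul, Real.exp_log hb0]
        have h5 : Real.exp (3 * Real.log b - 1) ≤
            Real.exp (3 / 4 * ((M : ℝ) + (JJ T) - ((0 : ℕ) : ℝ))) := by
          apply Real.exp_le_exp.2
          have hM : (0 : ℝ) ≤ M := by positivity
          push_cast
          linarith
        refine le_trans ?_ h5
        rw [Real.exp_sub, h4]
        have := Real.exp_one_lt_d9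
        gcongr
        linarith
      have h6 : D * (b + 1) ≤ |D| * (2 * b) := by
        calc D * (b + 1) ≤ |D| * (b + 1) := by gcongr; exact le_abs_self D
          _ ≤ |D| * (2 * b) := by gcongr; linarith
      have h7 : |D| * (2 * b) ≤ b ^ 3 / 3 := by
        have h8 : 6 * |D| ≤ b := by linarith
        have h9 : 6 * |D| * b ≤ b * b := by gcongr
        have h10 : b * b ≤ b ^ 3 := by nlinarith [mul_pos hb0 hb0]
        linarith
      linarith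
  obtain ⟨T₀, hT₀⟩ := eventually_atTop.1 hev
  exact ⟨max T₀ 3, le_max_right _ _, fun T hT => hT₀ T ((le_max_left _ _).trans hT)⟩

lemma core : ∃ C : ℝ, 0 < C ∧ ∀ c₁ : ℝ, 0 < c₁ → ∃ M₀ : ℕ, 1 ≤ M₀ ∧ ∀ M : ℕ, M₀ ≤ M →
    ∃ T₀ : ℝ, 3 ≤ T₀ ∧ ∀ T, T₀ ≤ T → ∀ k : ℝ, 0 ≤ k → k ≤ 1 →
    ∀ g h : Finset ℕ, g ∪ h = Finset.range (JJ T + 1) → ∀ (z : ℂ) (a₂ c : ℝ), 0 ≤ c → 0 ≤ z.re →
    -c₁ ≤ a₂ → a₂ ≤ c →
    ER (SB T M (JJ T)) (fun f =>
        ‖ZZ (UU (SB T M (JJ T))) (tw ((1 / 2 : ℂ) + z / Real.log T) f)‖ ^ 2 *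
        ‖AA T M (JJ T) (k - 1) g h (tw ((1 / 2 + a₂ / Real.log T : ℝ) : ℂ) f)‖ ^ 2) ≤
      Real.exp (C * M) * (1 + ‖z‖) ^ 14 * (1 + c) ^ 14 * (Real.log T) ^ (k ^ 2) *
        ∏ j ∈ h, ss M (JJ T) j := by
  obtain ⟨Cg, hCg, good⟩ := good_block
  obtain ⟨Cb, hCb, bad⟩ := bad_block
  obtain ⟨Ct, hCt, top⟩ := top_block
  obtain ⟨Cm, hCm, hmin⟩ := sum_min
  obtain ⟨Cs, hCs, hS0⟩ := sum_inv_S0
  obtain ⟨Cr, hCr, hrange⟩ := sum_inv_block
  obtain ⟨C1, hC1, hlogdiv⟩ := sum_log_div_le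
  obtain ⟨C3, hC3, hinv⟩ := sum_inv
  set C := C3 + 28 * Cm + 15 + 8 * Cg + 165 * Real.exp (4 * Cg) + 2 * Ct with hC
  refine ⟨C, by positivity, fun c₁ hc₁ => ?_⟩
  refine ⟨⌈40 * c₁ + 100 + 80 * Cb⌉₊ + 1, by omega, fun M hM => ?_⟩
  have hMr : 40 * c₁ + 100 + 80 * Cb ≤ M := by
    have h1 := Nat.le_ceil (40 * c₁ + 100 + 80 * Cb)
    have h2 : (⌈40 * c₁ + 100 + 80 * Cb⌉₊ : ℝ) ≤ M := by exact_mod_cast (by omega :
      ⌈40 * c₁ + 100 + 80 * Cb⌉₊ ≤ M)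
    linarith
  have hM1 : 1 ≤ M := by omega
  have hM1' : (1 : ℝ) ≤ M := by exact_mod_cast hM1
  set D := Cr + 10 * (6 + 2 * (Cb + Cg) * (1 + Cs)) with hD
  obtain ⟨T₀, hT₀, hev⟩ := eventually_T M (c₁ * 20) D (c₁ * C1)
  refine ⟨T₀, hT₀, fun T hT k hk0 hk1 g h hgh z a₂ c hc hz ha2 ha2c => ?_⟩
  obtain ⟨hb1, hLc, hbet, hK0, hLc₁⟩ := hev T hT
  have hT3 : 3 ≤ T := hT₀.trans hT
  have hT1 : 1 < T := by linarith
  have hT0 : 0 < T := by linarith
  have hL : 0 < Real.log T := Real.log_pos hT1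
  set J := JJ T with hJ
  set L := Real.log T with hLdef
  set b := Real.log L with hb
  have hα : |k - 1| ≤ 1 := by rw [abs_le]; constructor <;> linarith
  have hDC : Cr ≤ D := by
    have : 0 ≤ 10 * (6 + 2 * (Cb + Cg) * (1 + Cs)) := by positivity
    linarith
  obtain ⟨hj, htop⟩ := hrange T hT3 M J (hDC.trans hbet)
  have hcM : c₁ * Real.exp (-(M : ℝ)) ≤ 1 / 40 := by
    rw [Real.exp_neg, ← div_eq_mul_inv, div_le_iff₀ (Real.exp_pos _)]
    have := Real.add_one_le_exp (M : ℝ)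
    linarith
  have hbJ : bet M J J = Real.exp (-(M : ℝ)) := by
    rw [bet]; congr 1; ring
  -- the primes of the lower blocks
  have hθ : ∀ j, j ≤ J → ∀ p ∈ Sj T M J j, c₁ * (Real.log p / L) ≤ 1 / 40 := by
    intro j hj p hp
    have hp' := (mem_Sj hT1).1 hp
    have hp1 : (0 : ℝ) < p := by exact_mod_cast hp'.1.pos
    have h1 : Real.log p ≤ bet M J J * L := by
      rw [← log_yy (le_refl J)]
      exact Real.log_le_log hp1 (hp'.2.2.trans (yy_mono hT1 M J (by omega)))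
    have h2 : Real.log p / L ≤ bet M J J := by
      rw [div_le_iff₀ hL]; exact h1
    rw [hbJ] at h2
    calc c₁ * (Real.log p / L) ≤ c₁ * Real.exp (-(M : ℝ)) := by gcongr
      _ ≤ _ := hcM
  have hre : ((1 / 2 : ℂ) + z / (L : ℂ)).re = 1 / 2 + z.re / L := by
    rw [add_re, div_ofReal_re]; norm_num
  have hyp : ∀ j, j ≤ J → ∀ p ∈ Sj T M J j,
      yp ((1 / 2 : ℂ) + z / (L : ℂ)).re (1 / 2 + a₂ / L) p ≤ 3 / 4 ∧
      yp ((1 / 2 : ℂ) + z / (L : ℂ)).re (1 / 2 + a₂ / L) p ^ 2 ≤ 2 * (1 / p) ∧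
      yp ((1 / 2 : ℂ) + z / (L : ℂ)).re (1 / 2 + a₂ / L) p ^ 4 ≤ 4 * ((p : ℝ) ^ 2)⁻¹ := by
    intro j hj p hp
    rw [hre]
    exact yp_le (prime_Sj hT1 hp) hL hz ha2 hc₁.le (by have := hθ j hj p hp; linarith)
  set w₁ : ℂ := (1 / 2 : ℂ) + z / (L : ℂ) with hw₁
  set w₂ : ℝ := 1 / 2 + a₂ / L with hw₂
  have hw₁re : 1 / 2 ≤ w₁.re := by
    rw [hre]
    have : 0 ≤ z.re / L := by positivity
    linarith
  set Y : ℕ → ℝ := fun j => ∑ p ∈ Sj T M J j, yp w₁.re w₂ p ^ 2 with hY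
  have hY0 : Y 0 ≤ 2 * (b + Cs) := by
    calc Y 0 ≤ ∑ p ∈ Sj T M J 0, 2 * (1 / (p : ℝ)) :=
          Finset.sum_le_sum fun p hp => (hyp 0 (Nat.zero_le _) p hp).2.1
      _ = 2 * ∑ p ∈ Sj T M J 0, 1 / (p : ℝ) := by rw [Finset.mul_sum]
      _ ≤ _ := by
          have := hS0 T hT3 M J
          gcongr
  have hYj : ∀ j, 1 ≤ j → j ≤ J → Y j ≤ 4 := by
    intro j h1 h2
    calc Y j ≤ ∑ p ∈ Sj T M J j, 2 * (1 / (p : ℝ)) :=
          Finset.sum_le_sum fun p hp => (hyp j h2 p hp).2.1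
      _ = 2 * ∑ p ∈ Sj T M J j, 1 / (p : ℝ) := by rw [Finset.mul_sum]
      _ ≤ 2 * 2 := by
          have := hj j h1 h2
          gcongr
      _ = 4 := by norm_num
  have hKge : ∀ j, j ≤ J → 10 * (6 + Cb * 4) ≤ KK M J j := by
    intro j hjJ
    have h1 := Real.add_one_le_exp (3 / 4 * ((M : ℝ) + J - j))
    have h2 : (j : ℝ) ≤ J := by exact_mod_cast hjJ
    unfold KK
    linarith
  have hK0' : 10 * (6 + 2 * (Cb + Cg) * (b + Cs)) ≤ KK M J 0 := by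
    refine le_trans ?_ hK0
    have h1 : 0 ≤ Cb + Cg := by positivity
    have h2 : 10 * (6 + 2 * (Cb + Cg) * (b + Cs)) ≤
        10 * (6 + 2 * (Cb + Cg) * (1 + Cs)) * (b + 1) := by
      have h3 : b + Cs ≤ (1 + Cs) * (b + 1) := by nlinarith
      have h4 : 2 * (Cb + Cg) * (b + Cs) ≤ 2 * (Cb + Cg) * ((1 + Cs) * (b + 1)) := by gcongr
      nlinarith
    have h5 : 10 * (6 + 2 * (Cb + Cg) * (1 + Cs)) * (b + 1) ≤ D * (b + 1) := by
      gcongr
      linarith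
    exact h2.trans h5
  -- bad blocks
  have hbad : ∀ j, j ≤ J → 6 + Cb * Y j ≤ KK M J j / 10 := by
    intro j hjJ
    rcases Nat.eq_zero_or_pos j with rfl | hpos
    · have h1 : Cb * Y 0 ≤ Cb * (2 * (b + Cs)) := by gcongr
      have h2 : 0 ≤ Cg * (b + Cs) := by positivity
      linarith
    · have h1 : Cb * Y j ≤ Cb * 4 := by
        have := hYj j hpos hjJ
        gcongr
      have h2 := hKge j hjJ
      linarith
  have hgood : ∀ j, j ≤ J → Real.exp (-(ll M J j : ℝ) + Cg * Y j) ≤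
      Real.exp (4 * Cg) * Real.exp (-KK M J j) := by
    intro j hjJ
    rw [← Real.exp_add]
    apply Real.exp_le_exp.2
    have hKpos := Len.KK_ge_one (M := M) hjJ
    have hl : 10 * KK M J j ≤ ll M J j := Nat.le_ceil _
    rcases Nat.eq_zero_or_pos j with rfl | hpos
    · have h1 : Cg * Y 0 ≤ Cg * (2 * (b + Cs)) := by gcongr
      have h2 : 0 ≤ Cb * (b + Cs) := by positivity
      linarith
    · have h1 : Cg * Y j ≤ Cg * 4 := by
        have := hYj j hpos hjJ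
        gcongr
      linarith
  have hh : h ⊆ Finset.range (J + 1) := by
    rw [← hgh]; exact Finset.subset_union_right
  -- the exponents
  set Ex : ℕ → ℝ := fun j => ∑ p ∈ Sj T M J j,
    (‖(p : ℂ) ^ (-w₁) + ((k - 1 : ℝ) : ℂ) * ((p : ℝ) ^ (-w₂) : ℝ)‖ ^ 2 +
        Cg * (yp w₁.re w₂ p) ^ 4) with hEx
  set F : ℕ → ℝ := fun p => k ^ 2 * (1 / p) + 14 * (1 / p * min 1 ((1 + ‖z‖) * (Real.log p / L))) +
    14 * (1 / p * min 1 ((1 + c) * (Real.log p / L))) + 14 * (c₁ / L) * (Real.log p / p) +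
    4 * Cg * ((p : ℝ) ^ 2)⁻¹ with hF
  have hθ0 : ∀ p : ℕ, 0 ≤ Real.log p / L := fun p =>
    div_nonneg (Real.log_natCast_nonneg p) hL.le
  have hF0 : ∀ p, 0 ≤ F p := by
    intro p
    have h1 := hθ0 p
    have h2 := Real.log_natCast_nonneg p
    have h3 : 0 ≤ min 1 ((1 + ‖z‖) * (Real.log p / L)) := le_min zero_le_one (by positivity)
    have h4 : 0 ≤ min 1 ((1 + c) * (Real.log p / L)) := le_min zero_le_one (by positivity)
    simp only [hF]
    positivity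
  have hExF : ∀ j, j ≤ J → Ex j ≤ ∑ p ∈ Sj T M J j, F p := by
    intro j hjJ
    refine Finset.sum_le_sum fun p hp => ?_
    have hpp := prime_Sj hT1 hp
    have hp0 : (0 : ℝ) < p := by exact_mod_cast hpp.pos
    have h4 := (hyp j hjJ p hp).2.2
    have h5 := hθ j hjJ p hp
    rw [hw₁, hw₂, norm_form hpp.pos]
    have h6 := expo_le (z := z) (a₂ := a₂) hk0 hk1 (hθ0 p) hz ha2 ha2c hc₁.le hc (by linarith)
    have h7 : min 1 (‖z‖ * (Real.log p / L)) ≤ min 1 ((1 + ‖z‖) * (Real.log p / L)) := by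
      have := hθ0 p
      gcongr
      linarith
    have h8 : min 1 (c * (Real.log p / L)) ≤ min 1 ((1 + c) * (Real.log p / L)) := by
      have := hθ0 p
      gcongr
      linarith
    have h9 : Cg * yp w₁.re w₂ p ^ 4 ≤ Cg * (4 * ((p : ℝ) ^ 2)⁻¹) := by gcongr
    calc _ ≤ 1 / p * (k ^ 2 + 14 * min 1 ((1 + ‖z‖) * (Real.log p / L)) +
          14 * min 1 ((1 + c) * (Real.log p / L)) + 14 * (c₁ * (Real.log p / L))) +
          Cg * (4 * ((p : ℝ) ^ 2)⁻¹) := by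
          gcongr
          linarith
      _ = F p := by simp only [hF]; ring
  have hsum : ∑ j ∈ Finset.range (J + 1) \ h, Ex j ≤ k ^ 2 * b + (14 * Real.log (1 + ‖z‖) +
      14 * Real.log (1 + c) + (C3 + 28 * Cm + 15 + 8 * Cg)) := by
    have h1 : ∑ j ∈ Finset.range (J + 1) \ h, Ex j ≤
        ∑ j ∈ Finset.range (J + 1) \ h, ∑ p ∈ Sj T M J j, F p := by
      refine Finset.sum_le_sum fun j hj => hExF j ?_
      have := Finset.mem_range.1 (Finset.mem_sdiff.1 hj).1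
      omega
    have h2 := sum_blocks_le hT1 M J (Finset.sdiff_subset (s := Finset.range (J + 1)) (t := h))
      F hF0
    refine h1.trans (h2.trans ?_)
    have hyy : Real.log (yy T M J (J + 1)) = Real.exp (-(M : ℝ)) * L := by
      rw [log_yy (le_refl J), hbJ]
    have hyy1 : 1 ≤ yy T M J (J + 1) := by
      rw [Len.yy_succ (le_refl J)]
      exact Real.one_le_exp (mul_nonneg (bet_pos _ _ _).le hL.le)
    have hyyT : yy T M J (J + 1) ≤ T := yy_le hT1 M J (by omega)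
    have hsub : PS 0 (yy T M J (J + 1)) ⊆ PS 0 T := PS_mono (by linarith) hyyT
    have s1 : ∑ p ∈ PS 0 (yy T M J (J + 1)), (1 : ℝ) / p ≤ b + C3 := by
      have h3 := (abs_le.1 (hinv T (by linarith))).2
      have h4 := Finset.sum_le_sum_of_subset_of_nonneg hsub
        (f := fun p : ℕ => (1 : ℝ) / p) (fun _ _ _ => by positivity)
      linarith
    have s2 : ∀ Λ : ℝ, 1 ≤ Λ → ∑ p ∈ PS 0 (yy T M J (J + 1)),
        1 / (p : ℝ) * min 1 (Λ * (Real.log p / L)) ≤ Real.log Λ + Cm := by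
      intro Λ hΛ
      refine le_trans ?_ (hmin T hT3 Λ hΛ)
      apply Finset.sum_le_sum_of_subset_of_nonneg hsub
      intro p _ _
      have h5 := hθ0 p
      have h3 : 0 ≤ min 1 (Λ * (Real.log p / L)) := le_min zero_le_one (by positivity)
      positivity
    have s3 : ∑ p ∈ PS 0 (yy T M J (J + 1)), Real.log p / (p : ℝ) ≤
        Real.exp (-(M : ℝ)) * L + C1 := by
      have := hlogdiv _ hyy1
      rwa [hyy] at this
    have s4 : ∑ p ∈ PS 0 (yy T M J (J + 1)), ((p : ℝ) ^ 2)⁻¹ ≤ 2 :=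
      sum_inv_sq fun p hp => prime_PS hp
    have t2 := s2 (1 + ‖z‖) (by linarith [norm_nonneg z])
    have t3 := s2 (1 + c) (by linarith)
    have e : ∑ p ∈ PS 0 (yy T M J (J + 1)), F p =
        k ^ 2 * ∑ p ∈ PS 0 (yy T M J (J + 1)), (1 : ℝ) / p +
        14 * ∑ p ∈ PS 0 (yy T M J (J + 1)), 1 / (p : ℝ) * min 1 ((1 + ‖z‖) * (Real.log p / L)) +
        14 * ∑ p ∈ PS 0 (yy T M J (J + 1)), 1 / (p : ℝ) * min 1 ((1 + c) * (Real.log p / L)) +
        14 * (c₁ / L) * ∑ p ∈ PS 0 (yy T M J (J + 1)), Real.log p / (p : ℝ) +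
        4 * Cg * ∑ p ∈ PS 0 (yy T M J (J + 1)), ((p : ℝ) ^ 2)⁻¹ := by
      simp only [hF, Finset.sum_add_distrib, ← Finset.mul_sum]
    rw [e]
    have hk2 : k ^ 2 ≤ 1 := pow_le_one₀ hk0 hk1
    have u1 : k ^ 2 * ∑ p ∈ PS 0 (yy T M J (J + 1)), (1 : ℝ) / p ≤ k ^ 2 * b + C3 := by
      calc _ ≤ k ^ 2 * (b + C3) := by gcongr
        _ ≤ k ^ 2 * b + 1 * C3 := by
            rw [mul_add]; gcongr
        _ = _ := by ring
    have u4 : 14 * (c₁ / L) * ∑ p ∈ PS 0 (yy T M J (J + 1)), Real.log p / (p : ℝ) ≤ 15 := by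
      calc _ ≤ 14 * (c₁ / L) * (Real.exp (-(M : ℝ)) * L + C1) := by gcongr
        _ = 14 * (c₁ * Real.exp (-(M : ℝ))) + 14 * ((c₁ * C1) / L) := by
            field_simp
        _ ≤ 14 * (1 / 40) + 14 * 1 := by
            gcongr
            rw [div_le_one hL]
            exact hLc
        _ ≤ 15 := by norm_num
    have u5 : 4 * Cg * ∑ p ∈ PS 0 (yy T M J (J + 1)), ((p : ℝ) ^ 2)⁻¹ ≤ 8 * Cg := by
      calc _ ≤ 4 * Cg * 2 := by gcongr
        _ = _ := by ring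
    linarith
  -- assembling
  rw [ER_factor hT1]
  set P := ∏ j ∈ h, ss M J j with hP
  have hP0 : 0 ≤ P := Finset.prod_nonneg fun j _ => (Real.exp_pos _).le
  have hprod : ∏ j ∈ Finset.range (J + 1), ES (Sj T M J j) (fun f => ‖ZZ (Sj T M J j) (tw w₁ f)‖ ^ 2 *
      ‖Fc T M J (k - 1) g h j (tw (w₂ : ℂ) f)‖ ^ 2) ≤ P * Real.exp (∑ j ∈ Finset.range (J + 1) \ h,
        (Ex j + 33 * (Real.exp (4 * Cg) * Real.exp (-KK M J j)))) := by
    rw [← Finset.prod_sdiff hh, mul_comm P, Real.exp_sum]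
    have hnn : ∀ j, 0 ≤ ES (Sj T M J j) (fun f => ‖ZZ (Sj T M J j) (tw w₁ f)‖ ^ 2 *
      ‖Fc T M J (k - 1) g h j (tw (w₂ : ℂ) f)‖ ^ 2) :=
      fun j => integral_nonneg fun ω => by positivity
    refine mul_le_mul ?_ ?_ (Finset.prod_nonneg fun j _ => hnn j)
      (Finset.prod_nonneg fun j _ => (Real.exp_pos _).le)
    · refine Finset.prod_le_prod (fun j _ => hnn j) fun j hj => ?_
      obtain ⟨hj1, hj2⟩ := Finset.mem_sdiff.1 hj
      have hjJ : j ≤ J := by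
        have := Finset.mem_range.1 hj1
        omega
      have hjg : j ∈ g := by
        rw [← hgh, Finset.mem_union] at hj1
        tauto
      have h1 := good M (ll M J j) (Sj T M J j) w₁ w₂ k hM1 (by linarith) hk0 hk1
        (fun p hp => prime_Sj hT1 hp) (fun p hp => (hyp j hjJ p hp).1)
      have e1 : (fun f : ℕ → ℂ => ‖ZZ (Sj T M J j) (tw w₁ f)‖ ^ 2 *
          ‖Fc T M J (k - 1) g h j (tw (w₂ : ℂ) f)‖ ^ 2) = fun f : ℕ → ℂ =>
          ‖ZZ (Sj T M J j) (tw w₁ f)‖ ^ 2 *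
          ‖Ntr (ll M J j) (k - 1) (Pj M (Sj T M J j) (tw (w₂ : ℂ) f))‖ ^ 2 := by
        funext f
        rw [Fc_good hjg hj2]
      rw [e1]
      refine h1.trans ?_
      rw [← Real.exp_add]
      apply Real.exp_le_exp.2
      have h2 := hgood j hjJ
      simp only [hEx]
      gcongr
    · refine Finset.prod_le_prod (fun j _ => hnn j) fun j hj => ?_
      have hjJ : j ≤ J := by
        have := Finset.mem_range.1 (hh hj)
        omega
      have h1 := bad M (rr M J j) (Sj T M J j) w₁ w₂ (fun f => Fc T M J (k - 1) g h j (tw (w₂ : ℂ) f))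
        hM1 (by linarith) (fun p hp => prime_Sj hT1 hp) (fun p hp => (hyp j hjJ p hp).1)
        (fun f => Fc_bad hα hjJ hj _)
      exact h1.trans (bad_num (hbad j hjJ))
  have htop' := (top (Sj T M J (J + 1)) w₁ hw₁re (fun p hp => prime_Sj hT1 hp)).trans
    (Real.exp_le_exp.2 (mul_le_mul_of_nonneg_left htop hCt))
  have hsumK : ∑ j ∈ Finset.range (J + 1) \ h, Real.exp (-KK M J j) ≤ 5 :=
    (Finset.sum_le_sum_of_subset_of_nonneg Finset.sdiff_subset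
      (fun _ _ _ => (Real.exp_pos _).le)).trans (sum_exp_KK M J)
  have hexp : ∑ j ∈ Finset.range (J + 1) \ h,
        (Ex j + 33 * (Real.exp (4 * Cg) * Real.exp (-KK M J j))) ≤
      k ^ 2 * b + (14 * Real.log (1 + ‖z‖) + 14 * Real.log (1 + c) +
        (C3 + 28 * Cm + 15 + 8 * Cg)) + 165 * Real.exp (4 * Cg) := by
    rw [Finset.sum_add_distrib]
    have h1 : ∑ j ∈ Finset.range (J + 1) \ h, 33 * (Real.exp (4 * Cg) * Real.exp (-KK M J j)) ≤
        165 * Real.exp (4 * Cg) := by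
      rw [← Finset.mul_sum, ← Finset.mul_sum]
      calc 33 * (Real.exp (4 * Cg) * ∑ j ∈ Finset.range (J + 1) \ h, Real.exp (-KK M J j))
          ≤ 33 * (Real.exp (4 * Cg) * 5) := by gcongr
        _ = _ := by ring
    linarith
  have hz1 : 0 < 1 + ‖z‖ := by positivity
  have hc1 : 0 < 1 + c := by positivity
  calc _ ≤ (P * Real.exp (k ^ 2 * b + (14 * Real.log (1 + ‖z‖) + 14 * Real.log (1 + c) +
        (C3 + 28 * Cm + 15 + 8 * Cg)) + 165 * Real.exp (4 * Cg))) * Real.exp (Ct * (M + 1)) := by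
        refine mul_le_mul (hprod.trans ?_) htop' (integral_nonneg fun ω => by positivity)
          (by positivity)
        gcongr
    _ = P * ((Real.exp (C3 + 28 * Cm + 15 + 8 * Cg + 165 * Real.exp (4 * Cg) + Ct * (M + 1))) *
        (1 + ‖z‖) ^ 14 * (1 + c) ^ 14 * L ^ (k ^ 2)) := by
        have e1 : (1 + ‖z‖) ^ 14 = Real.exp (14 * Real.log (1 + ‖z‖)) := by
          rw [show 14 * Real.log (1 + ‖z‖) = ((14 : ℕ) : ℝ) * Real.log (1 + ‖z‖) by norm_num,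
            Real.exp_nat_mul, Real.exp_log hz1]
        have e2 : (1 + c) ^ 14 = Real.exp (14 * Real.log (1 + c)) := by
          rw [show 14 * Real.log (1 + c) = ((14 : ℕ) : ℝ) * Real.log (1 + c) by norm_num,
            Real.exp_nat_mul, Real.exp_log hc1]
        rw [e1, e2, Real.rpow_def_of_pos hL, mul_assoc P, ← Real.exp_add, ← Real.exp_add,
          ← Real.exp_add, ← Real.exp_add]
        congr 2
        rw [← hb]
        ring
    _ ≤ P * (Real.exp (C * M) * (1 + ‖z‖) ^ 14 * (1 + c) ^ 14 * L ^ (k ^ 2)) := by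
        have h0 : 0 ≤ L ^ (k ^ 2) := Real.rpow_nonneg hL.le _
        gcongr
        have h1 : 0 ≤ C3 + 28 * Cm + 15 + 8 * Cg + 165 * Real.exp (4 * Cg) := by positivity
        have h2 : C3 + 28 * Cm + 15 + 8 * Cg + 165 * Real.exp (4 * Cg) ≤
          (C3 + 28 * Cm + 15 + 8 * Cg + 165 * Real.exp (4 * Cg)) * M := le_mul_of_one_le_right h1 hM1'
        have h3 : Ct ≤ Ct * M := le_mul_of_one_le_right hCt hM1'
        rw [hC]
        linarith
    _ = _ := by ring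

end XB

/-- Random second moment with the smoothed sum of zeta. -/
theorem xbound : ∃ C₀ : ℝ, 0 < C₀ ∧ ∀ c₁ : ℝ, 0 < c₁ → ∃ M₀ : ℕ, ∀ M : ℕ, M₀ ≤ M → ∀ c : ℝ, 0 ≤ c →
    ∃ T₀ : ℝ, 3 ≤ T₀ ∧ ∀ T, T₀ ≤ T → ∀ k : ℝ, 0 ≤ k → k ≤ 1 → ∀ g h : Finset ℕ,
    g ∪ h = Finset.range (JJ T + 1) → ∀ a₁ a₂ : ℝ, 0 ≤ a₁ → a₁ ≤ c → -c₁ ≤ a₂ → a₂ ≤ c →
    ER (SB T M (JJ T)) (fun f => ‖SS T (tw ((1 / 2 + a₁ / Real.log T : ℝ) : ℂ) f)‖ ^ 2 *
        ‖AA T M (JJ T) (k - 1) g h (tw ((1 / 2 + a₂ / Real.log T : ℝ) : ℂ) f)‖ ^ 2) ≤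
      Real.exp (C₀ * M) * (1 + c) ^ C₀ * (Real.log T) ^ (k ^ 2) * ∏ j ∈ h, ss M (JJ T) j := by
  obtain ⟨C, hC, core⟩ := XB.core
  obtain ⟨q, hq0, hqint, hfb⟩ := fourier_bound
  set I₀ := ∫ ξ : ℝ, q ξ * (1 + |ξ|) ^ 14 with hI₀
  have hI₀0 : 0 ≤ I₀ := integral_nonneg fun ξ => mul_nonneg (hq0 ξ) (by positivity)
  refine ⟨C + 28 + I₀, by positivity, fun c₁ hc₁ => ?_⟩
  obtain ⟨M₀, hM₀1, core⟩ := core c₁ hc₁
  refine ⟨M₀, fun M hM c hc => ?_⟩
  obtain ⟨T₀, hT₀3, core⟩ := core M hM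
  obtain ⟨T₁, hT₁3, hev⟩ := XB.eventually_T M (2 * c₁) 0 0
  refine ⟨max T₀ T₁, hT₀3.trans (le_max_left _ _), ?_⟩
  intro T hT k hk0 hk1 g h hgh a₁ a₂ ha1 ha1c ha2 ha2c
  have hTT₀ : T₀ ≤ T := (le_max_left _ _).trans hT
  obtain ⟨_, _, _, _, hLc⟩ := hev T ((le_max_right _ _).trans hT)
  have hT1 : 1 < T := by linarith
  have hL : 0 < Real.log T := Real.log_pos hT1
  have hM1 : 1 ≤ M := hM₀1.trans hM
  have hM1' : (1 : ℝ) ≤ M := by exact_mod_cast hM1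
  have hα : |k - 1| ≤ 1 := by rw [abs_le]; constructor <;> linarith
  have core := core T hTT₀ k hk0 hk1 g h hgh
  set L := Real.log T with hLdef
  set J := JJ T with hJ
  have hw₂ : 0 ≤ 1 / 2 + a₂ / L := by
    have : -(1 / 2) ≤ a₂ / L := by
      rw [le_div_iff₀ hL]; linarith
    linarith
  have hw : 0 < 1 / 2 + a₁ / L := by
    have : 0 ≤ a₁ / L := by positivity
    linarith
  set B : (ℕ → ℂ) → ℂ := fun f => AA T M J (k - 1) g h (tw ((1 / 2 + a₂ / L : ℝ) : ℂ) f) with hB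
  have hBC : BC (SB T M J) B := by
    have h1 := dp_prod (Finset.range (J + 1)) (fun j hj => Len.dp_Fc (M := M) (J := J) hT1 hM1
      (show j ≤ J by rw [Finset.mem_range] at hj; omega) hα g h)
    have h2 := h1.twist (w := ((1 / 2 + a₂ / L : ℝ) : ℂ)) (by rw [ofReal_re]; exact hw₂)
    exact h2.eval_XX
  obtain ⟨hf1, hf2⟩ := hfb (J + 2) (SB T M J) (blk_SB hT1 M J) T hT1
    (fun n h1 h2 => mem_factored hT1 M J h1 h2) (1 / 2 + a₁ / L) hw B hBC
  set P := ∏ j ∈ h, ss M J j with hP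
  have hP0 : 0 ≤ P := Finset.prod_nonneg fun j _ => (Real.exp_pos _).le
  have hLk : 0 ≤ L ^ (k ^ 2) := Real.rpow_nonneg hL.le _
  set R := Real.exp (C * M) * 7 ^ 14 * (1 + c) ^ 28 * L ^ (k ^ 2) * P with hR
  have hpt : ∀ ξ : ℝ, q ξ * ER (SB T M J) (fun f =>
        ‖ZZ (UU (SB T M J)) (tw (((1 / 2 + a₁ / L : ℝ) : ℂ) + (1 - 2 * Real.pi * ξ * I) / L) f)‖ ^ 2 *
          ‖B f‖ ^ 2) ≤ q ξ * (1 + |ξ|) ^ 14 * R := by
    intro ξ
    rw [mul_assoc (q ξ) ((1 + |ξ|) ^ 14) R]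
    apply mul_le_mul_of_nonneg_left _ (hq0 ξ)
    set z : ℂ := ((a₁ : ℝ) : ℂ) + (1 - 2 * Real.pi * ξ * I) with hz
    have hzre : z.re = a₁ + 1 := by
      rw [hz]; simp
    have e1 : (((1 / 2 + a₁ / L : ℝ) : ℂ) + (1 - 2 * Real.pi * ξ * I) / L) =
        (1 / 2 : ℂ) + z / (L : ℂ) := by
      rw [hz]; push_cast; ring
    have hzn : 1 + ‖z‖ ≤ 7 * ((1 + c) * (1 + |ξ|)) := by
      have h1 : ‖z‖ ≤ a₁ + (1 + 2 * Real.pi * |ξ|) := by
        rw [hz]
        refine (norm_add_le _ _).trans ?_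
        rw [norm_real, Real.norm_eq_abs, abs_of_nonneg ha1]
        gcongr
        refine (norm_sub_le _ _).trans ?_
        rw [norm_one, norm_mul, norm_I, mul_one, norm_mul, norm_real, norm_mul, norm_real]
        simp [abs_of_pos Real.pi_pos]
      have h2 := Real.pi_lt_d2
      have h3 : 0 ≤ |ξ| := abs_nonneg ξ
      have h4 : 2 * Real.pi * |ξ| ≤ 6.3 * |ξ| := by
        gcongr; linarith
      nlinarith [mul_nonneg hc h3]
    have h5 := core z a₂ c hc (by rw [hzre]; linarith) ha2 ha2c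
    rw [e1]
    refine h5.trans ?_
    have h6 : (1 + ‖z‖) ^ 14 ≤ 7 ^ 14 * (1 + c) ^ 14 * (1 + |ξ|) ^ 14 := by
      calc (1 + ‖z‖) ^ 14 ≤ (7 * ((1 + c) * (1 + |ξ|))) ^ 14 :=
            pow_le_pow_left₀ (by positivity) hzn 14
        _ = _ := by rw [mul_pow, mul_pow, mul_assoc]
    calc Real.exp (C * M) * (1 + ‖z‖) ^ 14 * (1 + c) ^ 14 * L ^ (k ^ 2) * P
        ≤ Real.exp (C * M) * (7 ^ 14 * (1 + c) ^ 14 * (1 + |ξ|) ^ 14) * (1 + c) ^ 14 *
          L ^ (k ^ 2) * P := by gcongr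
      _ = _ := by rw [hR]; ring
  refine hf1.trans ?_
  have h7 : ∫ ξ : ℝ, q ξ * ER (SB T M J) (fun f =>
        ‖ZZ (UU (SB T M J)) (tw (((1 / 2 + a₁ / L : ℝ) : ℂ) + (1 - 2 * Real.pi * ξ * I) / L) f)‖ ^ 2 *
          ‖B f‖ ^ 2) ≤ ∫ ξ : ℝ, q ξ * (1 + |ξ|) ^ 14 * R :=
    integral_mono hf2 ((hqint 14).mul_const R) hpt
  refine h7.trans ?_
  rw [integral_mul_const, ← hI₀, hR]
  have h8 : I₀ * (7 : ℝ) ^ 14 ≤ Real.exp ((28 + I₀) * M) := by
    have h9 : (7 : ℝ) ≤ Real.exp 2 := by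
      have := Real.exp_one_gt_d9
      have e2 : Real.exp 2 = Real.exp 1 * Real.exp 1 := by rw [← Real.exp_add]; norm_num
      rw [e2]; nlinarith
    have h10 : (7 : ℝ) ^ 14 ≤ Real.exp 28 := by
      calc (7 : ℝ) ^ 14 ≤ Real.exp 2 ^ 14 := pow_le_pow_left₀ (by norm_num) h9 14
        _ = Real.exp 28 := by rw [← Real.exp_nat_mul]; norm_num
    have h11 : I₀ ≤ Real.exp I₀ := by linarith [Real.add_one_le_exp I₀]
    calc I₀ * (7 : ℝ) ^ 14 ≤ Real.exp I₀ * Real.exp 28 := by gcongr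
      _ = Real.exp (28 + I₀) := by rw [← Real.exp_add, add_comm]
      _ ≤ _ := by
          apply Real.exp_le_exp.2
          exact le_mul_of_one_le_right (by positivity) hM1'
  have h12 : (1 + c) ^ 28 ≤ (1 + c) ^ (C + 28 + I₀) := by
    rw [← Real.rpow_natCast]
    apply Real.rpow_le_rpow_of_exponent_le (by linarith)
    push_cast
    linarith
  calc I₀ * (Real.exp (C * M) * 7 ^ 14 * (1 + c) ^ 28 * L ^ (k ^ 2) * P)
      = Real.exp (C * M) * (I₀ * 7 ^ 14) * (1 + c) ^ 28 * L ^ (k ^ 2) * P := by ring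
    _ ≤ Real.exp (C * M) * Real.exp ((28 + I₀) * M) * (1 + c) ^ (C + 28 + I₀) * L ^ (k ^ 2) * P := by
        gcongr
    _ = _ := by
        rw [← Real.exp_add]
        congr 4
        ring

end Pool.Agent.Lib.MP_973905_nt
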