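import Pool.Agent.Lib.MP_973905_nt.IngDefs
import Pool.Agent.Lib.MP_973905_nt.XBound
import Pool.Agent.Lib.MP_973905_nt.Split
import Pool.Agent.Lib.MP_973905_nt.Holder
import Pool.Agent.Lib.MP_973905_nt.TSM

/-! The ingredients at the level of the Gaussian mean: proofs. -/

namespace Pool.Agent.Lib.MP_973905_nt

open MeasureTheory ProbabilityTheory Complex Filter Topology

namespace IngM

/-! ### Functions of polynomial growth -/

/-- Continuous functions of polynomial growth. -/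
def PG (F : ℝ → ℂ) : Prop :=
  Continuous F ∧ ∃ (C : ℝ) (m : ℕ), 0 ≤ C ∧ ∀ t, ‖F t‖ ≤ C * (1 + |t|) ^ m

lemma PG.mul {F G : ℝ → ℂ} (hF : PG F) (hG : PG G) : PG (fun t => F t * G t) := by
  obtain ⟨h1, C, m, hC, h2⟩ := hF
  obtain ⟨h1', C', m', hC', h2'⟩ := hG
  refine ⟨h1.mul h1', C * C', m + m', mul_nonneg hC hC', fun t => ?_⟩
  rw [norm_mul, pow_add]
  calc ‖F t‖ * ‖G t‖ ≤ (C * (1 + |t|) ^ m) * (C' * (1 + |t|) ^ m') :=
        mul_le_mul (h2 t) (h2' t) (norm_nonneg _) (by positivity)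
    _ = _ := by ring

lemma PG.sub {F G : ℝ → ℂ} (hF : PG F) (hG : PG G) : PG (fun t => F t - G t) := by
  obtain ⟨h1, C, m, hC, h2⟩ := hF
  obtain ⟨h1', C', m', hC', h2'⟩ := hG
  refine ⟨h1.sub h1', C + C', m + m', add_nonneg hC hC', fun t => ?_⟩
  have h3 : (1 + |t|) ^ m ≤ (1 + |t|) ^ (m + m') :=
    pow_le_pow_right₀ (by linarith [abs_nonneg t]) (by omega)
  have h4 : (1 + |t|) ^ m' ≤ (1 + |t|) ^ (m + m') :=
    pow_le_pow_right₀ (by linarith [abs_nonneg t]) (by omega)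
  calc ‖F t - G t‖ ≤ ‖F t‖ + ‖G t‖ := norm_sub_le _ _
    _ ≤ C * (1 + |t|) ^ m + C' * (1 + |t|) ^ m' := add_le_add (h2 t) (h2' t)
    _ ≤ C * (1 + |t|) ^ (m + m') + C' * (1 + |t|) ^ (m + m') := by gcongr
    _ = _ := by ring

lemma PG.conj {F : ℝ → ℂ} (hF : PG F) : PG (fun t => (starRingEnd ℂ) (F t)) := by
  obtain ⟨h1, C, m, hC, h2⟩ := hF
  exact ⟨continuous_conj.comp h1, C, m, hC, fun t => by rw [RCLike.norm_conj]; exact h2 t⟩

lemma PG.integrable {F : ℝ → ℂ} (hF : PG F) (τ : ℝ) (v : NNReal) :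
    Integrable F (gaussianReal τ v) := by
  obtain ⟨h1, C, m, hC, h2⟩ := hF
  exact integrable_of_poly τ v h1.aestronglyMeasurable h2

lemma PG.integrable_sq {F : ℝ → ℂ} (hF : PG F) (τ : ℝ) (v : NNReal) :
    Integrable (fun t => ‖F t‖ ^ 2) (gaussianReal τ v) := by
  have h := (hF.mul hF).integrable τ v
  refine h.norm.congr (Filter.Eventually.of_forall fun t => ?_)
  simp only
  rw [norm_mul, sq]

lemma DP.pg {N M : ℝ} {G : (ℕ → ℂ) → ℂ} (h : DP N M G) (hN : 1 ≤ N) {σ : ℝ} (hσ : 0 ≤ σ) :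
    PG (fun t => G (fs ((σ : ℂ) + t * I))) := by
  have hM := h.M_nonneg
  obtain ⟨g, g', hgd, _, hGg, _, hgM, _⟩ := TSM.dp_poly h hN
  simp only [hGg]
  refine ⟨hgd.continuous.comp (by fun_prop), M, 0, hM, fun t => ?_⟩
  rw [pow_zero, mul_one]
  apply hgM
  simpa using hσ

lemma pg_zeta {σ : ℝ} (h1 : 1 / 2 ≤ σ) (h2 : σ ≤ 3 / 4) :
    PG (fun t => riemannZeta ((σ : ℂ) + t * I)) := by
  obtain ⟨C, hC, h⟩ := zeta_poly
  exact ⟨continuous_zeta_line (by linarith), C, 2, hC.le, fun t => h σ t h1 h2⟩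

/-! ### Transfer -/

lemma err_le : ∀ᶠ T : ℝ in atTop,
    T ^ 3 * Real.exp (-(VV T / (2 * (T ^ (9 / 10 : ℝ)) ^ 2))) ≤ 1 / T := by
  filter_upwards [eventually_poly_tail 9, eventually_ge_atTop 1] with T hT hT1
  have hT0 : 0 < T := by linarith
  rw [VV_coe hT0.le]
  have e1 : T ^ (19 / 10 : ℝ) / (2 * (T ^ (9 / 10 : ℝ)) ^ 2) = T ^ (1 / 10 : ℝ) / 2 := by
    have : T ^ (19 / 10 : ℝ) = T ^ (1 / 10 : ℝ) * (T ^ (9 / 10 : ℝ)) ^ 2 := by
      rw [← Real.rpow_natCast (T ^ (9 / 10 : ℝ)) 2, ← Real.rpow_mul hT0.le, ← Real.rpow_add hT0]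
      norm_num
    rw [this]
    have h9 : 0 < T ^ (9 / 10 : ℝ) := Real.rpow_pos_of_pos hT0 _
    field_simp
  rw [e1, Real.exp_neg, le_div_iff₀ hT0]
  have h2 : T ^ 8 ≤ Real.exp (T ^ (1 / 10 : ℝ)) := by
    refine le_trans ?_ hT
    have h3 : T ^ 8 ≤ (T ^ (9 / 10 : ℝ)) ^ 9 := by
      rw [← Real.rpow_natCast (T ^ (9 / 10 : ℝ)) 9, ← Real.rpow_mul hT0.le,
        ← Real.rpow_natCast T 8]
      exact Real.rpow_le_rpow_of_exponent_le hT1 (by norm_num)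
    have h4 : (1 : ℝ) ≤ 2 * (Nat.factorial 9 : ℕ) * Real.exp 1 := by
      have h5 : (1 : ℝ) ≤ Real.exp 1 := Real.one_le_exp zero_le_one
      have h6 : (1 : ℝ) ≤ (Nat.factorial 9 : ℕ) := by
        exact_mod_cast Nat.one_le_iff_ne_zero.mpr (Nat.factorial_ne_zero 9)
      nlinarith
    have h7 : 0 ≤ (T ^ (9 / 10 : ℝ)) ^ 9 := by positivity
    exact h3.trans (le_mul_of_one_le_left h7 h4)
  have h3 : T ^ 4 ≤ Real.exp (T ^ (1 / 10 : ℝ) / 2) := by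
    have h4 : Real.exp (T ^ (1 / 10 : ℝ)) = Real.exp (T ^ (1 / 10 : ℝ) / 2) ^ 2 := by
      rw [← Real.exp_nat_mul]; congr 1; push_cast; ring
    have h5 : (T ^ 4) ^ 2 ≤ Real.exp (T ^ (1 / 10 : ℝ) / 2) ^ 2 := by
      rw [← h4, ← pow_mul]; exact h2
    exact le_of_sq_le_sq h5 (Real.exp_pos _).le
  have hE : 0 < Real.exp (T ^ (1 / 10 : ℝ) / 2) := Real.exp_pos _
  calc T ^ 3 * (Real.exp (T ^ (1 / 10 : ℝ) / 2))⁻¹ * T
      = T ^ 4 / Real.exp (T ^ (1 / 10 : ℝ) / 2) := by rw [div_eq_mul_inv]; ring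
    _ ≤ 1 := by rw [div_le_one hE]; exact h3

section
variable {T : ℝ} (hT : 1 < T)
  (herr : T ^ 3 * Real.exp (-(VV T / (2 * (T ^ (9 / 10 : ℝ)) ^ 2))) ≤ 1 / T) (M J : ℕ) (τ : ℝ)
include hT

lemma hfac : ∀ n : ℕ, 1 ≤ n → (n : ℝ) ≤ T ^ (9 / 10 : ℝ) →
    n ∈ Nat.factoredNumbers (UU (SB T M J)) := fun n h1 h2 =>
  mem_factored hT M J h1 (h2.trans (Split.rpow_le_self' hT (by norm_num)))

lemma sq_mass : (T ^ (3 / 2 : ℝ)) ^ 2 = T ^ 3 := by
  have hT0 : 0 < T := by linarith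
  rw [← Real.rpow_natCast, ← Real.rpow_mul hT0.le, ← Real.rpow_natCast T 3]
  norm_num

include herr

lemma eg_sq {G : (ℕ → ℂ) → ℂ} (hG : DP (T ^ (9 / 10 : ℝ)) (T ^ (3 / 2 : ℝ)) G) :
    |EG T τ (fun t => ‖G (fs (t * I))‖ ^ 2) - ER (SB T M J) (fun f => ‖G f‖ ^ 2)| ≤ 1 / T := by
  have h := transfer_sq (hfac hT M J) hG le_rfl T τ
  rw [sq_mass hT] at h
  exact h.trans herr

lemma eg_mix {G H : (ℕ → ℂ) → ℂ} (hG : DP (T ^ (9 / 10 : ℝ)) (T ^ (3 / 2 : ℝ)) G)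
    (hH : DP (T ^ (9 / 10 : ℝ)) (T ^ (3 / 2 : ℝ)) H) :
    ‖EG T τ (fun t => G (fs (t * I)) * (starRingEnd ℂ) (H (fs (t * I)))) -
      ER (SB T M J) (fun f => G f * (starRingEnd ℂ) (H f))‖ ≤ 1 / T := by
  have h := transfer (hfac hT M J) hG hH le_rfl le_rfl T τ
  rw [← sq, sq_mass hT] at h
  exact h.trans herr

end

lemma dp_prodSA {T : ℝ} (hT : 1 < T) {A : (ℕ → ℂ) → ℂ}
    (hA : DP (T ^ (1 / 25 : ℝ)) (T ^ (1 / 20 : ℝ)) A) {w₁ w₂ : ℂ} (h1 : 0 ≤ w₁.re)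
    (h2 : 0 ≤ w₂.re) :
    DP (T ^ (9 / 10 : ℝ)) (T ^ (3 / 2 : ℝ)) (fun f => SS T (tw w₁ f) * A (tw w₂ f)) := by
  have hT0 : 0 < T := by linarith
  refine (((dp_SS hT).twist h1).mul (hA.twist h2)).mono ?_ ?_
  · rw [← Real.rpow_add hT0]
    exact Real.rpow_le_rpow_of_exponent_le hT.le (by norm_num)
  · rw [← Real.rpow_one_add' hT0.le (by norm_num)]
    exact Real.rpow_le_rpow_of_exponent_le hT.le (by norm_num)

lemma dp_A {T : ℝ} (hT : 1 < T) {A : (ℕ → ℂ) → ℂ}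
    (hA : DP (T ^ (1 / 25 : ℝ)) (T ^ (1 / 20 : ℝ)) A) {w : ℂ} (h1 : 0 ≤ w.re) :
    DP (T ^ (9 / 10 : ℝ)) (T ^ (3 / 2 : ℝ)) (fun f => A (tw w f)) :=
  (hA.twist h1).mono (Real.rpow_le_rpow_of_exponent_le hT.le (by norm_num))
    (Real.rpow_le_rpow_of_exponent_le hT.le (by norm_num))

section
variable {T : ℝ} (hT : 1 < T)
  (herr : T ^ 3 * Real.exp (-(VV T / (2 * (T ^ (9 / 10 : ℝ)) ^ 2))) ≤ 1 / T) (M J : ℕ) (τ : ℝ)
include hT herr

lemma tr_SA {A : (ℕ → ℂ) → ℂ} (hA : DP (T ^ (1 / 25 : ℝ)) (T ^ (1 / 20 : ℝ)) A) {w₁ w₂ : ℝ}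
    (h1 : 0 ≤ w₁) (h2 : 0 ≤ w₂) :
    EG T τ (fun t => ‖SS T (fs ((w₁ : ℂ) + t * I))‖ ^ 2 * ‖A (fs ((w₂ : ℂ) + t * I))‖ ^ 2) ≤
      ER (SB T M J) (fun f => ‖SS T (tw (w₁ : ℂ) f)‖ ^ 2 * ‖A (tw (w₂ : ℂ) f)‖ ^ 2) + 1 / T := by
  have h := eg_sq hT herr M J τ (dp_prodSA hT hA (w₁ := (w₁ : ℂ)) (w₂ := (w₂ : ℂ)) (by simpa using h1)
    (by simpa using h2))
  have e : ∀ f : ℕ → ℂ, ‖SS T (tw (w₁ : ℂ) f)‖ ^ 2 * ‖A (tw (w₂ : ℂ) f)‖ ^ 2 =
      ‖SS T (tw (w₁ : ℂ) f) * A (tw (w₂ : ℂ) f)‖ ^ 2 := fun f => by rw [norm_mul, mul_pow]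
  simp only [(dp_SS hT).fs_add, hA.fs_add, e]
  rw [abs_le] at h
  linarith [h.2]

lemma tr_A {A : (ℕ → ℂ) → ℂ} (hA : DP (T ^ (1 / 25 : ℝ)) (T ^ (1 / 20 : ℝ)) A) {w : ℝ}
    (h1 : 0 ≤ w) :
    EG T τ (fun t => ‖A (fs ((w : ℂ) + t * I))‖ ^ 2) ≤
      ER (SB T M J) (fun f => ‖A (tw (w : ℂ) f)‖ ^ 2) + 1 / T := by
  have h := eg_sq hT herr M J τ (dp_A hT hA (w := (w : ℂ)) (by simpa using h1))
  simp only [hA.fs_add]
  rw [abs_le] at h
  linarith [h.2]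

lemma tr_mix {A B : (ℕ → ℂ) → ℂ} (hA : DP (T ^ (1 / 25 : ℝ)) (T ^ (1 / 20 : ℝ)) A)
    (hB : DP (T ^ (1 / 25 : ℝ)) (T ^ (1 / 20 : ℝ)) B) {w : ℝ} (h1 : 0 ≤ w) :
    ‖EG T τ (fun t => SS T (fs ((w : ℂ) + t * I)) * A (fs ((w : ℂ) + t * I)) *
        (starRingEnd ℂ) (B (fs ((w : ℂ) + t * I)))) -
      ER (SB T M J) (fun f => SS T (tw (w : ℂ) f) * A (tw (w : ℂ) f) *
        (starRingEnd ℂ) (B (tw (w : ℂ) f)))‖ ≤ 1 / T := by
  have h := eg_mix hT herr M J τ (dp_prodSA hT hA (w₁ := (w : ℂ)) (w₂ := (w : ℂ)) (by simpa using h1)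
    (by simpa using h1)) (dp_A hT hB (w := (w : ℂ)) (by simpa using h1))
  simp only [(dp_SS hT).fs_add, hA.fs_add, hB.fs_add]
  exact h

end

/-! ### Pointwise inequalities -/

lemma pt_zeta_SS {s : ℂ} (h1 : 1 / 2 ≤ s.re) (h2 : s.re ≤ 3 / 4) (S : ℂ) :
    ‖riemannZeta s - S‖ ^ 2 ≤ 49 * ‖zt s - kp s * S‖ ^ 2 := by
  have hs1 : s ≠ 1 := by
    intro h; rw [h] at h2; simp at h2; linarith
  have hs2 : s ≠ -1 := by
    intro h; rw [h] at h1; simp at h1; linarith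
  have e : zt s - kp s * S = kp s * (riemannZeta s - S) := by
    rw [zeta_eq_zt hs1 hs2]; ring
  rw [e, norm_mul, mul_pow]
  have h3 := kp_lower h1 h2
  have h4 : (1 / 7 : ℝ) ^ 2 ≤ ‖kp s‖ ^ 2 := pow_le_pow_left₀ (by norm_num) h3 2
  have h5 : 0 ≤ ‖riemannZeta s - S‖ ^ 2 := by positivity
  nlinarith

lemma pt_split (z S a : ℂ) {η : ℝ} (hη : 0 < η) : ‖z‖ ^ 2 * ‖a‖ ^ 2 ≤
    (1 + η) * (‖S‖ ^ 2 * ‖a‖ ^ 2) + (1 + 1 / η) * (‖z - S‖ ^ 2 * ‖a‖ ^ 2) := by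
  have h1 : ‖z‖ ≤ ‖S‖ + ‖z - S‖ := by
    have := norm_add_le S (z - S)
    rwa [add_sub_cancel] at this
  have h2 : ‖z‖ ^ 2 ≤ (1 + η) * ‖S‖ ^ 2 + (1 + 1 / η) * ‖z - S‖ ^ 2 :=
    (pow_le_pow_left₀ (norm_nonneg _) h1 2).trans (sq_add_le_eta hη)
  have h3 := mul_le_mul_of_nonneg_right h2 (sq_nonneg ‖a‖)
  linarith

lemma pt_mix (x a b : ℂ) {ε : ℝ} (hε : 0 < ε) : ‖x * a * (starRingEnd ℂ) b‖ ≤
    1 / (2 * ε) * (‖x‖ ^ 2 * ‖a‖ ^ 2) + ε / 2 * ‖b‖ ^ 2 := by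
  rw [norm_mul, norm_mul, RCLike.norm_conj]
  have h : 0 ≤ (‖x‖ * ‖a‖ - ε * ‖b‖) ^ 2 / (2 * ε) := by positivity
  have e : (‖x‖ * ‖a‖ - ε * ‖b‖) ^ 2 / (2 * ε) =
      1 / (2 * ε) * (‖x‖ ^ 2 * ‖a‖ ^ 2) + ε / 2 * ‖b‖ ^ 2 - ‖x‖ * ‖a‖ * ‖b‖ := by
    field_simp
    ring
  linarith

lemma pg_of_nice {f : ℂ → ℂ} (hf : TSM.Nice f) {σ : ℝ} (h1 : 1 / 8 < σ) (h2 : σ < 10) :
    PG (fun t => f ((σ : ℂ) + t * I)) := by
  obtain ⟨C, m, hC, h⟩ := hf.growth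
  refine ⟨?_, C, m, hC, fun t => ?_⟩
  · apply hf.diff.continuousOn.comp_continuous (by fun_prop)
    intro t
    simp only [Set.mem_ofPred_eq, TSM.line_re]
    exact ⟨h1, h2⟩
  · have := h (σ + t * I) (by rw [TSM.line_re]; exact h1) (by rw [TSM.line_re]; exact h2)
    rwa [TSM.line_im] at this

/-! ### Numerics -/

lemma small_c (C₀ A B : ℝ) (hB : 0 < B) : ∀ᶠ c : ℝ in atTop,
    A * (Real.exp (-(4 / 5 * c)) * ((1 + c) ^ C₀ * (1 + c) ^ C₀ * (1 + c))) ≤ B := by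
  have h1 := (tendsto_rpow_mul_exp_neg_mul_atTop_nhds_zero (C₀ + C₀ + 1) (4 / 5) (by norm_num)).comp
    (tendsto_atTop_add_const_left atTop 1 tendsto_id)
  have h2 := h1.const_mul (A * Real.exp (4 / 5))
  rw [mul_zero] at h2
  filter_upwards [h2.eventually (eventually_le_nhds hB), eventually_ge_atTop 0] with c hc hc0
  refine le_trans (le_of_eq ?_) hc
  simp only [Function.comp, id]
  have h3 : 0 < 1 + c := by linarith
  rw [Real.rpow_add h3, Real.rpow_add h3, Real.rpow_one]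
  have h4 : Real.exp (-(4 / 5 * c)) = Real.exp (4 / 5) * Real.exp (-(4 / 5) * (1 + c)) := by
    rw [← Real.exp_add]; congr 1; ring
  rw [h4]
  ring

lemma small_T {Ct κt ε κ c c₁ : ℝ} (hCt : 0 < Ct) (hκt : 0 < κt) (hε : 0 < ε)
    (hκ0 : 0 < κ) (hκ1 : 2 * κ ≤ κt) (hκ2 : 2 * κ ≤ 1) : ∀ᶠ T : ℝ in atTop,
    3 ≤ T ∧ 4 * c ≤ Real.log T ∧ 4 * c₁ ≤ Real.log T ∧
    T ^ 3 * Real.exp (-(VV T / (2 * (T ^ (9 / 10 : ℝ)) ^ 2))) ≤ 1 / T ∧ 1 / T ≤ ε ∧
    49 * Ct * (1 / T + T ^ (-κt)) ≤ ε ∧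
    2 / T + 98 * Ct * (1 / T + T ^ (-κt)) ≤ T ^ (-κ) := by
  have t1 : Tendsto (fun T : ℝ => 1 / T) atTop (𝓝 0) := by
    simpa using tendsto_inv_atTop_zero (𝕜 := ℝ)
  have t2 : Tendsto (fun T : ℝ => T ^ (-κt)) atTop (𝓝 0) := tendsto_rpow_neg_atTop hκt
  have t3 : Tendsto (fun T : ℝ => 49 * Ct * (1 / T + T ^ (-κt))) atTop (𝓝 0) := by
    have := (t1.add t2).const_mul (49 * Ct)
    simpa using this
  filter_upwards [eventually_ge_atTop 3, Real.tendsto_log_atTop.eventually_ge_atTop (4 * c),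
    Real.tendsto_log_atTop.eventually_ge_atTop (4 * c₁), err_le,
    t1.eventually (eventually_le_nhds hε), t3.eventually (eventually_le_nhds hε),
    (tendsto_rpow_atTop hκ0).eventually_ge_atTop (2 + 196 * Ct)] with T h1 h2 h3 h4 h5 h6 h7
  refine ⟨h1, h2, h3, h4, h5, h6, ?_⟩
  have hT0 : 0 < T := by linarith
  have e1 : 1 / T ≤ T ^ (-(2 * κ)) := by
    rw [one_div, ← Real.rpow_neg_one]
    exact Real.rpow_le_rpow_of_exponent_le (by linarith) (by linarith)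
  have e2 : T ^ (-κt) ≤ T ^ (-(2 * κ)) :=
    Real.rpow_le_rpow_of_exponent_le (by linarith) (by linarith)
  have e3 : T ^ (-(2 * κ)) * T ^ κ = T ^ (-κ) := by
    rw [← Real.rpow_add hT0]; congr 1; ring
  have e4 : 0 < T ^ (-(2 * κ)) := Real.rpow_pos_of_pos hT0 _
  rw [← e3]
  calc 2 / T + 98 * Ct * (1 / T + T ^ (-κt)) = 2 * (1 / T) + 98 * Ct * (1 / T + T ^ (-κt)) := by ring
    _ ≤ 2 * T ^ (-(2 * κ)) + 98 * Ct * (T ^ (-(2 * κ)) + T ^ (-(2 * κ))) := by gcongr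
    _ = T ^ (-(2 * κ)) * (2 + 196 * Ct) := by ring
    _ ≤ _ := by gcongr

end IngM

lemma num1 {x a E : ℝ} (hx : 0 ≤ x) (ha : 0 ≤ a) (h : (1 + a) * x ≤ E) : x ≤ E ∧ a * x ≤ E := by
  constructor <;> nlinarith [mul_nonneg ha hx]

lemma num2 {x E D : ℝ} (hE : 0 ≤ E) (hD : 1 ≤ D) (h : x ≤ E) : x ≤ E * D :=
  h.trans (le_mul_of_one_le_right hE hD)

lemma num3 {ε : ℝ} (h0 : 0 < ε) (h1 : 8 * ε ≤ 1) : ε ^ 2 ≤ ε / 8 := by nlinarith

lemma num4 {ε D : ℝ} (h0 : 0 < ε) (h1 : 8 * ε ≤ 1) (hD : 1 ≤ D) :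
    ε / 2 * ((1 + ε) * D) ≤ ε * D := by
  have h2 : 0 ≤ ε * D := by positivity
  nlinarith

lemma pt_re (c T t : ℝ) : (pt c T t).re = 1 / 2 + c / Real.log T := by
  unfold pt
  rw [TSM.line_re]

open IngM in
theorem ing : ∃ C κ : ℝ, 0 < C ∧ 0 < κ ∧ ∀ δ : ℝ, 0 < δ → ∃ M₀ : ℕ, ∀ M : ℕ, M₀ ≤ M → ∀ c : ℝ,
    Real.exp (2 * M) ≤ c → c ≤ Real.exp (2 * (M + 1)) → ∃ T₀ : ℝ, 3 ≤ T₀ ∧ ∀ T, T₀ ≤ T →
    ∀ τ : ℝ, |τ| ≤ 2 * T → ∀ k : ℝ, 0 < k → k < 1 → Ing C κ δ M c T τ k := by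
  obtain ⟨C₀, hC₀, hX⟩ := xbound
  obtain ⟨c₁, Ct, κt, hc₁, hCt, hκt, htsm⟩ := tsm
  obtain ⟨Cp, hCp, hlow⟩ := prod_lower
  obtain ⟨M₁, hM₁⟩ := hX c₁ hc₁
  obtain ⟨M₂, hM₂⟩ := dp_AA
  set κ : ℝ := min κt 1 / 2 with hκ
  have hκ0 : 0 < κ := by have := lt_min hκt one_pos; positivity
  have hκ1 : 2 * κ ≤ κt := by have := min_le_left κt 1; linarith
  have hκ2 : 2 * κ ≤ 1 := by have := min_le_right κt 1; linarith
  set K1 : ℝ := Cp * (2 + 98 * Ct) with hK1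
  have hK10 : 0 < K1 := by positivity
  refine ⟨6 * C₀ + 4 + K1, κ, by positivity, hκ0, fun δ hδ => ?_⟩
  set ε : ℝ := min δ 1 / 8 with hε
  have hε0 : 0 < ε := by have := lt_min hδ one_pos; positivity
  have hεδ : 8 * ε ≤ δ := by have := min_le_left δ 1; linarith
  have hε1 : 8 * ε ≤ 1 := by have := min_le_right δ 1; linarith
  obtain ⟨M₃, hM₃⟩ := core_rand (ε / 2) (by positivity)
  obtain ⟨c₂, hc₂⟩ := eventually_atTop.mp
    (small_c C₀ (Cp * (1 + 49 * Ct)) (ε ^ 2 / 2) (by positivity))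
  refine ⟨max (max M₁ M₂) (max M₃ (max 1 ⌈max c₁ c₂⌉₊)), fun M hM c hcl hcu => ?_⟩
  have hMM₁ : M₁ ≤ M := (le_max_left _ _).trans ((le_max_left _ _).trans hM)
  have hMM₂ : M₂ ≤ M := (le_max_right _ _).trans ((le_max_left _ _).trans hM)
  have hMM₃ : M₃ ≤ M := (le_max_left _ _).trans ((le_max_right _ _).trans hM)
  have hM1n : 1 ≤ M :=
    (le_max_left _ _).trans ((le_max_right _ _).trans ((le_max_right _ _).trans hM))
  have hM1 : (1 : ℝ) ≤ M := by exact_mod_cast hM1n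
  have hMcn : ⌈max c₁ c₂⌉₊ ≤ M :=
    (le_max_right _ _).trans ((le_max_right _ _).trans ((le_max_right _ _).trans hM))
  have hMc : max c₁ c₂ ≤ M := (Nat.le_ceil _).trans (by exact_mod_cast hMcn)
  have hMe : (M : ℝ) + 1 ≤ Real.exp M := Real.add_one_le_exp _
  have hMe2 : Real.exp M ≤ Real.exp (2 * M) := Real.exp_le_exp.mpr (by linarith)
  have hcc₁ : c₁ ≤ c := by have := le_max_left c₁ c₂; linarith
  have hcc₂ : c₂ ≤ c := by have := le_max_right c₁ c₂; linarith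
  have hc1 : 1 ≤ c := by linarith
  have hc0 : 0 ≤ c := by linarith
  have hβ : Real.exp M ≤ c * Real.exp (-(M : ℝ)) := by
    calc Real.exp M = Real.exp (2 * M) * Real.exp (-(M : ℝ)) := by
          rw [← Real.exp_add]; congr 1; ring
      _ ≤ _ := by gcongr
  have hβ1 : Real.exp (-(M : ℝ)) ≤ 1 := by rw [Real.exp_le_one_iff]; linarith
  -- the constant `Y`
  set Y : ℝ := Real.exp (C₀ * M) * (1 + c) ^ C₀ * (Cp * c) with hY
  have hY0 : 0 ≤ Y := by positivity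
  have hN1 : (1 + 49 * Ct) * (Real.exp (-(4 / 5 * c)) * Y) ≤ ε ^ 2 / 2 := by
    refine le_trans ?_ (hc₂ c hcc₂)
    have h1 : Real.exp (C₀ * M) ≤ (1 + c) ^ C₀ := by
      rw [mul_comm, Real.exp_mul]
      exact Real.rpow_le_rpow (Real.exp_pos _).le (by linarith) hC₀.le
    have h2 : c ≤ 1 + c := by linarith
    calc (1 + 49 * Ct) * (Real.exp (-(4 / 5 * c)) * Y)
        ≤ (1 + 49 * Ct) * (Real.exp (-(4 / 5 * c)) *
          ((1 + c) ^ C₀ * (1 + c) ^ C₀ * (Cp * (1 + c)))) := by rw [hY]; gcongr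
      _ = _ := by ring
  have hN3 : Y * (2 + 98 * Ct) ≤ Real.exp ((6 * C₀ + 4 + K1) * M) := by
    have h1 : 1 + c ≤ Real.exp (2 * M + 3) := by
      have h2 : (2 : ℝ) ≤ Real.exp 1 := by have := Real.add_one_le_exp (1 : ℝ); linarith
      calc 1 + c ≤ 2 * c := by linarith
        _ ≤ Real.exp 1 * Real.exp (2 * (M + 1)) := by gcongr
        _ = _ := by rw [← Real.exp_add]; congr 1; ring
    have h3 : (1 + c) ^ C₀ ≤ Real.exp (C₀ * (2 * M + 3)) := by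
      rw [mul_comm, Real.exp_mul]
      exact Real.rpow_le_rpow (by linarith) h1 hC₀.le
    have h4 : K1 ≤ Real.exp (K1 * M) := by
      have h5 := Real.add_one_le_exp (K1 * M)
      nlinarith
    calc Y * (2 + 98 * Ct) = Real.exp (C₀ * M) * (1 + c) ^ C₀ * c * K1 := by rw [hY, hK1]; ring
      _ ≤ Real.exp (C₀ * M) * Real.exp (C₀ * (2 * M + 3)) * Real.exp (2 * (M + 1)) *
          Real.exp (K1 * M) := by gcongr
      _ = Real.exp (C₀ * M + C₀ * (2 * M + 3) + 2 * (M + 1) + K1 * M) := by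
          rw [← Real.exp_add, ← Real.exp_add, ← Real.exp_add]
      _ ≤ _ := by
          apply Real.exp_le_exp.mpr
          nlinarith
  -- thresholds
  obtain ⟨T₁, hT₁3, hT₁⟩ := hM₁ M hMM₁ c hc0
  obtain ⟨T₂, hT₂⟩ := hM₂ M hMM₂
  obtain ⟨T₃, hT₃3, hT₃⟩ := hM₃ M hMM₃ c (by linarith)
  obtain ⟨T₄, hT₄⟩ := hlow c (Real.exp (-(M : ℝ))) (Real.exp_pos _) hβ1 (by linarith)
  obtain ⟨T₅, hT₅3, hT₅⟩ := htsm c hc0
  obtain ⟨T₆, hT₆⟩ := eventually_atTop.mp (small_T (Ct := Ct) (κt := κt) (ε := ε ^ 2 / 2) (κ := κ)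
    (c := c) (c₁ := c₁) hCt hκt (by positivity) hκ0 hκ1 hκ2)
  refine ⟨max (max T₁ T₂) (max (max T₃ T₄) (max T₅ T₆)), hT₁3.trans ((le_max_left _ _).trans
    (le_max_left _ _)), fun T hT τ hτ k hk0 hk1 => ?_⟩
  have hTT₁ : T₁ ≤ T := (le_max_left _ _).trans ((le_max_left _ _).trans hT)
  have hTT₂ : T₂ ≤ T := (le_max_right _ _).trans ((le_max_left _ _).trans hT)
  have hTT₃ : T₃ ≤ T :=
    (le_max_left _ _).trans ((le_max_left _ _).trans ((le_max_right _ _).trans hT))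
  have hTT₄ : T₄ ≤ T :=
    (le_max_right _ _).trans ((le_max_left _ _).trans ((le_max_right _ _).trans hT))
  have hTT₅ : T₅ ≤ T :=
    (le_max_left _ _).trans ((le_max_right _ _).trans ((le_max_right _ _).trans hT))
  have hTT₆ : T₆ ≤ T :=
    (le_max_right _ _).trans ((le_max_right _ _).trans ((le_max_right _ _).trans hT))
  obtain ⟨hT3, hLc, hLc₁, herr, hTε, hTR, hTκ⟩ := hT₆ T hTT₆
  have hT1 : 1 < T := by linarith
  have hT0 : 0 < T := by linarith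
  have hL : 0 < Real.log T := Real.log_pos hT1
  set J := JJ T with hJ
  set σ : ℝ := 1 / 2 + c / Real.log T with hσdef
  have hσ1 : 1 / 2 ≤ σ := by
    have : 0 ≤ c / Real.log T := by positivity
    linarith
  have hσ2 : σ ≤ 3 / 4 := by
    have : c / Real.log T ≤ 1 / 4 := by rw [div_le_iff₀ hL]; linarith
    linarith
  set D : ℝ := DJ k σ T M J with hD
  have hD1 : 1 ≤ D := by
    rw [hD, DJ]
    exact Finset.one_le_prod fun j _ => DS_ge_one hk0 hσ1 fun p hp => prime_Sj hT1 hp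
  have hlowD : Real.log T ^ (k ^ 2) ≤ Cp * c * D := by
    rw [hD, DJ_eq hT1]
    exact hT₄ T hTT₄ k hk0 hk1.le
  have hAA : ∀ g h : Finset ℕ, DP (T ^ (1 / 25 : ℝ)) (T ^ (1 / 20 : ℝ)) (AA T M J (k - 1) g h) :=
    hT₂ T hTT₂ (k - 1) (by rw [abs_le]; constructor <;> linarith)
  have hBB : ∀ g h : Finset ℕ, DP (T ^ (1 / 25 : ℝ)) (T ^ (1 / 20 : ℝ)) (AA T M J k g h) :=
    hT₂ T hTT₂ k (by rw [abs_le]; constructor <;> linarith)
  have hN25 : 1 ≤ T ^ (1 / 25 : ℝ) := Real.one_le_rpow hT1.le (by norm_num)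
  have hN85 : 1 ≤ T ^ (85 / 100 : ℝ) := Real.one_le_rpow hT1.le (by norm_num)
  have hss : ∀ h : Finset ℕ, 0 ≤ ∏ j ∈ h, ss M J j := fun h =>
    Finset.prod_nonneg fun j _ => (Real.exp_pos _).le
  -- the random bound
  have hXX : ∀ g h : Finset ℕ, g ∪ h = Finset.range (J + 1) → ∀ a₁ a₂ : ℝ, 0 ≤ a₁ → a₁ ≤ c →
      -c₁ ≤ a₂ → a₂ ≤ c →
      ER (SB T M J) (fun f => ‖SS T (tw ((1 / 2 + a₁ / Real.log T : ℝ) : ℂ) f)‖ ^ 2 *
        ‖AA T M J (k - 1) g h (tw ((1 / 2 + a₂ / Real.log T : ℝ) : ℂ) f)‖ ^ 2) ≤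
      Y * D * ∏ j ∈ h, ss M J j := by
    intro g h hgh a₁ a₂ h1 h2 h3 h4
    refine (hT₁ T hTT₁ k hk0.le hk1.le g h hgh a₁ a₂ h1 h2 h3 h4).trans ?_
    have h5 := hss h
    calc Real.exp (C₀ * M) * (1 + c) ^ C₀ * Real.log T ^ (k ^ 2) * ∏ j ∈ h, ss M J j
        ≤ Real.exp (C₀ * M) * (1 + c) ^ C₀ * (Cp * c * D) * ∏ j ∈ h, ss M J j := by gcongr
      _ = _ := by rw [hY]; ring
  -- polynomial growth
  have pgζ : PG (fun t => riemannZeta (pt c T t)) := pg_zeta hσ1 hσ2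
  have pgS : PG (fun t => SS T (fs (pt c T t))) := DP.pg (dp_SS hT1) hN85 (by linarith)
  have pgA : ∀ g h : Finset ℕ, PG (fun t => AA T M J (k - 1) g h (fs (pt c T t))) := fun g h =>
    DP.pg (hAA g h) hN25 (by linarith)
  have pgB : ∀ g h : Finset ℕ, PG (fun t => AA T M J k g h (fs (pt c T t))) := fun g h =>
    DP.pg (hBB g h) hN25 (by linarith)
  have pgzt : PG (fun t => zt (pt c T t) - kp (pt c T t) * SS T (fs (pt c T t))) :=
    (pg_of_nice TSM.nice_zt (σ := σ) (by linarith) (by linarith)).sub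
      ((pg_of_nice TSM.nice_kp (σ := σ) (by linarith) (by linarith)).mul pgS)
  have isq : ∀ {F G : ℝ → ℂ}, PG F → PG G →
      Integrable (fun t => ‖F t‖ ^ 2 * ‖G t‖ ^ 2) (gaussianReal τ (VV T)) := by
    intro F G hF hG
    have := (hF.mul hG).integrable_sq τ (VV T)
    simpa only [norm_mul, mul_pow] using this
  -- the difference of zeta and its partial sum
  have hR : ∀ g h : Finset ℕ, g ∪ h = Finset.range (J + 1) →
      EG T τ (fun t => ‖riemannZeta (pt c T t) - SS T (fs (pt c T t))‖ ^ 2 *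
        ‖AA T M J (k - 1) g h (fs (pt c T t))‖ ^ 2) ≤
      49 * (Ct * Real.exp (-(13 / 10 * c)) *
        (Y * D * ∏ j ∈ h, ss M J j + 1 / T + T ^ (-κt))) := by
    intro g h hgh
    have h1 : EG T τ (fun t => ‖riemannZeta (pt c T t) - SS T (fs (pt c T t))‖ ^ 2 *
        ‖AA T M J (k - 1) g h (fs (pt c T t))‖ ^ 2) ≤
        49 * EG T τ (fun t => ‖zt (pt c T t) - kp (pt c T t) * SS T (fs (pt c T t))‖ ^ 2 *
        ‖AA T M J (k - 1) g h (fs (pt c T t))‖ ^ 2) := by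
      unfold EG
      rw [← integral_const_mul]
      refine integral_mono (isq (pgζ.sub pgS) (pgA g h)) ((isq pgzt (pgA g h)).const_mul 49)
        fun t => ?_
      simp only
      have h2 := pt_zeta_SS (s := pt c T t) (by rw [pt_re]; exact hσ1) (by rw [pt_re]; exact hσ2)
        (SS T (fs (pt c T t)))
      rw [← mul_assoc]
      gcongr
    refine h1.trans ?_
    gcongr
    refine hT₅ T hTT₅ τ hτ (AA T M J (k - 1) g h) (hAA g h)
      (Y * D * ∏ j ∈ h, ss M J j + 1 / T) ?_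
    intro w₁ w₂ hw1 hw2 hw3
    rw [abs_le] at hw3
    have e1 : w₁ = 1 / 2 + (w₁ - 1 / 2) * Real.log T / Real.log T := by field_simp; ring
    have e2 : w₂ = 1 / 2 + (w₂ - 1 / 2) * Real.log T / Real.log T := by field_simp; ring
    have hδ : c₁ / Real.log T ≤ 1 / 4 := by rw [div_le_iff₀ hL]; linarith
    have h3 := tr_SA hT1 herr M J τ (hAA g h) (w₁ := w₁) (w₂ := w₂) (by linarith) (by linarith)
    refine h3.trans ?_
    gcongr
    have h4 := hXX g h hgh ((w₁ - 1 / 2) * Real.log T) ((w₂ - 1 / 2) * Real.log T)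
      (mul_nonneg (by linarith) hL.le) (by
        have : (w₁ - 1 / 2) ≤ c₁ / Real.log T := by linarith
        rw [le_div_iff₀ hL] at this
        linarith) (by
        have : -(w₂ - 1 / 2) ≤ c₁ / Real.log T := by linarith
        rw [le_div_iff₀ hL] at this
        linarith) (by
        have : (w₂ - 1 / 2) ≤ c₁ / Real.log T := by linarith
        rw [le_div_iff₀ hL] at this
        linarith)
    rw [← e1, ← e2] at h4
    exact h4
  -- second moment of the partial sum, general form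
  have hS2 : ∀ g h : Finset ℕ, g ∪ h = Finset.range (J + 1) →
      EG T τ (fun t => ‖SS T (fs (pt c T t))‖ ^ 2 *
        ‖AA T M J (k - 1) g h (fs (pt c T t))‖ ^ 2) ≤ Y * D * ∏ j ∈ h, ss M J j + 1 / T := by
    intro g h hgh
    have h1 := tr_SA hT1 herr M J τ (hAA g h) (w₁ := σ) (w₂ := σ) (by linarith) (by linarith)
    refine h1.trans ?_
    gcongr
    exact hXX g h hgh c c hc0 le_rfl (by linarith) le_rfl
  -- second moment of the partial sum, sharp form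
  have hε2 : ε ^ 2 ≤ ε / 8 := num3 hε0 hε1
  have hEY0 : 0 ≤ Real.exp (-(4 / 5 * c)) * Y := by positivity
  obtain ⟨hN1', hN1''⟩ := num1 hEY0 (by positivity : 0 ≤ 49 * Ct) hN1
  have hTD : 1 / T ≤ ε ^ 2 / 2 * D := num2 (by positivity) hD1 hTε
  have hgr : Finset.range (J + 1) ∪ ∅ = Finset.range (J + 1) := Finset.union_empty _
  have hE1 : EG T τ (fun t => ‖SS T (fs (pt c T t))‖ ^ 2 *
      ‖AA T M J (k - 1) (Finset.range (J + 1)) ∅ (fs (pt c T t))‖ ^ 2) ≤ (1 + ε) * D := by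
    have h1 := tr_SA hT1 herr M J τ (hAA (Finset.range (J + 1)) ∅) (w₁ := σ) (w₂ := σ)
      (by linarith) (by linarith)
    have h2 := ss_split (blk_SB hT1 M J) hT1 (fun n a b => mem_factored hT1 M J a b)
      ((hAA (Finset.range (J + 1)) ∅).mono
        (Real.rpow_le_rpow_of_exponent_le hT1.le (by norm_num : (1 / 25 : ℝ) ≤ 1 / 10)) le_rfl)
      (σ := σ) (σ₁ := 1 / 2 + c / 2 / Real.log T) (by
        have : 0 ≤ c / 2 / Real.log T := by positivity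
        linarith) (by
        rw [hσdef]
        gcongr
        linarith)
    have h3 := (hT₃ T hTT₃ k hk0 hk1).1
    have h4 := hXX (Finset.range (J + 1)) ∅ hgr (c / 2) (c / 2) (by linarith) (by linarith)
      (by linarith) (by linarith)
    rw [Finset.prod_empty, mul_one] at h4
    have e1 : T ^ (-(8 / 5 : ℝ) * (σ - (1 / 2 + c / 2 / Real.log T))) = Real.exp (-(4 / 5 * c)) := by
      rw [Real.rpow_def_of_pos hT0]
      congr 1
      rw [hσdef]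
      field_simp
      ring
    rw [e1] at h2
    have h5 : Real.exp (-(4 / 5 * c)) * ER (SB T M J) (fun f =>
        ‖SS T (tw ((1 / 2 + c / 2 / Real.log T : ℝ) : ℂ) f)‖ ^ 2 *
        ‖AA T M J (k - 1) (Finset.range (J + 1)) ∅ (tw ((1 / 2 + c / 2 / Real.log T : ℝ) : ℂ) f)‖ ^ 2) ≤
        ε ^ 2 / 2 * D := by
      calc _ ≤ Real.exp (-(4 / 5 * c)) * (Y * D) := by gcongr
        _ = Real.exp (-(4 / 5 * c)) * Y * D := by ring
        _ ≤ _ := by gcongr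
    calc _ ≤ _ := h1
      _ ≤ ((1 + ε / 2) * D + ε ^ 2 / 2 * D) + ε ^ 2 / 2 * D := by
          linarith
      _ = (1 + ε / 2 + ε ^ 2) * D := by ring
      _ ≤ (1 + ε) * D := mul_le_mul_of_nonneg_right (by linarith) (by linarith)
  have hE2 : EG T τ (fun t => ‖riemannZeta (pt c T t) - SS T (fs (pt c T t))‖ ^ 2 *
      ‖AA T M J (k - 1) (Finset.range (J + 1)) ∅ (fs (pt c T t))‖ ^ 2) ≤ ε ^ 2 * D := by
    have h1 := hR (Finset.range (J + 1)) ∅ hgr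
    rw [Finset.prod_empty, mul_one] at h1
    refine h1.trans ?_
    have h2 : Real.exp (-(13 / 10 * c)) ≤ Real.exp (-(4 / 5 * c)) :=
      Real.exp_le_exp.mpr (by linarith)
    have h3 : Real.exp (-(13 / 10 * c)) ≤ 1 := by
      rw [Real.exp_le_one_iff]; linarith
    have h4 : 0 ≤ 1 / T + T ^ (-κt) := by positivity
    calc 49 * (Ct * Real.exp (-(13 / 10 * c)) * (Y * D + 1 / T + T ^ (-κt)))
        = 49 * Ct * (Real.exp (-(13 / 10 * c)) * Y) * D +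
          Real.exp (-(13 / 10 * c)) * (49 * Ct * (1 / T + T ^ (-κt))) := by ring
      _ ≤ 49 * Ct * (Real.exp (-(4 / 5 * c)) * Y) * D + 1 * (49 * Ct * (1 / T + T ^ (-κt))) := by
          gcongr
      _ ≤ ε ^ 2 / 2 * D + ε ^ 2 / 2 * D := by
          have h7 : 0 ≤ ε ^ 2 / 2 := by positivity
          refine add_le_add (by gcongr) ?_
          rw [one_mul]
          exact num2 h7 hD1 hTR
      _ = _ := by ring
  have hE3 : EG T τ (fun t => ‖AA T M J k (Finset.range (J + 1)) ∅ (fs (pt c T t))‖ ^ 2) ≤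
      (1 + ε) * D := by
    have h1 := tr_A hT1 herr M J τ (hBB (Finset.range (J + 1)) ∅) (w := σ) (by linarith)
    have h2 := (hT₃ T hTT₃ k hk0 hk1).2.1 (Finset.range (J + 1)) ∅ hgr
    rw [Finset.prod_empty, mul_one] at h2
    calc _ ≤ _ := h1
      _ ≤ (1 + ε / 2) * D + ε ^ 2 / 2 * D := by linarith
      _ = (1 + ε / 2 + ε ^ 2 / 2) * D := by ring
      _ ≤ (1 + ε) * D := mul_le_mul_of_nonneg_right (by linarith) (by linarith)
  have hE4 : ‖EG T τ (fun t => SS T (fs (pt c T t)) *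
      AA T M J (k - 1) (Finset.range (J + 1)) ∅ (fs (pt c T t)) *
      (starRingEnd ℂ) (AA T M J k (Finset.range (J + 1)) ∅ (fs (pt c T t)))) - (D : ℂ)‖ ≤ ε * D := by
    have h1 := tr_mix hT1 herr M J τ (hAA (Finset.range (J + 1)) ∅) (hBB (Finset.range (J + 1)) ∅)
      (w := σ) (by linarith)
    have h2 := ss_mixed (blk_SB hT1 M J) hT1 (fun n a b => mem_factored hT1 M J a b)
      ((hAA (Finset.range (J + 1)) ∅).mono
        (Real.rpow_le_rpow_of_exponent_le hT1.le (by norm_num : (1 / 25 : ℝ) ≤ 1 / 10)) le_rfl)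
      ((hBB (Finset.range (J + 1)) ∅).mono
        (Real.rpow_le_rpow_of_exponent_le hT1.le (by norm_num : (1 / 25 : ℝ) ≤ 1 / 10)) le_rfl)
      hσ1
    have h3 := (hT₃ T hTT₃ k hk0 hk1).2.2
    rw [h2] at h1
    have h7 := norm_add_le_of_le h1 h3
    rw [sub_add_sub_cancel] at h7
    refine h7.trans ?_
    calc 1 / T + ε / 2 * D ≤ ε ^ 2 / 2 * D + ε / 2 * D := by gcongr
      _ = (ε ^ 2 / 2 + ε / 2) * D := by ring
      _ ≤ ε * D := mul_le_mul_of_nonneg_right (by linarith) (by linarith)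
  refine ⟨?_, ?_, ?_, ?_⟩
  · -- (I1)
    have h1 : EG T τ (fun t => ‖riemannZeta (pt c T t)‖ ^ 2 *
        ‖AA T M J (k - 1) (Finset.range (J + 1)) ∅ (fs (pt c T t))‖ ^ 2) ≤
        (1 + ε) * EG T τ (fun t => ‖SS T (fs (pt c T t))‖ ^ 2 *
        ‖AA T M J (k - 1) (Finset.range (J + 1)) ∅ (fs (pt c T t))‖ ^ 2) +
        (1 + 1 / ε) * EG T τ (fun t => ‖riemannZeta (pt c T t) - SS T (fs (pt c T t))‖ ^ 2 *
        ‖AA T M J (k - 1) (Finset.range (J + 1)) ∅ (fs (pt c T t))‖ ^ 2) := by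
      unfold EG
      rw [← integral_const_mul, ← integral_const_mul, ← integral_add
        ((isq pgS (pgA _ _)).const_mul _) ((isq (pgζ.sub pgS) (pgA _ _)).const_mul _)]
      exact integral_mono (isq pgζ (pgA _ _)) (((isq pgS (pgA _ _)).const_mul _).add
        ((isq (pgζ.sub pgS) (pgA _ _)).const_mul _)) fun t => pt_split _ _ _ hε0
    refine h1.trans ?_
    have h2 : (1 + 1 / ε) * (ε ^ 2 * D) = (ε ^ 2 + ε) * D := by field_simp
    calc _ ≤ (1 + ε) * ((1 + ε) * D) + (1 + 1 / ε) * (ε ^ 2 * D) := by gcongr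
      _ = (1 + 3 * ε + 2 * ε ^ 2) * D := by rw [h2]; ring
      _ ≤ (1 + δ) * D := mul_le_mul_of_nonneg_right (by linarith) (by linarith)
  · -- (I2)
    refine hE3.trans ?_
    gcongr
    linarith
  · -- (I3)
    set A : ℝ → ℂ := fun t => AA T M J (k - 1) (Finset.range (J + 1)) ∅ (fs (pt c T t)) with hA
    set B : ℝ → ℂ := fun t => AA T M J k (Finset.range (J + 1)) ∅ (fs (pt c T t)) with hB
    have pA : PG A := pgA _ _
    have pB : PG B := pgB _ _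
    have e1 : EG T τ (fun t => riemannZeta (pt c T t) * A t * (starRingEnd ℂ) (B t)) =
        EG T τ (fun t => SS T (fs (pt c T t)) * A t * (starRingEnd ℂ) (B t)) +
        EG T τ (fun t => (riemannZeta (pt c T t) - SS T (fs (pt c T t))) * A t *
          (starRingEnd ℂ) (B t)) := by
      unfold EG
      rw [← integral_add (((pgS.mul pA).mul pB.conj).integrable _ _)
        ((((pgζ.sub pgS).mul pA).mul pB.conj).integrable _ _)]
      congr 1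
      funext t
      ring
    have h2 : ‖EG T τ (fun t => (riemannZeta (pt c T t) - SS T (fs (pt c T t))) * A t *
          (starRingEnd ℂ) (B t))‖ ≤ 1 / (2 * ε) * (ε ^ 2 * D) + ε / 2 * ((1 + ε) * D) := by
      unfold EG
      refine (norm_integral_le_integral_norm _).trans ?_
      have h3 : ∫ t, ‖(riemannZeta (pt c T t) - SS T (fs (pt c T t))) * A t *
          (starRingEnd ℂ) (B t)‖ ∂(gaussianReal τ (VV T)) ≤
          ∫ t, (1 / (2 * ε) * (‖riemannZeta (pt c T t) - SS T (fs (pt c T t))‖ ^ 2 * ‖A t‖ ^ 2) +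
            ε / 2 * ‖B t‖ ^ 2) ∂(gaussianReal τ (VV T)) :=
        integral_mono ((((pgζ.sub pgS).mul pA).mul pB.conj).integrable _ _).norm
          (((isq (pgζ.sub pgS) pA).const_mul _).add ((pB.integrable_sq _ _).const_mul _))
          fun t => pt_mix _ _ _ hε0
      refine h3.trans ?_
      rw [integral_add ((isq (pgζ.sub pgS) pA).const_mul _) ((pB.integrable_sq _ _).const_mul _),
        integral_const_mul, integral_const_mul]
      have h4 : ∫ t, ‖riemannZeta (pt c T t) - SS T (fs (pt c T t))‖ ^ 2 * ‖A t‖ ^ 2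
        ∂(gaussianReal τ (VV T)) ≤ ε ^ 2 * D := hE2
      have h5 : ∫ t, ‖B t‖ ^ 2 ∂(gaussianReal τ (VV T)) ≤ (1 + ε) * D := hE3
      gcongr
    have h3 : 1 / (2 * ε) * (ε ^ 2 * D) = ε / 2 * D := by field_simp
    rw [h3] at h2
    rw [e1]
    have h4 : ‖(D : ℂ)‖ = D := by
      rw [norm_real, Real.norm_eq_abs, abs_of_nonneg (by linarith)]
    set u := EG T τ (fun t => SS T (fs (pt c T t)) * A t * (starRingEnd ℂ) (B t)) with hu
    set v := EG T τ (fun t => (riemannZeta (pt c T t) - SS T (fs (pt c T t))) * A t *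
          (starRingEnd ℂ) (B t)) with hv
    have h5 : ‖(D : ℂ)‖ ≤ ‖u + v‖ + ‖u - D‖ + ‖v‖ := by
      have : (D : ℂ) = (u + v) - (u - D) - v := by ring
      calc ‖(D : ℂ)‖ = ‖(u + v) - (u - D) - v‖ := by rw [← this]
        _ ≤ ‖(u + v) - (u - D)‖ + ‖v‖ := norm_sub_le _ _
        _ ≤ _ := by gcongr; exact norm_sub_le _ _
    rw [h4] at h5
    have h6 : ε / 2 * ((1 + ε) * D) ≤ ε * D := num4 hε0 hε1 hD1
    have h7 : 3 * ε * D ≤ δ * D := by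
      have : 3 * ε ≤ δ := by linarith
      gcongr
    have h8 : ‖u - D‖ ≤ ε * D := hE4
    have h9 : 0 ≤ ε * D := by positivity
    change (1 - δ) * D ≤ ‖u + v‖
    linarith
  · -- (I4)
    intro g h hgh
    have hP := hss h
    constructor
    · have h1 : EG T τ (fun t => ‖riemannZeta (pt c T t)‖ ^ 2 *
          ‖AA T M J (k - 1) g h (fs (pt c T t))‖ ^ 2) ≤
          (1 + 1) * EG T τ (fun t => ‖SS T (fs (pt c T t))‖ ^ 2 *
          ‖AA T M J (k - 1) g h (fs (pt c T t))‖ ^ 2) +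
          (1 + 1 / 1) * EG T τ (fun t => ‖riemannZeta (pt c T t) - SS T (fs (pt c T t))‖ ^ 2 *
          ‖AA T M J (k - 1) g h (fs (pt c T t))‖ ^ 2) := by
        unfold EG
        rw [← integral_const_mul, ← integral_const_mul, ← integral_add
          ((isq pgS (pgA _ _)).const_mul _) ((isq (pgζ.sub pgS) (pgA _ _)).const_mul _)]
        exact integral_mono (isq pgζ (pgA _ _)) (((isq pgS (pgA _ _)).const_mul _).add
          ((isq (pgζ.sub pgS) (pgA _ _)).const_mul _)) fun t => pt_split _ _ _ one_pos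
      have h2 := hS2 g h hgh
      have h3 := hR g h hgh
      have h4 : Real.exp (-(13 / 10 * c)) ≤ 1 := by rw [Real.exp_le_one_iff]; linarith
      have h5 : 0 ≤ Y * D * ∏ j ∈ h, ss M J j + 1 / T + T ^ (-κt) := by positivity
      have h6 : 49 * (Ct * Real.exp (-(13 / 10 * c)) *
          (Y * D * ∏ j ∈ h, ss M J j + 1 / T + T ^ (-κt))) ≤
          49 * (Ct * 1 * (Y * D * ∏ j ∈ h, ss M J j + 1 / T + T ^ (-κt))) := by gcongr
      have h7 : Y * (2 + 98 * Ct) * (D * ∏ j ∈ h, ss M J j) ≤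
          Real.exp ((6 * C₀ + 4 + K1) * M) * (D * ∏ j ∈ h, ss M J j) := by gcongr
      calc _ ≤ _ := h1
        _ ≤ (1 + 1) * (Y * D * ∏ j ∈ h, ss M J j + 1 / T) +
            (1 + 1 / 1) * (49 * (Ct * 1 * (Y * D * ∏ j ∈ h, ss M J j + 1 / T + T ^ (-κt)))) := by
            gcongr
            exact h3.trans h6
        _ = Y * (2 + 98 * Ct) * (D * ∏ j ∈ h, ss M J j) +
            (2 / T + 98 * Ct * (1 / T + T ^ (-κt))) := by ring
        _ ≤ Real.exp ((6 * C₀ + 4 + K1) * M) * (D * ∏ j ∈ h, ss M J j) + T ^ (-κ) := by gcongr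
        _ = _ := by ring
    · have h1 := tr_A hT1 herr M J τ (hBB g h) (w := σ) (by linarith)
      have h2 := (hT₃ T hTT₃ k hk0 hk1).2.1 g h hgh
      have h3 : 1 / T ≤ T ^ (-κ) := by
        have h4 : 0 ≤ T ^ (-κt) := by positivity
        have h5 : 0 ≤ 1 / T := by positivity
        have h6 : 2 / T = 2 * (1 / T) := by ring
        rw [h6] at hTκ
        have h7 : 0 ≤ 98 * Ct * (1 / T + T ^ (-κt)) := by positivity
        linarith
      calc _ ≤ _ := h1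
        _ ≤ (1 + ε / 2) * D * ∏ j ∈ h, ss M J j + T ^ (-κ) := by linarith
        _ ≤ 2 * D * ∏ j ∈ h, ss M J j + T ^ (-κ) := by gcongr; linarith

end Pool.Agent.Lib.MP_973905_nt
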