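import Pool.Agent.Lib.MP_973905_nt.Sharp

/-! From Gaussian means to the sharp mean over short intervals. -/

namespace Pool.Agent.Lib.MP_973905_nt

open MeasureTheory ProbabilityTheory Complex Filter Topology

open Sharp in
/-- From Gaussian means to the sharp mean over a subinterval of `[-T, T]` that is not too short. -/
theorem sharp_short (ε Cp : ℝ) (hε : 0 < ε) (hε1 : ε ≤ 1) : ∃ T₀ : ℝ, 3 ≤ T₀ ∧ ∀ T, T₀ ≤ T →
    ∀ F : ℝ → ℝ, Continuous F →
    (∀ t, 0 ≤ F t) → (∀ t, F t ≤ Cp * (1 + |t|) ^ 4) → ∀ D : ℝ, 1 / 2 ≤ D →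
    (∀ τ : ℝ, |τ| ≤ 2 * T → |EG T τ F - D| ≤ ε * D) →
    ∀ a b : ℝ, -T ≤ a → b ≤ T → T ^ (49 / 50 : ℝ) ≤ b - a →
    |(b - a)⁻¹ * (∫ t in a..b, F t) - D| ≤ 3 * ε * D := by
  set η : ℝ := ε / 8 with hη
  have hη0 : 0 < η := by positivity
  -- conditions on `T`
  have ev1 : ∀ᶠ T : ℝ in atTop, 2 * T ^ (97 / 100 : ℝ) ≤ η * T ^ (49 / 50 : ℝ) := by
    have h1 : Tendsto (fun T : ℝ => T ^ (1 / 100 : ℝ)) atTop atTop := tendsto_rpow_atTop (by norm_num)
    filter_upwards [h1.eventually_ge_atTop (2 / η), eventually_gt_atTop 0] with T hT hT0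
    have h2 : T ^ (49 / 50 : ℝ) = T ^ (1 / 100 : ℝ) * T ^ (97 / 100 : ℝ) := by
      rw [← Real.rpow_add hT0]; norm_num
    have h3 : 0 < T ^ (97 / 100 : ℝ) := Real.rpow_pos_of_pos hT0 _
    calc 2 * T ^ (97 / 100 : ℝ) = η * ((2 / η) * T ^ (97 / 100 : ℝ)) := by field_simp
      _ ≤ η * (T ^ (1 / 100 : ℝ) * T ^ (97 / 100 : ℝ)) := by gcongr
      _ = η * T ^ (49 / 50 : ℝ) := by rw [← h2]
  have ev2 := tail_ev (1 / η) 0
  have ev3 := tail_ev (16 * (|Cp| + 1) / η) 4
  obtain ⟨T₀, hT₀⟩ := eventually_atTop.mp (ev1.and (ev2.and ev3))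
  refine ⟨max 3 T₀, le_max_left _ _, fun T hT F hF hF0 hFC D hD hτ a b haT hbT hab => ?_⟩
  have hT3 : 3 ≤ T := (le_max_left _ _).trans hT
  obtain ⟨h1, h2, h3⟩ := hT₀ T ((le_max_right _ _).trans hT)
  have hT0 : 0 < T := by linarith
  set Δ : ℝ := T ^ (97 / 100 : ℝ) with hΔ
  have hΔ0 : 0 < Δ := Real.rpow_pos_of_pos hT0 _
  have hη8 : η ≤ 1 / 8 := by rw [hη]; linarith
  set H : ℝ := b - a with hH
  have hH1 : 2 * Δ ≤ η * H := h1.trans (by gcongr)
  have hH0 : 0 < H := lt_of_lt_of_le (Real.rpow_pos_of_pos hT0 _) hab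
  have hHT : H ≤ 2 * T := by rw [hH]; linarith
  have hΔH : Δ ≤ H / 16 := by nlinarith
  have hΔT : Δ ≤ T := by linarith
  have hCp0 : 0 ≤ Cp := by
    have := (hF0 0).trans (hFC 0)
    simpa using this
  set γ := gaussianReal 0 (VV T) with hγ
  set Ind : ℝ → ℝ := Set.indicator {x : ℝ | Δ < |x|} (fun x => (1 + |x|) ^ 4) with hInd
  set q : ℝ := ∫ x, Ind x ∂γ with hq
  have hIndi : Integrable Ind γ :=
    (integrable_one_add_abs_pow 0 (VV T) 4).indicator
      (measurableSet_lt measurable_const measurable_id.abs)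
  have hInd0 : ∀ x, 0 ≤ Ind x := fun x => Set.indicator_nonneg (fun x _ => by positivity) x
  have hq0 : 0 ≤ q := integral_nonneg hInd0
  have hq1 : q ≤ η := by
    rw [pow_zero, mul_one] at h2
    have := mul_le_mul_of_nonneg_left h2 hη0.le
    rw [← mul_assoc, mul_one_div_cancel hη0.ne', one_mul, mul_one] at this
    exact this
  have hq2 : Cp * (1 + T) ^ 4 * q ≤ η := by
    have h4 : Cp * (1 + T) ^ 4 ≤ η * (16 * (|Cp| + 1) / η * T ^ 4) := by
      have h5 : (1 + T) ^ 4 ≤ (2 * T) ^ 4 := by gcongr; linarith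
      have h6 : Cp ≤ |Cp| + 1 := by linarith [le_abs_self Cp]
      calc Cp * (1 + T) ^ 4 ≤ (|Cp| + 1) * (2 * T) ^ 4 := by gcongr
        _ = _ := by field_simp; ring
    calc Cp * (1 + T) ^ 4 * q ≤ (η * (16 * (|Cp| + 1) / η * T ^ 4)) * q := by gcongr
      _ = η * (16 * (|Cp| + 1) / η * T ^ 4 * q) := by ring
      _ ≤ η * 1 := by gcongr
      _ = η := mul_one _
  set A : ℝ := ∫ t in a..b, F t with hA
  have hab' : a ≤ b := by linarith
  have hA0 : 0 ≤ A := intervalIntegral.integral_nonneg hab' fun t _ => hF0 t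
  have hFb : ∀ t, |F t| ≤ Cp * (1 + |t|) ^ 4 := fun t => by
    rw [abs_of_nonneg (hF0 t)]; exact hFC t
  have hFi : ∀ u v : ℝ, IntervalIntegrable F volume u v := fun u v => hF.intervalIntegrable u v
  -- upper bound
  have up : (1 - q) * A ≤ (H + 2 * Δ) * ((1 + ε) * D) := by
    obtain ⟨e1, i1, -⟩ := average T hF hFb (a := a - Δ) (b := b + Δ) (by linarith)
    have l1 : ∫ τ in (a - Δ)..(b + Δ), EG T τ F ≤ (H + 2 * Δ) * ((1 + ε) * D) := by
      have : ∀ τ ∈ Set.Icc (a - Δ) (b + Δ), ‖EG T τ F‖ ≤ (1 + ε) * D := by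
        intro τ hτ'
        have h5 : |τ| ≤ 2 * T := by
          rw [abs_le]; constructor <;> linarith [hτ'.1, hτ'.2]
        have h6 := abs_le.mp (hτ τ h5)
        have h7 : 0 ≤ EG T τ F := integral_nonneg hF0
        rw [Real.norm_eq_abs, abs_of_nonneg h7]
        linarith
      have h8 := intervalIntegral.norm_integral_le_of_norm_le_const (a := a - Δ) (b := b + Δ)
        (f := fun τ => EG T τ F) (C := (1 + ε) * D) (fun τ hτ' => this τ (by
          rw [Set.uIoc_of_le (by linarith)] at hτ'
          exact ⟨hτ'.1.le, hτ'.2⟩))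
      rw [abs_of_nonneg (by linarith : 0 ≤ b + Δ - (a - Δ))] at h8
      calc _ ≤ _ := (le_abs_self _).trans h8
        _ = _ := by rw [hH]; ring
    have l2 : (1 - q) * A ≤ ∫ x, (∫ t in (x + (a - Δ))..(x + (b + Δ)), F t) ∂γ := by
      have e2 : (1 - q) * A = ∫ x, (A - A * Ind x) ∂γ := by
        rw [integral_sub (integrable_const _) (hIndi.const_mul A), integral_const_mul]
        simp
        ring
      rw [e2]
      refine integral_mono ((integrable_const _).sub (hIndi.const_mul A)) i1 fun x => ?_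
      simp only
      have hI0 : 0 ≤ ∫ t in (x + (a - Δ))..(x + (b + Δ)), F t :=
        intervalIntegral.integral_nonneg (by linarith) fun t _ => hF0 t
      by_cases hx : Δ < |x|
      · have : Ind x = (1 + |x|) ^ 4 := Set.indicator_of_mem (show x ∈ {x : ℝ | Δ < |x|} from hx) _
        rw [this]
        have h9 : 1 ≤ (1 + |x|) ^ 4 := one_le_pow₀ (by linarith [abs_nonneg x])
        nlinarith
      · have : Ind x = 0 := Set.indicator_of_notMem (show x ∉ {x : ℝ | Δ < |x|} from hx) _
        rw [this, mul_zero, sub_zero]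
        push Not at hx
        have h9 := abs_le.mp hx
        apply intervalIntegral.integral_mono_interval (by linarith) hab' (by linarith)
          (Filter.Eventually.of_forall fun t => hF0 t) (hFi _ _)
    linarith
  -- lower bound
  have low : (H - 2 * Δ) * ((1 - ε) * D) ≤ A + H * η := by
    obtain ⟨e1, i1, j1⟩ := average T hF hFb (a := a + Δ) (b := b - Δ) (by linarith)
    have l1 : (H - 2 * Δ) * ((1 - ε) * D) ≤ ∫ τ in (a + Δ)..(b - Δ), EG T τ F := by
      have e3 : (H - 2 * Δ) * ((1 - ε) * D) = ∫ _ in (a + Δ)..(b - Δ), (1 - ε) * D := by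
        rw [intervalIntegral.integral_const, smul_eq_mul, hH]; ring
      rw [e3]
      refine intervalIntegral.integral_mono_on (by linarith) (by simp) j1 fun τ hτ' => ?_
      have h5 : |τ| ≤ 2 * T := by
        rw [abs_le]; constructor <;> linarith [hτ'.1, hτ'.2]
      have h6 := abs_le.mp (hτ τ h5)
      linarith
    have l2 : ∫ x, (∫ t in (x + (a + Δ))..(x + (b - Δ)), F t) ∂γ ≤ A + H * η := by
      calc ∫ x, (∫ t in (x + (a + Δ))..(x + (b - Δ)), F t) ∂γ
          ≤ ∫ x, (A + H * (Cp * (1 + T) ^ 4) * Ind x) ∂γ := by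
            refine integral_mono i1 ((integrable_const _).add (hIndi.const_mul _)) fun x => ?_
            simp only
            by_cases hx : Δ < |x|
            · have : Ind x = (1 + |x|) ^ 4 :=
                Set.indicator_of_mem (show x ∈ {x : ℝ | Δ < |x|} from hx) _
              rw [this]
              have h8 := intervalIntegral.norm_integral_le_of_norm_le_const (a := x + (a + Δ))
                (b := x + (b - Δ)) (f := F) (C := Cp * (1 + T) ^ 4 * (1 + |x|) ^ 4) (fun t ht => by
                  rw [Set.uIoc_of_le (by linarith)] at ht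
                  rw [Real.norm_eq_abs]
                  refine (hFb t).trans ?_
                  have h10 : |t| ≤ |x| + T := by
                    rw [abs_le]
                    constructor
                    · linarith [ht.1, neg_abs_le x]
                    · linarith [ht.2, le_abs_self x]
                  have h11 : 1 + |t| ≤ (1 + T) * (1 + |x|) := by
                    nlinarith [mul_nonneg hT0.le (abs_nonneg x)]
                  calc Cp * (1 + |t|) ^ 4 ≤ Cp * ((1 + T) * (1 + |x|)) ^ 4 := by gcongr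
                    _ = _ := by ring)
              rw [abs_of_nonneg (by linarith : 0 ≤ x + (b - Δ) - (x + (a + Δ)))] at h8
              have h12 : 0 ≤ Cp * (1 + T) ^ 4 * (1 + |x|) ^ 4 := by positivity
              calc _ ≤ _ := (le_abs_self _).trans h8
                _ ≤ (Cp * (1 + T) ^ 4 * (1 + |x|) ^ 4) * H := by
                  apply mul_le_mul_of_nonneg_left _ h12
                  linarith
                _ ≤ _ := by linarith
            · have : Ind x = 0 := Set.indicator_of_notMem (show x ∉ {x : ℝ | Δ < |x|} from hx) _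
              rw [this, mul_zero, add_zero]
              push Not at hx
              have h9 := abs_le.mp hx
              apply intervalIntegral.integral_mono_interval (by linarith) (by linarith) (by linarith)
                (Filter.Eventually.of_forall fun t => hF0 t) (hFi _ _)
        _ = A + H * (Cp * (1 + T) ^ 4 * q) := by
            rw [integral_add (integrable_const _) (hIndi.const_mul _), integral_const_mul]
            simp
            ring
        _ ≤ A + H * η := by gcongr
    linarith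
  have hD0 : 0 < D := by linarith
  have hu1 : A ≤ H * ((1 + 3 * ε) * D) := by
    have h5 : (1 - η) * A ≤ (1 - η) * (H * ((1 + 3 * ε) * D)) := by
      calc (1 - η) * A ≤ (1 - q) * A := by gcongr
        _ ≤ (H + 2 * Δ) * ((1 + ε) * D) := up
        _ ≤ (H + η * H) * ((1 + ε) * D) := by gcongr
        _ = ((1 + η) * (1 + ε)) * (H * D) := by ring
        _ ≤ ((1 - η) * (1 + 3 * ε)) * (H * D) := by
          refine mul_le_mul_of_nonneg_right ?_ (by positivity)
          rw [hη]; nlinarith
        _ = _ := by ring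
    exact le_of_mul_le_mul_left h5 (by linarith)
  have hl1 : H * ((1 - 3 * ε) * D) ≤ A := by
    have h5 : (H - η * H) * ((1 - ε) * D) ≤ A + H * η := by
      refine le_trans ?_ low
      have : 0 ≤ (1 - ε) * D := mul_nonneg (by linarith) hD0.le
      gcongr
    have h6 : H * η ≤ 2 * η * (H * D) := by
      have : H * η * 1 ≤ H * η * (2 * D) := by
        apply mul_le_mul_of_nonneg_left (by linarith) (by positivity)
      linarith
    have h7 : (1 - 3 * ε) * (H * D) ≤ ((1 - η) * (1 - ε) - 2 * η) * (H * D) := by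
      refine mul_le_mul_of_nonneg_right ?_ (by positivity)
      rw [hη]; nlinarith
    linarith
  rw [abs_le]
  have hTi : H⁻¹ * H = 1 := inv_mul_cancel₀ hH0.ne'
  constructor
  · have := mul_le_mul_of_nonneg_left hl1 (inv_nonneg.mpr hH0.le)
    rw [← mul_assoc, hTi, one_mul] at this
    linarith
  · have := mul_le_mul_of_nonneg_left hu1 (inv_nonneg.mpr hH0.le)
    rw [← mul_assoc H⁻¹ H, hTi, one_mul] at this
    linarith

end Pool.Agent.Lib.MP_973905_nt
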