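import Pool.Agent.Lib.MP_973905_nt.ThmA
import Pool.Agent.Lib.MP_973905_nt.Short

/-! Short interval forms of the two final statements. -/

namespace Pool.Agent.Lib.MP_973905_nt

open MeasureTheory ProbabilityTheory Complex Filter Topology

open ThmA in
theorem thmA_short (hB : StB) : ∀ ε : ℝ, 0 < ε → ∃ k₀ : ℝ, 0 < k₀ ∧ k₀ ≤ 1 ∧ ∃ T₀ : ℝ, 3 ≤ T₀ ∧
    ∀ T, T₀ ≤ T → ∀ a b : ℝ, -T ≤ a → b ≤ T → T ^ (49 / 50 : ℝ) ≤ b - a →
    ∀ k : ℝ, 0 < k → k ≤ k₀ →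
    |(b - a)⁻¹ * (∫ t in a..b, ‖riemannZeta ((1 / 2 : ℂ) + t * I)‖ ^ (2 * k)) - (Real.log T) ^ (k ^ 2)| ≤
      ε * (Real.log T) ^ (k ^ 2) := by
  intro ε' hε'
  set ε : ℝ := min ε' 1 with hε
  have hε0 : 0 < ε := lt_min hε' (by norm_num)
  obtain ⟨k₀, hk₀, T₁, hT₁, h1⟩ := thmA_gauss hB (ε / 3) (by positivity)
  obtain ⟨Cp, hCp, hpoly⟩ := zeta_rpow_poly
  obtain ⟨T₂, hT₂, h2⟩ := sharp_short (ε / 3) Cp (by positivity) (by linarith [min_le_right ε' 1])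
  refine ⟨min k₀ 1, lt_min hk₀ one_pos, min_le_right _ _, max T₁ T₂, hT₁.trans (le_max_left _ _),
    fun T hT a b ha hb hab k hk0 hk => ?_⟩
  have hT1 : T₁ ≤ T := (le_max_left _ _).trans hT
  have hT2 : T₂ ≤ T := (le_max_right _ _).trans hT
  have hL1 : 1 ≤ Real.log T := by
    rw [← Real.log_exp 1]
    apply Real.log_le_log (Real.exp_pos _)
    have := Real.exp_one_lt_d9
    linarith
  have hΛ1 : 1 ≤ (Real.log T) ^ (k ^ 2) := Real.one_le_rpow hL1 (by positivity)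
  have hk1 : k ≤ 1 := hk.trans (min_le_right _ _)
  have key := h2 T hT2 (fun t => ‖riemannZeta ((1 / 2 : ℝ) + t * I)‖ ^ (2 * k))
    (cont_zeta_rpow (by norm_num) (by positivity)) (fun t => by positivity)
    (fun t => hpoly (1 / 2) t (2 * k) le_rfl (by norm_num) (by positivity) (by linarith))
    ((Real.log T) ^ (k ^ 2)) (by linarith)
    (fun τ hτ => h1 T hT1 τ hτ k hk0 (hk.trans (min_le_left _ _))) a b ha hb hab
  have e : ((1 / 2 : ℝ) : ℂ) = 1 / 2 := by push_cast; rfl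
  rw [e] at key
  refine key.trans ?_
  apply mul_le_mul_of_nonneg_right _ (by linarith)
  have := min_le_left ε' 1
  linarith

open ThmA in
theorem thmB_short (hB : StB) : ∀ ε : ℝ, 0 < ε → ∃ c₀ : ℝ, 0 < c₀ ∧ ∀ c, c₀ ≤ c → ∃ T₀ : ℝ, 3 ≤ T₀ ∧
    ∀ T, T₀ ≤ T → ∀ a b : ℝ, -T ≤ a → b ≤ T → T ^ (49 / 50 : ℝ) ≤ b - a →
    ∀ k : ℝ, 0 < k → k < 1 →
    |(b - a)⁻¹ * (∫ t in a..b, ‖riemannZeta ((1 / 2 + c / Real.log T : ℝ) + t * I)‖ ^ (2 * k)) -
      DD k (1 / 2 + c / Real.log T)| ≤ ε * DD k (1 / 2 + c / Real.log T) := by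
  intro ε' hε'
  set ε : ℝ := min ε' 1 with hε
  have hε0 : 0 < ε := lt_min hε' (by norm_num)
  obtain ⟨c₀, hc₀, h1⟩ := hB (ε / 3) (by positivity)
  obtain ⟨Cp, hCp, hpoly⟩ := zeta_rpow_poly
  obtain ⟨T₂, hT₂, h2⟩ := sharp_short (ε / 3) Cp (by positivity) (by linarith [min_le_right ε' 1])
  refine ⟨c₀, by linarith, fun c hc => ?_⟩
  obtain ⟨T₁, hT₁, h3⟩ := h1 c hc
  obtain ⟨T₃, hT₃⟩ := eventually_atTop.mp (Real.tendsto_log_atTop.eventually_ge_atTop (4 * c))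
  refine ⟨max (max T₁ T₂) T₃, (hT₁.trans (le_max_left _ _)).trans (le_max_left _ _),
    fun T hT a b ha hb hab k hk0 hk1 => ?_⟩
  have hT1 : T₁ ≤ T := ((le_max_left _ _).trans (le_max_left _ _)).trans hT
  have hT2 : T₂ ≤ T := ((le_max_right _ _).trans (le_max_left _ _)).trans hT
  have hL4 := hT₃ T ((le_max_right _ _).trans hT)
  have hL0 : 0 < Real.log T := by linarith
  have hδ0 : 0 < c / Real.log T := div_pos (by linarith) hL0
  have hδ1 : c / Real.log T ≤ 1 / 4 := by rw [div_le_iff₀ hL0]; linarith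
  have hDD := DD_ge_one hk0 hk1.le (σ := 1 / 2 + c / Real.log T) (by linarith)
  have key := h2 T hT2 (fun t => ‖riemannZeta ((1 / 2 + c / Real.log T : ℝ) + t * I)‖ ^ (2 * k))
    (cont_zeta_rpow (by linarith) (by positivity)) (fun t => by positivity)
    (fun t => hpoly (1 / 2 + c / Real.log T) t (2 * k) (by linarith) (by linarith) (by positivity)
      (by linarith))
    (DD k (1 / 2 + c / Real.log T)) (by linarith)
    (fun τ hτ => h3 T hT1 τ hτ k hk0 hk1) a b ha hb hab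
  refine key.trans ?_
  apply mul_le_mul_of_nonneg_right _ (by linarith)
  have := min_le_left ε' 1
  linarith

end Pool.Agent.Lib.MP_973905_nt
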