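import Pool.Agent.Lib.MP_973905_nt.Assemble
import Pool.Agent.Lib.MP_973905_nt.Ing
import Pool.Agent.Lib.MP_973905_nt.ShortAB
import Pool.Agent.Lib.MP_973905_nt.CK

/-! The two final theorems. -/

namespace Pool.Agent.Lib.MP_973905_nt

open MeasureTheory Filter Topology Complex

theorem stB : StB := stB_of_ing ing

/-- Small moments on the critical line against the Keating-Snaith prediction. -/
theorem small_moments : ∀ ε : ℝ, 0 < ε → ∃ k₀ : ℝ, 0 < k₀ ∧ ∃ T₀ : ℝ, 3 ≤ T₀ ∧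
    ∀ T : ℝ, T₀ ≤ T → ∀ a b : ℝ, -T ≤ a → b ≤ T → T ^ (49 / 50 : ℝ) ≤ b - a →
    ∀ k : ℝ, 0 < k → k ≤ k₀ →
    |((b - a)⁻¹ * ∫ t in a..b, ‖riemannZeta (1 / 2 + t * I)‖ ^ (2 * k)) /
      (cK k * (Real.log T) ^ (k ^ 2)) - 1| ≤ ε := by
  intro ε' hε'
  set ε : ℝ := min ε' 1 with hε
  have hε0 : 0 < ε := lt_min hε' (by norm_num)
  have hε1 : ε ≤ 1 := min_le_right _ _
  obtain ⟨k₁, hk₁, hk₁1, T₀, hT₀, h1⟩ := thmA_short stB (ε / 8) (by positivity)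
  have h2 : ∀ᶠ k in 𝓝[>] (0 : ℝ), |cK k - 1| < ε / 8 := by
    have := cK_tendsto.eventually (Metric.ball_mem_nhds (1 : ℝ) (show 0 < ε / 8 by positivity))
    filter_upwards [this] with k hk
    rwa [Real.dist_eq] at hk
  obtain ⟨k₂, hk₂, h3⟩ := mem_nhdsGT_iff_exists_Ioo_subset.mp h2
  rw [Set.mem_Ioi] at hk₂
  refine ⟨min k₁ (k₂ / 2), lt_min hk₁ (by positivity), T₀, hT₀, fun T hT a b ha hb hab k hk0 hk => ?_⟩
  have h4 := h1 T hT a b ha hb hab k hk0 (hk.trans (min_le_left _ _))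
  have h5 : |cK k - 1| < ε / 8 := h3 ⟨hk0, by
    have := hk.trans (min_le_right _ _)
    linarith⟩
  have hL : 0 < Real.log T := Real.log_pos (by linarith)
  set Λ : ℝ := (Real.log T) ^ (k ^ 2) with hΛ
  have hΛ0 : 0 < Λ := Real.rpow_pos_of_pos hL _
  set X : ℝ := (b - a)⁻¹ * ∫ t in a..b, ‖riemannZeta (1 / 2 + t * I)‖ ^ (2 * k) with hX
  have h6 := abs_lt.mp h5
  have hc0 : 0 < cK k := by linarith
  have hcΛ : 0 < cK k * Λ := mul_pos hc0 hΛ0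
  have h7 : |X - Λ| ≤ ε / 8 * Λ := h4
  have h8 := abs_le.mp h7
  have key : |X / (cK k * Λ) - 1| ≤ ε := by
    rw [abs_le]
    constructor
    · rw [le_sub_iff_add_le, le_div_iff₀ hcΛ]
      nlinarith
    · rw [sub_le_iff_le_add, div_le_iff₀ hcΛ]
      nlinarith
  exact key.trans (min_le_left _ _)

end Pool.Agent.Lib.MP_973905_nt
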