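import Pool.Agent.Lib.MP_973905_nt.Final
import Pool.Agent.Lib.MP_973905_nt.Arith

/-! Moments of order between zero and two near the critical line, final form. -/

namespace Pool.Agent.Lib.MP_973905_nt

open MeasureTheory Filter Topology Complex

theorem near_critical : ∀ ε : ℝ, 0 < ε → ∃ c₀ : ℝ, 0 < c₀ ∧ ∀ c : ℝ, c₀ ≤ c → ∃ T₀ : ℝ, 3 ≤ T₀ ∧
    ∀ T : ℝ, T₀ ≤ T → ∀ a b : ℝ, -T ≤ a → b ≤ T → T ^ (49 / 50 : ℝ) ≤ b - a →
    ∀ k : ℝ, 0 < k → k < 1 →
    |((b - a)⁻¹ * ∫ t in a..b, ‖riemannZeta (1 / 2 + c / Real.log T + t * I)‖ ^ (2 * k)) /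
      (aK k * (Real.log T / (2 * c)) ^ (k ^ 2)) - 1| ≤ ε := by
  intro ε' hε'
  set ε : ℝ := min ε' 1 with hε
  have hε0 : 0 < ε := lt_min hε' (by norm_num)
  have hε1 : ε ≤ 1 := min_le_right _ _
  obtain ⟨c₀, hc₀, h1⟩ := thmB_short stB (ε / 8) (by positivity)
  obtain ⟨d, hd, h2⟩ := DD_asymp (ε / 8) (by positivity)
  refine ⟨c₀, hc₀, fun c hc => ?_⟩
  have hc0 : 0 < c := by linarith
  obtain ⟨T₁, hT₁, h3⟩ := h1 c hc
  obtain ⟨T₂, hT₂⟩ := eventually_atTop.mp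
    (Real.tendsto_log_atTop.eventually_gt_atTop (c / d))
  refine ⟨max T₁ T₂, hT₁.trans (le_max_left _ _), fun T hT a b ha hb hab k hk0 hk1 => ?_⟩
  have hTT₁ : T₁ ≤ T := (le_max_left _ _).trans hT
  have h4 := h3 T hTT₁ a b ha hb hab k hk0 hk1
  have hL := hT₂ T ((le_max_right _ _).trans hT)
  have hL0 : 0 < Real.log T := Real.log_pos (by linarith)
  have hcL : c / Real.log T < d := by
    rw [div_lt_iff₀ hL0]
    have := (div_lt_iff₀ hd).mp hL
    linarith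
  have hcL0 : 0 < c / Real.log T := div_pos hc0 hL0
  have h5 := h2 (1 / 2 + c / Real.log T) (by linarith) (by linarith) k hk0 hk1.le
  have e1 : 1 / (2 * (1 / 2 + c / Real.log T) - 1) = Real.log T / (2 * c) := by
    field_simp
    ring
  rw [e1] at h5
  set Λ : ℝ := (Real.log T / (2 * c)) ^ (k ^ 2) with hΛ
  have hΛ0 : 0 < Λ := Real.rpow_pos_of_pos (by positivity) _
  have haK : 0 < aK k := aK_pos hk0 hk1.le
  have haΛ : 0 < aK k * Λ := mul_pos haK hΛ0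
  set D : ℝ := DD k (1 / 2 + c / Real.log T) with hD
  have e2 : ∀ t : ℝ, (((1 / 2 + c / Real.log T : ℝ) : ℂ) + t * I) =
      1 / 2 + c / Real.log T + t * I := by
    intro t; push_cast; ring
  simp only [e2] at h4
  set X : ℝ := (b - a)⁻¹ * ∫ t in a..b,
    ‖riemannZeta (1 / 2 + c / Real.log T + t * I)‖ ^ (2 * k) with hX
  have h6 := abs_le.mp h4
  have h7 := abs_le.mp h5
  have h8 : (1 - ε / 8) * (aK k * Λ) ≤ D := by
    have : 1 - ε / 8 ≤ D / (aK k * Λ) := by linarith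
    rwa [le_div_iff₀ haΛ] at this
  have h9 : D ≤ (1 + ε / 8) * (aK k * Λ) := by
    have : D / (aK k * Λ) ≤ 1 + ε / 8 := by linarith
    rwa [div_le_iff₀ haΛ] at this
  have key : |X / (aK k * Λ) - 1| ≤ ε := by
    rw [abs_le]
    constructor
    · rw [le_sub_iff_add_le, le_div_iff₀ haΛ]
      nlinarith
    · rw [sub_le_iff_le_add, div_le_iff₀ haΛ]
      nlinarith
  exact key.trans (min_le_left _ _)

end Pool.Agent.Lib.MP_973905_nt
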