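import Pool.Agent.Lib.MP_973905_nt.XB1

/-! Fourth moment of the Euler product against the truncated exponentials. -/

namespace Pool.Agent.Lib.MP_973905_nt

open MeasureTheory ProbabilityTheory Complex Filter Topology

namespace XB

/-- Good blocks, fourth moment. -/
lemma good_block4 : ∃ C : ℝ, 0 ≤ C ∧ ∀ (A l : ℕ) (S : Finset ℕ) (w₁ : ℂ) (w₂ k : ℝ), 1 ≤ A →
    0 < w₁.re → 0 ≤ k → k ≤ 1 → (∀ p ∈ S, p.Prime) → (∀ p ∈ S, yp w₁.re w₂ p ≤ 3 / 4) →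
    ES S (fun f => ‖ZZ S (tw w₁ f)‖ ^ 4 * (‖Ntr l (-1) (Pj A S (tw w₂ f))‖ ^ 2 *
      ‖Ntr l (k - 1) (Pj A S (tw w₂ f))‖ ^ 2)) ≤
      Real.exp (∑ p ∈ S, (‖2 * (p : ℂ) ^ (-w₁) + ((k - 2 : ℝ) : ℂ) * ((p : ℝ) ^ (-w₂) : ℝ)‖ ^ 2 +
        C * (yp w₁.re w₂ p) ^ 4)) *
      Real.exp (98 * Real.exp (-l + C * ∑ p ∈ S, (yp w₁.re w₂ p) ^ 2)) := by
  obtain ⟨C1, hC1, h1⟩ := ES_exp 2
  obtain ⟨C2, hC2, h2⟩ := ES_exp_norm (q := 4) (by norm_num)
  refine ⟨C1 + C2, by positivity, fun A l S w₁ w₂ k hA hw hk0 hk1 hS hy => ?_⟩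
  have hα : |k - 1| ≤ 1 := by rw [abs_le]; constructor <;> linarith
  have hα' : |(-1 : ℝ)| ≤ 1 := by norm_num
  set η := Real.exp (-(l : ℝ)) with hη
  have hη0 : 0 < η := Real.exp_pos _
  have hη1 : η ≤ 1 := by rw [hη, Real.exp_le_one_iff]; linarith [Nat.cast_nonneg (α := ℝ) l]
  set Z : (ℕ → ℂ) → ℂ := fun f => ZZ S (tw w₁ f) with hZ
  set P : (ℕ → ℂ) → ℂ := fun f => Pj A S (tw w₂ f) with hP
  have bZ : BS S Z := bs_ZZ hS hw
  have bP : BS S P := bs_Pj A S S w₂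
  set F1 : (ℕ → ℂ) → ℝ := fun f => ‖(ZZ S (tw w₁ f)) ^ 2 * cexp (((k - 2 : ℝ) : ℂ) * P f)‖ ^ 2 with hF1
  set F2 : (ℕ → ℂ) → ℝ := fun f => ‖(ZZ S (tw w₁ f)) ^ 2‖ ^ 2 * Real.exp (4 * ‖P f‖) ^ 2 with hF2
  have b1 : BS S F1 := ((bZ.pow 2).mul ((bs_const S _).mul bP).cexp).norm_sq
  have b2 : BS S F2 := BS.mulR (bZ.pow 2).norm_sq (BS.expnorm bP (by norm_num))
  have b1' : BS S (fun f => (1 + 2 * η) * F1 f) := BS.mulR (bs_const S _) b1
  have b2' : BS S (fun f => (6 * η) * F2 f) := BS.mulR (bs_const S _) b2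
  have g1 := h1 A 2 S w₁ ((k - 2 : ℝ) : ℂ) w₂ hA (by norm_num)
    (by rw [norm_real, Real.norm_eq_abs, abs_le]; constructor <;> linarith) hS hy
  have g2 := h2 A 2 S w₁ w₂ hA (by norm_num) hw hS hy
  have step : ES S (fun f => ‖Z f‖ ^ 4 * (‖Ntr l (-1) (P f)‖ ^ 2 * ‖Ntr l (k - 1) (P f)‖ ^ 2)) ≤
      ES S (fun f => (1 + 2 * η) * F1 f + (6 * η) * F2 f) := by
    apply ES_mono
    · intro ω; positivity
    · exact (BS.add b1' b2').integrable
    · intro ω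
      set f := ext S ω
      have ht := Ntr_tail l hα (P f)
      have ht' := Ntr_tail l hα' (P f)
      have hb := norm_Ntr_le l hα (P f)
      set e₁ := cexp (((-1 : ℝ) : ℂ) * P f) with he₁
      set e₂ := cexp (((k - 1 : ℝ) : ℂ) * P f) with he₂
      set N₁ := Ntr l (-1) (P f) with hN₁
      set N₂ := Ntr l (k - 1) (P f) with hN₂
      set x := ‖P f‖ with hx
      have hx0 : 0 ≤ x := norm_nonneg _
      have he₁n : ‖e₁‖ ≤ Real.exp x := by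
        rw [he₁, norm_exp]
        apply Real.exp_le_exp.2
        have := re_le_norm (((-1 : ℝ) : ℂ) * P f)
        rw [norm_mul, norm_real] at this
        simpa using this
      have he₁₂ : e₁ * e₂ = cexp (((k - 2 : ℝ) : ℂ) * P f) := by
        rw [he₁, he₂, ← exp_add]
        congr 1
        push_cast; ring
      have h44 : Real.exp (4 * x) = Real.exp (3 * x) * Real.exp x := by
        rw [← Real.exp_add]; congr 1; ring
      have hprod : ‖N₁ * N₂ - e₁ * e₂‖ ≤ 2 * (η * Real.exp (4 * x)) := by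
        have e : N₁ * N₂ - e₁ * e₂ = -((e₁ - N₁) * N₂) - e₁ * (e₂ - N₂) := by ring
        rw [e]
        refine (norm_sub_le _ _).trans ?_
        rw [norm_neg, norm_mul, norm_mul]
        have q1 : ‖e₁ - N₁‖ * ‖N₂‖ ≤ (η * Real.exp (3 * x)) * Real.exp x :=
          mul_le_mul ht' hb (norm_nonneg _) (by positivity)
        have q2 : ‖e₁‖ * ‖e₂ - N₂‖ ≤ Real.exp x * (η * Real.exp (3 * x)) :=
          mul_le_mul he₁n ht (norm_nonneg _) (by positivity)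
        rw [h44]
        nlinarith
      set a := ‖cexp (((k - 2 : ℝ) : ℂ) * P f)‖ with ha
      set s := Real.exp (4 * x) with hs
      have hs0 : 0 < s := Real.exp_pos _
      have ha0 : 0 ≤ a := norm_nonneg _
      have hn : ‖N₁ * N₂‖ ≤ a + 2 * (η * s) := by
        have := norm_sub_norm_le (N₁ * N₂) (e₁ * e₂)
        rw [he₁₂] at this hprod
        linarith
      have h3 : ‖N₁‖ ^ 2 * ‖N₂‖ ^ 2 ≤ (1 + 2 * η) * a ^ 2 + 6 * η * s ^ 2 := by
        rw [← mul_pow, ← norm_mul]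
        calc ‖N₁ * N₂‖ ^ 2 ≤ (a + 2 * (η * s)) ^ 2 :=
              pow_le_pow_left₀ (norm_nonneg _) hn 2
          _ ≤ _ := by
            nlinarith [sq_nonneg (a - s), mul_nonneg hη0.le (sq_nonneg (a - s)),
              mul_nonneg (mul_nonneg hη0.le (sub_nonneg.2 hη1)) (sq_nonneg s)]
      have e1 : F1 f = ‖Z f‖ ^ 4 * a ^ 2 := by
        simp only [hF1, norm_mul, norm_pow, hZ, ha]; ring
      have e2 : F2 f = ‖Z f‖ ^ 4 * s ^ 2 := by
        simp only [hF2, norm_pow, hZ, hs, hx]; ring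
      rw [e1, e2]
      calc ‖Z f‖ ^ 4 * (‖N₁‖ ^ 2 * ‖N₂‖ ^ 2) ≤
          ‖Z f‖ ^ 4 * ((1 + 2 * η) * a ^ 2 + 6 * η * s ^ 2) := by
            gcongr
        _ = _ := by ring
  have e3 : ES S (fun f => (1 + 2 * η) * F1 f + (6 * η) * F2 f) =
      (1 + 2 * η) * ES S F1 + (6 * η) * ES S F2 := by
    rw [ES_add b1' b2', ES_const_mul, ES_const_mul]
  rw [e3] at step
  refine step.trans ?_
  set Y := ∑ p ∈ S, yp w₁.re w₂ p ^ 2 with hY
  have hY0 : 0 ≤ Y := Finset.sum_nonneg fun p _ => by positivity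
  set E := ∑ p ∈ S, (‖2 * (p : ℂ) ^ (-w₁) + ((k - 2 : ℝ) : ℂ) * ((p : ℝ) ^ (-w₂) : ℝ)‖ ^ 2 +
        (C1 + C2) * (yp w₁.re w₂ p) ^ 4) with hE
  have hE0 : 0 ≤ E := Finset.sum_nonneg fun p _ => by positivity
  have g1' : ES S F1 ≤ Real.exp E := by
    refine g1.trans (Real.exp_le_exp.2 ?_)
    rw [hE]
    refine Finset.sum_le_sum fun p _ => ?_
    push_cast
    gcongr
    linarith
  have g2' : ES S F2 ≤ 16 * Real.exp ((C1 + C2) * Y) := by
    refine g2.trans ?_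
    gcongr
    linarith
  have hexpE : 1 ≤ Real.exp E := Real.one_le_exp hE0
  have hexpY : 1 ≤ Real.exp ((C1 + C2) * Y) := Real.one_le_exp (by positivity)
  rw [Real.exp_add, ← hη]
  calc (1 + 2 * η) * ES S F1 + 6 * η * ES S F2
      ≤ (1 + 2 * η) * Real.exp E + 6 * η * (16 * Real.exp ((C1 + C2) * Y)) := by gcongr
    _ ≤ Real.exp E * (98 * (η * Real.exp ((C1 + C2) * Y)) + 1) := by
        have h5 : η * 1 ≤ η * Real.exp ((C1 + C2) * Y) := by gcongr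
        have h6 : η * Real.exp ((C1 + C2) * Y) * 1 ≤ η * Real.exp ((C1 + C2) * Y) * Real.exp E := by
          gcongr
        nlinarith
    _ ≤ _ := by
        gcongr
        exact Real.add_one_le_exp _

/-- The top block, fourth moment. -/
lemma top_block4 : ∃ C : ℝ, 0 ≤ C ∧ ∀ (S : Finset ℕ) (w₁ : ℂ), 1 / 2 ≤ w₁.re →
    (∀ p ∈ S, p.Prime) →
    ES S (fun f => ‖ZZ S (tw w₁ f)‖ ^ 4) ≤ Real.exp (C * ∑ p ∈ S, (1 : ℝ) / p) := by
  obtain ⟨C1, hC1, h1⟩ := ES_exp 1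
  refine ⟨4 + C1, by positivity, fun S w₁ hw hS => ?_⟩
  have hy : ∀ p ∈ S, yp w₁.re w₁.re p ^ 2 ≤ 1 / p := by
    intro p hp
    have hp1 : (1 : ℝ) ≤ p := by exact_mod_cast (hS p hp).one_lt.le
    rw [yp, max_self, ← Real.rpow_natCast, ← Real.rpow_mul (by linarith), one_div,
      ← Real.rpow_neg_one]
    apply Real.rpow_le_rpow_of_exponent_le hp1
    push_cast
    linarith
  have hy' : ∀ p ∈ S, yp w₁.re w₁.re p ≤ 3 / 4 := by
    intro p hp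
    have hp2 : (2 : ℝ) ≤ p := by exact_mod_cast (hS p hp).two_le
    have h2 := hy p hp
    have h3 : (1 : ℝ) / p ≤ 1 / 2 := by gcongr
    nlinarith [yp_nonneg w₁.re w₁.re p]
  have g := h1 1 2 S w₁ 0 w₁.re le_rfl (by norm_num) (by simp) hS hy'
  simp only [zero_mul, exp_zero, mul_one, add_zero] at g
  have e0 : (fun f : ℕ → ℂ => ‖ZZ S (tw w₁ f)‖ ^ 4) = fun f => ‖ZZ S (tw w₁ f) ^ 2‖ ^ 2 := by
    funext f
    rw [norm_pow]; ring
  rw [e0]
  refine g.trans (Real.exp_le_exp.2 ?_)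
  rw [Finset.mul_sum]
  refine Finset.sum_le_sum fun p hp => ?_
  have hp0 := (hS p hp).pos
  have hy0 := yp_nonneg w₁.re w₁.re p
  have h2 : ‖((2 : ℕ) : ℂ) * (p : ℂ) ^ (-w₁)‖ = 2 * yp w₁.re w₁.re p := by
    rw [norm_mul, norm_natCast_cpow_of_pos hp0, yp, max_self]; simp
  rw [h2]
  have h3 : yp w₁.re w₁.re p ^ 4 ≤ yp w₁.re w₁.re p ^ 2 :=
    pow_le_pow_of_le_one hy0 (by linarith [hy' p hp]) (by norm_num)
  have h4 := hy p hp
  nlinarith

/-- The exponent at a prime. -/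
lemma expo4_le {k c c₁ a₂ θ : ℝ} {z : ℂ} (hk0 : 0 ≤ k) (hk1 : k ≤ 1) (hθ : 0 ≤ θ)
    (hz : 0 ≤ z.re) (h1 : -c₁ ≤ a₂) (h2 : a₂ ≤ c) (hc1 : 0 ≤ c₁) (hc : 0 ≤ c)
    (hs : c₁ * θ ≤ 1 / 2) :
    ‖2 * cexp (-(z * θ)) + ((k - 2 : ℝ) : ℂ) * (Real.exp (-(a₂ * θ)) : ℝ)‖ ^ 2 ≤
      k ^ 2 + 48 * min 1 (‖z‖ * θ) + 48 * min 1 (c * θ) + 48 * (c₁ * θ) := by
  set m1 := min 1 (‖z‖ * θ) with hm1
  set m2 := min 1 (c * θ) with hm2
  have m10 : 0 ≤ m1 := le_min zero_le_one (by positivity)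
  have m20 : 0 ≤ m2 := le_min zero_le_one (by positivity)
  have m11 : m1 ≤ 1 := min_le_left _ _
  have m21 : m2 ≤ 1 := min_le_left _ _
  have hU : ‖cexp (-(z * θ)) - 1‖ ≤ 2 * m1 := by
    have hn : ‖-(z * (θ : ℂ))‖ = ‖z‖ * θ := by
      rw [norm_neg, norm_mul, norm_real, Real.norm_eq_abs, abs_of_nonneg hθ]
    rcases le_total (‖z‖ * θ) 1 with h | h
    · rw [hm1, min_eq_right h, ← hn]
      exact norm_exp_sub_one_le (by rw [hn]; exact h)
    · rw [hm1, min_eq_left h]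
      refine (norm_sub_le _ _).trans ?_
      rw [norm_one, norm_exp]
      have : Real.exp (-(z * (θ : ℂ))).re ≤ 1 := by
        rw [Real.exp_le_one_iff]
        simp only [neg_re, mul_re, ofReal_re, ofReal_im, mul_zero, sub_zero]
        have := mul_nonneg hz hθ
        linarith
      linarith
  have hV : |Real.exp (-(a₂ * θ)) - 1| ≤ 2 * m2 + 2 * (c₁ * θ) := by
    have hc1θ : 0 ≤ c₁ * θ := mul_nonneg hc1 hθ
    rcases le_total 0 a₂ with h | h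
    · have h0 : 0 ≤ a₂ * θ := mul_nonneg h hθ
      have h3 : Real.exp (-(a₂ * θ)) ≤ 1 := by rw [Real.exp_le_one_iff]; linarith
      rw [abs_of_nonpos (by linarith)]
      have h4 := Real.add_one_le_exp (-(a₂ * θ))
      have h5 : a₂ * θ ≤ c * θ := mul_le_mul_of_nonneg_right h2 hθ
      have h6 : 0 < Real.exp (-(a₂ * θ)) := Real.exp_pos _
      have h7 : -(Real.exp (-(a₂ * θ)) - 1) ≤ m2 := by
        rw [hm2]
        apply le_min <;> linarith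
      linarith
    · have h0 : |-(a₂ * θ)| ≤ c₁ * θ := by
        rw [abs_of_nonneg (by nlinarith)]
        nlinarith
      have := Real.abs_exp_sub_one_le (x := -(a₂ * θ)) (by linarith)
      linarith
  set E := 4 * m1 + (4 * m2 + 4 * (c₁ * θ)) with hE
  have hE0 : 0 ≤ E := by
    have hc1θ : 0 ≤ c₁ * θ := mul_nonneg hc1 hθ
    positivity
  have hE10 : E ≤ 10 := by linarith
  have hnorm : ‖2 * cexp (-(z * θ)) + ((k - 2 : ℝ) : ℂ) * (Real.exp (-(a₂ * θ)) : ℝ)‖ ≤ k + E := by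
    have e : 2 * cexp (-(z * θ)) + ((k - 2 : ℝ) : ℂ) * (Real.exp (-(a₂ * θ)) : ℝ) =
        (k : ℂ) + (2 * (cexp (-(z * θ)) - 1) + ((k - 2 : ℝ) : ℂ) *
          ((Real.exp (-(a₂ * θ)) - 1 : ℝ) : ℂ)) := by
      push_cast; ring
    rw [e]
    refine (norm_add_le _ _).trans ?_
    rw [norm_real, Real.norm_eq_abs, abs_of_nonneg hk0]
    gcongr
    refine (norm_add_le _ _).trans ?_
    rw [norm_mul, norm_mul, norm_real, norm_real, Real.norm_eq_abs, Real.norm_eq_abs]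
    have h3 : |k - 2| ≤ 2 := by rw [abs_le]; constructor <;> linarith
    have h4 : |k - 2| * |Real.exp (-(a₂ * θ)) - 1| ≤ 2 * (2 * m2 + 2 * (c₁ * θ)) :=
      mul_le_mul h3 hV (abs_nonneg _) (by norm_num)
    have h5 : ‖(2 : ℂ)‖ = 2 := by simp
    rw [h5]
    linarith
  calc ‖2 * cexp (-(z * θ)) + ((k - 2 : ℝ) : ℂ) * (Real.exp (-(a₂ * θ)) : ℝ)‖ ^ 2
      ≤ (k + E) ^ 2 := pow_le_pow_left₀ (norm_nonneg _) hnorm 2
    _ ≤ k ^ 2 + 12 * E := by nlinarith [mul_nonneg hk0 hE0]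
    _ = _ := by rw [hE]; ring

lemma norm_form4 {p : ℕ} (hp : 0 < p) {L : ℝ} (z : ℂ) (a k : ℝ) :
    ‖2 * (p : ℂ) ^ (-((1 / 2 : ℂ) + z / L)) +
      ((k - 2 : ℝ) : ℂ) * (((p : ℝ) ^ (-(1 / 2 + a / L)) : ℝ) : ℂ)‖ ^ 2
      = 1 / p * ‖2 * cexp (-(z * ((Real.log p / L : ℝ) : ℂ))) +
        ((k - 2 : ℝ) : ℂ) * (Real.exp (-(a * (Real.log p / L))) : ℝ)‖ ^ 2 := by
  have hp0' : (0 : ℝ) < p := by exact_mod_cast hp
  rw [cpow_form hp, rpow_form hp]
  have e : 2 * ((((p : ℝ) ^ (-(1 / 2) : ℝ) : ℝ) : ℂ) * cexp (-(z * ((Real.log p / L : ℝ) : ℂ)))) +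
      ((k - 2 : ℝ) : ℂ) * (((p : ℝ) ^ (-(1 / 2) : ℝ) * Real.exp (-(a * (Real.log p / L))) : ℝ) : ℂ) =
      (((p : ℝ) ^ (-(1 / 2) : ℝ) : ℝ) : ℂ) * (2 * cexp (-(z * ((Real.log p / L : ℝ) : ℂ))) +
        ((k - 2 : ℝ) : ℂ) * (Real.exp (-(a * (Real.log p / L))) : ℝ)) := by
    push_cast; ring
  rw [e, norm_mul, mul_pow]
  congr 1
  rw [norm_real, Real.norm_eq_abs, abs_of_nonneg (by positivity), ← Real.rpow_natCast,
    ← Real.rpow_mul hp0'.le]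
  norm_num
  rw [Real.rpow_neg_one]

/-- The fourth moment factorises. -/
lemma ER_factor4 {T : ℝ} (hT : 1 < T) (M J : ℕ) (α α' : ℝ) (g h g' h' : Finset ℕ) (w₁ w₂ : ℂ) :
    ER (SB T M J) (fun f => ‖ZZ (UU (SB T M J)) (tw w₁ f)‖ ^ 4 *
      (‖AA T M J α g h (tw w₂ f)‖ ^ 2 * ‖AA T M J α' g' h' (tw w₂ f)‖ ^ 2)) =
    (∏ j ∈ Finset.range (J + 1), ES (Sj T M J j) (fun f => ‖ZZ (Sj T M J j) (tw w₁ f)‖ ^ 4 *
      (‖Fc T M J α g h j (tw w₂ f)‖ ^ 2 * ‖Fc T M J α' g' h' j (tw w₂ f)‖ ^ 2))) *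
      ES (Sj T M J (J + 1)) (fun f => ‖ZZ (Sj T M J (J + 1)) (tw w₁ f)‖ ^ 4) := by
  have hB := blk_SB hT M J
  set G : ℕ → (ℕ → ℂ) → ℝ := fun j f => ‖ZZ (Sj T M J j) (tw w₁ f)‖ ^ 4 *
    (if j < J + 1 then (‖Fc T M J α g h j (tw w₂ f)‖ ^ 2 *
      ‖Fc T M J α' g' h' j (tw w₂ f)‖ ^ 2) else 1) with hG
  have h1 : ∀ f : ℕ → ℂ, ‖ZZ (UU (SB T M J)) (tw w₁ f)‖ ^ 4 * (‖AA T M J α g h (tw w₂ f)‖ ^ 2 *
      ‖AA T M J α' g' h' (tw w₂ f)‖ ^ 2) = ∏ j : Fin (J + 2), G j f := by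
    intro f
    have e1 : ZZ (UU (SB T M J)) (tw w₁ f) = ∏ j : Fin (J + 2), ZZ (Sj T M J j) (tw w₁ f) := by
      unfold ZZ UU
      rw [Finset.prod_biUnion]
      · rfl
      · intro i _ j _ hij
        exact hB.2 i j hij
    have e2 : ∀ (α : ℝ) (g h : Finset ℕ), AA T M J α g h (tw w₂ f) = ∏ j : Fin (J + 2),
        (if (j : ℕ) < J + 1 then Fc T M J α g h j (tw w₂ f) else 1) := by
      intro α g h
      rw [← Finset.prod_range (fun j => if j < J + 1 then Fc T M J α g h j (tw w₂ f) else 1),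
        Finset.prod_range_succ, if_neg (lt_irrefl _), mul_one, AA]
      refine Finset.prod_congr rfl fun j hj => ?_
      rw [if_pos (Finset.mem_range.1 hj)]
    rw [e1, e2, e2, norm_prod, norm_prod, norm_prod, ← Finset.prod_pow, ← Finset.prod_pow,
      ← Finset.prod_pow, ← Finset.prod_mul_distrib, ← Finset.prod_mul_distrib]
    refine Finset.prod_congr rfl fun j _ => ?_
    simp only [hG]
    congr 1
    split_ifs <;> simp
  have h2 : ER (SB T M J) (fun f => ‖ZZ (UU (SB T M J)) (tw w₁ f)‖ ^ 4 *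
      (‖AA T M J α g h (tw w₂ f)‖ ^ 2 * ‖AA T M J α' g' h' (tw w₂ f)‖ ^ 2)) =
      ER (SB T M J) (fun f => ∏ j : Fin (J + 2), G j f) := by
    congr 1
    funext f
    exact h1 f
  rw [h2, ER_prod hB (fun j : Fin (J + 2) => G j)]
  · rw [show (∏ j : Fin (J + 2), ES (SB T M J j) (G j)) =
      ∏ j : Fin (J + 2), ES (Sj T M J j) (G j) from rfl,
      ← Finset.prod_range (fun j => ES (Sj T M J j) (G j)), Finset.prod_range_succ]
    congr 1
    · refine Finset.prod_congr rfl fun j hj => ?_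
      simp only [hG, if_pos (Finset.mem_range.1 hj)]
    · simp only [hG, if_neg (lt_irrefl _), mul_one]
  · intro j f f' hff
    have h3 : ∀ w, ∀ p ∈ Sj T M J j, tw w f p = tw w f' p := fun w => tw_congr w hff
    simp only [hG]
    rw [ZZ_congr _ (h3 w₁), Fc_congr (α := α) (h3 w₂), Fc_congr (α := α') (h3 w₂)]

/-- Fourth moment of the Euler product with two truncated exponentials. -/
lemma core4 : ∃ C : ℝ, 0 < C ∧ ∀ c₁ : ℝ, 0 < c₁ → ∃ M₀ : ℕ, 1 ≤ M₀ ∧ ∀ M : ℕ, M₀ ≤ M →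
    ∃ T₀ : ℝ, 3 ≤ T₀ ∧ ∀ T, T₀ ≤ T → ∀ k : ℝ, 0 ≤ k → k ≤ 1 →
    ∀ (z : ℂ) (a₂ c : ℝ), 0 ≤ c → 0 ≤ z.re → -c₁ ≤ a₂ → a₂ ≤ c →
    ER (SB T M (JJ T)) (fun f =>
        ‖ZZ (UU (SB T M (JJ T))) (tw ((1 / 2 : ℂ) + z / Real.log T) f)‖ ^ 4 *
        (‖AA T M (JJ T) (-1) (Finset.range (JJ T + 1)) ∅
          (tw ((1 / 2 + a₂ / Real.log T : ℝ) : ℂ) f)‖ ^ 2 *
        ‖AA T M (JJ T) (k - 1) (Finset.range (JJ T + 1)) ∅
          (tw ((1 / 2 + a₂ / Real.log T : ℝ) : ℂ) f)‖ ^ 2)) ≤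
      Real.exp (C * M) * (1 + ‖z‖) ^ 48 * (1 + c) ^ 48 * (Real.log T) ^ (k ^ 2) := by
  obtain ⟨Cg, hCg, good⟩ := good_block4
  obtain ⟨Ct, hCt, top⟩ := top_block4
  obtain ⟨Cm, hCm, hmin⟩ := sum_min
  obtain ⟨Cs, hCs, hS0⟩ := sum_inv_S0
  obtain ⟨Cr, hCr, hrange⟩ := sum_inv_block
  obtain ⟨C1, hC1, hlogdiv⟩ := sum_log_div_le
  obtain ⟨C3, hC3, hinv⟩ := sum_inv
  set C := C3 + 96 * Cm + 50 + 8 * Cg + 490 * Real.exp (4 * Cg) + 2 * Ct with hC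
  refine ⟨C, by positivity, fun c₁ hc₁ => ?_⟩
  refine ⟨⌈40 * c₁ + 100⌉₊ + 1, by omega, fun M hM => ?_⟩
  have hMr : 40 * c₁ + 100 ≤ M := by
    have h1 := Nat.le_ceil (40 * c₁ + 100)
    have h2 : (⌈40 * c₁ + 100⌉₊ : ℝ) ≤ M := by exact_mod_cast (by omega :
      ⌈40 * c₁ + 100⌉₊ ≤ M)
    linarith
  have hM1 : 1 ≤ M := by omega
  have hM1' : (1 : ℝ) ≤ M := by exact_mod_cast hM1
  set D := Cr + 10 * (6 + 2 * Cg * (1 + Cs)) with hD
  obtain ⟨T₀, hT₀, hev⟩ := eventually_T M (c₁ * 20) D (c₁ * C1)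
  refine ⟨T₀, hT₀, fun T hT k hk0 hk1 z a₂ c hc hz ha2 ha2c => ?_⟩
  obtain ⟨hb1, hLc, hbet, hK0, hLc₁⟩ := hev T hT
  have hT3 : 3 ≤ T := hT₀.trans hT
  have hT1 : 1 < T := by linarith
  have hT0 : 0 < T := by linarith
  have hL : 0 < Real.log T := Real.log_pos hT1
  set J := JJ T with hJ
  set L := Real.log T with hLdef
  set b := Real.log L with hb
  have hDC : Cr ≤ D := by
    have : 0 ≤ 10 * (6 + 2 * Cg * (1 + Cs)) := by positivity
    linarith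
  obtain ⟨hj, htop⟩ := hrange T hT3 M J (hDC.trans hbet)
  have hcM : c₁ * Real.exp (-(M : ℝ)) ≤ 1 / 40 := by
    rw [Real.exp_neg, ← div_eq_mul_inv, div_le_iff₀ (Real.exp_pos _)]
    have := Real.add_one_le_exp (M : ℝ)
    linarith
  have hbJ : bet M J J = Real.exp (-(M : ℝ)) := by
    rw [bet]; congr 1; ring
  -- the primes of the lower blocks
  have hθ : ∀ j, j ≤ J → ∀ p ∈ Sj T M J j, c₁ * (Real.log p / L) ≤ 1 / 40 := by
    intro j hj p hp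
    have hp' := (mem_Sj hT1).1 hp
    have hp1 : (0 : ℝ) < p := by exact_mod_cast hp'.1.pos
    have h1 : Real.log p ≤ bet M J J * L := by
      rw [← log_yy (le_refl J)]
      exact Real.log_le_log hp1 (hp'.2.2.trans (yy_mono hT1 M J (by omega)))
    have h2 : Real.log p / L ≤ bet M J J := by
      rw [div_le_iff₀ hL]; exact h1
    rw [hbJ] at h2
    calc c₁ * (Real.log p / L) ≤ c₁ * Real.exp (-(M : ℝ)) := by gcongr
      _ ≤ _ := hcM
  have hre : ((1 / 2 : ℂ) + z / (L : ℂ)).re = 1 / 2 + z.re / L := by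
    rw [add_re, div_ofReal_re]; norm_num
  have hyp : ∀ j, j ≤ J → ∀ p ∈ Sj T M J j,
      yp ((1 / 2 : ℂ) + z / (L : ℂ)).re (1 / 2 + a₂ / L) p ≤ 3 / 4 ∧
      yp ((1 / 2 : ℂ) + z / (L : ℂ)).re (1 / 2 + a₂ / L) p ^ 2 ≤ 2 * (1 / p) ∧
      yp ((1 / 2 : ℂ) + z / (L : ℂ)).re (1 / 2 + a₂ / L) p ^ 4 ≤ 4 * ((p : ℝ) ^ 2)⁻¹ := by
    intro j hj p hp
    rw [hre]
    exact yp_le (prime_Sj hT1 hp) hL hz ha2 hc₁.le (by have := hθ j hj p hp; linarith)
  set w₁ : ℂ := (1 / 2 : ℂ) + z / (L : ℂ) with hw₁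
  set w₂ : ℝ := 1 / 2 + a₂ / L with hw₂
  have hw₁re : 1 / 2 ≤ w₁.re := by
    rw [hre]
    have : 0 ≤ z.re / L := by positivity
    linarith
  set Y : ℕ → ℝ := fun j => ∑ p ∈ Sj T M J j, yp w₁.re w₂ p ^ 2 with hY
  have hY0 : Y 0 ≤ 2 * (b + Cs) := by
    calc Y 0 ≤ ∑ p ∈ Sj T M J 0, 2 * (1 / (p : ℝ)) :=
          Finset.sum_le_sum fun p hp => (hyp 0 (Nat.zero_le _) p hp).2.1
      _ = 2 * ∑ p ∈ Sj T M J 0, 1 / (p : ℝ) := by rw [Finset.mul_sum]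
      _ ≤ _ := by
          have := hS0 T hT3 M J
          gcongr
  have hYj : ∀ j, 1 ≤ j → j ≤ J → Y j ≤ 4 := by
    intro j h1 h2
    calc Y j ≤ ∑ p ∈ Sj T M J j, 2 * (1 / (p : ℝ)) :=
          Finset.sum_le_sum fun p hp => (hyp j h2 p hp).2.1
      _ = 2 * ∑ p ∈ Sj T M J j, 1 / (p : ℝ) := by rw [Finset.mul_sum]
      _ ≤ 2 * 2 := by
          have := hj j h1 h2
          gcongr
      _ = 4 := by norm_num
  have hK0' : 10 * (6 + 2 * Cg * (b + Cs)) ≤ KK M J 0 := by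
    refine le_trans ?_ hK0
    have h2 : 10 * (6 + 2 * Cg * (b + Cs)) ≤
        10 * (6 + 2 * Cg * (1 + Cs)) * (b + 1) := by
      have h3 : b + Cs ≤ (1 + Cs) * (b + 1) := by nlinarith
      have h4 : 2 * Cg * (b + Cs) ≤ 2 * Cg * ((1 + Cs) * (b + 1)) := by gcongr
      nlinarith
    have h5 : 10 * (6 + 2 * Cg * (1 + Cs)) * (b + 1) ≤ D * (b + 1) := by
      gcongr
      linarith
    exact h2.trans h5
  have hgood : ∀ j, j ≤ J → Real.exp (-(ll M J j : ℝ) + Cg * Y j) ≤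
      Real.exp (4 * Cg) * Real.exp (-KK M J j) := by
    intro j hjJ
    rw [← Real.exp_add]
    apply Real.exp_le_exp.2
    have hKpos := Len.KK_ge_one (M := M) hjJ
    have hl : 10 * KK M J j ≤ ll M J j := Nat.le_ceil _
    rcases Nat.eq_zero_or_pos j with rfl | hpos
    · have h1 : Cg * Y 0 ≤ Cg * (2 * (b + Cs)) := by gcongr
      linarith
    · have h1 : Cg * Y j ≤ Cg * 4 := by
        have := hYj j hpos hjJ
        gcongr
      linarith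
  -- the exponents
  set Ex : ℕ → ℝ := fun j => ∑ p ∈ Sj T M J j,
    (‖2 * (p : ℂ) ^ (-w₁) + ((k - 2 : ℝ) : ℂ) * ((p : ℝ) ^ (-w₂) : ℝ)‖ ^ 2 +
        Cg * (yp w₁.re w₂ p) ^ 4) with hEx
  set F : ℕ → ℝ := fun p => k ^ 2 * (1 / p) + 48 * (1 / p * min 1 ((1 + ‖z‖) * (Real.log p / L))) +
    48 * (1 / p * min 1 ((1 + c) * (Real.log p / L))) + 48 * (c₁ / L) * (Real.log p / p) +
    4 * Cg * ((p : ℝ) ^ 2)⁻¹ with hF
  have hθ0 : ∀ p : ℕ, 0 ≤ Real.log p / L := fun p =>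
    div_nonneg (Real.log_natCast_nonneg p) hL.le
  have hF0 : ∀ p, 0 ≤ F p := by
    intro p
    have h1 := hθ0 p
    have h2 := Real.log_natCast_nonneg p
    have h3 : 0 ≤ min 1 ((1 + ‖z‖) * (Real.log p / L)) := le_min zero_le_one (by positivity)
    have h4 : 0 ≤ min 1 ((1 + c) * (Real.log p / L)) := le_min zero_le_one (by positivity)
    simp only [hF]
    positivity
  have hExF : ∀ j, j ≤ J → Ex j ≤ ∑ p ∈ Sj T M J j, F p := by
    intro j hjJ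
    refine Finset.sum_le_sum fun p hp => ?_
    have hpp := prime_Sj hT1 hp
    have hp0 : (0 : ℝ) < p := by exact_mod_cast hpp.pos
    have h4 := (hyp j hjJ p hp).2.2
    have h5 := hθ j hjJ p hp
    rw [hw₁, hw₂, norm_form4 hpp.pos]
    have h6 := expo4_le (z := z) (a₂ := a₂) hk0 hk1 (hθ0 p) hz ha2 ha2c hc₁.le hc (by linarith)
    have h7 : min 1 (‖z‖ * (Real.log p / L)) ≤ min 1 ((1 + ‖z‖) * (Real.log p / L)) := by
      have := hθ0 p
      gcongr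
      linarith
    have h8 : min 1 (c * (Real.log p / L)) ≤ min 1 ((1 + c) * (Real.log p / L)) := by
      have := hθ0 p
      gcongr
      linarith
    have h9 : Cg * yp w₁.re w₂ p ^ 4 ≤ Cg * (4 * ((p : ℝ) ^ 2)⁻¹) := by gcongr
    calc _ ≤ 1 / p * (k ^ 2 + 48 * min 1 ((1 + ‖z‖) * (Real.log p / L)) +
          48 * min 1 ((1 + c) * (Real.log p / L)) + 48 * (c₁ * (Real.log p / L))) +
          Cg * (4 * ((p : ℝ) ^ 2)⁻¹) := by
          gcongr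
          linarith
      _ = F p := by simp only [hF]; ring
  have hsum : ∑ j ∈ Finset.range (J + 1), Ex j ≤ k ^ 2 * b + (48 * Real.log (1 + ‖z‖) +
      48 * Real.log (1 + c) + (C3 + 96 * Cm + 50 + 8 * Cg)) := by
    have h1 : ∑ j ∈ Finset.range (J + 1), Ex j ≤
        ∑ j ∈ Finset.range (J + 1), ∑ p ∈ Sj T M J j, F p := by
      refine Finset.sum_le_sum fun j hj => hExF j ?_
      have := Finset.mem_range.1 hj
      omega
    have h2 := sum_blocks_le hT1 M J (Finset.Subset.refl (Finset.range (J + 1)))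
      F hF0
    refine h1.trans (h2.trans ?_)
    have hyy : Real.log (yy T M J (J + 1)) = Real.exp (-(M : ℝ)) * L := by
      rw [log_yy (le_refl J), hbJ]
    have hyy1 : 1 ≤ yy T M J (J + 1) := by
      rw [Len.yy_succ (le_refl J)]
      exact Real.one_le_exp (mul_nonneg (bet_pos _ _ _).le hL.le)
    have hyyT : yy T M J (J + 1) ≤ T := yy_le hT1 M J (by omega)
    have hsub : PS 0 (yy T M J (J + 1)) ⊆ PS 0 T := PS_mono (by linarith) hyyT
    have s1 : ∑ p ∈ PS 0 (yy T M J (J + 1)), (1 : ℝ) / p ≤ b + C3 := by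
      have h3 := (abs_le.1 (hinv T (by linarith))).2
      have h4 := Finset.sum_le_sum_of_subset_of_nonneg hsub
        (f := fun p : ℕ => (1 : ℝ) / p) (fun _ _ _ => by positivity)
      linarith
    have s2 : ∀ Λ : ℝ, 1 ≤ Λ → ∑ p ∈ PS 0 (yy T M J (J + 1)),
        1 / (p : ℝ) * min 1 (Λ * (Real.log p / L)) ≤ Real.log Λ + Cm := by
      intro Λ hΛ
      refine le_trans ?_ (hmin T hT3 Λ hΛ)
      apply Finset.sum_le_sum_of_subset_of_nonneg hsub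
      intro p _ _
      have h5 := hθ0 p
      have h3 : 0 ≤ min 1 (Λ * (Real.log p / L)) := le_min zero_le_one (by positivity)
      positivity
    have s3 : ∑ p ∈ PS 0 (yy T M J (J + 1)), Real.log p / (p : ℝ) ≤
        Real.exp (-(M : ℝ)) * L + C1 := by
      have := hlogdiv _ hyy1
      rwa [hyy] at this
    have s4 : ∑ p ∈ PS 0 (yy T M J (J + 1)), ((p : ℝ) ^ 2)⁻¹ ≤ 2 :=
      sum_inv_sq fun p hp => prime_PS hp
    have t2 := s2 (1 + ‖z‖) (by linarith [norm_nonneg z])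
    have t3 := s2 (1 + c) (by linarith)
    have e : ∑ p ∈ PS 0 (yy T M J (J + 1)), F p =
        k ^ 2 * ∑ p ∈ PS 0 (yy T M J (J + 1)), (1 : ℝ) / p +
        48 * ∑ p ∈ PS 0 (yy T M J (J + 1)), 1 / (p : ℝ) * min 1 ((1 + ‖z‖) * (Real.log p / L)) +
        48 * ∑ p ∈ PS 0 (yy T M J (J + 1)), 1 / (p : ℝ) * min 1 ((1 + c) * (Real.log p / L)) +
        48 * (c₁ / L) * ∑ p ∈ PS 0 (yy T M J (J + 1)), Real.log p / (p : ℝ) +
        4 * Cg * ∑ p ∈ PS 0 (yy T M J (J + 1)), ((p : ℝ) ^ 2)⁻¹ := by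
      simp only [hF, Finset.sum_add_distrib, ← Finset.mul_sum]
    rw [e]
    have hk2 : k ^ 2 ≤ 1 := pow_le_one₀ hk0 hk1
    have u1 : k ^ 2 * ∑ p ∈ PS 0 (yy T M J (J + 1)), (1 : ℝ) / p ≤ k ^ 2 * b + C3 := by
      calc _ ≤ k ^ 2 * (b + C3) := by gcongr
        _ ≤ k ^ 2 * b + 1 * C3 := by
            rw [mul_add]; gcongr
        _ = _ := by ring
    have u4 : 48 * (c₁ / L) * ∑ p ∈ PS 0 (yy T M J (J + 1)), Real.log p / (p : ℝ) ≤ 50 := by
      calc _ ≤ 48 * (c₁ / L) * (Real.exp (-(M : ℝ)) * L + C1) := by gcongr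
        _ = 48 * (c₁ * Real.exp (-(M : ℝ))) + 48 * ((c₁ * C1) / L) := by
            field_simp
        _ ≤ 48 * (1 / 40) + 48 * 1 := by
            gcongr
            rw [div_le_one hL]
            exact hLc
        _ ≤ 50 := by norm_num
    have u5 : 4 * Cg * ∑ p ∈ PS 0 (yy T M J (J + 1)), ((p : ℝ) ^ 2)⁻¹ ≤ 8 * Cg := by
      calc _ ≤ 4 * Cg * 2 := by gcongr
        _ = _ := by ring
    linarith
  -- assembling
  rw [ER_factor4 hT1]
  have hprod : ∏ j ∈ Finset.range (J + 1), ES (Sj T M J j) (fun f =>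
      ‖ZZ (Sj T M J j) (tw w₁ f)‖ ^ 4 *
      (‖Fc T M J (-1) (Finset.range (J + 1)) ∅ j (tw (w₂ : ℂ) f)‖ ^ 2 *
        ‖Fc T M J (k - 1) (Finset.range (J + 1)) ∅ j (tw (w₂ : ℂ) f)‖ ^ 2)) ≤
      Real.exp (∑ j ∈ Finset.range (J + 1),
        (Ex j + 98 * (Real.exp (4 * Cg) * Real.exp (-KK M J j)))) := by
    rw [Real.exp_sum]
    refine Finset.prod_le_prod (fun j _ => integral_nonneg fun ω => by positivity) fun j hj => ?_
    have hjJ : j ≤ J := by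
      have := Finset.mem_range.1 hj
      omega
    have h1 := good M (ll M J j) (Sj T M J j) w₁ w₂ k hM1 (by linarith) hk0 hk1
      (fun p hp => prime_Sj hT1 hp) (fun p hp => (hyp j hjJ p hp).1)
    have e1 : (fun f : ℕ → ℂ => ‖ZZ (Sj T M J j) (tw w₁ f)‖ ^ 4 *
        (‖Fc T M J (-1) (Finset.range (J + 1)) ∅ j (tw (w₂ : ℂ) f)‖ ^ 2 *
        ‖Fc T M J (k - 1) (Finset.range (J + 1)) ∅ j (tw (w₂ : ℂ) f)‖ ^ 2)) = fun f : ℕ → ℂ =>
        ‖ZZ (Sj T M J j) (tw w₁ f)‖ ^ 4 *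
        (‖Ntr (ll M J j) (-1) (Pj M (Sj T M J j) (tw (w₂ : ℂ) f))‖ ^ 2 *
        ‖Ntr (ll M J j) (k - 1) (Pj M (Sj T M J j) (tw (w₂ : ℂ) f))‖ ^ 2) := by
      funext f
      rw [Fc_good hj (Finset.notMem_empty _), Fc_good hj (Finset.notMem_empty _)]
    rw [e1]
    refine h1.trans ?_
    rw [← Real.exp_add]
    apply Real.exp_le_exp.2
    have h2 := hgood j hjJ
    simp only [hEx]
    gcongr
  have htop' := (top (Sj T M J (J + 1)) w₁ hw₁re (fun p hp => prime_Sj hT1 hp)).trans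
    (Real.exp_le_exp.2 (mul_le_mul_of_nonneg_left htop hCt))
  have hsumK : ∑ j ∈ Finset.range (J + 1), Real.exp (-KK M J j) ≤ 5 := sum_exp_KK M J
  have hexp : ∑ j ∈ Finset.range (J + 1),
        (Ex j + 98 * (Real.exp (4 * Cg) * Real.exp (-KK M J j))) ≤
      k ^ 2 * b + (48 * Real.log (1 + ‖z‖) + 48 * Real.log (1 + c) +
        (C3 + 96 * Cm + 50 + 8 * Cg)) + 490 * Real.exp (4 * Cg) := by
    rw [Finset.sum_add_distrib]
    have h1 : ∑ j ∈ Finset.range (J + 1), 98 * (Real.exp (4 * Cg) * Real.exp (-KK M J j)) ≤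
        490 * Real.exp (4 * Cg) := by
      rw [← Finset.mul_sum, ← Finset.mul_sum]
      calc 98 * (Real.exp (4 * Cg) * ∑ j ∈ Finset.range (J + 1), Real.exp (-KK M J j))
          ≤ 98 * (Real.exp (4 * Cg) * 5) := by gcongr
        _ = _ := by ring
    linarith
  have hz1 : 0 < 1 + ‖z‖ := by positivity
  have hc1 : 0 < 1 + c := by positivity
  calc _ ≤ (Real.exp (k ^ 2 * b + (48 * Real.log (1 + ‖z‖) + 48 * Real.log (1 + c) +
        (C3 + 96 * Cm + 50 + 8 * Cg)) + 490 * Real.exp (4 * Cg))) * Real.exp (Ct * (M + 1)) := by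
        refine mul_le_mul (hprod.trans ?_) htop' (integral_nonneg fun ω => by positivity)
          (by positivity)
        exact Real.exp_le_exp.2 hexp
    _ = (Real.exp (C3 + 96 * Cm + 50 + 8 * Cg + 490 * Real.exp (4 * Cg) + Ct * (M + 1))) *
        (1 + ‖z‖) ^ 48 * (1 + c) ^ 48 * L ^ (k ^ 2) := by
        have e1 : (1 + ‖z‖) ^ 48 = Real.exp (48 * Real.log (1 + ‖z‖)) := by
          rw [show 48 * Real.log (1 + ‖z‖) = ((48 : ℕ) : ℝ) * Real.log (1 + ‖z‖) by norm_num,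
            Real.exp_nat_mul, Real.exp_log hz1]
        have e2 : (1 + c) ^ 48 = Real.exp (48 * Real.log (1 + c)) := by
          rw [show 48 * Real.log (1 + c) = ((48 : ℕ) : ℝ) * Real.log (1 + c) by norm_num,
            Real.exp_nat_mul, Real.exp_log hc1]
        rw [e1, e2, Real.rpow_def_of_pos hL, ← Real.exp_add, ← Real.exp_add,
          ← Real.exp_add, ← Real.exp_add]
        congr 1
        rw [← hb]
        ring
    _ ≤ _ := by
        have h0 : 0 ≤ L ^ (k ^ 2) := Real.rpow_nonneg hL.le _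
        gcongr
        have h1 : 0 ≤ C3 + 96 * Cm + 50 + 8 * Cg + 490 * Real.exp (4 * Cg) := by positivity
        have h2 : C3 + 96 * Cm + 50 + 8 * Cg + 490 * Real.exp (4 * Cg) ≤
          (C3 + 96 * Cm + 50 + 8 * Cg + 490 * Real.exp (4 * Cg)) * M := le_mul_of_one_le_right h1 hM1'
        have h3 : Ct ≤ Ct * M := le_mul_of_one_le_right hCt hM1'
        rw [hC]
        linarith

end XB

end Pool.Agent.Lib.MP_973905_nt
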