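import Pool.Agent.Lib.MP_973905_nt.Basic

namespace Pool.Agent.Lib.MP_973905_nt

open MeasureTheory ProbabilityTheory Complex Filter Topology

/-- The variance of our Gaussian weights. -/
noncomputable def VV (T : ℝ) : NNReal := Real.toNNReal (T ^ (19 / 10 : ℝ))

/-- Gaussian mean value. -/
noncomputable def EG {E : Type*} [NormedAddCommGroup E] [NormedSpace ℝ E] (T τ : ℝ)
    (F : ℝ → E) : E :=
  ∫ t, F t ∂(gaussianReal τ (VV T))

lemma VV_coe {T : ℝ} (hT : 0 ≤ T) : ((VV T : NNReal) : ℝ) = T ^ (19 / 10 : ℝ) :=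
  Real.coe_toNNReal _ (Real.rpow_nonneg hT _)

lemma norm_fs (s : ℂ) {n : ℕ} (hn : n ≠ 0) : ‖fs s n‖ = (n : ℝ) ^ (-s.re) := by
  simp only [fs]
  rw [norm_natCast_cpow_of_pos (Nat.pos_of_ne_zero hn)]
  simp

lemma fs_mul_I (t : ℝ) {n : ℕ} (hn : n ≠ 0) : fs (t * I) n = cexp (((-Real.log n) * t : ℝ) * I) := by
  have h0 : (n : ℂ) ≠ 0 := by exact_mod_cast hn
  simp only [fs]
  rw [cpow_def_of_ne_zero h0]
  congr 1
  rw [← natCast_log]
  push_cast
  ring

lemma abs_log_sub_log_ge {m n : ℕ} {N : ℝ} (hm : 1 ≤ m) (hn : 1 ≤ n) (hmN : (m : ℝ) ≤ N)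
    (hnN : (n : ℝ) ≤ N) (h : m ≠ n) : 1 / N ≤ |Real.log m - Real.log n| := by
  wlog hlt : n < m generalizing m n
  · rw [abs_sub_comm]
    exact this hn hm hnN hmN h.symm (lt_of_le_of_ne (not_lt.mp hlt) h)
  have hm0 : (0 : ℝ) < m := by exact_mod_cast hm
  have hn0 : (0 : ℝ) < n := by exact_mod_cast hn
  have h1 : 1 / N ≤ 1 / (m : ℝ) := one_div_le_one_div_of_le hm0 hmN
  have h2 : Real.log m - Real.log n = Real.log (m / n) := by
    rw [Real.log_div hm0.ne' hn0.ne']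
  have h3 := Real.one_sub_inv_le_log_of_pos (div_pos hm0 hn0)
  have h4 : 1 / (m : ℝ) ≤ 1 - ((m : ℝ) / n)⁻¹ := by
    rw [inv_div]
    have : (n : ℝ) + 1 ≤ m := by exact_mod_cast hlt
    rw [show (1 : ℝ) - n / m = (m - n) / m by field_simp]
    gcongr
    linarith
  rw [h2]
  exact (h1.trans (h4.trans h3)).trans (le_abs_self _)

lemma norm_gauss_char (τ : ℝ) (v : NNReal) (x : ℝ) :
    ‖∫ t : ℝ, cexp ((x * t : ℝ) * I) ∂(gaussianReal τ v)‖ = Real.exp (-(v * x ^ 2 / 2)) := by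
  have h := charFun_gaussianReal (μ := τ) (v := v) x
  rw [charFun_apply_real] at h
  have e : (fun t : ℝ => cexp ((x * t : ℝ) * I)) = fun t : ℝ => cexp (x * t * I) := by
    ext t; push_cast; rfl
  rw [e, h, norm_exp]
  congr 1
  have : (x * (τ : ℂ) * I - v * x ^ 2 / 2) = ((-(v * x ^ 2 / 2) : ℝ) : ℂ) + ((x * τ : ℝ) : ℂ) * I := by
    push_cast; ring
  rw [this, add_re, ofReal_re, re_ofReal_mul, I_re, mul_zero, add_zero]

lemma eg_pair (T τ : ℝ) {m n : ℕ} {N : ℝ} (hm : 1 ≤ m) (hn : 1 ≤ n) (hmN : (m : ℝ) ≤ N)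
    (hnN : (n : ℝ) ≤ N) :
    ‖EG T τ (fun t => fs (t * I) m * (starRingEnd ℂ) (fs (t * I) n)) -
      (if m = n then 1 else 0)‖ ≤ Real.exp (-(VV T / (2 * N ^ 2))) := by
  have hm0 : m ≠ 0 := by omega
  have hn0 : n ≠ 0 := by omega
  have e : ∀ t : ℝ, fs (t * I) m * (starRingEnd ℂ) (fs (t * I) n) =
      cexp (((Real.log n - Real.log m) * t : ℝ) * I) := by
    intro t
    rw [fs_mul_I t hm0, fs_mul_I t hn0, ← exp_conj, ← exp_add]
    congr 1
    simp only [map_mul, conj_I, conj_ofReal]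
    push_cast
    ring
  simp only [EG, e]
  by_cases h : m = n
  · subst h
    simp [Real.exp_nonneg]
  · rw [if_neg h, sub_zero, norm_gauss_char]
    apply Real.exp_le_exp.mpr
    rw [neg_le_neg_iff]
    have h1 := abs_log_sub_log_ge hm hn hmN hnN h
    have hN : 0 < N := lt_of_lt_of_le (by exact_mod_cast hm) hmN
    have h2 : (1 / N) ^ 2 ≤ (Real.log n - Real.log m) ^ 2 := by
      rw [← sq_abs (Real.log n - Real.log m), abs_sub_comm]
      exact pow_le_pow_left₀ (by positivity) h1 2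
    calc (VV T : ℝ) / (2 * N ^ 2) = VV T * (1 / N) ^ 2 / 2 := by field_simp
      _ ≤ _ := by gcongr

/-- polynomially bounded functions are integrable -/
lemma integrable_one_add_abs_pow (τ : ℝ) (v : NNReal) (m : ℕ) :
    Integrable (fun t : ℝ => (1 + |t|) ^ m) (gaussianReal τ v) := by
  have h1 : Integrable (fun t : ℝ => Real.exp (1 * t) + Real.exp ((-1) * t)) (gaussianReal τ v) :=
    (integrable_exp_mul_gaussianReal 1).add (integrable_exp_mul_gaussianReal (-1))
  refine (h1.const_mul (m.factorial * Real.exp 1)).mono' (by fun_prop) ?_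
  refine Filter.Eventually.of_forall fun t => ?_
  rw [Real.norm_eq_abs, abs_of_nonneg (by positivity)]
  have h2 := Real.pow_div_factorial_le_exp (1 + |t|) (by positivity) m
  rw [div_le_iff₀ (by positivity)] at h2
  have h3 : Real.exp |t| ≤ Real.exp (1 * t) + Real.exp ((-1) * t) := by
    rcases abs_cases t with ⟨h, _⟩ | ⟨h, _⟩ <;> rw [h]
    · rw [one_mul]; linarith [Real.exp_pos ((-1) * t)]
    · rw [neg_one_mul]; linarith [Real.exp_pos (1 * t)]
  calc (1 + |t|) ^ m ≤ Real.exp (1 + |t|) * m.factorial := h2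
    _ = m.factorial * Real.exp 1 * Real.exp |t| := by rw [Real.exp_add]; ring
    _ ≤ _ := by gcongr

lemma integrable_of_poly {E : Type*} [NormedAddCommGroup E] (τ : ℝ) (v : NNReal)
    {F : ℝ → E} (hF : AEStronglyMeasurable F (gaussianReal τ v)) {C : ℝ} {m : ℕ}
    (h : ∀ t, ‖F t‖ ≤ C * (1 + |t|) ^ m) : Integrable F (gaussianReal τ v) :=
  ((integrable_one_add_abs_pow τ v m).const_mul C).mono' hF (Filter.Eventually.of_forall h)

lemma integral_exp_abs_le (τ : ℝ) (v : NNReal) {l : ℝ} (hl : 0 ≤ l) :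
    ∫ t : ℝ, Real.exp (l * |t|) ∂(gaussianReal τ v) ≤ 2 * Real.exp (l * |τ| + v * l ^ 2 / 2) := by
  have h1 : ∀ t : ℝ, Real.exp (l * |t|) ≤ Real.exp (l * t) + Real.exp ((-l) * t) := by
    intro t
    rcases abs_cases t with ⟨h, _⟩ | ⟨h, _⟩ <;> rw [h]
    · linarith [Real.exp_pos ((-l) * t)]
    · rw [mul_neg, neg_mul]; linarith [Real.exp_pos (l * t)]
  have hi : Integrable (fun t : ℝ => Real.exp (l * t) + Real.exp ((-l) * t)) (gaussianReal τ v) :=
    (integrable_exp_mul_gaussianReal l).add (integrable_exp_mul_gaussianReal (-l))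
  have hi0 : Integrable (fun t : ℝ => Real.exp (l * |t|)) (gaussianReal τ v) := by
    refine hi.mono' (by fun_prop) (Filter.Eventually.of_forall fun t => ?_)
    rw [Real.norm_eq_abs, abs_of_pos (Real.exp_pos _)]
    exact h1 t
  have hm : ∀ x : ℝ, ∫ t : ℝ, Real.exp (x * t) ∂(gaussianReal τ v) =
      Real.exp (τ * x + v * x ^ 2 / 2) := by
    intro x
    have := congrFun (mgf_fun_id_gaussianReal (μ := τ) (v := v)) x
    simpa [mgf] using this
  calc ∫ t : ℝ, Real.exp (l * |t|) ∂(gaussianReal τ v)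
      ≤ ∫ t : ℝ, (Real.exp (l * t) + Real.exp ((-l) * t)) ∂(gaussianReal τ v) :=
        integral_mono hi0 hi h1
    _ = Real.exp (τ * l + v * l ^ 2 / 2) + Real.exp (τ * (-l) + v * (-l) ^ 2 / 2) := by
        rw [integral_add (integrable_exp_mul_gaussianReal l) (integrable_exp_mul_gaussianReal (-l)),
          hm, hm]
    _ ≤ Real.exp (l * |τ| + v * l ^ 2 / 2) + Real.exp (l * |τ| + v * l ^ 2 / 2) := by
        gcongr ?_ + ?_ <;> apply Real.exp_le_exp.mpr
        · have := mul_le_mul_of_nonneg_left (le_abs_self τ) hl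
          linarith
        · have := mul_le_mul_of_nonneg_left (neg_le_abs τ) hl
          nlinarith
    _ = _ := by ring

lemma eventually_poly_tail (m : ℕ) : ∀ᶠ T : ℝ in atTop,
    2 * m.factorial * Real.exp 1 * (T ^ (9 / 10 : ℝ)) ^ m ≤ Real.exp (T ^ (1 / 10 : ℝ)) := by
  have h1 : Tendsto (fun T : ℝ => T ^ (1 / 10 : ℝ)) atTop atTop :=
    tendsto_rpow_atTop (by norm_num)
  have h2 : ∀ᶠ u : ℝ in atTop, 2 * m.factorial * Real.exp 1 * (u ^ (9 * m)) ≤ Real.exp u := by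
    have := (Real.isLittleO_pow_exp_atTop (n := 9 * m)).def
      (c := (2 * m.factorial * Real.exp 1)⁻¹) (by positivity)
    filter_upwards [this, eventually_ge_atTop 0] with u hu hu0
    rw [Real.norm_eq_abs, Real.norm_eq_abs, abs_of_nonneg (by positivity),
      abs_of_pos (Real.exp_pos _)] at hu
    have h3 := mul_le_mul_of_nonneg_left hu (show 0 ≤ 2 * (m.factorial : ℝ) * Real.exp 1 by positivity)
    rwa [← mul_assoc, mul_inv_cancel₀ (by positivity), one_mul] at h3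
  filter_upwards [h1.eventually h2, eventually_ge_atTop 0] with T hT hT0
  convert hT using 2
  rw [← Real.rpow_natCast, ← Real.rpow_natCast, ← Real.rpow_mul hT0, ← Real.rpow_mul hT0]
  congr 1
  push_cast
  ring

/-- The part `|t| > 8T` of Gaussian means of polynomially bounded functions is negligible. -/
theorem eg_tail (m : ℕ) : ∃ T₀ : ℝ, ∀ T, T₀ ≤ T → ∀ τ : ℝ, |τ| ≤ 2 * T →
    EG T τ (Set.indicator {t : ℝ | 8 * T < |t|} fun t => (1 + |t|) ^ m) ≤
      Real.exp (-T ^ (1 / 10 : ℝ)) := by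
  obtain ⟨T₀, hT₀⟩ := eventually_atTop.mp (eventually_poly_tail m)
  refine ⟨max T₀ 1, fun T hT τ hτ => ?_⟩
  have hT1 : 1 ≤ T := (le_max_right _ _).trans hT
  have hTpos : 0 < T := by linarith
  have h0 := hT₀ T ((le_max_left _ _).trans hT)
  set l : ℝ := T ^ (-(9 / 10) : ℝ) with hl
  have hl0 : 0 < l := Real.rpow_pos_of_pos hTpos _
  have hl1 : l ≤ 1 := Real.rpow_le_one_of_one_le_of_nonpos hT1 (by norm_num)
  have hlT : l * T = T ^ (1 / 10 : ℝ) := by
    rw [hl]; nth_rewrite 2 [← Real.rpow_one T]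
    rw [← Real.rpow_add hTpos]; norm_num
  have hl2 : (VV T : ℝ) * (2 * l) ^ 2 / 2 = 2 * T ^ (1 / 10 : ℝ) := by
    rw [VV_coe hTpos.le, hl, mul_pow, ← Real.rpow_natCast (T ^ (-(9 / 10) : ℝ)) 2,
      ← Real.rpow_mul hTpos.le]
    rw [show T ^ (19 / 10 : ℝ) * (2 ^ 2 * T ^ (-(9 / 10) * ((2 : ℕ) : ℝ))) / 2 =
      2 * (T ^ (19 / 10 : ℝ) * T ^ (-(9 / 10) * ((2 : ℕ) : ℝ))) by ring]
    rw [← Real.rpow_add hTpos]
    norm_num
  have hlinv : l⁻¹ = T ^ (9 / 10 : ℝ) := by
    rw [hl, Real.rpow_neg hTpos.le, inv_inv]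
  have hpt : ∀ t : ℝ, Set.indicator {t : ℝ | 8 * T < |t|} (fun t => (1 + |t|) ^ m) t ≤
      m.factorial * (l⁻¹) ^ m * Real.exp (l - 8 * (l * T)) * Real.exp ((2 * l) * |t|) := by
    intro t
    by_cases ht : t ∈ {t : ℝ | 8 * T < |t|}
    · rw [Set.indicator_of_mem ht]
      have ht' : 8 * T < |t| := ht
      have h2 := Real.pow_div_factorial_le_exp (l * (1 + |t|)) (by positivity) m
      rw [div_le_iff₀ (by positivity), mul_pow] at h2
      have h3 : (1 + |t|) ^ m ≤ m.factorial * (l⁻¹) ^ m * Real.exp (l * (1 + |t|)) := by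
        have h4 := mul_le_mul_of_nonneg_left h2 (show 0 ≤ (l⁻¹) ^ m by positivity)
        rw [← mul_assoc, ← mul_pow, inv_mul_cancel₀ hl0.ne', one_pow, one_mul] at h4
        linarith
      have h5 : Real.exp (l * (1 + |t|)) ≤
          Real.exp (l - 8 * (l * T)) * Real.exp ((2 * l) * |t|) := by
        rw [← Real.exp_add]
        apply Real.exp_le_exp.mpr
        nlinarith
      calc (1 + |t|) ^ m ≤ m.factorial * (l⁻¹) ^ m * Real.exp (l * (1 + |t|)) := h3
        _ ≤ m.factorial * (l⁻¹) ^ m * (Real.exp (l - 8 * (l * T)) * Real.exp ((2 * l) * |t|)) := by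
            gcongr
        _ = _ := by ring
    · rw [Set.indicator_of_notMem ht]
      positivity
  have hint : Integrable (fun t : ℝ => Real.exp ((2 * l) * |t|)) (gaussianReal τ (VV T)) := by
    refine ((integrable_exp_mul_gaussianReal (2 * l)).add
      (integrable_exp_mul_gaussianReal (-(2 * l)))).mono' (by fun_prop)
      (Filter.Eventually.of_forall fun t => ?_)
    rw [Real.norm_eq_abs, abs_of_pos (Real.exp_pos _)]
    simp only [Pi.add_apply]
    rcases abs_cases t with ⟨h, _⟩ | ⟨h, _⟩ <;> rw [h]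
    · linarith [Real.exp_pos (-(2 * l) * t)]
    · rw [mul_neg, neg_mul]; linarith [Real.exp_pos (2 * l * t)]
  have hmeas : MeasurableSet {t : ℝ | 8 * T < |t|} :=
    measurableSet_lt measurable_const measurable_id.abs
  calc EG T τ (Set.indicator {t : ℝ | 8 * T < |t|} fun t => (1 + |t|) ^ m)
      ≤ ∫ t : ℝ, m.factorial * (l⁻¹) ^ m * Real.exp (l - 8 * (l * T)) * Real.exp ((2 * l) * |t|)
          ∂(gaussianReal τ (VV T)) := by
        apply integral_mono_of_nonneg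
        · exact Filter.Eventually.of_forall fun t =>
            Set.indicator_nonneg (fun t _ => by positivity) t
        · exact hint.const_mul _
        · exact Filter.Eventually.of_forall hpt
    _ = m.factorial * (l⁻¹) ^ m * Real.exp (l - 8 * (l * T)) *
          ∫ t : ℝ, Real.exp ((2 * l) * |t|) ∂(gaussianReal τ (VV T)) := by
        rw [integral_const_mul]
    _ ≤ m.factorial * (l⁻¹) ^ m * Real.exp (l - 8 * (l * T)) *
          (2 * Real.exp ((2 * l) * |τ| + VV T * (2 * l) ^ 2 / 2)) := by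
        gcongr
        exact integral_exp_abs_le τ (VV T) (by positivity)
    _ ≤ m.factorial * (l⁻¹) ^ m * Real.exp (1 - 8 * T ^ (1 / 10 : ℝ)) *
          (2 * Real.exp (4 * T ^ (1 / 10 : ℝ) + 2 * T ^ (1 / 10 : ℝ))) := by
        rw [hl2, hlT]
        have : (2 * l) * |τ| ≤ 4 * T ^ (1 / 10 : ℝ) := by
          rw [← hlT]; nlinarith
        gcongr
    _ = (2 * m.factorial * Real.exp 1 * (T ^ (9 / 10 : ℝ)) ^ m) *
          Real.exp (-(2 * T ^ (1 / 10 : ℝ))) := by
        rw [hlinv]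
        rw [show m.factorial * (T ^ (9 / 10 : ℝ)) ^ m * Real.exp (1 - 8 * T ^ (1 / 10 : ℝ)) *
          (2 * Real.exp (4 * T ^ (1 / 10 : ℝ) + 2 * T ^ (1 / 10 : ℝ))) =
          2 * m.factorial * (T ^ (9 / 10 : ℝ)) ^ m * (Real.exp (1 - 8 * T ^ (1 / 10 : ℝ)) *
          (Real.exp (4 * T ^ (1 / 10 : ℝ) + 2 * T ^ (1 / 10 : ℝ)))) by ring]
        rw [← Real.exp_add]
        rw [show (1 - 8 * T ^ (1 / 10 : ℝ) + (4 * T ^ (1 / 10 : ℝ) + 2 * T ^ (1 / 10 : ℝ))) =
          1 + -(2 * T ^ (1 / 10 : ℝ)) by ring, Real.exp_add]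
        ring
    _ ≤ Real.exp (T ^ (1 / 10 : ℝ)) * Real.exp (-(2 * T ^ (1 / 10 : ℝ))) := by gcongr
    _ = _ := by rw [← Real.exp_add]; congr 1; ring

end Pool.Agent.Lib.MP_973905_nt
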