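import Pool.Agent.Lib.MP_973905_nt.Core3

/-! Definitions for Ing.lean and Assemble.lean. -/

namespace Pool.Agent.Lib.MP_973905_nt

open MeasureTheory ProbabilityTheory Complex Filter Topology

/-- The point on the line `Re s = 1/2 + c / log T`. -/
noncomputable def pt (c T t : ℝ) : ℂ := ((1 / 2 + c / Real.log T : ℝ) : ℂ) + t * I

/-- The ingredients (I1)-(I4). -/
def Ing (C κ δ : ℝ) (M : ℕ) (c T τ k : ℝ) : Prop :=
  EG T τ (fun t => ‖riemannZeta (pt c T t)‖ ^ 2 *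
    ‖AA T M (JJ T) (k - 1) (Finset.range (JJ T + 1)) ∅ (fs (pt c T t))‖ ^ 2) ≤
      (1 + δ) * DJ k (1 / 2 + c / Real.log T) T M (JJ T) ∧
  EG T τ (fun t => ‖AA T M (JJ T) k (Finset.range (JJ T + 1)) ∅ (fs (pt c T t))‖ ^ 2) ≤
      (1 + δ) * DJ k (1 / 2 + c / Real.log T) T M (JJ T) ∧
  (1 - δ) * DJ k (1 / 2 + c / Real.log T) T M (JJ T) ≤ ‖EG T τ (fun t => riemannZeta (pt c T t) *
    AA T M (JJ T) (k - 1) (Finset.range (JJ T + 1)) ∅ (fs (pt c T t)) *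
    (starRingEnd ℂ) (AA T M (JJ T) k (Finset.range (JJ T + 1)) ∅ (fs (pt c T t))))‖ ∧
  ∀ g h : Finset ℕ, g ∪ h = Finset.range (JJ T + 1) →
    EG T τ (fun t => ‖riemannZeta (pt c T t)‖ ^ 2 *
      ‖AA T M (JJ T) (k - 1) g h (fs (pt c T t))‖ ^ 2) ≤
      Real.exp (C * M) * DJ k (1 / 2 + c / Real.log T) T M (JJ T) * ∏ j ∈ h, ss M (JJ T) j +
        T ^ (-κ) ∧
    EG T τ (fun t => ‖AA T M (JJ T) k g h (fs (pt c T t))‖ ^ 2) ≤
      2 * DJ k (1 / 2 + c / Real.log T) T M (JJ T) * ∏ j ∈ h, ss M (JJ T) j + T ^ (-κ)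

lemma biUnion_Sj {T : ℝ} (hT : 1 < T) (M J : ℕ) :
    (Finset.range (J + 1)).biUnion (fun j => Sj T M J j) =
      PS 0 (Real.exp (Real.exp (-(M : ℝ)) * Real.log T)) := by
  have hy : yy T M J (J + 1) = Real.exp (Real.exp (-(M : ℝ)) * Real.log T) := by
    rw [yy, if_neg (by omega), if_pos le_rfl, Nat.add_sub_cancel, bet]
    congr 3
    ring
  rw [← hy]
  ext p
  rw [Finset.mem_biUnion, mem_PS le_rfl (yy_nonneg (by linarith) _ _ _)]
  constructor
  · rintro ⟨j, hj, hpj⟩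
    have hj' := Finset.mem_range.1 hj
    have h := (mem_Sj hT).1 hpj
    exact ⟨h.1, by exact_mod_cast h.1.pos, h.2.2.trans (yy_mono hT M J (by omega))⟩
  · rintro ⟨h1, _, h3⟩
    have hpT : (p : ℝ) ≤ T := by
      have := yy_mono hT M J (show J + 1 ≤ J + 2 by omega)
      rw [yy_last] at this
      linarith
    obtain ⟨j, hj, hpj⟩ := exists_Sj hT M J h1 hpT
    refine ⟨j, ?_, hpj⟩
    rw [Finset.mem_range]
    by_contra hcon
    have hj' : j = J + 1 := by omega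
    subst hj'
    have := ((mem_Sj hT).1 hpj).2.1
    linarith

/-- The normaliser of the first blocks is the product over all primes up to `T ^ (e^{-M})`. -/
lemma DJ_eq {T : ℝ} (hT : 1 < T) (k σ : ℝ) (M J : ℕ) :
    DJ k σ T M J = ∏ p ∈ PS 0 (Real.exp (Real.exp (-(M : ℝ)) * Real.log T)),
      Dl k ((p : ℝ) ^ (-σ)) := by
  rw [DJ, ← biUnion_Sj hT M J, Finset.prod_biUnion (fun i _ j _ hij => disj_Sj hT hij)]
  exact Finset.prod_congr rfl fun j _ => DS_eq _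

end Pool.Agent.Lib.MP_973905_nt
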