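import Pool.Agent.Lib.MP_973905_nt.Gauss

/-! From Gaussian means to the sharp mean over `[0, T]`. -/

namespace Pool.Agent.Lib.MP_973905_nt

open MeasureTheory ProbabilityTheory Complex Filter Topology

namespace Sharp

lemma EG_shift (T τ : ℝ) {F : ℝ → ℝ} :
    EG T τ F = ∫ x, F (x + τ) ∂(gaussianReal 0 (VV T)) := by
  have h := gaussianReal_map_add_const (μ := 0) (v := VV T) τ
  rw [zero_add] at h
  rw [EG, ← h]
  have h2 : MeasurableEmbedding (fun x : ℝ => x + τ) := (Homeomorph.addRight τ).measurableEmbedding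
  rw [h2.integral_map]

/-- Averages of Gaussian means. -/
lemma average (T : ℝ) {F : ℝ → ℝ} (hF : Continuous F) {Cp : ℝ} (hFb : ∀ t, |F t| ≤ Cp * (1 + |t|) ^ 4)
    {a b : ℝ} (hab : a ≤ b) :
    ∫ τ in a..b, EG T τ F =
      ∫ x, (∫ t in (x + a)..(x + b), F t) ∂(gaussianReal 0 (VV T)) ∧
    Integrable (fun x => ∫ t in (x + a)..(x + b), F t) (gaussianReal 0 (VV T)) ∧
    IntervalIntegrable (fun τ => EG T τ F) volume a b := by
  have hCp : 0 ≤ Cp := by
    have := (abs_nonneg _).trans (hFb 0)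
    simpa using this
  have hint : Integrable (fun z : ℝ × ℝ => F (z.2 + z.1))
      ((volume.restrict (Set.Ioc a b)).prod (gaussianReal 0 (VV T))) := by
    have h1 : Integrable (fun τ : ℝ => Cp * (1 + |τ|) ^ 4) (volume.restrict (Set.Ioc a b)) :=
      ((by fun_prop : Continuous fun τ : ℝ => Cp * (1 + |τ|) ^ 4).integrableOn_Icc).mono_set
        Set.Ioc_subset_Icc_self
    have h2 := h1.mul_prod (integrable_one_add_abs_pow 0 (VV T) 4)
    refine h2.mono' (hF.comp (by fun_prop)).aestronglyMeasurable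
      (Filter.Eventually.of_forall fun z => ?_)
    rw [Real.norm_eq_abs]
    refine (hFb _).trans ?_
    have h3 : 1 + |z.2 + z.1| ≤ (1 + |z.1|) * (1 + |z.2|) := by
      have := abs_add_le z.2 z.1
      nlinarith [mul_nonneg (abs_nonneg z.1) (abs_nonneg z.2)]
    calc Cp * (1 + |z.2 + z.1|) ^ 4 ≤ Cp * ((1 + |z.1|) * (1 + |z.2|)) ^ 4 := by gcongr
      _ = _ := by ring
  have e : ∀ x : ℝ, ∫ t in (x + a)..(x + b), F t = ∫ τ in Set.Ioc a b, F (x + τ) := by
    intro x
    rw [← intervalIntegral.integral_of_le hab, intervalIntegral.integral_comp_add_left]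
  simp only [e]
  refine ⟨?_, hint.integral_prod_right, ?_⟩
  · rw [← integral_integral_swap hint, intervalIntegral.integral_of_le hab]
    congr 1
    funext τ
    rw [EG_shift]
  · rw [intervalIntegrable_iff_integrableOn_Ioc_of_le hab]
    refine hint.integral_prod_left.congr (Filter.Eventually.of_forall fun τ => ?_)
    simp only
    rw [EG_shift]

lemma tail_le {T : ℝ} (hT : 1 ≤ T) :
    ∫ x, Set.indicator {x : ℝ | T ^ (97 / 100 : ℝ) < |x|} (fun x => (1 + |x|) ^ 4) x
      ∂(gaussianReal 0 (VV T)) ≤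
      48 * 256 * 3 * (T ^ (1 / 100 : ℝ)) ^ 372 * Real.exp (-((T ^ (1 / 100 : ℝ)) ^ 4 / 8)) := by
  have hT0 : 0 < T := by linarith
  set u : ℝ := T ^ (1 / 100 : ℝ) with hu
  have hu1 : 1 ≤ u := Real.one_le_rpow hT (by norm_num)
  have hu0 : 0 < u := by linarith
  have hΔ : T ^ (97 / 100 : ℝ) = u ^ 97 := by
    rw [hu, ← Real.rpow_natCast, ← Real.rpow_mul hT0.le]; norm_num
  have hV : (VV T : ℝ) = u ^ 190 := by
    rw [VV_coe hT0.le, hu, ← Real.rpow_natCast, ← Real.rpow_mul hT0.le]; norm_num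
  rw [hΔ]
  set l : ℝ := (u ^ 93)⁻¹ / 4 with hl
  have hl0 : 0 < l := by positivity
  have hl1 : l ≤ 1 := by
    rw [hl]
    have : (u ^ 93)⁻¹ ≤ 1 := inv_le_one_of_one_le₀ (one_le_pow₀ hu1)
    linarith
  have hlΔ : l * u ^ 97 = u ^ 4 / 4 := by
    rw [hl]; field_simp
  have hlV : (VV T : ℝ) * (2 * l) ^ 2 / 2 = u ^ 4 / 8 := by
    rw [hV, hl]; field_simp; ring
  have hl4 : (l⁻¹) ^ 4 = 256 * u ^ 372 := by
    rw [hl]; field_simp; ring
  have hpt : ∀ x : ℝ, Set.indicator {x : ℝ | u ^ 97 < |x|} (fun x => (1 + |x|) ^ 4) x ≤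
      24 * (l⁻¹) ^ 4 * Real.exp (1 - u ^ 4 / 4) * Real.exp ((2 * l) * |x|) := by
    intro x
    by_cases hx : x ∈ {x : ℝ | u ^ 97 < |x|}
    · rw [Set.indicator_of_mem hx]
      have hx' : u ^ 97 < |x| := hx
      have h2 := Real.pow_div_factorial_le_exp (l * (1 + |x|)) (by positivity) 4
      rw [div_le_iff₀ (by positivity), mul_pow] at h2
      have h3 : (1 + |x|) ^ 4 ≤ 24 * (l⁻¹) ^ 4 * Real.exp (l * (1 + |x|)) := by
        have h4 := mul_le_mul_of_nonneg_left h2 (show 0 ≤ (l⁻¹) ^ 4 by positivity)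
        rw [← mul_assoc, ← mul_pow, inv_mul_cancel₀ hl0.ne', one_pow, one_mul] at h4
        have h5 : ((Nat.factorial 4 : ℕ) : ℝ) = 24 := by norm_num [Nat.factorial]
        rw [h5] at h4
        linarith
      have h5 : Real.exp (l * (1 + |x|)) ≤ Real.exp (1 - u ^ 4 / 4) * Real.exp ((2 * l) * |x|) := by
        rw [← Real.exp_add]
        apply Real.exp_le_exp.mpr
        rw [← hlΔ]
        have := mul_le_mul_of_nonneg_left hx'.le hl0.le
        linarith
      calc (1 + |x|) ^ 4 ≤ 24 * (l⁻¹) ^ 4 * Real.exp (l * (1 + |x|)) := h3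
        _ ≤ 24 * (l⁻¹) ^ 4 * (Real.exp (1 - u ^ 4 / 4) * Real.exp ((2 * l) * |x|)) := by gcongr
        _ = _ := by ring
    · rw [Set.indicator_of_notMem hx]
      positivity
  have hint : Integrable (fun t : ℝ => Real.exp ((2 * l) * |t|)) (gaussianReal 0 (VV T)) := by
    refine ((integrable_exp_mul_gaussianReal (2 * l)).add
      (integrable_exp_mul_gaussianReal (-(2 * l)))).mono' (by fun_prop)
      (Filter.Eventually.of_forall fun t => ?_)
    rw [Real.norm_eq_abs, abs_of_pos (Real.exp_pos _)]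
    simp only [Pi.add_apply]
    rcases abs_cases t with ⟨h, _⟩ | ⟨h, _⟩ <;> rw [h]
    · linarith [Real.exp_pos (-(2 * l) * t)]
    · rw [mul_neg, neg_mul]; linarith [Real.exp_pos (2 * l * t)]
  have he : Real.exp 1 ≤ 3 := by
    have := Real.exp_one_lt_d9; linarith
  calc ∫ x, Set.indicator {x : ℝ | u ^ 97 < |x|} (fun x => (1 + |x|) ^ 4) x ∂(gaussianReal 0 (VV T))
      ≤ ∫ x : ℝ, 24 * (l⁻¹) ^ 4 * Real.exp (1 - u ^ 4 / 4) * Real.exp ((2 * l) * |x|)
          ∂(gaussianReal 0 (VV T)) := by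
        apply integral_mono_of_nonneg
        · exact Filter.Eventually.of_forall fun t =>
            Set.indicator_nonneg (fun t _ => by positivity) t
        · exact hint.const_mul _
        · exact Filter.Eventually.of_forall hpt
    _ = 24 * (l⁻¹) ^ 4 * Real.exp (1 - u ^ 4 / 4) *
          ∫ x : ℝ, Real.exp ((2 * l) * |x|) ∂(gaussianReal 0 (VV T)) := by
        rw [integral_const_mul]
    _ ≤ 24 * (l⁻¹) ^ 4 * Real.exp (1 - u ^ 4 / 4) *
          (2 * Real.exp ((2 * l) * |0| + VV T * (2 * l) ^ 2 / 2)) := by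
        gcongr
        exact integral_exp_abs_le 0 (VV T) (by positivity)
    _ = 48 * 256 * u ^ 372 * (Real.exp (1 - u ^ 4 / 4) * Real.exp (u ^ 4 / 8)) := by
        rw [hlV, hl4, abs_zero, mul_zero, zero_add]; ring
    _ = 48 * 256 * u ^ 372 * (Real.exp 1 * Real.exp (-(u ^ 4 / 8))) := by
        rw [← Real.exp_add, ← Real.exp_add]
        congr 2; ring
    _ ≤ 48 * 256 * u ^ 372 * (3 * Real.exp (-(u ^ 4 / 8))) := by gcongr
    _ = _ := by ring

lemma tail_ev (K : ℝ) (m : ℕ) : ∀ᶠ T : ℝ in atTop,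
    K * T ^ m * ∫ x, Set.indicator {x : ℝ | T ^ (97 / 100 : ℝ) < |x|} (fun x => (1 + |x|) ^ 4) x
      ∂(gaussianReal 0 (VV T)) ≤ 1 := by
  have h1 : Tendsto (fun T : ℝ => T ^ (1 / 100 : ℝ)) atTop atTop :=
    tendsto_rpow_atTop (by norm_num)
  set K' : ℝ := |K| * (48 * 256 * 3) + 1 with hK'
  have hK0 : 0 < K' := by positivity
  have h2 : ∀ᶠ u : ℝ in atTop, K' * u ^ (100 * m + 372) ≤ Real.exp u := by
    have := (Real.isLittleO_pow_exp_atTop (n := 100 * m + 372)).def (c := K'⁻¹) (by positivity)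
    filter_upwards [this, eventually_ge_atTop 0] with u hu hu0
    rw [Real.norm_eq_abs, Real.norm_eq_abs, abs_of_nonneg (by positivity),
      abs_of_pos (Real.exp_pos _)] at hu
    have h3 := mul_le_mul_of_nonneg_left hu hK0.le
    rwa [← mul_assoc, mul_inv_cancel₀ hK0.ne', one_mul] at h3
  filter_upwards [h1.eventually h2, h1.eventually_ge_atTop 2, eventually_ge_atTop 1] with T hT hu2 hT1
  have hT0 : 0 < T := by linarith
  have ht := tail_le hT1
  set q := ∫ x, Set.indicator {x : ℝ | T ^ (97 / 100 : ℝ) < |x|} (fun x => (1 + |x|) ^ 4) x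
      ∂(gaussianReal 0 (VV T)) with hq
  set u : ℝ := T ^ (1 / 100 : ℝ) with hu
  have hu0 : 0 < u := by linarith
  have hTu : T = u ^ 100 := by
    rw [hu, ← Real.rpow_natCast, ← Real.rpow_mul hT0.le]; norm_num
  have hq0 : 0 ≤ q := integral_nonneg fun x => Set.indicator_nonneg (fun t _ => by positivity) x
  have h4 : Real.exp (-(u ^ 4 / 8)) ≤ (Real.exp u)⁻¹ := by
    rw [← Real.exp_neg]
    apply Real.exp_le_exp.mpr
    have : u * 8 ≤ u ^ 4 := by
      have h5 : 8 ≤ u ^ 3 := by
        calc (8 : ℝ) = 2 ^ 3 := by norm_num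
          _ ≤ u ^ 3 := by gcongr
      nlinarith
    linarith
  calc K * T ^ m * q ≤ |K| * T ^ m * q := by
        gcongr
        exact le_abs_self K
    _ ≤ |K| * T ^ m * (48 * 256 * 3 * u ^ 372 * (Real.exp u)⁻¹) := by
        gcongr
        exact ht.trans (by gcongr)
    _ = (|K| * (48 * 256 * 3)) * u ^ (100 * m + 372) * (Real.exp u)⁻¹ := by
        nth_rewrite 1 [hTu]
        rw [← pow_mul, pow_add]; ring
    _ ≤ K' * u ^ (100 * m + 372) * (Real.exp u)⁻¹ := by
        gcongr
        rw [hK']; linarith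
    _ ≤ Real.exp u * (Real.exp u)⁻¹ := by gcongr
    _ = 1 := mul_inv_cancel₀ (Real.exp_pos _).ne'

end Sharp

open Sharp in
/-- From Gaussian means to the sharp mean over `[0, T]`. -/
theorem sharp (ε Cp : ℝ) (hε : 0 < ε) (hε1 : ε ≤ 1) : ∃ T₀ : ℝ, 3 ≤ T₀ ∧ ∀ T, T₀ ≤ T →
    ∀ F : ℝ → ℝ, Continuous F →
    (∀ t, 0 ≤ F t) → (∀ t, F t ≤ Cp * (1 + |t|) ^ 4) → ∀ D : ℝ, 1 / 2 ≤ D →
    (∀ τ : ℝ, |τ| ≤ 2 * T → |EG T τ F - D| ≤ ε * D) →
    |T⁻¹ * (∫ t in (0 : ℝ)..T, F t) - D| ≤ 3 * ε * D := by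
  set η : ℝ := ε / 8 with hη
  have hη0 : 0 < η := by positivity
  -- conditions on `T`
  have ev1 : ∀ᶠ T : ℝ in atTop, 2 * T ^ (97 / 100 : ℝ) ≤ η * T := by
    have h1 : Tendsto (fun T : ℝ => T ^ (3 / 100 : ℝ)) atTop atTop := tendsto_rpow_atTop (by norm_num)
    filter_upwards [h1.eventually_ge_atTop (2 / η), eventually_gt_atTop 0] with T hT hT0
    have h2 : T = T ^ (3 / 100 : ℝ) * T ^ (97 / 100 : ℝ) := by
      rw [← Real.rpow_add hT0]; norm_num
    have h3 : 0 < T ^ (97 / 100 : ℝ) := Real.rpow_pos_of_pos hT0 _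
    calc 2 * T ^ (97 / 100 : ℝ) = η * ((2 / η) * T ^ (97 / 100 : ℝ)) := by field_simp
      _ ≤ η * (T ^ (3 / 100 : ℝ) * T ^ (97 / 100 : ℝ)) := by gcongr
      _ = η * T := by rw [← h2]
  have ev2 := tail_ev (1 / η) 0
  have ev3 := tail_ev (16 * (|Cp| + 1) / η) 4
  obtain ⟨T₀, hT₀⟩ := eventually_atTop.mp (ev1.and (ev2.and ev3))
  refine ⟨max 3 T₀, le_max_left _ _, fun T hT F hF hF0 hFC D hD hτ => ?_⟩
  have hT3 : 3 ≤ T := (le_max_left _ _).trans hT
  obtain ⟨h1, h2, h3⟩ := hT₀ T ((le_max_right _ _).trans hT)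
  have hT0 : 0 < T := by linarith
  set Δ : ℝ := T ^ (97 / 100 : ℝ) with hΔ
  have hΔ0 : 0 < Δ := Real.rpow_pos_of_pos hT0 _
  have hη8 : η ≤ 1 / 8 := by rw [hη]; linarith
  have hΔT : Δ ≤ T / 16 := by nlinarith
  have hCp0 : 0 ≤ Cp := by
    have := (hF0 0).trans (hFC 0)
    simpa using this
  set γ := gaussianReal 0 (VV T) with hγ
  set Ind : ℝ → ℝ := Set.indicator {x : ℝ | Δ < |x|} (fun x => (1 + |x|) ^ 4) with hInd
  set q : ℝ := ∫ x, Ind x ∂γ with hq
  have hIndi : Integrable Ind γ :=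
    (integrable_one_add_abs_pow 0 (VV T) 4).indicator
      (measurableSet_lt measurable_const measurable_id.abs)
  have hInd0 : ∀ x, 0 ≤ Ind x := fun x => Set.indicator_nonneg (fun x _ => by positivity) x
  have hq0 : 0 ≤ q := integral_nonneg hInd0
  have hq1 : q ≤ η := by
    rw [pow_zero, mul_one] at h2
    have := mul_le_mul_of_nonneg_left h2 hη0.le
    rw [← mul_assoc, mul_one_div_cancel hη0.ne', one_mul, mul_one] at this
    exact this
  have hq2 : Cp * (1 + T) ^ 4 * q ≤ η := by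
    have h4 : Cp * (1 + T) ^ 4 ≤ η * (16 * (|Cp| + 1) / η * T ^ 4) := by
      have h5 : (1 + T) ^ 4 ≤ (2 * T) ^ 4 := by gcongr; linarith
      have h6 : Cp ≤ |Cp| + 1 := by linarith [le_abs_self Cp]
      calc Cp * (1 + T) ^ 4 ≤ (|Cp| + 1) * (2 * T) ^ 4 := by gcongr
        _ = _ := by field_simp; ring
    calc Cp * (1 + T) ^ 4 * q ≤ (η * (16 * (|Cp| + 1) / η * T ^ 4)) * q := by gcongr
      _ = η * (16 * (|Cp| + 1) / η * T ^ 4 * q) := by ring
      _ ≤ η * 1 := by gcongr
      _ = η := mul_one _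
  set A : ℝ := ∫ t in (0 : ℝ)..T, F t with hA
  have hA0 : 0 ≤ A := intervalIntegral.integral_nonneg hT0.le fun t _ => hF0 t
  have hFb : ∀ t, |F t| ≤ Cp * (1 + |t|) ^ 4 := fun t => by
    rw [abs_of_nonneg (hF0 t)]; exact hFC t
  have hFi : ∀ u v : ℝ, IntervalIntegrable F volume u v := fun u v => hF.intervalIntegrable u v
  -- upper bound
  have up : (1 - q) * A ≤ (T + 2 * Δ) * ((1 + ε) * D) := by
    obtain ⟨e1, i1, -⟩ := average T hF hFb (a := -Δ) (b := T + Δ) (by linarith)
    have l1 : ∫ τ in (-Δ)..(T + Δ), EG T τ F ≤ (T + 2 * Δ) * ((1 + ε) * D) := by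
      have : ∀ τ ∈ Set.Icc (-Δ) (T + Δ), ‖EG T τ F‖ ≤ (1 + ε) * D := by
        intro τ hτ'
        have h5 : |τ| ≤ 2 * T := by
          rw [abs_le]; constructor <;> linarith [hτ'.1, hτ'.2]
        have h6 := abs_le.mp (hτ τ h5)
        have h7 : 0 ≤ EG T τ F := integral_nonneg hF0
        rw [Real.norm_eq_abs, abs_of_nonneg h7]
        linarith
      have h8 := intervalIntegral.norm_integral_le_of_norm_le_const (a := -Δ) (b := T + Δ)
        (f := fun τ => EG T τ F) (C := (1 + ε) * D) (fun τ hτ' => this τ (by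
          rw [Set.uIoc_of_le (by linarith)] at hτ'
          exact ⟨hτ'.1.le, hτ'.2⟩))
      rw [abs_of_nonneg (by linarith : 0 ≤ T + Δ - -Δ)] at h8
      calc _ ≤ _ := (le_abs_self _).trans h8
        _ = _ := by ring
    have l2 : (1 - q) * A ≤ ∫ x, (∫ t in (x + -Δ)..(x + (T + Δ)), F t) ∂γ := by
      have e2 : (1 - q) * A = ∫ x, (A - A * Ind x) ∂γ := by
        rw [integral_sub (integrable_const _) (hIndi.const_mul A), integral_const_mul]
        simp
        ring
      rw [e2]
      refine integral_mono ((integrable_const _).sub (hIndi.const_mul A)) i1 fun x => ?_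
      simp only
      have hI0 : 0 ≤ ∫ t in (x + -Δ)..(x + (T + Δ)), F t :=
        intervalIntegral.integral_nonneg (by linarith) fun t _ => hF0 t
      by_cases hx : Δ < |x|
      · have : Ind x = (1 + |x|) ^ 4 := Set.indicator_of_mem (show x ∈ {x : ℝ | Δ < |x|} from hx) _
        rw [this]
        have h9 : 1 ≤ (1 + |x|) ^ 4 := one_le_pow₀ (by linarith [abs_nonneg x])
        nlinarith
      · have : Ind x = 0 := Set.indicator_of_notMem (show x ∉ {x : ℝ | Δ < |x|} from hx) _
        rw [this, mul_zero, sub_zero]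
        push Not at hx
        have h9 := abs_le.mp hx
        apply intervalIntegral.integral_mono_interval (by linarith) hT0.le (by linarith)
          (Filter.Eventually.of_forall fun t => hF0 t) (hFi _ _)
    linarith
  -- lower bound
  have low : (T - 2 * Δ) * ((1 - ε) * D) ≤ A + T * η := by
    obtain ⟨e1, i1, j1⟩ := average T hF hFb (a := Δ) (b := T - Δ) (by linarith)
    have l1 : (T - 2 * Δ) * ((1 - ε) * D) ≤ ∫ τ in Δ..(T - Δ), EG T τ F := by
      have e3 : (T - 2 * Δ) * ((1 - ε) * D) = ∫ _ in Δ..(T - Δ), (1 - ε) * D := by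
        rw [intervalIntegral.integral_const, smul_eq_mul]; ring
      rw [e3]
      refine intervalIntegral.integral_mono_on (by linarith) (by simp) j1 fun τ hτ' => ?_
      have h5 : |τ| ≤ 2 * T := by
        rw [abs_le]; constructor <;> linarith [hτ'.1, hτ'.2]
      have h6 := abs_le.mp (hτ τ h5)
      linarith
    have l2 : ∫ x, (∫ t in (x + Δ)..(x + (T - Δ)), F t) ∂γ ≤ A + T * η := by
      calc ∫ x, (∫ t in (x + Δ)..(x + (T - Δ)), F t) ∂γ
          ≤ ∫ x, (A + T * (Cp * (1 + T) ^ 4) * Ind x) ∂γ := by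
            refine integral_mono i1 ((integrable_const _).add (hIndi.const_mul _)) fun x => ?_
            simp only
            by_cases hx : Δ < |x|
            · have : Ind x = (1 + |x|) ^ 4 :=
                Set.indicator_of_mem (show x ∈ {x : ℝ | Δ < |x|} from hx) _
              rw [this]
              have h8 := intervalIntegral.norm_integral_le_of_norm_le_const (a := x + Δ)
                (b := x + (T - Δ)) (f := F) (C := Cp * (1 + T) ^ 4 * (1 + |x|) ^ 4) (fun t ht => by
                  rw [Set.uIoc_of_le (by linarith)] at ht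
                  rw [Real.norm_eq_abs]
                  refine (hFb t).trans ?_
                  have h10 : |t| ≤ |x| + T := by
                    rw [abs_le]
                    constructor
                    · linarith [ht.1, neg_abs_le x]
                    · linarith [ht.2, le_abs_self x]
                  have h11 : 1 + |t| ≤ (1 + T) * (1 + |x|) := by
                    nlinarith [mul_nonneg hT0.le (abs_nonneg x)]
                  calc Cp * (1 + |t|) ^ 4 ≤ Cp * ((1 + T) * (1 + |x|)) ^ 4 := by gcongr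
                    _ = _ := by ring)
              rw [abs_of_nonneg (by linarith : 0 ≤ x + (T - Δ) - (x + Δ))] at h8
              have h12 : 0 ≤ Cp * (1 + T) ^ 4 * (1 + |x|) ^ 4 := by positivity
              calc _ ≤ _ := (le_abs_self _).trans h8
                _ ≤ (Cp * (1 + T) ^ 4 * (1 + |x|) ^ 4) * T := by
                  apply mul_le_mul_of_nonneg_left _ h12
                  linarith
                _ ≤ _ := by linarith
            · have : Ind x = 0 := Set.indicator_of_notMem (show x ∉ {x : ℝ | Δ < |x|} from hx) _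
              rw [this, mul_zero, add_zero]
              push Not at hx
              have h9 := abs_le.mp hx
              apply intervalIntegral.integral_mono_interval (by linarith) (by linarith) (by linarith)
                (Filter.Eventually.of_forall fun t => hF0 t) (hFi _ _)
        _ = A + T * (Cp * (1 + T) ^ 4 * q) := by
            rw [integral_add (integrable_const _) (hIndi.const_mul _), integral_const_mul]
            simp
            ring
        _ ≤ A + T * η := by gcongr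
    linarith
  have hD0 : 0 < D := by linarith
  have hu1 : A ≤ T * ((1 + 3 * ε) * D) := by
    have h5 : (1 - η) * A ≤ (1 - η) * (T * ((1 + 3 * ε) * D)) := by
      calc (1 - η) * A ≤ (1 - q) * A := by gcongr
        _ ≤ (T + 2 * Δ) * ((1 + ε) * D) := up
        _ ≤ (T + η * T) * ((1 + ε) * D) := by gcongr
        _ = ((1 + η) * (1 + ε)) * (T * D) := by ring
        _ ≤ ((1 - η) * (1 + 3 * ε)) * (T * D) := by
          refine mul_le_mul_of_nonneg_right ?_ (by positivity)
          rw [hη]; nlinarith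
        _ = _ := by ring
    exact le_of_mul_le_mul_left h5 (by linarith)
  have hl1 : T * ((1 - 3 * ε) * D) ≤ A := by
    have h5 : (T - η * T) * ((1 - ε) * D) ≤ A + T * η := by
      refine le_trans ?_ low
      have : 0 ≤ (1 - ε) * D := mul_nonneg (by linarith) hD0.le
      gcongr
    have h6 : T * η ≤ 2 * η * (T * D) := by
      have : T * η * 1 ≤ T * η * (2 * D) := by
        apply mul_le_mul_of_nonneg_left (by linarith) (by positivity)
      linarith
    have h7 : (1 - 3 * ε) * (T * D) ≤ ((1 - η) * (1 - ε) - 2 * η) * (T * D) := by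
      refine mul_le_mul_of_nonneg_right ?_ (by positivity)
      rw [hη]; nlinarith
    linarith
  rw [abs_le]
  have hTi : T⁻¹ * T = 1 := inv_mul_cancel₀ hT0.ne'
  constructor
  · have := mul_le_mul_of_nonneg_left hl1 (inv_nonneg.mpr hT0.le)
    rw [← mul_assoc, hTi, one_mul] at this
    linarith
  · have := mul_le_mul_of_nonneg_left hu1 (inv_nonneg.mpr hT0.le)
    rw [← mul_assoc T⁻¹ T, hTi, one_mul] at this
    linarith

end Pool.Agent.Lib.MP_973905_nt
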