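import Pool.Agent.Lib.MP_973905_nt.Core2
import Pool.Agent.Lib.MP_973905_nt.Len

namespace Pool.Agent.Lib.MP_973905_nt

open MeasureTheory ProbabilityTheory Complex Filter Topology

lemma KK_ge_M {M J j : ℕ} (h : j ≤ J) : Real.exp (3 / 4 * M) ≤ KK M J j := by
  unfold KK
  apply Real.exp_le_exp.mpr
  have : (j : ℝ) ≤ J := by exact_mod_cast h
  linarith

/-- Sums of `exp(-a K_j)`. -/
lemma sum_exp_KK {M J : ℕ} {a : ℝ} (ha : 1 ≤ a * Real.exp (3 / 4 * M)) (ha0 : 0 < a) :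
    ∑ j ∈ Finset.range (J + 1), Real.exp (-(a * KK M J j)) ≤
      2 * Real.exp (-(a * Real.exp (3 / 4 * M))) := by
  set K := Real.exp (3 / 4 * (M : ℝ)) with hK
  have hK0 : 0 < K := Real.exp_pos _
  have h1 : ∀ i ∈ Finset.range (J + 1), Real.exp (-(a * KK M J (J + 1 - 1 - i))) ≤
      Real.exp (-(a * K)) * (1 / 2) ^ i := by
    intro i hi
    have hi' : i ≤ J := by have := Finset.mem_range.mp hi; omega
    have h2 : KK M J (J + 1 - 1 - i) = K * Real.exp (3 / 4 * i) := by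
      rw [KK, hK, ← Real.exp_add]
      congr 1
      rw [show J + 1 - 1 - i = J - i by omega, Nat.cast_sub hi']
      ring
    rw [h2]
    have h3 : 1 + 3 / 4 * (i : ℝ) ≤ Real.exp (3 / 4 * i) := by
      have := Real.add_one_le_exp (3 / 4 * (i : ℝ)); linarith
    have h4 : (1 / 2 : ℝ) ^ i = Real.exp (-(i * Real.log 2)) := by
      rw [Real.exp_neg, mul_comm, Real.exp_mul, Real.exp_log (by norm_num), Real.rpow_natCast]
      simp
    rw [h4, ← Real.exp_add (-(a * K))]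
    apply Real.exp_le_exp.mpr
    have h5 : Real.log 2 < 3 / 4 := by linarith [Real.log_two_lt_d9]
    have h6 : a * K * (1 + 3 / 4 * (i : ℝ)) ≤ a * (K * Real.exp (3 / 4 * i)) := by
      rw [mul_assoc]; gcongr
    have h7 : (0 : ℝ) ≤ i := by positivity
    have h8 : (i : ℝ) * Real.log 2 ≤ (a * K) * (3 / 4 * i) := by
      have : (i : ℝ) * Real.log 2 ≤ i * (3 / 4) := by gcongr
      nlinarith
    nlinarith
  rw [← Finset.sum_range_reflect]
  calc ∑ i ∈ Finset.range (J + 1), Real.exp (-(a * KK M J (J + 1 - 1 - i)))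
      ≤ ∑ i ∈ Finset.range (J + 1), Real.exp (-(a * K)) * (1 / 2) ^ i := Finset.sum_le_sum h1
    _ = Real.exp (-(a * K)) * ∑ i ∈ Finset.range (J + 1), (1 / 2 : ℝ) ^ i := by rw [Finset.mul_sum]
    _ ≤ Real.exp (-(a * K)) * 2 := by
        gcongr
        exact sum_geometric_two_le (J + 1)
    _ = _ := by ring

/-- The union of the first blocks. -/
lemma sum_rho {T : ℝ} (hT : 1 < T) {M J : ℕ} (hM : 3 ≤ M) :
    ∑ j ∈ Finset.range (J + 1), rho M (Sj T M J j) ≤ 4 * (2 : ℝ) ^ (-(((M : ℝ) - 3) / 2)) := by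
  unfold rho
  rw [← Finset.sum_biUnion (fun i _ j _ hij => disj_Sj hT hij)]
  set U := (Finset.range (J + 1)).biUnion fun j => Sj T M J j
  have hprime : ∀ p ∈ U, p.Prime := by
    intro p hp
    obtain ⟨j, _, hj⟩ := Finset.mem_biUnion.mp hp
    exact prime_Sj hT hj
  have h1 : ∀ p ∈ U, 4 * ((p : ℝ) ^ (-(1 / 2) : ℝ)) ^ (M + 1) ≤
      4 * (2 : ℝ) ^ (-(((M : ℝ) - 3) / 2)) * ((p : ℝ) ^ 2)⁻¹ := by
    intro p hp
    have hp2 : (2 : ℝ) ≤ p := by exact_mod_cast (hprime p hp).two_le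
    have hp0 : (0 : ℝ) < p := by linarith
    have hM' : (3 : ℝ) ≤ M := by exact_mod_cast hM
    have e1 : ((p : ℝ) ^ (-(1 / 2) : ℝ)) ^ (M + 1) =
        (p : ℝ) ^ (-(((M : ℝ) - 3) / 2)) * ((p : ℝ) ^ 2)⁻¹ := by
      rw [← Real.rpow_natCast, ← Real.rpow_mul hp0.le, ← Real.rpow_natCast (p : ℝ) 2,
        ← Real.rpow_neg hp0.le, ← Real.rpow_add hp0]
      congr 1
      push_cast; ring
    rw [e1, mul_assoc]
    have h2 : (p : ℝ) ^ (-(((M : ℝ) - 3) / 2)) ≤ (2 : ℝ) ^ (-(((M : ℝ) - 3) / 2)) :=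
      Real.rpow_le_rpow_of_nonpos (by norm_num) hp2 (by linarith)
    gcongr
  refine (Finset.sum_le_sum h1).trans ?_
  rw [← Finset.mul_sum]
  have h3 : ∑ p ∈ U, ((p : ℝ) ^ 2)⁻¹ ≤ 1 := by
    have hsub : U ⊆ Finset.Ioc 1 (U.sup id + 2) := by
      intro p hp
      rw [Finset.mem_Ioc]
      have := Finset.le_sup (f := id) hp
      simp only [id] at this
      exact ⟨(hprime p hp).one_lt, by omega⟩
    calc ∑ p ∈ U, ((p : ℝ) ^ 2)⁻¹ ≤ ∑ p ∈ Finset.Ioc 1 (U.sup id + 2), ((p : ℝ) ^ 2)⁻¹ :=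
          Finset.sum_le_sum_of_subset_of_nonneg hsub fun p _ _ => by positivity
      _ ≤ ((1 : ℕ) : ℝ)⁻¹ - ((U.sup id + 2 : ℕ) : ℝ)⁻¹ :=
          sum_Ioc_inv_sq_le_sub (by norm_num) (by omega)
      _ ≤ 1 := by
          have : (0 : ℝ) ≤ ((U.sup id + 2 : ℕ) : ℝ)⁻¹ := by positivity
          simp only [Nat.cast_one, inv_one]; linarith
  calc 4 * (2 : ℝ) ^ (-(((M : ℝ) - 3) / 2)) * ∑ p ∈ U, ((p : ℝ) ^ 2)⁻¹
      ≤ 4 * (2 : ℝ) ^ (-(((M : ℝ) - 3) / 2)) * 1 := by gcongr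
    _ = _ := mul_one _

lemma tendsto_log3 : Tendsto (fun T : ℝ => Real.log (Real.log T)) atTop atTop :=
  Real.tendsto_log_atTop.comp Real.tendsto_log_atTop

/-- Sums of `1/p` over the blocks. -/
lemma block_sums : ∃ C₅ : ℝ, 0 < C₅ ∧ ∀ M : ℕ, ∃ T₀ : ℝ, 3 ≤ T₀ ∧ ∀ T, T₀ ≤ T →
    ∑ p ∈ Sj T M (JJ T) 0, (1 : ℝ) / p ≤ Real.log (Real.log T) + C₅ ∧
    ∀ j, 1 ≤ j → j ≤ JJ T → ∑ p ∈ Sj T M (JJ T) j, (1 : ℝ) / p ≤ 2 := by
  obtain ⟨C, hC, h1⟩ := sum_inv
  obtain ⟨C', hC', h2⟩ := sum_inv_range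
  refine ⟨C, hC, fun M => ?_⟩
  -- largeness conditions
  have hev : ∀ᶠ b : ℝ in atTop, (C' + 1) * Real.exp M * b ^ 4 ≤ Real.exp b := by
    have := (Real.isLittleO_pow_exp_atTop (n := 4)).def
      (c := ((C' + 1) * Real.exp M)⁻¹) (by positivity)
    filter_upwards [this, eventually_ge_atTop 0] with u hu hu0
    rw [Real.norm_eq_abs, Real.norm_eq_abs, abs_of_nonneg (by positivity),
      abs_of_pos (Real.exp_pos _)] at hu
    have h3 := mul_le_mul_of_nonneg_left hu (show 0 ≤ (C' + 1) * Real.exp M by positivity)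
    rwa [← mul_assoc, mul_inv_cancel₀ (by positivity), one_mul] at h3
  obtain ⟨T₁, hT₁⟩ := eventually_atTop.mp (tendsto_log3.eventually (hev.and (eventually_ge_atTop 1)))
  refine ⟨max T₁ 3, le_max_right _ _, fun T hT => ?_⟩
  have hT3 : 3 ≤ T := (le_max_right _ _).trans hT
  have hT1 : 1 < T := by linarith
  have hT0 : 0 < T := by linarith
  obtain ⟨hb4, hb1⟩ := hT₁ T ((le_max_left _ _).trans hT)
  set b := Real.log (Real.log T) with hb
  have hL : 0 < Real.log T := Real.log_pos hT1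
  have hLb : Real.log T = Real.exp b := by rw [hb, Real.exp_log hL]
  have hb0 : 0 < b := by linarith
  have hJ : Real.exp (JJ T : ℝ) ≤ b ^ 4 := by
    have h3 : (JJ T : ℝ) ≤ 4 * Real.log b := by
      apply Nat.floor_le
      exact mul_nonneg (by norm_num) (Real.log_nonneg hb1)
    calc Real.exp (JJ T : ℝ) ≤ Real.exp (4 * Real.log b) := Real.exp_le_exp.mpr h3
      _ = b ^ 4 := by
          rw [show 4 * Real.log b = ((4 : ℕ) : ℝ) * Real.log b by norm_num, Real.exp_nat_mul,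
            Real.exp_log hb0]
  have hβ : C' + 1 ≤ bet M (JJ T) 0 * Real.log T := by
    have h4 : bet M (JJ T) 0 = (Real.exp M * Real.exp (JJ T : ℝ))⁻¹ := by
      rw [bet, ← Real.exp_add, ← Real.exp_neg]; congr 1; push_cast; ring
    rw [h4, inv_mul_eq_div, le_div_iff₀ (by positivity), hLb]
    calc (C' + 1) * (Real.exp M * Real.exp (JJ T : ℝ)) ≤ (C' + 1) * (Real.exp M * b ^ 4) := by gcongr
      _ = (C' + 1) * Real.exp M * b ^ 4 := by ring
      _ ≤ _ := hb4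
  constructor
  · have h5 : Sj T M (JJ T) 0 ⊆ PS 0 T := by
      rw [← UU_SB hT1 M (JJ T)]
      intro p hp
      exact mem_UU.mpr ⟨⟨0, by omega⟩, hp⟩
    have h6 := h1 T (by linarith)
    calc ∑ p ∈ Sj T M (JJ T) 0, (1 : ℝ) / p ≤ ∑ p ∈ PS 0 T, (1 : ℝ) / p :=
          Finset.sum_le_sum_of_subset_of_nonneg h5 fun p _ _ => by positivity
      _ ≤ _ := by have := (abs_le.mp h6).2; linarith
  · intro j hj1 hjJ
    have e1 : yy T M (JJ T) j = Real.exp (bet M (JJ T) (j - 1) * Real.log T) := by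
      rw [yy, if_neg (by omega), if_pos (by omega)]
    have e2 : yy T M (JJ T) (j + 1) = Real.exp (bet M (JJ T) j * Real.log T) := by
      rw [yy, if_neg (by omega), if_pos (by omega)]; simp
    have h7 : C' + 1 ≤ bet M (JJ T) (j - 1) * Real.log T :=
      hβ.trans (mul_le_mul_of_nonneg_right (bet_mono (by omega)) hL.le)
    have h8 : 0 < bet M (JJ T) (j - 1) * Real.log T := by linarith
    have h9 := h2 (yy T M (JJ T) j) (yy T M (JJ T) (j + 1)) (by
      rw [e1]; have := Real.add_one_le_exp (bet M (JJ T) (j - 1) * Real.log T); linarith)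
      (yy_mono hT1 _ _ (by omega))
    rw [e1, e2, Real.log_exp, Real.log_exp] at h9
    have e3 : bet M (JJ T) j * Real.log T / (bet M (JJ T) (j - 1) * Real.log T) = Real.exp 1 := by
      obtain ⟨i, rfl⟩ : ∃ i, j = i + 1 := ⟨j - 1, by omega⟩
      rw [bet_succ]
      simp only [add_tsub_cancel_right]
      have := (bet_pos M (JJ T) i).ne'
      field_simp
    rw [e3, Real.log_exp] at h9
    have h10 : C' / (bet M (JJ T) (j - 1) * Real.log T) ≤ 1 := by
      rw [div_le_one h8]; linarith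
    have h11 := (abs_le.mp h9).2
    have e4 : Sj T M (JJ T) j = PS (Real.exp (bet M (JJ T) (j - 1) * Real.log T))
        (Real.exp (bet M (JJ T) j * Real.log T)) := by rw [Sj, e1, e2]
    rw [e4]
    linarith

/-- The conditions needed for the block estimates. -/
lemma block_cond (C₁ : ℝ) (hC₁ : 0 < C₁) : ∃ M₀ : ℕ, ∀ M : ℕ, M₀ ≤ M → ∃ T₀ : ℝ, 3 ≤ T₀ ∧ ∀ T, T₀ ≤ T →
    ∀ j, j ≤ JJ T → ∀ σ : ℝ, 1 / 2 ≤ σ →
    16 * Real.exp (C₁ * ∑ p ∈ Sj T M (JJ T) j, (p : ℝ) ^ (-(2 * σ))) ≤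
      Real.exp ((ll M (JJ T) j : ℝ) / 2) ∧
    (1 / 16 : ℝ) ^ (rr M (JJ T) j) *
      (16 * Real.exp (C₁ * ∑ p ∈ Sj T M (JJ T) j, (p : ℝ) ^ (-(2 * σ)))) ≤ ss M (JJ T) j := by
  obtain ⟨C₅, hC₅, h1⟩ := block_sums
  -- choose M₀
  obtain ⟨M₀, hM₀⟩ := exists_nat_ge ((2 * C₁ + 8) * 10)
  refine ⟨M₀ + 1, fun M hM => ?_⟩
  obtain ⟨T₁, hT₁3, hT₁⟩ := h1 M
  have hev : ∀ᶠ b : ℝ in atTop, (C₁ * (b + C₅) + 8) * 10 ≤ b ^ 3 := by
    have h2 : ∀ᶠ b : ℝ in atTop, (10 * C₁ + 10 * C₁ * C₅ + 80 + 1) ≤ b := eventually_ge_atTop _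
    filter_upwards [h2] with b hb
    have hb1 : 1 ≤ b := by
      have : 0 < 10 * C₁ + 10 * C₁ * C₅ := by positivity
      linarith
    have h3 : 0 ≤ C₁ * C₅ := by positivity
    have h4 : b ^ 3 = b * b * b := by ring
    rw [h4]
    have h5 : b * 1 * 1 ≤ b * b * b := by gcongr
    have h6 : (10 * C₁ + 10 * C₁ * C₅ + 80 + 1) * b * 1 ≤ b * b * b := by gcongr
    nlinarith
  obtain ⟨T₂, hT₂⟩ := eventually_atTop.mp (tendsto_log3.eventually (hev.and (eventually_ge_atTop 1)))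
  refine ⟨max T₁ T₂, hT₁3.trans (le_max_left _ _), fun T hT j hj σ hσ => ?_⟩
  have hT3 : 3 ≤ T := hT₁3.trans ((le_max_left _ _).trans hT)
  have hT1 : 1 < T := by linarith
  obtain ⟨s0, sj⟩ := hT₁ T ((le_max_left _ _).trans hT)
  obtain ⟨hb3, hb1⟩ := hT₂ T ((le_max_right _ _).trans hT)
  set b := Real.log (Real.log T) with hb
  have hb0 : 0 < b := by linarith
  set J := JJ T with hJ
  have hcmp : ∑ p ∈ Sj T M J j, (p : ℝ) ^ (-(2 * σ)) ≤ ∑ p ∈ Sj T M J j, (1 : ℝ) / p := by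
    refine Finset.sum_le_sum fun p hp => ?_
    have hp1 : (1 : ℝ) ≤ p := by exact_mod_cast (prime_Sj hT1 hp).one_lt.le
    rw [one_div, ← Real.rpow_neg_one]
    exact Real.rpow_le_rpow_of_exponent_le hp1 (by linarith)
  have hM' : (2 * C₁ + 8) * 10 + 1 ≤ M := by
    have : ((M₀ + 1 : ℕ) : ℝ) ≤ M := by exact_mod_cast hM
    push_cast at this; linarith
  have hM0 : (0 : ℝ) < M := by nlinarith
  -- key inequality
  have key : (C₁ * ∑ p ∈ Sj T M J j, (p : ℝ) ^ (-(2 * σ)) + 8) * (15 / 2) ≤ KK M J j := by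
    by_cases hj0 : j = 0
    · subst hj0
      have h3 : C₁ * ∑ p ∈ Sj T M J 0, (p : ℝ) ^ (-(2 * σ)) ≤ C₁ * (b + C₅) := by
        apply mul_le_mul_of_nonneg_left _ hC₁.le
        exact hcmp.trans s0
      have h4 : b ^ 3 ≤ KK M J 0 := by
        have h5 : 4 * Real.log b - 1 ≤ J := by
          have := Nat.lt_floor_add_one (4 * Real.log b)
          rw [hJ, JJ]; linarith
        calc b ^ 3 = Real.exp (3 * Real.log b) := by
              rw [show 3 * Real.log b = ((3 : ℕ) : ℝ) * Real.log b by norm_num, Real.exp_nat_mul,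
                Real.exp_log hb0]
          _ ≤ KK M J 0 := by
              apply Real.exp_le_exp.mpr
              push_cast
              nlinarith
      have h6 : 0 ≤ C₁ * (b + C₅) + 8 := by positivity
      nlinarith
    · have h3 : C₁ * ∑ p ∈ Sj T M J j, (p : ℝ) ^ (-(2 * σ)) ≤ C₁ * 2 := by
        apply mul_le_mul_of_nonneg_left _ hC₁.le
        exact hcmp.trans (sj j (by omega) hj)
      have h4 := KK_ge_M (M := M) hj
      have h5 := Real.add_one_le_exp (3 / 4 * (M : ℝ))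
      nlinarith
  set E := C₁ * ∑ p ∈ Sj T M J j, (p : ℝ) ^ (-(2 * σ)) with hE
  have hE0 : 0 ≤ E := by
    rw [hE]; exact mul_nonneg hC₁.le (Finset.sum_nonneg fun p _ => by positivity)
  have hlog16 : (16 : ℝ) = Real.exp (4 * Real.log 2) := by
    rw [show 4 * Real.log 2 = ((4 : ℕ) : ℝ) * Real.log 2 by norm_num, Real.exp_nat_mul,
      Real.exp_log (by norm_num)]; norm_num
  have hl2 : Real.log 2 < 0.7 := by linarith [Real.log_two_lt_d9]
  have hl2' : 0.69 < Real.log 2 := by linarith [Real.log_two_gt_d9]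
  constructor
  · rw [hlog16, ← Real.exp_add]
    apply Real.exp_le_exp.mpr
    have h7 : 10 * KK M J j ≤ (ll M J j : ℝ) := Nat.le_ceil _
    linarith
  · have h8 : KK M J j / 4 - 1 ≤ (rr M J j : ℝ) := by
      have := Nat.lt_floor_add_one (KK M J j / 4)
      rw [rr]; linarith
    have h9 : (1 / 16 : ℝ) ^ (rr M J j) = Real.exp (-(4 * Real.log 2 * rr M J j)) := by
      rw [one_div, inv_pow, hlog16, ← Real.exp_nat_mul, ← Real.exp_neg]
      congr 1; ring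
    rw [h9, hlog16, ← Real.exp_add, ← Real.exp_add, ss]
    apply Real.exp_le_exp.mpr
    nlinarith

end Pool.Agent.Lib.MP_973905_nt
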