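import Pool.Agent.Lib.MP_973905_nt.DD
import Pool.Agent.Lib.MP_973905_nt.Holder
import Pool.Agent.Lib.MP_973905_nt.TSM
import Pool.Agent.Lib.MP_973905_nt.Sharp

/-! From the lines `Re s = 1/2 + c / log T` to the critical line, and from Gaussian to sharp means. -/

namespace Pool.Agent.Lib.MP_973905_nt

open MeasureTheory ProbabilityTheory Complex Filter Topology

/-- Statement of the main theorem near the critical line. -/
def StB : Prop := ∀ ε : ℝ, 0 < ε → ∃ c₀ : ℝ, 1 ≤ c₀ ∧ ∀ c, c₀ ≤ c → ∃ T₀ : ℝ, 3 ≤ T₀ ∧ ∀ T, T₀ ≤ T →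
    ∀ τ : ℝ, |τ| ≤ 2 * T → ∀ k : ℝ, 0 < k → k < 1 →
    |EG T τ (fun t => ‖riemannZeta ((1 / 2 + c / Real.log T : ℝ) + t * I)‖ ^ (2 * k)) -
      DD k (1 / 2 + c / Real.log T)| ≤ ε * DD k (1 / 2 + c / Real.log T)

namespace ThmA

lemma rpow_le_poly {x C u p : ℝ} (hx : 0 ≤ x) (h : x ≤ C * u ^ 2) (hu : 1 ≤ u) (hp0 : 0 ≤ p)
    (hp : p ≤ 2) : x ^ p ≤ (max C 1) ^ 2 * u ^ 4 := by
  have h3 : (1:ℝ) ≤ max C 1 := le_max_right _ _
  have h4 : (1:ℝ) ≤ u ^ 2 := one_le_pow₀ hu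
  have h1 : x ≤ max C 1 * u ^ 2 := h.trans (by
    apply mul_le_mul_of_nonneg_right (le_max_left _ _) (by positivity))
  have h2 : 1 ≤ max C 1 * u ^ 2 := by nlinarith
  calc x ^ p ≤ (max C 1 * u ^ 2) ^ p := Real.rpow_le_rpow hx h1 hp0
    _ ≤ (max C 1 * u ^ 2) ^ (2:ℝ) := Real.rpow_le_rpow_of_exponent_le h2 hp
    _ = _ := by rw [Real.rpow_two]; ring

/-- Gaussian means of powers of `zt` on a vertical line -/
noncomputable def JJ (T τ p σ : ℝ) : ℝ := EG T τ (fun t => ‖zt (σ + t * I)‖ ^ p)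

/-- Gaussian means of powers of `ζ` on a vertical line -/
noncomputable def ZZ (T τ p σ : ℝ) : ℝ := EG T τ (fun t => ‖riemannZeta (σ + t * I)‖ ^ p)

lemma one_le_one_add_abs (t : ℝ) : 1 ≤ 1 + |t| := by linarith [abs_nonneg t]

lemma int_zt (τ : ℝ) (v : NNReal) {p σ : ℝ} (h1 : 1 / 8 < σ) (h2 : σ < 10) (hp0 : 0 ≤ p)
    (hp : p ≤ 2) : Integrable (fun t : ℝ => ‖zt (σ + t * I)‖ ^ p) (gaussianReal τ v) := by
  obtain ⟨C, hC, h⟩ := TSM.norm_zt_le
  have hc : Continuous (fun t : ℝ => zt (σ + t * I)) := by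
    apply TSM.nice_zt.diff.continuousOn.comp_continuous (by fun_prop)
    intro t
    simp only [Set.mem_ofPred_eq, TSM.line_re]
    exact ⟨h1, h2⟩
  refine integrable_of_poly τ v (hc.norm.rpow_const fun _ => Or.inr hp0).aestronglyMeasurable
    (C := (max C 1) ^ 2) (m := 4) fun t => ?_
  rw [Real.norm_eq_abs, abs_of_nonneg (Real.rpow_nonneg (norm_nonneg _) _)]
  refine rpow_le_poly (norm_nonneg _) ?_ (one_le_one_add_abs t) hp0 hp
  have := h (σ + t * I) (by rw [TSM.line_re]; exact h1.le) (by rw [TSM.line_re]; exact h2.le)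
  rwa [TSM.line_im] at this

lemma zeta_rpow_poly : ∃ C : ℝ, 0 < C ∧ ∀ σ t p : ℝ, 1 / 2 ≤ σ → σ ≤ 3 / 4 → 0 ≤ p → p ≤ 2 →
    ‖riemannZeta ((σ : ℂ) + t * I)‖ ^ p ≤ C * (1 + |t|) ^ 4 := by
  obtain ⟨C, hC, h⟩ := zeta_poly
  refine ⟨(max C 1) ^ 2, by positivity, fun σ t p h1 h2 hp0 hp => ?_⟩
  exact rpow_le_poly (norm_nonneg _) (h σ t h1 h2) (one_le_one_add_abs t) hp0 hp

lemma cont_zeta_rpow {p σ : ℝ} (hσ : σ ≠ 1) (hp0 : 0 ≤ p) :
    Continuous fun t : ℝ => ‖riemannZeta ((σ : ℂ) + t * I)‖ ^ p :=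
  (continuous_zeta_line hσ).norm.rpow_const fun _ => Or.inr hp0

lemma int_zeta (τ : ℝ) (v : NNReal) {p σ : ℝ} (h1 : 1 / 2 ≤ σ) (h2 : σ ≤ 3 / 4) (hp0 : 0 ≤ p)
    (hp : p ≤ 2) : Integrable (fun t : ℝ => ‖riemannZeta (σ + t * I)‖ ^ p) (gaussianReal τ v) := by
  obtain ⟨C, hC, h⟩ := zeta_rpow_poly
  refine integrable_of_poly τ v (cont_zeta_rpow (by linarith) hp0).aestronglyMeasurable
    (C := C) (m := 4) fun t => ?_
  rw [Real.norm_eq_abs, abs_of_nonneg (Real.rpow_nonneg (norm_nonneg _) _)]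
  exact h σ t p h1 h2 hp0 hp

lemma zt_eq_line {σ : ℝ} (h1 : 1 / 2 ≤ σ) (h2 : σ ≤ 3 / 4) (t : ℝ) :
    zt (σ + t * I) = kp (σ + t * I) * riemannZeta (σ + t * I) := by
  apply zeta_eq_zt
  · intro hh
    have := congrArg Complex.re hh
    rw [TSM.line_re, one_re] at this
    linarith
  · intro hh
    have := congrArg Complex.re hh
    rw [TSM.line_re, neg_re, one_re] at this
    linarith

lemma JJ_le_ZZ (T τ : ℝ) {p σ : ℝ} (h1 : 1 / 2 ≤ σ) (h2 : σ ≤ 3 / 4) (hp0 : 0 ≤ p)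
    (hp : p ≤ 2) : JJ T τ p σ ≤ ZZ T τ p σ := by
  refine integral_mono (int_zt τ _ (by linarith) (by linarith) hp0 hp) (int_zeta τ _ h1 h2 hp0 hp)
    fun t => ?_
  apply Real.rpow_le_rpow (norm_nonneg _) _ hp0
  rw [zt_eq_line h1 h2, norm_mul]
  have h3 := TSM.norm_kp_le (s := σ + t * I) (by rw [TSM.line_re]; linarith)
  have h4 := norm_nonneg (riemannZeta (σ + t * I))
  nlinarith

lemma ZZ_le_JJ (T τ : ℝ) {p σ : ℝ} (h1 : 1 / 2 ≤ σ) (h2 : σ ≤ 3 / 4) (hp0 : 0 ≤ p)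
    (hp : p ≤ 2) : ZZ T τ p σ ≤ Real.exp (p * Real.log 7) * JJ T τ p σ := by
  have e : Real.exp (p * Real.log 7) = (7:ℝ) ^ p := by
    rw [Real.rpow_def_of_pos (by norm_num), mul_comm]
  unfold ZZ JJ EG
  rw [← integral_const_mul, e]
  refine integral_mono (int_zeta τ _ h1 h2 hp0 hp)
    ((int_zt τ _ (by linarith) (by linarith) hp0 hp).const_mul _) fun t => ?_
  show _ ≤ (7:ℝ) ^ p * ‖zt (σ + t * I)‖ ^ p
  rw [← Real.mul_rpow (by norm_num) (norm_nonneg _)]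
  apply Real.rpow_le_rpow (norm_nonneg _) _ hp0
  rw [zt_eq_line h1 h2, norm_mul]
  have h3 := kp_lower (s := σ + t * I) (by rw [TSM.line_re]; linarith) (by rw [TSM.line_re]; linarith)
  have h4 := norm_nonneg (riemannZeta (σ + t * I))
  nlinarith

lemma JJ_nonneg (T τ p σ : ℝ) : 0 ≤ JJ T τ p σ :=
  integral_nonneg fun _ => Real.rpow_nonneg (norm_nonneg _) _

lemma ZZ_nonneg (T τ p σ : ℝ) : 0 ≤ ZZ T τ p σ :=
  integral_nonneg fun _ => Real.rpow_nonneg (norm_nonneg _) _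

/-- the value at `Re s = 2` -/
lemma JJ_two (T τ : ℝ) {p : ℝ} (hp0 : 0 ≤ p) (hp : p ≤ 2) : JJ T τ p 2 ≤ 4 := by
  have h1 : ∀ t : ℝ, ‖zt ((2:ℝ) + t * I)‖ ≤ 2 := by
    intro t
    set s : ℂ := (2:ℝ) + t * I with hs
    have hre : s.re = 2 := TSM.line_re _ _
    have hz : ‖riemannZeta s‖ ≤ 2 := by
      rw [zeta_eq_tsum_one_div_nat_cpow (by rw [hre]; norm_num)]
      refine (tsum_of_norm_bounded hasSum_zeta_two fun n => ?_).trans ?_
      · rcases Nat.eq_zero_or_pos n with rfl | hn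
        · have hs0 : s ≠ 0 := by
            intro h; rw [h] at hre; simp at hre
          rw [Nat.cast_zero, zero_cpow hs0]
          simp
        · rw [norm_div, norm_one, norm_natCast_cpow_of_pos hn, hre]
          norm_num
      · have := Real.pi_lt_d2
        have := Real.pi_pos
        nlinarith
    rw [zeta_eq_zt (by intro h; rw [h] at hre; simp at hre) (by
      intro h; rw [h] at hre; simp at hre; norm_num at hre), norm_mul]
    have h3 := TSM.norm_kp_le (s := s) (by rw [hre]; norm_num)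
    have h4 := norm_nonneg (riemannZeta s)
    nlinarith
  have h2 : ∀ t : ℝ, ‖zt ((2:ℝ) + t * I)‖ ^ p ≤ 4 := by
    intro t
    calc ‖zt ((2:ℝ) + t * I)‖ ^ p ≤ (2:ℝ) ^ p := Real.rpow_le_rpow (norm_nonneg _) (h1 t) hp0
      _ ≤ (2:ℝ) ^ (2:ℝ) := Real.rpow_le_rpow_of_exponent_le (by norm_num) hp
      _ = 4 := by norm_num
  calc JJ T τ p 2 ≤ ∫ t : ℝ, (4:ℝ) ∂(gaussianReal τ (VV T)) := by
        refine integral_mono (int_zt τ _ (by norm_num) (by norm_num) hp0 hp)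
          (integrable_const _) fun t => h2 t
    _ = 4 := by simp

/-- the functional equation step -/
lemma fe_step : ∃ K C : ℝ, 1 ≤ K ∧ 1 ≤ C ∧ ∀ c : ℝ, 0 < c → ∀ᶠ T : ℝ in atTop, ∀ τ : ℝ,
    |τ| ≤ 2 * T → ∀ p : ℝ, 0 < p → p ≤ 2 →
    JJ T τ p (1 / 2 - c / Real.log T) ≤ Real.exp (p * (Real.log K + c)) *
      JJ T τ p (1 / 2 + c / Real.log T) + C * Real.exp (-T ^ (1 / 10 : ℝ)) := by
  obtain ⟨Cz, hCz, hz⟩ := TSM.zt_fe
  obtain ⟨Cg, hCg, hg0⟩ := TSM.norm_zt_le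
  refine ⟨Cz * 3, (max Cg 1) ^ 2, by linarith, one_le_pow₀ (le_max_right _ _), fun c hc => ?_⟩
  obtain ⟨Tt, hTt⟩ := eg_tail 4
  filter_upwards [eventually_ge_atTop Tt, eventually_ge_atTop 12,
    Real.tendsto_log_atTop.eventually_ge_atTop (4 * c)] with T hT1 hT12 hL τ hτ p hp0 hp2
  have hT0 : 0 < T := by linarith
  have hLpos : 0 < Real.log T := Real.log_pos (by linarith)
  set δ : ℝ := c / Real.log T with hδ
  have hδ0 : 0 < δ := div_pos hc hLpos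
  have hδ1 : δ ≤ 1 / 4 := by rw [hδ, div_le_iff₀ hLpos]; linarith
  have hδL : δ * Real.log T = c := by rw [hδ]; field_simp
  have hexp : Real.exp (p * (Real.log (Cz * 3) + c)) = (Cz * 3 * Real.exp c) ^ p := by
    rw [Real.rpow_def_of_pos (by positivity), Real.log_mul (by positivity) (Real.exp_pos _).ne',
      Real.log_exp, mul_comm]
  have hpt : ∀ t : ℝ, ‖zt ((1 / 2 - δ : ℝ) + t * I)‖ ^ p ≤
      (Cz * 3 * Real.exp c) ^ p * ‖zt ((1 / 2 + δ : ℝ) + t * I)‖ ^ p +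
      (max Cg 1) ^ 2 *
        Set.indicator {t : ℝ | 8 * T < |t|} (fun t => (1 + |t|) ^ 4) t := by
    intro t
    by_cases ht : t ∈ {t : ℝ | 8 * T < |t|}
    · rw [Set.indicator_of_mem ht]
      have h1 := hg0 (((1 / 2 - δ : ℝ) : ℂ) + t * I) (by rw [TSM.line_re]; linarith)
        (by rw [TSM.line_re]; linarith)
      rw [TSM.line_im] at h1
      have h2 := rpow_le_poly (norm_nonneg _) h1 (one_le_one_add_abs t) hp0.le hp2
      have h3 : 0 ≤ (Cz * 3 * Real.exp c) ^ p * ‖zt ((1 / 2 + δ : ℝ) + t * I)‖ ^ p := by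
        positivity
      linarith
    · rw [Set.indicator_of_notMem ht, mul_zero, add_zero]
      have ht' : |t| ≤ 8 * T := by
        have : ¬ (8 * T < |t|) := ht
        linarith
      have h1 := hz δ t hδ0.le hδ1
      have h2 : (1 + |t|) ^ δ ≤ 3 * Real.exp c := by
        calc (1 + |t|) ^ δ ≤ (9 * T) ^ δ := by
              apply Real.rpow_le_rpow (by positivity) (by linarith) (by linarith)
          _ = (9:ℝ) ^ δ * T ^ δ := Real.mul_rpow (by norm_num) hT0.le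
          _ = (9:ℝ) ^ δ * Real.exp c := by
              rw [Real.rpow_def_of_pos hT0, ← hδL, mul_comm (Real.log T)]
          _ ≤ 3 * Real.exp c := by
              have : (9:ℝ) ^ δ ≤ 3 := by
                calc (9:ℝ) ^ δ ≤ (9:ℝ) ^ (1 / 2 : ℝ) :=
                      Real.rpow_le_rpow_of_exponent_le (by norm_num) (by linarith)
                  _ = 3 := by
                      rw [← Real.sqrt_eq_rpow, show (9:ℝ) = 3 ^ 2 by norm_num,
                        Real.sqrt_sq (by norm_num)]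
              gcongr
      rw [← Real.mul_rpow (by positivity) (norm_nonneg _)]
      apply Real.rpow_le_rpow (norm_nonneg _) _ hp0.le
      refine h1.trans ?_
      apply mul_le_mul_of_nonneg_right _ (norm_nonneg _)
      calc Cz * (1 + |t|) ^ δ ≤ Cz * (3 * Real.exp c) :=
            mul_le_mul_of_nonneg_left h2 (by linarith)
        _ = _ := by ring
  have i1 := int_zt τ (VV T) (p := p) (σ := 1 / 2 - δ) (by linarith) (by linarith) hp0.le hp2
  have i2 := int_zt τ (VV T) (p := p) (σ := 1 / 2 + δ) (by linarith) (by linarith) hp0.le hp2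
  have hms : MeasurableSet {t : ℝ | 8 * T < |t|} :=
    measurableSet_lt measurable_const measurable_id.abs
  have i3 : Integrable (Set.indicator {t : ℝ | 8 * T < |t|} (fun t => (1 + |t|) ^ 4))
      (gaussianReal τ (VV T)) := (integrable_one_add_abs_pow τ _ 4).indicator hms
  have h1 := integral_mono i1 ((i2.const_mul _).add (i3.const_mul _)) hpt
  rw [integral_add' (i2.const_mul _) (i3.const_mul _), integral_const_mul, integral_const_mul] at h1
  have h3 := hTt T hT1 τ hτ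
  rw [hexp]
  refine le_trans h1 ?_
  apply add_le_add le_rfl
  exact mul_le_mul_of_nonneg_left h3 (by positivity)

lemma DD_ge_one {k σ : ℝ} (hk : 0 < k) (hk1 : k ≤ 1) (hσ : 1 / 2 < σ) : 1 ≤ DD k σ := by
  have h := DD_hasProd hk hk1 hσ
  refine ge_of_tendsto' h fun s => ?_
  refine Finset.prod_induction _ (fun x => (1:ℝ) ≤ x) (fun a b ha hb => ?_) le_rfl fun p _ => ?_
  · nlinarith
  · have hp := p.2
    have hx1 : ((p : ℕ) : ℝ) ^ (-σ) < 1 :=
      Real.rpow_lt_one_of_one_lt_of_neg (by exact_mod_cast hp.one_lt) (by linarith)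
    have hx0 : 0 ≤ ((p : ℕ) : ℝ) ^ (-σ) := by positivity
    have := Dl_ge hk hx0 hx1
    have : 0 ≤ k ^ 2 * (((p : ℕ) : ℝ) ^ (-σ)) ^ 2 := by positivity
    linarith

lemma VV_large (ε : ℝ) (hε : 0 < ε) : ∀ᶠ T : ℝ in atTop, ∀ z : ℝ, z ≤ 1 →
    Real.exp (z / (2 * VV T)) ≤ 1 + ε := by
  have hl : 0 < Real.log (1 + ε) := Real.log_pos (by linarith)
  filter_upwards [eventually_ge_atTop 1, eventually_ge_atTop (1 / Real.log (1 + ε))] with T hT1 hT z hz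
  have hT0 : 0 < T := by linarith
  have hV : T ≤ (VV T : ℝ) := by
    rw [VV_coe hT0.le]
    calc T = T ^ (1 : ℝ) := (Real.rpow_one T).symm
      _ ≤ T ^ (19 / 10 : ℝ) := Real.rpow_le_rpow_of_exponent_le hT1 (by norm_num)
  have hV0 : 0 < (VV T : ℝ) := by linarith
  rw [← Real.le_log_iff_exp_le (by linarith), div_le_iff₀ (by positivity)]
  have h1 : 1 ≤ Real.log (1 + ε) * T := by
    rw [div_le_iff₀ hl] at hT
    linarith
  have h2 : Real.log (1 + ε) * T ≤ Real.log (1 + ε) * VV T := mul_le_mul_of_nonneg_left hV hl.le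
  nlinarith

lemma convex_zt {T τ p a b x A B g : ℝ} (hT : 0 < T) (hp0 : 0 < p) (ha : 1 / 8 < a)
    (hab : a < b) (hb : b < 10) (hx : x ∈ Set.Icc a b) (hA0 : 0 < A) (hB0 : 0 < B)
    (hA : JJ T τ p a ≤ A) (hB : JJ T τ p b ≤ B) (hg : Real.exp ((x - a) * (b - x) / (2 * VV T)) ≤ g) :
    JJ T τ p x ≤ A ^ ((b - x) / (b - a)) * B ^ ((x - a) / (b - a)) * g := by
  obtain ⟨C, m, hC, h⟩ := TSM.nice_zt.growth
  have key := gauss_convex (f := zt) (a := a) (b := b) (α := 1 / 8) (β := 10) (p := p) (τ := τ)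
    (x := x) (A := A) (B := B) (v := VV T) ha hab hb hp0 (TSM.VV_ne hT) TSM.nice_zt.diff
    ⟨C, m, fun s h1 h2 => by simpa using h s h1 h2⟩ hx hA0 hB0 hA hB
  refine key.trans ?_
  exact mul_le_mul_of_nonneg_left hg (by positivity)

/-- upper bound on the critical line -/
lemma upper {T τ p δ c K C ε₁ B : ℝ} (hT : 0 < T) (hp0 : 0 < p) (hp2 : p ≤ 2) (hδ0 : 0 < δ)
    (hδ1 : δ ≤ 1 / 4) (hε0 : 0 < ε₁) (hB1 : 1 ≤ B) (hK : 0 ≤ Real.log K + c)
    (hfe : JJ T τ p (1 / 2 - δ) ≤ Real.exp (p * (Real.log K + c)) *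
      JJ T τ p (1 / 2 + δ) + C * Real.exp (-T ^ (1 / 10 : ℝ)))
    (htail : C * Real.exp (-T ^ (1 / 10 : ℝ)) ≤ ε₁)
    (hg : ∀ z : ℝ, z ≤ 1 → Real.exp (z / (2 * VV T)) ≤ 1 + ε₁)
    (hB : JJ T τ p (1 / 2 + δ) ≤ B) :
    ZZ T τ p (1 / 2) ≤ Real.exp (p * Real.log 7 + p / 2 * (Real.log K + c)) * B * (1 + ε₁) ^ 2 := by
  have hE : 1 ≤ Real.exp (p * (Real.log K + c)) := Real.one_le_exp (by positivity)
  have hB0 : 0 < B := by linarith
  have hA : JJ T τ p (1 / 2 - δ) ≤ (1 + ε₁) * Real.exp (p * (Real.log K + c)) * B := by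
    have h1 : Real.exp (p * (Real.log K + c)) * JJ T τ p (1 / 2 + δ) ≤
      Real.exp (p * (Real.log K + c)) * B := mul_le_mul_of_nonneg_left hB (by positivity)
    have h2 : 1 ≤ Real.exp (p * (Real.log K + c)) * B := by nlinarith
    nlinarith
  have h1 := convex_zt (T := T) (τ := τ) (p := p) (a := 1 / 2 - δ) (b := 1 / 2 + δ) (x := 1 / 2)
    (A := (1 + ε₁) * Real.exp (p * (Real.log K + c)) * B) (B := B) (g := 1 + ε₁) hT hp0
    (by linarith) (by linarith) (by linarith) ⟨by linarith, by linarith⟩ (by positivity) hB0 hA hB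
    (hg _ (by nlinarith))
  have e1 : (1 / 2 + δ - 1 / 2) / (1 / 2 + δ - (1 / 2 - δ)) = 1 / 2 := by field_simp; ring
  have e2 : (1 / 2 - (1 / 2 - δ)) / (1 / 2 + δ - (1 / 2 - δ)) = 1 / 2 := by field_simp; ring
  rw [e1, e2] at h1
  have h2 : ((1 + ε₁) * Real.exp (p * (Real.log K + c)) * B) ^ (1 / 2 : ℝ) * B ^ (1 / 2 : ℝ) ≤
      (1 + ε₁) * Real.exp (p / 2 * (Real.log K + c)) * B := by
    rw [← Real.mul_rpow (by positivity) hB0.le, ← Real.sqrt_eq_rpow]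
    rw [Real.sqrt_le_iff]
    refine ⟨by positivity, ?_⟩
    have e3 : Real.exp (p * (Real.log K + c)) = Real.exp (p / 2 * (Real.log K + c)) ^ 2 := by
      rw [pow_two, ← Real.exp_add]
      congr 1
      ring
    rw [e3]
    have e4 : ((1 + ε₁) * Real.exp (p / 2 * (Real.log K + c)) * B) ^ 2 =
        (1 + ε₁) * ((1 + ε₁) * Real.exp (p / 2 * (Real.log K + c)) ^ 2 * B * B) := by ring
    rw [e4]
    have h5 : 0 ≤ (1 + ε₁) * Real.exp (p / 2 * (Real.log K + c)) ^ 2 * B * B := by positivity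
    nlinarith
  have h3 := ZZ_le_JJ T τ (p := p) (σ := 1 / 2) le_rfl (by norm_num) hp0.le hp2
  calc ZZ T τ p (1 / 2) ≤ _ := h3
    _ ≤ Real.exp (p * Real.log 7) * ((1 + ε₁) * Real.exp (p / 2 * (Real.log K + c)) * B *
        (1 + ε₁)) := by
        apply mul_le_mul_of_nonneg_left _ (Real.exp_pos _).le
        refine h1.trans ?_
        exact mul_le_mul_of_nonneg_right h2 (by linarith)
    _ = _ := by rw [Real.exp_add]; ring

/-- lower bound on the critical line -/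
lemma lower {T τ p δ ε₁ θ Λ : ℝ} (hT : 0 < T) (hp0 : 0 < p) (hp2 : p ≤ 2) (hδ0 : 0 < δ)
    (hδ1 : δ ≤ 1 / 4) (hε0 : 0 < ε₁) (hθ : 1 / 2 ≤ θ) (hΛ : 1 ≤ Λ)
    (h8 : (8:ℝ) ^ δ ≤ 1 + ε₁)
    (hg : ∀ z : ℝ, z ≤ 1 → Real.exp (z / (2 * VV T)) ≤ 1 + ε₁)
    (hA : JJ T τ p (1 / 2) ≤ θ * Λ) :
    JJ T τ p (1 / 2 + δ) ≤ θ * Λ * (1 + ε₁) ^ 2 := by
  have hA0 : 1 / 2 ≤ θ * Λ := by nlinarith
  have h1 := convex_zt (T := T) (τ := τ) (p := p) (a := 1 / 2) (b := 2) (x := 1 / 2 + δ)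
    (A := θ * Λ) (B := 4) (g := 1 + ε₁) hT hp0
    (by norm_num) (by norm_num) (by norm_num) ⟨by linarith, by linarith⟩ (by positivity)
    (by norm_num) hA (JJ_two T τ hp0.le hp2) (hg _ (by nlinarith))
  set l : ℝ := (1 / 2 + δ - 1 / 2) / (2 - 1 / 2) with hl
  have e1 : (2 - (1 / 2 + δ)) / (2 - 1 / 2) = 1 - l := by rw [hl]; ring
  have hl0 : 0 ≤ l := by rw [hl]; apply div_nonneg <;> linarith
  have hlδ : l ≤ δ := by rw [hl, div_le_iff₀ (by norm_num)]; linarith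
  rw [e1] at h1
  have h2 : (θ * Λ) ^ (1 - l) ≤ θ * Λ * (2:ℝ) ^ l := by
    rw [sub_eq_add_neg, Real.rpow_add (by positivity), Real.rpow_one]
    apply mul_le_mul_of_nonneg_left _ (by positivity)
    rw [Real.rpow_neg (by positivity), ← Real.inv_rpow (by positivity)]
    apply Real.rpow_le_rpow (by positivity) _ hl0
    rw [inv_le_comm₀ (by positivity) (by norm_num)]
    linarith
  have h3 : (2:ℝ) ^ l * (4:ℝ) ^ l ≤ 1 + ε₁ := by
    rw [← Real.mul_rpow (by norm_num) (by norm_num)]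
    refine le_trans ?_ h8
    rw [show (2:ℝ) * 4 = 8 by norm_num]
    exact Real.rpow_le_rpow_of_exponent_le (by norm_num) hlδ
  calc JJ T τ p (1 / 2 + δ) ≤ _ := h1
    _ ≤ (θ * Λ * (2:ℝ) ^ l) * (4:ℝ) ^ l * (1 + ε₁) := by gcongr
    _ = θ * Λ * ((2:ℝ) ^ l * (4:ℝ) ^ l) * (1 + ε₁) := by ring
    _ ≤ θ * Λ * (1 + ε₁) * (1 + ε₁) := by gcongr
    _ = _ := by ring

end ThmA

open ThmA in
/-- Small moments on the critical line, Gaussian version (file ThmA.lean). -/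
theorem thmA_gauss (hB : StB) : ∀ ε : ℝ, 0 < ε → ∃ k₀ : ℝ, 0 < k₀ ∧ ∃ T₀ : ℝ, 3 ≤ T₀ ∧ ∀ T, T₀ ≤ T →
    ∀ τ : ℝ, |τ| ≤ 2 * T → ∀ k : ℝ, 0 < k → k ≤ k₀ →
    |EG T τ (fun t => ‖riemannZeta ((1 / 2 : ℝ) + t * I)‖ ^ (2 * k)) - (Real.log T) ^ (k ^ 2)| ≤
      ε * (Real.log T) ^ (k ^ 2) := by
  intro ε' hε'
  set ε : ℝ := min ε' (1 / 2) with hε
  have hε0 : 0 < ε := lt_min hε' (by norm_num)
  have hε1 : ε ≤ 1 / 2 := min_le_right _ _
  set ε₁ : ℝ := ε / 20 with hε₁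
  have hε₁0 : 0 < ε₁ := by positivity
  have hε₁1 : ε₁ ≤ 1 / 40 := by rw [hε₁]; linarith
  obtain ⟨c, hc1, hc⟩ := hB ε₁ hε₁0
  obtain ⟨TB, hTB3, hTB⟩ := hc c le_rfl
  obtain ⟨CD, TD, hCD, hD⟩ := DD_log c hc1
  obtain ⟨K, C, hK, hC, hfe⟩ := fe_step
  have hc0 : 0 < c := by linarith
  have hlK : 0 ≤ Real.log K := Real.log_nonneg hK
  have hl7 : 0 ≤ Real.log 7 := Real.log_nonneg (by norm_num)
  have hle : 0 < Real.log (1 + ε₁) := Real.log_pos (by linarith)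
  set C₃ : ℝ := 2 * Real.log 7 + (Real.log K + c) + CD with hC₃
  have hC₃0 : 0 < C₃ := by positivity
  -- eventual conditions
  have evt : ∀ᶠ T : ℝ in atTop, C * Real.exp (-T ^ (1 / 10 : ℝ)) ≤ ε₁ := by
    have h1 : Tendsto (fun T : ℝ => T ^ (1 / 10 : ℝ)) atTop atTop :=
      tendsto_rpow_atTop (by norm_num)
    have h2 : Tendsto (fun T : ℝ => C * Real.exp (-T ^ (1 / 10 : ℝ))) atTop (𝓝 (C * 0)) :=
      (Real.tendsto_exp_neg_atTop_nhds_zero.comp h1).const_mul C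
    rw [mul_zero] at h2
    exact (h2.eventually_lt_const hε₁0).mono fun T hT => hT.le
  have evc : Tendsto (fun T : ℝ => c / Real.log T) atTop (𝓝 0) :=
    Real.tendsto_log_atTop.const_div_atTop c
  have ev8 : ∀ᶠ T : ℝ in atTop, (8:ℝ) ^ (c / Real.log T) ≤ 1 + ε₁ := by
    have h1 : Tendsto (fun T : ℝ => (8:ℝ) ^ (c / Real.log T)) atTop (𝓝 ((8:ℝ) ^ (0:ℝ))) :=
      ((Real.continuous_const_rpow (by norm_num)).tendsto 0).comp evc
    rw [Real.rpow_zero] at h1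
    exact (h1.eventually_lt_const (by linarith)).mono fun T hT => hT.le
  obtain ⟨T₀, hT₀⟩ := eventually_atTop.mp ((hfe c hc0).and (evt.and (ev8.and
    ((VV_large ε₁ hε₁0).and ((Real.tendsto_log_atTop.eventually_ge_atTop (4 * c)).and
    ((eventually_ge_atTop TB).and (eventually_ge_atTop TD)))))))
  refine ⟨min (1 / 2) (Real.log (1 + ε₁) / C₃), lt_min (by norm_num) (by positivity), max T₀ 3,
    le_max_right _ _, fun T hT τ hτ k hk0 hk => ?_⟩
  have hT3 : 3 ≤ T := (le_max_right _ _).trans hT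
  obtain ⟨hfe, htail, h8, hg, hL4, hTB', hTD'⟩ := hT₀ T ((le_max_left _ _).trans hT)
  have hT0 : 0 < T := by linarith
  have hk1 : k ≤ 1 / 2 := hk.trans (min_le_left _ _)
  have hkC : k * C₃ ≤ Real.log (1 + ε₁) := by
    have := hk.trans (min_le_right _ _)
    rwa [le_div_iff₀ hC₃0] at this
  have hL1 : 1 ≤ Real.log T := by
    rw [← Real.log_exp 1]
    apply Real.log_le_log (Real.exp_pos _)
    have := Real.exp_one_lt_d9
    linarith
  have hL0 : 0 < Real.log T := by linarith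
  set Λ : ℝ := (Real.log T) ^ (k ^ 2) with hΛ
  have hΛ1 : 1 ≤ Λ := Real.one_le_rpow hL1 (by positivity)
  set δ : ℝ := c / Real.log T with hδ
  have hδ0 : 0 < δ := div_pos hc0 hL0
  have hδ1 : δ ≤ 1 / 4 := by rw [hδ, div_le_iff₀ hL0]; linarith
  set p : ℝ := 2 * k with hp
  have hp0 : 0 < p := by positivity
  have hp2 : p ≤ 2 := by linarith
  have hZ : |ZZ T τ p (1 / 2 + δ) - DD k (1 / 2 + δ)| ≤ ε₁ * DD k (1 / 2 + δ) :=
    hTB T hTB' τ hτ k hk0 (by linarith)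
  obtain ⟨hD1, hD2⟩ := hD T hTD' k hk0 (by linarith)
  rw [← hδ, ← hΛ] at hD1 hD2
  obtain ⟨hZ1, hZ2⟩ := abs_le.mp hZ
  have hECD : Real.exp (CD * k) ≤ 1 + ε₁ := by
    rw [← Real.le_log_iff_exp_le (by linarith)]
    refine le_trans ?_ hkC
    rw [mul_comm]
    apply mul_le_mul_of_nonneg_left _ hk0.le
    rw [hC₃]
    linarith
  -- upper bound
  set B : ℝ := (1 + ε₁) * (Real.exp (CD * k) * Λ) with hBdef
  have hB1 : 1 ≤ B := by
    have h1 : 1 ≤ Real.exp (CD * k) := Real.one_le_exp (by positivity)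
    have h2 : 1 ≤ Real.exp (CD * k) * Λ := by nlinarith
    nlinarith
  have hZB : ZZ T τ p (1 / 2 + δ) ≤ B := by
    rw [hBdef]
    have h1 := mul_le_mul_of_nonneg_left hD2 (show 0 ≤ 1 + ε₁ by linarith)
    linarith
  have hJB : JJ T τ p (1 / 2 + δ) ≤ B :=
    (JJ_le_ZZ T τ (by linarith) (by linarith) hp0.le hp2).trans hZB
  have hup := upper (T := T) (τ := τ) (p := p) (δ := δ) (c := c) (K := K) (C := C) (ε₁ := ε₁)
    (B := B) hT0 hp0 hp2 hδ0 hδ1 hε₁0 hB1 (by positivity) (hfe τ hτ p hp0 hp2) htail hg hJB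
  have hup2 : ZZ T τ p (1 / 2) ≤ (1 + ε) * Λ := by
    refine hup.trans ?_
    have e1 : Real.exp (p * Real.log 7 + p / 2 * (Real.log K + c)) * B * (1 + ε₁) ^ 2 =
        Real.exp (k * C₃) * (1 + ε₁) ^ 3 * Λ := by
      rw [hBdef]
      have e2 : Real.exp (k * C₃) = Real.exp (p * Real.log 7 + p / 2 * (Real.log K + c)) *
          Real.exp (CD * k) := by
        rw [← Real.exp_add]
        congr 1
        rw [hC₃, hp]
        ring
      rw [e2]
      ring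
    rw [e1]
    apply mul_le_mul_of_nonneg_right _ (by linarith)
    have h1 : Real.exp (k * C₃) ≤ 1 + ε₁ := by
      rw [← Real.le_log_iff_exp_le (by linarith)]
      exact hkC
    calc Real.exp (k * C₃) * (1 + ε₁) ^ 3 ≤ (1 + ε₁) * (1 + ε₁) ^ 3 := by gcongr
      _ = 1 + 4 * ε₁ + 6 * ε₁ ^ 2 + 4 * ε₁ ^ 3 + ε₁ ^ 4 := by ring
      _ ≤ 1 + ε := by
          have h2 : ε₁ ^ 2 ≤ ε₁ := pow_le_of_le_one hε₁0.le (by linarith) (by norm_num)
          have h3 : ε₁ ^ 3 ≤ ε₁ := pow_le_of_le_one hε₁0.le (by linarith) (by norm_num)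
          have h4 : ε₁ ^ 4 ≤ ε₁ := pow_le_of_le_one hε₁0.le (by linarith) (by norm_num)
          have h5 : ε = 20 * ε₁ := by rw [hε₁]; ring
          linarith
  -- lower bound
  have hlow : (1 - ε) * Λ ≤ JJ T τ p (1 / 2) := by
    by_contra hcon
    push Not at hcon
    have h1 := lower (T := T) (τ := τ) (p := p) (δ := δ) (ε₁ := ε₁) (θ := 1 - ε) (Λ := Λ) hT0 hp0
      hp2 hδ0 hδ1 hε₁0 (by linarith) hΛ1 h8 hg hcon.le
    have h2 := ZZ_le_JJ T τ (p := p) (σ := 1 / 2 + δ) (by linarith) (by linarith) hp0.le hp2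
    have h3 : (1 - ε₁) * (Real.exp (-(CD * k)) * Λ) ≤ ZZ T τ p (1 / 2 + δ) := by
      have : (1 - ε₁) * (Real.exp (-(CD * k)) * Λ) ≤ (1 - ε₁) * DD k (1 / 2 + δ) :=
        mul_le_mul_of_nonneg_left hD1 (by linarith)
      linarith
    have h4 : (1 - ε₁) * (Real.exp (-(CD * k)) * Λ) ≤
        Real.exp (p * Real.log 7) * ((1 - ε) * Λ * (1 + ε₁) ^ 2) :=
      h3.trans (h2.trans (mul_le_mul_of_nonneg_left h1 (Real.exp_pos _).le))
    have h5 : Real.exp (CD * k) * ((1 - ε₁) * (Real.exp (-(CD * k)) * Λ)) = (1 - ε₁) * Λ := by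
      have : Real.exp (CD * k) * Real.exp (-(CD * k)) = 1 := by
        rw [← Real.exp_add]
        simp
      linear_combination ((1 - ε₁) * Λ) * this
    have h6 : (1 - ε₁) * Λ ≤ Real.exp (CD * k) *
        (Real.exp (p * Real.log 7) * ((1 - ε) * Λ * (1 + ε₁) ^ 2)) := by
      rw [← h5]
      exact mul_le_mul_of_nonneg_left h4 (Real.exp_pos _).le
    have h7 : Real.exp (CD * k) * Real.exp (p * Real.log 7) ≤ 1 + ε₁ := by
      rw [← Real.exp_add, ← Real.le_log_iff_exp_le (by linarith)]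
      refine le_trans ?_ hkC
      rw [hC₃, hp]
      have : 0 ≤ k * (Real.log K + c) := by positivity
      linarith
    have h8 : (1 - ε₁) * Λ ≤ ((1 + ε₁) * ((1 - ε) * (1 + ε₁) ^ 2)) * Λ := by
      refine h6.trans ?_
      have h9 : 0 ≤ (1 - ε) * Λ * (1 + ε₁) ^ 2 := by
        apply mul_nonneg (mul_nonneg (by linarith) (by linarith)) (by positivity)
      have h10 := mul_le_mul_of_nonneg_right h7 h9
      linarith
    have h9 := le_of_mul_le_mul_right h8 (by linarith)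
    have h10 : ε = 20 * ε₁ := by rw [hε₁]; ring
    rw [h10] at h9
    have h11 : (1 + ε₁) * ((1 - 20 * ε₁) * (1 + ε₁) ^ 2) = 1 - 17 * ε₁ - 57 * ε₁ ^ 2 -
        59 * ε₁ ^ 3 - 20 * ε₁ ^ 4 := by ring
    rw [h11] at h9
    have : 0 ≤ ε₁ ^ 2 := by positivity
    have : 0 ≤ ε₁ ^ 3 := by positivity
    have : 0 ≤ ε₁ ^ 4 := by positivity
    linarith
  have hlow2 : (1 - ε) * Λ ≤ ZZ T τ p (1 / 2) :=
    hlow.trans (JJ_le_ZZ T τ le_rfl (by norm_num) hp0.le hp2)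
  have hεε : ε * Λ ≤ ε' * Λ := mul_le_mul_of_nonneg_right (min_le_left _ _) (by linarith)
  show |ZZ T τ p (1 / 2) - Λ| ≤ ε' * Λ
  rw [abs_le]
  constructor <;> linarith

open ThmA in
/-- Final statement A. -/
theorem thmA (hB : StB) : ∀ ε : ℝ, 0 < ε → ∃ k₀ : ℝ, 0 < k₀ ∧ ∃ T₀ : ℝ, ∀ T, T₀ ≤ T →
    ∀ k : ℝ, 0 < k → k ≤ k₀ →
    |T⁻¹ * (∫ t in (0 : ℝ)..T, ‖riemannZeta ((1 / 2 : ℂ) + t * I)‖ ^ (2 * k)) - (Real.log T) ^ (k ^ 2)| ≤
      ε * (Real.log T) ^ (k ^ 2) := by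
  intro ε' hε'
  set ε : ℝ := min ε' 1 with hε
  have hε0 : 0 < ε := lt_min hε' (by norm_num)
  obtain ⟨k₀, hk₀, T₁, hT₁, h1⟩ := thmA_gauss hB (ε / 3) (by positivity)
  obtain ⟨Cp, hCp, hpoly⟩ := zeta_rpow_poly
  obtain ⟨T₂, hT₂, h2⟩ := sharp (ε / 3) Cp (by positivity) (by linarith [min_le_right ε' 1])
  refine ⟨min k₀ 1, lt_min hk₀ one_pos, max T₁ T₂, fun T hT k hk0 hk => ?_⟩
  have hT1 : T₁ ≤ T := (le_max_left _ _).trans hT
  have hT2 : T₂ ≤ T := (le_max_right _ _).trans hT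
  have hL1 : 1 ≤ Real.log T := by
    rw [← Real.log_exp 1]
    apply Real.log_le_log (Real.exp_pos _)
    have := Real.exp_one_lt_d9
    linarith
  have hΛ1 : 1 ≤ (Real.log T) ^ (k ^ 2) := Real.one_le_rpow hL1 (by positivity)
  have hk1 : k ≤ 1 := hk.trans (min_le_right _ _)
  have key := h2 T hT2 (fun t => ‖riemannZeta ((1 / 2 : ℝ) + t * I)‖ ^ (2 * k))
    (cont_zeta_rpow (by norm_num) (by positivity)) (fun t => by positivity)
    (fun t => hpoly (1 / 2) t (2 * k) le_rfl (by norm_num) (by positivity) (by linarith))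
    ((Real.log T) ^ (k ^ 2)) (by linarith)
    (fun τ hτ => h1 T hT1 τ hτ k hk0 (hk.trans (min_le_left _ _)))
  have e : ((1 / 2 : ℝ) : ℂ) = 1 / 2 := by push_cast; rfl
  rw [e] at key
  refine key.trans ?_
  apply mul_le_mul_of_nonneg_right _ (by linarith)
  have := min_le_left ε' 1
  linarith

open ThmA in
/-- Final statement B. -/
theorem thmB (hB : StB) : ∀ ε : ℝ, 0 < ε → ∃ c₀ : ℝ, 0 < c₀ ∧ ∀ c, c₀ ≤ c → ∃ T₀ : ℝ, ∀ T, T₀ ≤ T →
    ∀ k : ℝ, 0 < k → k < 1 →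
    |T⁻¹ * (∫ t in (0 : ℝ)..T, ‖riemannZeta ((1 / 2 + c / Real.log T : ℝ) + t * I)‖ ^ (2 * k)) -
      DD k (1 / 2 + c / Real.log T)| ≤ ε * DD k (1 / 2 + c / Real.log T) := by
  intro ε' hε'
  set ε : ℝ := min ε' 1 with hε
  have hε0 : 0 < ε := lt_min hε' (by norm_num)
  obtain ⟨c₀, hc₀, h1⟩ := hB (ε / 3) (by positivity)
  obtain ⟨Cp, hCp, hpoly⟩ := zeta_rpow_poly
  obtain ⟨T₂, hT₂, h2⟩ := sharp (ε / 3) Cp (by positivity) (by linarith [min_le_right ε' 1])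
  refine ⟨c₀, by linarith, fun c hc => ?_⟩
  obtain ⟨T₁, hT₁, h3⟩ := h1 c hc
  obtain ⟨T₃, hT₃⟩ := eventually_atTop.mp (Real.tendsto_log_atTop.eventually_ge_atTop (4 * c))
  refine ⟨max (max T₁ T₂) T₃, fun T hT k hk0 hk1 => ?_⟩
  have hT1 : T₁ ≤ T := ((le_max_left _ _).trans (le_max_left _ _)).trans hT
  have hT2 : T₂ ≤ T := ((le_max_right _ _).trans (le_max_left _ _)).trans hT
  have hL4 := hT₃ T ((le_max_right _ _).trans hT)
  have hL0 : 0 < Real.log T := by linarith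
  have hδ0 : 0 < c / Real.log T := div_pos (by linarith) hL0
  have hδ1 : c / Real.log T ≤ 1 / 4 := by rw [div_le_iff₀ hL0]; linarith
  have hDD := DD_ge_one hk0 hk1.le (σ := 1 / 2 + c / Real.log T) (by linarith)
  have key := h2 T hT2 (fun t => ‖riemannZeta ((1 / 2 + c / Real.log T : ℝ) + t * I)‖ ^ (2 * k))
    (cont_zeta_rpow (by linarith) (by positivity)) (fun t => by positivity)
    (fun t => hpoly (1 / 2 + c / Real.log T) t (2 * k) (by linarith) (by linarith) (by positivity)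
      (by linarith))
    (DD k (1 / 2 + c / Real.log T)) (by linarith)
    (fun τ hτ => h3 T hT1 τ hτ k hk0 hk1)
  refine key.trans ?_
  apply mul_le_mul_of_nonneg_right _ (by linarith)
  have := min_le_left ε' 1
  linarith

end Pool.Agent.Lib.MP_973905_nt
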