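import Mathlib

/-! The local factor: circle averages of `|(1 - uz)^{-m} exp(γ Q_A(xz))|^2`. -/

namespace Pool.Agent.Lib.MP_973905_nt

open Complex

/-- truncated logarithm -/
noncomputable def QQ (A : ℕ) (z : ℂ) : ℂ := ∑ a ∈ Finset.Icc 1 A, z ^ a / a

namespace Local

theorem QQ_aux (A : ℕ) (hA : 1 ≤ A) (v : ℂ) (r : ℝ) (hr0 : 0 ≤ r) (hv : ‖v‖ ≤ r) (hr : r ≤ 1) :
    (1 - r) * ‖QQ A v - v‖ ≤ (r ^ 2 - r ^ (A + 1)) / 2 := by
  induction A, hA using Nat.le_induction with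
  | base => simp [QQ]
  | succ n hn ih =>
    have h1 : QQ (n + 1) v = QQ n v + v ^ (n + 1) / ((n + 1 : ℕ) : ℂ) := by
      unfold QQ
      rw [Finset.sum_Icc_succ_top (by omega)]
    have h2 : ‖v ^ (n + 1) / ((n + 1 : ℕ) : ℂ)‖ ≤ r ^ (n + 1) / 2 := by
      rw [norm_div, norm_pow, Complex.norm_natCast]
      have h3 : (2 : ℝ) ≤ ((n + 1 : ℕ) : ℝ) := by exact_mod_cast (by omega : 2 ≤ n + 1)
      calc ‖v‖ ^ (n + 1) / ((n + 1 : ℕ) : ℝ) ≤ r ^ (n + 1) / ((n + 1 : ℕ) : ℝ) := by gcongr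
        _ ≤ r ^ (n + 1) / 2 := by
          apply div_le_div_of_nonneg_left (pow_nonneg hr0 _) (by norm_num) h3
    calc (1 - r) * ‖QQ (n + 1) v - v‖
        = (1 - r) * ‖(QQ n v - v) + v ^ (n + 1) / ((n + 1 : ℕ) : ℂ)‖ := by
          rw [h1]; congr 2; ring
      _ ≤ (1 - r) * (‖QQ n v - v‖ + r ^ (n + 1) / 2) := by
          apply mul_le_mul_of_nonneg_left _ (by linarith)
          exact (norm_add_le _ _).trans (by linarith)
      _ = (1 - r) * ‖QQ n v - v‖ + (1 - r) * r ^ (n + 1) / 2 := by ring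
      _ ≤ (r ^ 2 - r ^ (n + 1)) / 2 + (1 - r) * r ^ (n + 1) / 2 := by linarith
      _ = _ := by ring

theorem QQ_sub (A : ℕ) (hA : 1 ≤ A) (v : ℂ) (r : ℝ) (hr0 : 0 ≤ r) (hv : ‖v‖ ≤ r)
    (hr : r ≤ 3 / 4) : ‖QQ A v - v‖ ≤ 2 * r ^ 2 := by
  have h := QQ_aux A hA v r hr0 hv (by linarith)
  have h1 : 0 ≤ r ^ (A + 1) := pow_nonneg hr0 _
  have h2 : 0 ≤ ‖QQ A v - v‖ := norm_nonneg _
  nlinarith

theorem inv_bound (m : ℕ) (hm : m ≤ 2) (w : ℂ) (r : ℝ) (_hr0 : 0 ≤ r) (hw : ‖w‖ ≤ r)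
    (hr : r ≤ 3 / 4) : ‖((1 - w) ^ m)⁻¹ - 1 - m * w‖ ≤ 72 * r ^ 2 := by
  have h1 : 1 / 4 ≤ ‖1 - w‖ := by
    have := norm_sub_norm_le (1 : ℂ) w
    rw [norm_one] at this
    linarith
  have h0 : (1 : ℂ) - w ≠ 0 := by
    intro h; rw [h, norm_zero] at h1; linarith
  have hinv : ‖1 - w‖⁻¹ ≤ 4 := by
    rw [inv_le_comm₀ (by linarith) (by norm_num)]; linarith
  have hw2 : ‖w‖ ^ 2 ≤ r ^ 2 := pow_le_pow_left₀ (norm_nonneg _) hw 2
  interval_cases m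
  · simp; positivity
  · have : ((1 - w) ^ 1)⁻¹ - 1 - ((1 : ℕ) : ℂ) * w = w ^ 2 * (1 - w)⁻¹ := by
      push_cast; field_simp; ring
    rw [this, norm_mul, norm_pow, norm_inv]
    calc ‖w‖ ^ 2 * ‖1 - w‖⁻¹ ≤ r ^ 2 * 4 := by gcongr
      _ ≤ _ := by nlinarith [sq_nonneg r]
  · have : ((1 - w) ^ 2)⁻¹ - 1 - ((2 : ℕ) : ℂ) * w = w ^ 2 * (3 - 2 * w) * ((1 - w)⁻¹) ^ 2 := by
      push_cast; field_simp; ring
    rw [this, norm_mul, norm_mul, norm_pow, norm_pow, norm_inv]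
    have h3 : ‖3 - 2 * w‖ ≤ 4.5 := by
      calc ‖3 - 2 * w‖ ≤ ‖(3 : ℂ)‖ + ‖2 * w‖ := norm_sub_le _ _
        _ = 3 + 2 * ‖w‖ := by simp
        _ ≤ _ := by linarith
    calc ‖w‖ ^ 2 * ‖3 - 2 * w‖ * ‖1 - w‖⁻¹ ^ 2 ≤ r ^ 2 * 4.5 * 4 ^ 2 := by gcongr
      _ ≤ _ := by nlinarith [sq_nonneg r]

theorem exp_bound (Γ : ℝ) (A : ℕ) (hA : 1 ≤ A) (v γ : ℂ) (r : ℝ) (hr0 : 0 ≤ r) (hv : ‖v‖ ≤ r)
    (hr : r ≤ 3 / 4) (hγ : ‖γ‖ ≤ Γ) :
    ‖exp (γ * QQ A v)‖ ≤ Real.exp (3 * Γ) ∧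
    ‖exp (γ * QQ A v) - 1 - γ * v‖ ≤ (2 * Γ + 16 * Γ ^ 2 * Real.exp (3 * Γ)) * r ^ 2 := by
  have hΓ : 0 ≤ Γ := (norm_nonneg _).trans hγ
  have h1 := QQ_sub A hA v r hr0 hv hr
  have h2 : ‖QQ A v‖ ≤ 4 * r := by
    calc ‖QQ A v‖ = ‖(QQ A v - v) + v‖ := by ring_nf
      _ ≤ 2 * r ^ 2 + r := (norm_add_le _ _).trans (add_le_add h1 hv)
      _ ≤ _ := by nlinarith
  have h3 : ‖γ * QQ A v‖ ≤ Γ * (4 * r) := by
    rw [norm_mul]; exact mul_le_mul hγ h2 (norm_nonneg _) hΓ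
  have h4 : ‖γ * QQ A v‖ ≤ 3 * Γ := h3.trans (by nlinarith)
  refine ⟨(norm_exp_le_exp_norm _).trans (Real.exp_le_exp.2 h4), ?_⟩
  have h5 := norm_exp_sub_sum_le_norm_mul_exp (γ * QQ A v) 2
  simp only [Finset.sum_range_succ, Finset.sum_range_zero, pow_zero, Nat.factorial_zero,
    Nat.cast_one, div_one, zero_add, pow_one, Nat.factorial_one] at h5
  have h6 : ‖exp (γ * QQ A v) - (1 + γ * QQ A v)‖ ≤ 16 * Γ ^ 2 * Real.exp (3 * Γ) * r ^ 2 := by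
    refine h5.trans ?_
    calc ‖γ * QQ A v‖ ^ 2 * Real.exp ‖γ * QQ A v‖ ≤ (Γ * (4 * r)) ^ 2 * Real.exp (3 * Γ) := by
          gcongr
      _ = _ := by ring
  have h7 : ‖γ * (QQ A v - v)‖ ≤ 2 * Γ * r ^ 2 := by
    rw [norm_mul]
    calc ‖γ‖ * ‖QQ A v - v‖ ≤ Γ * (2 * r ^ 2) := mul_le_mul hγ h1 (norm_nonneg _) hΓ
      _ = _ := by ring
  calc ‖exp (γ * QQ A v) - 1 - γ * v‖
      = ‖(exp (γ * QQ A v) - (1 + γ * QQ A v)) + γ * (QQ A v - v)‖ := by ring_nf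
    _ ≤ 16 * Γ ^ 2 * Real.exp (3 * Γ) * r ^ 2 + 2 * Γ * r ^ 2 :=
        (norm_add_le _ _).trans (add_le_add h6 h7)
    _ = _ := by ring

/-- the constant in the pointwise bound -/
noncomputable def C1 (Γ : ℝ) : ℝ :=
  72 * Real.exp (3 * Γ) + 2.5 * (2 * Γ + 16 * Γ ^ 2 * Real.exp (3 * Γ)) + 2 * Γ

theorem R_bound (Γ : ℝ) (A m : ℕ) (hA : 1 ≤ A) (hm : m ≤ 2) (w v γ : ℂ) (r : ℝ) (hr0 : 0 ≤ r)
    (hw : ‖w‖ ≤ r) (hv : ‖v‖ ≤ r) (hr : r ≤ 3 / 4) (hγ : ‖γ‖ ≤ Γ) :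
    ‖((1 - w) ^ m)⁻¹ * exp (γ * QQ A v) - 1 - (m * w + γ * v)‖ ≤ C1 Γ * r ^ 2 := by
  have hΓ : 0 ≤ Γ := (norm_nonneg _).trans hγ
  obtain ⟨hb1, hb2⟩ := exp_bound Γ A hA v γ r hr0 hv hr hγ
  have ha := inv_bound m hm w r hr0 hw hr
  have hmw : ‖(m : ℂ) * w‖ ≤ 1.5 := by
    rw [norm_mul, Complex.norm_natCast]
    have : (m : ℝ) ≤ 2 := by exact_mod_cast hm
    calc (m : ℝ) * ‖w‖ ≤ 2 * (3 / 4) := by gcongr; linarith
      _ ≤ _ := by norm_num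
  have hmw' : ‖(m : ℂ) * w‖ ≤ 2 * r := by
    rw [norm_mul, Complex.norm_natCast]
    have : (m : ℝ) ≤ 2 := by exact_mod_cast hm
    gcongr
  have e : ((1 - w) ^ m)⁻¹ * exp (γ * QQ A v) - 1 - (m * w + γ * v) =
      (((1 - w) ^ m)⁻¹ - 1 - m * w) * exp (γ * QQ A v) +
      (1 + m * w) * (exp (γ * QQ A v) - 1 - γ * v) + (m * w) * (γ * v) := by ring
  rw [e]
  refine (norm_add₃_le).trans ?_
  have t1 : ‖(((1 - w) ^ m)⁻¹ - 1 - m * w) * exp (γ * QQ A v)‖ ≤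
      72 * r ^ 2 * Real.exp (3 * Γ) := by
    rw [norm_mul]
    gcongr
  have t2 : ‖(1 + m * w) * (exp (γ * QQ A v) - 1 - γ * v)‖ ≤
      2.5 * ((2 * Γ + 16 * Γ ^ 2 * Real.exp (3 * Γ)) * r ^ 2) := by
    rw [norm_mul]
    have : ‖(1 : ℂ) + m * w‖ ≤ 2.5 := by
      refine (norm_add_le _ _).trans ?_
      rw [norm_one]; linarith
    gcongr
  have t3 : ‖((m : ℂ) * w) * (γ * v)‖ ≤ 2 * Γ * r ^ 2 := by
    rw [norm_mul, norm_mul γ v]
    calc ‖(m : ℂ) * w‖ * (‖γ‖ * ‖v‖) ≤ (2 * r) * (Γ * r) := by gcongr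
      _ = _ := by ring
  unfold C1
  nlinarith [t1, t2, t3]

theorem avg_bound {g : ℂ → ℂ} {h : ℂ} {K : ℝ} (hg : DifferentiableOn ℂ g (Metric.ball 0 (4 / 3)))
    (hR : ∀ z : ℂ, ‖z‖ ≤ 1 → ‖g z - 1 - h * z‖ ≤ K * ‖z‖ ^ 2) :
    Real.circleAverage (fun z => ‖g z‖ ^ 2) 0 1 ≤ 1 + ‖h‖ ^ 2 + K ^ 2 := by
  set R : ℂ → ℂ := fun z => g z - 1 - h * z with hRdef
  have hR0 : R 0 = 0 := by
    have := hR 0 (by simp)
    simpa [hRdef] using this
  have hRd : DifferentiableOn ℂ R (Metric.ball 0 (4 / 3)) := by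
    apply (hg.sub_const 1).sub
    exact (differentiable_id.const_mul h).differentiableOn
  set S : ℂ → ℂ := dslope R 0 with hS
  have hball : Metric.ball (0 : ℂ) (4 / 3) ∈ nhds (0 : ℂ) := Metric.ball_mem_nhds _ (by norm_num)
  have hSd : DifferentiableOn ℂ S (Metric.ball 0 (4 / 3)) :=
    (Complex.differentiableOn_dslope hball).2 hRd
  have hSz : ∀ z : ℂ, z ≠ 0 → S z = R z / z := by
    intro z hz
    rw [hS, dslope_of_ne _ hz, slope_def_field, hR0, sub_zero, sub_zero]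
  have hS0 : S 0 = 0 := by
    have hc : ContinuousAt S 0 := (hSd.continuousOn).continuousAt hball
    have hb : ∀ᶠ z in nhdsWithin (0 : ℂ) {0}ᶜ, ‖S z‖ ≤ K * ‖z‖ := by
      have h1 : Metric.ball (0 : ℂ) 1 ∈ nhdsWithin (0 : ℂ) {0}ᶜ :=
        mem_nhdsWithin_of_mem_nhds (Metric.ball_mem_nhds _ one_pos)
      filter_upwards [h1, self_mem_nhdsWithin] with z hz hz0
      have hz0' : z ≠ 0 := hz0
      have hzn : 0 < ‖z‖ := norm_pos_iff.2 hz0'
      rw [hSz z hz0', norm_div, div_le_iff₀ hzn]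
      have := hR z (by rw [mem_ball_zero_iff] at hz; exact hz.le)
      calc ‖R z‖ ≤ K * ‖z‖ ^ 2 := this
        _ = _ := by ring
    have ht : Filter.Tendsto S (nhdsWithin (0 : ℂ) {0}ᶜ) (nhds 0) := by
      apply squeeze_zero_norm' hb
      have : Filter.Tendsto (fun z : ℂ => K * ‖z‖) (nhds 0) (nhds (K * ‖(0 : ℂ)‖)) :=
        (continuous_const.mul continuous_norm).tendsto _
      rw [norm_zero, mul_zero] at this
      exact this.mono_left nhdsWithin_le_nhds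
    exact tendsto_nhds_unique (hc.tendsto.mono_left nhdsWithin_le_nhds) ht
  -- the identity on the circle
  set G : ℂ → ℂ := fun z => h * z + R z + starRingEnd ℂ h * S z with hG
  have hGd : DifferentiableOn ℂ G (Metric.ball 0 (4 / 3)) :=
    (((differentiable_id.const_mul h).differentiableOn).add hRd).add (hSd.const_mul _)
  have hsub : Metric.closedBall (0 : ℂ) 1 ⊆ Metric.ball 0 (4 / 3) :=
    Metric.closedBall_subset_ball (by norm_num)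
  have hsph : Metric.sphere (0 : ℂ) 1 ⊆ Metric.ball 0 (4 / 3) :=
    Metric.sphere_subset_closedBall.trans hsub
  have hGc : CircleIntegrable G 0 1 :=
    (hGd.continuousOn.mono hsph).circleIntegrable zero_le_one
  have hRc : ContinuousOn R (Metric.sphere (0 : ℂ) 1) := hRd.continuousOn.mono hsph
  have hGavg : Real.circleAverage G 0 1 = 0 := by
    have h1 : DiffContOnCl ℂ G (Metric.ball 0 |1|) := by
      rw [abs_one]
      apply DifferentiableOn.diffContOnCl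
      rw [closure_ball _ one_ne_zero]
      exact hGd.mono hsub
    rw [h1.circleAverage, hG]
    simp [hR0, hS0]
  have hid : ∀ z ∈ Metric.sphere (0 : ℂ) |1|,
      ‖g z‖ ^ 2 = (1 + ‖h‖ ^ 2) + (2 * (G z).re + ‖R z‖ ^ 2) := by
    intro z hz
    have hz1 : ‖z‖ = 1 := by simpa using hz
    have hz0 : z ≠ 0 := by intro h0; rw [h0, norm_zero] at hz1; norm_num at hz1
    have hconj : starRingEnd ℂ z = z⁻¹ := by
      rw [Complex.inv_def, Complex.normSq_eq_norm_sq, hz1]; simp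
    have hgz : g z = 1 + h * z + R z := by simp only [hRdef]; ring
    have hzz : z * starRingEnd ℂ z = 1 := by rw [hconj]; exact mul_inv_cancel₀ hz0
    have hSz' : S z = R z * starRingEnd ℂ z := by rw [hSz z hz0, hconj, div_eq_mul_inv]
    have key : (((‖g z‖ ^ 2 : ℝ)) : ℂ) =
        (((1 + ‖h‖ ^ 2) + (2 * (G z).re + ‖R z‖ ^ 2) : ℝ) : ℂ) := by
      push_cast
      have hre : (2 : ℂ) * ((G z).re : ℂ) = G z + starRingEnd ℂ (G z) := by
        rw [Complex.add_conj]; push_cast; ring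
      rw [hre, ← Complex.mul_conj', ← Complex.mul_conj', ← Complex.mul_conj', hgz, hG]
      simp only [map_add, map_mul, map_one, Complex.conj_conj, hSz']
      linear_combination (h * starRingEnd ℂ h) * hzz
    exact_mod_cast key
  have hK0 : ∀ z ∈ Metric.sphere (0 : ℂ) |1|, ‖R z‖ ^ 2 ≤ K ^ 2 := by
    intro z hz
    have hz1 : ‖z‖ = 1 := by simpa using hz
    have := hR z hz1.le
    rw [hz1, one_pow, mul_one] at this
    exact pow_le_pow_left₀ (norm_nonneg _) this 2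
  rw [Real.circleAverage_congr_sphere (f₂ := fun z => (1 + ‖h‖ ^ 2) + (2 * (G z).re + ‖R z‖ ^ 2))
    hid]
  have i1 : CircleIntegrable (fun _ : ℂ => 1 + ‖h‖ ^ 2) 0 1 :=
    (continuousOn_const).circleIntegrable zero_le_one
  have i2 : CircleIntegrable (fun z : ℂ => 2 * (G z).re) 0 1 := by
    apply ContinuousOn.circleIntegrable zero_le_one
    apply continuousOn_const.mul
    exact Complex.continuous_re.comp_continuousOn (hGd.continuousOn.mono hsph)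
  have i3 : CircleIntegrable (fun z : ℂ => ‖R z‖ ^ 2) 0 1 :=
    ContinuousOn.circleIntegrable zero_le_one (hRc.norm.pow 2)
  have i23 : CircleIntegrable (fun z : ℂ => 2 * (G z).re + ‖R z‖ ^ 2) 0 1 := by
    apply ContinuousOn.circleIntegrable zero_le_one
    apply ContinuousOn.add _ (hRc.norm.pow 2)
    apply continuousOn_const.mul
    exact Complex.continuous_re.comp_continuousOn (hGd.continuousOn.mono hsph)
  rw [Real.circleAverage_fun_add i1 i23, Real.circleAverage_fun_add i2 i3,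
    Real.circleAverage_const]
  have e1 : Real.circleAverage (fun z : ℂ => 2 * (G z).re) 0 1 = 0 := by
    have h1 : Real.circleAverage (Complex.reCLM ∘ G) 0 1 = 0 := by
      rw [Complex.reCLM.circleAverage_comp_comm hGc, hGavg, map_zero]
    have h2 : (fun z : ℂ => 2 * (G z).re) = fun z => (2 : ℝ) • ((Complex.reCLM ∘ G) z) := by
      ext z; simp
    rw [h2, Real.circleAverage_fun_smul, h1, smul_zero]
  have e2 : Real.circleAverage (fun z : ℂ => ‖R z‖ ^ 2) 0 1 ≤ K ^ 2 :=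
    Real.circleAverage_mono_on_of_le_circle i3 hK0
  linarith

end Local

theorem local_bound (Γ : ℝ) : ∃ C : ℝ, 0 ≤ C ∧ ∀ (A m : ℕ) (u γ : ℂ) (x : ℝ), 1 ≤ A → m ≤ 2 →
    ‖u‖ ≤ 3 / 4 → 0 ≤ x → x ≤ 3 / 4 → ‖γ‖ ≤ Γ →
    Real.circleAverage (fun z => ‖((1 - u * z) ^ m)⁻¹ * exp (γ * QQ A (x * z))‖ ^ 2) 0 1 ≤
      Real.exp (‖m * u + γ * x‖ ^ 2 + C * max ‖u‖ x ^ 4) := by
  refine ⟨Local.C1 Γ ^ 2, sq_nonneg _, ?_⟩
  intro A m u γ x hA hm hu hx0 hx hγ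
  set y := max ‖u‖ x with hy
  have hy0 : 0 ≤ y := le_max_of_le_right hx0
  have hy1 : y ≤ 3 / 4 := max_le hu hx
  have hg : DifferentiableOn ℂ (fun z => ((1 - u * z) ^ m)⁻¹ * exp (γ * QQ A (x * z)))
      (Metric.ball 0 (4 / 3)) := by
    apply DifferentiableOn.mul
    · apply DifferentiableOn.inv
      · apply Differentiable.differentiableOn
        fun_prop
      · intro z hz
        rw [mem_ball_zero_iff] at hz
        apply pow_ne_zero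
        intro h0
        have h1 : u * z = 1 := by linear_combination -h0
        have h2 : ‖u‖ * ‖z‖ = 1 := by rw [← norm_mul, h1, norm_one]
        have h3 : ‖u‖ * ‖z‖ < 1 := by
          have : ‖u‖ * ‖z‖ ≤ 3 / 4 * ‖z‖ := by gcongr
          linarith
        linarith
    · apply Differentiable.differentiableOn
      unfold QQ
      fun_prop
  have hR : ∀ z : ℂ, ‖z‖ ≤ 1 →
      ‖((1 - u * z) ^ m)⁻¹ * exp (γ * QQ A (x * z)) - 1 - (m * u + γ * x) * z‖ ≤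
        (Local.C1 Γ * y ^ 2) * ‖z‖ ^ 2 := by
    intro z hz
    have h1 := Local.R_bound Γ A m hA hm (u * z) (x * z) γ (y * ‖z‖) (by positivity)
      (by rw [norm_mul]; exact mul_le_mul_of_nonneg_right (le_max_left _ _) (norm_nonneg _))
      (by
        rw [norm_mul, Complex.norm_real, Real.norm_of_nonneg hx0]
        exact mul_le_mul_of_nonneg_right (le_max_right _ _) (norm_nonneg _))
      (by
        calc y * ‖z‖ ≤ 3 / 4 * 1 := by gcongr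
          _ = _ := by norm_num) hγ
    calc ‖((1 - u * z) ^ m)⁻¹ * exp (γ * QQ A (x * z)) - 1 - (m * u + γ * x) * z‖
        = ‖((1 - u * z) ^ m)⁻¹ * exp (γ * QQ A (x * z)) - 1 - (m * (u * z) + γ * (x * z))‖ := by
          congr 1; ring
      _ ≤ Local.C1 Γ * (y * ‖z‖) ^ 2 := h1
      _ = _ := by ring
  have h1 := Local.avg_bound hg hR
  refine h1.trans ?_
  have h2 := Real.add_one_le_exp (‖(m : ℂ) * u + γ * x‖ ^ 2 + Local.C1 Γ ^ 2 * y ^ 4)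
  refine le_trans (le_of_eq ?_) h2
  ring

end Pool.Agent.Lib.MP_973905_nt
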