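import Pool.Agent.Lib.MP_973905_nt.Defs

namespace Pool.Agent.Lib.MP_973905_nt

open MeasureTheory ProbabilityTheory Complex Filter Topology

/-- The uniform probability measure on `(0, 2π]`. -/
noncomputable def mu0 : Measure ℝ :=
  (ENNReal.ofReal (2 * Real.pi))⁻¹ • (volume.restrict (Set.Ioc 0 (2 * Real.pi)))

instance : IsProbabilityMeasure mu0 := by
  constructor
  simp only [mu0, Measure.smul_apply, Measure.restrict_apply MeasurableSet.univ, Set.univ_inter,
    Real.volume_Ioc, sub_zero, smul_eq_mul]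
  apply ENNReal.inv_mul_cancel
  · simp [Real.pi_pos]
  · exact ENNReal.ofReal_ne_top

lemma integral_mu0 {E : Type*} [NormedAddCommGroup E] [NormedSpace ℝ E] (g : ℂ → E) :
    ∫ θ, g (circleMap 0 1 θ) ∂mu0 = Real.circleAverage g 0 1 := by
  rw [mu0, integral_smul_measure, Real.circleAverage_def,
    intervalIntegral.integral_of_le (by positivity), ENNReal.toReal_inv,
    ENNReal.toReal_ofReal (by positivity)]

/-- Extension of a vector of angles indexed by `S` to a function on `ℕ`. -/
noncomputable def ext (S : Finset ℕ) (ω : S → ℝ) : ℕ → ℂ :=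
  fun n => if h : n ∈ S then circleMap 0 1 (ω ⟨n, h⟩) else 1

/-- Expectation over independent Steinhaus variables indexed by `S`. -/
noncomputable def ES {E : Type*} [NormedAddCommGroup E] [NormedSpace ℝ E] (S : Finset ℕ)
    (F : (ℕ → ℂ) → E) : E :=
  ∫ ω : S → ℝ, F (ext S ω) ∂(Measure.pi fun _ => mu0)

lemma ES_prod {𝕜 : Type*} [RCLike 𝕜] (S : Finset ℕ) (g : ℕ → ℂ → 𝕜) :
    ES S (fun x => ∏ p ∈ S, g p (x p)) = ∏ p ∈ S, Real.circleAverage (g p) 0 1 := by
  have h1 : ∀ ω : S → ℝ, ∏ p ∈ S, g p (ext S ω p) = ∏ p : S, g p (circleMap 0 1 (ω p)) := by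
    intro ω
    rw [← Finset.prod_coe_sort S]
    refine Finset.prod_congr rfl fun p _ => ?_
    simp [ext]
  simp only [ES, h1]
  rw [integral_fintype_prod_eq_prod (f := fun (p : S) (θ : ℝ) => g p (circleMap 0 1 θ)),
    ← Finset.prod_coe_sort S]
  exact Finset.prod_congr rfl fun p _ => integral_mu0 _

variable {m : ℕ} (Sb : Fin m → Finset ℕ)

/-- The random completely multiplicative function. -/
noncomputable def XX (ω : (j : Fin m) → Sb j → ℝ) : ℕ → ℂ :=
  fun n => ∏ j, ∏ p : Sb j, (circleMap 0 1 (ω j p)) ^ (n.factorization p)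

/-- Expectation over the random completely multiplicative function. -/
noncomputable def ER {E : Type*} [NormedAddCommGroup E] [NormedSpace ℝ E]
    (F : (ℕ → ℂ) → E) : E :=
  ∫ ω : (j : Fin m) → Sb j → ℝ, F (XX Sb ω) ∂(Measure.pi fun j => Measure.pi fun _ : Sb j => mu0)

lemma cmul_XX (ω : (j : Fin m) → Sb j → ℝ) : CMul (XX Sb ω) := by
  refine ⟨by simp [XX], fun a b ha hb => ?_⟩
  simp only [XX, Nat.factorization_mul ha hb, Finsupp.add_apply, pow_add, Finset.prod_mul_distrib]

lemma norm_XX (ω : (j : Fin m) → Sb j → ℝ) (n : ℕ) : ‖XX Sb ω n‖ = 1 := by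
  simp [XX, norm_prod]

/-- The blocks are disjoint sets of primes. -/
def Blk : Prop := (∀ j, ∀ p ∈ Sb j, p.Prime) ∧ ∀ i j, i ≠ j → Disjoint (Sb i) (Sb j)

/-- The union of all blocks. -/
def UU : Finset ℕ := Finset.univ.biUnion Sb

variable {Sb}

lemma mem_UU {p : ℕ} : p ∈ UU Sb ↔ ∃ j, p ∈ Sb j := by simp [UU]

lemma XX_prime (hB : Blk Sb) (ω : (j : Fin m) → Sb j → ℝ) {j : Fin m} {p : ℕ} (hp : p ∈ Sb j) :
    XX Sb ω p = circleMap 0 1 (ω j ⟨p, hp⟩) := by
  have hpp := hB.1 j p hp
  simp only [XX]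
  rw [Finset.prod_eq_single j, Finset.prod_eq_single ⟨p, hp⟩]
  · simp [hpp.factorization]
  · intro q _ hq
    have : (q : ℕ) ≠ p := fun h => hq (Subtype.ext h)
    simp [hpp.factorization, this.symm]
  · simp
  · intro i _ hi
    apply Finset.prod_eq_one
    intro q _
    have : (q : ℕ) ≠ p := by
      intro h
      exact Finset.disjoint_left.mp (hB.2 i j hi) q.2 (h ▸ hp)
    simp [hpp.factorization, this.symm]
  · simp

lemma XX_prime_notMem {ω : (j : Fin m) → Sb j → ℝ} {p : ℕ} (hpp : p.Prime) (hp : p ∉ UU Sb) :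
    XX Sb ω p = 1 := by
  simp only [XX]
  apply Finset.prod_eq_one
  intro j _
  apply Finset.prod_eq_one
  intro q _
  have : (q : ℕ) ≠ p := by
    intro h
    exact hp (mem_UU.mpr ⟨j, h ▸ q.2⟩)
  simp [hpp.factorization, this.symm]

lemma ER_prod {𝕜 : Type*} [RCLike 𝕜] (hB : Blk Sb) (F : Fin m → (ℕ → ℂ) → 𝕜)
    (hF : ∀ j f g, (∀ p ∈ Sb j, f p = g p) → F j f = F j g) :
    ER Sb (fun f => ∏ j, F j f) = ∏ j, ES (Sb j) (F j) := by
  have h1 : ∀ ω : (j : Fin m) → Sb j → ℝ, ∏ j, F j (XX Sb ω) = ∏ j, F j (ext (Sb j) (ω j)) := by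
    intro ω
    refine Finset.prod_congr rfl fun j _ => hF j _ _ fun p hp => ?_
    rw [XX_prime hB ω hp]
    simp [ext, hp]
  simp only [ER, h1]
  exact integral_fintype_prod_eq_prod (f := fun (j : Fin m) (x : Sb j → ℝ) => F j (ext (Sb j) x))

lemma circleAverage_pow_mul_conj_pow (a b : ℕ) :
    Real.circleAverage (fun z : ℂ => z ^ a * (starRingEnd ℂ) z ^ b) 0 1 = if a = b then 1 else 0 := by
  have key : ∀ a b : ℕ, b ≤ a →
      Real.circleAverage (fun z : ℂ => z ^ a * (starRingEnd ℂ) z ^ b) 0 1 =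
        if a = b then 1 else 0 := by
    intro a b hab
    have h1 : Real.circleAverage (fun z : ℂ => z ^ a * (starRingEnd ℂ) z ^ b) 0 1 =
        Real.circleAverage (fun z : ℂ => z ^ (a - b)) 0 1 := by
      apply Real.circleAverage_congr_sphere
      intro z hz
      have hz1 : ‖z‖ = 1 := by simpa using hz
      have hz2 : z * (starRingEnd ℂ) z = 1 := by
        rw [mul_conj, normSq_eq_norm_sq, hz1]; simp
      simp only
      nth_rewrite 1 [← Nat.sub_add_cancel hab]
      rw [pow_add, mul_assoc, ← mul_pow, hz2, one_pow, mul_one]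
    rw [h1]
    have h2 : DiffContOnCl ℂ (fun z : ℂ => z ^ (a - b)) (Metric.ball 0 |(1 : ℝ)|) :=
      (differentiable_pow _).diffContOnCl
    rw [h2.circleAverage]
    by_cases h : a = b
    · simp [h]
    · rw [if_neg h, zero_pow (by omega)]
  rcases le_total b a with h | h
  · exact key a b h
  · have h1 := key b a h
    have h2 : Real.circleAverage (fun z : ℂ => z ^ a * (starRingEnd ℂ) z ^ b) 0 1 =
        (starRingEnd ℂ) (Real.circleAverage (fun z : ℂ => z ^ b * (starRingEnd ℂ) z ^ a) 0 1) := by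
      rw [Real.circleAverage_def, Real.circleAverage_def,
        intervalIntegral.integral_of_le (by positivity),
        intervalIntegral.integral_of_le (by positivity)]
      rw [Complex.real_smul, Complex.real_smul, map_mul, conj_ofReal, ← integral_conj]
      congr 1
      apply integral_congr_ae
      refine Filter.Eventually.of_forall fun θ => ?_
      simp only [map_mul, map_pow, conj_conj]
      ring
    rw [h2, h1]
    by_cases hab : a = b
    · simp [hab]
    · rw [if_neg hab, if_neg (Ne.symm hab), map_zero]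

lemma ER_pair {a b : ℕ} (ha : a ∈ Nat.factoredNumbers (UU Sb))
    (hb : b ∈ Nat.factoredNumbers (UU Sb)) :
    ER Sb (fun f => f a * (starRingEnd ℂ) (f b)) = if a = b then 1 else 0 := by
  have h1 : ∀ ω : (j : Fin m) → Sb j → ℝ, XX Sb ω a * (starRingEnd ℂ) (XX Sb ω b) =
      ∏ j, ∏ p : Sb j, ((circleMap 0 1 (ω j p)) ^ (a.factorization p) *
        ((starRingEnd ℂ) (circleMap 0 1 (ω j p))) ^ (b.factorization p)) := by
    intro ω
    simp only [XX, map_prod, map_pow, Finset.prod_mul_distrib]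
  simp only [ER, h1]
  rw [integral_fintype_prod_eq_prod (f := fun (j : Fin m) (x : Sb j → ℝ) =>
    ∏ p : Sb j, ((circleMap 0 1 (x p)) ^ (a.factorization p) *
        ((starRingEnd ℂ) (circleMap 0 1 (x p))) ^ (b.factorization p)))]
  have h2 : ∀ j : Fin m, ∫ x : Sb j → ℝ, ∏ p : Sb j, ((circleMap 0 1 (x p)) ^ (a.factorization p) *
        ((starRingEnd ℂ) (circleMap 0 1 (x p))) ^ (b.factorization p)) ∂(Measure.pi fun _ => mu0) =
      ∏ p : Sb j, if a.factorization p = b.factorization p then (1 : ℂ) else 0 := by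
    intro j
    rw [integral_fintype_prod_eq_prod (f := fun (p : Sb j) (θ : ℝ) =>
      ((circleMap 0 1 θ) ^ (a.factorization p) *
        ((starRingEnd ℂ) (circleMap 0 1 θ)) ^ (b.factorization p)))]
    refine Finset.prod_congr rfl fun p _ => ?_
    rw [integral_mu0 (fun z : ℂ => z ^ (a.factorization p) * (starRingEnd ℂ) z ^ (b.factorization p)),
      circleAverage_pow_mul_conj_pow]
  simp only [h2]
  by_cases hab : a = b
  · simp [hab]
  · rw [if_neg hab]
    have ha0 : a ≠ 0 := Nat.ne_zero_of_mem_factoredNumbers ha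
    have hb0 : b ≠ 0 := Nat.ne_zero_of_mem_factoredNumbers hb
    have h3 : ∃ p : ℕ, a.factorization p ≠ b.factorization p := by
      by_contra hcon
      push Not at hcon
      exact hab (Nat.eq_of_factorization_eq ha0 hb0 hcon)
    obtain ⟨p, hp⟩ := h3
    have hpU : p ∈ UU Sb := by
      have h4 : p ∈ a.primeFactors ∨ p ∈ b.primeFactors := by
        by_contra hcon
        push Not at hcon
        apply hp
        rw [← Nat.support_factorization, ← Nat.support_factorization, Finsupp.notMem_support_iff,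
          Finsupp.notMem_support_iff] at hcon
        rw [hcon.1, hcon.2]
      rcases h4 with h4 | h4
      · exact (Nat.mem_factoredNumbers_iff_primeFactors_subset.mp ha).2 h4
      · exact (Nat.mem_factoredNumbers_iff_primeFactors_subset.mp hb).2 h4
    obtain ⟨j, hj⟩ := mem_UU.mp hpU
    apply Finset.prod_eq_zero (Finset.mem_univ j)
    apply Finset.prod_eq_zero (Finset.mem_univ ⟨p, hj⟩)
    simp [hp]

end Pool.Agent.Lib.MP_973905_nt
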