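import Pool.Agent.Lib.MP_973905_nt.Rand

namespace Pool.Agent.Lib.MP_973905_nt

open MeasureTheory ProbabilityTheory Complex Filter Topology

variable {m : ℕ} {Sb : Fin m → Finset ℕ}

lemma continuous_XX (n : ℕ) : Continuous fun ω : (j : Fin m) → Sb j → ℝ => XX Sb ω n := by
  unfold XX
  refine continuous_finsetProd _ fun j _ => continuous_finsetProd _ fun p _ => ?_
  have h1 : Continuous fun ω : (j : Fin m) → Sb j → ℝ => ω j p :=
    (continuous_apply p).comp (continuous_apply j)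
  exact ((continuous_circleMap 0 1).comp h1).pow _

/-- The probability measure on the space of angles. -/
noncomputable def PP0 (Sb : Fin m → Finset ℕ) : Measure ((j : Fin m) → Sb j → ℝ) :=
  Measure.pi fun j => Measure.pi fun _ : Sb j => mu0

instance (Sb : Fin m → Finset ℕ) : IsProbabilityMeasure (PP0 Sb) := by
  unfold PP0; infer_instance

lemma ER_eq {E : Type*} [NormedAddCommGroup E] [NormedSpace ℝ E] (F : (ℕ → ℂ) → E) :
    ER Sb F = ∫ ω, F (XX Sb ω) ∂(PP0 Sb) := rfl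

/-- Bounded functionals, continuous along the random function. -/
def BC {E : Type*} [NormedAddCommGroup E] (Sb : Fin m → Finset ℕ) (F : (ℕ → ℂ) → E) : Prop :=
  (Continuous fun ω => F (XX Sb ω)) ∧ ∃ C, ∀ ω, ‖F (XX Sb ω)‖ ≤ C

lemma BC.integrable {E : Type*} [NormedAddCommGroup E] {F : (ℕ → ℂ) → E} (h : BC Sb F) :
    Integrable (fun ω => F (XX Sb ω)) (PP0 Sb) := by
  obtain ⟨h1, C, h2⟩ := h
  by_cases hE : Nonempty ((j : Fin m) → Sb j → ℝ)
  · have : SecondCountableTopologyEither ((j : Fin m) → Sb j → ℝ) E := inferInstance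
    exact Integrable.of_bound h1.aestronglyMeasurable C (Filter.Eventually.of_forall h2)
  · exact absurd ⟨fun _ _ => 0⟩ hE

lemma DP.eval_XX {N M : ℝ} {G : (ℕ → ℂ) → ℂ} (h : DP N M G) : BC Sb G := by
  obtain ⟨k, c, n, h1, h2, h3⟩ := h
  have e : ∀ ω, G (XX Sb ω) = ∑ i, c i * XX Sb ω (n i) := fun ω => h3 _ (cmul_XX Sb ω)
  refine ⟨?_, ∑ i, ‖c i‖, fun ω => ?_⟩
  · simp only [e]
    exact continuous_finsetSum _ fun i _ => continuous_const.mul (continuous_XX _)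
  · rw [e]
    refine (norm_sum_le _ _).trans (Finset.sum_le_sum fun i _ => ?_)
    rw [norm_mul, norm_XX, mul_one]

lemma BC.mul {F G : (ℕ → ℂ) → ℂ} (hF : BC Sb F) (hG : BC Sb G) : BC Sb (fun f => F f * G f) := by
  obtain ⟨h1, C, h2⟩ := hF
  obtain ⟨h1', C', h2'⟩ := hG
  refine ⟨h1.mul h1', C * C', fun ω => ?_⟩
  rw [norm_mul]
  exact mul_le_mul (h2 ω) (h2' ω) (norm_nonneg _) ((norm_nonneg _).trans (h2 ω))

lemma BC.conj {F : (ℕ → ℂ) → ℂ} (hF : BC Sb F) : BC Sb (fun f => (starRingEnd ℂ) (F f)) := by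
  obtain ⟨h1, C, h2⟩ := hF
  exact ⟨continuous_conj.comp h1, C, fun ω => by rw [RCLike.norm_conj]; exact h2 ω⟩

lemma BC.norm_sq {F : (ℕ → ℂ) → ℂ} (hF : BC Sb F) : BC Sb (fun f => ‖F f‖ ^ 2) := by
  obtain ⟨h1, C, h2⟩ := hF
  refine ⟨h1.norm.pow 2, C ^ 2, fun ω => ?_⟩
  rw [Real.norm_eq_abs, abs_of_nonneg (by positivity)]
  exact pow_le_pow_left₀ (norm_nonneg _) (h2 ω) 2

lemma bc_apply (n : ℕ) : BC Sb (fun f => f n) :=
  ⟨continuous_XX n, 1, fun ω => (norm_XX Sb ω n).le⟩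

lemma bc_const {E : Type*} [NormedAddCommGroup E] (c : E) : BC Sb (fun _ => c) :=
  ⟨continuous_const, ‖c‖, fun _ => le_rfl⟩

lemma BC.const_mul {F : (ℕ → ℂ) → ℂ} (hF : BC Sb F) (c : ℂ) : BC Sb (fun f => c * F f) :=
  (bc_const c).mul hF

lemma bc_sum {ι : Type*} (s : Finset ι) {F : ι → (ℕ → ℂ) → ℂ} (h : ∀ i ∈ s, BC Sb (F i)) :
    BC Sb (fun f => ∑ i ∈ s, F i f) := by
  classical
  choose! C hC using fun i (hi : i ∈ s) => (h i hi).2
  refine ⟨continuous_finsetSum _ fun i hi => (h i hi).1, ∑ i ∈ s, C i, fun ω => ?_⟩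
  exact (norm_sum_le _ _).trans (Finset.sum_le_sum fun i hi => hC i hi ω)

lemma ER_sum {ι : Type*} (s : Finset ι) {F : ι → (ℕ → ℂ) → ℂ} (h : ∀ i ∈ s, BC Sb (F i)) :
    ER Sb (fun f => ∑ i ∈ s, F i f) = ∑ i ∈ s, ER Sb (F i) := by
  simp only [ER_eq]
  exact integral_finsetSum s fun i hi => (h i hi).integrable

lemma ER_const_mul (c : ℂ) (F : (ℕ → ℂ) → ℂ) : ER Sb (fun f => c * F f) = c * ER Sb F := by
  simp only [ER_eq]
  exact integral_const_mul c _

lemma BC.sub {F G : (ℕ → ℂ) → ℂ} (hF : BC Sb F) (hG : BC Sb G) : BC Sb (fun f => F f - G f) := by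
  refine ⟨hF.1.sub hG.1, ?_⟩
  obtain ⟨C, hC⟩ := hF.2
  obtain ⟨C', hC'⟩ := hG.2
  exact ⟨C + C', fun ω => (norm_sub_le _ _).trans (add_le_add (hC ω) (hC' ω))⟩

lemma BC.add {F G : (ℕ → ℂ) → ℂ} (hF : BC Sb F) (hG : BC Sb G) : BC Sb (fun f => F f + G f) := by
  refine ⟨hF.1.add hG.1, ?_⟩
  obtain ⟨C, hC⟩ := hF.2
  obtain ⟨C', hC'⟩ := hG.2
  exact ⟨C + C', fun ω => (norm_add_le _ _).trans (add_le_add (hC ω) (hC' ω))⟩

lemma ER_sub {F G : (ℕ → ℂ) → ℂ} (hF : BC Sb F) (hG : BC Sb G) :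
    ER Sb (fun f => F f - G f) = ER Sb F - ER Sb G := by
  simp only [ER_eq]
  exact integral_sub hF.integrable hG.integrable

lemma DP.congr_arg {N M : ℝ} {G : (ℕ → ℂ) → ℂ} (h : DP N M G) {f g : ℕ → ℂ} (hf : CMul f)
    (hg : CMul g) (hfg : ∀ n, n ≠ 0 → f n = g n) : G f = G g := by
  obtain ⟨k, c, n, h1, h2, h3⟩ := h
  rw [h3 f hf, h3 g hg]
  refine Finset.sum_congr rfl fun i _ => ?_
  rw [hfg (n i) (Nat.one_le_iff_ne_zero.mp (h1 i).1)]

lemma DP.fs_add {N M : ℝ} {G : (ℕ → ℂ) → ℂ} (h : DP N M G) (w s : ℂ) :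
    G (fs (w + s)) = G (tw w (fs s)) :=
  h.congr_arg (cmul_fs _) (cmul_tw (cmul_fs _) _) fun n hn => (tw_fs w s n hn).symm

lemma continuous_fs_mul_I {n : ℕ} (hn : n ≠ 0) : Continuous fun t : ℝ => fs (t * I) n := by
  simp only [fs_mul_I _ hn]
  fun_prop

lemma norm_fs_mul_I (t : ℝ) {n : ℕ} (hn : n ≠ 0) : ‖fs (t * I) n‖ = 1 := by
  rw [norm_fs _ hn]; simp

/-- Mean values of Dirichlet polynomials agree with those in the random model. -/
theorem transfer {N0 : ℝ} (hU : ∀ n : ℕ, 1 ≤ n → (n : ℝ) ≤ N0 → n ∈ Nat.factoredNumbers (UU Sb))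
    {N M N' M' : ℝ} {G H : (ℕ → ℂ) → ℂ} (hG : DP N M G) (hH : DP N' M' H)
    (hN : N ≤ N0) (hN' : N' ≤ N0) (T τ : ℝ) :
    ‖EG T τ (fun t => G (fs (t * I)) * (starRingEnd ℂ) (H (fs (t * I)))) -
      ER Sb (fun f => G f * (starRingEnd ℂ) (H f))‖ ≤
      M * M' * Real.exp (-(VV T / (2 * N0 ^ 2))) := by
  have hM := hG.M_nonneg
  obtain ⟨k, c, n, h1, h2, h3⟩ := hG
  obtain ⟨k', c', n', h1', h2', h3'⟩ := hH
  have hn0 : ∀ i, n i ≠ 0 := fun i => Nat.one_le_iff_ne_zero.mp (h1 i).1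
  have hn0' : ∀ i, n' i ≠ 0 := fun i => Nat.one_le_iff_ne_zero.mp (h1' i).1
  have e1 : ∀ f, CMul f → G f * (starRingEnd ℂ) (H f) =
      ∑ i, ∑ j, (c i * (starRingEnd ℂ) (c' j)) * (f (n i) * (starRingEnd ℂ) (f (n' j))) := by
    intro f hf
    rw [h3 f hf, h3' f hf, map_sum, Finset.sum_mul_sum]
    refine Finset.sum_congr rfl fun i _ => Finset.sum_congr rfl fun j _ => ?_
    rw [map_mul]; ring
  have eR : ER Sb (fun f => G f * (starRingEnd ℂ) (H f)) =
      ∑ i, ∑ j, (c i * (starRingEnd ℂ) (c' j)) * (if n i = n' j then 1 else 0) := by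
    have e2 : ER Sb (fun f => G f * (starRingEnd ℂ) (H f)) = ER Sb (fun f =>
        ∑ i, ∑ j, (c i * (starRingEnd ℂ) (c' j)) * (f (n i) * (starRingEnd ℂ) (f (n' j)))) := by
      simp only [ER_eq]
      exact integral_congr_ae (Filter.Eventually.of_forall fun ω => e1 _ (cmul_XX Sb ω))
    have hbc : ∀ i j, BC Sb (fun f => (c i * (starRingEnd ℂ) (c' j)) *
        (f (n i) * (starRingEnd ℂ) (f (n' j)))) := fun i j =>
      BC.const_mul ((bc_apply _).mul (bc_apply _).conj) _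
    rw [e2, ER_sum _ fun i _ => bc_sum _ fun j _ => hbc i j]
    refine Finset.sum_congr rfl fun i _ => ?_
    rw [ER_sum _ fun j _ => hbc i j]
    refine Finset.sum_congr rfl fun j _ => ?_
    rw [ER_const_mul, ER_pair (hU _ (h1 i).1 ((h1 i).2.trans hN))
      (hU _ (h1' j).1 ((h1' j).2.trans hN'))]
  have eG : EG T τ (fun t => G (fs (t * I)) * (starRingEnd ℂ) (H (fs (t * I)))) =
      ∑ i, ∑ j, (c i * (starRingEnd ℂ) (c' j)) *
        EG T τ (fun t => fs (t * I) (n i) * (starRingEnd ℂ) (fs (t * I) (n' j))) := by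
    have hint : ∀ i j, Integrable (fun t : ℝ => (c i * (starRingEnd ℂ) (c' j)) *
        (fs (t * I) (n i) * (starRingEnd ℂ) (fs (t * I) (n' j)))) (gaussianReal τ (VV T)) := by
      intro i j
      apply Integrable.const_mul
      apply Integrable.of_bound (C := 1)
      · exact ((continuous_fs_mul_I (hn0 i)).mul
          (continuous_conj.comp (continuous_fs_mul_I (hn0' j)))).aestronglyMeasurable
      · refine Filter.Eventually.of_forall fun t => ?_
        rw [norm_mul, RCLike.norm_conj, norm_fs_mul_I t (hn0 i), norm_fs_mul_I t (hn0' j)]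
        norm_num
    simp only [EG]
    rw [integral_congr_ae (Filter.Eventually.of_forall fun t : ℝ => e1 _ (cmul_fs (t * I)))]
    rw [integral_finsetSum _ fun i _ => integrable_finsetSum _ fun j _ => hint i j]
    refine Finset.sum_congr rfl fun i _ => ?_
    rw [integral_finsetSum _ fun j _ => hint i j]
    refine Finset.sum_congr rfl fun j _ => ?_
    exact integral_const_mul _ _
  rw [eR, eG, ← Finset.sum_sub_distrib]
  calc ‖∑ i, (∑ j, (c i * (starRingEnd ℂ) (c' j)) *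
        EG T τ (fun t => fs (t * I) (n i) * (starRingEnd ℂ) (fs (t * I) (n' j))) -
        ∑ j, (c i * (starRingEnd ℂ) (c' j)) * (if n i = n' j then 1 else 0))‖
      ≤ ∑ i, ∑ j, ‖c i‖ * ‖c' j‖ * Real.exp (-(VV T / (2 * N0 ^ 2))) := by
        refine (norm_sum_le _ _).trans (Finset.sum_le_sum fun i _ => ?_)
        rw [← Finset.sum_sub_distrib]
        refine (norm_sum_le _ _).trans (Finset.sum_le_sum fun j _ => ?_)
        rw [← mul_sub, norm_mul, norm_mul, RCLike.norm_conj]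
        gcongr
        exact eg_pair T τ (h1 i).1 (h1' j).1 ((h1 i).2.trans hN) ((h1' j).2.trans hN')
    _ = (∑ i, ‖c i‖) * (∑ j, ‖c' j‖) * Real.exp (-(VV T / (2 * N0 ^ 2))) := by
        rw [Finset.sum_mul_sum, Finset.sum_mul]
        refine Finset.sum_congr rfl fun i _ => ?_
        rw [Finset.sum_mul]
    _ ≤ _ := by gcongr

/-- Square-mean version of `transfer`. -/
theorem transfer_sq {N0 : ℝ}
    (hU : ∀ n : ℕ, 1 ≤ n → (n : ℝ) ≤ N0 → n ∈ Nat.factoredNumbers (UU Sb))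
    {N M : ℝ} {G : (ℕ → ℂ) → ℂ} (hG : DP N M G) (hN : N ≤ N0) (T τ : ℝ) :
    |EG T τ (fun t => ‖G (fs (t * I))‖ ^ 2) - ER Sb (fun f => ‖G f‖ ^ 2)| ≤
      M ^ 2 * Real.exp (-(VV T / (2 * N0 ^ 2))) := by
  have h := transfer hU hG hG hN hN T τ
  have h1 : EG T τ (fun t => G (fs (t * I)) * (starRingEnd ℂ) (G (fs (t * I)))) =
      ((EG T τ (fun t => ‖G (fs (t * I))‖ ^ 2) : ℝ) : ℂ) := by
    simp only [EG]
    rw [← integral_complex_ofReal]
    refine integral_congr_ae (Filter.Eventually.of_forall fun t => ?_)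
    simp only [mul_conj, normSq_eq_norm_sq]
  have h2 : ER Sb (fun f => G f * (starRingEnd ℂ) (G f)) =
      ((ER Sb (fun f => ‖G f‖ ^ 2) : ℝ) : ℂ) := by
    simp only [ER_eq]
    rw [← integral_complex_ofReal]
    refine integral_congr_ae (Filter.Eventually.of_forall fun t => ?_)
    simp only [mul_conj, normSq_eq_norm_sq]
  rw [h1, h2, ← ofReal_sub, norm_real, Real.norm_eq_abs] at h
  rwa [sq]

end Pool.Agent.Lib.MP_973905_nt
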